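import Pool.Agent.EscN.Defs

/-!
Definitions of module O of project ESCN (statements copied from `OIfc.lean`).
-/

noncomputable section

namespace EscN

open MeasureTheory Set Filter Topology Esc
open scoped ContDiff

variable {E : Type*} [NormedAddCommGroup E] [InnerProductSpace ℝ E] [FiniteDimensional ℝ E]

/-- `S` is connected by trajectories -/
def Conn (S : Set E) : Prop := ∀ a b : ℝ, a < b → ∀ z ∈ S, ∀ z' ∈ S,
  ∃ u : ℝ → E, Adm u ∧ InS S a b z u ∧ traj a z u b = z'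

/-- energy of near-minimizers -/
def En (S : Set E) (f : E → ℝ → ℝ) (M a b : ℝ) (z z' : E) : ℝ := 2 * (ker S f 0 a b z z' + M * (b - a))

/-- `Z` is a kernel geodesic on `[a,b]` (note `ker S f v a a _ _ = 0`) -/
structure KGeo (S : Set E) (f : E → ℝ → ℝ) (a b : ℝ) (Z : ℝ → E) : Prop where
  mem : ∀ t ∈ Icc a b, Z t ∈ S
  holder : ∃ C : ℝ, ∀ s ∈ Icc a b, ∀ t ∈ Icc a b, ‖Z t - Z s‖ ^ 2 ≤ C * |t - s|
  add : ∀ s t, a ≤ s → s ≤ t → t ≤ b →
    ker S f 0 a s (Z a) (Z s) + ker S f 0 s t (Z s) (Z t) + ker S f 0 t b (Z t) (Z b) =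
      ker S f 0 a b (Z a) (Z b)

end EscN
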