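import Pool.Agent.EscN.O1
import Pool.Agent.EscN.ODefs
import Pool.Agent.helper42.Esc.K

/-!
Module O2 of project ESCN: variation of the kernel of `S` in the end points.
-/

noncomputable section

namespace EscN

open MeasureTheory Set Filter Topology Esc
open scoped ContDiff

variable {E : Type*} [NormedAddCommGroup E] [InnerProductSpace ℝ E] [FiniteDimensional ℝ E]

section O2

/-- the actions are bounded below -/
theorem o2_act_ge {M : ℝ} {f : E → ℝ → ℝ} (hf : Good M f) (v : E) {a b : ℝ} (hab : a < b) (z : E)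
    {u : ℝ → E} (hu : Adm u) : -(M * (b - a)) ≤ act f v a b z u := by
  have h1 := energy_le_act hf v hab.le z hu
  have h2 : 0 ≤ ∫ t in a..b, ‖u t - v‖ ^ 2 / 2 :=
    intervalIntegral.integral_nonneg hab.le fun t _ => by positivity
  linarith

theorem o2_bdd {M : ℝ} {f : E → ℝ → ℝ} (hf : Good M f) (S : Set E) (v : E) {a b : ℝ} (hab : a < b)
    (z z' : E) :
    BddBelow {c | ∃ u : ℝ → E, Adm u ∧ InS S a b z u ∧ traj a z u b = z' ∧ c = act f v a b z u} := by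
  refine ⟨-(M * (b - a)), ?_⟩
  rintro c ⟨u, hu, -, -, rfl⟩
  exact o2_act_ge hf v hab z hu

theorem o2_ker_le {M : ℝ} {f : E → ℝ → ℝ} (hf : Good M f) {S : Set E} (v : E) {a b : ℝ} (hab : a < b)
    {z z' : E} {u : ℝ → E} (hu : Adm u) (hS : InS S a b z u) (hz : traj a z u b = z') :
    ker S f v a b z z' ≤ act f v a b z u :=
  csInf_le (o2_bdd hf S v hab z z') ⟨u, hu, hS, hz, rfl⟩

theorem o2_nonempty {S : Set E} (hc : Conn S) (f : E → ℝ → ℝ) (v : E) {a b : ℝ} (hab : a < b)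
    {z z' : E} (hz : z ∈ S) (hz' : z' ∈ S) :
    {c | ∃ u : ℝ → E, Adm u ∧ InS S a b z u ∧ traj a z u b = z' ∧ c = act f v a b z u}.Nonempty := by
  obtain ⟨u, hu, hS, he⟩ := hc a b hab z hz z' hz'
  exact ⟨_, u, hu, hS, he, rfl⟩

/-- near-minimizers -/
theorem o2_exists_lt {S : Set E} (hc : Conn S) (f : E → ℝ → ℝ) (v : E) {a b : ℝ} (hab : a < b)
    {z z' : E} (hz : z ∈ S) (hz' : z' ∈ S) {ε : ℝ} (hε : 0 < ε) :
    ∃ u, Adm u ∧ InS S a b z u ∧ traj a z u b = z' ∧ act f v a b z u < ker S f v a b z z' + ε := by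
  obtain ⟨_, ⟨u, hu, hS, he, rfl⟩, h⟩ :=
    Real.lt_sInf_add_pos (o2_nonempty hc f v hab hz hz') hε
  exact ⟨u, hu, hS, he, h⟩

theorem o2_ker_ge {M : ℝ} {f : E → ℝ → ℝ} (hf : Good M f) {S : Set E} (hc : Conn S) (v : E) {a b : ℝ}
    (hab : a < b) {z z' : E} (hz : z ∈ S) (hz' : z' ∈ S) : -(M * (b - a)) ≤ ker S f v a b z z' := by
  apply le_csInf (o2_nonempty hc f v hab hz hz')
  rintro _ ⟨u, hu, -, -, rfl⟩
  exact o2_act_ge hf v hab z hu

/-- linear interpolation -/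
theorem o2_traj_const (a b : ℝ) (ζ ξ : E) (t : ℝ) :
    traj a ζ (fun _ => (1 / (b - a)) • (ξ - ζ)) t = ζ + ((t - a) / (b - a)) • (ξ - ζ) := by
  unfold traj
  rw [intervalIntegral.integral_const, smul_smul, mul_one_div]

theorem o2_interp {a b : ℝ} (hab : a < b) {ζ ξ : E} {m : ℝ} (hζ : ‖ζ‖ ≤ m) (hξ : ‖ξ‖ ≤ m) {t : ℝ}
    (ht : t ∈ Icc a b) : ‖ζ + ((t - a) / (b - a)) • (ξ - ζ)‖ ≤ m := by
  have hba : 0 < b - a := by linarith
  have h0 : 0 ≤ (t - a) / (b - a) := div_nonneg (by linarith [ht.1]) hba.le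
  have h1 : (t - a) / (b - a) ≤ 1 := by rw [div_le_one hba]; linarith [ht.2]
  set s := (t - a) / (b - a) with hs
  have e : ζ + s • (ξ - ζ) = (1 - s) • ζ + s • ξ := by module
  rw [e]
  refine (norm_add_le _ _).trans ?_
  rw [norm_smul, norm_smul, Real.norm_of_nonneg (by linarith), Real.norm_of_nonneg h0]
  nlinarith [mul_le_mul_of_nonneg_left hζ (by linarith : (0:ℝ) ≤ 1 - s),
    mul_le_mul_of_nonneg_left hξ h0]

theorem o2_rt_lip {S : Set E} {rt : E → E} {r0 Cr : ℝ} (hR : Ret S rt r0 Cr) (x y : E) :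
    ‖rt x - rt y‖ ≤ Cr * ‖x - y‖ := by
  have h1 : ContDiff ℝ 1 rt := hR.smooth.of_le (by exact_mod_cast le_top)
  exact Convex.norm_image_sub_le_of_norm_fderiv_le (f := rt) (s := univ) (x := y) (y := x)
    (C := Cr) (𝕜 := ℝ) (fun w _ => (h1.differentiable (by norm_num)).differentiableAt)
    (fun w _ => hR.bd w) convex_univ (mem_univ _) (mem_univ _)

/-- action of the varied control -/
theorem o2_act_vc {S : Set E} {rt : E → E} {r0 Cr : ℝ} (hR : Ret S rt r0 Cr) {C1 : ℝ} (hC1 : 0 ≤ C1)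
    (hE : ∀ (v : E), (∀ x, fderiv ℝ rt x v = v) → ∀ (u w : ℝ → E), Adm u → Adm w →
      ∀ (a b : ℝ) (z ζ : E), a < b → InS S a b z u → ∀ m : ℝ, 0 ≤ m → m ≤ r0 →
      (∀ t ∈ Icc a b, ‖traj a ζ w t‖ ≤ m) →
      (∫ t in a..b, ‖vc rt a z u ζ w t - v‖ ^ 2 / 2) ≤ (∫ t in a..b, ‖u t - v‖ ^ 2 / 2) +
        (∫ t in a..b, inner ℝ (u t - v) (w t)) +
        C1 * ((∫ t in a..b, ‖w t‖ ^ 2) + m * ∫ t in a..b, ‖u t - v‖ ^ 2))
    {M : ℝ} {f : E → ℝ → ℝ} (hf : Good M f) {v : E} (hv : ∀ x, fderiv ℝ rt x v = v)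
    {a b : ℝ} (hab : a < b) {z z' : E} {ζ ξ : E} {m : ℝ} (hζ : ‖ζ‖ ≤ m) (hξ : ‖ξ‖ ≤ m) (hm : m ≤ r0)
    {u : ℝ → E} (hu : Adm u) (hS : InS S a b z u) (he : traj a z u b = z') :
    ker S f v a b (rt (z + ζ)) (rt (z' + ξ)) ≤ act f v a b z u +
      inner ℝ (z' - z - (b - a) • v) (ξ - ζ) / (b - a) +
      (C1 * (‖ξ - ζ‖ ^ 2 / (b - a)) + C1 * m * (2 * (act f v a b z u + M * (b - a))) +
        M * Cr * m * (b - a)) := by
  have hba : 0 < b - a := by linarith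
  have hm0 : 0 ≤ m := (norm_nonneg _).trans hζ
  set w : ℝ → E := fun _ => (1 / (b - a)) • (ξ - ζ) with hw
  have hwA : Adm w := Adm.const _
  have hη : ∀ t ∈ Icc a b, ‖traj a ζ w t‖ ≤ m := by
    intro t ht
    rw [hw, o2_traj_const]
    exact o2_interp hab hζ hξ ht
  have hvc := vc_adm hR hu hwA a z ζ
  have hin : InS S a b (rt (z + ζ)) (vc rt a z u ζ w) := by
    intro t ht
    rw [vc_traj hR hu hwA]
    exact hR.mem _ (hS t ht) _ ((hη t ht).trans hm)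
  have hend : traj a (rt (z + ζ)) (vc rt a z u ζ w) b = rt (z' + ξ) := by
    rw [vc_traj hR hu hwA, he, hw, o2_traj_const, div_self hba.ne', one_smul, add_sub_cancel]
  refine (o2_ker_le hf v hab hvc hin hend).trans ?_
  rw [act_eq hf v a b _ hvc]
  have h1 := hE v hv u w hu hwA a b z ζ hab hS m hm0 hm hη
  have i1 : (∫ t in a..b, (inner ℝ (u t - v) (w t) : ℝ)) =
      inner ℝ (z' - z - (b - a) • v) (ξ - ζ) / (b - a) := by
    have e0 : ∀ t, (inner ℝ (u t - v) (w t) : ℝ) = inner ℝ ((1 / (b - a)) • (ξ - ζ)) (u t - v) := by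
      intro t; rw [hw, real_inner_comm]
    simp_rw [e0]
    have e1 := (innerSL ℝ ((1 / (b - a)) • (ξ - ζ))).intervalIntegral_comp_comm
      ((hu.sub_const v).ii a b)
    rw [intervalIntegral.integral_sub (hu.ii a b) (by simp)] at e1
    have e2 : (∫ t in a..b, u t) = z' - z := by rw [← he]; simp [traj]
    simp only [intervalIntegral.integral_const, e2] at e1
    have e3 : (∫ t in a..b, (inner ℝ ((1 / (b - a)) • (ξ - ζ)) (u t - v) : ℝ)) =
        inner ℝ ((1 / (b - a)) • (ξ - ζ)) (z' - z - (b - a) • v) := e1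
    rw [e3, real_inner_smul_left, real_inner_comm]
    ring
  have i2 : (∫ t in a..b, ‖w t‖ ^ 2) = ‖ξ - ζ‖ ^ 2 / (b - a) := by
    simp only [hw, intervalIntegral.integral_const, smul_eq_mul, norm_smul, mul_pow]
    rw [Real.norm_of_nonneg (by positivity)]
    field_simp
  have i3 : (∫ t in a..b, ‖u t - v‖ ^ 2) ≤ 2 * (act f v a b z u + M * (b - a)) := by
    have e1 := energy_le_act hf v hab.le z hu
    have e2 : (∫ t in a..b, ‖u t - v‖ ^ 2 / 2) = (∫ t in a..b, ‖u t - v‖ ^ 2) / 2 :=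
      intervalIntegral.integral_div _ _
    rw [e2] at e1
    linarith
  have i4 : (∫ t in a..b, f (traj a (rt (z + ζ)) (vc rt a z u ζ w) t) t) ≤
      (∫ t in a..b, f (traj a z u t) t) + M * Cr * m * (b - a) := by
    have e1 : (∫ t in a..b, f (traj a (rt (z + ζ)) (vc rt a z u ζ w) t) t) ≤
        ∫ t in a..b, (f (traj a z u t) t + M * Cr * m) := by
      apply intervalIntegral.integral_mono_on hab.le (f_traj_ii hf hvc a _ a b)
        ((f_traj_ii hf hu a z a b).add (by simp))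
      intro t ht
      rw [vc_traj hR hu hwA]
      have h2 := hf.lipx (rt (traj a z u t + traj a ζ w t)) (traj a z u t) t
      have h3 : ‖rt (traj a z u t + traj a ζ w t) - traj a z u t‖ ≤ Cr * m := by
        have h4 := o2_rt_lip hR (traj a z u t + traj a ζ w t) (traj a z u t)
        rw [hR.id _ (hS t ht), add_sub_cancel_left] at h4
        have hCr : 0 ≤ Cr := (norm_nonneg _).trans (hR.bd 0)
        exact h4.trans (mul_le_mul_of_nonneg_left (hη t ht) hCr)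
      have h5 := (abs_le.mp h2).2
      have h6 := mul_le_mul_of_nonneg_left h3 hf.pos
      nlinarith
    rw [intervalIntegral.integral_add (f_traj_ii hf hu a z a b) (by simp)] at e1
    simp only [intervalIntegral.integral_const, smul_eq_mul] at e1
    linarith
  have i5 := act_eq hf v a b z hu
  rw [i1, i2] at h1
  have i6 : C1 * (‖ξ - ζ‖ ^ 2 / (b - a) + m * ∫ t in a..b, ‖u t - v‖ ^ 2) ≤
      C1 * (‖ξ - ζ‖ ^ 2 / (b - a)) + C1 * m * (2 * (act f v a b z u + M * (b - a))) := by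
    have := mul_le_mul_of_nonneg_left i3 (mul_nonneg hC1 hm0)
    rw [mul_add, ← mul_assoc C1 m]
    linarith
  linarith

theorem ker_var_gen {S : Set E} {rt : E → E} {r0 Cr : ℝ} (hR : Ret S rt r0 Cr) (hc : Conn S) (M : ℝ) :
    ∃ C : ℝ, 0 ≤ C ∧ ∀ (f : E → ℝ → ℝ), Good M f → ∀ v : E, (∀ x, fderiv ℝ rt x v = v) →
      ∀ a b : ℝ, a < b → ∀ z ∈ S, ∀ z' ∈ S, ∀ ζ ξ : E, ∀ m : ℝ, ‖ζ‖ ≤ m → ‖ξ‖ ≤ m → m ≤ r0 →
      ker S f v a b (rt (z + ζ)) (rt (z' + ξ)) ≤ ker S f v a b z z' +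
        inner ℝ (z' - z - (b - a) • v) (ξ - ζ) / (b - a) +
        C * (‖ξ - ζ‖ ^ 2 / (b - a) + m * (2 * (ker S f v a b z z' + M * (b - a)) + (b - a))) := by
  obtain ⟨C1, hC1, hE⟩ := vc_energy hR
  have hCr : 0 ≤ Cr := (norm_nonneg _).trans (hR.bd 0)
  refine ⟨C1 + |M| * Cr, by positivity, ?_⟩
  intro f hf v hv a b hab z hz z' hz' ζ ξ m hζ hξ hm
  have hba : 0 < b - a := by linarith
  have hm0 : 0 ≤ m := (norm_nonneg _).trans hζ
  have hM := hf.pos
  rw [abs_of_nonneg hM]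
  apply le_of_forall_pos_le_add
  intro ε hε
  have hδ : 0 < ε / (1 + 2 * C1 * m) := by positivity
  obtain ⟨u, hu, hS, he, hlt⟩ := o2_exists_lt hc f v hab hz hz' hδ
  have h1 := o2_act_vc hR hC1 hE hf hv hab hζ hξ hm hu hS he
  have hk := o2_ker_ge hf hc v hab hz hz'
  set K := ker S f v a b z z' with hK
  set A := act f v a b z u with hA
  set δ := ε / (1 + 2 * C1 * m) with hδd
  have h2 : (1 + 2 * C1 * m) * δ = ε := by rw [hδd]; field_simp
  have h3 : (1 + 2 * C1 * m) * A ≤ (1 + 2 * C1 * m) * K + ε := by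
    have := mul_le_mul_of_nonneg_left hlt.le (by positivity : 0 ≤ 1 + 2 * C1 * m)
    rw [mul_add, h2] at this
    exact this
  have p1 : 0 ≤ M * Cr * (‖ξ - ζ‖ ^ 2 / (b - a)) := by positivity
  have p2 : 0 ≤ M * Cr * (m * (2 * (K + M * (b - a)))) := by
    have : 0 ≤ K + M * (b - a) := by linarith
    positivity
  have p3 : 0 ≤ C1 * m * (b - a) := by positivity
  nlinarith [h1, h3, p1, p2, p3]

theorem ker_var {S : Set E} {rt : E → E} {r0 Cr : ℝ} (hR : Ret S rt r0 Cr) (hc : Conn S) {M : ℝ}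
    {f : E → ℝ → ℝ} (hf : Good M f) : ∃ C : ℝ, 0 ≤ C ∧ ∀ a b : ℝ, a < b → ∀ z ∈ S, ∀ z' ∈ S, ∀ ζ ξ : E,
      ∀ m : ℝ, ‖ζ‖ ≤ m → ‖ξ‖ ≤ m → m ≤ r0 →
      ker S f 0 a b (rt (z + ζ)) (rt (z' + ξ)) ≤ ker S f 0 a b z z' + inner ℝ (z' - z) (ξ - ζ) / (b - a) +
        C * (‖ξ - ζ‖ ^ 2 / (b - a) + m * (En S f M a b z z' + (b - a))) := by
  obtain ⟨C, hC, h⟩ := ker_var_gen hR hc M
  refine ⟨C, hC, fun a b hab z hz z' hz' ζ ξ m hζ hξ hm => ?_⟩
  have h1 := h f hf 0 (fun x => map_zero _) a b hab z hz z' hz' ζ ξ m hζ hξ hm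
  rw [smul_zero, sub_zero] at h1
  exact h1

/-- short connections -/
theorem ker_close {S : Set E} {rt : E → E} {r0 Cr : ℝ} (hR : Ret S rt r0 Cr) {M : ℝ}
    {f : E → ℝ → ℝ} (hf : Good M f) : ∃ C : ℝ, 0 ≤ C ∧ ∀ a b : ℝ, a < b → ∀ z ∈ S, ∀ z' ∈ S,
      ‖z' - z‖ ≤ r0 → ker S f 0 a b z z' ≤ C * ‖z' - z‖ ^ 2 / (b - a) + M * (b - a) := by
  have hCr : 0 ≤ Cr := (norm_nonneg _).trans (hR.bd 0)
  refine ⟨Cr ^ 2 / 2, by positivity, ?_⟩
  intro a b hab z hz z' hz' hd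
  have hba : 0 < b - a := by linarith
  set w : ℝ → E := fun _ => (1 / (b - a)) • (z' - z - 0) with hw
  have hwA : Adm w := Adm.const _
  have h0A : Adm (fun _ : ℝ => (0 : E)) := Adm.const _
  have hr0 : 0 ≤ r0 := hR.r0_pos.le
  have ht0 : ∀ t, traj a z (fun _ : ℝ => (0 : E)) t = z := by
    intro t; simp [traj]
  have hη : ∀ t ∈ Icc a b, ‖traj a 0 w t‖ ≤ r0 := by
    intro t ht
    rw [hw, o2_traj_const]
    exact o2_interp hab (by simpa using hr0) hd ht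
  have hvc := vc_adm hR h0A hwA a z 0
  have hst : rt (z + 0) = z := by rw [add_zero, hR.id z hz]
  have htr : ∀ t, traj a z (vc rt a z (fun _ => 0) 0 w) t = rt (z + traj a 0 w t) := by
    intro t
    have := vc_traj hR h0A hwA a z 0 t
    rwa [hst, ht0] at this
  have hin : InS S a b z (vc rt a z (fun _ => 0) 0 w) := by
    intro t ht
    rw [htr]
    exact hR.mem _ hz _ (hη t ht)
  have hend : traj a z (vc rt a z (fun _ => 0) 0 w) b = z' := by
    rw [htr, hw, o2_traj_const, div_self hba.ne', one_smul, sub_zero, zero_add, add_sub_cancel,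
      hR.id z' hz']
  refine (o2_ker_le hf 0 hab hvc hin hend).trans ?_
  rw [act_eq hf 0 a b _ hvc]
  have h1 := (abs_le.mp (f_int_bd hf (u := vc rt a z (fun _ => 0) 0 w) a z hab.le)).2
  have h2 : (∫ t in a..b, ‖vc rt a z (fun _ => 0) 0 w t - 0‖ ^ 2 / 2) ≤
      ∫ _t in a..b, (Cr * (‖z' - z‖ / (b - a))) ^ 2 / 2 := by
    apply intervalIntegral.integral_mono_on hab.le ((hvc.sub_const 0).sq_ii a b) (by simp)
    intro t _
    have h3 : ‖vc rt a z (fun _ => 0) 0 w t - 0‖ ≤ Cr * (‖z' - z‖ / (b - a)) := by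
      rw [sub_zero]
      unfold vc
      refine (ContinuousLinearMap.le_opNorm _ _).trans ?_
      have h4 : ‖(0 : E) + w t‖ = ‖z' - z‖ / (b - a) := by
        rw [zero_add, hw]
        simp only [sub_zero, norm_smul]
        rw [Real.norm_of_nonneg (by positivity)]
        ring
      rw [h4]
      exact mul_le_mul_of_nonneg_right (hR.bd _) (by positivity)
    have h5 := pow_le_pow_left₀ (norm_nonneg _) h3 2
    linarith
  simp only [intervalIntegral.integral_const, smul_eq_mul] at h2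
  have h6 : (b - a) * ((Cr * (‖z' - z‖ / (b - a))) ^ 2 / 2) = Cr ^ 2 / 2 * ‖z' - z‖ ^ 2 / (b - a) := by
    field_simp
  linarith

end O2

end EscN
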