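import Pool.Agent.EscN.K
import Pool.Agent.EscN.O2
import Pool.Agent.helper42.Esc.K2

/-!
Module K2 of the escape theorem on `(R^n x N)/Z^n` (MP_6acca1_an): the periodic kernel.
-/

set_option linter.unusedSectionVars false

noncomputable section

namespace EscN

open MeasureTheory Set Filter Topology Esc intervalIntegral
open scoped ContDiff

section ModuleK2

variable {d : ℕ} {E : Type*} [NormedAddCommGroup E] [InnerProductSpace ℝ E] [FiniteDimensional ℝ E]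
  (L : Sp d E)

theorem k2_split (x : E) : L.P x + L.y x • L.e + L.Q x = x := by unfold Sp.Q; abel

theorem k2_y_sub (x x' : E) : L.y (x - x') = L.y x - L.y x' := inner_sub_right _ _ _

/-- reduction modulo the lattice -/
theorem k2_red (x : E) : ∃ n : Fin d → ℤ, ∃ θ : Fin d → ℝ,
    (∀ i, 0 ≤ θ i ∧ θ i ≤ 1) ∧ L.P x + L.lv n = ∑ i, θ i • L.b i := by
  have := L.P_mem x
  rw [Submodule.mem_span_range_iff_exists_fun] at this
  obtain ⟨c, hc⟩ := this
  refine ⟨fun i => - ⌊c i⌋, fun i => Int.fract (c i), fun i => ⟨Int.fract_nonneg _, (Int.fract_lt_one _).le⟩, ?_⟩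
  rw [← hc]
  unfold Sp.lv
  rw [← Finset.sum_add_distrib]
  congr 1; ext i
  rw [← add_smul]
  congr 1
  push_cast
  rw [Int.fract]; ring

/-- size of the fundamental cell -/
def k2C : ℝ := (∑ i, ‖L.b i‖) + 2 + 2 * |L.R0|

theorem k2C_nonneg : 0 ≤ k2C L := by
  have : 0 ≤ ∑ i, ‖L.b i‖ := Finset.sum_nonneg fun _ _ => norm_nonneg _
  have := abs_nonneg L.R0
  unfold k2C; positivity

theorem k2_comb_le {θ : Fin d → ℝ} (h : ∀ i, 0 ≤ θ i ∧ θ i ≤ 1) : ‖∑ i, θ i • L.b i‖ ≤ ∑ i, ‖L.b i‖ := by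
  refine (norm_sum_le _ _).trans (Finset.sum_le_sum fun i _ => ?_)
  rw [norm_smul, Real.norm_of_nonneg (h i).1]
  have := norm_nonneg (L.b i)
  nlinarith [(h i).2]

theorem k2_Q_le {x : E} (hx : x ∈ L.S) : ‖L.Q x‖ ≤ |L.R0| := (L.S_bd x hx).trans (le_abs_self _)

/-- a good deck map: the displacement differs from the velocity by a bounded amount -/
theorem k2_good (s : ℝ) {z z' : E} (hz : z ∈ L.S) (hz' : z' ∈ L.S) (h : |L.y z - L.y z'| ≤ 2) :
    ∃ n : Fin d → ℤ, ‖L.dk n z' - z - L.vel s‖ ≤ k2C L := by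
  obtain ⟨n, θ, hθ, e⟩ := k2_red L (z' - z - L.vel s)
  refine ⟨n, ?_⟩
  have e2 : L.dk n z' - z - L.vel s = (L.P (z' - z - L.vel s) + L.lv n) + (L.y z' - L.y z) • L.e
      + (L.Q (L.dk n z') - L.Q z) := by
    have h1 := k2_split L (L.dk n z')
    have h2 := k2_split L z
    rw [P_dk, y_dk] at h1
    rw [map_sub, map_sub, P_vel]
    conv_lhs => rw [← h1, ← h2]
    rw [sub_smul]; abel
  rw [e2, e]
  refine (norm_add_le _ _).trans ?_
  have h3 : ‖(∑ i, θ i • L.b i) + (L.y z' - L.y z) • L.e‖ ≤ (∑ i, ‖L.b i‖) + 2 := by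
    refine (norm_add_le _ _).trans ?_
    gcongr
    · exact k2_comb_le L hθ
    · rw [norm_smul, L.norm_e, mul_one, Real.norm_eq_abs, abs_sub_comm]
      exact h
  have h4 : ‖L.Q (L.dk n z') - L.Q z‖ ≤ 2 * |L.R0| := by
    refine (norm_sub_le _ _).trans ?_
    have := k2_Q_le L ((S_dk L n).mpr hz')
    have := k2_Q_le L hz
    linarith
  unfold k2C
  linarith

/-- finiteness of lattice points in balls -/
theorem k2_lv_finite (x : E) (R : ℝ) : {n : Fin d → ℤ | ‖x + L.lv n‖ ≤ R}.Finite := by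
  set T : (Fin d → ℝ) →ₗ[ℝ] E := Fintype.linearCombination ℝ L.b with hT
  have hTk : LinearMap.ker T = ⊥ := by
    have := L.li
    rw [LinearMap.ker_eq_bot]
    exact linearIndependent_iff_injective_fintypeLinearCombination.mp this
  obtain ⟨K, -, hK⟩ := T.exists_antilipschitzWith hTk
  have hlv : ∀ n : Fin d → ℤ, T (fun i => (n i : ℝ)) = L.lv n := by
    intro n; rw [hT, Fintype.linearCombination_apply]; rfl
  set B : ℝ := K * (R + ‖x‖) with hB
  apply (Set.finite_Icc (fun _ : Fin d => - ⌈B⌉) (fun _ : Fin d => ⌈B⌉)).subset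
  intro n hn
  have hn' : ‖x + L.lv n‖ ≤ R := hn
  have h1 := hK.le_mul_dist (fun i => (n i : ℝ)) 0
  rw [map_zero, dist_zero_right, dist_zero_right, hlv] at h1
  have h2 : ‖L.lv n‖ ≤ R + ‖x‖ := by
    have : L.lv n = (x + L.lv n) - x := by abel
    rw [this]; exact (norm_sub_le _ _).trans (by linarith)
  have h3 : ∀ i, |(n i : ℝ)| ≤ B := by
    intro i
    have := norm_le_pi_norm (fun i => (n i : ℝ)) i
    rw [Real.norm_eq_abs] at this
    refine this.trans (h1.trans ?_)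
    rw [hB]; gcongr
  constructor
  · intro i
    have := (abs_le.mp (h3 i)).1
    have h4 := Int.le_ceil B
    have : (-(⌈B⌉ : ℝ)) ≤ n i := by linarith
    exact_mod_cast this
  · intro i
    have := (abs_le.mp (h3 i)).2
    have h4 := Int.le_ceil B
    have : (n i : ℝ) ≤ ⌈B⌉ := by linarith
    exact_mod_cast this

theorem k2_dk_finite (v z z' : E) (R : ℝ) : {n : Fin d → ℤ | ‖L.dk n z' - z - v‖ ≤ R}.Finite := by
  apply (k2_lv_finite L (L.P (z' - z - v)) (‖L.P‖ * R)).subset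
  intro n hn
  have hn' : ‖L.dk n z' - z - v‖ ≤ R := hn
  show ‖L.P (z' - z - v) + L.lv n‖ ≤ ‖L.P‖ * R
  have e : L.P (z' - z - v) + L.lv n = L.P (L.dk n z' - z - v) := by
    simp only [map_sub]
    rw [P_dk]; abel
  rw [e]
  refine (L.P.le_opNorm _).trans ?_
  gcongr

/-! ### the periodic kernel -/

theorem ker_ge_neg {M : ℝ} {f : E → ℝ → ℝ} (hf : Good M f) (v : E) {z z' : E} (hz : z ∈ L.S)
    (hz' : z' ∈ L.S) : -M ≤ ker L.S f v 0 1 z z' := by
  have := ker_lower L hf v one_pos hz hz'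
  have h2 : 0 ≤ ‖z' - z - ((1:ℝ) - 0) • v‖ ^ 2 / (2 * (1 - 0)) := by positivity
  linarith

theorem kbar_bdd {M : ℝ} {f : E → ℝ → ℝ} (hf : Good M f) (s : ℝ) {z z' : E} (hz : z ∈ L.S)
    (hz' : z' ∈ L.S) :
    BddBelow (range fun n : Fin d → ℤ => ker L.S f (L.vel s) 0 1 z (L.dk n z')) := by
  refine ⟨-M, ?_⟩
  rintro _ ⟨n, rfl⟩
  exact ker_ge_neg L hf _ hz ((S_dk L n).mpr hz')

theorem kbar_le_ker {M : ℝ} {f : E → ℝ → ℝ} (hf : Good M f) (s : ℝ) {z z' : E} (hz : z ∈ L.S)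
    (hz' : z' ∈ L.S) (n : Fin d → ℤ) : L.kbar f s z z' ≤ ker L.S f (L.vel s) 0 1 z (L.dk n z') :=
  ciInf_le (kbar_bdd L hf s hz hz') n

/-- the infimum over the lattice is attained -/
theorem kbar_attained {M : ℝ} {f : E → ℝ → ℝ} (hf : Good M f) (s : ℝ) {z z' : E} (hz : z ∈ L.S)
    (hz' : z' ∈ L.S) : ∃ n : Fin d → ℤ, L.kbar f s z z' = ker L.S f (L.vel s) 0 1 z (L.dk n z') := by
  set F : (Fin d → ℤ) → ℝ := fun n => ker L.S f (L.vel s) 0 1 z (L.dk n z') with hF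
  have hfin : {n | F n ≤ F 0}.Finite := by
    apply (k2_dk_finite L (L.vel s) z z' (Real.sqrt (2 * (F 0 + M)))).subset
    intro n hn
    have hn' : F n ≤ F 0 := hn
    show ‖L.dk n z' - z - L.vel s‖ ≤ _
    have h1 := ker_lower L hf (L.vel s) one_pos hz ((S_dk L n).mpr hz')
    have e : L.dk n z' - z - ((1:ℝ) - 0) • L.vel s = L.dk n z' - z - L.vel s := by
      rw [sub_zero, one_smul]
    rw [e] at h1
    apply Real.le_sqrt_of_sq_le
    have : ker L.S f (L.vel s) 0 1 z (L.dk n z') = F n := rfl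
    linarith
  obtain ⟨n, hn, hmin⟩ := Set.exists_min_image _ F hfin ⟨0, le_refl (F 0)⟩
  refine ⟨n, le_antisymm (kbar_le_ker L hf s hz hz' n) ?_⟩
  apply le_ciInf
  intro m
  by_cases hm : F m ≤ F 0
  · exact hmin m hm
  · have h1 : F n ≤ F 0 := hn
    exact h1.trans (not_le.mp hm).le

theorem kbar_ge {M : ℝ} {f : E → ℝ → ℝ} (hf : Good M f) (s : ℝ) {z z' : E} (hz : z ∈ L.S)
    (hz' : z' ∈ L.S) : -M ≤ L.kbar f s z z' :=
  le_ciInf fun n => ker_ge_neg L hf _ hz ((S_dk L n).mpr hz')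

theorem kbar_le_of {M : ℝ} {f : E → ℝ → ℝ} (hf : Good M f) (s : ℝ) {z z' : E} (hz : z ∈ L.S)
    (hz' : z' ∈ L.S) (h : |L.y z - L.y z'| ≤ 2) :
    L.kbar f s z z' ≤ (k2C L ^ 2 + L.Cc ^ 2) / 2 + M := by
  obtain ⟨n, hn⟩ := k2_good L s hz hz' h
  refine (kbar_le_ker L hf s hz hz' n).trans ((ker_upper L hf (Q_vel L s) one_pos hz
    ((S_dk L n).mpr hz')).trans ?_)
  have e : L.dk n z' - z - ((1:ℝ) - 0) • L.vel s = L.dk n z' - z - L.vel s := by
    rw [sub_zero, one_smul]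
  rw [e]
  have := norm_nonneg (L.dk n z' - z - L.vel s)
  have h2 : ‖L.dk n z' - z - L.vel s‖ ^ 2 ≤ k2C L ^ 2 := by gcongr
  norm_num
  linarith

theorem kbar_sub_le {M ρ : ℝ} {f f' : E → ℝ → ℝ} (hf : Good M f) (hf' : Good M f')
    (h : ∀ x ∈ L.S, ∀ t, |f x t - f' x t| ≤ ρ) (s : ℝ) {z z' : E} (hz : z ∈ L.S) (hz' : z' ∈ L.S) :
    |L.kbar f s z z' - L.kbar f' s z z'| ≤ ρ := by
  have key : ∀ {g g' : E → ℝ → ℝ}, Good M g → Good M g' → (∀ x ∈ L.S, ∀ t, |g x t - g' x t| ≤ ρ) →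
      L.kbar g s z z' ≤ L.kbar g' s z z' + ρ := by
    intro g g' hg hg' h
    obtain ⟨n, hn⟩ := kbar_attained L hg' s hz hz'
    rw [hn]
    have h1 := kbar_le_ker L hg s hz hz' n
    have h2 := (abs_le.mp (ker_sub_le L hg hg' h (L.vel s) one_pos hz ((S_dk L n).mpr hz'))).2
    linarith
  have h1 := key hf hf' h
  have h2 := key hf' hf (fun x hx t => by rw [abs_sub_comm]; exact h x hx t)
  rw [abs_le]; constructor <;> linarith

theorem kbar_mono {M : ℝ} {f f' : E → ℝ → ℝ} (hf : Good M f) (hf' : Good M f')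
    (h : ∀ x t, f x t ≤ f' x t) (s : ℝ) {z z' : E} (hz : z ∈ L.S) (hz' : z' ∈ L.S) :
    L.kbar f s z z' ≤ L.kbar f' s z z' := by
  obtain ⟨n, hn⟩ := kbar_attained L hf' s hz hz'
  rw [hn]
  exact (kbar_le_ker L hf s hz hz' n).trans (ker_mono L hf hf' h _ one_pos hz ((S_dk L n).mpr hz'))

/-- concavity in the potential (finite averages) -/
theorem kbar_concave {M : ℝ} {ι : Type*} (I : Finset ι) (hI : I.Nonempty) {f : ι → E → ℝ → ℝ}
    (hf : ∀ i ∈ I, Good M (f i)) (s : ℝ) {z z' : E} (hz : z ∈ L.S) (hz' : z' ∈ L.S) :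
    (∑ i ∈ I, L.kbar (f i) s z z') / I.card ≤
      L.kbar (fun x t => (∑ i ∈ I, f i x t) / I.card) s z z' := by
  have hc : (0:ℝ) < I.card := by exact_mod_cast hI.card_pos
  have hg := good_avg I hI hf
  obtain ⟨n, hn⟩ := kbar_attained L hg s hz hz'
  rw [hn]
  apply le_ker L one_pos hz ((S_dk L n).mpr hz')
  intro u hu hS hzz
  rw [div_le_iff₀ hc]
  have h1 : ∀ i ∈ I, L.kbar (f i) s z z' ≤ act (f i) (L.vel s) 0 1 z u := fun i hi =>
    (kbar_le_ker L (hf i hi) s hz hz' n).trans (ker_le_act' (hf i hi) _ one_pos hu hS hzz)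
  refine (Finset.sum_le_sum h1).trans (le_of_eq ?_)
  rw [act_eq hg _ _ _ _ hu]
  have h2 : ∀ i ∈ I, act (f i) (L.vel s) 0 1 z u
      = (∫ t in (0:ℝ)..1, ‖u t - L.vel s‖ ^ 2 / 2) + ∫ t in (0:ℝ)..1, f i (traj 0 z u t) t :=
    fun i hi => act_eq (hf i hi) _ _ _ _ hu
  have h3 : (∫ t in (0:ℝ)..1, (∑ i ∈ I, f i (traj 0 z u t) t) / (I.card : ℝ))
      = (∑ i ∈ I, ∫ t in (0:ℝ)..1, f i (traj 0 z u t) t) / I.card := by
    rw [intervalIntegral.integral_div, intervalIntegral.integral_finsetSum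
      (fun i hi => f_traj_ii (hf i hi) hu 0 z 0 1)]
  rw [Finset.sum_congr rfl h2, Finset.sum_add_distrib, Finset.sum_const, nsmul_eq_mul, h3]
  field_simp

theorem kbar_per {f : E → ℝ → ℝ} (h : ∀ n x t, f (L.dk n x) t = f x t) (s : ℝ) (z z' : E)
    (n m : Fin d → ℤ) : L.kbar f s (L.dk n z) (L.dk m z') = L.kbar f s z z' := by
  unfold Sp.kbar
  have h1 : ∀ k : Fin d → ℤ, ker L.S f (L.vel s) 0 1 (L.dk n z) (L.dk k (L.dk m z'))
      = ker L.S f (L.vel s) 0 1 z (L.dk (m + k - n) z') := by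
    intro k
    have : L.dk k (L.dk m z') = L.dk n (L.dk (m + k - n) z') := by
      rw [← dk_add, ← dk_add]
      congr 1; abel
    rw [this, ker_dk L n (h n) (Q_vel L s)]
  simp_rw [h1]
  exact (Equiv.subRight n |>.trans (Equiv.addLeft m)).iInf_congr fun k => by
    simp only [Equiv.trans_apply, Equiv.subRight_apply, Equiv.coe_addLeft, add_sub_assoc]

theorem kbar_perg {f : E → ℝ → ℝ} (h : ∀ x t, f (L.gd x) t = f x t) (s : ℝ) (z z' : E) :
    L.kbar f s (L.gd z) (L.gd z') = L.kbar f s z z' := by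
  unfold Sp.kbar
  congr 1
  ext k
  rw [dk_gd, ker_gd L h (Q_vel L s)]

/-! ### uniform bounds -/

theorem disp_bd {M B : ℝ} {f : E → ℝ → ℝ} (hf : Good M f) (v : E) {z z' : E} (hz : z ∈ L.S)
    (hz' : z' ∈ L.S) (h : ker L.S f v 0 1 z z' ≤ B) :
    ‖z' - z - v‖ ≤ Real.sqrt (2 * (B + M)) := by
  have h1 := ker_lower L hf v one_pos hz hz'
  rw [sub_zero, one_smul] at h1
  apply Real.le_sqrt_of_sq_le
  linarith

/-- uniform bound and Lipschitz constant -/
theorem kbar_bd_lip (M : ℝ) : ∃ B Λ : ℝ, 0 < B ∧ 0 < Λ ∧ ∀ f : E → ℝ → ℝ, Good M f →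
    (∀ n x t, f (L.dk n x) t = f x t) → ∀ s : ℝ,
    (∀ z ∈ L.S, ∀ z' ∈ L.S, |L.y z - L.y z'| ≤ 2 → |L.kbar f s z z'| ≤ B) ∧
    (∀ z ∈ L.S, ∀ z' ∈ L.S, ∀ w ∈ L.S, ∀ w' ∈ L.S, |L.y z - L.y z'| ≤ 2 → |L.y w - L.y w'| ≤ 2 →
      |L.kbar f s z z' - L.kbar f s w w'| ≤ Λ * (dist z w + dist z' w')) := by
  set B : ℝ := (k2C L ^ 2 + L.Cc ^ 2) / 2 + |M| + 1 with hB
  have hC := k2C_nonneg L
  have hB2 : 0 < B := by positivity
  obtain ⟨C, hC0, hvar⟩ := ker_var_gen L.ret (fun a b hab z hz z' hz' => conn L hab hz hz') M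
  have hr0 := L.ret.r0_pos
  set r : ℝ := min 1 L.r0 with hr
  have hrpos : 0 < r := lt_min one_pos hr0
  set Λ : ℝ := Real.sqrt (2 * (B + |M|)) + C * (1 + (2 * (B + |M|) + 1)) + 2 * B / r with hΛ
  have hM' := abs_nonneg M
  have hΛ0 : 0 < Λ := by
    have : 0 < 2 * B / r := by positivity
    have h1 : 0 ≤ C * (1 + (2 * (B + |M|) + 1)) := by positivity
    have := Real.sqrt_nonneg (2 * (B + |M|))
    linarith
  refine ⟨B, Λ, hB2, hΛ0, fun f hf _ s => ?_⟩
  have hM : |M| = M := abs_of_nonneg hf.pos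
  have hbd : ∀ z ∈ L.S, ∀ z' ∈ L.S, |L.y z - L.y z'| ≤ 2 → |L.kbar f s z z'| ≤ B := by
    intro z hz z' hz' h
    have h1 := kbar_ge L hf s hz hz'
    have h2 := kbar_le_of L hf s hz hz' h
    rw [abs_le]
    constructor
    · rw [hB, hM]; nlinarith [sq_nonneg (k2C L), sq_nonneg L.Cc]
    · rw [hB, hM]; linarith
  refine ⟨hbd, ?_⟩
  have key : ∀ z ∈ L.S, ∀ z' ∈ L.S, ∀ w ∈ L.S, ∀ w' ∈ L.S, |L.y z - L.y z'| ≤ 2 →
      |L.y w - L.y w'| ≤ 2 →
      L.kbar f s z z' ≤ L.kbar f s w w' + Λ * (dist z w + dist z' w') := by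
    intro z hz z' hz' w hw w' hw' hzz hww
    have hd1 := dist_nonneg (x := z) (y := w)
    have hd2 := dist_nonneg (x := z') (y := w')
    set D := dist z w + dist z' w' with hD
    have hD0 : 0 ≤ D := by positivity
    have hS0 := Real.sqrt_nonneg (2 * (B + |M|))
    have hC1 : 0 ≤ C * (1 + (2 * (B + |M|) + 1)) := by positivity
    rcases le_total r D with h | h
    · have h1 := (abs_le.mp (hbd z hz z' hz' hzz)).2
      have h2 := (abs_le.mp (hbd w hw w' hw' hww)).1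
      have h3 : 2 * B ≤ Λ * D := by
        have h4 : 2 * B = 2 * B / r * r := by field_simp
        have h5 : 2 * B / r * r ≤ Λ * D := by
          apply mul_le_mul _ h hrpos.le hΛ0.le
          rw [hΛ]; linarith
        linarith
      linarith
    · obtain ⟨n, hn⟩ := kbar_attained L hf s hw hw'
      have h1 := kbar_le_ker L hf s hz hz' n
      have hSw' := (S_dk L n).mpr hw'
      have hSz' := (S_dk L n).mpr hz'
      have h2 := hvar f hf (L.vel s) (fun x => rt_fderiv_W L _ (Q_vel L s)) 0 1 one_pos w hw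
        (L.dk n w') hSw' (z - w) (L.dk n z' - L.dk n w') D (by rw [← dist_eq_norm]; linarith)
        (by rw [← dist_eq_norm, dist_dk]; linarith) (h.trans (min_le_right _ _))
      have e1 : w + (z - w) = z := by abel
      have e2 : L.dk n w' + (L.dk n z' - L.dk n w') = L.dk n z' := by abel
      rw [e1, e2, L.ret.id z hz, L.ret.id _ hSz', sub_zero, one_smul, div_one, div_one, mul_one] at h2
      have h3 : ker L.S f (L.vel s) 0 1 w (L.dk n w') ≤ B := by
        rw [← hn]; exact (abs_le.mp (hbd w hw w' hw' hww)).2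
      have h4 := disp_bd L hf _ hw hSw' h3
      set δ := L.dk n z' - L.dk n w' - (z - w) with hδ
      have h5 : ‖δ‖ ≤ D := by
        refine (norm_sub_le _ _).trans ?_
        rw [← dist_eq_norm, ← dist_eq_norm, dist_dk]; linarith
      have h6 : inner ℝ (L.dk n w' - w - L.vel s) δ ≤ Real.sqrt (2 * (B + |M|)) * D := by
        refine (real_inner_le_norm _ _).trans ?_
        rw [hM]
        gcongr
      have hD1 : D ≤ 1 := h.trans (min_le_left _ _)
      have h7 : ‖δ‖ ^ 2 ≤ D := by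
        have := norm_nonneg δ
        nlinarith
      have h8 : D * (2 * (ker L.S f (L.vel s) 0 1 w (L.dk n w') + M) + 1)
          ≤ D * (2 * (B + |M|) + 1) := by
        rw [hM]; gcongr
      have h9 : C * (‖δ‖ ^ 2 + D * (2 * (ker L.S f (L.vel s) 0 1 w (L.dk n w') + M) + 1))
          ≤ C * (D + D * (2 * (B + |M|) + 1)) := by
        apply mul_le_mul_of_nonneg_left _ hC0
        linarith
      have h10 : 0 ≤ 2 * B / r * D := by positivity
      have h11 : Λ * D = Real.sqrt (2 * (B + |M|)) * D + C * (D + D * (2 * (B + |M|) + 1))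
          + 2 * B / r * D := by
        rw [hΛ]; ring
      rw [hn]
      linarith
  intro z hz z' hz' w hw w' hw' h1 h2
  have h3 := key z hz z' hz' w hw w' hw' h1 h2
  have h4 := key w hw w' hw' z hz z' hz' h2 h1
  rw [dist_comm w z, dist_comm w' z'] at h4
  rw [abs_le]; constructor <;> linarith

/-- dependence on the speed -/
theorem kbar_speed (M : ℝ) : ∃ C : ℝ, 0 < C ∧ ∀ f : E → ℝ → ℝ, Good M f → ∀ s s' : ℝ,
    ‖L.vel s - L.vel s'‖ ≤ 1 → ∀ z ∈ L.S, ∀ z' ∈ L.S, |L.y z - L.y z'| ≤ 2 →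
    |L.kbar f s z z' - L.kbar f s' z z'| ≤ C * ‖L.vel s - L.vel s'‖ := by
  set B : ℝ := (k2C L ^ 2 + L.Cc ^ 2) / 2 + |M| with hB
  have hC := k2C_nonneg L
  have hB2 : 0 ≤ B := by positivity
  set C : ℝ := Real.sqrt (2 * (B + |M|)) + 1 / 2 with hCC
  refine ⟨C, by positivity, fun f hf s s' hs z hz z' hz' h => ?_⟩
  have hM : |M| = M := abs_of_nonneg hf.pos
  have key : ∀ r r', ‖L.vel r - L.vel r'‖ ≤ 1 →
      L.kbar f r z z' ≤ L.kbar f r' z z' + C * ‖L.vel r - L.vel r'‖ := by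
    intro r r' hr
    obtain ⟨n, hn⟩ := kbar_attained L hf r' hz hz'
    have hSz := (S_dk L n).mpr hz'
    have h1 := kbar_le_ker L hf r hz hz' n
    have h3 : ker L.S f (L.vel r') 0 1 z (L.dk n z') ≤ B := by
      rw [← hn, hB, hM]; exact kbar_le_of L hf r' hz hz' h
    have h4 := disp_bd L hf _ hz hSz h3
    rw [ker_galilei L hf (L.vel r) one_pos hz hSz] at h1
    rw [ker_galilei L hf (L.vel r') one_pos hz hSz] at hn
    set a := L.dk n z' - z with ha
    set δ := L.vel r - L.vel r' with hδ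
    have e1 : L.vel r = L.vel r' + δ := by rw [hδ]; abel
    have e2 : (- inner ℝ (L.vel r) a + (1 - 0) * ‖L.vel r‖ ^ 2 / 2)
        - (- inner ℝ (L.vel r') a + (1 - 0) * ‖L.vel r'‖ ^ 2 / 2)
        = - inner ℝ (a - L.vel r') δ + ‖δ‖ ^ 2 / 2 := by
      clear_value δ
      rw [e1, inner_add_left, norm_add_sq_real, inner_sub_left, real_inner_comm a δ]
      ring
    have h5 : - inner ℝ (a - L.vel r') δ ≤ Real.sqrt (2 * (B + |M|)) * ‖δ‖ := by
      have := (abs_le.mp (abs_real_inner_le_norm (a - L.vel r') δ)).1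
      have h6 : ‖a - L.vel r'‖ * ‖δ‖ ≤ Real.sqrt (2 * (B + |M|)) * ‖δ‖ := by
        rw [hM]; gcongr
      linarith
    have h7 : ‖δ‖ ^ 2 / 2 ≤ 1 / 2 * ‖δ‖ := by
      have := norm_nonneg δ
      nlinarith
    rw [hCC, add_mul]
    linarith
  have h1 := key s s' hs
  have h2 := key s' s (by rw [norm_sub_rev]; exact hs)
  rw [norm_sub_rev] at h2
  rw [abs_le]; constructor <;> linarith

end ModuleK2

end EscN
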