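import Pool.Agent.EscN.B0

/-!
Sums of potentials, norms of finite sums, fast velocities on a compact interval.
-/

noncomputable section

namespace EscN

open MeasureTheory Set Filter Topology Esc
open scoped ContDiff

section good

variable {E : Type*} [NormedAddCommGroup E] [InnerProductSpace ℝ E]

lemma good_mono {M M' : ℝ} {f : E → ℝ → ℝ} (h : Good M f) (hM : M ≤ M') : Good M' f :=
  ⟨h.pos.trans hM, h.cont, fun x t => (h.bd x t).trans hM,
    fun x x' t => (h.lipx x x' t).trans (mul_le_mul_of_nonneg_right hM (norm_nonneg _)),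
    fun x t t' => (h.lipt x t t').trans (mul_le_mul_of_nonneg_right hM (abs_nonneg _))⟩

lemma good_add {M K : ℝ} {f G : E → ℝ → ℝ} (hf : Good M f) (hG : Good K G) :
    Good (M + K) (fun x t => f x t + G x t) := by
  refine ⟨add_nonneg hf.pos hG.pos, hf.cont.add hG.cont, fun x t => ?_, fun x x' t => ?_, fun x t t' => ?_⟩
  · exact (abs_add_le _ _).trans (add_le_add (hf.bd x t) (hG.bd x t))
  · have : f x t + G x t - (f x' t + G x' t) = (f x t - f x' t) + (G x t - G x' t) := by ring
    rw [this, add_mul]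
    exact (abs_add_le _ _).trans (add_le_add (hf.lipx x x' t) (hG.lipx x x' t))
  · have : f x t + G x t - (f x t' + G x t') = (f x t - f x t') + (G x t - G x t') := by ring
    rw [this, add_mul]
    exact (abs_add_le _ _).trans (add_le_add (hf.lipt x t t') (hG.lipt x t t'))

lemma good_smul {K : ℝ} {G : E → ℝ → ℝ} (c : ℝ) (hG : Good K G) :
    Good (|c| * K) (fun x t => c * G x t) := by
  refine ⟨mul_nonneg (abs_nonneg _) hG.pos, continuous_const.mul hG.cont, fun x t => ?_, fun x x' t => ?_,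
    fun x t t' => ?_⟩
  · rw [abs_mul]; exact mul_le_mul_of_nonneg_left (hG.bd x t) (abs_nonneg _)
  · rw [← mul_sub, abs_mul, mul_assoc]; exact mul_le_mul_of_nonneg_left (hG.lipx x x' t) (abs_nonneg _)
  · rw [← mul_sub, abs_mul, mul_assoc]; exact mul_le_mul_of_nonneg_left (hG.lipt x t t') (abs_nonneg _)

lemma good_zero : Good (0:ℝ) (fun (_ : E) (_ : ℝ) => (0:ℝ)) :=
  ⟨le_rfl, continuous_const, fun _ _ => by simp, fun _ _ _ => by simp, fun _ _ _ => by simp⟩

lemma good_sum {ι : Type*} (I : Finset ι) (σ : ι → ℝ) (G : ι → E → ℝ → ℝ) {K ε' : ℝ} (hK : 0 ≤ K)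
    (hG : ∀ i ∈ I, Good K (G i)) (hσ : ∀ i ∈ I, 0 ≤ σ i ∧ σ i ≤ ε') :
    Good (I.card * (ε' * K)) (fun x t => ∑ i ∈ I, σ i * G i x t) := by
  classical
  induction I using Finset.induction_on with
  | empty => simpa using good_zero (E := E)
  | insert i I hi ih =>
    have h1 := ih (fun j hj => hG j (Finset.mem_insert_of_mem hj)) (fun j hj => hσ j (Finset.mem_insert_of_mem hj))
    have h2 := good_smul (σ i) (hG i (Finset.mem_insert_self _ _))
    obtain ⟨h3, h4⟩ := hσ i (Finset.mem_insert_self _ _)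
    have h5 : |σ i| * K ≤ ε' * K := by
      rw [abs_of_nonneg h3]; exact mul_le_mul_of_nonneg_right h4 hK
    have h6 := good_add (good_mono h2 h5) h1
    have h7 : ((insert i I).card : ℝ) * (ε' * K) = ε' * K + I.card * (ε' * K) := by
      rw [Finset.card_insert_of_notMem hi]; push_cast; ring
    rw [h7]
    have h8 : (fun (x : E) (t : ℝ) => ∑ j ∈ insert i I, σ j * G j x t) =
        fun x t => σ i * G i x t + ∑ j ∈ I, σ j * G j x t := by
      funext x t; rw [Finset.sum_insert hi]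
    rw [h8]; exact h6

end good

variable {d : ℕ} {E : Type*} [NormedAddCommGroup E] [InnerProductSpace ℝ E] (L : Sp d E)

/-! ### fast velocities on a compact interval -/

lemma vel_contDiff : ContDiff ℝ 1 L.vel := by
  unfold Sp.vel
  exact ContDiff.sum fun i _ => (contDiff_id.pow _).smul contDiff_const

lemma vel_bounds (a b : ℝ) : ∃ C : ℝ, 0 < C ∧ (∀ s ∈ Icc a b, ‖L.vel s‖ ≤ C) ∧
    ∀ s ∈ Icc a b, ∀ s' ∈ Icc a b, ‖L.vel s - L.vel s'‖ ≤ C * |s - s'| := by
  have h1 := vel_contDiff L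
  obtain ⟨C1, hC1⟩ := (isCompact_Icc (a := a) (b := b)).exists_bound_of_continuousOn h1.continuous.continuousOn
  obtain ⟨C2, hC2⟩ := (isCompact_Icc (a := a) (b := b)).exists_bound_of_continuousOn
    (h1.continuous_deriv le_rfl).continuousOn
  refine ⟨max C1 C2 + 1 + |C1| , ?_, fun s hs => ?_, fun s hs s' hs' => ?_⟩
  · have : -|C1| ≤ C1 := neg_abs_le _
    have := le_max_left C1 C2
    linarith
  · have := hC1 s hs
    have h3 := le_max_left C1 C2
    have := abs_nonneg C1
    linarith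
  · have h2 : ‖L.vel s - L.vel s'‖ ≤ C2 * ‖s - s'‖ :=
      Convex.norm_image_sub_le_of_norm_deriv_le (f := L.vel) (s := Icc a b) (C := C2) (x := s') (y := s)
        (fun r _ => (h1.differentiable one_ne_zero) r) (fun r hr => hC2 r hr) (convex_Icc a b) hs' hs
    refine h2.trans (mul_le_mul_of_nonneg_right ?_ (norm_nonneg _))
    have := le_max_right C1 C2
    have := abs_nonneg C1
    linarith

/-! ### smooth perturbations -/

lemma isSm_add {G G' : E → ℝ → ℝ} (h : L.IsSm G) (h' : L.IsSm G') : L.IsSm (fun x t => G x t + G' x t) :=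
  ⟨h.smooth.add h'.smooth, fun n x t => by rw [h.perd, h'.perd], fun x t => by rw [h.perg, h'.perg],
    fun x t => by rw [h.pert, h'.pert], fun x t hx => by rw [h.supp x t hx, h'.supp x t hx, add_zero]⟩

lemma isSm_smul (c : ℝ) {G : E → ℝ → ℝ} (h : L.IsSm G) : L.IsSm (fun x t => c * G x t) :=
  ⟨contDiff_const.mul h.smooth, fun n x t => by rw [h.perd], fun x t => by rw [h.perg],
    fun x t => by rw [h.pert], fun x t hx => by rw [h.supp x t hx, mul_zero]⟩

lemma isSm_zero : L.IsSm (fun (_ : E) (_ : ℝ) => (0:ℝ)) :=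
  ⟨contDiff_const, fun _ _ _ => rfl, fun _ _ => rfl, fun _ _ => rfl, fun _ _ _ => rfl⟩

lemma isSm_sum {ι : Type*} (I : Finset ι) (σ : ι → ℝ) (G : ι → E → ℝ → ℝ) (hG : ∀ i ∈ I, L.IsSm (G i)) :
    L.IsSm (fun x t => ∑ i ∈ I, σ i * G i x t) := by
  classical
  induction I using Finset.induction_on with
  | empty => simpa using isSm_zero L
  | insert i I hi ih =>
    have h8 : (fun (x : E) (t : ℝ) => ∑ j ∈ insert i I, σ j * G j x t) =
        fun x t => σ i * G i x t + ∑ j ∈ I, σ j * G j x t := by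
      funext x t; rw [Finset.sum_insert hi]
    rw [h8]
    exact isSm_add L (isSm_smul L _ (hG i (Finset.mem_insert_self _ _)))
      (ih fun j hj => hG j (Finset.mem_insert_of_mem hj))

lemma nm_nonneg (N : L.SmNorm) {G : E → ℝ → ℝ} (h : L.IsSm G) : 0 ≤ N.nm G :=
  (abs_nonneg _).trans (N.sup_le G h 0 0)

lemma nm_zero (N : L.SmNorm) : N.nm (fun (_ : E) (_ : ℝ) => (0:ℝ)) = 0 := by
  have h1 := N.smul_le 0 _ (isSm_zero L)
  simp only [mul_zero, abs_zero, zero_mul] at h1
  exact le_antisymm h1 (nm_nonneg L N (isSm_zero L))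

lemma nm_sum {ι : Type*} (N : L.SmNorm) (I : Finset ι) (σ : ι → ℝ) (G : ι → E → ℝ → ℝ) {K ε' : ℝ} (hK : 0 ≤ K)
    (hG : ∀ i ∈ I, L.IsSm (G i)) (hGK : ∀ i ∈ I, N.nm (G i) ≤ K) (hσ : ∀ i ∈ I, 0 ≤ σ i ∧ σ i ≤ ε') :
    N.nm (fun x t => ∑ i ∈ I, σ i * G i x t) ≤ I.card * (ε' * K) := by
  classical
  induction I using Finset.induction_on with
  | empty => simp [nm_zero L N]
  | insert i I hi ih =>
    have h1 := ih (fun j hj => hG j (Finset.mem_insert_of_mem hj)) (fun j hj => hGK j (Finset.mem_insert_of_mem hj))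
      (fun j hj => hσ j (Finset.mem_insert_of_mem hj))
    have h8 : (fun (x : E) (t : ℝ) => ∑ j ∈ insert i I, σ j * G j x t) =
        fun x t => σ i * G i x t + ∑ j ∈ I, σ j * G j x t := by
      funext x t; rw [Finset.sum_insert hi]
    rw [h8]
    have h2 := N.add_le _ _ (isSm_smul L (σ i) (hG i (Finset.mem_insert_self _ _)))
      (isSm_sum L I σ G fun j hj => hG j (Finset.mem_insert_of_mem hj))
    have h3 := N.smul_le (σ i) _ (hG i (Finset.mem_insert_self _ _))
    obtain ⟨h4, h5⟩ := hσ i (Finset.mem_insert_self _ _)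
    rw [abs_of_nonneg h4] at h3
    have h6 : σ i * N.nm (G i) ≤ ε' * K :=
      mul_le_mul h5 (hGK i (Finset.mem_insert_self _ _)) (nm_nonneg L N (hG i (Finset.mem_insert_self _ _)))
        (h4.trans h5)
    rw [Finset.card_insert_of_notMem hi]
    push_cast
    linarith

end EscN
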