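import Pool.Agent.EscN.K2b
import Pool.Agent.helper1.EscN.Near

/-!
Module Red of project ESCN: reduction to one-dimensional sequences, geometry of the rooms.
-/

noncomputable section

namespace EscN

open MeasureTheory Set Filter Topology Esc

variable {d : ℕ} {E : Type*} [NormedAddCommGroup E] [InnerProductSpace ℝ E] [FiniteDimensional ℝ E]
  (L : Sp d E)

omit [FiniteDimensional ℝ E] in
/-- the slow coordinate is `1`-Lipschitz -/
theorem y_lip (a b : E) : |L.y a - L.y b| ≤ dist a b := by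
  have h1 : L.y a - L.y b = inner ℝ L.e (a - b) := by
    show inner ℝ L.e a - inner ℝ L.e b = _
    rw [inner_sub_right]
  rw [h1, dist_eq_norm]
  have h2 := abs_real_inner_le_norm L.e (a - b)
  rwa [L.norm_e, one_mul] at h2

/-- same orbit of the fast deck maps -/
def Rl (z w : E) : Prop := ∃ n : Fin d → ℤ, L.dk n z = w

theorem room_eq (p : ℝ) : Rm L.S L.y p = L.room p := rfl

theorem y_setY (x : E) (η : ℝ) : L.y (L.setY x η) = η := by
  show (inner ℝ L.e (x + (η - L.y x) • L.e) : ℝ) = η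
  rw [inner_add_right, inner_smul_right, real_inner_self_eq_norm_sq, L.norm_e]
  show L.y x + (η - L.y x) * 1 ^ 2 = η
  ring

theorem setY_self (x : E) : L.setY x (L.y x) = x := by
  show x + (L.y x - L.y x) • L.e = x
  rw [sub_self, zero_smul, add_zero]

theorem geo (p : ℝ) : Geo L.S (L.cell p) L.y L.gi L.gd (Rl L) p where
  ylip := y_lip L
  shS := fun z hz => (S_gi L).2 hz
  shS' := fun z hz => (S_gd L).2 hz
  inv := fun z _ => gi_gd L z
  inv' := fun z _ => gd_gi L z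
  ysh := fun z _ => y_gi L z
  dsh := fun z _ w _ => dist_gi L z w
  CS := fun z hz => ⟨hz.1, hz.2.1⟩
  comp := cell_compact L p
  red := fun z hz hy => by
    obtain ⟨n, hn⟩ := exists_dk_cell L p z ⟨hz, hy⟩
    exact ⟨_, hn, y_dk L n z, n, rfl⟩
  rsh := fun z w h => by
    obtain ⟨n, rfl⟩ := h
    exact ⟨n, dk_gi L n z⟩
  ne := by
    obtain ⟨z, hz⟩ := L.S_ne
    refine ⟨L.setY z (p + 1 / 2), S_setY L _ hz, ?_⟩
    rw [y_setY]
    constructor <;> norm_num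

theorem kInv {f : E → ℝ → ℝ} (hf : L.IsPot f) (s : ℝ) : KInv (L.kbar f s) L.S L.gi (Rl L) where
  shift := fun z _ w _ => by
    have := kbar_perg L hf.perg s (L.gi z) (L.gi w)
    rw [gd_gi, gd_gi] at this
    exact this.symm
  left := fun z w x _ _ _ h => by
    obtain ⟨n, rfl⟩ := h
    have := kbar_per L hf.perd s z x n 0
    rw [dk_zero] at this
    exact this.symm
  right := fun z w x _ _ _ h => by
    obtain ⟨n, rfl⟩ := h
    have := kbar_per L hf.perd s x z 0 n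
    rw [dk_zero] at this
    exact this.symm

theorem setY_ok : SetY L.S L.y L.setY where
  mem := fun z hz η => S_setY L η hz
  eq := fun z _ η => y_setY L z η
  self := fun z _ => setY_self L z

theorem nearSum {M0 κ s : ℝ} {Sy : ℝ → ℝ → ℝ} {f : E → ℝ → ℝ} (hW : L.DatW M0 Sy κ f) (hs : M0 ≤ s) :
    NearSum (L.kbar f s) L.S L.y L.setY Sy κ := by
  obtain ⟨R, h1, h2⟩ := hW s hs
  exact ⟨R, fun z _ z' _ η η' => h1 z z' η η', h2⟩

theorem NM.mono {S : ℝ → ℝ → ℝ} {p ε ε' : ℝ} {T : ℕ} {y : ℕ → ℝ} (h : NM S p ε T y) (he : ε ≤ ε') :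
    NM S p ε' T y := by
  refine ⟨h.room, fun i j hij hj η h1 h2 h3 => (h.nm i j hij hj η h1 h2 h3).trans ?_⟩
  have h4 : (0 : ℝ) ≤ (j : ℝ) - i := by
    have : (i : ℝ) ≤ j := by exact_mod_cast hij.le
    linarith
  have h5 : 2 * ((j : ℝ) - i) * ε ≤ 2 * ((j : ℝ) - i) * ε' :=
    mul_le_mul_of_nonneg_left he (by positivity)
  linarith

/-- the one-dimensional data of a potential of the data class -/
theorem sdata_of_dat {p β M0 : ℝ} {f : E → ℝ → ℝ} (hD : L.Dat p β M0 f) :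
    ∃ (Sy : ℝ → ℝ → ℝ) (e0 : ℝ), SData Sy p β 0 e0 (β ^ 2 / 200) ∧
      ∃ κ, 0 ≤ κ ∧ κ < β ^ 2 / 200 ∧ L.DatW M0 Sy κ f := by
  obtain ⟨Sy, e0, κ, h1, h2, h3, h4⟩ := hD.ex
  exact ⟨Sy, e0, h1, κ, h2, h3, h4⟩

/-- minimal paths have near-minimal slow sequences -/
theorem nmin_of_datW {p β M0 κ s : ℝ} {Sy : ℝ → ℝ → ℝ} {f : E → ℝ → ℝ} {B Λ : ℝ}
    (hK : KD (L.kbar f s) (L.cell p) (L.room p) B Λ) (hW : L.DatW M0 Sy κ f)
    (hκ : κ ≤ β ^ 2 / 200) (hs : M0 ≤ s) :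
    NMin (L.kbar f s) (L.cell p) (L.room p) L.y Sy p (β ^ 2 / 200) := by
  intro T x hT hx hmin
  exact NM.mono (nmin_of_near (S := L.S) (p := p) (setY_ok L) hK (nearSum L hW hs) T x hT hx hmin) hκ

theorem nm_of_min {p β M0 κ s : ℝ} {Sy : ℝ → ℝ → ℝ} {f : E → ℝ → ℝ} {B Λ : ℝ}
    (hK : KD (L.kbar f s) (L.cell p) (L.room p) B Λ) (hW : L.DatW M0 Sy κ f)
    (hκ : κ ≤ β ^ 2 / 200) (hs : M0 ≤ s)
    {T : ℕ} (hT : 1 ≤ T) {x : ℕ → E} (hx : ∀ k ≤ T, x k ∈ L.room p)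
    (hmin : cost (L.kbar f s) x T ≤ kp (L.kbar f s) (L.cell p) T (x 0) (x T)) :
    NM Sy p (β ^ 2 / 200) T (fun k => L.y (x k)) :=
  nmin_of_datW L hK hW hκ hs T x hT hx hmin

/-- minimal paths of transitions stay away from the boundary of the room -/
theorem trans_room_dat {p β M0 s : ℝ} {f : E → ℝ → ℝ} {B Λ : ℝ} (hD : L.Dat p β M0 f)
    (hK : KD (L.kbar f s) (L.cell p) (L.room p) B Λ) (hs : M0 ≤ s)
    {T : ℕ} (hT : 2 * Lat.R1 β + 2 ≤ T) {x : ℕ → E} (hx : ∀ k ≤ T, x k ∈ L.room p)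
    (hmin : cost (L.kbar f s) x T = kp (L.kbar f s) (L.cell p) T (x 0) (x T))
    (h0 : -(3/4) ≤ L.y (x 0) - p ∧ L.y (x 0) - p ≤ -(1/4)) (h1 : 1/4 ≤ L.y (x T) - p ∧ L.y (x T) - p ≤ 3/4)
    {k : ℕ} (hk : k ≤ T) : |L.y (x k) - p| ≤ 3 / 4 := by
  obtain ⟨Sy, e0, hS, κ, _, hκ, hW⟩ := sdata_of_dat L hD
  exact trans_room (S := L.S) hS (nmin_of_datW L hK hW hκ.le hs) hT hx hmin h0 h1 hk

/-- a point of the middle strip where the sum of the barriers is almost minimal -/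
theorem mid_point_dat {p β M0 s s' δ : ℝ} {f : E → ℝ → ℝ} (hf : L.IsPot f) (hD : L.Dat p β M0 f)
    (hs : M0 ≤ s) (hs' : M0 ≤ s')
    (hδ : ∀ z ∈ L.room p, ∀ z' ∈ L.room p, |L.kbar f s z z' - L.kbar f s' z z'| ≤ δ)
    {zs : E} (hzs : zs ∈ L.room p) :
    ∃ z0 ∈ L.S, 3 / 8 ≤ L.y z0 - p ∧ L.y z0 - p ≤ 5 / 8 ∧
      ∀ z ∈ L.S, 1 / 8 ≤ L.y z - p → L.y z - p ≤ 7 / 8 →
      bar (L.kbar f s) (L.cell p) zs z0 + bar (L.kbar f s') (L.cell p) (L.gi z0) zs ≤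
      bar (L.kbar f s) (L.cell p) zs z + bar (L.kbar f s') (L.cell p) (L.gi z) zs
        + 2 * Lat.R1 β * δ := by
  obtain ⟨M, hM⟩ := isPot_good L hf
  obtain ⟨B, Λ, hB, hΛ, hKD⟩ := kd_kbar L M
  have hK : ∀ s, KD (L.kbar f s) (L.cell p) (L.room p) B Λ := fun s => hKD f hM hf.perd s p
  obtain ⟨Sy, e0, hS, κ, _, hκ, hW⟩ := sdata_of_dat L hD
  exact mid_point (geo L p) (hK s) (hK s') (kInv L hf s) (kInv L hf s') hS
    (nmin_of_datW L (hK s) hW hκ.le hs) (nmin_of_datW L (hK s') hW hκ.le hs') hδ hzs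

end EscN
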