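import Pool.Agent.EscN.B0
import Pool.Agent.helper33.Esc.Bump
import Pool.Agent.helper1.EscN.Net

/-!
Cells of project ESCN: balls around the deck orbits of finitely many centres, and bumps.
-/

noncomputable section

namespace EscN

open MeasureTheory Set Filter Topology Esc
open scoped ContDiff

variable {d : ℕ} {E : Type*} [NormedAddCommGroup E] [InnerProductSpace ℝ E] [FiniteDimensional ℝ E]
  (L : Sp d E)

/-- the deck map of height one as a permutation -/
def gdE : Equiv.Perm E := ⟨L.gd, L.gi, gi_gd L, gd_gi L⟩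

/-- closeness modulo the full deck group -/
def cl (ρ : ℝ) (c x : E) : Prop :=
  ∃ (n : Fin d → ℤ) (j : ℤ), dist x ((gdE L ^ j) (L.dk n c)) ≤ ρ

/-! ### the deck group -/

/-- the deck maps of height zero as permutations -/
def dkE (n : Fin d → ℤ) : Equiv.Perm E :=
  ⟨L.dk n, L.dk (-n), fun x => by rw [← dk_add, neg_add_cancel, dk_zero],
    fun x => by rw [← dk_add, add_neg_cancel, dk_zero]⟩

lemma dkE_comm (n : Fin d → ℤ) : Commute (dkE L n) (gdE L) := by
  show dkE L n * gdE L = gdE L * dkE L n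
  ext x
  exact dk_gd L n x

lemma dk_gdE (n : Fin d → ℤ) (j : ℤ) (x : E) :
    L.dk n ((gdE L ^ j) x) = (gdE L ^ j) (L.dk n x) :=
  congrArg (fun e : Equiv.Perm E => e x) ((dkE_comm L n).zpow_right j)

lemma gdE_add (i j : ℤ) (x : E) : (gdE L ^ (i + j)) x = (gdE L ^ i) ((gdE L ^ j) x) := by
  rw [zpow_add]; rfl

lemma gdE_one_add (j : ℤ) (x : E) : (gdE L ^ (1 + j)) x = L.gd ((gdE L ^ j) x) := by
  rw [gdE_add, zpow_one]; rfl

lemma gdE_zero (x : E) : (gdE L ^ (0:ℤ)) x = x := by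
  rw [zpow_zero]; rfl

/-- induction over the powers of the deck map of height one -/
lemma gdE_ind {P : ℤ → Prop} (h0 : P 0) (h1 : ∀ j, P (1 + j) ↔ P j) (j : ℤ) : P j := by
  induction j using Int.induction_on with
  | zero => exact h0
  | succ i ih => rw [add_comm]; exact (h1 _).2 ih
  | pred i ih =>
    have := h1 (-(i:ℤ) - 1)
    rw [add_sub_cancel] at this
    exact this.1 ih

lemma y_gdE (j : ℤ) (x : E) : L.y ((gdE L ^ j) x) = L.y x + j := by
  refine gdE_ind (P := fun j => L.y ((gdE L ^ j) x) = L.y x + j) ?_ (fun j => ?_) j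
  · rw [gdE_zero]; simp
  · rw [gdE_one_add, y_gd]
    push_cast
    constructor <;> intro h <;> linarith

lemma dist_gdE (j : ℤ) (x x' : E) : dist ((gdE L ^ j) x) ((gdE L ^ j) x') = dist x x' := by
  refine gdE_ind (P := fun j => dist ((gdE L ^ j) x) ((gdE L ^ j) x') = dist x x') ?_ (fun j => ?_) j
  · rw [gdE_zero, gdE_zero]
  · rw [gdE_one_add, gdE_one_add, dist_gd]

lemma S_gdE (j : ℤ) (x : E) : (gdE L ^ j) x ∈ L.S ↔ x ∈ L.S := by
  refine gdE_ind (P := fun j => (gdE L ^ j) x ∈ L.S ↔ x ∈ L.S) ?_ (fun j => ?_) j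
  · rw [gdE_zero]
  · rw [gdE_one_add, S_gd]

/-- the deck orbit of `c` -/
def orb (c : E) (n : Fin d → ℤ) (j : ℤ) : E := (gdE L ^ j) (L.dk n c)

lemma orb_dk (c : E) (m n : Fin d → ℤ) (j : ℤ) : L.dk m (orb L c n j) = orb L c (m + n) j := by
  unfold orb
  rw [dk_gdE, dk_add]

lemma orb_gd (c : E) (n : Fin d → ℤ) (j : ℤ) : L.gd (orb L c n j) = orb L c n (1 + j) := by
  unfold orb
  rw [gdE_one_add]

lemma orb_S {c : E} (hc : c ∈ L.S) (n : Fin d → ℤ) (j : ℤ) : orb L c n j ∈ L.S := by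
  unfold orb
  rw [S_gdE, S_dk]; exact hc

lemma orb_y (c : E) (n : Fin d → ℤ) (j : ℤ) : L.y (orb L c n j) = L.y c + j := by
  unfold orb
  rw [y_gdE, y_dk]

/-! ### closeness modulo the deck group -/

theorem cl_of_dk {ρ : ℝ} {c x : E} {n : Fin d → ℤ} (h : dist x (L.dk n c) ≤ ρ) : cl L ρ c x :=
  ⟨n, 0, by rw [gdE_zero]; exact h⟩

theorem cl_shift {ρ s : ℝ} {c x x' : E} (h : cl L ρ c x) (hs : dist x x' ≤ s) : cl L (ρ + s) c x' := by
  obtain ⟨n, j, h⟩ := h
  refine ⟨n, j, (dist_triangle_left _ _ x).trans ?_⟩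
  linarith

theorem cl_dk {ρ : ℝ} {c x : E} (n : Fin d → ℤ) : cl L ρ c (L.dk n x) ↔ cl L ρ c x := by
  have key : ∀ (n : Fin d → ℤ) (x : E), cl L ρ c x → cl L ρ c (L.dk n x) := by
    rintro n x ⟨m, j, h⟩
    refine ⟨n + m, j, ?_⟩
    have := orb_dk L c n m j
    unfold orb at this
    rw [← this, dist_dk]; exact h
  refine ⟨fun h => ?_, key n x⟩
  have := key (-n) _ h
  rwa [← dk_add, neg_add_cancel, dk_zero] at this

theorem cl_gd {ρ : ℝ} {c x : E} : cl L ρ c (L.gd x) ↔ cl L ρ c x := by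
  constructor
  · rintro ⟨m, j, h⟩
    refine ⟨m, j - 1, ?_⟩
    have e : (gdE L ^ j) (L.dk m c) = L.gd ((gdE L ^ (j - 1)) (L.dk m c)) := by
      rw [← gdE_one_add, add_sub_cancel]
    rw [e, dist_gd] at h
    exact h
  · rintro ⟨m, j, h⟩
    refine ⟨m, 1 + j, ?_⟩
    rw [gdE_one_add, dist_gd]; exact h

theorem cl_gi {ρ : ℝ} {c x : E} : cl L ρ c (L.gi x) ↔ cl L ρ c x := by
  rw [← cl_gd, gd_gi]

omit [FiniteDimensional ℝ E] in
lemma abs_y_le (x x' : E) : |L.y x - L.y x'| ≤ dist x x' := by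
  have e : L.y x - L.y x' = inner ℝ L.e (x - x') := (inner_sub_right _ _ _).symm
  rw [e, dist_eq_norm]
  calc |inner ℝ L.e (x - x')| ≤ ‖L.e‖ * ‖x - x'‖ := abs_real_inner_le_norm _ _
    _ = ‖x - x'‖ := by rw [L.norm_e, one_mul]

theorem cl_y {ρ : ℝ} {c x : E} (h : cl L ρ c x) : ∃ j : ℤ, |L.y x - L.y c - j| ≤ ρ := by
  obtain ⟨n, j, h⟩ := h
  refine ⟨j, ?_⟩
  have h1 := (abs_y_le L x _).trans h
  rw [y_gdE, y_dk] at h1
  rwa [← sub_sub] at h1

/-- close points at nearby heights are close modulo the fast deck maps -/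
theorem cl_rep {ρ : ℝ} {c x : E} (h : cl L ρ c x) (hy : |L.y x - L.y c| + ρ < 1) :
    ∃ n : Fin d → ℤ, dist x (L.dk n c) ≤ ρ := by
  obtain ⟨n, j, h⟩ := h
  refine ⟨n, ?_⟩
  have h1 := (abs_y_le L x _).trans h
  rw [y_gdE, y_dk] at h1
  have h2 := abs_le.1 h1
  have h3 := abs_le.1 (le_refl |L.y x - L.y c|)
  have a : ((j : ℤ) : ℝ) < 1 := by linarith [h2.1, h3.2]
  have b : (-1:ℝ) < ((j : ℤ) : ℝ) := by linarith [h2.2, h3.1]
  have a' : j < 1 := by exact_mod_cast a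
  have b' : -1 < j := by exact_mod_cast b
  have h0 : j = 0 := by omega
  rw [h0, gdE_zero] at h
  exact h

/-! ### projections do not increase the norm -/

omit [FiniteDimensional ℝ E] in
lemma inner_P_P (x : E) : inner ℝ (L.P x) (L.P x) = inner ℝ x (L.P (L.P x)) := L.P_sym x _

lemma norm_P_le (x : E) : ‖L.P x‖ ≤ ‖x‖ := by
  have h1 : ‖L.P x‖ * ‖L.P x‖ ≤ ‖x‖ * ‖L.P x‖ := by
    rw [← real_inner_self_eq_norm_mul_norm, inner_P_P, P_P]
    exact real_inner_le_norm _ _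
  rcases (norm_nonneg (L.P x)).eq_or_lt with h | h
  · rw [← h]; exact norm_nonneg _
  · exact le_of_mul_le_mul_right h1 h

omit [FiniteDimensional ℝ E] in
lemma inner_e_e : inner ℝ L.e L.e = (1:ℝ) := by
  rw [real_inner_self_eq_norm_sq, L.norm_e]; norm_num

omit [FiniteDimensional ℝ E] in
lemma Q_sub (x x' : E) : L.Q (x - x') = L.Q x - L.Q x' := by
  unfold Sp.Q
  have e : L.y (x - x') = L.y x - L.y x' := inner_sub_right _ _ _
  rw [map_sub, e, sub_smul]; abel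

lemma norm_Q_le (x : E) : ‖L.Q x‖ ≤ ‖x‖ := by
  have hPQ : L.P (L.Q x) = 0 := by
    unfold Sp.Q
    rw [map_sub, map_sub, map_smul, P_P, L.P_e, smul_zero, sub_self, sub_zero]
  have heQ : inner ℝ L.e (L.Q x) = (0:ℝ) := by
    unfold Sp.Q
    rw [inner_sub_right, inner_sub_right, inner_smul_right, inner_e_e, mul_one]
    have h1 : inner ℝ L.e (L.P x) = (0:ℝ) := y_P L x
    rw [h1]
    unfold Sp.y
    ring
  have h2 : inner ℝ (L.Q x) (L.Q x) = inner ℝ (L.Q x) x := by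
    conv_lhs => rw [show L.Q x = x - L.P x - L.y x • L.e from rfl]
    rw [show x - L.P x - L.y x • L.e = L.Q x from rfl]
    have : inner ℝ (L.Q x) (x - L.P x - L.y x • L.e) = inner ℝ (L.Q x) x := by
      rw [inner_sub_right, inner_sub_right, inner_smul_right, real_inner_comm L.e, heQ,
        ← L.P_sym, hPQ, inner_zero_left]
      ring
    exact this
  have h1 : ‖L.Q x‖ * ‖L.Q x‖ ≤ ‖x‖ * ‖L.Q x‖ := by
    rw [← real_inner_self_eq_norm_mul_norm, h2, mul_comm]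
    exact real_inner_le_norm _ _
  rcases (norm_nonneg (L.Q x)).eq_or_lt with h | h
  · rw [← h]; exact norm_nonneg _
  · exact le_of_mul_le_mul_right h1 h

/-! ### displacement -/

omit [FiniteDimensional ℝ E] in
/-- nonzero lattice vectors are bounded below -/
lemma lv_lower : ∃ ρ0 : ℝ, 0 < ρ0 ∧ ∀ n : Fin d → ℤ, n ≠ 0 → ρ0 ≤ ‖L.lv n‖ := by
  set φ : (Fin d → ℝ) →ₗ[ℝ] E := Fintype.linearCombination ℝ L.b with hφ
  have hinj : LinearMap.ker φ = ⊥ := by
    rw [LinearMap.ker_eq_bot]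
    exact linearIndependent_iff_injective_fintypeLinearCombination.1 L.li
  obtain ⟨K, hK, hanti⟩ := φ.exists_antilipschitzWith hinj
  have hKpos : (0 : ℝ) < K := by exact_mod_cast hK
  refine ⟨1 / K, by positivity, fun n hn => ?_⟩
  have h1 := hanti.le_mul_dist (fun i => (n i : ℝ)) 0
  have h2 : φ (fun i => (n i : ℝ)) = L.lv n := by
    simp [hφ, Fintype.linearCombination_apply, Sp.lv]
  rw [map_zero, dist_zero_right, dist_zero_right, h2] at h1
  obtain ⟨i, hi⟩ : ∃ i, n i ≠ 0 := by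
    by_contra hcon
    push Not at hcon
    exact hn (funext hcon)
  have h3 : (1:ℝ) ≤ ‖fun i => (n i : ℝ)‖ := by
    refine le_trans ?_ (norm_le_pi_norm _ i)
    rw [Real.norm_eq_abs, ← Int.cast_abs]
    exact_mod_cast Int.one_le_abs hi
  rw [div_le_iff₀ hKpos, mul_comm]
  linarith

omit [FiniteDimensional ℝ E] in
lemma lv_sub (n m : Fin d → ℤ) : L.lv (n - m) = L.lv n - L.lv m := by
  unfold Sp.lv
  rw [← Finset.sum_sub_distrib]
  refine Finset.sum_congr rfl fun i _ => ?_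
  rw [← sub_smul]; push_cast [Pi.sub_apply]; rfl

/-- displacement of the fast deck maps -/
theorem exists_disp : ∃ ρ0 : ℝ, 0 < ρ0 ∧ ∀ (n n' : Fin d → ℤ) (x : E), n ≠ n' →
    ρ0 ≤ dist (L.dk n x) (L.dk n' x) := by
  obtain ⟨ρ0, h0, h1⟩ := lv_lower L
  refine ⟨ρ0, h0, fun n n' x hn => ?_⟩
  have h2 := h1 (n - n') (sub_ne_zero.2 hn)
  rw [lv_sub] at h2
  have h3 : L.lv n - L.lv n' = L.P (L.dk n x - L.dk n' x) := by
    rw [map_sub, P_dk, P_dk]; abel
  rw [h3] at h2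
  rw [dist_eq_norm]
  exact h2.trans (norm_P_le L _)

lemma orb_disp {ρ0 : ℝ} (h : ∀ (n n' : Fin d → ℤ) (x : E), n ≠ n' → ρ0 ≤ dist (L.dk n x) (L.dk n' x))
    (h' : ρ0 ≤ 1) (c : E) {q q' : (Fin d → ℤ) × ℤ} (hq : q ≠ q') :
    ρ0 ≤ dist (orb L c q.1 q.2) (orb L c q'.1 q'.2) := by
  by_cases hj : q.2 = q'.2
  · have hn : q.1 ≠ q'.1 := fun h => hq (Prod.ext h hj)
    unfold orb
    rw [hj, dist_gdE]
    exact h _ _ _ hn
  · have h1 := abs_y_le L (orb L c q.1 q.2) (orb L c q'.1 q'.2)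
    rw [orb_y, orb_y] at h1
    have h2 : (1:ℝ) ≤ |(q.2:ℝ) - (q'.2:ℝ)| := by
      have : (1:ℤ) ≤ |q.2 - q'.2| := Int.one_le_abs (sub_ne_zero.2 hj)
      exact_mod_cast this
    have e : L.y c + (q.2:ℝ) - (L.y c + (q'.2:ℝ)) = (q.2:ℝ) - (q'.2:ℝ) := by ring
    rw [e] at h1
    linarith

/-! ### cells -/

/-- the part of the state space with slow coordinate in `[lo, hi]` and `P`-part in the unit box -/
def bx (lo hi : ℝ) : Set E :=
  {x | x ∈ L.S ∧ lo ≤ L.y x ∧ L.y x ≤ hi ∧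
    ∃ θ : Fin d → ℝ, (∀ i, 0 ≤ θ i ∧ θ i ≤ 1) ∧ L.P x = ∑ i, θ i • L.b i}

omit [FiniteDimensional ℝ E] in
lemma y_cont : Continuous L.y := by
  unfold Sp.y
  exact continuous_const.inner continuous_id

lemma bx_compact (lo hi : ℝ) : IsCompact (bx L lo hi) := by
  rw [Metric.isCompact_iff_isClosed_bounded]
  set φ : (Fin d → ℝ) → E := fun θ => ∑ i, θ i • L.b i with hφ
  have hφc : Continuous φ := by
    rw [hφ]
    exact continuous_finsetSum _ fun i _ => (continuous_apply i).smul continuous_const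
  set B : Set (Fin d → ℝ) := Set.pi univ fun _ => Icc 0 1 with hB
  have hBc : IsCompact B := isCompact_univ_pi fun _ => isCompact_Icc
  have hIc : IsCompact (φ '' B) := hBc.image hφc
  have he : bx L lo hi = L.S ∩ ({x | lo ≤ L.y x} ∩ ({x | L.y x ≤ hi} ∩ L.P ⁻¹' (φ '' B))) := by
    ext x
    constructor
    · rintro ⟨h1, h2, h3, θ, h4, h5⟩
      exact ⟨h1, h2, h3, θ, fun i _ => h4 i, h5.symm⟩
    · rintro ⟨h1, h2, h3, θ, h4, h5⟩
      exact ⟨h1, h2, h3, θ, fun i => h4 i (mem_univ i), h5.symm⟩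
  constructor
  · rw [he]
    exact L.ret.closed.inter ((isClosed_le continuous_const (y_cont L)).inter
      ((isClosed_le (y_cont L) continuous_const).inter (hIc.isClosed.preimage L.P.continuous)))
  · obtain ⟨C, hC⟩ := isBounded_iff_forall_norm_le.1 hIc.isBounded
    rw [isBounded_iff_forall_norm_le]
    refine ⟨C + (|lo| + |hi|) + L.R0, fun x hx => ?_⟩
    obtain ⟨h1, h2, h3, θ, h4, h5⟩ := hx
    have hP : ‖L.P x‖ ≤ C := hC _ ⟨θ, fun i _ => h4 i, h5.symm⟩
    have hy : ‖L.y x • L.e‖ ≤ |lo| + |hi| := by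
      rw [norm_smul, L.norm_e, mul_one, Real.norm_eq_abs, abs_le]
      have a1 := neg_abs_le lo
      have a2 := le_abs_self hi
      have a3 := abs_nonneg lo
      have a4 := abs_nonneg hi
      constructor <;> linarith
    have hQ : ‖x - L.P x - L.y x • L.e‖ ≤ L.R0 := L.S_bd x h1
    have e : x = L.P x + L.y x • L.e + (x - L.P x - L.y x • L.e) := by abel
    calc ‖x‖ = ‖L.P x + L.y x • L.e + (x - L.P x - L.y x • L.e)‖ := by rw [← e]
      _ ≤ ‖L.P x‖ + ‖L.y x • L.e‖ + ‖x - L.P x - L.y x • L.e‖ :=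
          (norm_add_le _ _).trans (add_le_add (norm_add_le _ _) le_rfl)
      _ ≤ C + (|lo| + |hi|) + L.R0 := add_le_add (add_le_add hP hy) hQ

lemma exists_dk_bx {lo hi : ℝ} {z : E} (hz : z ∈ L.S) (h1 : lo ≤ L.y z) (h2 : L.y z ≤ hi) :
    ∃ n : Fin d → ℤ, L.dk n z ∈ bx L lo hi := by
  obtain ⟨θ, hθ⟩ := (Submodule.mem_span_range_iff_exists_fun ℝ).1 (L.P_mem z)
  refine ⟨fun i => -⌊θ i⌋, (S_dk L _).2 hz, by rw [y_dk]; exact h1, by rw [y_dk]; exact h2,
    fun i => θ i - ⌊θ i⌋, fun i => ⟨by linarith [Int.floor_le (θ i)], by linarith [Int.lt_floor_add_one (θ i)]⟩, ?_⟩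
  rw [P_dk, ← hθ]
  unfold Sp.lv
  rw [← Finset.sum_add_distrib]
  refine Finset.sum_congr rfl fun i _ => ?_
  rw [← add_smul]; push_cast; rfl

/-- a point of `S` of any height -/
lemma exists_S_y (η : ℝ) : ∃ z ∈ L.S, L.y z = η := by
  obtain ⟨x, hx⟩ := L.S_ne
  refine ⟨L.setY x η, S_setY L η hx, ?_⟩
  unfold Sp.setY
  have e : L.y (x + (η - L.y x) • L.e) = L.y x + (η - L.y x) * L.y L.e := by
    unfold Sp.y
    rw [inner_add_right, inner_smul_right]
  have e2 : L.y L.e = 1 := inner_e_e L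
  rw [e, e2]; ring

/-- finitely many centres: cover of the strip, separation, multiplicity `D` independent of `r` -/
theorem exists_cells : ∃ (D : ℕ) (ρ1 : ℝ), 0 < ρ1 ∧ ∀ (lo hi : ℝ), lo ≤ hi → hi ≤ lo + 1 / 2 →
    ∀ r : ℝ, 0 < r → r ≤ ρ1 → ∃ C : Finset E,
      (∀ c ∈ C, c ∈ L.S ∧ lo ≤ L.y c ∧ L.y c ≤ hi) ∧ C.Nonempty ∧
      (∀ z ∈ L.S, lo ≤ L.y z → L.y z ≤ hi → ∃ c ∈ C, ∃ n : Fin d → ℤ, dist z (L.dk n c) ≤ r) ∧
      (∀ c ∈ C, ∀ c' ∈ C, ∀ n n' : Fin d → ℤ, L.dk n c ≠ L.dk n' c' →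
        r ≤ dist (L.dk n c) (L.dk n' c')) ∧
      ∀ x : E, ∀ C' : Finset E, C' ⊆ C → (∀ c ∈ C', cl L (4 * r) c x) → C'.card ≤ D := by
  classical
  obtain ⟨ρ0, hρ0, hdisp⟩ := exists_disp L
  obtain ⟨D, hD⟩ := packing E 4
  refine ⟨D, min ρ0 (1 / 32), by positivity, fun lo hi hlo hhi r hr hr1 => ?_⟩
  have hr0 : r ≤ ρ0 := hr1.trans (min_le_left _ _)
  have hr2 : r ≤ 1 / 32 := hr1.trans (min_le_right _ _)
  -- the action
  let act : MulAction (Multiplicative (Fin d → ℤ)) E :=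
    { smul := fun n x => L.dk (Multiplicative.toAdd n) x
      one_smul := fun x => dk_zero L x
      mul_smul := fun n m x => dk_add L _ _ x }
  have hact : ∀ (γ : Multiplicative (Fin d → ℤ)) (x : E), γ • x = L.dk (Multiplicative.toAdd γ) x := fun _ _ => rfl
  have : IsIsometricSMul (Multiplicative (Fin d → ℤ)) E :=
    ⟨fun γ => Isometry.of_dist_eq fun x x' => dist_dk L _ x x'⟩
  obtain ⟨C0, hC0K, hC0s, hC0c⟩ := exists_net (Γ := Multiplicative (Fin d → ℤ)) (bx_compact L lo hi) hr (by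
    intro γ x _ hne
    refine hr0.trans ?_
    rw [hact] at hne ⊢
    have h1 := hdisp 0 (Multiplicative.toAdd γ) x (by
      intro h0
      rw [← h0, dk_zero] at hne
      exact hne rfl)
    rwa [dk_zero] at h1)
  -- representatives of the orbits
  set rp : E → E := fun x => Quotient.out (Quotient.mk (MulAction.orbitRel (Multiplicative (Fin d → ℤ)) E) x)
    with hrp
  have hrp1 : ∀ x, ∃ n : Fin d → ℤ, rp x = L.dk n x := by
    intro x
    have h1 : (MulAction.orbitRel (Multiplicative (Fin d → ℤ)) E).r (rp x) x := Quotient.mk_out x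
    obtain ⟨γ, hγ⟩ := MulAction.mem_orbit_iff.1 h1
    exact ⟨Multiplicative.toAdd γ, hγ.symm⟩
  have hrp2 : ∀ x n, rp (L.dk n x) = rp x := by
    intro x n
    have h1 : Quotient.mk (MulAction.orbitRel (Multiplicative (Fin d → ℤ)) E) (L.dk n x) =
        Quotient.mk (MulAction.orbitRel (Multiplicative (Fin d → ℤ)) E) x :=
      Quotient.sound (MulAction.mem_orbit_iff.2 ⟨Multiplicative.ofAdd n, rfl⟩)
    show Quotient.out _ = Quotient.out _
    rw [h1]
  have hrp3 : ∀ x, rp (rp x) = rp x := by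
    intro x
    obtain ⟨n, hn⟩ := hrp1 x
    conv_lhs => rw [hn]
    exact hrp2 x n
  have hsep : ∀ c ∈ C0.image rp, ∀ c' ∈ C0.image rp, ∀ n n' : Fin d → ℤ, L.dk n c ≠ L.dk n' c' →
        r ≤ dist (L.dk n c) (L.dk n' c') := by
    intro c hc c' hc' n n' hne
    rw [Finset.mem_image] at hc hc'
    obtain ⟨a, ha, rfl⟩ := hc
    obtain ⟨a', ha', rfl⟩ := hc'
    obtain ⟨m, hm⟩ := hrp1 a
    obtain ⟨m', hm'⟩ := hrp1 a'
    rw [hm, hm', ← dk_add, ← dk_add] at hne ⊢
    exact hC0s a ha a' ha' (Multiplicative.ofAdd (n + m)) (Multiplicative.ofAdd (n' + m')) hne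
  have hcov : ∀ z ∈ L.S, lo ≤ L.y z → L.y z ≤ hi →
      ∃ c ∈ C0.image rp, ∃ n : Fin d → ℤ, dist z (L.dk n c) ≤ r := by
    intro z hz h1 h2
    obtain ⟨n, hn⟩ := exists_dk_bx L hz h1 h2
    obtain ⟨a, ha, γ, h3⟩ := hC0c (Multiplicative.ofAdd (-n)) _ hn
    obtain ⟨m, hm⟩ := hrp1 a
    refine ⟨rp a, Finset.mem_image_of_mem _ ha, Multiplicative.toAdd γ - m, ?_⟩
    rw [hm, ← dk_add, sub_add_cancel]
    have e1 : (Multiplicative.ofAdd (-n)) • (L.dk n z) = z := by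
      rw [hact]
      show L.dk (-n) (L.dk n z) = z
      rw [← dk_add, neg_add_cancel, dk_zero]
    rw [e1] at h3
    exact h3.le
  refine ⟨C0.image rp, ?_, ?_, hcov, hsep, ?_⟩
  · intro c hc
    rw [Finset.mem_image] at hc
    obtain ⟨a, ha, rfl⟩ := hc
    obtain ⟨m, hm⟩ := hrp1 a
    obtain ⟨h1, h2, h3, _⟩ := hC0K ha
    rw [hm, y_dk]
    exact ⟨(S_dk L m).2 h1, h2, h3⟩
  · obtain ⟨z, hz, hzy⟩ := exists_S_y L lo
    obtain ⟨c, hc, _⟩ := hcov z hz (by rw [hzy]) (by rw [hzy]; exact hlo)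
    exact ⟨c, hc⟩
  · intro x C' hC' hcl
    have hsel : ∀ c : E, ∃ q : (Fin d → ℤ) × ℤ, c ∈ C' → dist x (orb L c q.1 q.2) ≤ 4 * r := by
      intro c
      by_cases hc : c ∈ C'
      · obtain ⟨n, j, h⟩ := hcl c hc
        exact ⟨(n, j), fun _ => h⟩
      · exact ⟨(0, 0), fun h => absurd h hc⟩
    choose q hq using hsel
    have hyC : ∀ c ∈ C', lo ≤ L.y c ∧ L.y c ≤ hi := by
      intro c hc
      have h0 := hC' hc
      rw [Finset.mem_image] at h0
      obtain ⟨a, ha, h0⟩ := h0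
      obtain ⟨m, hm⟩ := hrp1 a
      obtain ⟨_, h2, h3, _⟩ := hC0K ha
      rw [← h0, hm, y_dk]
      exact ⟨h2, h3⟩
    have hj : ∀ c ∈ C', ∀ c' ∈ C', (q c).2 = (q c').2 := by
      intro c hc c' hc'
      have h1 := (abs_y_le L x _).trans (hq c hc)
      have h2 := (abs_y_le L x _).trans (hq c' hc')
      rw [orb_y, abs_le] at h1 h2
      have h3 := hyC c hc
      have h4 := hyC c' hc'
      have a : (((q c).2 - (q c').2 : ℤ) : ℝ) < 1 := by
        push_cast; linarith [h1.1, h1.2, h2.1, h2.2, h3.1, h3.2, h4.1, h4.2]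
      have b : (-1:ℝ) < (((q c).2 - (q c').2 : ℤ) : ℝ) := by
        push_cast; linarith [h1.1, h1.2, h2.1, h2.2, h3.1, h3.2, h4.1, h4.2]
      have a' : (q c).2 - (q c').2 < 1 := by exact_mod_cast a
      have b' : -1 < (q c).2 - (q c').2 := by exact_mod_cast b
      omega
    -- the lifts
    set F : Finset E := C'.image fun c => orb L c (q c).1 (q c).2 with hF
    have hFc : F.card = C'.card := by
      refine Finset.card_image_of_injOn fun c hc c' hc' he => ?_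
      have he' : orb L c (q c).1 (q c).2 = orb L c' (q c').1 (q c').2 := he
      unfold orb at he'
      rw [hj c hc c' hc'] at he'
      have he2 : L.dk (q c).1 c = L.dk (q c').1 c' := (gdE L ^ (q c').2).injective he'
      have h1 : rp c = rp c' := by rw [← hrp2 c (q c).1, he2, hrp2]
      have h2 : ∀ c ∈ C', rp c = c := by
        intro c hc
        have h0 := hC' hc
        rw [Finset.mem_image] at h0
        obtain ⟨a, _, h0⟩ := h0
        rw [← h0]; exact hrp3 a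
      rw [h2 c hc, h2 c' hc'] at h1
      exact h1
    rw [← hFc]
    refine hD r hr F x ?_ ?_
    · intro u hu v hv huv
      rw [Finset.mem_image] at hu hv
      obtain ⟨c, hc, rfl⟩ := hu
      obtain ⟨c', hc', rfl⟩ := hv
      unfold orb at huv ⊢
      rw [hj c hc c' hc'] at huv ⊢
      rw [dist_gdE]
      exact hsep c (hC' hc) c' (hC' hc') _ _ fun h => huv (by rw [h])
    · intro u hu
      rw [Finset.mem_image] at hu
      obtain ⟨c, hc, rfl⟩ := hu
      rw [dist_comm]; exact hq c hc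

/-! ### bumps -/

/-- radial profile in terms of the squared distance: `1` for `s ≤ 4r²`, `0` for `s ≥ 9r²` -/
def prof (r s : ℝ) : ℝ := Real.smoothTransition ((9 * r ^ 2 - s) / (5 * r ^ 2))

lemma prof_nonneg (r s : ℝ) : 0 ≤ prof r s := Real.smoothTransition.nonneg _

lemma prof_le_one (r s : ℝ) : prof r s ≤ 1 := Real.smoothTransition.le_one _

lemma prof_one {r s : ℝ} (hr : 0 < r) (h : s ≤ 4 * r ^ 2) : prof r s = 1 := by
  unfold prof
  apply Real.smoothTransition.one_of_one_le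
  rw [le_div_iff₀ (by positivity)]
  linarith

lemma prof_zero {r s : ℝ} (hr : 0 < r) (h : 9 * r ^ 2 ≤ s) : prof r s = 0 := by
  unfold prof
  apply Real.smoothTransition.zero_of_nonpos
  apply div_nonpos_of_nonpos_of_nonneg _ (by positivity)
  linarith

lemma prof_contDiff (r : ℝ) {n : ℕ∞} : ContDiff ℝ n (prof r) := by
  unfold prof
  apply Real.smoothTransition.contDiff.comp
  apply ContDiff.div_const
  exact contDiff_const.sub contDiff_id

/-- the radial bump at the orbit point with index `q` -/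
def rb (r : ℝ) (c : E) (q : (Fin d → ℤ) × ℤ) (x : E) : ℝ := prof r (‖x - orb L c q.1 q.2‖ ^ 2)

lemma rb_contDiff (r : ℝ) (c : E) (q : (Fin d → ℤ) × ℤ) {n : ℕ∞} : ContDiff ℝ n (rb L r c q) := by
  unfold rb
  exact (prof_contDiff r).comp ((contDiff_id.sub contDiff_const).norm_sq ℝ)

/-- the periodised bump -/
def pbump (r : ℝ) (c x : E) : ℝ := ∑ᶠ q : (Fin d → ℤ) × ℤ, rb L r c q x

section bump

variable {ρ0 r : ℝ} {c : E}

lemma rb_zero (hr : 0 < r) {q : (Fin d → ℤ) × ℤ} {x : E} (h : 3 * r ≤ dist x (orb L c q.1 q.2)) :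
    rb L r c q x = 0 := by
  unfold rb
  apply prof_zero hr
  rw [← dist_eq_norm]
  nlinarith

lemma pbump_eq (hd : ∀ q q' : (Fin d → ℤ) × ℤ, q ≠ q' → ρ0 ≤ dist (orb L c q.1 q.2) (orb L c q'.1 q'.2))
    (hr : 0 < r) (hr8 : 8 * r ≤ ρ0) {q : (Fin d → ℤ) × ℤ} {x : E} (h : dist x (orb L c q.1 q.2) ≤ 5 * r) :
    pbump L r c x = rb L r c q x := by
  unfold pbump
  apply finsum_eq_single
  intro q' hq'
  apply rb_zero L hr
  have h1 := hd q' q hq'
  have h2 := dist_triangle_left (orb L c q'.1 q'.2) (orb L c q.1 q.2) x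
  linarith

lemma pbump_zero (hr : 0 < r) {x : E} (h : ∀ q : (Fin d → ℤ) × ℤ, 3 * r ≤ dist x (orb L c q.1 q.2)) :
    pbump L r c x = 0 := by
  unfold pbump
  rw [finsum_congr fun q => rb_zero L hr (h q), finsum_zero]

lemma pbump_contDiff (hd : ∀ q q' : (Fin d → ℤ) × ℤ, q ≠ q' → ρ0 ≤ dist (orb L c q.1 q.2) (orb L c q'.1 q'.2))
    (hr : 0 < r) (hr8 : 8 * r ≤ ρ0) : ContDiff ℝ ∞ (pbump L r c) := by
  rw [contDiff_iff_contDiffAt]
  intro x0
  have hball : Metric.ball x0 r ∈ 𝓝 x0 := Metric.ball_mem_nhds x0 hr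
  by_cases h : ∃ q : (Fin d → ℤ) × ℤ, dist x0 (orb L c q.1 q.2) ≤ 4 * r
  · obtain ⟨q, hq⟩ := h
    have h1 : pbump L r c =ᶠ[𝓝 x0] rb L r c q := by
      filter_upwards [hball] with x hx
      apply pbump_eq L hd hr hr8
      have := dist_triangle x x0 (orb L c q.1 q.2)
      have h2 := Metric.mem_ball.1 hx
      linarith
    exact ((rb_contDiff L r c q).contDiffAt).congr_of_eventuallyEq h1
  · push Not at h
    have h1 : pbump L r c =ᶠ[𝓝 x0] fun _ => 0 := by
      filter_upwards [hball] with x hx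
      apply pbump_zero L hr
      intro q
      have := dist_triangle x0 x (orb L c q.1 q.2)
      have h2 := Metric.mem_ball'.1 hx
      have h3 := h q
      linarith
    exact (contDiffAt_const).congr_of_eventuallyEq h1

/-- invariance under a distance preserving map which permutes the orbit -/
lemma pbump_inv (hd : ∀ q q' : (Fin d → ℤ) × ℤ, q ≠ q' → ρ0 ≤ dist (orb L c q.1 q.2) (orb L c q'.1 q'.2))
    (hr : 0 < r) (hr8 : 8 * r ≤ ρ0) {T : E → E} (hT : ∀ x x', dist (T x) (T x') = dist x x')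
    {τ : (Fin d → ℤ) × ℤ → (Fin d → ℤ) × ℤ}
    (hτ : ∀ q, T (orb L c q.1 q.2) = orb L c (τ q).1 (τ q).2) (hτs : Function.Surjective τ) (x : E) :
    pbump L r c (T x) = pbump L r c x := by
  by_cases h : ∃ q : (Fin d → ℤ) × ℤ, dist x (orb L c q.1 q.2) ≤ 5 * r
  · obtain ⟨q, hq⟩ := h
    have h1 : dist (T x) (orb L c (τ q).1 (τ q).2) ≤ 5 * r := by rw [← hτ, hT]; exact hq
    rw [pbump_eq L hd hr hr8 hq, pbump_eq L hd hr hr8 h1]
    unfold rb
    rw [← hτ, ← dist_eq_norm, ← dist_eq_norm, hT]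
  · push Not at h
    have h1 : pbump L r c x = 0 := pbump_zero L hr fun q => by have := h q; linarith
    have h2 : pbump L r c (T x) = 0 := by
      apply pbump_zero L hr
      intro q
      obtain ⟨q', rfl⟩ := hτs q
      rw [← hτ, hT]
      have := h q'
      linarith
    rw [h1, h2]

end bump

/-- periodised radial bumps -/
theorem exists_bump : ∃ ρ2 : ℝ, 0 < ρ2 ∧ ∀ r : ℝ, 0 < r → r ≤ ρ2 → ∀ c ∈ L.S, ∃ g : E → ℝ,
    (∀ x, 0 ≤ g x ∧ g x ≤ 1) ∧ (∀ x, cl L (2 * r) c x → g x = 1) ∧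
    (∀ x, ¬ cl L (3 * r) c x → g x = 0) ∧
    ∀ w : ℝ, L.IsSm (fun x t => g x * H33.zt w t) := by
  obtain ⟨ρ0, hρ0, hdisp⟩ := exists_disp L
  refine ⟨min ρ0 1 / 8, by positivity, fun r hr hr1 c hc => ?_⟩
  have hr8 : 8 * r ≤ min ρ0 1 := by linarith
  have hr1' : 8 * r ≤ 1 := hr8.trans (min_le_right _ _)
  have hd : ∀ q q' : (Fin d → ℤ) × ℤ, q ≠ q' → min ρ0 1 ≤ dist (orb L c q.1 q.2) (orb L c q'.1 q'.2) :=
    fun q q' hq => orb_disp L (fun n n' x hn => (min_le_left _ _).trans (hdisp n n' x hn)) (min_le_right _ _) c hq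
  have hperd : ∀ n x, pbump L r c (L.dk n x) = pbump L r c x := fun n x =>
    pbump_inv L hd hr hr8 (dist_dk L n) (τ := fun q => (n + q.1, q.2)) (fun q => orb_dk L c n q.1 q.2)
      (fun q => ⟨(-n + q.1, q.2), by simp⟩) x
  have hperg : ∀ x, pbump L r c (L.gd x) = pbump L r c x := fun x =>
    pbump_inv L hd hr hr8 (dist_gd L) (τ := fun q => (q.1, 1 + q.2)) (fun q => orb_gd L c q.1 q.2)
      (fun q => ⟨(q.1, -1 + q.2), by simp⟩) x
  have hzero : ∀ x, ¬ cl L (3 * r) c x → pbump L r c x = 0 := by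
    intro x hx
    apply pbump_zero L hr
    intro q
    by_contra hlt
    push Not at hlt
    exact hx ⟨q.1, q.2, hlt.le⟩
  refine ⟨pbump L r c, fun x => ?_, ?_, hzero, fun w => ⟨?_, ?_, ?_, ?_, ?_⟩⟩
  · by_cases h : cl L (3 * r) c x
    · obtain ⟨n, j, h⟩ := h
      have h1 : dist x (orb L c (n, j).1 (n, j).2) ≤ 5 * r := by
        have h2 : dist x (orb L c n j) ≤ 3 * r := h
        show dist x (orb L c n j) ≤ 5 * r
        linarith
      rw [pbump_eq L hd hr hr8 h1]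
      exact ⟨prof_nonneg _ _, prof_le_one _ _⟩
    · rw [hzero x h]; norm_num
  · rintro x ⟨n, j, h⟩
    have h2 : dist x (orb L c n j) ≤ 2 * r := h
    have h1 : dist x (orb L c (n, j).1 (n, j).2) ≤ 5 * r := by
      show dist x (orb L c n j) ≤ 5 * r
      linarith
    rw [pbump_eq L hd hr hr8 h1]
    unfold rb
    apply prof_one hr
    rw [← dist_eq_norm]
    show dist x (orb L c n j) ^ 2 ≤ 4 * r ^ 2
    have h0 : 0 ≤ dist x (orb L c n j) := dist_nonneg
    nlinarith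
  · have h1 : ContDiff ℝ ∞ (fun q : E × ℝ => pbump L r c q.1) :=
      (pbump_contDiff L hd hr hr8).comp contDiff_fst
    have h2 : ContDiff ℝ ∞ (fun q : E × ℝ => H33.zt w q.2) := by
      unfold H33.zt
      exact ((H33.pb_contDiff 0 w).comp contDiff_snd).div_const _
    exact h1.mul h2
  · intro n x t
    simp only [hperd]
  · intro x t
    simp only [hperg]
  · intro x t
    unfold H33.zt; rw [H33.pb_per]
  · intro x t hx
    have : pbump L r c x = 0 := by
      apply hzero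
      rintro ⟨n, j, h⟩
      have h2 : dist x (orb L c n j) ≤ 3 * r := h
      have h3 : ‖L.Q (orb L c n j)‖ ≤ L.R0 := L.S_bd _ (orb_S L hc n j)
      have h4 : ‖L.Q (x - orb L c n j)‖ ≤ dist x (orb L c n j) := by
        rw [dist_eq_norm]; exact norm_Q_le L _
      rw [Q_sub] at h4
      have h5 : ‖L.Q x‖ ≤ ‖L.Q x - L.Q (orb L c n j)‖ + ‖L.Q (orb L c n j)‖ := by
        have := norm_add_le (L.Q x - L.Q (orb L c n j)) (L.Q (orb L c n j))
        rwa [sub_add_cancel] at this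
      linarith
    simp only [this, zero_mul]

end EscN
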