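import Pool.Agent.EscN.Defs

/-!
Module C: infinite sequence of gate points.
-/

noncomputable section

namespace EscN

open MeasureTheory Set Filter Topology Esc

section ModuleC

variable {E : Type*} [NormedAddCommGroup E] [InnerProductSpace ℝ E]

/-- infinite sequence of gate points, optimal at every gate -/
theorem chain_points (S A : Set E) (gi : E → E) (hgi : Continuous gi) (G : ℕ → E → E → ℝ) (D : ℕ → Set E)
    (τ : ℕ → E) (hS : IsClosed S)
    (hD : ∀ n, IsCompact (D n)) (hne : ∀ n, (D n).Nonempty) (hDS : ∀ n, D n ⊆ S) (hDA : ∀ n, D n ⊆ A)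
    (hDg : ∀ n, ∀ z ∈ D n, gi z ∈ A)
    (hG : ∀ n, ContinuousOn (fun q : E × E => G n q.1 q.2) (A ×ˢ A))
    (hgate : ∀ n, ∀ z ∈ D (n + 1) ∩ closure (S \ D (n + 1)), ∃ w ∈ D (n + 1), ∀ x ∈ A, ∀ x' ∈ A,
      G n x w + G (n + 1) (gi w) x' - inner ℝ (τ (n + 1)) w <
        G n x z + G (n + 1) (gi z) x' - inner ℝ (τ (n + 1)) z) :
    ∃ z : ℕ → E, (∀ n, z n ∈ D n) ∧ (∀ n, z (n + 1) ∉ closure (S \ D (n + 1))) ∧
      ∀ n, ∀ w ∈ D (n + 1),
        G n (gi (z n)) (z (n + 1)) + G (n + 1) (gi (z (n + 1))) (z (n + 2)) - inner ℝ (τ (n + 1)) (z (n + 1)) ≤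
          G n (gi (z n)) w + G (n + 1) (gi w) (z (n + 2)) - inner ℝ (τ (n + 1)) w := by
  classical
  set X : Set (ℕ → E) := Set.pi univ D with hX
  have hXc : IsCompact X := isCompact_univ_pi hD
  have hmem : ∀ z ∈ X, ∀ n, z n ∈ D n := fun z hz n => hz n (mem_univ n)
  -- continuity of the basic pieces
  have hcG : ∀ k, ContinuousOn (fun z : ℕ → E => G k (gi (z k)) (z (k + 1))) X := by
    intro k
    have h1 : ContinuousOn (fun z : ℕ → E => ((gi (z k), z (k + 1)) : E × E)) X :=
      ((hgi.comp (continuous_apply k)).prodMk (continuous_apply (k + 1))).continuousOn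
    exact (hG k).comp h1 (fun z hz => ⟨hDg k _ (hmem z hz k), hDA _ (hmem z hz (k + 1))⟩)
  have hcw1 : ∀ k, ∀ w ∈ D (k + 1), ContinuousOn (fun z : ℕ → E => G k (gi (z k)) w) X := by
    intro k w hw
    have h1 : ContinuousOn (fun z : ℕ → E => ((gi (z k), w) : E × E)) X :=
      ((hgi.comp (continuous_apply k)).prodMk continuous_const).continuousOn
    exact (hG k).comp h1 (fun z hz => ⟨hDg k _ (hmem z hz k), hDA _ hw⟩)
  have hcw2 : ∀ k, ∀ w ∈ D (k + 1), ContinuousOn (fun z : ℕ → E => G (k + 1) (gi w) (z (k + 2))) X := by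
    intro k w hw
    have h1 : ContinuousOn (fun z : ℕ → E => ((gi w, z (k + 2)) : E × E)) X :=
      (continuous_const.prodMk (continuous_apply (k + 2))).continuousOn
    exact (hG (k + 1)).comp h1 (fun z hz => ⟨hDg _ _ hw, hDA _ (hmem z hz (k + 2))⟩)
  have hci : ∀ k, Continuous (fun z : ℕ → E => inner ℝ (τ (k + 1)) (z (k + 1))) := fun k =>
    continuous_const.inner (continuous_apply (k + 1))
  -- the closed sets
  set C : ℕ → Set (ℕ → E) := fun N => {z | z ∈ X ∧ ∀ n < N, ∀ w ∈ D (n + 1),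
        G n (gi (z n)) (z (n + 1)) + G (n + 1) (gi (z (n + 1))) (z (n + 2)) - inner ℝ (τ (n + 1)) (z (n + 1)) ≤
          G n (gi (z n)) w + G (n + 1) (gi w) (z (n + 2)) - inner ℝ (τ (n + 1)) w} with hC
  have hCcl : ∀ N, IsClosed (C N) := by
    intro N
    have h1 : C N = X ∩ ⋂ n, ⋂ (_ : n < N), ⋂ w, ⋂ (_ : w ∈ D (n + 1)), {z | z ∈ X ∧
        G n (gi (z n)) (z (n + 1)) + G (n + 1) (gi (z (n + 1))) (z (n + 2)) - inner ℝ (τ (n + 1)) (z (n + 1)) ≤
          G n (gi (z n)) w + G (n + 1) (gi w) (z (n + 2)) - inner ℝ (τ (n + 1)) w} := by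
      ext z
      simp only [hC, mem_ofPred_eq, mem_inter_iff, mem_iInter]
      constructor
      · rintro ⟨h, h'⟩
        exact ⟨h, fun n hn w hw => ⟨h, h' n hn w hw⟩⟩
      · rintro ⟨h, h'⟩
        exact ⟨h, fun n hn w hw => (h' n hn w hw).2⟩
    rw [h1]
    refine hXc.isClosed.inter (isClosed_iInter fun n => isClosed_iInter fun _ =>
      isClosed_iInter fun w => isClosed_iInter fun hw => ?_)
    refine hXc.isClosed.isClosed_le ?_ ?_
    · exact ((hcG n).add (hcG (n + 1))).sub (hci n).continuousOn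
    · exact ((hcw1 n w hw).add (hcw2 n w hw)).sub continuousOn_const
  have hCne : ∀ N, (C N).Nonempty := by
    intro N
    choose z0 hz0 using hne
    set XN : Set (ℕ → E) := {z | z ∈ X ∧ z 0 = z0 0 ∧ ∀ n, N < n → z n = z0 n} with hXN
    have hXNcl : IsClosed XN := by
      have : XN = X ∩ ({z | z 0 = z0 0} ∩ ⋂ n, ⋂ (_ : N < n), {z | z n = z0 n}) := by
        ext z
        constructor
        · rintro ⟨h1, h2, h3⟩
          exact ⟨h1, h2, by simpa using h3⟩
        · rintro ⟨h1, h2, h3⟩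
          exact ⟨h1, h2, by simpa using h3⟩
      rw [this]
      exact hXc.isClosed.inter ((isClosed_eq (continuous_apply 0) continuous_const).inter
        (isClosed_iInter fun n => isClosed_iInter fun _ => isClosed_eq (continuous_apply n) continuous_const))
    have hXNc : IsCompact XN := hXc.of_isClosed_subset hXNcl (fun z hz => hz.1)
    have hXNne : XN.Nonempty := ⟨z0, fun n _ => hz0 n, rfl, fun _ _ => rfl⟩
    set T : ℕ → (ℕ → E) → ℝ := fun k z => G k (gi (z k)) (z (k + 1)) - inner ℝ (τ (k + 1)) (z (k + 1))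
      with hT
    have hFc : ContinuousOn (fun z => ∑ k ∈ Finset.range (N + 1), T k z) XN := by
      refine continuousOn_finsetSum _ fun k _ => ?_
      exact ((hcG k).sub (hci k).continuousOn).mono (fun z hz => hz.1)
    obtain ⟨z, hz, hzmin⟩ := hXNc.exists_isMinOn hXNne hFc
    refine ⟨z, hz.1, fun n hn w hw => ?_⟩
    set z' : ℕ → E := Function.update z (n + 1) w with hz'
    have hz'n : z' (n + 1) = w := by simp [hz']
    have hz'o : ∀ k, k ≠ n + 1 → z' k = z k := fun k hk => by simp [hz', hk]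
    have hz'X : z' ∈ XN := by
      refine ⟨fun k _ => ?_, ?_, fun k hk => ?_⟩
      · by_cases h : k = n + 1
        · subst h; rw [hz'n]; exact hw
        · rw [hz'o k h]; exact hmem z hz.1 k
      · rw [hz'o 0 (by omega)]; exact hz.2.1
      · rw [hz'o k (by omega)]; exact hz.2.2 k hk
    have hle : ∑ k ∈ Finset.range (N + 1), T k z ≤ ∑ k ∈ Finset.range (N + 1), T k z' :=
      hzmin hz'X
    have hdiff : ∑ k ∈ Finset.range (N + 1), (T k z' - T k z) =
        (T n z' - T n z) + (T (n + 1) z' - T (n + 1) z) := by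
      have hsub : ({n, n + 1} : Finset ℕ) ⊆ Finset.range (N + 1) := by
        intro k hk
        simp only [Finset.mem_insert, Finset.mem_singleton] at hk
        rw [Finset.mem_range]
        omega
      rw [← Finset.sum_subset hsub, Finset.sum_pair (by omega)]
      intro k _ hk
      simp only [Finset.mem_insert, Finset.mem_singleton, not_or] at hk
      simp only [hT]
      rw [hz'o k (by omega), hz'o (k + 1) (by omega)]
      ring
    have h2 : 0 ≤ ∑ k ∈ Finset.range (N + 1), (T k z' - T k z) := by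
      rw [Finset.sum_sub_distrib]; linarith
    rw [hdiff] at h2
    simp only [hT] at h2
    rw [hz'n, hz'o n (by omega), hz'o (n + 1 + 1) (by omega)] at h2
    linarith
  have hmono : ∀ N, C (N + 1) ⊆ C N := fun N z hz => ⟨hz.1, fun n hn => hz.2 n (by omega)⟩
  have hC0 : IsCompact (C 0) := hXc.of_isClosed_subset (hCcl 0) (fun z hz => hz.1)
  obtain ⟨z, hz⟩ := IsCompact.nonempty_iInter_of_sequence_nonempty_isCompact_isClosed C hmono hCne hC0 hCcl
  rw [mem_iInter] at hz
  have hzX : z ∈ X := (hz 0).1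
  have hopt : ∀ n, ∀ w ∈ D (n + 1),
        G n (gi (z n)) (z (n + 1)) + G (n + 1) (gi (z (n + 1))) (z (n + 2)) - inner ℝ (τ (n + 1)) (z (n + 1)) ≤
          G n (gi (z n)) w + G (n + 1) (gi w) (z (n + 2)) - inner ℝ (τ (n + 1)) w :=
    fun n => (hz (n + 1)).2 n (by omega)
  refine ⟨z, hmem z hzX, fun n hni => ?_, hopt⟩
  obtain ⟨w, hw, h⟩ := hgate n _ ⟨hmem z hzX _, hni⟩
  have h1 := h (gi (z n)) (hDg n _ (hmem z hzX n)) (z (n + 2)) (hDA _ (hmem z hzX _))
  have h2 := hopt n w hw
  linarith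

end ModuleC

end EscN
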