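import Pool.Agent.helper42.Esc.K2
import Pool.Agent.EscN.K2

/-!
Periodic kernel, second part: locality, cells.
-/

set_option linter.unusedSectionVars false

noncomputable section

namespace EscN

open MeasureTheory Set Filter Topology Esc
open scoped ContDiff

variable {d : ℕ} {E : Type*} [NormedAddCommGroup E] [InnerProductSpace ℝ E] [FiniteDimensional ℝ E]
  (L : Sp d E)

section algebra

lemma k2_y_add (x x' : E) : L.y (x + x') = L.y x + L.y x' := inner_add_right _ _ _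
lemma k2_y_smul (c : ℝ) (x : E) : L.y (c • x) = c * L.y x := inner_smul_right _ _ _
lemma k2_y_e : L.y L.e = 1 := by
  show inner ℝ L.e L.e = 1
  rw [real_inner_self_eq_norm_sq, L.norm_e]; norm_num

lemma k2_Q_smul (c : ℝ) (x : E) : L.Q (c • x) = c • L.Q x := by
  unfold Sp.Q
  rw [map_smul, k2_y_smul, smul_sub, smul_sub, smul_smul]

lemma k2_Q_sub (x x' : E) : L.Q (x - x') = L.Q x - L.Q x' := by
  unfold Sp.Q
  rw [map_sub, k2_y_sub, sub_smul]; abel

lemma k2_Q_add (x x' : E) : L.Q (x + x') = L.Q x + L.Q x' := by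
  unfold Sp.Q
  rw [map_add, k2_y_add, add_smul]; abel

lemma k2_Q_e : L.Q L.e = 0 := by
  unfold Sp.Q
  rw [L.P_e, k2_y_e, one_smul, sub_zero, sub_self]

lemma k2_Q_P (x : E) : L.Q (L.P x) = 0 := by
  unfold Sp.Q
  rw [P_P, y_P, zero_smul, sub_zero, sub_self]

end algebra

/-- Locality / growth lemma. Near-minimizers of `f'` stay in the tube of radius
`ρ = sqrt (2 (B + M + 1) w)` around the free motion during `[0,w]` and `[1-w,1]`. -/
theorem kbar_tube {M B : ℝ} {f f' : E → ℝ → ℝ} (hf : Good M f) (hf' : Good M f')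
    (hp : ∀ n x t, f (L.dk n x) t = f x t) (hp' : ∀ n x t, f' (L.dk n x) t = f' x t)
    (s : ℝ) {z z' : E} (hz : z ∈ L.S) (hz' : z' ∈ L.S)
    (hB : L.kbar f' s z z' ≤ B) {w : ℝ} (hw : 0 < w) (hw' : w < 1 / 2)
    (κ : ℝ → ℝ) (hκ : IntervalIntegrable κ volume 0 1)
    (h0 : ∀ t ∈ Icc 0 w, ∀ r : E, ‖r‖ ≤ Real.sqrt (2 * (B + M + 1) * w) →
      f (z + t • L.vel s + r) t + κ t ≤ f' (z + t • L.vel s + r) t)
    (h1 : ∀ t ∈ Icc (1 - w) 1, ∀ r : E, ‖r‖ ≤ Real.sqrt (2 * (B + M + 1) * w) →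
      f (z' - (1 - t) • L.vel s + r) t + κ t ≤ f' (z' - (1 - t) • L.vel s + r) t)
    (hm : ∀ t ∈ Ioo w (1 - w), ∀ x, f x t + κ t ≤ f' x t) :
    L.kbar f s z z' + ∫ t in (0:ℝ)..1, κ t ≤ L.kbar f' s z z' := by
  apply le_of_forall_pos_le_add
  intro ε hε
  obtain ⟨n, hn⟩ := kbar_attained L hf' s hz hz'
  have hdz' : L.dk n z' ∈ L.S := (S_dk L n).2 hz'
  obtain ⟨u, hu, hS, hzu, hact⟩ := exists_act_lt L hf' (L.vel s) one_pos hz hdz'
    (lt_min hε one_pos)
  rw [← hn] at hact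
  have hact1 : act f' (L.vel s) 0 1 z u ≤ B + 1 := by linarith [min_le_right ε 1]
  have hact2 : act f' (L.vel s) 0 1 z u ≤ L.kbar f' s z z' + ε := by linarith [min_le_left ε 1]
  have h2a := ker_le_act hf (L.vel s) one_pos z hu hS
  rw [hzu] at h2a
  have h2 := (kbar_le_ker L hf s hz hz' n).trans h2a
  have h3 : (∫ t in (0:ℝ)..1, f (traj 0 z u t) t) + (∫ t in (0:ℝ)..1, κ t)
      ≤ ∫ t in (0:ℝ)..1, f' (traj 0 z u t) t := by
    rw [← intervalIntegral.integral_add (f_traj_ii hf hu 0 z 0 1) hκ]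
    apply intervalIntegral.integral_mono_on zero_le_one ((f_traj_ii hf hu 0 z 0 1).add hκ)
      (f_traj_ii hf' hu 0 z 0 1)
    intro t ht
    by_cases hA : t ≤ w
    · have h4 := near_start hf' hu hact1 (by linarith) (t := t) ⟨ht.1, hA⟩
      have h5 := h0 t ⟨ht.1, hA⟩ _ h4
      have e : z + t • L.vel s + (traj 0 z u t - (z + t • L.vel s)) = traj 0 z u t := by abel
      rwa [e] at h5
    by_cases hB' : 1 - w ≤ t
    · have h4 := near_end hf' hu hact1 (by linarith) (t := t) ⟨hB', ht.2⟩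
      rw [hzu] at h4
      have hinv : L.dk (-n) (L.dk n z') = z' := by
        rw [← dk_add, neg_add_cancel, dk_zero]
      have hW : L.Q (-((1 - t) • L.vel s)) = 0 := by
        rw [← neg_smul, k2_Q_smul, Q_vel, smul_zero]
      have e1 : L.dk (-n) (L.dk n z' - (1 - t) • L.vel s) = z' - (1 - t) • L.vel s := by
        rw [sub_eq_add_neg, dk_add_W L (-n) _ _ hW, hinv, ← sub_eq_add_neg]
      have h6 : ‖L.dk (-n) (traj 0 z u t) - (z' - (1 - t) • L.vel s)‖ ≤
          Real.sqrt (2 * (B + M + 1) * w) := by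
        rw [← e1, ← dist_eq_norm, dist_dk, dist_eq_norm]
        exact h4
      have h5 := h1 t ⟨hB', ht.2⟩ _ h6
      have e : z' - (1 - t) • L.vel s + (L.dk (-n) (traj 0 z u t) - (z' - (1 - t) • L.vel s))
          = L.dk (-n) (traj 0 z u t) := by abel
      rwa [e, hp, hp'] at h5
    · exact hm t ⟨not_le.mp hA, not_le.mp hB'⟩ _
  rw [act_eq hf _ _ _ _ hu] at h2
  rw [act_eq hf' _ _ _ _ hu] at hact2
  linarith

/-! ### the compact cell and the room -/

theorem cell_compact (p : ℝ) : IsCompact (L.cell p) := by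
  have hK : IsCompact ((fun θ : Fin d → ℝ => ∑ i, θ i • L.b i) '' Icc 0 1) :=
    isCompact_Icc.image (by fun_prop)
  have hycont : Continuous L.y := by
    unfold Sp.y
    exact continuous_const.inner continuous_id
  have heq : L.cell p = L.S ∩ ({x | |L.y x - p| ≤ 7 / 8} ∩
      L.P ⁻¹' ((fun θ : Fin d → ℝ => ∑ i, θ i • L.b i) '' Icc 0 1)) := by
    ext x
    constructor
    · rintro ⟨h1, h2, θ, hθ, h3⟩
      exact ⟨h1, h2, θ, ⟨fun i => (hθ i).1, fun i => (hθ i).2⟩, h3.symm⟩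
    · rintro ⟨h1, h2, θ, hθ, h3⟩
      exact ⟨h1, h2, θ, fun i => ⟨hθ.1 i, hθ.2 i⟩, h3.symm⟩
  have hcl : IsClosed (L.cell p) := by
    rw [heq]
    refine L.ret.closed.inter (IsClosed.inter ?_ (hK.isClosed.preimage L.P.continuous))
    exact isClosed_le (hycont.sub continuous_const).abs continuous_const
  apply Metric.isCompact_of_isClosed_isBounded hcl
  obtain ⟨C, hC⟩ := hK.isBounded.exists_norm_le
  rw [isBounded_iff_forall_norm_le]
  refine ⟨C + (|p| + 7 / 8) + L.R0, fun x hx => ?_⟩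
  rw [heq] at hx
  have e : x = L.P x + (L.y x) • L.e + (x - L.P x - L.y x • L.e) := by abel
  have h1 : ‖L.P x‖ ≤ C := hC _ hx.2.2
  have h2 : ‖(L.y x) • L.e‖ ≤ |p| + 7 / 8 := by
    rw [norm_smul, L.norm_e, mul_one, Real.norm_eq_abs]
    have h3 : |L.y x - p| ≤ 7 / 8 := hx.2.1
    have h4 : |L.y x| ≤ |L.y x - p| + |p| := by
      have := abs_add_le (L.y x - p) p
      rwa [sub_add_cancel] at this
    linarith
  have h3 : ‖x - L.P x - L.y x • L.e‖ ≤ L.R0 := L.S_bd x hx.1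
  rw [e]
  refine (norm_add_le _ _).trans (add_le_add ((norm_add_le _ _).trans (add_le_add h1 h2)) h3)

theorem cell_nonempty (p : ℝ) : (L.cell p).Nonempty := by
  obtain ⟨x0, hx0⟩ := L.S_ne
  have hQ : L.Q ((p - L.y x0) • L.e - L.P x0) = 0 := by
    rw [k2_Q_sub, k2_Q_smul, k2_Q_e, k2_Q_P, smul_zero, sub_zero]
  have hy : L.y (x0 + ((p - L.y x0) • L.e - L.P x0)) = p := by
    rw [k2_y_add, k2_y_sub, k2_y_smul, k2_y_e, y_P]; ring
  refine ⟨x0 + ((p - L.y x0) • L.e - L.P x0), S_add_W L hx0 hQ, ?_, fun _ => 0, fun _ => ⟨le_rfl, zero_le_one⟩, ?_⟩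
  · rw [hy, sub_self, abs_zero]; norm_num
  · rw [map_add, map_sub, map_smul, L.P_e, P_P, smul_zero, zero_sub, add_neg_cancel]
    simp

theorem cell_subset (p : ℝ) : L.cell p ⊆ L.room p := fun _ hx => ⟨hx.1, hx.2.1⟩

theorem exists_dk_cell (p : ℝ) (x : E) (hx : x ∈ L.room p) : ∃ n : Fin d → ℤ, L.dk n x ∈ L.cell p := by
  obtain ⟨c, hc⟩ := (Submodule.mem_span_range_iff_exists_fun ℝ).1 (L.P_mem x)
  refine ⟨fun i => - ⌊c i⌋, (S_dk L _).2 hx.1, ?_, fun i => Int.fract (c i),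
    fun i => ⟨Int.fract_nonneg _, (Int.fract_lt_one _).le⟩, ?_⟩
  · rw [y_dk]; exact hx.2
  · rw [P_dk, ← hc]
    unfold Sp.lv
    rw [← Finset.sum_add_distrib]
    refine Finset.sum_congr rfl fun i _ => ?_
    rw [← add_smul]
    congr 1
    push_cast
    rw [Int.fract]; ring

/-- hence the standing assumptions of module D -/
theorem kd_kbar (M : ℝ) : ∃ B Λ : ℝ, 0 < B ∧ 0 < Λ ∧ ∀ f : E → ℝ → ℝ, Good M f →
    (∀ n x t, f (L.dk n x) t = f x t) → ∀ s p : ℝ,
    KD (L.kbar f s) (L.cell p) (L.room p) B Λ := by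
  obtain ⟨B, Λ, hB, hΛ, h⟩ := kbar_bd_lip L M
  refine ⟨B, Λ, hB, hΛ, fun f hf hp s p => ?_⟩
  obtain ⟨h1, h2⟩ := h f hf hp s
  have hroom : ∀ z ∈ L.room p, ∀ z' ∈ L.room p, |L.y z - L.y z'| ≤ 2 := by
    intro z hz z' hz'
    have a1 := abs_le.mp (show |L.y z - p| ≤ 7 / 8 from hz.2)
    have a2 := abs_le.mp (show |L.y z' - p| ≤ 7 / 8 from hz'.2)
    rw [abs_le]; constructor <;> linarith [a1.1, a1.2, a2.1, a2.2]
  refine ⟨cell_subset L p, cell_compact L p, cell_nonempty L p,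
    fun z hz z' hz' => h1 z hz.1 z' hz'.1 (hroom z hz z' hz'),
    fun z hz w hw z' hz' w' hw' => h2 z hz.1 z' hz'.1 w hw.1 w' hw'.1 (hroom z hz z' hz') (hroom w hw w' hw'), ?_⟩
  intro z hz
  obtain ⟨n, hn⟩ := exists_dk_cell L p z hz
  refine ⟨_, hn, fun x _ => ⟨?_, ?_⟩⟩
  · have := kbar_per L hp s z x n 0
    rw [dk_zero] at this
    exact this.symm
  · have := kbar_per L hp s x z 0 n
    rw [dk_zero] at this
    exact this.symm

end EscN
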