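import Mathlib

/-!
Module O4a of project ESCN: a Zygmund type lemma. A curve which is Hoelder of exponent `1/2` and whose
second differences are bounded by the squares of the first differences is Lipschitz.
-/

noncomputable section

namespace EscN

open Set Filter Topology

variable {E : Type*} [NormedAddCommGroup E] [NormedSpace ℝ E]

section O4a

omit [NormedSpace ℝ E] in
theorem o4_holder {a b C0 : ℝ} {Z : ℝ → E} (hC0 : 0 ≤ C0)
    (hH : ∀ s ∈ Icc a b, ∀ t ∈ Icc a b, ‖Z t - Z s‖ ^ 2 ≤ C0 * |t - s|) {s t : ℝ} (hs : s ∈ Icc a b)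
    (ht : t ∈ Icc a b) (hst : s ≤ t) : ‖Z t - Z s‖ ≤ √C0 * √(t - s) := by
  rw [← Real.sqrt_mul hC0]
  apply Real.le_sqrt_of_sq_le
  have := hH s hs t ht
  rwa [abs_of_nonneg (by linarith)] at this

/-- the second difference, with one of the two first differences -/
theorem o4_claim1 {a b C0 C1 C4 h1 : ℝ} {Z : ℝ → E} (hC0 : 0 ≤ C0) (hC1 : 0 ≤ C1) (hC4 : 0 ≤ C4)
    (hH : ∀ s ∈ Icc a b, ∀ t ∈ Icc a b, ‖Z t - Z s‖ ^ 2 ≤ C0 * |t - s|)
    (hD1 : ∀ t h, 0 < h → a ≤ t - h → t + h ≤ b → ‖Z (t + h) - (2:ℝ) • Z t + Z (t - h)‖ ≤ C1 * h)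
    (hD2 : ∀ t h, 0 < h → h ≤ h1 → a ≤ t - h → t + h ≤ b → ‖Z (t + h) - (2:ℝ) • Z t + Z (t - h)‖ ≤
      C4 * (‖Z t - Z (t - h)‖ ^ 2 + ‖Z (t + h) - Z t‖ ^ 2 + h ^ 2))
    {t h : ℝ} (hh : 0 < h) (hh1 : h ≤ h1) (hh2 : h ≤ 1) (ha : a ≤ t - h) (hb : t + h ≤ b) :
    ‖Z (t + h) - (2:ℝ) • Z t + Z (t - h)‖ ≤ C4 * (2 * √C0 + √C0 * C1 + 1) * √h * (‖Z t - Z (t - h)‖ + h) ∧
    ‖Z (t + h) - (2:ℝ) • Z t + Z (t - h)‖ ≤ C4 * (2 * √C0 + √C0 * C1 + 1) * √h * (‖Z (t + h) - Z t‖ + h) := by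
  have d1 := hD1 t h hh ha hb
  have d2 := hD2 t h hh hh1 ha hb
  have p1 := o4_holder hC0 hH (s := t - h) (t := t) ⟨ha, by linarith⟩ ⟨by linarith, by linarith⟩ (by linarith)
  have n1 := o4_holder hC0 hH (s := t) (t := t + h) ⟨by linarith, by linarith⟩ ⟨by linarith, hb⟩ (by linarith)
  rw [sub_sub_cancel] at p1
  rw [add_sub_cancel_left] at n1
  set p := ‖Z t - Z (t - h)‖ with hp
  set n := ‖Z (t + h) - Z t‖ with hn
  set d := ‖Z (t + h) - (2:ℝ) • Z t + Z (t - h)‖ with hd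
  have p0 : 0 ≤ p := norm_nonneg _
  have n0 : 0 ≤ n := norm_nonneg _
  have d0 : 0 ≤ d := norm_nonneg _
  have q0 : 0 ≤ √C0 := Real.sqrt_nonneg _
  have r0 : 0 < √h := Real.sqrt_pos.mpr hh
  have npd : n ≤ p + d := by
    have e : Z (t + h) - Z t = (Z t - Z (t - h)) + (Z (t + h) - (2:ℝ) • Z t + Z (t - h)) := by module
    rw [hn, e]; exact norm_add_le _ _
  have pnd : p ≤ n + d := by
    have e : Z t - Z (t - h) = (Z (t + h) - Z t) - (Z (t + h) - (2:ℝ) • Z t + Z (t - h)) := by module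
    rw [hp, e]; exact norm_sub_le _ _
  have hhh : h ^ 2 ≤ √h * h := by
    have e1 : √h * √h = h := Real.mul_self_sqrt hh.le
    have e2 : √h ≤ 1 := Real.sqrt_le_one.mpr hh2
    have e3 : h ≤ √h := by nlinarith
    nlinarith
  have pp : p ^ 2 ≤ √C0 * √h * p := by
    rw [sq]; exact mul_le_mul_of_nonneg_right p1 p0
  have nn : n ^ 2 ≤ √C0 * √h * n := by
    rw [sq]; exact mul_le_mul_of_nonneg_right n1 n0
  have Q : 0 ≤ √C0 * √h := by positivity
  constructor
  · have n2 : √C0 * √h * n ≤ √C0 * √h * (p + C1 * h) :=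
      mul_le_mul_of_nonneg_left (by linarith) Q
    have : p ^ 2 + n ^ 2 + h ^ 2 ≤ (2 * √C0 + √C0 * C1 + 1) * √h * (p + h) := by
      have e1 : 0 ≤ √C0 * C1 * √h * p := by positivity
      have e2 : 0 ≤ √h * p := by positivity
      have e3 : 0 ≤ √C0 * √h * h := by positivity
      nlinarith
    calc d ≤ C4 * (p ^ 2 + n ^ 2 + h ^ 2) := d2
      _ ≤ C4 * ((2 * √C0 + √C0 * C1 + 1) * √h * (p + h)) := mul_le_mul_of_nonneg_left this hC4
      _ = _ := by ring
  · have n2 : √C0 * √h * p ≤ √C0 * √h * (n + C1 * h) :=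
      mul_le_mul_of_nonneg_left (by linarith) Q
    have : p ^ 2 + n ^ 2 + h ^ 2 ≤ (2 * √C0 + √C0 * C1 + 1) * √h * (n + h) := by
      have e1 : 0 ≤ √C0 * C1 * √h * n := by positivity
      have e2 : 0 ≤ √h * n := by positivity
      have e3 : 0 ≤ √C0 * √h * h := by positivity
      nlinarith
    calc d ≤ C4 * (p ^ 2 + n ^ 2 + h ^ 2) := d2
      _ ≤ C4 * ((2 * √C0 + √C0 * C1 + 1) * √h * (n + h)) := mul_le_mul_of_nonneg_left this hC4
      _ = _ := by ring

theorem o4_lip {a b C0 C1 C4 h1 : ℝ} (hab : a < b) {Z : ℝ → E} (hC0 : 0 ≤ C0) (hC1 : 0 ≤ C1)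
    (hC4 : 0 ≤ C4) (hh1 : 0 < h1)
    (hH : ∀ s ∈ Icc a b, ∀ t ∈ Icc a b, ‖Z t - Z s‖ ^ 2 ≤ C0 * |t - s|)
    (hD1 : ∀ t h, 0 < h → a ≤ t - h → t + h ≤ b → ‖Z (t + h) - (2:ℝ) • Z t + Z (t - h)‖ ≤ C1 * h)
    (hD2 : ∀ t h, 0 < h → h ≤ h1 → a ≤ t - h → t + h ≤ b → ‖Z (t + h) - (2:ℝ) • Z t + Z (t - h)‖ ≤
      C4 * (‖Z t - Z (t - h)‖ ^ 2 + ‖Z (t + h) - Z t‖ ^ 2 + h ^ 2)) :
    ∃ B : ℝ, 0 ≤ B ∧ ∀ s ∈ Icc a b, ∀ t ∈ Icc a b, ‖Z t - Z s‖ ≤ B * |t - s| := by
  set C5 := C4 * (2 * √C0 + √C0 * C1 + 1) with hC5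
  have q0 : 0 ≤ √C0 := Real.sqrt_nonneg _
  have hC5' : 0 ≤ C5 := by positivity
  set hs : ℝ := min (min h1 1) (min ((b - a) / 3) (1 / (6 * (C5 + 1)) ^ 2)) with hhs
  have hs0 : 0 < hs := by
    have : 0 < b - a := by linarith
    rw [hhs]
    positivity
  have l1 : hs ≤ h1 := (min_le_left _ _).trans (min_le_left _ _)
  have l2 : hs ≤ 1 := (min_le_left _ _).trans (min_le_right _ _)
  have l3 : hs ≤ (b - a) / 3 := (min_le_right _ _).trans (min_le_left _ _)
  have l4 : hs ≤ 1 / (6 * (C5 + 1)) ^ 2 := (min_le_right _ _).trans (min_le_right _ _)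
  have l5 : C5 * √hs ≤ 1 / 6 := by
    have h2 : √hs ≤ 1 / (6 * (C5 + 1)) := by
      apply Real.sqrt_le_iff.mpr
      refine ⟨by positivity, ?_⟩
      rw [one_div_pow]; exact l4
    have h3 : C5 * √hs ≤ C5 * (1 / (6 * (C5 + 1))) := mul_le_mul_of_nonneg_left h2 hC5'
    have h4 : C5 * (1 / (6 * (C5 + 1))) ≤ 1 / 6 := by
      rw [mul_one_div, div_le_div_iff₀ (by positivity) (by norm_num)]
      nlinarith
    linarith
  have hr : 0 < √(hs / 2) := Real.sqrt_pos.mpr (by positivity)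
  set B : ℝ := 2 * (√C0 / √(hs / 2) + 1) with hB
  have hB0 : 0 ≤ B := by positivity
  -- large steps
  have big : ∀ h, hs / 2 ≤ h → ∀ s, a ≤ s → s + h ≤ b → ‖Z (s + h) - Z s‖ + h ≤ h * (B * (1 / 2)) := by
    intro h hh s has hsb
    have hh0 : 0 < h := by linarith
    have := o4_holder hC0 hH (s := s) (t := s + h) ⟨has, by linarith⟩ ⟨by linarith, hsb⟩ (by linarith)
    rw [add_sub_cancel_left] at this
    have e1 : √h * √h = h := Real.mul_self_sqrt hh0.le
    have e2 : √(hs / 2) ≤ √h := Real.sqrt_le_sqrt hh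
    have e3 : √C0 * √h ≤ h * (√C0 / √(hs / 2)) := by
      rw [mul_div_assoc', le_div_iff₀ hr]
      calc √C0 * √h * √(hs / 2) ≤ √C0 * √h * √h := mul_le_mul_of_nonneg_left e2 (by positivity)
        _ = h * √C0 := by rw [mul_assoc, e1]; ring
    rw [hB]
    nlinarith
  -- small steps
  have small : ∀ k : ℕ, ∀ h, 0 < h → hs / 2 ≤ 2 ^ k * h → 2 ^ k * h ≤ hs → ∀ s, a ≤ s → s + h ≤ b →
      ‖Z (s + h) - Z s‖ + h ≤ h * (B * (1 - 1 / 2 * (3 / 4) ^ k)) := by
    intro k
    induction k with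
    | zero =>
      intro h hh h2 h3 s has hsb
      have := big h (by simpa using h2) s has hsb
      norm_num at this ⊢
      exact this
    | succ k ih =>
      intro h hh h2 h3 s has hsb
      have hk1 : (1:ℝ) ≤ 2 ^ (k + 1) := one_le_pow₀ (by norm_num)
      have hhs' : h ≤ hs := by nlinarith
      have ih2 := ih (2 * h) (by positivity) (by rw [pow_succ] at h2; linarith) (by rw [pow_succ] at h3; linarith)
      -- bound for the square root
      set x : ℝ := (3 / 4) ^ (k + 1) with hx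
      have hx0 : 0 < x := by positivity
      have hx1 : x ≤ 1 := pow_le_one₀ (by norm_num) (by norm_num)
      have hxk : ((3:ℝ) / 4) ^ k = 4 / 3 * x := by rw [hx, pow_succ]; ring
      have hsq : √h ≤ √hs * x := by
        have e1 : h ≤ hs * x ^ 2 := by
          have e2 : (1:ℝ) ≤ 2 ^ (k + 1) * x ^ 2 := by
            rw [hx, ← pow_mul, mul_comm (k + 1) 2, pow_mul, ← mul_pow]
            exact one_le_pow₀ (by norm_num)
          calc h ≤ h * (2 ^ (k + 1) * x ^ 2) := le_mul_of_one_le_right hh.le e2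
            _ = (2 ^ (k + 1) * h) * x ^ 2 := by ring
            _ ≤ hs * x ^ 2 := mul_le_mul_of_nonneg_right h3 (by positivity)
        calc √h ≤ √(hs * x ^ 2) := Real.sqrt_le_sqrt e1
          _ = √hs * x := by rw [Real.sqrt_mul hs0.le, Real.sqrt_sq hx0.le]
      have h5 : C5 * √h ≤ 1 / 6 * x := by
        calc C5 * √h ≤ C5 * (√hs * x) := mul_le_mul_of_nonneg_left hsq hC5'
          _ = (C5 * √hs) * x := by ring
          _ ≤ 1 / 6 * x := mul_le_mul_of_nonneg_right l5 hx0.le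
      -- the conclusion from the recursion
      have fin : ∀ q dd DD : ℝ, 0 ≤ q → 2 * q ≤ DD + dd → dd ≤ C5 * √h * (q + h) →
          DD + 2 * h ≤ 2 * h * (B * (1 - 1 / 2 * (3 / 4) ^ k)) →
          q + h ≤ h * (B * (1 - 1 / 2 * x)) := by
        intro q dd DD hq hqd hdd hDD
        rw [hxk] at hDD
        have e1 : dd ≤ 1 / 6 * x * (q + h) := hdd.trans (mul_le_mul_of_nonneg_right h5 (by positivity))
        have e2 : (q + h) * (1 - x / 12) ≤ h * B * (1 - 2 / 3 * x) := by nlinarith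
        by_contra hcon
        push Not at hcon
        have e3 : 0 < 1 - x / 12 := by linarith
        have e4 := mul_lt_mul_of_pos_right hcon e3
        have e5 : h * B * (1 - 2 / 3 * x) ≤ h * (B * (1 - 1 / 2 * x)) * (1 - x / 12) := by
          have : h * (B * (1 - 1 / 2 * x)) * (1 - x / 12) - h * B * (1 - 2 / 3 * x) =
              h * B * (x / 12 + x ^ 2 / 24) := by ring
          have h6 : 0 ≤ h * B * (x / 12 + x ^ 2 / 24) := by positivity
          linarith
        linarith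
      rcases le_or_gt (s + 2 * h) b with hc | hc
      · -- forward
        have c1 := (o4_claim1 hC0 hC1 hC4 hH hD1 hD2 (t := s + h) hh (hhs'.trans l1) (hhs'.trans l2)
          (by linarith) (by linarith)).1
        have c2 := ih2 s has hc
        rw [add_sub_cancel_right, add_assoc, ← two_mul] at c1
        refine fin _ _ _ (norm_nonneg _) ?_ c1 c2
        have e : (2:ℝ) • (Z (s + h) - Z s) = (Z (s + 2 * h) - Z s) - (Z (s + 2 * h) - (2:ℝ) • Z (s + h) + Z s) := by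
          module
        have e' : 2 * ‖Z (s + h) - Z s‖ = ‖(2:ℝ) • (Z (s + h) - Z s)‖ := by
          rw [norm_smul]; norm_num
        rw [e', e]
        exact norm_sub_le _ _
      · -- backward
        have hsa : a ≤ s - h := by linarith
        have c1 := (o4_claim1 hC0 hC1 hC4 hH hD1 hD2 (t := s) hh (hhs'.trans l1) (hhs'.trans l2)
          hsa hsb).2
        have c2 := ih2 (s - h) hsa (by linarith)
        have e0 : s - h + 2 * h = s + h := by ring
        rw [e0] at c2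
        refine fin _ _ _ (norm_nonneg _) ?_ c1 c2
        have e : (2:ℝ) • (Z (s + h) - Z s) = (Z (s + h) - Z (s - h)) + (Z (s + h) - (2:ℝ) • Z s + Z (s - h)) := by
          module
        have e' : 2 * ‖Z (s + h) - Z s‖ = ‖(2:ℝ) • (Z (s + h) - Z s)‖ := by
          rw [norm_smul]; norm_num
        rw [e', e]
        exact norm_add_le _ _
  -- all steps
  have all : ∀ h, 0 < h → ∀ s, a ≤ s → s + h ≤ b → ‖Z (s + h) - Z s‖ ≤ B * h := by
    intro h hh s has hsb
    rcases le_or_gt h hs with hc | hc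
    · obtain ⟨k, hk1, hk2⟩ := exists_nat_pow_near (x := hs / h) (y := (2:ℝ))
        ((one_le_div hh).mpr hc) (by norm_num)
      rw [le_div_iff₀ hh] at hk1
      rw [div_lt_iff₀ hh] at hk2
      have := small k h hh (by rw [pow_succ] at hk2; linarith) hk1 s has hsb
      have e1 : 0 ≤ h * (B * (1 / 2 * (3 / 4) ^ k)) := by positivity
      nlinarith
    · have := big h (by linarith) s has hsb
      nlinarith
  refine ⟨B, hB0, ?_⟩
  intro s hs' t ht
  rcases lt_trichotomy s t with hst | hst | hst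
  · have := all (t - s) (by linarith) s hs'.1 (by linarith [ht.2])
    rw [add_sub_cancel] at this
    rwa [abs_of_pos (by linarith)]
  · rw [hst]; simp
  · have := all (s - t) (by linarith) t ht.1 (by linarith [hs'.2])
    rw [add_sub_cancel] at this
    rw [abs_of_neg (by linarith), norm_sub_rev, neg_sub]
    exact this

end O4a

end EscN
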