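import Mathlib

/-!
Module O4b of project ESCN: a curve with second differences of quadratic size is the integral of a
Lipschitz velocity.
-/

noncomputable section

namespace EscN

open MeasureTheory Set Filter Topology

/-- the maximum principle: a function with second differences bounded below lies below a parabola -/
theorem o4b_max {s t : ℝ} (hst : s < t) {g : ℝ → ℝ} (hg : ContinuousOn g (Icc s t)) {C : ℝ}
    (hd : ∀ r h, 0 < h → s ≤ r - h → r + h ≤ t → -(C * h ^ 2) ≤ g (r + h) - 2 * g r + g (r - h))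
    (hs : g s ≤ 0) (ht : g t ≤ 0) {r : ℝ} (hr : r ∈ Icc s t) :
    g r ≤ C / 2 * ((r - s) * (t - r)) := by
  have key : ∀ K, C < K → g r ≤ K / 2 * ((r - s) * (t - r)) := by
    intro K hK
    set φ : ℝ → ℝ := fun x => g x - K / 2 * ((x - s) * (t - x)) with hφ
    have hφc : ContinuousOn φ (Icc s t) := hg.sub (by fun_prop)
    obtain ⟨r0, hr0, hmax⟩ := isCompact_Icc.exists_isMaxOn ⟨s, ⟨le_rfl, hst.le⟩⟩ hφc
    have h1 : φ r ≤ φ r0 := hmax hr
    by_contra hcon
    have hpos : 0 < φ r0 := by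
      have : 0 < φ r := by simp only [hφ]; linarith [not_le.mp hcon]
      linarith
    have hne1 : s < r0 := by
      rcases hr0.1.lt_or_eq with h | h
      · exact h
      · rw [← h] at hpos
        simp only [hφ] at hpos
        nlinarith
    have hne2 : r0 < t := by
      rcases hr0.2.lt_or_eq with h | h
      · exact h
      · rw [h] at hpos
        simp only [hφ] at hpos
        nlinarith
    set h := min (r0 - s) (t - r0) with hh
    have hh0 : 0 < h := lt_min (by linarith) (by linarith)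
    have hh1 : h ≤ r0 - s := min_le_left _ _
    have hh2 : h ≤ t - r0 := min_le_right _ _
    have e1 : φ (r0 + h) ≤ φ r0 := hmax ⟨by linarith, by linarith⟩
    have e2 : φ (r0 - h) ≤ φ r0 := hmax ⟨by linarith, by linarith⟩
    have e3 := hd r0 h hh0 (by linarith) (by linarith)
    have e4 : φ (r0 + h) + φ (r0 - h) - 2 * φ r0 = (g (r0 + h) - 2 * g r0 + g (r0 - h)) + K * h ^ 2 := by
      simp only [hφ]
      ring
    nlinarith [mul_pos (sub_pos.mpr hK) (pow_pos hh0 2)]
  have hnn : 0 ≤ (r - s) * (t - r) := mul_nonneg (by linarith [hr.1]) (by linarith [hr.2])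
  refine le_of_forall_pos_le_add fun ε hε => ?_
  set q := (r - s) * (t - r) with hq
  have h2 := key (C + 2 * ε / (q + 1)) (by have : 0 < 2 * ε / (q + 1) := by positivity
                                           linarith)
  have h3 : (C + 2 * ε / (q + 1)) / 2 * q = C / 2 * q + ε * (q / (q + 1)) := by
    field_simp
  have h4 : q / (q + 1) ≤ 1 := by rw [div_le_one (by positivity)]; linarith
  rw [h3] at h2
  nlinarith

variable {E : Type*} [NormedAddCommGroup E] [InnerProductSpace ℝ E]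

/-- the second divided differences -/
theorem o4b_three {a b : ℝ} {Z : ℝ → E} (hZ : ContinuousOn Z (Icc a b)) {C : ℝ}
    (hd : ∀ t h, 0 < h → a ≤ t - h → t + h ≤ b → ‖Z (t + h) - (2 : ℝ) • Z t + Z (t - h)‖ ≤ C * h ^ 2)
    {s r t : ℝ} (has : a ≤ s) (hsr : s ≤ r) (hrt : r ≤ t) (htb : t ≤ b) (hst : s < t) :
    ‖(t - s) • Z r - (t - r) • Z s - (r - s) • Z t‖ ≤ C / 2 * ((r - s) * (t - r)) * (t - s) := by
  set W := (t - s) • Z r - (t - r) • Z s - (r - s) • Z t with hW
  have hts : 0 < t - s := by linarith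
  have hC : 0 ≤ C := by
    have h1 := hd ((s + t) / 2) ((t - s) / 2) (by linarith) (by linarith) (by linarith)
    have h2 := (norm_nonneg _).trans h1
    have h3 : 0 < ((t - s) / 2) ^ 2 := by positivity
    by_contra hcon
    nlinarith [mul_pos (neg_pos.mpr (not_le.mp hcon)) h3]
  have hnn : 0 ≤ (r - s) * (t - r) := mul_nonneg (by linarith) (by linarith)
  rcases eq_or_ne W 0 with h0 | h0
  · rw [h0, norm_zero]
    positivity
  have hWp : 0 < ‖W‖ := norm_pos_iff.mpr h0
  set g : ℝ → ℝ := fun x => inner ℝ W ((t - s) • Z x - (t - x) • Z s - (x - s) • Z t) with hg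
  have hgc : ContinuousOn g (Icc s t) := by
    have hZ' : ContinuousOn Z (Icc s t) := hZ.mono (Icc_subset_Icc has htb)
    refine continuousOn_const.inner ?_
    exact ((hZ'.const_smul (t - s)).sub (by fun_prop)).sub (by fun_prop)
  have h1 := o4b_max hst hgc (C := ‖W‖ * C * (t - s)) (by
      intro x h hh hxs hxt
      have e1 : g (x + h) - 2 * g x + g (x - h) =
          (t - s) * inner ℝ W (Z (x + h) - (2 : ℝ) • Z x + Z (x - h)) := by
        simp only [hg, inner_sub_right, inner_add_right, real_inner_smul_right]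
        ring
      rw [e1]
      have e2 := abs_real_inner_le_norm W (Z (x + h) - (2 : ℝ) • Z x + Z (x - h))
      have e3 := hd x h hh (by linarith) (by linarith)
      have e4 := neg_abs_le (inner ℝ W (Z (x + h) - (2 : ℝ) • Z x + Z (x - h)))
      have e5 : ‖W‖ * ‖Z (x + h) - (2 : ℝ) • Z x + Z (x - h)‖ ≤ ‖W‖ * (C * h ^ 2) :=
        mul_le_mul_of_nonneg_left e3 hWp.le
      have e6 : -(‖W‖ * (C * h ^ 2)) ≤ inner ℝ W (Z (x + h) - (2 : ℝ) • Z x + Z (x - h)) := by
        linarith
      have e7 := mul_le_mul_of_nonneg_left e6 hts.le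
      linarith) (by
      simp only [hg]
      have : (t - s) • Z s - (t - s) • Z s - (s - s) • Z t = 0 := by simp
      rw [this, inner_zero_right]) (by
      simp only [hg]
      have : (t - s) • Z t - (t - t) • Z s - (t - s) • Z t = 0 := by simp
      rw [this, inner_zero_right]) ⟨hsr, hrt⟩
  have h2 : g r = ‖W‖ * ‖W‖ := by
    simp only [hg]
    rw [← hW, real_inner_self_eq_norm_mul_norm]
  rw [h2] at h1
  have h3 : ‖W‖ * ‖W‖ ≤ ‖W‖ * (C / 2 * ((r - s) * (t - r)) * (t - s)) := by
    calc ‖W‖ * ‖W‖ ≤ ‖W‖ * C * (t - s) / 2 * ((r - s) * (t - r)) := h1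
      _ = ‖W‖ * (C / 2 * ((r - s) * (t - r)) * (t - s)) := by ring
  exact le_of_mul_le_mul_left h3 hWp

/-- the difference quotients are Lipschitz in the endpoint -/
theorem o4b_quot {a b : ℝ} {Z : ℝ → E} (hZ : ContinuousOn Z (Icc a b)) {C : ℝ}
    (hd : ∀ t h, 0 < h → a ≤ t - h → t + h ≤ b → ‖Z (t + h) - (2 : ℝ) • Z t + Z (t - h)‖ ≤ C * h ^ 2)
    {t p q : ℝ} (ht : t ∈ Icc a b) (hp : p ∈ Icc a b) (hq : q ∈ Icc a b) (hpt : p ≠ t) (hqt : q ≠ t) :
    ‖(p - t)⁻¹ • (Z p - Z t) - (q - t)⁻¹ • (Z q - Z t)‖ ≤ C / 2 * |p - q| := by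
  have hpt' : p - t ≠ 0 := sub_ne_zero.mpr hpt
  have hqt' : q - t ≠ 0 := sub_ne_zero.mpr hqt
  -- the symmetric form
  have key : ‖(q - t) • (Z p - Z t) - (p - t) • (Z q - Z t)‖ ≤ C / 2 * |p - q| * (|p - t| * |q - t|) := by
    have h3 : ∀ x y z : ℝ, a ≤ x → x ≤ y → y ≤ z → z ≤ b → x < z →
        ‖(z - x) • Z y - (z - y) • Z x - (y - x) • Z z‖ ≤ C / 2 * |z - x| * (|y - x| * |z - y|) := by
      intro x y z h1 h2 h3 h4 h5
      have h6 := o4b_three hZ hd h1 h2 h3 h4 h5
      rw [abs_of_pos (by linarith : 0 < z - x), abs_of_nonneg (by linarith : 0 ≤ y - x),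
        abs_of_nonneg (by linarith : 0 ≤ z - y)]
      calc _ ≤ _ := h6
        _ = _ := by ring
    rcases lt_trichotomy p q with hpq | hpq | hpq
    · rcases lt_or_gt_of_ne hpt with h1 | h1
      · rcases lt_or_gt_of_ne hqt with h2 | h2
        · -- p < q < t
          have := h3 p q t hp.1 hpq.le h2.le ht.2 (by linarith)
          have e1 : (q - t) • (Z p - Z t) - (p - t) • (Z q - Z t) =
              (t - p) • Z q - (t - q) • Z p - (q - p) • Z t := by module
          rw [e1]
          refine this.trans (le_of_eq ?_)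
          rw [abs_sub_comm t p, abs_sub_comm q p, abs_sub_comm t q]
          ring
        · -- p < t < q
          have := h3 p t q hp.1 h1.le h2.le hq.2 (by linarith)
          have e1 : (q - t) • (Z p - Z t) - (p - t) • (Z q - Z t) =
              -((q - p) • Z t - (q - t) • Z p - (t - p) • Z q) := by module
          rw [e1, norm_neg]
          refine this.trans (le_of_eq ?_)
          rw [abs_sub_comm q p, abs_sub_comm t p]
      · -- t < p < q
        have := h3 t p q ht.1 h1.le hpq.le hq.2 (by linarith)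
        have e1 : (q - t) • (Z p - Z t) - (p - t) • (Z q - Z t) =
            (q - t) • Z p - (q - p) • Z t - (p - t) • Z q := by module
        rw [e1]
        refine this.trans (le_of_eq ?_)
        rw [abs_sub_comm q p]
        ring
    · subst hpq
      simp
    · rcases lt_or_gt_of_ne hqt with h1 | h1
      · rcases lt_or_gt_of_ne hpt with h2 | h2
        · -- q < p < t
          have := h3 q p t hq.1 hpq.le h2.le ht.2 (by linarith)
          have e1 : (q - t) • (Z p - Z t) - (p - t) • (Z q - Z t) =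
              -((t - q) • Z p - (t - p) • Z q - (p - q) • Z t) := by module
          rw [e1, norm_neg]
          refine this.trans (le_of_eq ?_)
          rw [abs_sub_comm t q, abs_sub_comm t p]
          ring
        · -- q < t < p
          have := h3 q t p hq.1 h1.le h2.le hp.2 (by linarith)
          have e1 : (q - t) • (Z p - Z t) - (p - t) • (Z q - Z t) =
              ((p - q) • Z t - (p - t) • Z q - (t - q) • Z p) := by module
          rw [e1]
          refine this.trans (le_of_eq ?_)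
          rw [abs_sub_comm t q]
          ring
      · -- t < q < p
        have := h3 t q p ht.1 h1.le hpq.le hp.2 (by linarith)
        have e1 : (q - t) • (Z p - Z t) - (p - t) • (Z q - Z t) =
            -((p - t) • Z q - (p - q) • Z t - (q - t) • Z p) := by module
        rw [e1, norm_neg]
        refine this.trans (le_of_eq ?_)
        ring
  have hpp : 0 < |p - t| := abs_pos.mpr hpt'
  have hqq : 0 < |q - t| := abs_pos.mpr hqt'
  have e2 : (p - t)⁻¹ • (Z p - Z t) - (q - t)⁻¹ • (Z q - Z t) =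
      ((p - t)⁻¹ * (q - t)⁻¹) • ((q - t) • (Z p - Z t) - (p - t) • (Z q - Z t)) := by
    rw [smul_sub ((p - t)⁻¹ * (q - t)⁻¹), smul_smul, smul_smul]
    have e3 : (p - t)⁻¹ * (q - t)⁻¹ * (q - t) = (p - t)⁻¹ := by field_simp
    have e4 : (p - t)⁻¹ * (q - t)⁻¹ * (p - t) = (q - t)⁻¹ := by field_simp
    rw [e3, e4]
  rw [e2, norm_smul, norm_mul, norm_inv, norm_inv, Real.norm_eq_abs, Real.norm_eq_abs]
  calc |p - t|⁻¹ * |q - t|⁻¹ * ‖(q - t) • (Z p - Z t) - (p - t) • (Z q - Z t)‖
      ≤ |p - t|⁻¹ * |q - t|⁻¹ * (C / 2 * |p - q| * (|p - t| * |q - t|)) :=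
        mul_le_mul_of_nonneg_left key (by positivity)
    _ = C / 2 * |p - q| := by field_simp

/-- the derivative -/
theorem o4b_deriv [CompleteSpace E] {a b : ℝ} (hab : a < b) {Z : ℝ → E} (hZ : ContinuousOn Z (Icc a b)) {C : ℝ}
    (hd : ∀ t h, 0 < h → a ≤ t - h → t + h ≤ b → ‖Z (t + h) - (2 : ℝ) • Z t + Z (t - h)‖ ≤ C * h ^ 2)
    {t : ℝ} (ht : t ∈ Icc a b) :
    ∃ v : E, ∀ s ∈ Icc a b, s ≠ t → ‖(s - t)⁻¹ • (Z s - Z t) - v‖ ≤ C / 2 * |s - t| := by
  -- a point of the interval different from `t`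
  obtain ⟨c, hc, hct⟩ : ∃ c ∈ Icc a b, c ≠ t := by
    rcases eq_or_ne a t with h | h
    · exact ⟨b, ⟨hab.le, le_rfl⟩, by rw [← h]; exact hab.ne'⟩
    · exact ⟨a, ⟨le_rfl, hab.le⟩, h⟩
  have hC : 0 ≤ C := by
    have h1 := hd ((a + b) / 2) ((b - a) / 2) (by linarith) (by linarith) (by linarith)
    have h2 := (norm_nonneg _).trans h1
    have h3 : 0 < ((b - a) / 2) ^ 2 := by
      have : 0 < (b - a) / 2 := by linarith
      positivity
    by_contra hcon
    nlinarith [mul_pos (neg_pos.mpr (not_le.mp hcon)) h3]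
  set p : ℕ → ℝ := fun n => t + (c - t) * (1 / ((n : ℝ) + 1)) with hp
  have hpI : ∀ n, p n ∈ Icc a b := by
    intro n
    have h1 : (0 : ℝ) < 1 / ((n : ℝ) + 1) := by positivity
    have h2 : 1 / ((n : ℝ) + 1) ≤ 1 := by
      rw [div_le_one (by positivity)]
      have : (0 : ℝ) ≤ n := Nat.cast_nonneg n
      linarith
    have h3 : p n = (1 - 1 / ((n : ℝ) + 1)) • t + (1 / ((n : ℝ) + 1)) • c := by
      simp only [hp, smul_eq_mul]
      ring
    rw [h3]
    exact (convex_Icc a b) ht hc (by linarith) h1.le (by ring)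
  have hpne : ∀ n, p n ≠ t := by
    intro n h
    have h1 : (0 : ℝ) < 1 / ((n : ℝ) + 1) := by positivity
    have h2 : (c - t) * (1 / ((n : ℝ) + 1)) = 0 := by simp only [hp] at h; linarith
    rcases mul_eq_zero.mp h2 with h3 | h3
    · exact hct (by linarith)
    · exact h1.ne' h3
  have hpt : Tendsto p atTop (𝓝 t) := by
    have h1 : Tendsto (fun n : ℕ => t + (c - t) * (1 / ((n : ℝ) + 1))) atTop (𝓝 (t + (c - t) * 0)) :=
      tendsto_const_nhds.add (tendsto_one_div_add_atTop_nhds_zero_nat.const_mul _)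
    rw [mul_zero, add_zero] at h1
    exact h1
  set u : ℕ → E := fun n => (p n - t)⁻¹ • (Z (p n) - Z t) with hu
  have hcau : CauchySeq u := by
    refine cauchySeq_of_le_tendsto_0 (fun N : ℕ => C / 2 * (2 * |c - t|) * (1 / ((N : ℝ) + 1))) ?_ ?_
    · intro n m N hn hm
      rw [dist_eq_norm]
      have h1 := o4b_quot hZ hd ht (hpI n) (hpI m) (hpne n) (hpne m)
      have h2 : ∀ k : ℕ, N ≤ k → |p k - t| ≤ |c - t| * (1 / ((N : ℝ) + 1)) := by
        intro k hk
        have e1 : p k - t = (c - t) * (1 / ((k : ℝ) + 1)) := by simp only [hp]; ring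
        rw [e1, abs_mul, abs_of_pos (by positivity : (0 : ℝ) < 1 / ((k : ℝ) + 1))]
        refine mul_le_mul_of_nonneg_left ?_ (abs_nonneg _)
        exact one_div_le_one_div_of_le (by positivity) (by
          have : (N : ℝ) ≤ k := by exact_mod_cast hk
          linarith)
      have h3 : |p n - p m| ≤ 2 * |c - t| * (1 / ((N : ℝ) + 1)) := by
        have e1 : p n - p m = (p n - t) - (p m - t) := by ring
        rw [e1]
        refine (abs_sub _ _).trans ?_
        have := h2 n hn
        have := h2 m hm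
        linarith
      calc _ ≤ _ := h1
        _ ≤ C / 2 * (2 * |c - t| * (1 / ((N : ℝ) + 1))) := mul_le_mul_of_nonneg_left h3 (by linarith)
        _ = _ := by ring
    · have h1 := (tendsto_one_div_add_atTop_nhds_zero_nat (𝕜 := ℝ)).const_mul (C / 2 * (2 * |c - t|))
      simpa using h1
  obtain ⟨v, hv⟩ := cauchySeq_tendsto_of_complete hcau
  refine ⟨v, fun s hs hst => ?_⟩
  have h1 : Tendsto (fun n => ‖(s - t)⁻¹ • (Z s - Z t) - u n‖) atTop
      (𝓝 ‖(s - t)⁻¹ • (Z s - Z t) - v‖) := (tendsto_const_nhds.sub hv).norm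
  have h2 : Tendsto (fun n => C / 2 * |s - p n|) atTop (𝓝 (C / 2 * |s - t|)) :=
    ((tendsto_const_nhds.sub hpt).abs).const_mul _
  exact le_of_tendsto_of_tendsto' h1 h2 fun n => o4b_quot hZ hd ht hs (hpI n) hst (hpne n)

/-- a curve with second differences of quadratic size has a Lipschitz velocity -/
theorem o4_of_second [FiniteDimensional ℝ E] {a b : ℝ} (hab : a < b) {Z : ℝ → E} {C : ℝ}
    (hd : ∀ t h, 0 < h → a ≤ t - h → t + h ≤ b → ‖Z (t + h) - (2 : ℝ) • Z t + Z (t - h)‖ ≤ C * h ^ 2)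
    {C0 : ℝ} (hH : ∀ s ∈ Icc a b, ∀ t ∈ Icc a b, ‖Z t - Z s‖ ^ 2 ≤ C0 * |t - s|) :
    ∃ v : ℝ → E, (∃ C, ∀ s ∈ Icc a b, ∀ t ∈ Icc a b, ‖v t - v s‖ ≤ C * |t - s|) ∧
      ∀ s ∈ Icc a b, ∀ t ∈ Icc a b, Z t - Z s = ∫ r in s..t, v r := by
  have : CompleteSpace E := FiniteDimensional.complete ℝ E
  have hZ : ContinuousOn Z (Icc a b) := by
    intro s hs
    rw [ContinuousWithinAt, tendsto_iff_norm_sub_tendsto_zero]
    have h1 : Tendsto (fun t => Real.sqrt (C0 * |t - s|)) (𝓝[Icc a b] s) (𝓝 0) := by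
      have h2 : Tendsto (fun t => Real.sqrt (C0 * |t - s|)) (𝓝 s) (𝓝 (Real.sqrt (C0 * |s - s|))) := by
        apply Continuous.tendsto
        fun_prop
      simp only [sub_self, abs_zero, mul_zero, Real.sqrt_zero] at h2
      exact h2.mono_left nhdsWithin_le_nhds
    refine squeeze_zero' (Eventually.of_forall fun _ => norm_nonneg _) ?_ h1
    filter_upwards [self_mem_nhdsWithin] with t ht
    exact Real.le_sqrt_of_sq_le (hH s hs t ht)
  choose! v hv using fun t (ht : t ∈ Icc a b) => o4b_deriv hab hZ hd ht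
  have hlip : ∀ s ∈ Icc a b, ∀ t ∈ Icc a b, ‖v t - v s‖ ≤ C * |t - s| := by
    intro s hs t ht
    rcases eq_or_ne s t with h | h
    · subst h
      simp
    have h1 := hv t ht s hs h
    have h2 := hv s hs t ht h.symm
    have e1 : (t - s)⁻¹ • (Z t - Z s) = (s - t)⁻¹ • (Z s - Z t) := by
      rw [← neg_sub s t, ← neg_sub (Z s) (Z t), inv_neg, smul_neg, neg_smul, neg_neg]
    rw [e1] at h2
    have e2 : v t - v s = ((s - t)⁻¹ • (Z s - Z t) - v s) - ((s - t)⁻¹ • (Z s - Z t) - v t) := by abel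
    rw [e2]
    refine (norm_sub_le _ _).trans ?_
    rw [abs_sub_comm s t] at h1
    linarith
  have hC : 0 ≤ C := by
    have h1 := hlip a ⟨le_rfl, hab.le⟩ b ⟨hab.le, le_rfl⟩
    have h2 := (norm_nonneg _).trans h1
    have h3 : 0 < |b - a| := abs_pos.mpr (by linarith)
    by_contra hcon
    nlinarith [mul_pos (neg_pos.mpr (not_le.mp hcon)) h3]
  have hvc : ContinuousOn v (Icc a b) := by
    intro s hs
    rw [ContinuousWithinAt, tendsto_iff_norm_sub_tendsto_zero]
    have h1 : Tendsto (fun t => C * |t - s|) (𝓝[Icc a b] s) (𝓝 0) := by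
      have h2 : Tendsto (fun t => C * |t - s|) (𝓝 s) (𝓝 (C * |s - s|)) := by
        apply Continuous.tendsto
        fun_prop
      simp only [sub_self, abs_zero, mul_zero] at h2
      exact h2.mono_left nhdsWithin_le_nhds
    refine squeeze_zero' (Eventually.of_forall fun _ => norm_nonneg _) ?_ h1
    filter_upwards [self_mem_nhdsWithin] with t ht
    exact hlip s hs t ht
  have hder : ∀ t ∈ Icc a b, HasDerivWithinAt Z (v t) (Icc a b) t := by
    intro t ht
    rw [hasDerivWithinAt_iff_tendsto_slope]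
    rw [tendsto_iff_norm_sub_tendsto_zero]
    have h1 : Tendsto (fun s => C / 2 * |s - t|) (𝓝[Icc a b \ {t}] t) (𝓝 0) := by
      have h2 : Tendsto (fun s => C / 2 * |s - t|) (𝓝 t) (𝓝 (C / 2 * |t - t|)) := by
        apply Continuous.tendsto
        fun_prop
      simp only [sub_self, abs_zero, mul_zero] at h2
      exact h2.mono_left nhdsWithin_le_nhds
    refine squeeze_zero' (Eventually.of_forall fun _ => norm_nonneg _) ?_ h1
    filter_upwards [self_mem_nhdsWithin] with s hs
    have := hv t ht s hs.1 hs.2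
    rw [slope_def_module]
    exact this
  have hle : ∀ s ∈ Icc a b, ∀ t ∈ Icc a b, s ≤ t → Z t - Z s = ∫ r in s..t, v r := by
    intro s hs t ht hst
    have hsub : Icc s t ⊆ Icc a b := Icc_subset_Icc hs.1 ht.2
    rw [intervalIntegral.integral_eq_sub_of_hasDeriv_right_of_le hst (hZ.mono hsub)]
    · intro x hx
      have hx' : x ∈ Icc a b := hsub ⟨hx.1.le, hx.2.le⟩
      have h1 := hder x hx'
      have h2 : HasDerivWithinAt Z (v x) (Ioo x b) x := h1.mono (fun y hy => ⟨hx'.1.trans hy.1.le, hy.2.le⟩)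
      exact h2.mono_of_mem_nhdsWithin (Ioo_mem_nhdsGT (lt_of_lt_of_le hx.2 ht.2))
    · exact ContinuousOn.intervalIntegrable (by
        rw [uIcc_of_le hst]
        exact hvc.mono hsub)
  refine ⟨v, ⟨C, hlip⟩, fun s hs t ht => ?_⟩
  rcases le_total s t with h | h
  · exact hle s hs t ht h
  · have := hle t ht s hs h
    rw [intervalIntegral.integral_symm, ← this]
    abel

end EscN
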