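import Pool.Agent.EscN.K
import Pool.Agent.EscN.O2

/-!
Module O3 of project ESCN: existence of kernel geodesics in `S`.
-/

noncomputable section

namespace EscN

open MeasureTheory Set Filter Topology Esc
open scoped ContDiff

variable {E : Type*} [NormedAddCommGroup E] [InnerProductSpace ℝ E] [FiniteDimensional ℝ E]

section O3

/-- the kernel on a degenerate interval vanishes -/
theorem o3_ker_self (S : Set E) (f : E → ℝ → ℝ) (v : E) (a : ℝ) (z z' : E) :
    ker S f v a a z z' = 0 := by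
  unfold ker
  have h : {c | ∃ u : ℝ → E, Adm u ∧ InS S a a z u ∧ traj a z u a = z' ∧ c = act f v a a z u} ⊆ {0} := by
    rintro c ⟨u, -, -, -, rfl⟩
    simp [act]
  rcases subset_singleton_iff_eq.mp h with h | h
  · rw [h, Real.sInf_empty]
  · rw [h, csInf_singleton]

theorem o3_traj_self (a : ℝ) (z : E) (u : ℝ → E) : traj a z u a = z := by simp [traj]

/-- concatenation -/
theorem o3_ker_add {S : Set E} (hc : Conn S) {M : ℝ} {f : E → ℝ → ℝ} (hf : Good M f) (v : E)
    {a b c : ℝ} (hab : a < b) (hbc : b < c) {z x z' : E} (hz : z ∈ S) (hx : x ∈ S) (hz' : z' ∈ S) :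
    ker S f v a c z z' ≤ ker S f v a b z x + ker S f v b c x z' := by
  apply le_of_forall_pos_le_add
  intro ε hε
  obtain ⟨u₁, h₁, s₁, e₁, l₁⟩ := o2_exists_lt hc f v hab hz hx (half_pos hε)
  obtain ⟨u₂, h₂, s₂, e₂, l₂⟩ := o2_exists_lt hc f v hbc hx hz' (half_pos hε)
  have h3 := o2_ker_le hf v (hab.trans hbc) (h₁.cat h₂ b)
    (InS.cat h₁ h₂ hab.le s₁ (by rw [e₁]; exact s₂))
    (z' := z') (by rw [traj_cat_right h₁ h₂ hab.le hbc.le, e₁, e₂])
  rw [act_cat hf v hab.le hbc.le z h₁ h₂, e₁] at h3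
  linarith

/-- concatenation along a curve, degenerate intervals allowed -/
theorem o3_ker_add' {S : Set E} (hc : Conn S) {M : ℝ} {f : E → ℝ → ℝ} (hf : Good M f) (v : E)
    {a b c : ℝ} (hab : a ≤ b) (hbc : b ≤ c) {Z : ℝ → E} (hZ : ∀ t ∈ Icc a c, Z t ∈ S) :
    ker S f v a c (Z a) (Z c) ≤ ker S f v a b (Z a) (Z b) + ker S f v b c (Z b) (Z c) := by
  rcases hab.eq_or_lt with rfl | h1
  · rw [o3_ker_self]; linarith
  rcases hbc.eq_or_lt with rfl | h2
  · rw [o3_ker_self]; linarith
  exact o3_ker_add hc hf v h1 h2 (hZ a ⟨le_rfl, hab.trans hbc⟩) (hZ b ⟨hab, hbc⟩)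
    (hZ c ⟨hab.trans hbc, le_rfl⟩)

/-- semicontinuity of the kernel along bounded actions -/
theorem o3_lsc {S : Set E} {rt : E → E} {r0 Cr : ℝ} (hR : Ret S rt r0 Cr) (hc : Conn S) {M : ℝ}
    {f : E → ℝ → ℝ} (hf : Good M f) {s t : ℝ} (hst : s < t) {ι : Type*} {l : Filter ι} {x y : ι → E}
    {x0 y0 : E} (hx0 : x0 ∈ S) (hy0 : y0 ∈ S) (hx : ∀ k, x k ∈ S) (hy : ∀ k, y k ∈ S)
    (tx : Tendsto x l (𝓝 x0)) (ty : Tendsto y l (𝓝 y0)) {A : ℝ} {α : ι → ℝ}
    (hα : ∀ k, ker S f 0 s t (x k) (y k) ≤ α k) (hA : ∀ k, α k ≤ A) {ε : ℝ} (hε : 0 < ε) :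
    ∀ᶠ k in l, ker S f 0 s t x0 y0 ≤ α k + ε := by
  obtain ⟨C, hC, hvar⟩ := ker_var hR hc hf
  have hts : 0 < t - s := by linarith
  set F : E × E → ℝ := fun p => inner ℝ (p.2 - p.1) ((y0 - p.2) - (x0 - p.1)) / (t - s) +
    C * (‖(y0 - p.2) - (x0 - p.1)‖ ^ 2 / (t - s) + max ‖x0 - p.1‖ ‖y0 - p.2‖ *
      (2 * (A + M * (t - s)) + (t - s))) with hF
  have hFc : Continuous F := by
    rw [hF]
    fun_prop
  have hF0 : F (x0, y0) = 0 := by
    simp [hF]
  have t1 : Tendsto (fun k => F (x k, y k)) l (𝓝 0) := by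
    rw [← hF0]
    exact (hFc.tendsto (x0, y0)).comp (tx.prodMk_nhds ty)
  have t2 : Tendsto (fun k => max ‖x0 - x k‖ ‖y0 - y k‖) l (𝓝 0) := by
    have h1 : Tendsto (fun k => ‖x0 - x k‖) l (𝓝 0) := by
      have := (tendsto_const_nhds (x := x0)).sub tx
      rw [sub_self] at this
      simpa using this.norm
    have h2 : Tendsto (fun k => ‖y0 - y k‖) l (𝓝 0) := by
      have := (tendsto_const_nhds (x := y0)).sub ty
      rw [sub_self] at this
      simpa using this.norm
    simpa using h1.max h2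
  filter_upwards [t1.eventually (gt_mem_nhds hε), t2.eventually (gt_mem_nhds hR.r0_pos)] with k h1 h2
  have h3 := hvar s t hst (x k) (hx k) (y k) (hy k) (x0 - x k) (y0 - y k)
    (max ‖x0 - x k‖ ‖y0 - y k‖) (le_max_left _ _) (le_max_right _ _) h2.le
  rw [add_sub_cancel, add_sub_cancel, hR.id _ hx0, hR.id _ hy0] at h3
  have h4 : En S f M s t (x k) (y k) ≤ 2 * (A + M * (t - s)) := by
    unfold En
    have := (hα k).trans (hA k)
    linarith
  have h5 : C * (‖(y0 - y k) - (x0 - x k)‖ ^ 2 / (t - s) + max ‖x0 - x k‖ ‖y0 - y k‖ *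
      (En S f M s t (x k) (y k) + (t - s))) ≤
      C * (‖(y0 - y k) - (x0 - x k)‖ ^ 2 / (t - s) + max ‖x0 - x k‖ ‖y0 - y k‖ *
      (2 * (A + M * (t - s)) + (t - s))) := by
    apply mul_le_mul_of_nonneg_left _ hC
    have h6 : 0 ≤ max ‖x0 - x k‖ ‖y0 - y k‖ := (norm_nonneg _).trans (le_max_left _ _)
    have := mul_le_mul_of_nonneg_left (add_le_add_left h4 (t - s)) h6
    linarith
  have h7 := hα k
  have h8 : F (x k, y k) < ε := h1
  simp only [hF] at h8
  linarith

theorem exists_kgeo {S : Set E} {rt : E → E} {r0 Cr : ℝ} (hR : Ret S rt r0 Cr) (hc : Conn S) {M : ℝ}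
    {f : E → ℝ → ℝ} (hf : Good M f) {a b : ℝ} (hab : a < b) {z z' : E} (hz : z ∈ S) (hz' : z' ∈ S) :
    ∃ Z : ℝ → E, Z a = z ∧ Z b = z' ∧ KGeo S f a b Z := by
  have hM := hf.pos
  have hba : 0 < b - a := by linarith
  set K := ker S f 0 a b z z' with hK
  have hex : ∀ k : ℕ, ∃ u, Adm u ∧ InS S a b z u ∧ traj a z u b = z' ∧
      act f 0 a b z u < K + 1 / ((k:ℝ) + 1) := fun k =>
    o2_exists_lt hc f 0 hab hz hz' (by positivity)
  choose u hu hS hend hact using hex
  set γ : ℕ → ℝ → E := fun k => traj a z (u k) with hγ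
  have hact1 : ∀ k, act f 0 a b z (u k) ≤ K + 1 := by
    intro k
    have h1 : 1 / ((k:ℝ) + 1) ≤ 1 := by
      rw [div_le_one (by positivity)]
      have : (0:ℝ) ≤ k := by positivity
      linarith
    linarith [hact k]
  set E0 : ℝ := 2 * (K + 1 + M * (b - a)) with hE0
  -- energy
  have hen : ∀ k, (∫ t in a..b, ‖u k t‖ ^ 2 / 2) ≤ E0 / 2 := by
    intro k
    have h1 := energy_le_act hf 0 hab.le z (hu k)
    simp only [sub_zero] at h1
    have := hact1 k
    rw [hE0]; linarith
  have hE0n : 0 ≤ E0 := by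
    have h1 := hen 0
    have h2 : 0 ≤ ∫ t in a..b, ‖u 0 t‖ ^ 2 / 2 :=
      intervalIntegral.integral_nonneg hab.le fun t _ => by positivity
    linarith
  -- Hoelder bound
  have hh1 : ∀ k, ∀ s t, a ≤ s → s ≤ t → t ≤ b → ‖γ k t - γ k s‖ ^ 2 ≤ E0 * (t - s) := by
    intro k s t h1 h2 h3
    rcases h2.eq_or_lt with rfl | h2'
    · simp
    have hts : 0 < t - s := by linarith
    have e1 : γ k t - γ k s = ∫ r in s..t, u k r := by
      rw [hγ]
      simp only
      rw [traj_split (hu k) a s z t]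
      simp [traj]
    have e2 := jensen (hu k) h2'
    have e3 : (∫ r in s..t, ‖u k r‖ ^ 2 / 2) ≤ ∫ r in a..b, ‖u k r‖ ^ 2 / 2 :=
      intervalIntegral.integral_mono_interval h1 h2 h3
        (ae_of_all _ fun r => by simp only [Pi.zero_apply]; positivity) ((hu k).sq_ii a b)
    rw [e1]
    have e4 := (e2.trans e3).trans (hen k)
    rw [div_le_iff₀ (by positivity)] at e4
    linarith
  have hh : ∀ k, ∀ s ∈ Icc a b, ∀ t ∈ Icc a b, ‖γ k t - γ k s‖ ^ 2 ≤ E0 * |t - s| := by
    intro k s hs t ht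
    rcases le_total s t with h | h
    · rw [abs_of_nonneg (by linarith)]
      exact hh1 k s t hs.1 h ht.2
    · rw [abs_of_nonpos (by linarith), norm_sub_rev]
      have := hh1 k t s ht.1 h hs.2
      linarith
  have hγa : ∀ k, γ k a = z := fun k => o3_traj_self a z (u k)
  -- limits along an ultrafilter
  set U : Ultrafilter ℕ := Filter.hyperfilter ℕ with hU
  have hUtop : (U : Filter ℕ) ≤ atTop := by
    rw [hU, ← Nat.cofinite_eq_atTop]
    exact Filter.hyperfilter_le_cofinite
  set ρ : ℝ := Real.sqrt (E0 * (b - a)) with hρ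
  have hball : ∀ k, ∀ t ∈ Icc a b, γ k t ∈ Metric.closedBall z ρ := by
    intro k t ht
    rw [mem_closedBall_iff_norm, hρ]
    apply Real.le_sqrt_of_sq_le
    have h1 := hh k a ⟨le_rfl, hab.le⟩ t ht
    rw [hγa, abs_of_nonneg (by linarith [ht.1])] at h1
    exact h1.trans (mul_le_mul_of_nonneg_left (by linarith [ht.2]) hE0n)
  have hlim : ∀ t, ∃ x : E, t ∈ Icc a b → Tendsto (fun k => γ k t) U (𝓝 x) := by
    intro t
    by_cases ht : t ∈ Icc a b
    · have hcomp : IsCompact (Metric.closedBall z ρ) := isCompact_closedBall z ρ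
      obtain ⟨x, -, hx⟩ := hcomp.ultrafilter_le_nhds' (U.map (fun k => γ k t)) (by
        rw [Ultrafilter.mem_map]
        exact Filter.univ_mem' (fun k => hball k t ht))
      exact ⟨x, fun _ => hx⟩
    · exact ⟨0, fun h => absurd h ht⟩
  choose Z hZ using hlim
  have hamem : a ∈ Icc a b := ⟨le_rfl, hab.le⟩
  have hbmem : b ∈ Icc a b := ⟨hab.le, le_rfl⟩
  have hZa : Z a = z := by
    have h1 := hZ a hamem
    simp only [hγa] at h1
    exact tendsto_nhds_unique h1 tendsto_const_nhds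
  have hZb : Z b = z' := by
    have h1 := hZ b hbmem
    have h2 : (fun k => γ k b) = fun _ => z' := funext fun k => hend k
    rw [h2] at h1
    exact tendsto_nhds_unique h1 tendsto_const_nhds
  have hmem : ∀ t ∈ Icc a b, Z t ∈ S := fun t ht =>
    hR.closed.mem_of_tendsto (hZ t ht) (Filter.Eventually.of_forall fun k => hS k t ht)
  refine ⟨Z, hZa, hZb, hmem, ⟨E0, fun s hs t ht => ?_⟩, fun s t has hst htb => ?_⟩
  · have h1 : Tendsto (fun k => ‖γ k t - γ k s‖ ^ 2) U (𝓝 (‖Z t - Z s‖ ^ 2)) :=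
      (((hZ t ht).sub (hZ s hs)).norm).pow 2
    exact le_of_tendsto h1 (Filter.Eventually.of_forall fun k => hh k s hs t ht)
  · have hs : s ∈ Icc a b := ⟨has, hst.trans htb⟩
    have ht : t ∈ Icc a b := ⟨has.trans hst, htb⟩
    apply le_antisymm
    · -- semicontinuity
      have key : ∀ p q, a ≤ p → p ≤ q → q ≤ b → ∀ ε : ℝ, 0 < ε →
          ∀ᶠ k in (U : Filter ℕ), ker S f 0 p q (Z p) (Z q) ≤ act f 0 p q (γ k p) (u k) + ε := by
        intro p q hap hpq hqb ε hε
        rcases hpq.eq_or_lt with rfl | hpq'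
        · refine Filter.Eventually.of_forall fun k => ?_
          rw [o3_ker_self]
          simp [act, hε.le]
        have hp : p ∈ Icc a b := ⟨hap, hpq.trans hqb⟩
        have hq : q ∈ Icc a b := ⟨hap.trans hpq, hqb⟩
        have hαk : ∀ k, ker S f 0 p q (γ k p) (γ k q) ≤ act f 0 p q (γ k p) (u k) := by
          intro k
          apply o2_ker_le hf 0 hpq' (hu k)
          · intro r hr
            rw [hγ]
            simp only
            rw [← traj_split (hu k) a p z r]
            exact hS k r ⟨hap.trans hr.1, hr.2.trans hqb⟩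
          · rw [hγ]
            simp only
            rw [← traj_split (hu k) a p z q]
        have hlow : ∀ k, ∀ c d, c ≤ d → ∀ w, -(M * (d - c)) ≤ act f 0 c d w (u k) := by
          intro k c d hcd w
          rcases hcd.eq_or_lt with rfl | h
          · simp [act]
          · exact o2_act_ge hf 0 h w (hu k)
        have hA : ∀ k, act f 0 p q (γ k p) (u k) ≤ K + 1 + M * (b - a) := by
          intro k
          have e1 := act_split hf 0 a p b z (hu k)
          have e2 := act_split hf 0 p q b (γ k p) (hu k)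
          have l1 := hlow k a p hap z
          have l2 := hlow k q b hqb (traj p (γ k p) (u k) q)
          have l3 := hact1 k
          have e3 : traj a z (u k) p = γ k p := rfl
          rw [e3] at e1
          have l4 : 0 ≤ M * (q - p) := mul_nonneg hM (by linarith)
          have l5 : M * (b - a) = M * (p - a) + M * (q - p) + M * (b - q) := by ring
          linarith
        exact o3_lsc hR hc hf hpq' (hmem p hp) (hmem q hq) (fun k => hS k p hp) (fun k => hS k q hq)
          (hZ p hp) (hZ q hq) hαk hA hε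
      have hlimK : Tendsto (fun k : ℕ => K + 1 / ((k:ℝ) + 1)) U (𝓝 K) := by
        have h1 : Tendsto (fun k : ℕ => 1 / ((k:ℝ) + 1)) atTop (𝓝 0) :=
          tendsto_one_div_add_atTop_nhds_zero_nat
        have h2 := (tendsto_const_nhds (x := K)).add (h1.mono_left hUtop)
        rw [add_zero] at h2
        exact h2
      apply le_of_forall_pos_le_add
      intro ε hε
      have hε4 : 0 < ε / 4 := by positivity
      have ev := (((key a s le_rfl has hs.2 _ hε4).and (key s t has hst htb _ hε4)).and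
        (key t b ht.1 htb le_rfl _ hε4)).and
        (hlimK.eventually (gt_mem_nhds (by linarith : K < K + ε / 4)))
      obtain ⟨k, ⟨⟨k1, k2⟩, k3⟩, k4⟩ := ev.exists
      have e1 := act_split hf 0 a s b z (hu k)
      have e2 := act_split hf 0 s t b (γ k s) (hu k)
      have e3 : traj a z (u k) s = γ k s := rfl
      have e4 : traj s (γ k s) (u k) t = γ k t := (traj_split (hu k) a s z t).symm
      have e5 := hact k
      rw [e3] at e1
      rw [e4] at e2
      rw [hγa] at k1
      rw [hZa, hZb, ← hK]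
      rw [hZa] at k1
      rw [hZb] at k3
      linarith
    · have h1 := o3_ker_add' hc hf 0 (hst.trans' has) htb (Z := Z) hmem
      have h2 := o3_ker_add' hc hf 0 has hst (Z := Z) (fun r hr => hmem r ⟨hr.1, hr.2.trans htb⟩)
      linarith

end O3

end EscN
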