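import Pool.Agent.EscN.O3
import Pool.Agent.EscN.O4a
import Pool.Agent.EscN.O4b

/-!
Module O4 of project ESCN: regularity of kernel geodesics.
-/

noncomputable section

namespace EscN

open MeasureTheory Set Filter Topology Esc
open scoped ContDiff

variable {E : Type*} [NormedAddCommGroup E] [InnerProductSpace ℝ E] [FiniteDimensional ℝ E]

section O4

theorem o4_En_nonneg {S : Set E} (hc : Conn S) {M : ℝ} {f : E → ℝ → ℝ} (hf : Good M f) {a b : ℝ}
    (hab : a < b) {z z' : E} (hz : z ∈ S) (hz' : z' ∈ S) : 0 ≤ En S f M a b z z' := by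
  have := o2_ker_ge hf hc 0 hab hz hz'
  unfold En
  linarith

/-- second difference at a local minimum -/
theorem second_diff {S : Set E} {rt : E → E} {r0 Cr : ℝ} (hR : Ret S rt r0 Cr) (hc : Conn S) {M : ℝ}
    {f : E → ℝ → ℝ} (hf : Good M f) : ∃ C : ℝ, 0 ≤ C ∧ ∀ (t h : ℝ), 0 < h → ∀ z₁ ∈ S, ∀ z ∈ S, ∀ z₂ ∈ S,
      IsLocalMinOn (fun w => ker S f 0 (t - h) t z₁ w + ker S f 0 t (t + h) w z₂) S z →
      ‖z₂ - (2:ℝ) • z + z₁‖ ≤ C * h * (En S f M (t - h) t z₁ z + En S f M t (t + h) z z₂ + h) := by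
  obtain ⟨C, hC, hvar⟩ := ker_var hR hc hf
  refine ⟨4 * C, by positivity, ?_⟩
  intro t h hh z₁ hz₁ z hz z₂ hz₂ hmin
  set D : E := z₂ - (2:ℝ) • z + z₁ with hD
  have h1 : t - h < t := by linarith
  have h2 : t < t + h := by linarith
  have p1 : 0 ≤ En S f M (t - h) t z₁ z := o4_En_nonneg hc hf h1 hz₁ hz
  have p2 : 0 ≤ En S f M t (t + h) z z₂ := o4_En_nonneg hc hf h2 hz hz₂
  rcases eq_or_ne D 0 with h0 | h0
  · rw [h0, norm_zero]; positivity
  have hDn : 0 < ‖D‖ := norm_pos_iff.mpr h0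
  -- the curve of test points
  have hcont : Continuous rt := hR.smooth.continuous
  have hsm : ∀ᶠ s : ℝ in 𝓝[>] 0, ‖s • D‖ ≤ r0 := by
    have : Tendsto (fun s : ℝ => ‖s • D‖) (𝓝 0) (𝓝 ‖(0:ℝ) • D‖) :=
      Continuous.tendsto (by fun_prop) _
    rw [zero_smul, norm_zero] at this
    exact (this.mono_left nhdsWithin_le_nhds).eventually (ge_mem_nhds hR.r0_pos)
  have htend : Tendsto (fun s : ℝ => rt (z + s • D)) (𝓝[>] 0) (𝓝[S] z) := by
    apply tendsto_nhdsWithin_iff.mpr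
    constructor
    · have : Tendsto (fun s : ℝ => rt (z + s • D)) (𝓝 0) (𝓝 (rt (z + (0:ℝ) • D))) := by
        apply Continuous.tendsto
        exact hcont.comp (by fun_prop)
      rw [zero_smul, add_zero, hR.id z hz] at this
      exact this.mono_left nhdsWithin_le_nhds
    · filter_upwards [hsm] with s hs
      exact hR.mem z hz _ hs
  have hev := htend.eventually hmin
  have hsm2 : ∀ᶠ s : ℝ in 𝓝[>] 0, s ≤ 1 / (4 * (C + 1)) :=
    (ge_mem_nhds (by positivity)).filter_mono nhdsWithin_le_nhds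
  have hpos : ∀ᶠ s : ℝ in 𝓝[>] 0, 0 < s := self_mem_nhdsWithin
  obtain ⟨s, ⟨hs1, hs2, hs3⟩, hs4⟩ := ((hev.and (hsm.and hsm2)).and hpos).exists
  have hs0 : 0 < s := hs4
  have v1 := hvar (t - h) t h1 z₁ hz₁ z hz 0 (s • D) ‖s • D‖ (by rw [norm_zero]; positivity) le_rfl hs2
  have v2 := hvar t (t + h) h2 z hz z₂ hz₂ (s • D) 0 ‖s • D‖ le_rfl (by rw [norm_zero]; positivity) hs2
  rw [add_zero, hR.id z₁ hz₁] at v1
  rw [add_zero, hR.id z₂ hz₂] at v2
  have e1 : t - (t - h) = h := by ring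
  have e2 : t + h - t = h := by ring
  rw [e1, sub_zero] at v1
  rw [e2, zero_sub, norm_neg] at v2
  have e3 : inner ℝ (z - z₁) (s • D) / h + inner ℝ (z₂ - z) (-(s • D)) / h = -(s * ‖D‖ ^ 2 / h) := by
    rw [inner_neg_right, ← add_div, ← sub_eq_add_neg, ← inner_sub_left]
    have : z - z₁ - (z₂ - z) = -D := by rw [hD]; module
    rw [this, inner_neg_left, inner_smul_right, real_inner_self_eq_norm_sq]
    ring
  have e4 : ‖s • D‖ = s * ‖D‖ := by rw [norm_smul, Real.norm_of_nonneg hs0.le]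
  rw [e4] at v1 v2
  set e₁ := En S f M (t - h) t z₁ z with he₁
  set e₂ := En S f M t (t + h) z z₂ with he₂
  have key : 0 ≤ -(s * ‖D‖ ^ 2 / h) + C * (2 * ((s * ‖D‖) ^ 2 / h) + s * ‖D‖ * (e₁ + e₂ + 2 * h)) := by
    have h3 : ker S f 0 (t - h) t z₁ z + ker S f 0 t (t + h) z z₂ ≤
      ker S f 0 (t - h) t z₁ (rt (z + s • D)) + ker S f 0 t (t + h) (rt (z + s • D)) z₂ := hs1
    linarith
  have key2 : 0 ≤ -‖D‖ + C * (2 * (s * ‖D‖) + h * (e₁ + e₂ + 2 * h)) := by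
    have h4 : -(s * ‖D‖ ^ 2 / h) + C * (2 * ((s * ‖D‖) ^ 2 / h) + s * ‖D‖ * (e₁ + e₂ + 2 * h)) =
        (s * ‖D‖ / h) * (-‖D‖ + C * (2 * (s * ‖D‖) + h * (e₁ + e₂ + 2 * h))) := by
      field_simp
    rw [h4] at key
    by_contra hcon
    push Not at hcon
    have : (s * ‖D‖ / h) * (-‖D‖ + C * (2 * (s * ‖D‖) + h * (e₁ + e₂ + 2 * h))) < 0 :=
      mul_neg_of_pos_of_neg (by positivity) hcon
    linarith
  have h5 : C * s ≤ 1 / 4 := by
    have : C * s ≤ C * (1 / (4 * (C + 1))) := mul_le_mul_of_nonneg_left hs3 hC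
    have h6 : C * (1 / (4 * (C + 1))) ≤ 1 / 4 := by
      rw [mul_one_div, div_le_div_iff₀ (by positivity) (by norm_num)]
      nlinarith
    linarith
  have h6 : C * s * ‖D‖ ≤ 1 / 4 * ‖D‖ := mul_le_mul_of_nonneg_right h5 hDn.le
  have h7 : 0 ≤ C * (h * (e₁ + e₂)) := by positivity
  nlinarith

theorem o4_ker_ge {M : ℝ} {f : E → ℝ → ℝ} (hf : Good M f) {S : Set E} (hc : Conn S) {a b : ℝ}
    (hab : a ≤ b) {z z' : E} (hz : z ∈ S) (hz' : z' ∈ S) : -(M * (b - a)) ≤ ker S f 0 a b z z' := by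
  rcases hab.eq_or_lt with rfl | h
  · rw [o3_ker_self]; simp
  · exact o2_ker_ge hf hc 0 h hz hz'

/-- the kernels of sub-intervals are bounded -/
theorem o4_sub {M : ℝ} {f : E → ℝ → ℝ} (hf : Good M f) {S : Set E} (hc : Conn S) {a b : ℝ} {Z : ℝ → E}
    (hZ : KGeo S f a b Z) {s t : ℝ} (has : a ≤ s) (hst : s ≤ t) (htb : t ≤ b) :
    En S f M s t (Z s) (Z t) ≤ En S f M a b (Z a) (Z b) := by
  have h1 := hZ.add s t has hst htb
  have m1 := hZ.mem a ⟨le_rfl, has.trans (hst.trans htb)⟩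
  have m2 := hZ.mem s ⟨has, hst.trans htb⟩
  have m3 := hZ.mem t ⟨has.trans hst, htb⟩
  have m4 := hZ.mem b ⟨has.trans (hst.trans htb), le_rfl⟩
  have h2 := o4_ker_ge hf hc has m1 m2
  have h3 := o4_ker_ge hf hc htb m3 m4
  unfold En
  linarith

/-- a kernel geodesic minimizes on both sides of each time -/
theorem o4_min {M : ℝ} {f : E → ℝ → ℝ} (hf : Good M f) {S : Set E} (hc : Conn S) {a b : ℝ} {Z : ℝ → E}
    (hZ : KGeo S f a b Z) {t h : ℝ} (hh : 0 < h) (ha : a ≤ t - h) (hb : t + h ≤ b) :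
    IsLocalMinOn (fun w => ker S f 0 (t - h) t (Z (t - h)) w + ker S f 0 t (t + h) w (Z (t + h))) S (Z t) := by
  have k1 := hZ.add (t - h) t ha (by linarith) (by linarith)
  have k2 := hZ.add t (t + h) (by linarith) (by linarith) hb
  have k3 := hZ.add t t (by linarith) le_rfl (by linarith)
  have k4 := hZ.add (t - h) (t + h) ha (by linarith) hb
  rw [o3_ker_self] at k3
  have hmin : IsMinOn (fun w => ker S f 0 (t - h) t (Z (t - h)) w + ker S f 0 t (t + h) w (Z (t + h))) S (Z t) := by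
    intro w hw
    have := o3_ker_add hc hf 0 (by linarith : t - h < t) (by linarith : t < t + h)
      (hZ.mem (t - h) ⟨ha, by linarith⟩) hw (hZ.mem (t + h) ⟨by linarith, hb⟩)
    change ker S f 0 (t - h) t (Z (t - h)) (Z t) + ker S f 0 t (t + h) (Z t) (Z (t + h)) ≤
      ker S f 0 (t - h) t (Z (t - h)) w + ker S f 0 t (t + h) w (Z (t + h))
    linarith
  exact hmin.localize

/-- a kernel geodesic is `C^{1,1}` -/
theorem kgeo_c11 {S : Set E} {rt : E → E} {r0 Cr : ℝ} (hR : Ret S rt r0 Cr) (hc : Conn S) {M : ℝ}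
    {f : E → ℝ → ℝ} (hf : Good M f) {a b : ℝ} (hab : a < b) {Z : ℝ → E} (hZ : KGeo S f a b Z) :
    ∃ v : ℝ → E, (∃ C, ∀ s ∈ Icc a b, ∀ t ∈ Icc a b, ‖v t - v s‖ ≤ C * |t - s|) ∧
      ∀ s ∈ Icc a b, ∀ t ∈ Icc a b, Z t - Z s = ∫ r in s..t, v r := by
  have hM := hf.pos
  obtain ⟨C, hC, hsd⟩ := second_diff hR hc hf
  obtain ⟨Ck, hCk, hcl⟩ := ker_close hR hf
  obtain ⟨C0', hH'⟩ := hZ.holder
  set C0 := max C0' 0 with hC0
  have hC0p : 0 ≤ C0 := le_max_right _ _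
  have hH : ∀ s ∈ Icc a b, ∀ t ∈ Icc a b, ‖Z t - Z s‖ ^ 2 ≤ C0 * |t - s| := fun s hs t ht =>
    (hH' s hs t ht).trans (mul_le_mul_of_nonneg_right (le_max_left _ _) (abs_nonneg _))
  set E0 := En S f M a b (Z a) (Z b) with hE0
  have hE0p : 0 ≤ E0 := o4_En_nonneg hc hf hab (hZ.mem a ⟨le_rfl, hab.le⟩) (hZ.mem b ⟨hab.le, le_rfl⟩)
  have hba : 0 < b - a := by linarith
  -- second differences
  have sd : ∀ t h, 0 < h → a ≤ t - h → t + h ≤ b → ‖Z (t + h) - (2:ℝ) • Z t + Z (t - h)‖ ≤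
      C * h * (En S f M (t - h) t (Z (t - h)) (Z t) + En S f M t (t + h) (Z t) (Z (t + h)) + h) := by
    intro t h hh ha hb
    exact hsd t h hh _ (hZ.mem _ ⟨ha, by linarith⟩) _ (hZ.mem _ ⟨by linarith, by linarith⟩) _
      (hZ.mem _ ⟨by linarith, hb⟩) (o4_min hf hc hZ hh ha hb)
  have hD1 : ∀ t h, 0 < h → a ≤ t - h → t + h ≤ b → ‖Z (t + h) - (2:ℝ) • Z t + Z (t - h)‖ ≤
      (C * (2 * E0 + (b - a))) * h := by
    intro t h hh ha hb
    have e1 := o4_sub hf hc hZ ha (by linarith : t - h ≤ t) (by linarith)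
    have e2 := o4_sub hf hc hZ (by linarith : a ≤ t) (by linarith : t ≤ t + h) hb
    calc _ ≤ C * h * (En S f M (t - h) t (Z (t - h)) (Z t) + En S f M t (t + h) (Z t) (Z (t + h)) + h) :=
          sd t h hh ha hb
      _ ≤ C * h * (2 * E0 + (b - a)) := mul_le_mul_of_nonneg_left (by linarith) (by positivity)
      _ = _ := by ring
  -- short intervals
  set h1 : ℝ := r0 ^ 2 / (C0 + 1) with hh1
  have hr0 := hR.r0_pos
  have hh1p : 0 < h1 := by positivity
  have close : ∀ s h, 0 < h → h ≤ h1 → a ≤ s → s + h ≤ b →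
      En S f M s (s + h) (Z s) (Z (s + h)) ≤ 2 * (Ck + 2 * M) * (‖Z (s + h) - Z s‖ ^ 2 / h + h) := by
    intro s h hh hhh has hsb
    have e1 := hH s ⟨has, by linarith⟩ (s + h) ⟨by linarith, hsb⟩
    rw [add_sub_cancel_left, abs_of_pos hh] at e1
    have e2 : ‖Z (s + h) - Z s‖ ^ 2 ≤ r0 ^ 2 := by
      refine e1.trans ?_
      calc C0 * h ≤ C0 * h1 := mul_le_mul_of_nonneg_left hhh hC0p
        _ ≤ r0 ^ 2 := by
          rw [hh1, mul_div_assoc', div_le_iff₀ (by positivity)]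
          nlinarith [sq_nonneg r0]
    have e3 : ‖Z (s + h) - Z s‖ ≤ r0 := (pow_le_pow_iff_left₀ (norm_nonneg _) hr0.le (by norm_num)).mp e2
    have e4 := hcl s (s + h) (by linarith) _ (hZ.mem s ⟨has, by linarith⟩) _
      (hZ.mem (s + h) ⟨by linarith, hsb⟩) e3
    rw [add_sub_cancel_left] at e4
    unfold En
    rw [add_sub_cancel_left]
    have e5 : 0 ≤ ‖Z (s + h) - Z s‖ ^ 2 / h := by positivity
    have e6 : Ck * ‖Z (s + h) - Z s‖ ^ 2 / h = Ck * (‖Z (s + h) - Z s‖ ^ 2 / h) := by ring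
    rw [e6] at e4
    have e7 : 0 ≤ M * (‖Z (s + h) - Z s‖ ^ 2 / h) := by positivity
    have e8 : 0 ≤ Ck * h := by positivity
    nlinarith
  set K := 2 * (Ck + 2 * M) with hK
  have hKp : 0 ≤ K := by positivity
  have hD2 : ∀ t h, 0 < h → h ≤ h1 → a ≤ t - h → t + h ≤ b → ‖Z (t + h) - (2:ℝ) • Z t + Z (t - h)‖ ≤
      (C * (2 * K + 1)) * (‖Z t - Z (t - h)‖ ^ 2 + ‖Z (t + h) - Z t‖ ^ 2 + h ^ 2) := by
    intro t h hh hhh ha hb
    have e1 := close (t - h) h hh hhh ha (by linarith)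
    have e2 := close t h hh hhh (by linarith) hb
    rw [sub_add_cancel] at e1
    have e3 := sd t h hh ha hb
    set p := ‖Z t - Z (t - h)‖ ^ 2 with hp
    set n := ‖Z (t + h) - Z t‖ ^ 2 with hn
    have hp0 : 0 ≤ p := by positivity
    have hn0 : 0 ≤ n := by positivity
    calc _ ≤ C * h * (En S f M (t - h) t (Z (t - h)) (Z t) + En S f M t (t + h) (Z t) (Z (t + h)) + h) := e3
      _ ≤ C * h * (K * (p / h + h) + K * (n / h + h) + h) :=
          mul_le_mul_of_nonneg_left (by linarith) (by positivity)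
      _ = C * (K * (p + n) + (2 * K + 1) * h ^ 2) := by field_simp; ring
      _ ≤ C * ((2 * K + 1) * (p + n) + (2 * K + 1) * h ^ 2) := by
          apply mul_le_mul_of_nonneg_left _ hC
          nlinarith
      _ = _ := by ring
  obtain ⟨B, hB, hlip⟩ := o4_lip hab hC0p (by positivity) (by positivity) hh1p hH hD1 hD2
  -- quadratic bound
  set C6 : ℝ := C * (2 * K + 1) * (2 * B ^ 2 + 1) + (C * (2 * E0 + (b - a))) / h1 with hC6
  have hd : ∀ t h, 0 < h → a ≤ t - h → t + h ≤ b → ‖Z (t + h) - (2:ℝ) • Z t + Z (t - h)‖ ≤ C6 * h ^ 2 := by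
    intro t h hh ha hb
    have q1 : 0 ≤ C * (2 * K + 1) * (2 * B ^ 2 + 1) * h ^ 2 := by positivity
    have q2 : 0 ≤ (C * (2 * E0 + (b - a))) / h1 * h ^ 2 := by positivity
    rcases le_or_gt h h1 with hle | hgt
    · have e1 := hlip (t - h) ⟨ha, by linarith⟩ t ⟨by linarith, by linarith⟩
      have e2 := hlip t ⟨by linarith, by linarith⟩ (t + h) ⟨by linarith, hb⟩
      rw [sub_sub_cancel, abs_of_pos hh] at e1
      rw [add_sub_cancel_left, abs_of_pos hh] at e2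
      have e3 := pow_le_pow_left₀ (norm_nonneg _) e1 2
      have e4 := pow_le_pow_left₀ (norm_nonneg _) e2 2
      have e5 := hD2 t h hh hle ha hb
      calc _ ≤ _ := e5
        _ ≤ (C * (2 * K + 1)) * ((B * h) ^ 2 + (B * h) ^ 2 + h ^ 2) :=
            mul_le_mul_of_nonneg_left (by linarith) (by positivity)
        _ = C * (2 * K + 1) * (2 * B ^ 2 + 1) * h ^ 2 := by ring
        _ ≤ C6 * h ^ 2 := by rw [hC6]; linarith
    · have e5 := hD1 t h hh ha hb
      have e6 : (C * (2 * E0 + (b - a))) * h ≤ (C * (2 * E0 + (b - a))) / h1 * h ^ 2 := by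
        rw [div_mul_eq_mul_div, le_div_iff₀ hh1p, mul_assoc]
        apply mul_le_mul_of_nonneg_left _ (by positivity)
        nlinarith
      calc _ ≤ _ := e5
        _ ≤ _ := e6
        _ ≤ C6 * h ^ 2 := by rw [hC6]; linarith
  exact o4_of_second hab hd hH

end O4

end EscN
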