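import Pool.Agent.EscN.Defs

/-!
Module O5a of project ESCN: the force of the constrained equation.
-/

noncomputable section

namespace EscN

open MeasureTheory Set Filter Topology Esc
open scoped ContDiff

variable {E : Type*} [NormedAddCommGroup E] [InnerProductSpace ℝ E] [FiniteDimensional ℝ E]

section O5

/-- the force: the vector `G` with `⟪G, h⟫ = ⟪v, D²rt(x)(h) v⟫ + D f(x) (Drt(x) h)` -/
def force (rt : E → E) (f : E → ℝ → ℝ) (x v : E) (t : ℝ) : E :=
  (InnerProductSpace.toDual ℝ E).symm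
    ((innerSL ℝ v).comp ((fderiv ℝ (fderiv ℝ rt) x).flip v) +
      (fderiv ℝ (fun z => f z t) x).comp (fderiv ℝ rt x))

theorem force_cont {rt : E → E} (hrt : ContDiff ℝ ∞ rt) {f : E → ℝ → ℝ}
    (hf : ContDiff ℝ 2 (fun p : E × ℝ => f p.1 p.2)) :
    Continuous (fun q : E × E × ℝ => force rt f q.1 q.2.1 q.2.2) := by
  have h1 : ContDiff ℝ ∞ (fderiv ℝ rt) := hrt.fderiv_right (by simp)
  have h2 : Continuous (fderiv ℝ (fderiv ℝ rt)) := h1.continuous_fderiv (by simp)
  have h1c : Continuous (fderiv ℝ rt) := h1.continuous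
  have h3 : Continuous (fun q : E × ℝ => fderiv ℝ (fun z => f z q.2) q.1) := by
    have hg : ContDiff ℝ 2 (fun p : (E × ℝ) × E => f p.2 p.1.2) :=
      hf.comp (contDiff_snd.prodMk (contDiff_snd.comp contDiff_fst))
    exact (ContDiff.fderiv (m := 2) (n := 1) (f := fun (q : E × ℝ) (z : E) => f z q.2) (g := fun q => q.1)
      hg contDiff_fst (by norm_num)).continuous
  unfold force
  refine (InnerProductSpace.toDual ℝ E).symm.continuous.comp ?_
  refine Continuous.add ?_ ?_
  · refine Continuous.clm_comp ((innerSL ℝ).continuous.comp (continuous_fst.comp continuous_snd)) ?_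
    refine Continuous.clm_apply ?_ (continuous_fst.comp continuous_snd)
    exact (ContinuousLinearMap.flipₗᵢ ℝ E E E).continuous.comp (h2.comp continuous_fst)
  · refine Continuous.clm_comp ?_ (h1c.comp continuous_fst)
    exact h3.comp (continuous_fst.prodMk (continuous_snd.comp continuous_snd))

/-- the second derivative of the retraction is normal on pairs of tangent vectors -/
theorem second_normal {S : Set E} {rt : E → E} {r0 Cr : ℝ} (hR : Ret S rt r0 Cr) {x v ξ : E}
    (hx : x ∈ S) (hv : fderiv ℝ rt x v = v) (hξ : fderiv ℝ rt x ξ = ξ) :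
    fderiv ℝ rt x (fderiv ℝ (fderiv ℝ rt) x ξ v) = 0 := by
  have h1 : ContDiff ℝ ∞ (fderiv ℝ rt) := hR.smooth.fderiv_right (by simp)
  have hd : Differentiable ℝ rt := hR.smooth.differentiable (by simp)
  have hd1 : Differentiable ℝ (fderiv ℝ rt) := h1.differentiable (by simp)
  have hball : Metric.ball x r0 ∈ 𝓝 x := Metric.ball_mem_nhds x hR.r0_pos
  have hid : ∀ y ∈ Metric.ball x r0, rt (rt y) = rt y := by
    intro y hy
    have := hR.mem x hx (y - x) (by
      rw [← dist_eq_norm]; exact (Metric.mem_ball.1 hy).le)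
    rw [add_sub_cancel] at this
    exact hR.id _ this
  have hD : ∀ y ∈ Metric.ball x r0, (fderiv ℝ rt (rt y)).comp (fderiv ℝ rt y) = fderiv ℝ rt y := by
    intro y hy
    have hy' : Metric.ball x r0 ∈ 𝓝 y := Metric.isOpen_ball.mem_nhds hy
    have he : (fun z => rt (rt z)) =ᶠ[𝓝 y] rt := Filter.eventually_of_mem hy' hid
    have h2 := he.fderiv_eq (𝕜 := ℝ)
    exact (fderiv_comp y (hd _) (hd _)).symm.trans h2
  have hE : (fun y => (fderiv ℝ rt (rt y)).comp (fderiv ℝ rt y)) =ᶠ[𝓝 x] fderiv ℝ rt :=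
    Filter.eventually_of_mem hball hD
  have hA : HasFDerivAt (fun y => fderiv ℝ rt (rt y)) ((fderiv ℝ (fderiv ℝ rt) (rt x)).comp (fderiv ℝ rt x)) x :=
    (hd1 (rt x)).hasFDerivAt.comp x (hd x).hasFDerivAt
  have hB := hA.clm_comp (hd1 x).hasFDerivAt
  have hC := hB.unique (((hd1 x).hasFDerivAt).congr_of_eventuallyEq hE)
  have hEv := congrArg (fun T => T ξ v) hC
  simp only [add_apply, ContinuousLinearMap.comp_apply,
    ContinuousLinearMap.compL_apply, ContinuousLinearMap.flip_apply] at hEv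
  rw [hR.id x hx, hξ, hv] at hEv
  have := hEv
  simpa using this

/-- the normal part does not see tangent vectors -/
theorem force_tan {S : Set E} {rt : E → E} {r0 Cr : ℝ} (hR : Ret S rt r0 Cr) (f : E → ℝ → ℝ) {x v ξ : E}
    (hx : x ∈ S) (hv : fderiv ℝ rt x v = v) (hξ : fderiv ℝ rt x ξ = ξ) (t : ℝ) :
    inner ℝ (force rt f x v t) ξ = fderiv ℝ (fun z => f z t) x ξ := by
  have h0 : inner ℝ v (fderiv ℝ (fderiv ℝ rt) x ξ v) = 0 := by
    have h1 := hR.sym x hx v (fderiv ℝ (fderiv ℝ rt) x ξ v)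
    rw [hv, second_normal hR hx hv hξ, inner_zero_right] at h1
    exact h1
  unfold force
  rw [InnerProductSpace.toDual_symm_apply]
  simp only [add_apply, ContinuousLinearMap.comp_apply,
    ContinuousLinearMap.flip_apply, innerSL_apply_apply, hξ, h0, zero_add]

end O5

end EscN
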