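import Pool.Agent.EscN.ODefs
import Pool.Agent.helper42.Esc.K

/-!
Module O5b of project ESCN: the action of a continuously differentiable kernel geodesic is the kernel.
-/

noncomputable section

namespace EscN

open MeasureTheory Set Filter Topology Esc
open scoped ContDiff

variable {E : Type*} [NormedAddCommGroup E] [InnerProductSpace ℝ E]

section O5

theorem o5b_ker_self {S : Set E} (f : E → ℝ → ℝ) (a : ℝ) {z : E} (hz : z ∈ S) :
    ker S f 0 a a z z = 0 := by
  have h : {c | ∃ u : ℝ → E, Adm u ∧ InS S a a z u ∧ traj a z u a = z ∧ c = act f 0 a a z u} = {0} := by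
    ext c
    constructor
    · rintro ⟨u, _, _, _, rfl⟩
      simp [act]
    · rintro rfl
      refine ⟨fun _ => 0, Adm.const 0, ?_, by simp [traj], by simp [act]⟩
      intro t ht
      have h1 : t = a := le_antisymm ht.2 ht.1
      subst h1
      simpa [traj] using hz
  unfold ker
  rw [h, csInf_singleton]

variable [FiniteDimensional ℝ E]

theorem o5b_bdd {S : Set E} {M : ℝ} {f : E → ℝ → ℝ} (hf : Good M f) {a b : ℝ} (hab : a < b) (z z' : E) :
    BddBelow {c | ∃ u : ℝ → E, Adm u ∧ InS S a b z u ∧ traj a z u b = z' ∧ c = act f 0 a b z u} := by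
  have : CompleteSpace E := FiniteDimensional.complete ℝ E
  refine (act_bddBelow hf 0 hab z z').mono ?_
  rintro c ⟨u, h1, _, h2, h3⟩
  exact ⟨u, h1, h2, h3⟩

theorem o5b_act_lower {M : ℝ} {f : E → ℝ → ℝ} (hf : Good M f) {s t : ℝ} (hst : s < t)
    (hM : M * (t - s) ≤ 1) (z : E) {u : ℝ → E} (hu : Adm u) :
    (1 - M * (t - s)) * (‖traj s z u t - z‖ ^ 2 / (2 * (t - s))) + (∫ r in s..t, f z r)
      - M * (t - s) ^ 2 / 2 ≤ act f 0 s t z u := by
  have : CompleteSpace E := FiniteDimensional.complete ℝ E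
  set A := ∫ r in s..t, ‖u r‖ ^ 2 / 2 with hA
  have hM0 := hf.pos
  have hh : 0 < t - s := by linarith
  have h1 : act f 0 s t z u = A + ∫ r in s..t, f (traj s z u r) r := by
    rw [act_eq hf 0 s t z hu]
    simp [hA]
  have h2 : ∀ r ∈ Icc s t, ‖traj s z u r - z‖ ≤ A + (t - s) / 2 := by
    intro r hr
    have e1 : traj s z u r - z = ∫ q in s..r, u q := by simp [traj]
    rw [e1]
    calc ‖∫ q in s..r, u q‖ ≤ ∫ q in s..r, ‖u q‖ :=
          intervalIntegral.norm_integral_le_integral_norm hr.1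
      _ ≤ ∫ q in s..t, ‖u q‖ :=
          intervalIntegral.integral_mono_interval le_rfl hr.1 hr.2
            (ae_of_all _ fun _ => norm_nonneg _) (hu.ii s t).norm
      _ ≤ ∫ q in s..t, (‖u q‖ ^ 2 / 2 + 1 / 2) :=
          intervalIntegral.integral_mono_on hst.le (hu.ii s t).norm
            ((hu.sq_ii s t).add intervalIntegrable_const)
            (fun q _ => by nlinarith [sq_nonneg (‖u q‖ - 1)])
      _ = A + (t - s) / 2 := by
        rw [intervalIntegral.integral_add (hu.sq_ii s t) intervalIntegrable_const,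
          intervalIntegral.integral_const, smul_eq_mul, hA]
        ring
  have hz : IntervalIntegrable (fun r => f z r) volume s t :=
    (hf.cont.comp (continuous_const.prodMk continuous_id)).intervalIntegrable _ _
  have h3 : (∫ r in s..t, f z r) - M * (t - s) * (A + (t - s) / 2) ≤
      ∫ r in s..t, f (traj s z u r) r := by
    have h4 : ∫ r in s..t, (f z r - M * (A + (t - s) / 2)) ≤ ∫ r in s..t, f (traj s z u r) r := by
      refine intervalIntegral.integral_mono_on hst.le (hz.sub intervalIntegrable_const)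
        (f_traj_ii hf hu s z s t) ?_
      intro r hr
      have h5 := abs_le.mp (hf.lipx (traj s z u r) z r)
      have h6 := mul_le_mul_of_nonneg_left (h2 r hr) hM0
      linarith [h5.1]
    rw [intervalIntegral.integral_sub hz intervalIntegrable_const,
      intervalIntegral.integral_const, smul_eq_mul] at h4
    linarith
  have h7 := jensen hu hst
  have e2 : (∫ r in s..t, u r) = traj s z u t - z := by simp [traj]
  rw [e2, ← hA] at h7
  have h8 := mul_le_mul_of_nonneg_left h7 (by linarith : 0 ≤ 1 - M * (t - s))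
  rw [h1]
  nlinarith [h8, h3]

/-- the defect of the kernel on short intervals -/
theorem o5b_short {S : Set E} {M : ℝ} {f : E → ℝ → ℝ} (hf : Good M f) {w : ℝ → E} (hw : Continuous w)
    {V : ℝ} (hV : ∀ t, ‖w t‖ ≤ V) {s t : ℝ} (hst : s < t) (hM : M * (t - s) ≤ 1) {z : E}
    (hS : InS S s t z w) {om : ℝ} (hom : ∀ r ∈ Icc s t, ‖w r - w s‖ ≤ om) :
    act f 0 s t z w ≤ ker S f 0 s t z (traj s z w t) +
      (t - s) * (om ^ 2 / 2 + (t - s) * (M * (V + 1) ^ 2 / 2)) := by
  have : CompleteSpace E := FiniteDimensional.complete ℝ E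
  have hwa : Adm w := ⟨hw.stronglyMeasurable, V, hV⟩
  have hM0 := hf.pos
  have hV0 : 0 ≤ V := (norm_nonneg _).trans (hV 0)
  have hh : 0 < t - s := by linarith
  have hom0 : 0 ≤ om := (norm_nonneg _).trans (hom s ⟨le_rfl, hst.le⟩)
  set h := t - s with hhdef
  set I := ∫ r in s..t, w r with hI
  have e0 : traj s z w t - z = I := by simp [traj, hI]
  -- variance
  have hvar : ∫ r in s..t, ‖w r‖ ^ 2 / 2 ≤ h * (om ^ 2 / 2) + ‖I‖ ^ 2 / (2 * h) := by
    have e1 : ∀ r, ‖w r - w s‖ ^ 2 / 2 = ‖w r‖ ^ 2 / 2 - inner ℝ (w s) (w r) + ‖w s‖ ^ 2 / 2 := by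
      intro r
      rw [norm_sub_sq_real, real_inner_comm]
      ring
    have e2 : ∫ r in s..t, ‖w r - w s‖ ^ 2 / 2 = (∫ r in s..t, ‖w r‖ ^ 2 / 2) - inner ℝ (w s) I
        + h * (‖w s‖ ^ 2 / 2) := by
      simp_rw [e1]
      rw [intervalIntegral.integral_add ((hwa.sq_ii s t).sub (hwa.inner_ii (w s) s t))
        intervalIntegrable_const,
        intervalIntegral.integral_sub (hwa.sq_ii s t) (hwa.inner_ii (w s) s t)]
      have e3 : (∫ r in s..t, inner ℝ (w s) (w r)) = inner ℝ (w s) I := by
        have := (innerSL ℝ (w s)).intervalIntegral_comp_comm (hwa.ii s t)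
        simpa using this
      rw [e3, intervalIntegral.integral_const, smul_eq_mul]
    have e4 : ∫ r in s..t, ‖w r - w s‖ ^ 2 / 2 ≤ h * (om ^ 2 / 2) := by
      have e5 : ∫ r in s..t, ‖w r - w s‖ ^ 2 / 2 ≤ ∫ r in s..t, om ^ 2 / 2 := by
        refine intervalIntegral.integral_mono_on hst.le ((hwa.sub_const (w s)).sq_ii s t)
          intervalIntegrable_const ?_
        intro r hr
        have := pow_le_pow_left₀ (norm_nonneg _) (hom r hr) 2
        linarith
      rwa [intervalIntegral.integral_const, smul_eq_mul] at e5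
    have e6 : 0 ≤ ‖I - h • w s‖ ^ 2 / (2 * h) := by positivity
    have e7 : ‖I - h • w s‖ ^ 2 / (2 * h) = ‖I‖ ^ 2 / (2 * h) - inner ℝ (w s) I + h * (‖w s‖ ^ 2 / 2) := by
      rw [norm_sub_sq_real, norm_smul, real_inner_smul_right, real_inner_comm, Real.norm_of_nonneg hh.le]
      field_simp
    linarith
  have hIb : ‖I‖ ≤ V * h := by
    have := intervalIntegral.norm_integral_le_of_norm_le_const (a := s) (b := t) (C := V)
      (f := w) (fun r _ => hV r)
    rwa [abs_of_pos hh] at this
  have hz : IntervalIntegrable (fun r => f z r) volume s t :=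
    (hf.cont.comp (continuous_const.prodMk continuous_id)).intervalIntegrable _ _
  have hpot : ∫ r in s..t, f (traj s z w r) r ≤ (∫ r in s..t, f z r) + h * (M * (V * h)) := by
    have h1 : ∫ r in s..t, f (traj s z w r) r ≤ ∫ r in s..t, (f z r + M * (V * h)) := by
      refine intervalIntegral.integral_mono_on hst.le (f_traj_ii hf hwa s z s t)
        (hz.add intervalIntegrable_const) ?_
      intro r hr
      have h2 := abs_le.mp (hf.lipx (traj s z w r) z r)
      have h3 : ‖traj s z w r - z‖ ≤ V * h := by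
        have e8 : traj s z w r - z = ∫ q in s..r, w q := by simp [traj]
        rw [e8]
        have := intervalIntegral.norm_integral_le_of_norm_le_const (a := s) (b := r) (C := V)
          (f := w) (fun r _ => hV r)
        refine this.trans (mul_le_mul_of_nonneg_left ?_ hV0)
        rw [abs_of_nonneg (by linarith [hr.1])]
        linarith [hr.2]
      have h4 := mul_le_mul_of_nonneg_left h3 hM0
      linarith [h2.2]
    rw [intervalIntegral.integral_add hz intervalIntegrable_const, intervalIntegral.integral_const,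
      smul_eq_mul] at h1
    exact h1
  have hlow : (1 - M * h) * (‖I‖ ^ 2 / (2 * h)) + (∫ r in s..t, f z r) - M * h ^ 2 / 2 ≤
      ker S f 0 s t z (traj s z w t) := by
    refine le_csInf ⟨_, w, hwa, hS, rfl, rfl⟩ ?_
    rintro c ⟨u, hu, _, hut, rfl⟩
    have := o5b_act_lower hf hst hM z hu
    rwa [hut, e0] at this
  have hIsq : M * h * (‖I‖ ^ 2 / (2 * h)) ≤ M * h * (V ^ 2 * h / 2) := by
    refine mul_le_mul_of_nonneg_left ?_ (by positivity)
    rw [div_le_iff₀ (by positivity)]
    have := pow_le_pow_left₀ (norm_nonneg _) hIb 2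
    nlinarith
  have hact : act f 0 s t z w = (∫ r in s..t, ‖w r‖ ^ 2 / 2) + ∫ r in s..t, f (traj s z w r) r := by
    rw [act_eq hf 0 s t z hwa]
    simp
  rw [hact]
  nlinarith [hvar, hpot, hlow, hIsq]

/-- the action of a `C¹` kernel geodesic is the kernel -/
theorem kgeo_act {S : Set E} {rt : E → E} {r0 Cr : ℝ} (hR : Ret S rt r0 Cr) (hc : Conn S) {M : ℝ}
    {f : E → ℝ → ℝ} (hf : Good M f) {a b : ℝ} (hab : a < b) {Z : ℝ → E} (hZ : KGeo S f a b Z) {v : ℝ → E}
    (hv : ContinuousOn v (Icc a b)) (hZv : ∀ s ∈ Icc a b, ∀ t ∈ Icc a b, Z t - Z s = ∫ r in s..t, v r) :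
    ∫ t in a..b, (‖v t‖ ^ 2 / 2 + f (Z t) t) = ker S f 0 a b (Z a) (Z b) := by
  have : CompleteSpace E := FiniteDimensional.complete ℝ E
  have hM0 := hf.pos
  -- continuous extension of `v`
  set w : ℝ → E := fun t => v (projIcc a b hab.le t) with hwdef
  have hw : Continuous w :=
    hv.comp_continuous (continuous_subtype_val.comp continuous_projIcc) (fun t => (projIcc a b hab.le t).2)
  have hwv : ∀ t ∈ Icc a b, w t = v t := by
    intro t ht
    simp only [hwdef, projIcc_of_mem hab.le ht]
  obtain ⟨V, hV'⟩ := (isCompact_Icc (a := a) (b := b)).exists_bound_of_continuousOn hv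
  have hV : ∀ t, ‖w t‖ ≤ V := fun t => hV' _ (projIcc a b hab.le t).2
  have hV0 : 0 ≤ V := (norm_nonneg _).trans (hV 0)
  have hwa : Adm w := ⟨hw.stronglyMeasurable, V, hV⟩
  have ha : a ∈ Icc a b := ⟨le_rfl, hab.le⟩
  have hb : b ∈ Icc a b := ⟨hab.le, le_rfl⟩
  have hint : ∀ s ∈ Icc a b, ∀ t ∈ Icc a b, ∫ r in s..t, w r = Z t - Z s := by
    intro s hs t ht
    rw [hZv s hs t ht]
    refine intervalIntegral.integral_congr fun r hr => hwv r ?_
    exact (uIcc_subset_Icc hs ht) hr
  have htraj : ∀ s ∈ Icc a b, ∀ t ∈ Icc a b, traj s (Z s) w t = Z t := by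
    intro s hs t ht
    simp [traj, hint s hs t ht]
  set L : ℝ → ℝ := fun t => ‖w t‖ ^ 2 / 2 + f (traj a (Z a) w t) t with hLdef
  have hL : Continuous L :=
    ((hw.norm.pow 2).div_const 2).add (hf.cont.comp ((traj_cont hwa a (Z a)).prodMk continuous_id))
  have hact : ∀ s ∈ Icc a b, ∀ t ∈ Icc a b, act f 0 s t (Z s) w = ∫ r in s..t, L r := by
    intro s hs t ht
    unfold act
    refine intervalIntegral.integral_congr fun r hr => ?_
    have hr' : r ∈ Icc a b := (uIcc_subset_Icc hs ht) hr
    simp only [hLdef, htraj s hs r hr', htraj a ha r hr', sub_zero]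
  have hInS : ∀ s ∈ Icc a b, ∀ t ∈ Icc a b, InS S s t (Z s) w := by
    intro s hs t ht r hr
    have hr' : r ∈ Icc a b := ⟨hs.1.trans hr.1, hr.2.trans ht.2⟩
    rw [htraj s hs r hr']
    exact hZ.mem r hr'
  -- the kernel is below the action
  have hle : ∀ s ∈ Icc a b, ∀ t ∈ Icc a b, s < t → ker S f 0 s t (Z s) (Z t) ≤ ∫ r in s..t, L r := by
    intro s hs t ht hst
    rw [← hact s hs t ht]
    exact csInf_le (o5b_bdd hf hst _ _) ⟨w, hwa, hInS s hs t ht, htraj s hs t ht, rfl⟩
  -- additivity
  have hadd : ∀ s ∈ Icc a b, ∀ t ∈ Icc a b, s ≤ t →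
      ker S f 0 a t (Z a) (Z t) = ker S f 0 a s (Z a) (Z s) + ker S f 0 s t (Z s) (Z t) := by
    intro s hs t ht hst
    have h1 := hZ.add s t hs.1 hst ht.2
    have h2 := hZ.add t t ht.1 le_rfl ht.2
    rw [o5b_ker_self f t (hZ.mem t ht)] at h2
    linarith
  set G : ℝ → ℝ := fun t => ker S f 0 a t (Z a) (Z t) - ∫ r in a..t, L r with hGdef
  have hGdiff : ∀ s ∈ Icc a b, ∀ t ∈ Icc a b, s ≤ t →
      G t - G s = ker S f 0 s t (Z s) (Z t) - ∫ r in s..t, L r := by
    intro s hs t ht hst
    have h1 := hadd s hs t ht hst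
    have h2 : (∫ r in a..t, L r) = (∫ r in a..s, L r) + ∫ r in s..t, L r :=
      (intervalIntegral.integral_add_adjacent_intervals (hL.intervalIntegrable _ _)
        (hL.intervalIntegrable _ _)).symm
    simp only [hGdef]
    rw [h1, h2]
    ring
  -- Lipschitz bound
  have hlow : ∀ s ∈ Icc a b, ∀ t ∈ Icc a b, s < t → -(M * (t - s)) ≤ ker S f 0 s t (Z s) (Z t) := by
    intro s hs t ht hst
    refine le_csInf ⟨_, w, hwa, hInS s hs t ht, htraj s hs t ht, rfl⟩ ?_
    rintro c ⟨u, hu, _, hut, rfl⟩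
    have h1 := act_lower hf 0 hst (Z s) hu
    have h2 : 0 ≤ ‖traj s (Z s) u t - Z s - (t - s) • (0 : E)‖ ^ 2 / (2 * (t - s)) := by
      have : 0 < t - s := by linarith
      positivity
    linarith
  have hLb : ∀ t, L t ≤ V ^ 2 / 2 + M := by
    intro t
    have h1 := pow_le_pow_left₀ (norm_nonneg _) (hV t) 2
    have h2 := (abs_le.mp (hf.bd (traj a (Z a) w t) t)).2
    simp only [hLdef]
    linarith
  have hlip : ∀ s ∈ Icc a b, ∀ t ∈ Icc a b, s ≤ t → |G t - G s| ≤ (V ^ 2 / 2 + 2 * M) * (t - s) := by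
    intro s hs t ht hst
    rcases hst.eq_or_lt with rfl | hst'
    · simp
    have h1 := hGdiff s hs t ht hst
    have h2 := hle s hs t ht hst'
    have h3 := hlow s hs t ht hst'
    have h4 : ∫ r in s..t, L r ≤ (V ^ 2 / 2 + M) * (t - s) := by
      have h5 : ∫ r in s..t, L r ≤ ∫ r in s..t, (V ^ 2 / 2 + M) :=
        intervalIntegral.integral_mono_on hst (hL.intervalIntegrable _ _) intervalIntegrable_const
          (fun r _ => hLb r)
      rw [intervalIntegral.integral_const, smul_eq_mul] at h5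
      linarith
    have h6 : 0 ≤ t - s := by linarith
    rw [h1, abs_le]
    constructor
    · linarith
    · have : 0 ≤ (V ^ 2 / 2 + 2 * M) * (t - s) := by positivity
      linarith
  have hGc : ContinuousOn G (Icc a b) := by
    have hK : 0 ≤ V ^ 2 / 2 + 2 * M := by positivity
    refine (LipschitzOnWith.of_dist_le_mul (K := ⟨V ^ 2 / 2 + 2 * M, hK⟩) ?_).continuousOn
    intro s hs t ht
    rw [Real.dist_eq, Real.dist_eq]
    rcases le_total s t with h | h
    · rw [abs_sub_comm (G s), abs_sub_comm s, abs_of_nonneg (by linarith : 0 ≤ t - s)]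
      exact hlip s hs t ht h
    · rw [abs_of_nonneg (by linarith : 0 ≤ s - t)]
      exact hlip t ht s hs h
  have hGd : ∀ x ∈ Ico a b, HasDerivWithinAt G 0 (Ici x) x := by
    intro x hx
    have hxI : x ∈ Icc a b := ⟨hx.1, hx.2.le⟩
    rw [hasDerivWithinAt_iff_isLittleO, Asymptotics.isLittleO_iff]
    intro c hc
    set om := min 1 c with homdef
    have hom0 : 0 < om := lt_min one_pos hc
    have hom1 : om ≤ 1 := min_le_left _ _
    have homc : om ≤ c := min_le_right _ _
    obtain ⟨δ, hδ, hδw⟩ := Metric.continuousAt_iff.mp (hw.continuousAt (x := x)) om hom0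
    set K := M * (V + 1) ^ 2 / 2 with hKdef
    have hK0 : 0 ≤ K := by positivity
    set δ' := min (min δ (b - x)) (min (c / 2 / (K + 1)) (1 / (M + 1))) with hδ'def
    have hδ'0 : 0 < δ' := by
      refine lt_min (lt_min hδ (by linarith [hx.2])) (lt_min (by positivity) (by positivity))
    have hmem : Ico x (x + δ') ∈ 𝓝[Ici x] x := Ico_mem_nhdsGE (by linarith)
    filter_upwards [hmem] with y hy
    rcases hy.1.eq_or_lt with rfl | hxy
    · simp
    have hyx : y - x < δ' := by linarith [hy.2]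
    have hd1 : y - x < δ := hyx.trans_le ((min_le_left _ _).trans (min_le_left _ _))
    have hd2 : y - x < b - x := hyx.trans_le ((min_le_left _ _).trans (min_le_right _ _))
    have hd3 : y - x < c / 2 / (K + 1) := hyx.trans_le ((min_le_right _ _).trans (min_le_left _ _))
    have hd4 : y - x < 1 / (M + 1) := hyx.trans_le ((min_le_right _ _).trans (min_le_right _ _))
    have hyI : y ∈ Icc a b := ⟨hx.1.trans hxy.le, by linarith⟩
    have hyx0 : 0 < y - x := by linarith
    have hM1 : M * (y - x) ≤ 1 := by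
      rw [lt_div_iff₀ (by linarith)] at hd4
      nlinarith
    have hK1 : (y - x) * K ≤ c / 2 := by
      rw [lt_div_iff₀ (by linarith)] at hd3
      nlinarith
    have hosc : ∀ r ∈ Icc x y, ‖w r - w x‖ ≤ om := by
      intro r hr
      have : dist r x < δ := by
        rw [Real.dist_eq, abs_of_nonneg (by linarith [hr.1])]
        linarith [hr.2]
      have := hδw this
      rw [dist_eq_norm] at this
      exact this.le
    have h1 := o5b_short hf hw hV hxy hM1 (hInS x hxI y hyI) hosc
    rw [htraj x hxI y hyI, hact x hxI y hyI, ← hKdef] at h1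
    have h2 := hGdiff x hxI y hyI hxy.le
    have h3 := hle x hxI y hyI hxy
    have h4 : om ^ 2 ≤ c := by nlinarith
    have h5 : om ^ 2 / 2 + (y - x) * K ≤ c := by linarith
    have h6 : (y - x) * (om ^ 2 / 2 + (y - x) * K) ≤ c * (y - x) := by
      rw [mul_comm c]
      exact mul_le_mul_of_nonneg_left h5 hyx0.le
    rw [smul_zero, sub_zero, Real.norm_eq_abs, Real.norm_eq_abs, abs_of_pos hyx0, h2, abs_le]
    constructor
    · linarith
    · have : 0 ≤ c * (y - x) := by positivity
      linarith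
  have hG := constant_of_has_deriv_right_zero hGc hGd b hb
  have hGa : G a = 0 := by
    simp only [hGdef, intervalIntegral.integral_same, o5b_ker_self f a (hZ.mem a ha), sub_zero]
  rw [hGa] at hG
  have h1 : ker S f 0 a b (Z a) (Z b) = ∫ r in a..b, L r := by
    simp only [hGdef] at hG
    linarith
  rw [h1]
  refine intervalIntegral.integral_congr fun r hr => ?_
  rw [uIcc_of_le hab.le] at hr
  simp only [hLdef, htraj a ha r hr, hwv r hr]

end O5

end EscN
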