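import Pool.Agent.EscN.O1
import Pool.Agent.EscN.ODefs
import Pool.Agent.EscN.O5a
import Pool.Agent.EscN.O5b
import Pool.Agent.helper42.Esc.K

/-!
Module O5c of project ESCN: Euler-Lagrange equation of a kernel geodesic in integral form.
-/

noncomputable section

namespace EscN

open MeasureTheory Set Filter Topology Esc
open scoped ContDiff

variable {E : Type*} [NormedAddCommGroup E] [InnerProductSpace ℝ E] [FiniteDimensional ℝ E]

namespace O5c

/-- derivative under the integral sign, jointly continuous data -/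
lemma deriv_int {F F' : ℝ → ℝ → ℝ} {a b : ℝ} (hab : a ≤ b) (hF : Continuous fun q : ℝ × ℝ => F q.1 q.2)
    (hF' : Continuous fun q : ℝ × ℝ => F' q.1 q.2) (hd : ∀ ε t, HasDerivAt (fun e => F e t) (F' ε t) ε) :
    HasDerivAt (fun e => ∫ t in a..b, F e t) (∫ t in a..b, F' 0 t) 0 := by
  obtain ⟨C, hC⟩ := (isCompact_Icc (a := (-1:ℝ)) (b := 1)).prod (isCompact_Icc (a := a) (b := b))
    |>.exists_bound_of_continuousOn hF'.continuousOn
  refine (intervalIntegral.hasDerivAt_integral_of_dominated_loc_of_deriv_le (F := F) (F' := F')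
    (s := Ioo (-1) 1) (bound := fun _ => C) (Ioo_mem_nhds (by norm_num) (by norm_num))
    (Eventually.of_forall fun x => ?_) ?_ ?_ ?_ intervalIntegrable_const ?_).2
  · exact (hF.comp (continuous_const.prodMk continuous_id)).aestronglyMeasurable
  · exact (hF.comp (continuous_const.prodMk continuous_id)).intervalIntegrable _ _
  · exact (hF'.comp (continuous_const.prodMk continuous_id)).aestronglyMeasurable
  · refine Eventually.of_forall fun t ht x hx => ?_
    rw [uIoc_of_le hab] at ht
    exact hC (x, t) ⟨⟨hx.1.le, hx.2.le⟩, ⟨ht.1.le, ht.2⟩⟩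
  · exact Eventually.of_forall fun t _ x _ => hd x t

lemma fderiv_slice_cont {f : E → ℝ → ℝ} (hf : ContDiff ℝ 2 (fun p : E × ℝ => f p.1 p.2)) :
    Continuous (fun q : E × ℝ => fderiv ℝ (fun z => f z q.2) q.1) := by
  have h1 : ∀ q : E × ℝ, fderiv ℝ (fun z => f z q.2) q.1 =
      (fderiv ℝ (fun p : E × ℝ => f p.1 p.2) q).comp (ContinuousLinearMap.inl ℝ E ℝ) := by
    intro q
    have h2 : HasFDerivAt (fun p : E × ℝ => f p.1 p.2) (fderiv ℝ (fun p : E × ℝ => f p.1 p.2) q) q :=
      (hf.differentiable (by norm_num) q).hasFDerivAt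
    have h3 : HasFDerivAt (fun z : E => (z, q.2)) (ContinuousLinearMap.inl ℝ E ℝ) q.1 :=
      (hasFDerivAt_id q.1).prodMk (hasFDerivAt_const q.2 q.1)
    exact (HasFDerivAt.comp (x := q.1) (g := fun p : E × ℝ => f p.1 p.2) (f := fun z : E => (z, q.2))
      (by exact h2) h3).fderiv
  have h4 : (fun q : E × ℝ => fderiv ℝ (fun z => f z q.2) q.1) = fun q =>
      (fderiv ℝ (fun p : E × ℝ => f p.1 p.2) q).comp (ContinuousLinearMap.inl ℝ E ℝ) := funext h1
  rw [h4]
  exact (hf.continuous_fderiv (by norm_num)).clm_comp continuous_const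

lemma slice_diff {f : E → ℝ → ℝ} (hf : ContDiff ℝ 2 (fun p : E × ℝ => f p.1 p.2)) (x : E) (t : ℝ) :
    HasFDerivAt (fun z => f z t) (fderiv ℝ (fun z => f z t) x) x := by
  have h2 : DifferentiableAt ℝ (fun p : E × ℝ => f p.1 p.2) (x, t) := hf.differentiable (by norm_num) _
  have h3 : DifferentiableAt ℝ (fun z : E => (z, t)) x :=
    differentiableAt_id.prodMk (differentiableAt_const t)
  exact (DifferentiableAt.comp (x := x) (g := fun p : E × ℝ => f p.1 p.2) (f := fun z : E => (z, t))
    h2 h3).hasFDerivAt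

lemma traj_cont {u : ℝ → E} (hu : Continuous u) (a : ℝ) (z : E) : Continuous (traj a z u) :=
  continuous_const.add (intervalIntegral.continuous_primitive (fun x y => hu.intervalIntegrable x y) a)

lemma traj_deriv {u : ℝ → E} (hu : Continuous u) (a : ℝ) (z : E) (t : ℝ) :
    HasDerivAt (traj a z u) (u t) t :=
  (intervalIntegral.integral_hasDerivAt_right (hu.intervalIntegrable _ _)
    hu.stronglyMeasurable.stronglyMeasurableAtFilter hu.continuousAt).const_add z

/-- first variation of the action of the varied curve -/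
lemma first_var {rt : E → E} (hrt : ContDiff ℝ ∞ rt) {f : E → ℝ → ℝ}
    (hf : ContDiff ℝ 2 (fun p : E × ℝ => f p.1 p.2)) {X V η w : ℝ → E} (hX : Continuous X)
    (hV : Continuous V) (hη : Continuous η) (hw : Continuous w) {a b : ℝ} (hab : a ≤ b) :
    HasDerivAt (fun ε : ℝ => ∫ t in a..b, (‖fderiv ℝ rt (X t + ε • η t) (V t + ε • w t)‖ ^ 2 / 2 +
        f (rt (X t + ε • η t)) t))
      (∫ t in a..b, (inner ℝ (fderiv ℝ rt (X t) (V t)) (fderiv ℝ (fderiv ℝ rt) (X t) (η t) (V t) +
        fderiv ℝ rt (X t) (w t)) + fderiv ℝ (fun z => f z t) (rt (X t)) (fderiv ℝ rt (X t) (η t)))) 0 := by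
  have hrt2 : ContDiff ℝ 2 rt := by exact_mod_cast contDiff_infty.1 hrt 2
  have hrt1 : ContDiff ℝ 1 (fderiv ℝ rt) := hrt2.fderiv_right (by norm_num)
  have hD : ∀ x, HasFDerivAt rt (fderiv ℝ rt x) x := fun x =>
    (hrt.differentiable (by norm_num) x).hasFDerivAt
  have hD2 : ∀ x, HasFDerivAt (fderiv ℝ rt) (fderiv ℝ (fderiv ℝ rt) x) x := fun x =>
    (hrt1.differentiable (by norm_num) x).hasFDerivAt
  have hDc : Continuous (fderiv ℝ rt) := hrt1.continuous
  have hD2c : Continuous (fderiv ℝ (fderiv ℝ rt)) := hrt1.continuous_fderiv (by norm_num)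
  have hfs := fderiv_slice_cont hf
  have hXe : Continuous fun q : ℝ × ℝ => X q.2 + q.1 • η q.2 :=
    (hX.comp continuous_snd).add (continuous_fst.smul (hη.comp continuous_snd))
  have hVe : Continuous fun q : ℝ × ℝ => V q.2 + q.1 • w q.2 :=
    (hV.comp continuous_snd).add (continuous_fst.smul (hw.comp continuous_snd))
  have hAc : Continuous fun q : ℝ × ℝ => fderiv ℝ rt (X q.2 + q.1 • η q.2) (V q.2 + q.1 • w q.2) :=
    (hDc.comp hXe).clm_apply hVe
  have key := deriv_int (F := fun ε t => ‖fderiv ℝ rt (X t + ε • η t) (V t + ε • w t)‖ ^ 2 / 2 +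
      f (rt (X t + ε • η t)) t)
    (F' := fun ε t => inner ℝ (fderiv ℝ rt (X t + ε • η t) (V t + ε • w t))
      (fderiv ℝ (fderiv ℝ rt) (X t + ε • η t) (η t) (V t + ε • w t) + fderiv ℝ rt (X t + ε • η t) (w t)) +
      fderiv ℝ (fun z => f z t) (rt (X t + ε • η t)) (fderiv ℝ rt (X t + ε • η t) (η t))) hab
    (by
      have h1 : Continuous fun q : ℝ × ℝ => f (rt (X q.2 + q.1 • η q.2)) q.2 :=
        hf.continuous.comp ((hrt.continuous.comp hXe).prodMk continuous_snd)
      exact ((hAc.norm.pow 2).div_const 2).add h1)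
    (by
      have h1 : Continuous fun q : ℝ × ℝ => fderiv ℝ (fderiv ℝ rt) (X q.2 + q.1 • η q.2) (η q.2)
          (V q.2 + q.1 • w q.2) := ((hD2c.comp hXe).clm_apply (hη.comp continuous_snd)).clm_apply hVe
      have h2 : Continuous fun q : ℝ × ℝ => fderiv ℝ rt (X q.2 + q.1 • η q.2) (w q.2) :=
        (hDc.comp hXe).clm_apply (hw.comp continuous_snd)
      have h3 : Continuous fun q : ℝ × ℝ => fderiv ℝ (fun z => f z q.2) (rt (X q.2 + q.1 • η q.2)) :=
        hfs.comp ((hrt.continuous.comp hXe).prodMk continuous_snd)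
      have h4 : Continuous fun q : ℝ × ℝ => fderiv ℝ rt (X q.2 + q.1 • η q.2) (η q.2) :=
        (hDc.comp hXe).clm_apply (hη.comp continuous_snd)
      exact (hAc.inner (h1.add h2)).add (h3.clm_apply h4))
    (by
      intro ε t
      have h1 : HasDerivAt (fun e : ℝ => X t + e • η t) (η t) ε := by
        have := ((hasDerivAt_id ε).smul_const (η t)).const_add (X t)
        simpa using this
      have h2 : HasDerivAt (fun e : ℝ => V t + e • w t) (w t) ε := by
        have := ((hasDerivAt_id ε).smul_const (w t)).const_add (V t)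
        simpa using this
      have h3 : HasDerivAt (fun e : ℝ => fderiv ℝ rt (X t + e • η t))
          (fderiv ℝ (fderiv ℝ rt) (X t + ε • η t) (η t)) ε :=
        (hD2 _).comp_hasDerivAt ε h1
      have h4 := h3.clm_apply h2
      have h5 : HasDerivAt (fun e : ℝ => rt (X t + e • η t)) (fderiv ℝ rt (X t + ε • η t) (η t)) ε :=
        (hD _).comp_hasDerivAt ε h1
      have h6 : HasDerivAt (fun e : ℝ => f (rt (X t + e • η t)) t)
          (fderiv ℝ (fun z => f z t) (rt (X t + ε • η t)) (fderiv ℝ rt (X t + ε • η t) (η t))) ε :=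
        (slice_diff hf _ t).comp_hasDerivAt ε h5
      have h7 := (h4.norm_sq.div_const 2).fun_add h6
      refine h7.congr_deriv ?_
      ring)
  simpa only [zero_smul, add_zero] using key

end O5c

open O5c in
/-- Euler-Lagrange equation in integral form -/
theorem kgeo_el {S : Set E} {rt : E → E} {r0 Cr : ℝ} (hR : Ret S rt r0 Cr) (hc : Conn S) {M : ℝ}
    {f : E → ℝ → ℝ} (hf : Good M f) (hf2 : ContDiff ℝ 2 (fun p : E × ℝ => f p.1 p.2)) {a b : ℝ} (hab : a < b)
    {Z : ℝ → E} (hZ : KGeo S f a b Z) {v : ℝ → E} (hv : ContinuousOn v (Icc a b))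
    (hZv : ∀ s ∈ Icc a b, ∀ t ∈ Icc a b, Z t - Z s = ∫ r in s..t, v r) :
    ∀ s ∈ Icc a b, ∀ t ∈ Icc a b, v t - v s = ∫ r in s..t, force rt f (Z r) (v r) r := by
  have haI : a ∈ Icc a b := left_mem_Icc.2 hab.le
  have hbI : b ∈ Icc a b := right_mem_Icc.2 hab.le
  -- projection to the interval
  set π : ℝ → ℝ := fun t => (projIcc a b hab.le t : ℝ) with hπ
  have hπc : Continuous π := continuous_subtype_val.comp continuous_projIcc
  have hπm : ∀ t, π t ∈ Icc a b := fun t => (projIcc a b hab.le t).2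
  have hπe : ∀ t ∈ Icc a b, π t = t := fun t ht => by
    rw [hπ]; simp only [projIcc_of_mem hab.le ht]
  -- the extended velocity
  set V : ℝ → E := fun t => v (π t) with hV
  have hVc : Continuous V := hv.comp_continuous hπc hπm
  have hVe : ∀ t ∈ Icc a b, V t = v t := fun t ht => by rw [hV]; simp only [hπe t ht]
  have hVA : Adm V := by
    refine ⟨hVc.stronglyMeasurable, ?_⟩
    obtain ⟨C, hC⟩ := (isCompact_Icc (a := a) (b := b)).exists_bound_of_continuousOn hv
    exact ⟨C, fun t => hC _ (hπm t)⟩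
  set X : ℝ → E := traj a (Z a) V with hX
  have hXc : Continuous X := traj_cont hVc a _
  have hcongr : ∀ s ∈ Icc a b, ∀ t ∈ Icc a b, ∫ r in s..t, V r = ∫ r in s..t, v r := by
    intro s hs t ht
    refine intervalIntegral.integral_congr fun r hr => hVe r ?_
    exact uIcc_subset_Icc hs ht hr
  have hXe : ∀ t ∈ Icc a b, X t = Z t := by
    intro t ht
    show Z a + ∫ r in a..t, V r = Z t
    rw [hcongr a haI t ht, ← hZv a haI t ht]
    abel
  have hXS : InS S a b (Z a) V := fun t ht => by
    show X t ∈ S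
    rw [hXe t ht]; exact hZ.mem t ht
  set G : ℝ → E := fun t => force rt f (X t) (V t) t with hG
  have hGc : Continuous G := (force_cont hR.smooth hf2).comp (hXc.prodMk (hVc.prodMk continuous_id))
  set Γ : ℝ → E := traj a 0 G with hΓ
  have hΓc : Continuous Γ := traj_cont hGc a _
  -- the test function
  set c : E := (b - a)⁻¹ • ∫ t in a..b, (V t - Γ t) with hcdef
  set w : ℝ → E := fun t => V (π t) - Γ (π t) - c with hw
  have hwc : Continuous w := ((hVc.comp hπc).sub (hΓc.comp hπc)).sub continuous_const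
  have hwe : ∀ t ∈ Icc a b, w t = V t - Γ t - c := fun t ht => by rw [hw]; simp only [hπe t ht]
  have hwA : Adm w := by
    refine ⟨hwc.stronglyMeasurable, ?_⟩
    have hcc : ContinuousOn (fun t => V t - Γ t - c) (Icc a b) :=
      ((hVc.sub hΓc).sub continuous_const).continuousOn
    obtain ⟨C, hC⟩ := (isCompact_Icc (a := a) (b := b)).exists_bound_of_continuousOn hcc
    exact ⟨C, fun t => hC _ (hπm t)⟩
  set η : ℝ → E := traj a 0 w with hη
  have hηc : Continuous η := traj_cont hwc a _
  have hηa : η a = 0 := by show (0:E) + ∫ r in a..a, w r = 0; simp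
  have hw0 : ∫ t in a..b, w t = 0 := by
    have h1 : ∫ t in a..b, w t = ∫ t in a..b, (V t - Γ t - c) := by
      refine intervalIntegral.integral_congr fun t ht => hwe t ?_
      rwa [uIcc_of_le hab.le] at ht
    have h2 : Continuous fun t => V t - Γ t := hVc.sub hΓc
    have hba : b - a ≠ 0 := by linarith
    rw [h1, intervalIntegral.integral_sub (f := fun t => V t - Γ t) (h2.intervalIntegrable _ _)
      intervalIntegrable_const, intervalIntegral.integral_const, hcdef, smul_smul,
      mul_inv_cancel₀ hba, one_smul, sub_self]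
  have hηb : η b = 0 := by show (0:E) + ∫ r in a..b, w r = 0; rw [hw0, add_zero]
  -- the varied action
  set Φ : ℝ → ℝ := fun ε => ∫ t in a..b, (‖fderiv ℝ rt (X t + ε • η t) (V t + ε • w t)‖ ^ 2 / 2 +
        f (rt (X t + ε • η t)) t) with hΦ
  have hder := first_var hR.smooth hf2 hXc hVc hηc hwc hab.le
  have htr : ∀ (ε t : ℝ), traj a 0 (fun s => ε • w s) t = ε • η t := by
    intro ε t
    show (0:E) + ∫ s in a..t, ε • w s = ε • ((0:E) + ∫ s in a..t, w s)
    rw [zero_add, zero_add, intervalIntegral.integral_smul]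
  have hwεA : ∀ ε : ℝ, Adm fun s => ε • w s := by
    intro ε
    obtain ⟨h1, C, hC⟩ := hwA
    refine ⟨h1.const_smul ε, |ε| * C, fun t => ?_⟩
    rw [norm_smul, Real.norm_eq_abs]
    exact mul_le_mul_of_nonneg_left (hC t) (abs_nonneg _)
  have hvt : ∀ ε t : ℝ, traj a (Z a) (vc rt a (Z a) V 0 fun s => ε • w s) t = rt (X t + ε • η t) := by
    intro ε t
    have h1 := vc_traj hR hVA (hwεA ε) a (Z a) 0 t
    rw [add_zero, hR.id _ (hZ.mem a haI), htr] at h1
    exact h1
  have hΦact : ∀ ε : ℝ, Φ ε = act f 0 a b (Z a) (vc rt a (Z a) V 0 fun s => ε • w s) := by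
    intro ε
    show (∫ t in a..b, _) = ∫ t in a..b, _
    refine intervalIntegral.integral_congr fun t _ => ?_
    simp only [hvt, sub_zero]
    simp only [vc, htr]
    rfl
  have hIocm : ∀ t ∈ Ioc a b, t ∈ Icc a b := fun t ht => ⟨ht.1.le, ht.2⟩
  have htan : ∀ᵐ t, t ∈ Icc a b → fderiv ℝ rt (X t) (V t) = V t := tangent_ae hR hVA hXS
  have hΦ0 : Φ 0 = ker S f 0 a b (Z a) (Z b) := by
    rw [← kgeo_act hR hc hf hab hZ hv hZv]
    refine intervalIntegral.integral_congr_ae ?_
    filter_upwards [htan] with t ht htI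
    rw [uIoc_of_le hab.le] at htI
    have htI' := hIocm t htI
    simp only [zero_smul, add_zero]
    rw [ht htI', hVe t htI', hXe t htI', hR.id _ (hZ.mem t htI')]
  obtain ⟨Cη, hCη⟩ := (isCompact_Icc (a := a) (b := b)).exists_bound_of_continuousOn hηc.continuousOn
  have hmin : IsLocalMin Φ 0 := by
    have hsm : ∀ᶠ ε : ℝ in 𝓝 0, |ε| * Cη ≤ r0 := by
      have hc0 : Continuous fun ε : ℝ => |ε| * Cη := continuous_abs.mul continuous_const
      have h1 : Tendsto (fun ε : ℝ => |ε| * Cη) (𝓝 0) (𝓝 0) := by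
        have := hc0.tendsto 0
        simpa using this
      exact (h1.eventually (gt_mem_nhds hR.r0_pos)).mono fun ε h => h.le
    filter_upwards [hsm] with ε hε
    rw [hΦ0, hΦact]
    refine csInf_le ⟨-(M * (b - a)), ?_⟩ ⟨_, vc_adm hR hVA (hwεA ε) a (Z a) 0, ?_, ?_, rfl⟩
    · rintro _ ⟨u, hu, _, _, rfl⟩
      have h1 := energy_le_act hf 0 hab.le (Z a) hu
      have h2 : 0 ≤ ∫ t in a..b, ‖u t - 0‖ ^ 2 / 2 :=
        intervalIntegral.integral_nonneg hab.le fun t _ => by positivity
      linarith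
    · intro t ht
      rw [hvt, hXe t ht]
      refine hR.mem _ (hZ.mem t ht) _ ?_
      rw [norm_smul, Real.norm_eq_abs]
      exact (mul_le_mul_of_nonneg_left (hCη t ht) (abs_nonneg _)).trans hε
    · rw [hvt, hηb, smul_zero, add_zero, hXe b hbI, hR.id _ (hZ.mem b hbI)]
  have hΦ' := hmin.hasDerivAt_eq_zero hder
  -- the derivative is the weak form of the equation
  have hweak : ∫ t in a..b, (inner ℝ (G t) (η t) + inner ℝ (V t) (w t)) = 0 := by
    rw [← hΦ']
    refine intervalIntegral.integral_congr_ae ?_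
    filter_upwards [htan] with t ht htI
    rw [uIoc_of_le hab.le] at htI
    have htI' := hIocm t htI
    have hXt : rt (X t) = X t := by rw [hXe t htI']; exact hR.id _ (hZ.mem t htI')
    have hXtS : X t ∈ S := hXS t htI'
    have hsym : inner ℝ (V t) (fderiv ℝ rt (X t) (w t)) = inner ℝ (V t) (w t) := by
      rw [← hR.sym _ hXtS, ht htI']
    rw [ht htI', hXt, inner_add_right, hsym]
    simp only [hG, force]
    rw [InnerProductSpace.toDual_symm_apply]
    simp only [add_apply, ContinuousLinearMap.comp_apply,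
      ContinuousLinearMap.flip_apply, innerSL_apply_apply]
    ring
  have hparts : ∫ t in a..b, (inner ℝ (G t) (η t) + inner ℝ (Γ t) (w t)) = 0 := by
    have h1 : ∀ t ∈ uIcc a b, HasDerivAt (fun s => (inner ℝ (Γ s) (η s) : ℝ))
        (inner ℝ (G t) (η t) + inner ℝ (Γ t) (w t)) t := by
      intro t _
      have := (traj_deriv hGc a 0 t).inner ℝ (traj_deriv hwc a 0 t)
      refine this.congr_deriv ?_
      ring
    have hci : Continuous fun t => (inner ℝ (G t) (η t) : ℝ) + inner ℝ (Γ t) (w t) :=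
      (hGc.inner hηc).add (hΓc.inner hwc)
    rw [intervalIntegral.integral_eq_sub_of_hasDerivAt h1 (hci.intervalIntegrable _ _), hηa, hηb]
    simp
  have hVΓ : ∫ t in a..b, (inner ℝ (V t - Γ t) (w t) : ℝ) = 0 := by
    have hci1 : Continuous fun t => (inner ℝ (G t) (η t) : ℝ) + inner ℝ (V t) (w t) :=
      (hGc.inner hηc).add (hVc.inner hwc)
    have hci2 : Continuous fun t => (inner ℝ (G t) (η t) : ℝ) + inner ℝ (Γ t) (w t) :=
      (hGc.inner hηc).add (hΓc.inner hwc)
    have h1 : ∫ t in a..b, ((inner ℝ (G t) (η t) + inner ℝ (V t) (w t)) -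
        (inner ℝ (G t) (η t) + inner ℝ (Γ t) (w t)) : ℝ) = 0 := by
      rw [intervalIntegral.integral_sub (hci1.intervalIntegrable _ _) (hci2.intervalIntegrable _ _),
        hweak, hparts, sub_zero]
    rw [← h1]
    refine intervalIntegral.integral_congr fun t _ => ?_
    simp only [inner_sub_left]
    ring
  have hc0 : ∫ t in a..b, (inner ℝ c (w t) : ℝ) = 0 := by
    have h1 := (innerSL ℝ c).intervalIntegral_comp_comm (hwc.intervalIntegrable (μ := volume) a b)
    simp only [innerSL_apply_apply] at h1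
    rw [h1, hw0, inner_zero_right]
  have hww : ∫ t in a..b, ‖w t‖ ^ 2 = 0 := by
    have hci1 : Continuous fun t => (inner ℝ (V t - Γ t) (w t) : ℝ) := (hVc.sub hΓc).inner hwc
    have hci2 : Continuous fun t => (inner ℝ c (w t) : ℝ) := continuous_const.inner hwc
    have h1 : ∫ t in a..b, ((inner ℝ (V t - Γ t) (w t) : ℝ) - inner ℝ c (w t)) = 0 := by
      rw [intervalIntegral.integral_sub (hci1.intervalIntegrable _ _) (hci2.intervalIntegrable _ _),
        hVΓ, hc0, sub_zero]
    rw [← h1]
    refine intervalIntegral.integral_congr fun t ht => ?_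
    rw [uIcc_of_le hab.le] at ht
    rw [← inner_sub_left, ← hwe t ht, real_inner_self_eq_norm_sq]
  have hwz : ∀ t ∈ Icc a b, w t = 0 := by
    intro t ht
    by_contra hne
    have hpos := intervalIntegral.integral_pos hab (f := fun t => ‖w t‖ ^ 2)
      (hwc.norm.pow 2).continuousOn (fun s _ => by positivity) ⟨t, ht, by
        have : 0 < ‖w t‖ := norm_pos_iff.2 hne
        positivity⟩
    rw [hww] at hpos
    exact lt_irrefl _ hpos
  have hVe2 : ∀ t ∈ Icc a b, v t = Γ t + c := by
    intro t ht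
    have h1 := hwz t ht
    rw [hwe t ht, hVe t ht] at h1
    rw [← sub_eq_zero]
    rw [← h1]
    abel
  intro s hs t ht
  rw [hVe2 t ht, hVe2 s hs]
  have h1 : Γ t + c - (Γ s + c) = ∫ r in s..t, G r := by
    show (0:E) + (∫ r in a..t, G r) + c - ((0:E) + (∫ r in a..s, G r) + c) = _
    rw [← intervalIntegral.integral_interval_sub_left (hGc.intervalIntegrable a t)
      (hGc.intervalIntegrable a s)]
    abel
  rw [h1]
  refine intervalIntegral.integral_congr fun r hr => ?_
  have hrI := uIcc_subset_Icc hs ht hr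
  simp only [hG]
  rw [hXe r hrI, hVe r hrI]

end EscN
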