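import Pool.Agent.EscN.ODefs
import Pool.Agent.EscN.O3
import Pool.Agent.EscN.O4
import Pool.Agent.EscN.O5a
import Pool.Agent.EscN.O5b
import Pool.Agent.EscN.O5c
import Pool.Agent.helper42.Esc.K

/-!
Module O6 of project ESCN (MP_6acca1_an): an orbit from a sitewise locally minimal sequence.
-/

noncomputable section

namespace EscN

open MeasureTheory Set Filter Topology Esc
open scoped ContDiff

variable {E : Type*} [NormedAddCommGroup E] [InnerProductSpace ℝ E] [FiniteDimensional ℝ E]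

set_option linter.unusedSectionVars false

namespace O6

/-! ### elementary facts about the kernel -/

omit [FiniteDimensional ℝ E] in
lemma ker_self (S : Set E) (f : E → ℝ → ℝ) (v : E) (a : ℝ) (z z' : E) :
    EscN.ker S f v a a z z' = 0 := by
  have h : {c | ∃ u : ℝ → E, Adm u ∧ InS S a a z u ∧ traj a z u a = z' ∧ c = act f v a a z u} ⊆
      {0} := by
    rintro c ⟨u, -, -, -, rfl⟩
    simp [act]
  unfold EscN.ker
  rcases Set.subset_singleton_iff_eq.1 h with h | h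
  · rw [h]; simp
  · rw [h]; simp

lemma ker_le_act {S : Set E} {M : ℝ} {f : E → ℝ → ℝ} (hf : Good M f) (v : E) {a b : ℝ}
    (hab : a < b) {z z' : E} {u : ℝ → E} (hu : Adm u) (hS : InS S a b z u) (he : traj a z u b = z') :
    EscN.ker S f v a b z z' ≤ act f v a b z u :=
  csInf_le ((Esc.act_bddBelow hf v hab z z').mono
    (by rintro c ⟨u, hu, -, h, e⟩; exact ⟨u, hu, h, e⟩)) ⟨u, hu, hS, he, rfl⟩

omit [FiniteDimensional ℝ E] in
lemma exists_act_lt {S : Set E} (hc : Conn S) (f : E → ℝ → ℝ) (v : E) {a b : ℝ}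
    (hab : a < b) {z z' : E} (hz : z ∈ S) (hz' : z' ∈ S) {ε : ℝ} (hε : 0 < ε) :
    ∃ u, Adm u ∧ InS S a b z u ∧ traj a z u b = z' ∧
      act f v a b z u < EscN.ker S f v a b z z' + ε := by
  obtain ⟨u, h1, h2, h3⟩ := hc a b hab z hz z' hz'
  obtain ⟨_, ⟨u, hu, hS, hz, rfl⟩, h⟩ := Real.lt_sInf_add_pos
    (s := {c | ∃ u : ℝ → E, Adm u ∧ InS S a b z u ∧ traj a z u b = z' ∧ c = act f v a b z u})
    ⟨_, u, h1, h2, h3, rfl⟩ hε
  exact ⟨u, hu, hS, hz, h⟩

lemma ker_le_ker_add {S : Set E} (hc : Conn S) {M : ℝ} {f : E → ℝ → ℝ} (hf : Good M f) (v : E)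
    {a b c : ℝ} (hab : a < b) (hbc : b < c) {z w z' : E} (hz : z ∈ S) (hw : w ∈ S) (hz' : z' ∈ S) :
    EscN.ker S f v a c z z' ≤ EscN.ker S f v a b z w + EscN.ker S f v b c w z' := by
  apply le_of_forall_pos_le_add
  intro ε hε
  obtain ⟨u₁, h₁, s₁, e₁, l₁⟩ := exists_act_lt hc f v hab hz hw (half_pos hε)
  obtain ⟨u₂, h₂, s₂, e₂, l₂⟩ := exists_act_lt hc f v hbc hw hz' (half_pos hε)
  have hS : InS S a c z (Esc.cat b u₁ u₂) := by
    intro t ht
    rcases le_total t b with htb | htb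
    · rw [traj_cat_left hab.le htb]
      exact s₁ t ⟨ht.1, htb⟩
    · rw [traj_cat_right h₁ h₂ hab.le htb, e₁]
      exact s₂ t ⟨htb, ht.2⟩
  have h3 := ker_le_act hf v (hab.trans hbc) (z := z) (z' := z') (h₁.cat h₂ b) hS
    (by rw [traj_cat_right h₁ h₂ hab.le hbc.le, e₁, e₂])
  rw [act_cat hf v hab.le hbc.le z h₁ h₂, e₁] at h3
  linarith

lemma ker_time {S : Set E} {f : E → ℝ → ℝ} (h : ∀ x t, f x (t + 1) = f x t) (v : E) (a b : ℝ)
    (z z' : E) : EscN.ker S f v (a + 1) (b + 1) z z' = EscN.ker S f v a b z z' := by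
  unfold EscN.ker
  congr 1
  ext c
  constructor
  · rintro ⟨u, hu, hS, h1, h2⟩
    refine ⟨fun s => u (s + 1), hu.comp_add 1, ?_, ?_, ?_⟩
    · intro t ht
      rw [traj_comp_add]
      exact hS (t + 1) ⟨by linarith [ht.1], by linarith [ht.2]⟩
    · rw [traj_comp_add, h1]
    · rw [h2, ← act_comp_add h]
  · rintro ⟨u, hu, hS, h1, h2⟩
    have hu' : (fun s => (fun r => u (r + -1)) (s + 1)) = u := by ext s; simp
    refine ⟨fun s => u (s + -1), hu.comp_add (-1), ?_, ?_, ?_⟩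
    · intro t ht
      have h3 := traj_comp_add (u := fun r => u (r + -1)) a 1 z (t - 1)
      rw [hu', sub_add_cancel] at h3
      rw [← h3]
      exact hS (t - 1) ⟨by linarith [ht.1], by linarith [ht.2]⟩
    · rw [← traj_comp_add (u := fun r => u (r + -1)) a 1 z b, hu', h1]
    · rw [← act_comp_add h, hu', h2]

lemma ker_nat {S : Set E} {f : E → ℝ → ℝ} (h : ∀ x t, f x (t + 1) = f x t) (j : ℕ) (z z' : E) :
    EscN.ker S f 0 (j : ℝ) ((j : ℝ) + 1) z z' = EscN.ker S f 0 0 1 z z' := by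
  induction j with
  | zero => simp
  | succ j ih =>
    rw [← ih, ← ker_time h 0 (j : ℝ) ((j : ℝ) + 1) z z']
    push_cast
    rfl

/-! ### clamped velocities -/

/-- clamp to `[a,b]` -/
def cl (a b : ℝ) (v : ℝ → E) : ℝ → E := fun t => v (max a (min b t))

omit [FiniteDimensional ℝ E] [InnerProductSpace ℝ E] in
lemma cl_mem {a b : ℝ} (hab : a ≤ b) (t : ℝ) : max a (min b t) ∈ Icc a b :=
  ⟨le_max_left _ _, max_le hab (min_le_left _ _)⟩

omit [FiniteDimensional ℝ E] [InnerProductSpace ℝ E] in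
lemma cl_eq {a b : ℝ} {v : ℝ → E} {t : ℝ} (ht : t ∈ Icc a b) : cl a b v t = v t := by
  unfold cl
  rw [min_eq_right ht.2, max_eq_right ht.1]

omit [FiniteDimensional ℝ E] [InnerProductSpace ℝ E] in
lemma cl_cont {a b : ℝ} (hab : a ≤ b) {v : ℝ → E} (hv : ContinuousOn v (Icc a b)) :
    Continuous (cl a b v) :=
  hv.comp_continuous (by fun_prop) (fun t => cl_mem hab t)

omit [FiniteDimensional ℝ E] [InnerProductSpace ℝ E] in
lemma lip_cont {a b C : ℝ} {v : ℝ → E}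
    (hv : ∀ s ∈ Icc a b, ∀ t ∈ Icc a b, ‖v t - v s‖ ≤ C * |t - s|) : ContinuousOn v (Icc a b) := by
  have h : LipschitzOnWith (Real.toNNReal C) v (Icc a b) := by
    apply LipschitzOnWith.of_dist_le_mul
    intro t ht s hs
    rw [dist_eq_norm, Real.dist_eq]
    refine (hv s hs t ht).trans ?_
    exact mul_le_mul_of_nonneg_right (Real.le_coe_toNNReal C) (abs_nonneg _)
  exact h.continuousOn

/-- the kernel along a curve with bounded velocity -/
lemma ker_curve {S : Set E} {M : ℝ} {f : E → ℝ → ℝ} (hf : Good M f) {a b : ℝ} {X v : ℝ → E}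
    (hX : ∀ t ∈ Icc a b, X t ∈ S) (hv : ContinuousOn v (Icc a b)) {B : ℝ}
    (hB : ∀ t ∈ Icc a b, ‖v t‖ ≤ B) (hXv : ∀ s ∈ Icc a b, ∀ t ∈ Icc a b, X t - X s = ∫ r in s..t, v r)
    {s t : ℝ} (has : a ≤ s) (hst : s < t) (htb : t ≤ b) :
    En S f M s t (X s) (X t) ≤ (B ^ 2 + 4 * M) * (t - s) := by
  have hab : a ≤ b := by linarith
  have hu : Continuous (cl a b v) := cl_cont hab hv
  have huB : ∀ r, ‖cl a b v r‖ ≤ B := fun r => hB _ (cl_mem hab r)
  have hB0 : 0 ≤ B := (norm_nonneg _).trans (hB a ⟨le_refl _, hab⟩)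
  have hadm : Adm (cl a b v) := ⟨hu.stronglyMeasurable, B, huB⟩
  have htr : ∀ r ∈ Icc s t, traj s (X s) (cl a b v) r = X r := by
    intro r hr
    unfold traj
    have h1 := hXv s ⟨has, by linarith⟩ r ⟨has.trans hr.1, hr.2.trans htb⟩
    have h2 : ∫ x in s..r, cl a b v x = ∫ x in s..r, v x := by
      apply intervalIntegral.integral_congr
      intro x hx
      rw [uIcc_of_le hr.1] at hx
      exact cl_eq ⟨has.trans hx.1, hx.2.trans (hr.2.trans htb)⟩
    rw [h2, ← h1]; abel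
  have h1 : EscN.ker S f 0 s t (X s) (X t) ≤ act f 0 s t (X s) (cl a b v) := by
    refine ker_le_act hf 0 hst hadm ?_ (htr t ⟨hst.le, le_rfl⟩)
    intro r hr
    rw [htr r hr]
    exact hX r ⟨has.trans hr.1, hr.2.trans htb⟩
  have h2 : act f 0 s t (X s) (cl a b v) ≤ (B ^ 2 / 2 + M) * (t - s) := by
    have h3 := intervalIntegral.norm_integral_le_of_norm_le_const (a := s) (b := t)
      (C := B ^ 2 / 2 + M)
      (f := fun r => ‖cl a b v r - 0‖ ^ 2 / 2 + f (traj s (X s) (cl a b v) r) r) (fun r _ => by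
        rw [Real.norm_eq_abs]
        refine (abs_add_le _ _).trans (add_le_add ?_ (hf.bd _ _))
        rw [abs_of_nonneg (by positivity), sub_zero]
        have := huB r
        have := norm_nonneg (cl a b v r)
        nlinarith)
    rw [abs_of_pos (by linarith : 0 < t - s)] at h3
    exact (le_abs_self _).trans h3
  unfold En
  nlinarith

omit [InnerProductSpace ℝ E] [FiniteDimensional ℝ E] in
lemma int_approx [NormedSpace ℝ E] [CompleteSpace E] {a b C : ℝ} {v : ℝ → E}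
    (hv : ∀ s ∈ Icc a b, ∀ t ∈ Icc a b, ‖v t - v s‖ ≤ C * |t - s|)
    {s t r : ℝ} (hs : a ≤ s) (hst : s ≤ t) (ht : t ≤ b) (hr : r ∈ Icc s t) :
    ‖(∫ x in s..t, v x) - (t - s) • v r‖ ≤ |C| * (t - s) * (t - s) := by
  have hvc := lip_cont hv
  have hii : IntervalIntegrable v volume s t :=
    (hvc.mono (by rw [uIcc_of_le hst]; exact Icc_subset_Icc hs ht)).intervalIntegrable
  have h1 : (∫ x in s..t, v x) - (t - s) • v r = ∫ x in s..t, (v x - v r) := by
    rw [intervalIntegral.integral_sub hii (by simp)]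
    simp
  rw [h1]
  have h2 := intervalIntegral.norm_integral_le_of_norm_le_const (a := s) (b := t)
      (C := |C| * (t - s)) (f := fun x => v x - v r) (fun x hx => by
        rw [uIoc_of_le hst] at hx
        refine (hv r ⟨hs.trans hr.1, hr.2.trans ht⟩ x ⟨hs.trans hx.1.le, hx.2.trans ht⟩).trans ?_
        refine (mul_le_mul_of_nonneg_right (le_abs_self C) (abs_nonneg _)).trans ?_
        refine mul_le_mul_of_nonneg_left ?_ (abs_nonneg _)
        rw [abs_le]
        constructor <;> linarith [hx.1, hx.2, hr.1, hr.2])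
  rwa [abs_of_nonneg (by linarith : 0 ≤ t - s)] at h2

/-- at a local minimum the velocities of two kernel geodesics agree -/
lemma vel_eq {S : Set E} {rt : E → E} {r0 Cr : ℝ} (hR : Ret S rt r0 Cr) (hc : Conn S) {M : ℝ}
    {f : E → ℝ → ℝ} (hf : Good M f) {a b c : ℝ} (hab : a < b) (hbc : b < c) {X Y v v' : ℝ → E}
    (hX : KGeo S f a b X) (hY : KGeo S f b c Y) (hXY : X b = Y b) {C C' : ℝ}
    (hv : ∀ s ∈ Icc a b, ∀ t ∈ Icc a b, ‖v t - v s‖ ≤ C * |t - s|)
    (hv' : ∀ s ∈ Icc b c, ∀ t ∈ Icc b c, ‖v' t - v' s‖ ≤ C' * |t - s|)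
    (hXv : ∀ s ∈ Icc a b, ∀ t ∈ Icc a b, X t - X s = ∫ r in s..t, v r)
    (hYv : ∀ s ∈ Icc b c, ∀ t ∈ Icc b c, Y t - Y s = ∫ r in s..t, v' r)
    (hmin : IsLocalMinOn (fun x => EscN.ker S f 0 a b (X a) x + EscN.ker S f 0 b c x (Y c)) S (X b)) :
    v b = v' b := by
  obtain ⟨Cs, hCs, hsd⟩ := second_diff hR hc hf
  have hM := hf.pos
  have hvc := lip_cont hv
  have hvc' := lip_cont hv'
  obtain ⟨B, hB⟩ := isCompact_Icc.exists_bound_of_continuousOn hvc
  obtain ⟨B', hB'⟩ := isCompact_Icc.exists_bound_of_continuousOn hvc'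
  set K : ℝ := Cs * ((B ^ 2 + 4 * M) + (B' ^ 2 + 4 * M) + 1) + |C| + |C'| with hK
  have hK0 : 0 ≤ K := by positivity
  have key : ∀ h : ℝ, 0 < h → h < b - a → h < c - b → ‖v' b - v b‖ ≤ K * h := by
    intro h hh h1 h2
    have m1 : b - h ∈ Icc a b := ⟨by linarith, by linarith⟩
    have m2 : b + h ∈ Icc b c := ⟨by linarith, by linarith⟩
    have mb : b ∈ Icc a b := ⟨hab.le, le_rfl⟩
    have mb' : b ∈ Icc b c := ⟨le_rfl, hbc.le⟩
    have hXa : X a ∈ S := hX.mem a ⟨le_rfl, hab.le⟩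
    have hYc : Y c ∈ S := hY.mem c ⟨hbc.le, le_rfl⟩
    have hz1 : X (b - h) ∈ S := hX.mem _ m1
    have hz2 : Y (b + h) ∈ S := hY.mem _ m2
    have hz : X b ∈ S := hX.mem _ mb
    have e1 := hX.add (b - h) b m1.1 m1.2 le_rfl
    rw [ker_self, add_zero] at e1
    have e2 := hY.add b (b + h) le_rfl m2.1 m2.2
    rw [ker_self, zero_add] at e2
    have hlm : IsLocalMinOn (fun w => EscN.ker S f 0 (b - h) b (X (b - h)) w +
        EscN.ker S f 0 b (b + h) w (Y (b + h))) S (X b) := by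
      have hev : ∀ᶠ w in 𝓝[S] (X b), w ∈ S := eventually_mem_nhdsWithin
      filter_upwards [hmin, hev] with w hw hwS
      have i1 := ker_le_ker_add hc hf 0 (a := a) (b := b - h) (c := b) (by linarith) (by linarith)
        hXa hz1 hwS
      have i2 := ker_le_ker_add hc hf 0 (a := b) (b := b + h) (c := c) (by linarith) (by linarith)
        hwS hz2 hYc
      have hw' : EscN.ker S f 0 a b (X a) (X b) + EscN.ker S f 0 b c (X b) (Y c) ≤
        EscN.ker S f 0 a b (X a) w + EscN.ker S f 0 b c w (Y c) := hw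
      rw [hXY] at hw' e1 ⊢
      linarith
    have h3 := hsd b h hh _ hz1 _ hz _ hz2 hlm
    have n1 := ker_curve hf hX.mem hvc hB hXv (s := b - h) (t := b) m1.1 (by linarith) le_rfl
    have n2 := ker_curve hf hY.mem hvc' hB' hYv (s := b) (t := b + h) le_rfl (by linarith) m2.2
    rw [← hXY] at n2
    have e3 : b - (b - h) = h := by ring
    have e4 : b + h - b = h := by ring
    rw [e3] at n1
    rw [e4] at n2
    have h4 : ‖Y (b + h) - (2:ℝ) • X b + X (b - h)‖ ≤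
        Cs * h * (((B ^ 2 + 4 * M) + (B' ^ 2 + 4 * M) + 1) * h) := by
      refine h3.trans (mul_le_mul_of_nonneg_left ?_ (by positivity))
      linarith
    have a1 := int_approx hv (s := b - h) (t := b) (r := b) m1.1 m1.2 le_rfl ⟨m1.2, le_rfl⟩
    have a2 := int_approx hv' (s := b) (t := b + h) (r := b) le_rfl m2.1 m2.2 ⟨le_rfl, m2.1⟩
    rw [← hXv _ m1 _ mb, e3] at a1
    rw [← hYv _ mb' _ m2, e4, ← hXY] at a2
    have h5 : h • (v' b - v b) = (Y (b + h) - (2:ℝ) • X b + X (b - h)) -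
        (Y (b + h) - X b - h • v' b) + (X b - X (b - h) - h • v b) := by
      rw [smul_sub, two_smul]; abel
    have h6 : h * ‖v' b - v b‖ ≤ K * h * h := by
      calc h * ‖v' b - v b‖ = ‖h • (v' b - v b)‖ := by
            rw [norm_smul, Real.norm_of_nonneg hh.le]
        _ ≤ Cs * h * (((B ^ 2 + 4 * M) + (B' ^ 2 + 4 * M) + 1) * h) + |C'| * h * h +
            |C| * h * h := by
            rw [h5]
            refine (norm_add_le _ _).trans (add_le_add ((norm_sub_le _ _).trans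
              (add_le_add h4 a2)) a1)
        _ = K * h * h := by rw [hK]; ring
    have h7 : h * ‖v' b - v b‖ ≤ h * (K * h) := by linarith
    exact le_of_mul_le_mul_left h7 hh
  have h0 : ‖v' b - v b‖ ≤ 0 := by
    apply le_of_forall_pos_le_add
    intro ε hε
    have hm : 0 < min (min ((b - a) / 2) ((c - b) / 2)) (ε / (K + 1)) := by
      refine lt_min (lt_min (by linarith) (by linarith)) (by positivity)
    set h := min (min ((b - a) / 2) ((c - b) / 2)) (ε / (K + 1)) with hh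
    have l1 : h ≤ (b - a) / 2 := (min_le_left _ _).trans (min_le_left _ _)
    have l2 : h ≤ (c - b) / 2 := (min_le_left _ _).trans (min_le_right _ _)
    have l3 : h ≤ ε / (K + 1) := min_le_right _ _
    have h8 := key h hm (by linarith) (by linarith)
    rw [le_div_iff₀ (by positivity)] at l3
    nlinarith
  have := norm_le_zero_iff.1 h0
  exact (sub_eq_zero.1 this).symm

/-! ### glueing -/

omit [InnerProductSpace ℝ E] [FiniteDimensional ℝ E] in
lemma glue_int [NormedSpace ℝ E] [CompleteSpace E] {x g : ℝ → E} (hg : Continuous g)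
    (h : ∀ j : ℕ, ∀ t ∈ Icc (j:ℝ) ((j:ℝ) + 1), x t - x j = ∫ s in (j:ℝ)..t, g s) {t : ℝ}
    (ht : 0 ≤ t) : x t = x 0 + ∫ s in (0:ℝ)..t, g s := by
  have hn : ∀ n : ℕ, x n = x 0 + ∫ s in (0:ℝ)..n, g s := by
    intro n
    induction n with
    | zero => simp
    | succ n ih =>
      have h1 := h n ((n:ℝ) + 1) ⟨by linarith, le_rfl⟩
      push_cast
      rw [← intervalIntegral.integral_add_adjacent_intervals (hg.intervalIntegrable 0 n)
        (hg.intervalIntegrable n _), ← add_assoc, ← ih, ← h1]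
      abel
  have h1 := h ⌊t⌋₊ t ⟨Nat.floor_le ht, (Nat.lt_floor_add_one t).le⟩
  rw [← intervalIntegral.integral_add_adjacent_intervals (hg.intervalIntegrable 0 ⌊t⌋₊)
        (hg.intervalIntegrable _ _), ← add_assoc, ← hn, ← h1]
  abel

omit [InnerProductSpace ℝ E] [FiniteDimensional ℝ E] in
lemma glue_cont {g : ℝ → E} (h : ∀ j : ℕ, ContinuousOn g (Icc (j:ℝ) ((j:ℝ) + 1))) :
    ContinuousOn g (Ici 0) := by
  have hn : ∀ n : ℕ, ContinuousOn g (Icc (0:ℝ) n) := by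
    intro n
    induction n with
    | zero => simp
    | succ n ih =>
      have h1 : Icc (0:ℝ) ((n + 1 : ℕ) : ℝ) = Icc 0 (n:ℝ) ∪ Icc (n:ℝ) ((n:ℝ) + 1) := by
        rw [Icc_union_Icc_eq_Icc (Nat.cast_nonneg n) (by linarith)]
        push_cast; rfl
      rw [h1]
      exact ih.union_of_isClosed (h n) isClosed_Icc isClosed_Icc
  intro t ht
  have h1 : Icc (0:ℝ) ((⌊t⌋₊ + 1 : ℕ) : ℝ) ∈ 𝓝[Ici 0] t := by
    have h2 : t < ((⌊t⌋₊ + 1 : ℕ) : ℝ) := by
      push_cast; exact Nat.lt_floor_add_one t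
    have h3 : Ici (0:ℝ) ∩ Iio ((⌊t⌋₊ + 1 : ℕ) : ℝ) ∈ 𝓝[Ici 0] t :=
      inter_mem self_mem_nhdsWithin (mem_nhdsWithin_of_mem_nhds (Iio_mem_nhds h2))
    exact mem_of_superset h3 (fun s hs => ⟨hs.1, hs.2.le⟩)
  exact (hn _ t ⟨ht, by push_cast; exact (Nat.lt_floor_add_one t).le⟩).mono_of_mem_nhdsWithin h1

omit [InnerProductSpace ℝ E] [FiniteDimensional ℝ E] in
lemma comp3 {F : E → E → ℝ → E} (hF : Continuous fun q : E × E × ℝ => F q.1 q.2.1 q.2.2)
    {x v : ℝ → E} (hx : Continuous x) (hv : Continuous v) : Continuous fun t => F (x t) (v t) t :=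
  hF.comp (hx.prodMk (hv.prodMk continuous_id))

/-- glue functions on `[j,j+1]` -/
def gl (X : ℕ → ℝ → E) (t : ℝ) : E := X ⌊t⌋₊ t

omit [InnerProductSpace ℝ E] [FiniteDimensional ℝ E] in
lemma gl_eq {X : ℕ → ℝ → E} (h : ∀ j : ℕ, X j ((j:ℝ) + 1) = X (j + 1) ((j:ℝ) + 1)) (j : ℕ) {t : ℝ}
    (ht : t ∈ Icc (j:ℝ) ((j:ℝ) + 1)) : gl X t = X j t := by
  unfold gl
  rcases ht.2.lt_or_eq with h1 | h1
  · have : ⌊t⌋₊ = j := (Nat.floor_eq_iff ((Nat.cast_nonneg j).trans ht.1)).2 ⟨ht.1, h1⟩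
    rw [this]
  · have : ⌊t⌋₊ = j + 1 := by
      rw [h1]; exact_mod_cast Nat.floor_natCast (j + 1)
    rw [this, h1, h j]

end O6

open O6 in
theorem orbit_of_sitewise {S : Set E} {rt : E → E} {r0 Cr : ℝ} (hR : Ret S rt r0 Cr) (hc : Conn S) {M : ℝ}
    {f : E → ℝ → ℝ} (hf : Good M f) (hf2 : ContDiff ℝ 2 (fun p : E × ℝ => f p.1 p.2))
    (hft : ∀ x t, f x (t + 1) = f x t) (w : ℕ → E) (hw : ∀ j, w j ∈ S)
    (hmin : ∀ j, IsLocalMinOn (fun x => ker S f 0 0 1 (w j) x + ker S f 0 0 1 x (w (j + 2))) S (w (j + 1))) :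
    ∃ x v : ℝ → E, (∀ t, 0 < t → x t ∈ S) ∧ (∀ t, 0 < t → HasDerivAt x (v t) t) ∧
      (∀ t, 0 < t → HasDerivAt v (force rt f (x t) (v t) t) t) ∧
      (∀ t, 0 < t → fderiv ℝ rt (x t) (v t) = v t) ∧
      (∀ j : ℕ, x j = w j) ∧ ContinuousOn v (Ici 0) ∧
      (∀ j : ℕ, ∫ t in (j:ℝ)..(j+1), (‖v t‖ ^ 2 / 2 + f (x t) t) = ker S f 0 0 1 (w j) (w (j + 1))) := by
  have hj1 : ∀ j : ℕ, (j:ℝ) < (j:ℝ) + 1 := fun j => by linarith
  choose Z hZ0 hZ1 hZ using fun j : ℕ => exists_kgeo hR hc hf (hj1 j) (hw j) (hw (j + 1))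
  choose V hVl hVi using fun j : ℕ => kgeo_c11 hR hc hf (hj1 j) (hZ j)
  choose C hC using hVl
  have hVc : ∀ j : ℕ, ContinuousOn (V j) (Icc (j:ℝ) ((j:ℝ) + 1)) := fun j => lip_cont (hC j)
  have hVe := fun j : ℕ => kgeo_el hR hc hf hf2 (hj1 j) (hZ j) (hVc j) (hVi j)
  have hVa := fun j : ℕ => kgeo_act hR hc hf (hj1 j) (hZ j) (hVc j) (hVi j)
  have hnat := fun j z z' => ker_nat (S := S) (f := f) hft j z z'
  have hZZ : ∀ j : ℕ, Z j ((j:ℝ) + 1) = Z (j + 1) ((j:ℝ) + 1) := by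
    intro j
    rw [hZ1 j]
    have := hZ0 (j + 1)
    push_cast at this
    rw [this]
  have hVV : ∀ j : ℕ, V j ((j:ℝ) + 1) = V (j + 1) ((j:ℝ) + 1) := by
    intro j
    have e1 : ((j + 1 : ℕ) : ℝ) = (j:ℝ) + 1 := by push_cast; ring
    have k1 := hZ (j + 1)
    have k2 := hC (j + 1)
    have k3 := hVi (j + 1)
    have k4 := hZ1 (j + 1)
    rw [e1] at k1 k2 k3 k4
    refine vel_eq hR hc hf (hj1 j) (by linarith : (j:ℝ) + 1 < (j:ℝ) + 1 + 1) (hZ j) k1 (hZZ j)
      (hC j) k2 (hVi j) k3 ?_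
    rw [hZ1 j, hZ0 j, k4]
    have e2 : (fun x => EscN.ker S f 0 (j:ℝ) ((j:ℝ) + 1) (w j) x +
        EscN.ker S f 0 ((j:ℝ) + 1) ((j:ℝ) + 1 + 1) x (w (j + 2))) =
        fun x => EscN.ker S f 0 0 1 (w j) x + EscN.ker S f 0 0 1 x (w (j + 2)) := by
      funext x
      rw [hnat j]
      have := hnat (j + 1) x (w (j + 2))
      rw [e1] at this
      rw [this]
    rw [e2]
    exact hmin j
  set x := gl Z with hx
  set v := gl V with hv
  have hxe : ∀ (j : ℕ) {t : ℝ}, t ∈ Icc (j:ℝ) ((j:ℝ) + 1) → x t = Z j t :=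
    fun j t ht => gl_eq hZZ j ht
  have hve : ∀ (j : ℕ) {t : ℝ}, t ∈ Icc (j:ℝ) ((j:ℝ) + 1) → v t = V j t :=
    fun j t ht => gl_eq hVV j ht
  have hmemj : ∀ j : ℕ, (j:ℝ) ∈ Icc (j:ℝ) ((j:ℝ) + 1) := fun j => ⟨le_rfl, (hj1 j).le⟩
  have hvc : ContinuousOn v (Ici 0) :=
    glue_cont fun j => (hVc j).congr fun t ht => hve j ht
  -- clamped functions
  set v1 : ℝ → E := fun t => v (max 0 t) with hv1
  have hv1c : Continuous v1 := hvc.comp_continuous (by fun_prop) (fun t => Set.mem_Ici.2 (le_max_left _ _))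
  have hv1e : ∀ t, 0 ≤ t → v1 t = v t := fun t ht => by
    simp only [hv1]; rw [max_eq_right ht]
  have hxi : ∀ t, 0 ≤ t → x t = x 0 + ∫ s in (0:ℝ)..t, v1 s := by
    intro t ht
    refine glue_int hv1c ?_ ht
    intro j t ht
    rw [hxe j ht, hxe j (hmemj j), hVi j _ (hmemj j) _ ht]
    apply intervalIntegral.integral_congr
    intro s hs
    rw [uIcc_of_le ht.1] at hs
    have : (0:ℝ) ≤ s := (Nat.cast_nonneg j).trans hs.1
    rw [hv1e s this, hve j ⟨hs.1, hs.2.trans ht.2⟩]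
  set x1 : ℝ → E := fun t => x 0 + ∫ s in (0:ℝ)..t, v1 s with hx1
  have hx1d : ∀ t, HasDerivAt x1 (v1 t) t := by
    intro t
    have := intervalIntegral.integral_hasDerivAt_right (hv1c.intervalIntegrable 0 t)
      (hv1c.stronglyMeasurableAtFilter _ _) hv1c.continuousAt
    exact this.const_add (x 0)
  have hx1c : Continuous x1 := continuous_iff_continuousAt.2 fun t => (hx1d t).continuousAt
  have hx1e : ∀ t, 0 ≤ t → x1 t = x t := fun t ht => (hxi t ht).symm
  have hFc : Continuous (fun t => force rt f (x1 t) (v1 t) t) :=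
    comp3 (F := force rt f) (force_cont hR.smooth hf2) hx1c hv1c
  have hvi : ∀ t, 0 ≤ t → v t = v 0 + ∫ s in (0:ℝ)..t, force rt f (x1 s) (v1 s) s := by
    intro t ht
    refine glue_int hFc ?_ ht
    intro j t ht
    rw [hve j ht, hve j (hmemj j), hVe j _ (hmemj j) _ ht]
    apply intervalIntegral.integral_congr
    intro s hs
    rw [uIcc_of_le ht.1] at hs
    have h0 : (0:ℝ) ≤ s := (Nat.cast_nonneg j).trans hs.1
    have hm : s ∈ Icc (j:ℝ) ((j:ℝ) + 1) := ⟨hs.1, hs.2.trans ht.2⟩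
    simp only
    rw [hv1e s h0, hve j hm, hx1e s h0, hxe j hm]
  have hvd : ∀ t, 0 < t → HasDerivAt v1 (force rt f (x1 t) (v1 t) t) t := by
    intro t ht
    have h1 := (intervalIntegral.integral_hasDerivAt_right (hFc.intervalIntegrable 0 t)
      (hFc.stronglyMeasurableAtFilter _ _) hFc.continuousAt).const_add (v 0)
    refine h1.congr_of_eventuallyEq ?_
    filter_upwards [lt_mem_nhds ht] with s hs
    rw [hv1e s hs.le]
    exact hvi s hs.le
  have hxS : ∀ t, 0 ≤ t → x1 t ∈ S := by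
    intro t ht
    have hm : t ∈ Icc ((⌊t⌋₊ : ℕ) : ℝ) (((⌊t⌋₊ : ℕ) : ℝ) + 1) :=
      ⟨Nat.floor_le ht, (Nat.lt_floor_add_one t).le⟩
    rw [hx1e t ht, hxe _ hm]
    exact (hZ _).mem t hm
  refine ⟨x1, v1, fun t ht => hxS t ht.le, fun t _ => hx1d t, hvd, ?_, ?_, hv1c.continuousOn, ?_⟩
  · intro t ht
    have h1 : HasDerivAt (fun s => rt (x1 s)) (fderiv ℝ rt (x1 t) (v1 t)) t := by
      have h2 : HasFDerivAt rt (fderiv ℝ rt (x1 t)) (x1 t) :=
        (hR.smooth.differentiable (by simp)).differentiableAt.hasFDerivAt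
      exact h2.comp_hasDerivAt t (hx1d t)
    have h3 : HasDerivAt (fun s => rt (x1 s)) (v1 t) t := by
      refine (hx1d t).congr_of_eventuallyEq ?_
      filter_upwards [lt_mem_nhds ht] with s hs
      exact hR.id _ (hxS s hs.le)
    exact h1.unique h3
  · intro j
    rw [hx1e _ (Nat.cast_nonneg j), hxe j (hmemj j), hZ0]
  · intro j
    have h1 := hVa j
    rw [hZ0, hZ1, hnat] at h1
    rw [← h1]
    apply intervalIntegral.integral_congr
    intro s hs
    rw [uIcc_of_le (hj1 j).le] at hs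
    have h0 : (0:ℝ) ≤ s := (Nat.cast_nonneg j).trans hs.1
    simp only
    rw [hv1e s h0, hve j hs, hx1e s h0, hxe j hs]

end EscN
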