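import Pool.Agent.EscN.Flat

/-!
The stage property is `C^0`-open.
-/

noncomputable section

namespace EscN

open MeasureTheory Set Filter Topology Esc


lemma gd_mono {E : Type*} [NormedAddCommGroup E] [InnerProductSpace ℝ E] {M M' : ℝ} {f : E → ℝ → ℝ}
    (h : Good M f) (hM : M ≤ M') : Good M' f :=
  ⟨h.pos.trans hM, h.cont, fun x t => (h.bd x t).trans hM,
    fun x x' t => (h.lipx x x' t).trans (mul_le_mul_of_nonneg_right hM (norm_nonneg _)),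
    fun x t t' => (h.lipt x t t').trans (mul_le_mul_of_nonneg_right hM (abs_nonneg _))⟩

variable {d : ℕ} {E : Type*} [NormedAddCommGroup E] [InnerProductSpace ℝ E] [FiniteDimensional ℝ E]
  (L : Sp d E)

theorem seg_sub_le {p ρ : ℝ} {f f' : E → ℝ → ℝ} (hf : L.IsPot f) (hf' : L.IsPot f')
    (h : ∀ x t, |f x t - f' x t| ≤ ρ) (s : ℝ) {F : Finset ℕ} (hF : F.Nonempty) (hF1 : ∀ T ∈ F, 1 ≤ T)
    (c : ℕ → ℝ) {z z' : E} (hz : z ∈ L.room p) (hz' : z' ∈ L.room p) :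
    |L.seg f p s F c z z' - L.seg f' p s F c z z'| ≤ ρ * F.sup id := by
  obtain ⟨M, hM⟩ := isPot_good L hf
  obtain ⟨M', hM'⟩ := isPot_good L hf'
  have h1 := gd_mono hM (le_max_left M M')
  have h2 := gd_mono hM' (le_max_right M M')
  obtain ⟨B, Λ, hB, hΛ, hKD⟩ := kd_kbar L (max M M')
  exact gk_sub_le (hKD f h1 hf.perd s p) (hKD f' h2 hf'.perd s p)
    (fun z hz z' hz' => kbar_sub_le L h1 h2 (fun x _ t => h x t) s hz.1 hz'.1) hF hF1 c hz hz'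

theorem stage_open {p β : ℝ} {f : E → ℝ → ℝ} (hf : L.IsPot f) {m : ℕ} (h : L.Stage p β m f) :
    ∃ ρ > 0, ∀ f', L.IsPot f' → (∀ x t, |f x t - f' x t| ≤ ρ) → L.Stage p β m f' := by
  obtain ⟨J, s, F, c, D, δ, hJ, hδ, hs0, hsJ, hsb, hF, hg⟩ := h
  set Tm : ℕ := (Finset.range (J + 1)).sup (fun i => (F i).sup id) with hTm
  have hTmi : ∀ i ≤ J, (F i).sup id ≤ Tm := fun i hi =>
    Finset.le_sup (f := fun i => (F i).sup id) (Finset.mem_range.2 (by omega))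
  have hpos : (0:ℝ) < 8 * (Tm + 1) := by positivity
  refine ⟨δ / (8 * (Tm + 1)), div_pos hδ hpos, fun f' hf' hff => ?_⟩
  refine ⟨J, s, F, c, D, δ / 2, hJ, half_pos hδ, hs0, hsJ, hsb, hF, fun i hi => ?_⟩
  obtain ⟨h1, h2, hDS, h3, h4⟩ := hg i hi
  refine ⟨h1, h2, hDS, h3, fun z hz => ?_⟩
  obtain ⟨w, hw, hw'⟩ := h4 z hz
  refine ⟨w, hw, fun x hx x' hx' => ?_⟩
  have hzD : z ∈ D i := hz.1
  have hb : ∀ i ≤ J, δ / (8 * (Tm + 1)) * (((F i).sup id : ℕ) : ℝ) ≤ δ / 8 := by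
    intro i hi
    have e1 : (((F i).sup id : ℕ) : ℝ) ≤ Tm := by exact_mod_cast hTmi i hi
    have e2 : δ / (8 * (Tm + 1)) * (((F i).sup id : ℕ) : ℝ) ≤ δ / (8 * (Tm + 1)) * (Tm + 1) := by
      apply mul_le_mul_of_nonneg_left _ (div_pos hδ hpos).le
      linarith
    have e3 : δ / (8 * (Tm + 1)) * (Tm + 1) = δ / 8 := by field_simp
    linarith
  have hF1 : ∀ i, ∀ T ∈ F i, 1 ≤ T := fun i T hT => by have := (hF i).2 T hT; omega
  have key : ∀ i ≤ J, ∀ a ∈ L.room p, ∀ b ∈ L.room p,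
      |L.seg f p (s i) (F i) (c i) a b - L.seg f' p (s i) (F i) (c i) a b| ≤ δ / 8 :=
    fun i hi a ha b hb' => (seg_sub_le L hf hf' hff (s i) (hF i).1 (hF1 i) (c i) ha hb').trans (hb i hi)
  have k1 := abs_le.1 (key i hi.le x hx w (strip_room L (hDS hw) (h3 w hw)))
  have k2 := abs_le.1 (key (i + 1) hi (L.gi w) (strip_room_g L (hDS hw) (h3 w hw)) x' hx')
  have k3 := abs_le.1 (key i hi.le x hx z (strip_room L (hDS hzD) (h3 z hzD)))
  have k4 := abs_le.1 (key (i + 1) hi (L.gi z) (strip_room_g L (hDS hzD) (h3 z hzD)) x' hx')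
  have k5 := hw' x hx x' hx'
  linarith [k1.1, k1.2, k2.1, k2.2, k3.1, k3.2, k4.1, k4.2]

end EscN
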