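import Pool.Agent.EscN.Mean

/-!
Finite averages of functions on a vector space (project ESCN, T3).
-/

noncomputable section

namespace EscN

open Finset

variable {W V : Type*} [NormedAddCommGroup W] [NormedSpace ℝ W] [NormedAddCommGroup V] [NormedSpace ℝ V]

/-- mean of `h` over `x + (l / Q) w`, `l < Q B` -/
def mn (Q B : ℕ) (w : W) (h : W → V) (x : W) : V :=
  ((Q * B : ℕ) : ℝ)⁻¹ • ∑ l ∈ range (Q * B), h (x + ((l : ℝ) / Q) • w)

lemma dmean_eq_mn (Q B : ℕ) (w : W) (h : W → V) (x : W) (θ : ℝ) :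
    dmean Q B (fun s => h (x + s • w)) θ = mn Q B w h (x + θ • w) := by
  unfold dmean mn
  congr 1
  refine Finset.sum_congr rfl fun l _ => ?_
  simp only
  rw [add_smul, add_assoc]

lemma mn_eq_dmean (Q B : ℕ) (w : W) (h : W → V) (x : W) :
    mn Q B w h x = dmean Q B (fun s => h (x + s • w)) 0 := by
  rw [dmean_eq_mn, zero_smul, add_zero]

lemma norm_mn_le {Q B : ℕ} (hQ : 0 < Q) (hB : 0 < B) {w : W} {h : W → V} {M : ℝ} (hh : ∀ x, ‖h x‖ ≤ M)
    (x : W) : ‖mn Q B w h x‖ ≤ M := by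
  rw [mn_eq_dmean]
  exact norm_dmean_le hQ hB (fun θ => hh _) _

lemma mn_sub (Q B : ℕ) (w : W) (h h' : W → V) (x : W) :
    mn Q B w (fun z => h z - h' z) x = mn Q B w h x - mn Q B w h' x := by
  unfold mn
  rw [sum_sub_distrib, smul_sub]

lemma mn_add (Q B : ℕ) (w : W) (h h' : W → V) (x : W) :
    mn Q B w (fun z => h z + h' z) x = mn Q B w h x + mn Q B w h' x := by
  unfold mn
  rw [sum_add_distrib, smul_add]

lemma mn_trans (Q B : ℕ) (w v : W) (h : W → V) (x : W) :
    mn Q B w (fun z => h (z + v)) x = mn Q B w h (x + v) := by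
  unfold mn
  congr 1
  refine Finset.sum_congr rfl fun l _ => ?_
  rw [add_right_comm]

lemma mn_comm (Q B Q' B' : ℕ) (w w' : W) (h : W → V) (x : W) :
    mn Q B w (mn Q' B' w' h) x = mn Q' B' w' (mn Q B w h) x := by
  have e : ∀ (a b : ℕ) (u u' : W) (c : ℝ) (a' b' : ℕ), mn a b u (mn a' b' u' h) x =
      ((a * b : ℕ) : ℝ)⁻¹ • ((a' * b' : ℕ) : ℝ)⁻¹ • ∑ l ∈ range (a * b), ∑ i ∈ range (a' * b'),
        h (x + ((l : ℝ) / a) • u + ((i : ℝ) / a') • u') := by
    intro a b u u' c a' b'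
    unfold mn
    rw [← Finset.smul_sum]
  rw [e _ _ _ _ 0, e _ _ _ _ 0, smul_comm, Finset.sum_comm]
  congr 1
  congr 1
  refine Finset.sum_congr rfl fun l _ => Finset.sum_congr rfl fun i _ => ?_
  rw [add_right_comm]

lemma mn_const {Q B : ℕ} (hQ : 0 < Q) (hB : 0 < B) (w : W) {h : W → V} {x : W} {c : V}
    (hc : ∀ s : ℝ, h (x + s • w) = c) : mn Q B w h x = c := by
  have hN : ((Q * B : ℕ) : ℝ) ≠ 0 := by exact_mod_cast (Nat.mul_pos hQ hB).ne'
  unfold mn
  rw [Finset.sum_congr rfl fun l _ => hc _, sum_const, card_range, ← Nat.cast_smul_eq_nsmul ℝ, smul_smul,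
    inv_mul_cancel₀ hN, one_smul]

/-- `h` is invariant under `v` up to `η` -/
def NInv (η : ℝ) (v : W) (h : W → V) : Prop := ∀ x, ‖h (x + v) - h x‖ ≤ η

lemma NInv.mn {η : ℝ} {v : W} {h : W → V} (hh : NInv η v h) {Q B : ℕ} (hQ : 0 < Q) (hB : 0 < B) (w : W) :
    NInv η v (mn Q B w h) := by
  intro x
  rw [← mn_trans, ← mn_sub]
  exact norm_mn_le hQ hB hh x

/-! ### The block lemma -/

lemma sum_range_mul_range {A : Type*} [AddCommMonoid A] (f : ℕ → A) (a b : ℕ) :
    ∑ i ∈ range (a * b), f i = ∑ c ∈ range a, ∑ j ∈ range b, f (c * b + j) := by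
  induction a with
  | zero => simp
  | succ a ih => rw [Nat.succ_mul, sum_range_add, ih, sum_range_succ]

/-- the mean along `-(v - B'^2 w)` does not see the difference between `h` and its mean along `w` -/
theorem block_mean {q B B' : ℕ} (hq : 0 < q) (hB : 0 < B) (hB' : 0 < B') {v w : W} {h : W → V} {η ω : ℝ}
    (huc : ∀ x, ∀ s : ℝ, 0 ≤ s → s ≤ 1 / B' → ‖h (x - s • v) - h x‖ ≤ ω)
    (hmesh : ∀ x, ∀ i : ℕ, ‖mn q B' w h (x + ((i : ℝ) / q) • w) - mn q B' w h x‖ ≤ η) (x : W) :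
    ‖mn (B' ^ 2 * q) 1 (-(v - (B' ^ 2 : ℝ) • w)) (fun z => h z - mn q B w h z) x‖ ≤ η + 2 * ω := by
  have hqR : (0 : ℝ) < q := by exact_mod_cast hq
  have hBR : (0 : ℝ) < B' := by exact_mod_cast hB'
  have hω : 0 ≤ ω := (norm_nonneg _).trans (huc x 0 le_rfl (by positivity))
  set g : W → V := fun z => h z - mn q B w h z with hg
  have hg1 : ∀ x, ∀ s : ℝ, 0 ≤ s → s ≤ 1 / B' → ‖g (x - s • v) - g x‖ ≤ 2 * ω := by
    intro x s hs hs'
    have h1 := huc x s hs hs'
    have h2 : ‖mn q B w h (x - s • v) - mn q B w h x‖ ≤ ω := by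
      rw [sub_eq_add_neg x, ← mn_trans, ← mn_sub]
      refine norm_mn_le hq hB (fun z => ?_) x
      rw [← sub_eq_add_neg]
      exact huc z s hs hs'
    have e : g (x - s • v) - g x = (h (x - s • v) - h x) - (mn q B w h (x - s • v) - mn q B w h x) := by
      rw [hg]; simp only; abel
    rw [e]
    exact (norm_sub_le _ _).trans (by linarith)
  have hg2 : ∀ z, ‖mn q B' w g z‖ ≤ η := by
    intro z
    rw [hg, mn_sub, mn_comm]
    have hN : ((q * B : ℕ) : ℝ) ≠ 0 := by exact_mod_cast (Nat.mul_pos hq hB).ne'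
    have e : mn q B' w h z - mn q B w (mn q B' w h) z =
        ((q * B : ℕ) : ℝ)⁻¹ • ∑ l ∈ range (q * B), (mn q B' w h z - mn q B' w h (z + ((l : ℝ) / q) • w)) := by
      rw [sum_sub_distrib, sum_const, card_range, ← Nat.cast_smul_eq_nsmul ℝ, smul_sub, smul_smul,
        inv_mul_cancel₀ hN, one_smul]
      rfl
    rw [e, norm_smul, Real.norm_eq_abs, abs_of_nonneg (inv_nonneg.2 (Nat.cast_nonneg _))]
    have h1 : ‖∑ l ∈ range (q * B), (mn q B' w h z - mn q B' w h (z + ((l : ℝ) / q) • w))‖ ≤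
        ((q * B : ℕ) : ℝ) * η := by
      refine ((norm_sum_le _ _).trans (Finset.sum_le_sum (g := fun _ => η) fun l _ => ?_)).trans (le_of_eq ?_)
      · rw [← norm_neg, neg_sub]
        exact hmesh z l
      · rw [sum_const, card_range, nsmul_eq_mul]
    calc _ ≤ ((q * B : ℕ) : ℝ)⁻¹ * (((q * B : ℕ) : ℝ) * η) :=
          mul_le_mul_of_nonneg_left h1 (inv_nonneg.2 (Nat.cast_nonneg _))
      _ = η := by rw [← mul_assoc, inv_mul_cancel₀ hN, one_mul]
  unfold mn
  rw [mul_one]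
  have hcard : B' ^ 2 * q = B' * (q * B') := by ring
  have hNR : (0 : ℝ) < ((B' ^ 2 * q : ℕ) : ℝ) := by exact_mod_cast Nat.mul_pos (pow_pos hB' 2) hq
  rw [norm_smul, Real.norm_eq_abs, abs_of_pos (inv_pos.2 hNR)]
  have hN2 : ((q * B' : ℕ) : ℝ) ≠ 0 := by exact_mod_cast (Nat.mul_pos hq hB').ne'
  have key : ‖∑ l ∈ range (B' ^ 2 * q), g (x + ((l : ℝ) / ((B' ^ 2 * q : ℕ) : ℝ)) • -(v - (B' ^ 2 : ℝ) • w))‖ ≤
      ((B' ^ 2 * q : ℕ) : ℝ) * (η + 2 * ω) := by
    rw [hcard, sum_range_mul_range, ← hcard]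
    refine ((norm_sum_le _ _).trans (Finset.sum_le_sum (g := fun _ => ((q * B' : ℕ) : ℝ) * (η + 2 * ω))
      fun c hc => ?_)).trans (le_of_eq ?_)
    · set z := x - ((c : ℝ) / B') • v + ((c * B' : ℕ) : ℝ) • w with hz
      have e1 : ∀ j : ℕ, x + (((c * (q * B') + j : ℕ) : ℝ) / ((B' ^ 2 * q : ℕ) : ℝ)) • -(v - (B' ^ 2 : ℝ) • w) =
          (z + ((j : ℝ) / q) • w) - ((j : ℝ) / ((B' ^ 2 * q : ℕ) : ℝ)) • v := by
        intro j
        have a1 : (((c * (q * B') + j : ℕ) : ℝ) / ((B' ^ 2 * q : ℕ) : ℝ)) =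
            (c : ℝ) / B' + (j : ℝ) / ((B' ^ 2 * q : ℕ) : ℝ) := by
          push_cast
          field_simp
        have a2 : (((c * (q * B') + j : ℕ) : ℝ) / ((B' ^ 2 * q : ℕ) : ℝ)) * (B' ^ 2 : ℝ) =
            ((c * B' : ℕ) : ℝ) + (j : ℝ) / q := by
          push_cast
          field_simp
        have a3 : x + (((c * (q * B') + j : ℕ) : ℝ) / ((B' ^ 2 * q : ℕ) : ℝ)) • -(v - (B' ^ 2 : ℝ) • w) =
            x - (((c * (q * B') + j : ℕ) : ℝ) / ((B' ^ 2 * q : ℕ) : ℝ)) • v +
            ((((c * (q * B') + j : ℕ) : ℝ) / ((B' ^ 2 * q : ℕ) : ℝ)) * (B' ^ 2 : ℝ)) • w := by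
          rw [mul_smul, smul_neg, smul_sub]
          abel
        rw [a3, a2, a1, hz, add_smul, add_smul]
        abel
      have e2 : ∑ j ∈ range (q * B'), g (x + (((c * (q * B') + j : ℕ) : ℝ) / ((B' ^ 2 * q : ℕ) : ℝ)) •
          -(v - (B' ^ 2 : ℝ) • w)) = ∑ j ∈ range (q * B'), g (z + ((j : ℝ) / q) • w) +
          ∑ j ∈ range (q * B'), (g ((z + ((j : ℝ) / q) • w) - ((j : ℝ) / ((B' ^ 2 * q : ℕ) : ℝ)) • v) -
            g (z + ((j : ℝ) / q) • w)) := by
        rw [← sum_add_distrib]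
        refine Finset.sum_congr rfl fun j _ => ?_
        rw [e1 j]
        abel
      rw [e2]
      refine (norm_add_le _ _).trans ?_
      have b1 : ‖∑ j ∈ range (q * B'), g (z + ((j : ℝ) / q) • w)‖ ≤ ((q * B' : ℕ) : ℝ) * η := by
        have h1 := hg2 z
        unfold mn at h1
        rw [norm_smul, Real.norm_eq_abs, abs_of_nonneg (inv_nonneg.2 (Nat.cast_nonneg _)), inv_mul_le_iff₀
          (lt_of_le_of_ne (Nat.cast_nonneg _) hN2.symm)] at h1
        exact h1
      have b2 : ‖∑ j ∈ range (q * B'), (g ((z + ((j : ℝ) / q) • w) - ((j : ℝ) / ((B' ^ 2 * q : ℕ) : ℝ)) • v) -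
            g (z + ((j : ℝ) / q) • w))‖ ≤ ((q * B' : ℕ) : ℝ) * (2 * ω) := by
        refine ((norm_sum_le _ _).trans (Finset.sum_le_sum (g := fun _ => 2 * ω) fun j hj => ?_)).trans
          (le_of_eq ?_)
        · refine hg1 _ _ (by positivity) ?_
          have hj' : (j : ℝ) ≤ q * B' := by
            have := (Finset.mem_range.1 hj).le
            exact_mod_cast this
          push_cast
          rw [div_le_div_iff₀ (by positivity) hBR]
          nlinarith
        · rw [sum_const, card_range, nsmul_eq_mul]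
      linarith
    · rw [sum_const, card_range, nsmul_eq_mul]
      push_cast
      ring
  calc _ ≤ ((B' ^ 2 * q : ℕ) : ℝ)⁻¹ * (((B' ^ 2 * q : ℕ) : ℝ) * (η + 2 * ω)) :=
        mul_le_mul_of_nonneg_left key (inv_pos.2 hNR).le
    _ = η + 2 * ω := by rw [← mul_assoc, inv_mul_cancel₀ hNR.ne', one_mul]

/-! ### Iterated means -/

section lists

variable {ι : Type*}

/-- iterated mean along the vectors `b i`, `i` in a list -/
def mns (Q B : ℕ) (b : ι → W) : List ι → (W → V) → W → V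
  | [], h => h
  | i :: l, h => mn Q B (b i) (mns Q B b l h)

variable {Q B : ℕ} {b : ι → W}

lemma norm_mns_le (hQ : 0 < Q) (hB : 0 < B) {M : ℝ} (l : List ι) {h : W → V} (hh : ∀ x, ‖h x‖ ≤ M) :
    ∀ x, ‖mns Q B b l h x‖ ≤ M := by
  induction l with
  | nil => exact hh
  | cons i l ih => exact norm_mn_le hQ hB ih

lemma mns_sub (l : List ι) (h h' : W → V) :
    mns Q B b l (fun z => h z - h' z) = fun z => mns Q B b l h z - mns Q B b l h' z := by
  induction l with
  | nil => rfl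
  | cons i l ih =>
    funext x
    simp only [mns]
    rw [ih, mn_sub]

lemma mns_add (l : List ι) (h h' : W → V) :
    mns Q B b l (fun z => h z + h' z) = fun z => mns Q B b l h z + mns Q B b l h' z := by
  induction l with
  | nil => rfl
  | cons i l ih =>
    funext x
    simp only [mns]
    rw [ih, mn_add]

lemma mns_mn (l : List ι) (Q' B' : ℕ) (w : W) (h : W → V) :
    mns Q B b l (mn Q' B' w h) = mn Q' B' w (mns Q B b l h) := by
  induction l with
  | nil => rfl
  | cons i l ih =>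
    funext x
    simp only [mns]
    rw [ih, mn_comm]

lemma NInv.mns (hQ : 0 < Q) (hB : 0 < B) {η : ℝ} {v : W} {h : W → V} (hh : NInv η v h) (l : List ι) :
    NInv η v (mns Q B b l h) := by
  induction l with
  | nil => exact hh
  | cons i l ih => exact ih.mn hQ hB (b i)

lemma mns_ninv (hQ : 0 < Q) (hB : 0 < B) {η : ℝ} {v : W} {h : W → V} {i : ι} (hh : NInv η v (mn Q B (b i) h))
    {l : List ι} (hi : i ∈ l) : NInv η v (EscN.mns Q B b l h) := by
  induction l with
  | nil => simp at hi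
  | cons j l ih =>
    simp only [EscN.mns]
    rcases List.mem_cons.1 hi with rfl | hi
    · have := hh.mns (b := b) hQ hB l
      rwa [mns_mn] at this
    · exact (ih hi).mn hQ hB (b j)

lemma mns_const (hQ : 0 < Q) (hB : 0 < B) {h : W → V} (hc : ∀ i x, ∀ s : ℝ, h (x + s • b i) = h x)
    (l : List ι) : mns Q B b l h = h := by
  induction l with
  | nil => rfl
  | cons i l ih =>
    funext x
    simp only [mns]
    rw [ih]
    exact mn_const hQ hB (b i) (fun s => hc i x s)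

/-- iterated means are convex combinations of translates -/
lemma mns_rep (hQ : 0 < Q) (hB : 0 < B) (l : List ι) : ∃ (N : ℕ) (c : Fin N → ℝ) (w : Fin N → W),
    (∀ i, 0 ≤ c i) ∧ ∑ i, c i = 1 ∧ (∀ i, w i ∈ Submodule.span ℝ (Set.range b)) ∧
      ∀ (h : W → ℝ) (x : W), mns Q B b l h x = ∑ i, c i * h (x + w i) := by
  induction l with
  | nil =>
    exact ⟨1, fun _ => 1, fun _ => 0, fun _ => zero_le_one, by simp, fun _ => zero_mem _, fun h x => by
      simp [mns]⟩
  | cons i l ih =>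
    obtain ⟨N, c, w, hc, hs, hw, hr⟩ := ih
    have hN : ((Q * B : ℕ) : ℝ) ≠ 0 := by exact_mod_cast (Nat.mul_pos hQ hB).ne'
    refine ⟨Q * B * N, fun a => ((Q * B : ℕ) : ℝ)⁻¹ * c (finProdFinEquiv.symm a).2,
      fun a => (((finProdFinEquiv.symm a).1 : ℕ) / (Q : ℝ)) • b i + w (finProdFinEquiv.symm a).2,
      fun a => mul_nonneg (inv_nonneg.2 (Nat.cast_nonneg _)) (hc _), ?_, fun a => ?_, fun h x => ?_⟩
    · rw [← finProdFinEquiv.sum_comp]
      simp only [Equiv.symm_apply_apply]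
      rw [Fintype.sum_prod_type]
      simp only [← Finset.mul_sum, hs, mul_one, sum_const, card_univ, Fintype.card_fin]
      rw [nsmul_eq_mul, mul_inv_cancel₀ hN]
    · exact add_mem (Submodule.smul_mem _ _ (Submodule.subset_span ⟨i, rfl⟩)) (hw _)
    · simp only [mns]
      unfold mn
      rw [← finProdFinEquiv.sum_comp]
      simp only [Equiv.symm_apply_apply]
      rw [Fintype.sum_prod_type, smul_eq_mul, Finset.mul_sum, Finset.sum_range]
      refine Finset.sum_congr rfl fun a _ => ?_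
      rw [hr, Finset.mul_sum]
      refine Finset.sum_congr rfl fun a' _ => ?_
      rw [mul_assoc, add_assoc]

end lists

omit [NormedSpace ℝ V] in
/-- near invariance along a family of vectors gives near invariance along their combinations -/
lemma ninv_sum {ι : Type*} {b : ι → W} {η : ℝ} {h : W → V} (hh : ∀ i, ∀ s : ℝ, NInv η (s • b i) h)
    (s : Finset ι) (a : ι → ℝ) : NInv (s.card * η) (∑ i ∈ s, a i • b i) h := by
  classical
  induction s using Finset.induction_on with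
  | empty => intro x; simp
  | insert i s hi ih =>
    intro x
    rw [sum_insert hi, card_insert_of_notMem hi, add_comm (a i • b i), ← add_assoc]
    have h1 := hh i (a i) (x + ∑ i ∈ s, a i • b i)
    have h2 := ih x
    have h3 := norm_sub_le_norm_sub_add_norm_sub (h (x + ∑ i ∈ s, a i • b i + a i • b i))
      (h (x + ∑ i ∈ s, a i • b i)) (h x)
    push_cast
    linarith

end EscN
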