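import Mathlib

/-!
# ESCN module U: uniform means of almost periodic families
-/

noncomputable section

namespace EscN

open MeasureTheory Set Filter Topology

/-- The powers of a linear isometry of a Euclidean space are almost periodic. -/
theorem ap_iso {E : Type*} [NormedAddCommGroup E] [InnerProductSpace ℝ E] [FiniteDimensional ℝ E]
    (O : E ≃ₗᵢ[ℝ] E) {δ : ℝ} (hδ : 0 < δ) :
    ∃ L : ℕ, ∀ a : ℤ, ∃ q : ℤ, a ≤ q ∧ q ≤ a + L ∧ ∀ x, ‖(O ^ q) x - x‖ ≤ δ * ‖x‖ := by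
  classical
  let u : ℤ → (E →L[ℝ] E) := fun n =>
    ((O ^ n).toContinuousLinearEquiv : E ≃L[ℝ] E).toContinuousLinearMap
  have hu : ∀ n x, u n x = (O ^ n) x := fun n x => rfl
  have hn : ∀ n, ‖u n‖ ≤ 1 := by
    intro n
    refine ContinuousLinearMap.opNorm_le_bound _ zero_le_one fun x => ?_
    rw [hu, LinearIsometryEquiv.norm_map, one_mul]
  have hproper : ProperSpace (E →L[ℝ] E) := FiniteDimensional.proper_real (E →L[ℝ] E)
  have htb : TotallyBounded (Set.range u) := by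
    refine ((isCompact_closedBall (0 : E →L[ℝ] E) 1).totallyBounded).subset ?_
    rintro _ ⟨n, rfl⟩
    rw [mem_closedBall_zero_iff]
    exact hn n
  obtain ⟨t, ht1, ht2, ht3⟩ := htb.exists_subset (Metric.dist_mem_uniformity hδ)
  -- representatives
  have hrep : ∀ y ∈ t, ∃ m : ℤ, u m = y := fun y hy => ht1 hy
  choose! m hm using hrep
  obtain ⟨B, hB⟩ : ∃ B : ℕ, ∀ y ∈ t, (m y).natAbs ≤ B := by
    obtain ⟨B, hB⟩ := (ht2.image fun y => (m y).natAbs).bddAbove
    exact ⟨B, fun y hy => hB ⟨y, hy, rfl⟩⟩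
  refine ⟨2 * B, fun a => ?_⟩
  have hmem := ht3 (Set.mem_range_self (a + B))
  simp only [Set.mem_iUnion, Set.mem_ofPred_eq] at hmem
  obtain ⟨y, hy, hd⟩ := hmem
  have hby := hB y hy
  refine ⟨a + B - m y, by omega, by push_cast; omega, fun x => ?_⟩
  rw [← hm y hy, dist_eq_norm] at hd
  -- write `x = O ^ m x'`
  have h1 : (O ^ (a + B - m y)) x = (O ^ (a + (B : ℤ))) ((O ^ (- m y)) x) := by
    rw [sub_eq_add_neg, zpow_add, LinearIsometryEquiv.coe_mul, Function.comp_apply]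
  have h2 : (O ^ (m y)) ((O ^ (- m y)) x) = x := by
    rw [← Function.comp_apply (f := (O ^ (m y))), ← LinearIsometryEquiv.coe_mul, ← zpow_add,
      add_neg_cancel, zpow_zero, LinearIsometryEquiv.coe_one, id]
  have h3 : (O ^ (a + B - m y)) x - x = (u (a + B) - u (m y)) ((O ^ (- m y)) x) := by
    rw [_root_.sub_apply, hu, hu, h2, h1]
  rw [h3]
  refine (ContinuousLinearMap.le_opNorm _ _).trans ?_
  rw [LinearIsometryEquiv.norm_map]
  exact mul_le_mul_of_nonneg_right hd.le (norm_nonneg _)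

section mean

variable {V : Type*} [NormedAddCommGroup V] [NormedSpace ℝ V]

theorem U_norm_int_le {f : ℝ → V} {M : ℝ} (hb : ∀ θ, ‖f θ‖ ≤ M) (a b : ℝ) :
    ‖∫ θ in a..b, f θ‖ ≤ M * |b - a| :=
  intervalIntegral.norm_integral_le_of_norm_le_const fun θ _ => hb θ

/-- shift of the window -/
theorem U_shift_window {f : ℝ → V} {M δ L : ℝ} (hb : ∀ θ, ‖f θ‖ ≤ M) (hc : Continuous f)
    (hap : ∀ a : ℝ, ∃ q, a ≤ q ∧ q ≤ a + L ∧ ∀ θ, ‖f (θ + q) - f θ‖ ≤ δ) (a b : ℝ) {T : ℝ}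
    (hT : 0 ≤ T) :
    ‖(∫ θ in a..a + T, f θ) - ∫ θ in b..b + T, f θ‖ ≤ δ * T + 2 * (M * L) := by
  obtain ⟨q, hq1, hq2, hq⟩ := hap (a - b)
  have hint : ∀ c d : ℝ, IntervalIntegrable f volume c d := fun c d => hc.intervalIntegrable c d
  have hM : 0 ≤ M := (norm_nonneg _).trans (hb 0)
  have e1 : (∫ θ in a..a + T, f θ) = (∫ θ in b..b + T, f (θ + q)) + (∫ θ in a..b + q, f θ) -
      ∫ θ in a + T..b + T + q, f θ := by
    rw [intervalIntegral.integral_comp_add_right (fun θ => f θ) q]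
    have e2 := intervalIntegral.integral_add_adjacent_intervals (hint a (b + q))
      (hint (b + q) (b + T + q))
    have e3 := intervalIntegral.integral_add_adjacent_intervals (hint a (a + T))
      (hint (a + T) (b + T + q))
    rw [eq_sub_iff_add_eq, e3, ← e2, add_comm]
  have e4 : (∫ θ in a..a + T, f θ) - (∫ θ in b..b + T, f θ) =
      (∫ θ in b..b + T, (f (θ + q) - f θ)) + (∫ θ in a..b + q, f θ) -
        ∫ θ in a + T..b + T + q, f θ := by
    have hcq : Continuous fun θ => f (θ + q) := by fun_prop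
    have e5 : (∫ θ in b..b + T, (f (θ + q) - f θ)) =
        (∫ θ in b..b + T, f (θ + q)) - ∫ θ in b..b + T, f θ :=
      intervalIntegral.integral_sub (hcq.intervalIntegrable _ _) (hint _ _)
    rw [e5, e1]
    abel
  rw [e4]
  have b1 : ‖∫ θ in b..b + T, (f (θ + q) - f θ)‖ ≤ δ * T := by
    have := U_norm_int_le (f := fun θ => f (θ + q) - f θ) hq b (b + T)
    rwa [add_sub_cancel_left, abs_of_nonneg hT] at this
  have b2 : ‖∫ θ in a..b + q, f θ‖ ≤ M * L := by
    refine (U_norm_int_le hb a (b + q)).trans (mul_le_mul_of_nonneg_left ?_ hM)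
    rw [abs_le]
    constructor <;> linarith
  have b3 : ‖∫ θ in a + T..b + T + q, f θ‖ ≤ M * L := by
    refine (U_norm_int_le hb _ _).trans (mul_le_mul_of_nonneg_left ?_ hM)
    rw [abs_le]
    constructor <;> linarith
  calc _ ≤ ‖(∫ θ in b..b + T, (f (θ + q) - f θ)) + ∫ θ in a..b + q, f θ‖ +
        ‖∫ θ in a + T..b + T + q, f θ‖ := norm_sub_le _ _
    _ ≤ (‖∫ θ in b..b + T, (f (θ + q) - f θ)‖ + ‖∫ θ in a..b + q, f θ‖) +
        ‖∫ θ in a + T..b + T + q, f θ‖ := by gcongr; exact norm_add_le _ _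
    _ ≤ (δ * T + M * L) + M * L := by gcongr
    _ = _ := by ring

/-- the mean over a long window is close to the mean over a short window -/
theorem U_long_window {f : ℝ → V} {M δ L : ℝ} (hb : ∀ θ, ‖f θ‖ ≤ M) (hc : Continuous f)
    (hap : ∀ a : ℝ, ∃ q, a ≤ q ∧ q ≤ a + L ∧ ∀ θ, ‖f (θ + q) - f θ‖ ≤ δ) (hδ : 0 ≤ δ)
    (hL : 0 ≤ L) (a b : ℝ) {T S : ℝ} (hT : 0 < T) (hTS : T ≤ S) :
    ‖(1 / S) • (∫ θ in b..b + S, f θ) - (1 / T) • ∫ θ in a..a + T, f θ‖ ≤
      δ + 2 * (M * L) / T + 2 * M * T / S := by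
  have hint : ∀ c d : ℝ, IntervalIntegrable f volume c d := fun c d => hc.intervalIntegrable c d
  have hM : 0 ≤ M := (norm_nonneg _).trans (hb 0)
  have hS : 0 < S := hT.trans_le hTS
  set I := ∫ θ in a..a + T, f θ with hI
  set N := ⌊S / T⌋₊ with hN
  have hN1 : (N : ℝ) * T ≤ S := by
    have := Nat.floor_le (div_nonneg hS.le hT.le)
    rwa [le_div_iff₀ hT] at this
  have hN2 : S < (N + 1) * T := by
    have := Nat.lt_floor_add_one (S / T)
    rwa [div_lt_iff₀ hT] at this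
  -- sum over the small windows
  have hsum : ‖(∫ θ in b..b + N * T, f θ) - (N : ℝ) • I‖ ≤ N * (δ * T + 2 * (M * L)) := by
    have e1 : (∫ θ in b..b + N * T, f θ) =
        ∑ i ∈ Finset.range N, ∫ θ in (b + i * T)..(b + i * T) + T, f θ := by
      have := intervalIntegral.sum_integral_adjacent_intervals (f := f) (μ := volume)
        (a := fun i : ℕ => b + i * T) (n := N) (fun k _ => hint _ _)
      simp only [Nat.cast_zero, zero_mul, add_zero] at this
      rw [← this]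
      refine Finset.sum_congr rfl fun i _ => ?_
      congr 1
      push_cast
      ring
    have e2 : (N : ℝ) • I = ∑ _i ∈ Finset.range N, I := by
      rw [Finset.sum_const, Finset.card_range, Nat.cast_smul_eq_nsmul]
    rw [e1, e2, ← Finset.sum_sub_distrib]
    refine (norm_sum_le _ _).trans ?_
    calc _ ≤ ∑ _i ∈ Finset.range N, (δ * T + 2 * (M * L)) :=
          Finset.sum_le_sum fun i _ => U_shift_window hb hc hap _ _ hT.le
      _ = _ := by rw [Finset.sum_const, Finset.card_range, nsmul_eq_mul]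
  have hIn : ‖I‖ ≤ M * T := by
    have := U_norm_int_le hb a (a + T)
    rwa [add_sub_cancel_left, abs_of_pos hT] at this
  have hrest : ‖∫ θ in b + N * T..b + S, f θ‖ ≤ M * T := by
    refine (U_norm_int_le hb _ _).trans (mul_le_mul_of_nonneg_left ?_ hM)
    rw [abs_le]
    constructor <;> linarith
  have key : (1 / S) • (∫ θ in b..b + S, f θ) - (1 / T) • I =
      (1 / S) • (((∫ θ in b..b + N * T, f θ) - (N : ℝ) • I) + (∫ θ in b + N * T..b + S, f θ) -
        ((S - N * T) / T) • I) := by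
    have e1 := intervalIntegral.integral_add_adjacent_intervals (hint b (b + N * T))
      (hint (b + N * T) (b + S))
    rw [← e1]
    have e2 : (1 / T) • I = (1 / S) • ((N : ℝ) • I + ((S - N * T) / T) • I) := by
      rw [← add_smul, smul_smul]
      congr 1
      field_simp
      ring
    rw [e2, ← smul_sub]
    congr 1
    abel
  rw [key, norm_smul, Real.norm_of_nonneg (by positivity)]
  have h4 : ‖((S - N * T) / T) • I‖ ≤ M * T := by
    rw [norm_smul, Real.norm_of_nonneg (div_nonneg (by linarith) hT.le)]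
    have : (S - N * T) / T ≤ 1 := by
      rw [div_le_one hT]
      linarith
    calc (S - N * T) / T * ‖I‖ ≤ 1 * (M * T) :=
          mul_le_mul this hIn (norm_nonneg _) zero_le_one
      _ = M * T := one_mul _
  have h5 : ‖((∫ θ in b..b + N * T, f θ) - (N : ℝ) • I) + (∫ θ in b + N * T..b + S, f θ) -
        ((S - N * T) / T) • I‖ ≤ N * (δ * T + 2 * (M * L)) + M * T + M * T := by
    refine (norm_sub_le _ _).trans (add_le_add ((norm_add_le _ _).trans (add_le_add hsum hrest)) h4)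
  calc 1 / S * _ ≤ 1 / S * (N * (δ * T + 2 * (M * L)) + M * T + M * T) := by gcongr
    _ ≤ 1 / S * (S / T * (δ * T + 2 * (M * L)) + M * T + M * T) := by
        gcongr
        exact Nat.floor_le (div_nonneg hS.le hT.le)
    _ = δ + 2 * (M * L) / T + 2 * M * T / S := by
        field_simp
        ring

end mean

/-- Uniform means of an almost periodic family. -/
theorem ap_mean {X V : Type*} [NormedAddCommGroup V] [NormedSpace ℝ V] [CompleteSpace V]
    (φ : X → ℝ → V) {M : ℝ} (hb : ∀ x θ, ‖φ x θ‖ ≤ M) (hc : ∀ x, Continuous (φ x))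
    (hap : ∀ δ > 0, ∃ L > 0, ∀ a : ℝ, ∃ q, a ≤ q ∧ q ≤ a + L ∧
      ∀ x θ, ‖φ x (θ + q) - φ x θ‖ ≤ δ) {δ : ℝ} (hδ : 0 < δ) :
    ∃ T0 > 0, ∀ T ≥ T0, ∀ T' ≥ T0, ∀ x a a',
      ‖(1 / T) • (∫ θ in a..a + T, φ x θ) - (1 / T') • (∫ θ in a'..a' + T', φ x θ)‖ ≤ δ := by
  rcases isEmpty_or_nonempty X with hX | ⟨⟨x0⟩⟩
  · exact ⟨1, one_pos, fun T _ T' _ x => (hX.false x).elim⟩
  have hM : 0 ≤ M := (norm_nonneg _).trans (hb x0 0)
  obtain ⟨L, hL, hq⟩ := hap (δ / 6) (by positivity)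
  have hδ1 : 0 < δ / 6 := by positivity
  have hT0 : 0 < 2 * (M * L) / (δ / 6) + 1 := by positivity
  refine ⟨2 * (M * L) / (δ / 6) + 1, hT0, fun T hT T' hT' x a a' => ?_⟩
  have hTp : 0 < T := hT0.trans_le hT
  have hTp' : 0 < T' := hT0.trans_le hT'
  have hLM : ∀ T ≥ 2 * (M * L) / (δ / 6) + 1, 2 * (M * L) / T ≤ δ / 6 := by
    intro T hT
    have hTp : 0 < T := hT0.trans_le hT
    have h := (div_le_iff₀ hδ1).1 (show 2 * (M * L) / (δ / 6) ≤ T by linarith)
    rw [div_le_iff₀ hTp]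
    linarith
  have hap' : ∀ a : ℝ, ∃ q, a ≤ q ∧ q ≤ a + L ∧ ∀ θ, ‖φ x (θ + q) - φ x θ‖ ≤ δ / 6 := by
    intro a
    obtain ⟨q, h1, h2, h3⟩ := hq a
    exact ⟨q, h1, h2, h3 x⟩
  set S := max T T' * (2 * M / (δ / 6) + 1) with hS
  have hk : 1 ≤ 2 * M / (δ / 6) + 1 := by
    have : 0 ≤ 2 * M / (δ / 6) := by positivity
    linarith
  have hmax : 0 < max T T' := lt_max_of_lt_left hTp
  have hmS : max T T' ≤ S := le_mul_of_one_le_right hmax.le hk
  have hSp : 0 < S := hmax.trans_le hmS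
  have hsmall : ∀ T₁, 0 < T₁ → T₁ ≤ max T T' → 2 * M * T₁ / S ≤ δ / 6 := by
    intro T₁ hT₁ h1
    rw [div_le_iff₀ hSp]
    calc 2 * M * T₁ ≤ 2 * M * max T T' := by gcongr
      _ = δ / 6 * (max T T' * (2 * M / (δ / 6))) := by field_simp
      _ ≤ δ / 6 * S := by
          rw [hS]
          gcongr
          linarith
  have h1 := U_long_window (hb x) (hc x) hap' hδ1.le hL.le a 0 hTp ((le_max_left _ _).trans hmS)
  have h2 := U_long_window (hb x) (hc x) hap' hδ1.le hL.le a' 0 hTp' ((le_max_right _ _).trans hmS)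
  have h3 := hsmall T hTp (le_max_left _ _)
  have h4 := hsmall T' hTp' (le_max_right _ _)
  have h5 := hLM T hT
  have h6 := hLM T' hT'
  have h7 : ‖(1 / T) • (∫ θ in a..a + T, φ x θ) - (1 / T') • (∫ θ in a'..a' + T', φ x θ)‖ ≤
      ‖(1 / S) • (∫ θ in (0:ℝ)..0 + S, φ x θ) - (1 / T) • (∫ θ in a..a + T, φ x θ)‖ +
      ‖(1 / S) • (∫ θ in (0:ℝ)..0 + S, φ x θ) - (1 / T') • (∫ θ in a'..a' + T', φ x θ)‖ := by
    rw [← norm_neg ((1 / S) • (∫ θ in (0:ℝ)..0 + S, φ x θ) - (1 / T) • (∫ θ in a..a + T, φ x θ))]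
    refine le_trans (le_of_eq ?_) (norm_add_le _ _)
    congr 1
    abel
  linarith

end EscN
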