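import Pool.Agent.EscN.B0
import Pool.Agent.EscN.U
import Pool.Agent.EscN.T3a

/-!
Potentials are almost periodic along the lattice vectors (project ESCN).
-/

noncomputable section

namespace EscN

open Set Filter Topology Esc
open scoped ContDiff

variable {d : ℕ} {E : Type*} [NormedAddCommGroup E] [InnerProductSpace ℝ E] (L : Sp d E)

namespace SpAP

lemma Q_add' (x x' : E) : L.Q (x + x') = L.Q x + L.Q x' := by
  unfold Sp.Q
  rw [map_add, y_add, add_smul]
  abel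

lemma Q_smul' (a : ℝ) (x : E) : L.Q (a • x) = a • L.Q x := by
  unfold Sp.Q
  rw [map_smul, y_smul, mul_smul, smul_sub, smul_sub]

lemma Q_sub_Q (x : E) : L.Q (x - L.Q x) = 0 := by
  have h : x - L.Q x = L.P x + L.y x • L.e := by unfold Sp.Q; abel
  rw [h]
  unfold Sp.Q
  rw [map_add, map_smul, L.P_e, P_P, y_add, y_smul, y_P, y_e]
  simp

lemma Q_b (i : Fin d) : L.Q (L.b i) = 0 := by
  unfold Sp.Q
  have : L.y (L.b i) = 0 := L.eb i
  rw [L.P_b, this, zero_smul, sub_self, sub_zero]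

lemma zpow_W {O : E ≃ₗᵢ[ℝ] E} {w : E} (h : O w = w) (q : ℤ) : (O ^ q) w = w := by
  have hn : ∀ k : ℕ, (O ^ k) w = w := by
    intro k
    induction k with
    | zero => rfl
    | succ k ih =>
      rw [pow_succ]
      change (O ^ k) (O w) = w
      rw [h, ih]
  obtain ⟨a, rfl | rfl⟩ := q.eq_nat_or_neg
  · rw [zpow_natCast]; exact hn a
  · rw [zpow_neg, zpow_natCast]
    have h1 := hn a
    conv_lhs => rw [← h1]
    exact (O ^ a).symm_apply_apply w

lemma per_zpow {O : E ≃ₗᵢ[ℝ] E} {w : E} (h : O w = w) {f : E → ℝ → ℝ} (hf : ∀ x t, f (O x + w) t = f x t)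
    (q : ℤ) (x : E) (t : ℝ) : f ((O ^ q) x + (q : ℝ) • w) t = f x t := by
  have hn : ∀ (k : ℕ) (x : E), f ((O ^ k) x + (k : ℝ) • w) t = f x t := by
    intro k
    induction k with
    | zero => intro x; simp
    | succ k ih =>
      intro x
      have e : (O ^ (k + 1)) x + ((k + 1 : ℕ) : ℝ) • w = O ((O ^ k) x + (k : ℝ) • w) + w := by
        rw [pow_succ', map_add, map_smul, h]
        push_cast
        rw [add_smul, one_smul, ← add_assoc]
        rfl
      rw [e, hf, ih]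
  obtain ⟨a, rfl | rfl⟩ := q.eq_nat_or_neg
  · rw [zpow_natCast]; push_cast; exact hn a x
  · have h2 := hn a ((O ^ (-(a : ℤ))) x + ((-(a : ℤ) : ℤ) : ℝ) • w)
    rw [← h2]
    congr 1
    rw [map_add, map_smul]
    have h3 : (O ^ a) w = w := by
      have := zpow_W h (a : ℤ)
      rwa [zpow_natCast] at this
    have h4 : (O ^ a) ((O ^ (-(a : ℤ))) x) = x := by
      rw [zpow_neg, zpow_natCast]
      exact (O ^ a).apply_symm_apply x
    rw [h3, h4]
    push_cast
    rw [neg_smul, neg_add_cancel_right]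

end SpAP

open SpAP

variable [FiniteDimensional ℝ E]

/-- a potential which is invariant under an isometry which fixes `W`, followed by a translation in
`W`, is almost periodic in this direction -/
theorem ap_gen {f : E → ℝ → ℝ} (hf : L.IsPot f) {O : E ≃ₗᵢ[ℝ] E} {w : E} (hw : L.Q w = 0)
    (hO : ∀ v, L.Q v = 0 → O v = v) (hper : ∀ x t, f (O x + w) t = f x t) :
    AP (fun (p : E × ℝ) (θ : ℝ) => f (p.1 + θ • w) p.2) := by
  obtain ⟨M, hM⟩ := isPot_good L hf
  intro δ hδ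
  have hM0 := hM.pos
  obtain ⟨Lg, hL⟩ := ap_iso O (δ := δ / (M * (|L.R0| + 1) + 1)) (by positivity)
  refine ⟨Lg, fun a => ?_⟩
  obtain ⟨q, hq1, hq2, hq⟩ := hL a
  refine ⟨q, hq1, hq2, fun ⟨x, t⟩ θ => ?_⟩
  simp only
  set Y := x + θ • w with hY
  have e1 : x + (θ + q) • w = Y + (q : ℝ) • w := by rw [hY, add_smul, add_assoc]
  rw [e1, Real.norm_eq_abs]
  by_cases hs : L.R0 + 1 ≤ ‖L.Q Y‖
  · have h1 : L.Q (Y + (q : ℝ) • w) = L.Q Y := by rw [Q_add', Q_smul', hw, smul_zero, add_zero]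
    rw [hf.supp _ _ hs, hf.supp _ _ (by rw [h1]; exact hs), sub_self, abs_zero]
    exact hδ.le
  · push Not at hs
    have h1 := per_zpow (hO w hw) hper q ((O ^ (-q)) Y) t
    have h2 : (O ^ q) ((O ^ (-q)) Y) = Y := by
      rw [zpow_neg]
      exact (O ^ q).apply_symm_apply Y
    rw [h2] at h1
    rw [h1]
    have h3 : ‖(O ^ (-q)) Y - Y‖ ≤ δ / (M * (|L.R0| + 1) + 1) * ‖L.Q Y‖ := by
      have h4 : ‖(O ^ (-q)) Y - Y‖ = ‖(O ^ q) Y - Y‖ := by
        rw [← LinearIsometryEquiv.norm_map (O ^ q) ((O ^ (-q)) Y - Y), map_sub, h2, norm_sub_rev]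
      rw [h4]
      have h5 : (O ^ q) Y - Y = (O ^ q) (L.Q Y) - L.Q Y := by
        have h6 : (O ^ q) (Y - L.Q Y) = Y - L.Q Y := zpow_W (hO _ (Q_sub_Q L Y)) q
        rw [map_sub] at h6
        have h7 : (O ^ q) Y = (O ^ q) (L.Q Y) + (Y - L.Q Y) := by rw [← h6]; abel
        rw [h7]; abel
      rw [h5]
      exact hq _
    refine (hM.lipx _ _ _).trans ?_
    have h8 : ‖L.Q Y‖ ≤ |L.R0| + 1 := hs.le.trans (by linarith [le_abs_self L.R0])
    calc M * ‖(O ^ (-q)) Y - Y‖ ≤ M * (δ / (M * (|L.R0| + 1) + 1) * (|L.R0| + 1)) := by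
          refine mul_le_mul_of_nonneg_left (h3.trans ?_) hM0
          exact mul_le_mul_of_nonneg_left h8 (by positivity)
      _ = (M * (|L.R0| + 1)) * (δ / (M * (|L.R0| + 1) + 1)) := by ring
      _ ≤ (M * (|L.R0| + 1) + 1) * (δ / (M * (|L.R0| + 1) + 1)) :=
          mul_le_mul_of_nonneg_right (by linarith) (by positivity)
      _ = δ := mul_div_cancel₀ _ (by positivity)

theorem ap_b {f : E → ℝ → ℝ} (hf : L.IsPot f) (i : Fin d) :
    AP (fun (p : E × ℝ) (θ : ℝ) => f (p.1 + θ • L.b i) p.2) := by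
  refine ap_gen L hf (O := L.O (Pi.single i 1)) (Q_b L i) (fun _ hv => O_W L _ hv) fun x t => ?_
  have h := hf.perd (Pi.single i 1) x t
  unfold Sp.dk at h
  have e : L.lv (Pi.single i 1) = L.b i := by
    unfold Sp.lv
    rw [Finset.sum_eq_single i]
    · simp
    · intro j _ hj
      rw [Pi.single_eq_of_ne hj]
      simp
    · simp
  rwa [e] at h

theorem ap_g {f : E → ℝ → ℝ} (hf : L.IsPot f) :
    AP (fun (p : E × ℝ) (θ : ℝ) => f (p.1 + θ • L.g) p.2) :=
  ap_gen L hf (O := L.Og) (Q_g L) (fun v hv => Og_W L hv) fun x t => hf.perg x t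

/-- long means with fine mesh along a vector of almost periodicity are almost invariant -/
theorem ninv_of_ap {f : E → ℝ → ℝ} (hf : L.IsPot f) {w : E}
    (hap : AP (fun (p : E × ℝ) (θ : ℝ) => f (p.1 + θ • w) p.2)) {η : ℝ} (hη : 0 < η) :
    ∃ Q0 B0 : ℕ, 0 < Q0 ∧ 0 < B0 ∧ ∀ Q ≥ Q0, ∀ B ≥ B0, ∀ t, ∀ s : ℝ,
      NInv η (s • w) (mn Q B w (fun x => f x t)) := by
  obtain ⟨M, hM⟩ := isPot_good L hf
  have hM0 := hM.pos
  obtain ⟨Q0, B0, hQ0, hB0, h⟩ := near_inv_mean (M := M) (φ := fun (p : E × ℝ) (θ : ℝ) => f (p.1 + θ • w) p.2)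
    (fun p θ => by rw [Real.norm_eq_abs]; exact hM.bd _ _) (fun δ hδ => by
      refine ⟨δ / (M * ‖w‖ + 1), by positivity, fun p θ θ' hθ => ?_⟩
      rw [Real.norm_eq_abs]
      refine (hM.lipx _ _ _).trans ?_
      have e : p.1 + θ • w - (p.1 + θ' • w) = (θ - θ') • w := by rw [sub_smul]; abel
      rw [e, norm_smul, Real.norm_eq_abs]
      calc M * (|θ - θ'| * ‖w‖) = |θ - θ'| * (M * ‖w‖) := by ring
        _ ≤ δ / (M * ‖w‖ + 1) * (M * ‖w‖ + 1) :=
            mul_le_mul hθ (by linarith) (by positivity) (by positivity)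
        _ = δ := div_mul_cancel₀ _ (by positivity)) hap hη
  refine ⟨Q0, B0, hQ0, hB0, fun Q hQ B hB t s x => ?_⟩
  have h1 := h Q hQ B hB (x, t) s 0
  rw [dmean_eq_mn Q B w (fun x => f x t) x s, dmean_eq_mn Q B w (fun x => f x t) x 0] at h1
  rwa [zero_smul, add_zero] at h1

end EscN
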