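import Pool.Agent.EscN.Defs
import Pool.Agent.helper42.Esc.A3

/-!
Module A of project ESCN (MP_6acca1_an), part 1: the pendulum kernel.
-/

noncomputable section

namespace EscN

open MeasureTheory Set Filter Topology Esc
open scoped ContDiff

/-- the pendulum potential -/
theorem pend_good (p : ℝ) {ε : ℝ} (hε : 0 < ε) (hε' : ε ≤ 1) :
    Good 8 (fun (y : ℝ) (_ : ℝ) => ε * (1 - Real.cos (2 * Real.pi * (y - p)))) where
  pos := by norm_num
  cont := by fun_prop
  bd := fun x t => by
    have h1 := Real.neg_one_le_cos (2 * Real.pi * (x - p))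
    have h2 := Real.cos_le_one (2 * Real.pi * (x - p))
    rw [abs_of_nonneg (mul_nonneg hε.le (by linarith))]
    nlinarith
  lipx := fun x x' t => by
    have h1 : |Real.cos (2 * Real.pi * (x - p)) - Real.cos (2 * Real.pi * (x' - p))|
        ≤ 2 * Real.pi * |x - x'| := by
      have h2 : LipschitzWith 1 Real.cos := by
        apply lipschitzWith_of_nnnorm_deriv_le Real.differentiable_cos
        intro x
        rw [Real.deriv_cos', nnnorm_neg]
        have := Real.abs_sin_le_one x
        rw [← Real.norm_eq_abs] at this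
        exact_mod_cast this
      have h3 := h2.dist_le_mul (2 * Real.pi * (x - p)) (2 * Real.pi * (x' - p))
      have e0 : 2 * Real.pi * (x - p) - 2 * Real.pi * (x' - p) = 2 * Real.pi * (x - x') := by ring
      have hp : 0 < 2 * Real.pi := by positivity
      rw [Real.dist_eq, Real.dist_eq, NNReal.coe_one, one_mul, e0, abs_mul, abs_of_pos hp] at h3
      exact h3
    have e1 : ε * (1 - Real.cos (2 * Real.pi * (x - p))) - ε * (1 - Real.cos (2 * Real.pi * (x' - p)))
        = -(ε * (Real.cos (2 * Real.pi * (x - p)) - Real.cos (2 * Real.pi * (x' - p)))) := by ring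
    rw [e1, abs_neg, abs_mul, abs_of_pos hε, Real.norm_eq_abs]
    have h4 := Real.pi_lt_d2
    have h5 := abs_nonneg (x - x')
    calc ε * |Real.cos (2 * Real.pi * (x - p)) - Real.cos (2 * Real.pi * (x' - p))|
        ≤ 1 * (2 * Real.pi * |x - x'|) := by
          apply mul_le_mul hε' h1 (abs_nonneg _) (by norm_num)
      _ ≤ 8 * |x - x'| := by nlinarith
  lipt := fun x t t' => by
    simp only [sub_self, abs_zero]
    positivity

theorem zero_good : Good 8 (fun (_ : ℝ) (_ : ℝ) => (0:ℝ)) where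
  pos := by norm_num
  cont := continuous_const
  bd := fun x t => by simp
  lipx := fun x x' t => by simp
  lipt := fun x t t' => by simp

/-- the pendulum kernel -/
theorem sdata_pendulum (p : ℝ) {ε : ℝ} (hε : 0 < ε) (hε' : ε ≤ 1 / 10000) :
    ∃ e0 : ℝ, SData (fun y y' => Esc.ker (fun y (_ : ℝ) => ε * (1 - Real.cos (2 * Real.pi * (y - p)))) (0:ℝ) 0 1 y y')
      p (ε / 50) 0 e0 ((ε / 50) ^ 2 / 200) := by
  set F' : ℝ → ℝ → ℝ := fun y (_ : ℝ) => ε * (1 - Real.cos (2 * Real.pi * (y - p))) with hF'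
  have g' : Good 8 F' := pend_good p hε (by linarith)
  have g0 := zero_good
  have hnn : ∀ y t, 0 ≤ F' y t := fun y t => by
    simp only [hF']
    have := Real.cos_le_one (2 * Real.pi * (y - p))
    exact mul_nonneg hε.le (by linarith)
  have h0 : ∀ a b : ℝ, 0 ≤ Esc.ker F' (0:ℝ) 0 1 a b := by
    intro a b
    apply le_ker one_pos
    intro u hu hz
    rw [act_eq g' _ _ _ _ hu]
    have h1 : 0 ≤ ∫ t in (0:ℝ)..1, ‖u t - 0‖ ^ 2 / 2 :=
      intervalIntegral.integral_nonneg zero_le_one (fun t _ => by positivity)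
    have h2 : 0 ≤ ∫ t in (0:ℝ)..1, F' (traj 0 a u t) t :=
      intervalIntegral.integral_nonneg zero_le_one (fun t _ => hnn _ t)
    linarith
  refine ⟨0, ⟨fun a b a' b' h h' => ker_cross g' h h', fun η η' hη => ?_, fun v => h0 v v, ⟨p, ?_, ?_⟩,
    fun v hv hv' => ?_, by positivity, by linarith, by positivity, le_rfl⟩⟩
  · -- c2
    have hflat : Flat (fun (_ : ℝ) (_ : ℝ) => (0:ℝ)) 0 (2 * 0 + 4) 0 := by
      intro a u _ _
      simp
    have h1 := flat_ker (M := 0) g0 (fun x t => by simp) le_rfl hflat hη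
    have h2 : |Esc.ker F' (0:ℝ) 0 1 η η' - Esc.ker (fun (_ : ℝ) (_ : ℝ) => (0:ℝ)) (0:ℝ) 0 1 η η'|
        ≤ (2 * ε) * (1 - 0) := by
      refine Esc.ker_sub_le g' g0 (fun x t => ?_) (0:ℝ) one_pos η η'
      rw [sub_zero, abs_of_nonneg (hnn _ t)]
      simp only [hF']
      have := Real.neg_one_le_cos (2 * Real.pi * (x - p))
      nlinarith
    have a1 := abs_le.mp h1
    have a2 := abs_le.mp h2
    rw [abs_le]; constructor <;> linarith [a1.1, a1.2, a2.1, a2.2]
  · simp
  · apply le_antisymm _ (h0 p p)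
    refine (ker_le_act' g' _ one_pos (Adm.const 0) (by simp [traj])).trans ?_
    rw [act_eq g' _ _ _ _ (Adm.const _)]
    simp [traj, hF']
  · -- c1
    rw [zero_add]
    by_contra hlt
    push Not at hlt
    obtain ⟨u, hu, hz, hact⟩ := exists_act_lt g' (0:ℝ) one_pos v v (sub_pos.mpr hlt)
    rw [add_sub_cancel, act_eq g' _ _ _ _ hu] at hact
    have h2 : 0 ≤ ∫ t in (0:ℝ)..1, F' (traj 0 v u t) t :=
      intervalIntegral.integral_nonneg zero_le_one (fun t _ => hnn _ t)
    have hE2 : (∫ t in (0:ℝ)..1, ‖u t - 0‖ ^ 2 / 2) ≤ 1 / 500000 := by linarith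
    have hst : ∀ t ∈ Icc (0:ℝ) 1, |traj 0 v u t - v| ≤ 1 / 64 := by
      intro t ht
      have h6 := incr_bd (z := v) hu hE2 (t := 0) (h := t) le_rfl ht.1 (by linarith [ht.2])
      have h7 : traj 0 v u (0 + t) - traj 0 v u 0 - t • (0:ℝ) = traj 0 v u t - v := by
        rw [zero_add, smul_zero, sub_zero]
        congr 1
        simp [traj]
      rw [h7, Real.norm_eq_abs] at h6
      refine h6.trans ?_
      rw [Real.sqrt_le_left (by norm_num)]
      nlinarith [ht.2]
    have h3 : (∫ t in (0:ℝ)..1, ε * (9 / 128)) ≤ ∫ t in (0:ℝ)..1, F' (traj 0 v u t) t := by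
      apply intervalIntegral.integral_mono_on zero_le_one (by simp) (f_traj_ii g' hu 0 v 0 1)
      intro t ht
      have h4 := abs_le.mp (hst t ht)
      have t1 : |v - p| ≤ |traj 0 v u t - p| + 1 / 64 := by
        have := abs_sub_le v (traj 0 v u t) p
        rw [abs_sub_comm v (traj 0 v u t)] at this
        linarith [hst t ht]
      have t2 : |traj 0 v u t - p| ≤ |v - p| + 1 / 64 := by
        have := abs_sub_le (traj 0 v u t) v p
        linarith [hst t ht]
      have h5 : 9 / 128 ≤ cb p (traj 0 v u t) := cb_large (by linarith) (by linarith)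
      exact mul_le_mul_of_nonneg_left h5 hε.le
    simp only [intervalIntegral.integral_const, sub_zero, smul_eq_mul, one_mul] at h3
    have h8 : 0 ≤ ∫ t in (0:ℝ)..1, ‖u t - 0‖ ^ 2 / 2 :=
      intervalIntegral.integral_nonneg zero_le_one (fun t _ => by positivity)
    linarith

end EscN
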