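import Pool.Agent.EscN.ADef
import Pool.Agent.EscN.SpAP
import Pool.Agent.helper42.Esc.A1

/-!
Module A of project ESCN (MP_6acca1_an), part 2: averaging along a fast path.
-/

noncomputable section

namespace EscN

open MeasureTheory Set Filter Topology Esc intervalIntegral
open scoped ContDiff

section general

variable {W : Type*} [NormedAddCommGroup W] [InnerProductSpace ℝ W]

/-- comparison of the integral along a path with the integral along a translate -/
theorem shift_int {G : W → ℝ → ℝ} {M : ℝ} (hG : Good M G) {v : W} {h : ℝ} (hh0 : 0 ≤ h) (hh1 : h ≤ 1)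
    {x : ℝ → W} (hx : Continuous x) {r : ℝ} (hr0 : 0 ≤ r)
    (hr : ∀ t ∈ Icc (0:ℝ) (1 - h), |G (x (t + h)) (t + h) - G (x t + v) t| ≤ r) :
    |(∫ t in (0:ℝ)..1, G (x t) t) - ∫ t in (0:ℝ)..1, G (x t + v) t| ≤ r + 2 * M * h := by
  have hB := hG.bd
  have hB0 : 0 ≤ M := hG.pos
  have hc1 : Continuous fun t => G (x t) t := hG.cont.comp (hx.prodMk continuous_id)
  have hc2 : Continuous fun t => G (x t + v) t :=
    hG.cont.comp ((hx.add continuous_const).prodMk continuous_id)
  have hc5 : Continuous fun t => G (x (t + h)) (t + h) := hc1.comp (continuous_id.add continuous_const)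
  have e1 : (∫ t in (0:ℝ)..1, G (x t) t) = (∫ t in (0:ℝ)..h, G (x t) t)
      + ∫ t in h..1, G (x t) t :=
    (integral_add_adjacent_intervals (hc1.intervalIntegrable _ _) (hc1.intervalIntegrable _ _)).symm
  have e2 : (∫ t in h..1, G (x t) t) = ∫ t in (0:ℝ)..(1 - h), G (x (t + h)) (t + h) := by
    have := intervalIntegral.integral_comp_add_right (a := 0) (b := 1 - h) (fun t => G (x t) t) h
    rw [this]; simp
  have e4 : (∫ t in (0:ℝ)..1, G (x t + v) t) = (∫ t in (0:ℝ)..(1 - h), G (x t + v) t)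
      + ∫ t in (1 - h)..1, G (x t + v) t :=
    (integral_add_adjacent_intervals (hc2.intervalIntegrable _ _)
      (hc2.intervalIntegrable _ _)).symm
  have b1 : |∫ t in (0:ℝ)..h, G (x t) t| ≤ M * h := by
    have := norm_integral_le_of_norm_le_const (a := 0) (b := h) (C := M)
      (f := fun t => G (x t) t) (fun t _ => hB _ _)
    simpa [abs_of_nonneg hh0] using this
  have b3 : |∫ t in (1 - h)..1, G (x t + v) t| ≤ M * h := by
    have := norm_integral_le_of_norm_le_const (a := 1 - h) (b := 1) (C := M)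
      (f := fun t => G (x t + v) t) (fun t _ => hB _ _)
    have h3 : |1 - (1 - h)| = h := by rw [abs_of_nonneg (by linarith)]; ring
    rw [h3] at this
    exact this
  have b4 : |(∫ t in (0:ℝ)..(1 - h), G (x (t + h)) (t + h))
      - ∫ t in (0:ℝ)..(1 - h), G (x t + v) t| ≤ r * (1 - h) := by
    rw [← integral_sub (hc5.intervalIntegrable _ _) (hc2.intervalIntegrable _ _)]
    have := norm_integral_le_of_norm_le_const (a := 0) (b := 1 - h) (C := r)
      (f := fun t => G (x (t + h)) (t + h) - G (x t + v) t) (fun t ht => by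
        rw [uIoc_of_le (by linarith)] at ht
        exact hr t ⟨ht.1.le, ht.2⟩)
    have h3 : |1 - h - 0| = 1 - h := by rw [abs_of_nonneg (by linarith)]; ring
    rw [h3] at this
    exact this
  rw [e1, e2, e4]
  have hrτ : r * (1 - h) ≤ r := by nlinarith
  have a1 := abs_le.mp b1
  have a3 := abs_le.mp b3
  have a4 := abs_le.mp b4
  rw [abs_le]
  constructor <;> linarith [a1.1, a1.2, a3.1, a3.2, a4.1, a4.2]

theorem good_mn {G : W → ℝ → ℝ} {M : ℝ} (hG : Good M G) {Q B : ℕ} (hQ : 0 < Q) (hB : 0 < B) (w : W) :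
    Good M (fun x t => mn Q B w (fun z => G z t) x) where
  pos := hG.pos
  cont := by
    unfold mn
    simp only [smul_eq_mul]
    refine continuous_const.mul (continuous_finsetSum _ fun l _ => ?_)
    exact hG.cont.comp ((continuous_fst.add continuous_const).prodMk continuous_snd)
  bd := fun x t => by
    have := norm_mn_le (V := ℝ) hQ hB (w := w) (h := fun z => G z t) (fun z => by
      rw [Real.norm_eq_abs]; exact hG.bd z t) x
    rwa [Real.norm_eq_abs] at this
  lipx := fun x x' t => by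
    have e : mn Q B w (fun z => G z t) x - mn Q B w (fun z => G z t) x' =
        mn Q B w (fun z => G (z + (x - x')) t - G z t) x' := by
      rw [mn_sub, mn_trans Q B w (x - x') (fun z => G z t), add_sub_cancel]
    rw [e]
    have := norm_mn_le (V := ℝ) hQ hB (w := w) (h := fun z => G (z + (x - x')) t - G z t)
      (M := M * ‖x - x'‖) (fun z => by
        rw [Real.norm_eq_abs]
        refine (hG.lipx _ _ _).trans (le_of_eq ?_)
        rw [add_sub_cancel_left]) x'
    rwa [Real.norm_eq_abs] at this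
  lipt := fun x t t' => by
    rw [← mn_sub]
    have := norm_mn_le (V := ℝ) hQ hB (w := w) (h := fun z => G z t - G z t')
      (M := M * |t - t'|) (fun z => by
        rw [Real.norm_eq_abs]
        exact hG.lipt _ _ _) x
    rwa [Real.norm_eq_abs] at this

/-- the integral of a mean -/
theorem int_mn {G : W → ℝ → ℝ} {M : ℝ} (hG : Good M G) {Q B : ℕ} (hQ : 0 < Q) (hB : 0 < B) (w : W)
    {x : ℝ → W} (hx : Continuous x) {δ : ℝ}
    (h : ∀ l < Q * B, |(∫ t in (0:ℝ)..1, G (x t) t) - ∫ t in (0:ℝ)..1, G (x t + ((l : ℝ) / Q) • w) t| ≤ δ) :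
    |(∫ t in (0:ℝ)..1, G (x t) t) - ∫ t in (0:ℝ)..1, mn Q B w (fun z => G z t) (x t)| ≤ δ := by
  have hN : (0:ℝ) < ((Q * B : ℕ) : ℝ) := by exact_mod_cast Nat.mul_pos hQ hB
  have hc : ∀ l : ℕ, Continuous fun t => G (x t + ((l : ℝ) / Q) • w) t := fun l =>
    hG.cont.comp ((hx.add continuous_const).prodMk continuous_id)
  have e1 : (∫ t in (0:ℝ)..1, mn Q B w (fun z => G z t) (x t)) =
      ((Q * B : ℕ) : ℝ)⁻¹ * ∑ l ∈ Finset.range (Q * B), ∫ t in (0:ℝ)..1, G (x t + ((l : ℝ) / Q) • w) t := by
    unfold mn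
    simp only [smul_eq_mul]
    rw [intervalIntegral.integral_const_mul, intervalIntegral.integral_finsetSum]
    intro l _
    exact (hc l).intervalIntegrable _ _
  have e2 : (∫ t in (0:ℝ)..1, G (x t) t) =
      ((Q * B : ℕ) : ℝ)⁻¹ * ∑ l ∈ Finset.range (Q * B), ∫ t in (0:ℝ)..1, G (x t) t := by
    rw [Finset.sum_const, Finset.card_range, nsmul_eq_mul, ← mul_assoc, inv_mul_cancel₀ hN.ne', one_mul]
  rw [e1]
  nth_rewrite 1 [e2]
  rw [← mul_sub, ← Finset.sum_sub_distrib, abs_mul, abs_of_pos (inv_pos.2 hN), inv_mul_le_iff₀ hN]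
  refine (Finset.abs_sum_le_sum_abs _ _).trans ?_
  refine (Finset.sum_le_sum (g := fun _ => δ) fun l hl => h l (Finset.mem_range.1 hl)).trans (le_of_eq ?_)
  rw [Finset.sum_const, Finset.card_range, nsmul_eq_mul]

end general

variable {d : ℕ} {E : Type*} [NormedAddCommGroup E] [InnerProductSpace ℝ E] [FiniteDimensional ℝ E]
  (L : Sp d E)

/-- one averaging step along `b i`, for a potential which is almost invariant under the faster
directions -/
theorem step_path {G : E → ℝ → ℝ} {M : ℝ} (hG : Good M G) (i : Fin d) {ε : ℝ} (hε : 0 ≤ ε)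
    (hinv : ∀ j : Fin d, i < j → ∀ t, ∀ a : ℝ, NInv ε (a • L.b j) (fun x => G x t))
    {A C0 δ : ℝ} (hA : 0 ≤ A) (hC0 : 0 ≤ C0) (hδ : 0 < δ) :
    ∃ M0 : ℝ, 1 ≤ M0 ∧ ∀ s, M0 ≤ s → ∀ a ∈ Icc (0:ℝ) A, ∀ (z : E) (u : ℝ → E), Adm u →
      (∫ t in (0:ℝ)..1, ‖u t - L.vel s‖ ^ 2 / 2) ≤ C0 →
      |(∫ t in (0:ℝ)..1, G (traj 0 z u t) t) - ∫ t in (0:ℝ)..1, G (traj 0 z u t + a • L.b i) t| ≤
        d * ε + δ := by
  have hM := hG.pos
  set Cb : ℝ := ∑ j, ‖L.b j‖ with hCb
  have hCb0 : 0 ≤ Cb := Finset.sum_nonneg fun j _ => norm_nonneg _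
  have hlim : Tendsto (fun s : ℝ => M * (Real.sqrt (2 * C0 * A / s) + A * Cb / s) + 3 * M * (A / s)) atTop
      (𝓝 0) := by
    have h1 : Tendsto (fun s : ℝ => (2 * C0 * A) / s) atTop (𝓝 0) := tendsto_const_nhds.div_atTop tendsto_id
    have h2 : Tendsto (fun s : ℝ => A * Cb / s) atTop (𝓝 0) := tendsto_const_nhds.div_atTop tendsto_id
    have h3 : Tendsto (fun s : ℝ => A / s) atTop (𝓝 0) := tendsto_const_nhds.div_atTop tendsto_id
    have h4 : Tendsto (fun s : ℝ => Real.sqrt (2 * C0 * A / s)) atTop (𝓝 0) := by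
      have := (Real.continuous_sqrt.tendsto 0).comp h1
      rwa [Real.sqrt_zero] at this
    have h5 := ((h4.add h2).const_mul M).add (h3.const_mul (3 * M))
    simpa using h5
  obtain ⟨M0, hM0⟩ := (((hlim.eventually (gt_mem_nhds hδ)).and
    (eventually_ge_atTop (max 1 A))).exists_forall_of_atTop)
  refine ⟨max M0 1, le_max_right _ _, fun s hs a ha z u hu hE => ?_⟩
  obtain ⟨hs1, hs2⟩ := hM0 s ((le_max_left _ _).trans hs)
  have hs3 : 1 ≤ s := (le_max_left _ _).trans hs2
  have hs4 : A ≤ s := (le_max_right _ _).trans hs2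
  have hs0 : 0 < s := by linarith
  have hsp : s ≤ s ^ ((i : ℕ) + 1) := by
    calc s = s ^ 1 := (pow_one s).symm
      _ ≤ s ^ ((i : ℕ) + 1) := pow_le_pow_right₀ hs3 (by omega)
  have hsp0 : 0 < s ^ ((i : ℕ) + 1) := by positivity
  set h : ℝ := a / s ^ ((i : ℕ) + 1) with hh
  have hh0 : 0 ≤ h := div_nonneg ha.1 hsp0.le
  have hhA : h ≤ A / s := by
    rw [hh]
    exact div_le_div₀ hA ha.2 hs0 hsp
  have hh1 : h ≤ 1 := hhA.trans (by rw [div_le_one hs0]; exact hs4)
  have hd : (0:ℝ) ≤ d := Nat.cast_nonneg _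
  have := shift_int hG (v := a • L.b i) hh0 hh1 (x := traj 0 z u) (traj_cont hu 0 z)
    (r := d * ε + (M * (Real.sqrt (2 * C0 * A / s) + A * Cb / s) + M * (A / s))) (by positivity) ?_
  · refine this.trans ?_
    have h1 : 2 * M * h ≤ 2 * M * (A / s) := by gcongr
    linarith
  · intro t ht
    set w := traj 0 z u (t + h) - traj 0 z u t - h • L.vel s with hw
    have hwn : ‖w‖ ≤ Real.sqrt (2 * C0 * h) := incr_bd hu hE ht.1 hh0 (by linarith [ht.2])
    set φ : Fin d → E := fun j => (h * s ^ ((j : ℕ) + 1)) • L.b j with hφ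
    set A1 := ∑ j ∈ Finset.univ.filter (fun j : Fin d => (j : ℕ) < i), φ j with hA1
    set C1 := ∑ j ∈ Finset.univ.filter (fun j : Fin d => (i : ℕ) < j), φ j with hC1
    have hvel : h • L.vel s = A1 + a • L.b i + C1 := by
      classical
      have h1 : a = h * s ^ ((i : ℕ) + 1) := by rw [hh]; field_simp
      unfold Sp.vel
      rw [Finset.smul_sum]
      simp_rw [smul_smul]
      have h2 : ∑ j, φ j = (∑ j ∈ Finset.univ.filter (fun j : Fin d => (j : ℕ) < i), φ j)
          + ∑ j ∈ Finset.univ.filter (fun j : Fin d => ¬ (j : ℕ) < i), φ j :=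
        (Finset.sum_filter_add_sum_filter_not _ _ _).symm
      have h3 : Finset.univ.filter (fun j : Fin d => ¬ (j : ℕ) < i)
          = insert i (Finset.univ.filter (fun j : Fin d => (i : ℕ) < j)) := by
        ext j
        simp only [Finset.mem_filter, Finset.mem_univ, true_and, Finset.mem_insert]
        constructor
        · intro hj
          by_cases hji : (j : ℕ) = i
          · left; exact Fin.ext hji
          · right; omega
        · rintro (rfl | hj)
          · omega
          · omega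
      have h4 : a • L.b i = φ i := by rw [hφ]; simp only; rw [← h1]
      rw [h4]
      change ∑ j, φ j = _
      rw [h2, h3, Finset.sum_insert (by simp), ← add_assoc]
    have hAn : ‖A1‖ ≤ A * Cb / s := by
      rw [hA1]
      refine (norm_sum_le _ _).trans ?_
      rw [hCb, Finset.mul_sum, Finset.sum_div]
      have hterm : ∀ j ∈ Finset.univ.filter (fun j : Fin d => (j : ℕ) < i),
          ‖φ j‖ ≤ A * ‖L.b j‖ / s := by
        intro j hj
        simp only [Finset.mem_filter, Finset.mem_univ, true_and] at hj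
        have hsj : s ^ ((j : ℕ) + 1) * s ≤ s ^ ((i : ℕ) + 1) := by
          rw [← pow_succ]
          exact pow_le_pow_right₀ hs3 (by omega)
        have hcoef : h * s ^ ((j : ℕ) + 1) ≤ A / s := by
          rw [le_div_iff₀ hs0]
          calc h * s ^ ((j : ℕ) + 1) * s = h * (s ^ ((j : ℕ) + 1) * s) := by ring
            _ ≤ h * s ^ ((i : ℕ) + 1) := mul_le_mul_of_nonneg_left hsj hh0
            _ = a := by rw [hh]; field_simp
            _ ≤ A := ha.2
        rw [hφ]
        simp only
        rw [norm_smul, Real.norm_of_nonneg (mul_nonneg hh0 (by positivity))]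
        have := norm_nonneg (L.b j)
        calc _ ≤ (A / s) * ‖L.b j‖ := by gcongr
          _ = A * ‖L.b j‖ / s := by ring
      refine (Finset.sum_le_sum hterm).trans ?_
      exact Finset.sum_le_sum_of_subset_of_nonneg (Finset.filter_subset _ _)
        (fun j _ _ => by positivity)
    have hx : traj 0 z u (t + h) = (traj 0 z u t + a • L.b i + (w + A1)) + C1 := by
      have : traj 0 z u (t + h) = traj 0 z u t + h • L.vel s + w := by rw [hw]; abel
      rw [this, hvel]; abel
    -- near invariance under `C1`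
    have hinv2 : |G (traj 0 z u (t + h)) (t + h)
        - G (traj 0 z u t + a • L.b i + (w + A1)) (t + h)| ≤ d * ε := by
      rw [hx]
      have h1 : NInv ((Finset.univ : Finset (Fin d)).card * ε)
          (∑ j : Fin d, (if (i : ℕ) < j then h * s ^ ((j : ℕ) + 1) else 0) •
            (if (i : ℕ) < j then L.b j else 0)) (fun x => G x (t + h)) := by
        apply ninv_sum
        intro j a'
        by_cases hj : (i : ℕ) < j
        · rw [if_pos hj]
          exact hinv j hj _ _
        · rw [if_neg hj, smul_zero]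
          intro x
          simp only [add_zero, sub_self, norm_zero]
          exact hε
      have h2 : (∑ j : Fin d, (if (i : ℕ) < j then h * s ^ ((j : ℕ) + 1) else 0) •
            (if (i : ℕ) < j then L.b j else 0)) = C1 := by
        rw [hC1, Finset.sum_filter]
        refine Finset.sum_congr rfl fun j _ => ?_
        by_cases hj : (i : ℕ) < j
        · rw [if_pos hj, if_pos hj, if_pos hj]
        · rw [if_neg hj, if_neg hj, if_neg hj, smul_zero]
      rw [h2] at h1
      have h3 := h1 (traj 0 z u t + a • L.b i + (w + A1))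
      rw [Real.norm_eq_abs, Finset.card_univ, Fintype.card_fin] at h3
      exact h3
    have h1 := hG.lipx (traj 0 z u t + a • L.b i + (w + A1)) (traj 0 z u t + a • L.b i) (t + h)
    have h2 := hG.lipt (traj 0 z u t + a • L.b i) (t + h) t
    rw [add_sub_cancel_left] at h1 h2
    have h3 : ‖w + A1‖ ≤ Real.sqrt (2 * C0 * A / s) + A * Cb / s := by
      refine (norm_add_le _ _).trans (add_le_add (hwn.trans ?_) hAn)
      apply Real.sqrt_le_sqrt
      calc 2 * C0 * h ≤ 2 * C0 * (A / s) := by gcongr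
        _ = 2 * C0 * A / s := by ring
    have h4 : |h| ≤ A / s := by rw [abs_of_nonneg hh0]; exact hhA
    have h5 : M * ‖w + A1‖ ≤ M * (Real.sqrt (2 * C0 * A / s) + A * Cb / s) := by gcongr
    have h6 : M * |h| ≤ M * (A / s) := by gcongr
    have a1 := abs_le.mp hinv2
    have a2 := abs_le.mp h1
    have a3 := abs_le.mp h2
    rw [abs_le]
    constructor <;> linarith [a1.1, a1.2, a2.1, a2.2, a3.1, a3.2]

theorem mem_drop {i : Fin d} {k : ℕ} (h : k ≤ i) : i ∈ (List.finRange d).drop k := by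
  rw [List.mem_drop_iff_getElem]
  refine ⟨(i : ℕ) - k, by rw [List.length_finRange]; omega, ?_⟩
  rw [List.getElem_finRange]
  ext
  simp only [Fin.val_cast]
  omega

/-- averaging along a fast path in all fast directions -/
theorem path_mns {f : E → ℝ → ℝ} {M : ℝ} (hf : Good M f) {Q B : ℕ} (hQ : 0 < Q) (hB : 0 < B) {ε : ℝ}
    (hε : 0 ≤ ε) (hinv : ∀ j : Fin d, ∀ t, ∀ a : ℝ, NInv ε (a • L.b j) (mn Q B (L.b j) (fun x => f x t)))
    {C0 δ : ℝ} (hC0 : 0 ≤ C0) (hδ : 0 < δ) (m : ℕ) (hm : m ≤ d) :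
    Good M (fun x t => mns Q B L.b ((List.finRange d).drop (d - m)) (fun z => f z t) x) ∧
    ∃ M0 : ℝ, 1 ≤ M0 ∧ ∀ s, M0 ≤ s → ∀ (z : E) (u : ℝ → E), Adm u →
      (∫ t in (0:ℝ)..1, ‖u t - L.vel s‖ ^ 2 / 2) ≤ C0 →
      |(∫ t in (0:ℝ)..1, f (traj 0 z u t) t) - ∫ t in (0:ℝ)..1,
        mns Q B L.b ((List.finRange d).drop (d - m)) (fun z => f z t) (traj 0 z u t)| ≤
        m * (d * ε + δ) := by
  induction m with
  | zero =>
    have e : (List.finRange d).drop (d - 0) = [] := by
      apply List.drop_eq_nil_of_le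
      rw [List.length_finRange]
      omega
    rw [e]
    refine ⟨hf, 1, le_rfl, fun s _ z u _ _ => ?_⟩
    simp [mns]
  | succ m ih =>
    obtain ⟨hG, M0, hM0, h0⟩ := ih (by omega)
    have hlt : d - (m + 1) < (List.finRange d).length := by rw [List.length_finRange]; omega
    have e : (List.finRange d).drop (d - (m + 1)) =
        (⟨d - (m + 1), by omega⟩ : Fin d) :: (List.finRange d).drop (d - m) := by
      rw [List.drop_eq_getElem_cons hlt, List.getElem_finRange]
      congr 2
      omega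
    set i : Fin d := ⟨d - (m + 1), by omega⟩ with hi
    set G : E → ℝ → ℝ := fun x t => mns Q B L.b ((List.finRange d).drop (d - m)) (fun z => f z t) x with hGd
    have e2 : ∀ x t, mns Q B L.b ((List.finRange d).drop (d - (m + 1))) (fun z => f z t) x =
        mn Q B (L.b i) (fun z => G z t) x := by
      intro x t
      rw [e]
      rfl
    have hG2 := good_mn hG hQ hB (L.b i)
    refine ⟨by simp_rw [e2]; exact hG2, ?_⟩
    have hinv' : ∀ j : Fin d, i < j → ∀ t, ∀ a : ℝ, NInv ε (a • L.b j) (fun x => G x t) := by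
      intro j hj t a
      apply mns_ninv hQ hB (hinv j t a)
      apply mem_drop
      have : (i : ℕ) < j := hj
      rw [hi] at this
      simp only at this
      omega
    obtain ⟨M1, hM1, h1⟩ := step_path L hG i hε hinv' (A := B) (Nat.cast_nonneg _) hC0 hδ
    refine ⟨max M0 M1, hM0.trans (le_max_left _ _), fun s hs z u hu hE => ?_⟩
    simp_rw [e2]
    have h2 := h0 s ((le_max_left _ _).trans hs) z u hu hE
    have h3 := int_mn hG hQ hB (L.b i) (traj_cont hu 0 z) (δ := d * ε + δ) (fun l hl => by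
      apply h1 s ((le_max_right _ _).trans hs) _ _ z u hu hE
      have hQ' : (0:ℝ) < Q := by exact_mod_cast hQ
      refine ⟨by positivity, ?_⟩
      rw [div_le_iff₀ hQ']
      have : (l : ℝ) ≤ ((Q * B : ℕ) : ℝ) := by exact_mod_cast hl.le
      push_cast at this
      linarith)
    have a1 := abs_le.mp h2
    have a2 := abs_le.mp h3
    push_cast
    rw [abs_le]
    constructor <;> linarith [a1.1, a1.2, a2.1, a2.2]

/-- averaging along fast paths: the time integral of `f` along a path in `S` of bounded relative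
energy is, up to `κ`, the time integral of its fast average -/
theorem avg_path (hd : 0 < d) {f Fh : E → ℝ → ℝ} (hf : L.IsPot f) {M : ℝ} (hFh : Good M Fh)
    (hW : ∀ x t, ∀ w ∈ Submodule.span ℝ (Set.range L.b), Fh (x + w) t = Fh x t) {η κ : ℝ} (hη : η < κ)
    (h : FastAvg L f Fh η) (C : ℝ) : ∃ M0 : ℝ, 1 ≤ M0 ∧ ∀ s, M0 ≤ s → ∀ (z : E) (u : ℝ → E), Adm u →
      InS L.S 0 1 z u → (∫ t in (0:ℝ)..1, ‖u t - L.vel s‖ ^ 2 / 2) ≤ C →
      |(∫ t in (0:ℝ)..1, f (traj 0 z u t) t) - ∫ t in (0:ℝ)..1, Fh (traj 0 z u t) t| ≤ κ := by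
  obtain ⟨Mf, hMf⟩ := isPot_good L hf
  have hdR : (0:ℝ) < d := by exact_mod_cast hd
  set γ : ℝ := κ - η with hγ
  have hγ0 : 0 < γ := sub_pos.mpr hη
  set ε : ℝ := γ / (4 * d * d + 4 * d) with hε
  have hε0 : 0 < ε := by positivity
  -- choose the means
  have hch : ∀ i : Fin d, ∃ Q0 B0 : ℕ, 0 < Q0 ∧ 0 < B0 ∧ ∀ Q ≥ Q0, ∀ B ≥ B0, ∀ t, ∀ s : ℝ,
      NInv ε (s • L.b i) (mn Q B (L.b i) (fun x => f x t)) := fun i =>
    ninv_of_ap L hf (ap_b L hf i) hε0
  choose Q0 B0 hQ0 hB0 hQB using hch
  set Q : ℕ := 1 + ∑ i, Q0 i with hQd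
  set B : ℕ := 1 + ∑ i, B0 i with hBd
  have hQ : 0 < Q := by omega
  have hB : 0 < B := by omega
  have hinv : ∀ j : Fin d, ∀ t, ∀ a : ℝ, NInv ε (a • L.b j) (mn Q B (L.b j) (fun x => f x t)) := by
    intro j t a
    apply hQB
    · have := Finset.single_le_sum (f := Q0) (fun _ _ => Nat.zero_le _) (Finset.mem_univ j)
      omega
    · have := Finset.single_le_sum (f := B0) (fun _ _ => Nat.zero_le _) (Finset.mem_univ j)
      omega
  obtain ⟨-, M0, hM0, hp⟩ := path_mns L hMf hQ hB hε0.le hinv (C0 := max C 0) (δ := ε)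
    (le_max_right _ _) hε0 d le_rfl
  obtain ⟨hG, -⟩ := path_mns L hMf hQ hB hε0.le hinv (C0 := max C 0) (δ := ε)
    (le_max_right _ _) hε0 d le_rfl
  rw [Nat.sub_self, List.drop_zero] at hp hG
  -- the mean is close to `Fh` on `S`
  have hclose : ∀ x ∈ L.S, ∀ t, |mns Q B L.b (List.finRange d) (fun z => f z t) x - Fh x t| ≤
      η + d * ε := by
    intro x hx t
    obtain ⟨N, c, w, hc, hcs, hw, hN⟩ := h
    obtain ⟨N', c', w', hc', hcs', hw', hrep⟩ := mns_rep (b := L.b) hQ hB (List.finRange d)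
    set m : E → ℝ := mns Q B L.b (List.finRange d) (fun z => f z t) with hm
    -- near invariance of the mean
    have hm1 : ∀ k, |m (x + w k) - m x| ≤ d * ε := by
      intro k
      obtain ⟨a, ha⟩ := (Submodule.mem_span_range_iff_exists_fun ℝ).mp (hw k)
      have h1 : NInv ((Finset.univ : Finset (Fin d)).card * ε) (∑ i, a i • L.b i) m := by
        apply ninv_sum
        intro i s
        exact mns_ninv hQ hB (hinv i t s) (List.mem_finRange i)
      rw [ha, Finset.card_univ, Fintype.card_fin] at h1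
      have := h1 x
      rwa [Real.norm_eq_abs] at this
    have hm2 : |∑ k, c k * m (x + w k) - m x| ≤ d * ε := by
      have e1 : ∑ k, c k * m (x + w k) - m x = ∑ k, c k * (m (x + w k) - m x) := by
        simp_rw [mul_sub]
        rw [Finset.sum_sub_distrib, ← Finset.sum_mul, hcs, one_mul]
      rw [e1]
      refine (Finset.abs_sum_le_sum_abs _ _).trans ?_
      have h2 : ∀ k ∈ Finset.univ, |c k * (m (x + w k) - m x)| ≤ c k * (d * ε) := by
        intro k _
        rw [abs_mul, abs_of_nonneg (hc k)]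
        exact mul_le_mul_of_nonneg_left (hm1 k) (hc k)
      refine (Finset.sum_le_sum h2).trans (le_of_eq ?_)
      rw [← Finset.sum_mul, hcs, one_mul]
    have hm3 : |∑ k, c k * m (x + w k) - Fh x t| ≤ η := by
      have e2 : ∑ k, c k * m (x + w k) = ∑ i, c' i * ∑ k, c k * f ((x + w' i) + w k) t := by
        simp_rw [hm, hrep, Finset.mul_sum]
        rw [Finset.sum_comm]
        refine Finset.sum_congr rfl fun i _ => Finset.sum_congr rfl fun k _ => ?_
        rw [add_right_comm]
        ring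
      have e3 : Fh x t = ∑ i, c' i * Fh (x + w' i) t := by
        have : ∀ i, Fh (x + w' i) t = Fh x t := fun i => hW x t _ (hw' i)
        simp_rw [this]
        rw [← Finset.sum_mul, hcs', one_mul]
      rw [e2, e3, ← Finset.sum_sub_distrib]
      refine (Finset.abs_sum_le_sum_abs _ _).trans ?_
      have h3 : ∀ i ∈ Finset.univ, |c' i * ∑ k, c k * f ((x + w' i) + w k) t - c' i * Fh (x + w' i) t| ≤
          c' i * η := by
        intro i _
        rw [← mul_sub, abs_mul, abs_of_nonneg (hc' i)]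
        apply mul_le_mul_of_nonneg_left _ (hc' i)
        apply hN
        apply S_add_W L hx
        unfold Sp.Q
        rw [P_of_mem L (hw' i), y_of_mem L (hw' i), zero_smul, sub_self, sub_zero]
      refine (Finset.sum_le_sum h3).trans (le_of_eq ?_)
      rw [← Finset.sum_mul, hcs', one_mul]
    have a1 := abs_le.mp hm2
    have a2 := abs_le.mp hm3
    rw [abs_le]
    constructor <;> linarith [a1.1, a1.2, a2.1, a2.2]
  refine ⟨M0, hM0, fun s hs z u hu hS hE => ?_⟩
  have h1 := hp s hs z u hu (hE.trans (le_max_left _ _))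
  have hc1 : Continuous fun t => mns Q B L.b (List.finRange d) (fun z => f z t) (traj 0 z u t) :=
    hG.cont.comp ((traj_cont hu 0 z).prodMk continuous_id)
  have hc2 : Continuous fun t => Fh (traj 0 z u t) t := hFh.cont.comp ((traj_cont hu 0 z).prodMk continuous_id)
  have h2 : |(∫ t in (0:ℝ)..1, mns Q B L.b (List.finRange d) (fun z => f z t) (traj 0 z u t))
      - ∫ t in (0:ℝ)..1, Fh (traj 0 z u t) t| ≤ η + d * ε := by
    rw [← integral_sub (hc1.intervalIntegrable _ _) (hc2.intervalIntegrable _ _)]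
    have := norm_integral_le_of_norm_le_const (a := 0) (b := 1) (C := η + d * ε)
      (f := fun t => mns Q B L.b (List.finRange d) (fun z => f z t) (traj 0 z u t) - Fh (traj 0 z u t) t)
      (fun t ht => by
        rw [uIoc_of_le zero_le_one] at ht
        rw [Real.norm_eq_abs]
        exact hclose _ (hS t ⟨ht.1.le, ht.2⟩) t)
    simpa using this
  have a1 := abs_le.mp h1
  have a2 := abs_le.mp h2
  have hsum : (d:ℝ) * (d * ε + ε) + d * ε ≤ γ := by
    have e1 : (d:ℝ) * (d * ε + ε) + d * ε = ε * (d * d + 2 * d) := by ring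
    rw [e1, hε, div_mul_eq_mul_div, div_le_iff₀ (by positivity)]
    have : (d:ℝ) * d + 2 * d ≤ 4 * d * d + 4 * d := by nlinarith
    exact mul_le_mul_of_nonneg_left this hγ0.le
  rw [abs_le]
  constructor <;> linarith [a1.1, a1.2, a2.1, a2.2]

end EscN
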