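import Pool.Agent.EscN.K2
import Pool.Agent.EscN.A2

/-!
Module A, part 3: the data class from the averaging estimate along paths (splitting of the kernel).
-/

set_option linter.unusedSectionVars false

noncomputable section

namespace EscN

open MeasureTheory Set Filter Topology Esc intervalIntegral
open scoped ContDiff

section clm

variable {E F : Type*} [NormedAddCommGroup E] [InnerProductSpace ℝ E] [FiniteDimensional ℝ E]
  [NormedAddCommGroup F] [InnerProductSpace ℝ F] [CompleteSpace F]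

theorem a3_adm (A : E →L[ℝ] F) {u : ℝ → E} (hu : Adm u) : Adm (fun t => A (u t)) := by
  obtain ⟨hm, C, hC⟩ := hu
  refine ⟨A.continuous.comp_stronglyMeasurable hm, ‖A‖ * C, fun t => ?_⟩
  exact (A.le_opNorm _).trans (mul_le_mul_of_nonneg_left (hC t) (norm_nonneg _))

theorem a3_traj (A : E →L[ℝ] F) {u : ℝ → E} (hu : Adm u) (a : ℝ) (z : E) (t : ℝ) :
    traj a (A z) (fun s => A (u s)) t = A (traj a z u t) := by
  unfold traj
  rw [A.intervalIntegral_comp_comm (hu.ii a t), map_add]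

end clm

section ModuleA

variable {d : ℕ} {E : Type*} [NormedAddCommGroup E] [InnerProductSpace ℝ E] [FiniteDimensional ℝ E]
  (L : Sp d E)

/-- `Q` as a continuous linear map -/
def QcA : E →L[ℝ] E := ContinuousLinearMap.id ℝ E - L.P - (innerSL ℝ L.e).smulRight L.e

theorem QcA_apply (x : E) : QcA L x = L.Q x := by
  simp [QcA, Sp.Q, Sp.y]

/-- `y` as a continuous linear map -/
def yc : E →L[ℝ] ℝ := innerSL ℝ L.e

theorem yc_apply (x : E) : yc L x = L.y x := rfl

theorem a3_Q_P (x : E) : L.Q (L.P x) = 0 := by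
  unfold Sp.Q
  rw [P_P, y_P, zero_smul, sub_zero, sub_self]

theorem a3_Q_e : L.Q L.e = 0 := by
  unfold Sp.Q
  rw [L.P_e, y_e, one_smul, sub_zero, sub_self]

theorem a3_Q_Q (x : E) : L.Q (L.Q x) = L.Q x := by
  have := kQ_W L x
  rw [kq_sub, sub_eq_zero] at this
  exact this.symm

theorem norm_split (x : E) : ‖x‖ ^ 2 = ‖L.P x‖ ^ 2 + (L.y x) ^ 2 + ‖L.Q x‖ ^ 2 := by
  have h1 : x = (L.P x + L.y x • L.e) + L.Q x := (k2_split L x).symm
  have h2 : L.Q (L.P x + L.y x • L.e) = 0 := by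
    rw [kq_add, kq_smul, a3_Q_P, a3_Q_e]; simp
  conv_lhs => rw [h1]
  rw [kq_orth L h2 (kP_Q L x) (ky_Q L x), norm_add_sq_real, real_inner_smul_right]
  have h3 : inner ℝ (L.P x) L.e = 0 := by rw [real_inner_comm]; exact y_P L x
  rw [h3, norm_smul, L.norm_e]
  simp

/-- point of `N` below a point of `S` -/
theorem Q_mem {z : E} (hz : z ∈ L.S) : L.Q z ∈ L.S := by
  have h := S_add_W L (x := z) (w := L.Q z - z) hz (by rw [kq_sub, a3_Q_Q, sub_self])
  rwa [add_sub_cancel] at h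

/-- splitting of the energy -/
theorem energy_split {u : ℝ → E} (hu : Adm u) {v : E} (hv : L.P v = v) (hv' : L.y v = 0) :
    (∫ t in (0:ℝ)..1, ‖u t - v‖ ^ 2 / 2) = (∫ t in (0:ℝ)..1, ‖L.P (u t - v)‖ ^ 2 / 2)
      + (∫ t in (0:ℝ)..1, ‖yc L (u t) - 0‖ ^ 2 / 2) + ∫ t in (0:ℝ)..1, ‖QcA L (u t) - 0‖ ^ 2 / 2 := by
  have hQv : L.Q v = 0 := by rw [← hv]; exact a3_Q_P L v
  have i1 := (a3_adm L.P (hu.sub_const v)).sq_ii 0 1
  have i2 := ((a3_adm (yc L) hu).sub_const 0).sq_ii 0 1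
  have i3 := ((a3_adm (QcA L) hu).sub_const 0).sq_ii 0 1
  rw [← integral_add i1 i2, ← integral_add (i1.add i2) i3]
  congr 1
  ext t
  rw [norm_split L (u t - v), y_sub, hv', kq_sub, hQv, QcA_apply, yc_apply]
  simp only [sub_zero, Real.norm_eq_abs, sq_abs]
  ring

/-- kernel of the part which does not see `W` -/
def Rn (F : E → ℝ → ℝ) (s : ℝ) (z z' : E) (n : Fin d → ℤ) : ℝ :=
  ‖L.P (L.dk n z' - z) - L.vel s‖ ^ 2 / 2 + ker L.S F 0 0 1 (L.Q z) (L.Q (L.dk n z'))

def Rs (F : E → ℝ → ℝ) (s : ℝ) (z z' : E) : ℝ := ⨅ n, Rn L F s z z' n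

theorem Rn_ge {M : ℝ} {F : E → ℝ → ℝ} (hF : Good M F) (s : ℝ) {z z' : E} (hz : z ∈ L.S) (hz' : z' ∈ L.S)
    (n : Fin d → ℤ) : -M ≤ Rn L F s z z' n := by
  have h1 := ker_ge_neg L hF 0 (Q_mem L hz) (Q_mem L ((S_dk L n).mpr hz'))
  unfold Rn
  have : 0 ≤ ‖L.P (L.dk n z' - z) - L.vel s‖ ^ 2 / 2 := by positivity
  linarith

theorem Rs_le {M : ℝ} {F : E → ℝ → ℝ} (hF : Good M F) (s : ℝ) {z z' : E} (hz : z ∈ L.S) (hz' : z' ∈ L.S)
    (n : Fin d → ℤ) : Rs L F s z z' ≤ Rn L F s z z' n := by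
  apply ciInf_le
  refine ⟨-M, ?_⟩
  rintro _ ⟨n, rfl⟩
  exact Rn_ge L hF s hz hz' n

theorem Rs_setY (F : E → ℝ → ℝ) (s : ℝ) (z z' : E) (η η' : ℝ) :
    Rs L F s (L.setY z η) (L.setY z' η') = Rs L F s z z' := by
  have hQ : ∀ x η, L.Q (L.setY x η) = L.Q x := fun x η => by
    unfold Sp.setY
    rw [kq_add, kq_smul, a3_Q_e, smul_zero, add_zero]
  have hP : ∀ x η, L.P (L.setY x η) = L.P x := fun x η => by
    unfold Sp.setY
    rw [map_add, map_smul, L.P_e, smul_zero, add_zero]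
  have hdk : ∀ n x η, L.dk n (L.setY x η) = L.setY (L.dk n x) η := fun n x η => by
    unfold Sp.setY
    rw [dk_add_W L n x _ (by rw [kq_smul, a3_Q_e, smul_zero]), y_dk]
  unfold Rs Rn
  congr 1
  ext n
  rw [hdk, hQ, hQ, map_sub, hP, hP, ← map_sub]

/-- kernels of the `N`-part are bounded -/
theorem ker_N_le {M : ℝ} {F : E → ℝ → ℝ} (hF : Good M F) {z z' : E} (hz : z ∈ L.S) (hz' : z' ∈ L.S) :
    ker L.S F 0 0 1 (L.Q z) (L.Q z') ≤ ((2 * |L.R0|) ^ 2 + L.Cc ^ 2) / 2 + M := by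
  have h4 : L.Q (0:E) = 0 := by have := kq_smul L 0 (0:E); simpa using this
  have h := ker_upper L hF h4 one_pos (Q_mem L hz) (Q_mem L hz')
  have h2 : ‖L.Q z' - L.Q z - ((1:ℝ) - 0) • (0:E)‖ ≤ 2 * |L.R0| := by
    rw [smul_zero, sub_zero]
    refine (norm_sub_le _ _).trans ?_
    have := k2_Q_le L hz
    have := k2_Q_le L hz'
    linarith
  have h3 : ‖L.Q z' - L.Q z - ((1:ℝ) - 0) • (0:E)‖ ^ 2 ≤ (2 * |L.R0|) ^ 2 := by gcongr
  norm_num at h h3 ⊢
  linarith

theorem Rs_bd {M : ℝ} {F : E → ℝ → ℝ} (hF : Good M F) (s : ℝ) {z z' : E} (hz : z ∈ L.S) (hz' : z' ∈ L.S) :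
    Rs L F s z z' ≤ (∑ i, ‖L.b i‖) ^ 2 / 2 + (((2 * |L.R0|) ^ 2 + L.Cc ^ 2) / 2 + M) := by
  obtain ⟨n, θ, hθ, e⟩ := k2_red L (z' - z - L.vel s)
  refine (Rs_le L hF s hz hz' n).trans ?_
  unfold Rn
  have h1 := ker_N_le L hF hz ((S_dk L n).mpr hz')
  have h2 : L.P (L.dk n z' - z) - L.vel s = ∑ i, θ i • L.b i := by
    rw [← e, map_sub, P_dk, map_sub, map_sub, P_vel]; abel
  rw [h2]
  have h3 := k2_comb_le L hθ
  have h4 := norm_nonneg (∑ i, θ i • L.b i)
  have h5 : ‖∑ i, θ i • L.b i‖ ^ 2 ≤ (∑ i, ‖L.b i‖) ^ 2 := by gcongr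
  linarith

variable {f F : E → ℝ → ℝ} {φ : ℝ → ℝ} {M : ℝ}

theorem good_Fh (hφ : Good M (fun (y : ℝ) (_ : ℝ) => φ y)) (hF : Good M F) :
    Good (M + M) (fun x t => φ (L.y x) + F x t) where
  pos := by have := hF.pos; linarith
  cont := by
    have h1 : Continuous fun p : E × ℝ => ((L.y p.1, (0:ℝ)) : ℝ × ℝ) := by
      have : Continuous fun p : E × ℝ => yc L p.1 := (yc L).continuous.comp continuous_fst
      exact this.prodMk continuous_const
    have h2 := hφ.cont.comp h1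
    exact Continuous.add h2 hF.cont
  bd x t := (abs_add_le _ _).trans (add_le_add (hφ.bd _ 0) (hF.bd _ _))
  lipx x x' t := by
    have h1 := hφ.lipx (L.y x) (L.y x') 0
    have h2 := hF.lipx x x' t
    have h3 : ‖L.y x - L.y x'‖ ≤ ‖x - x'‖ := by
      rw [← y_sub]
      have := norm_inner_le_norm (𝕜 := ℝ) L.e (x - x')
      rwa [L.norm_e, one_mul] at this
    have h4 : M * ‖L.y x - L.y x'‖ ≤ M * ‖x - x'‖ := mul_le_mul_of_nonneg_left h3 hF.pos
    have e : φ (L.y x) + F x t - (φ (L.y x') + F x' t)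
        = (φ (L.y x) - φ (L.y x')) + (F x t - F x' t) := by ring
    rw [e]
    refine (abs_add_le _ _).trans ?_
    linarith
  lipt x t t' := by
    have h2 := hF.lipt x t t'
    have e : φ (L.y x) + F x t - (φ (L.y x) + F x t') = F x t - F x t' := by ring
    rw [e]
    have := mul_nonneg hF.pos (abs_nonneg (t - t'))
    linarith

theorem datW_of_avg (hd : 0 < d) {f F : E → ℝ → ℝ} (hf : L.IsPot f) {φ : ℝ → ℝ} {M : ℝ}
    (hφ : Good M (fun (y : ℝ) (_ : ℝ) => φ y)) (hF : Good M F)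
    (hFw : ∀ x w t, L.Q w = 0 → F (x + w) t = F x t) {η κ : ℝ} (hη : η < κ)
    (h : FastAvg L f (fun x t => φ (L.y x) + F x t) η) :
    ∃ M0 : ℝ, 1 ≤ M0 ∧ L.DatW M0 (fun y y' => Esc.ker (fun (y : ℝ) (_ : ℝ) => φ y) (0:ℝ) 0 1 y y') κ f := by
  have hM := hF.pos
  have hFh := good_Fh L hφ hF
  obtain ⟨Mf, hMf⟩ := isPot_good L hf
  have hMf0 := hMf.pos
  set Sy : ℝ → ℝ → ℝ := fun y y' => Esc.ker (fun (y : ℝ) (_ : ℝ) => φ y) (0:ℝ) 0 1 y y' with hSy
  set C0 : ℝ := ((∑ i, ‖L.b i‖) ^ 2 / 2 + (((2 * |L.R0|) ^ 2 + L.Cc ^ 2) / 2 + M) + 1 + M)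
    + (2 + M + 1 + M) + ((((2 * |L.R0|) ^ 2 + L.Cc ^ 2) / 2 + M) + 1 + M)
    + ((k2C L ^ 2 + L.Cc ^ 2) / 2 + Mf + 1 + Mf) with hC0
  obtain ⟨M0, hM0, havg⟩ := avg_path L hd hf hFh (fun x t w hw => by
    rw [y_add, y_of_mem L hw, add_zero, hFw x w t (by
      rw [← P_of_mem L hw]; exact a3_Q_P L w)]) hη h C0
  refine ⟨M0, hM0, fun s hs => ⟨Rs L F s, Rs_setY L F s, fun z hz z' hz' hzz => ?_⟩⟩
  have hFQ : ∀ x t, F (L.Q x) t = F x t := fun x t => by
    have := hFw x (L.Q x - x) t (by rw [kq_sub, a3_Q_Q, sub_self])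
    rwa [add_sub_cancel] at this
  have hS1 : 0 ≤ (∑ i, ‖L.b i‖) ^ 2 / 2 := by positivity
  have hS2 : 0 ≤ (((2 * |L.R0|) ^ 2 + L.Cc ^ 2) / 2 + M) := by positivity
  have hS3 : 0 ≤ (k2C L ^ 2 + L.Cc ^ 2) / 2 := by positivity
  rw [abs_le]
  constructor
  · -- lower bound
    have : Rs L F s z z' + Sy (L.y z) (L.y z') ≤ L.kbar f s z z' + κ := by
      apply le_of_forall_pos_le_add
      intro ε hε
      obtain ⟨n, hn⟩ := kbar_attained L hMf s hz hz'
      have hSz := (S_dk L n).mpr hz'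
      obtain ⟨u, hu, hS, hzu, hact⟩ := exists_act_lt L hMf (L.vel s) one_pos hz hSz
        (lt_min hε one_pos)
      rw [← hn] at hact
      have hE := energy_le_act hMf (L.vel s) zero_le_one z hu
      have hk := kbar_le_of L hMf s hz hz' hzz
      have hE' : (∫ t in (0:ℝ)..1, ‖u t - L.vel s‖ ^ 2 / 2) ≤ C0 := by
        have := min_le_right ε 1
        rw [hC0]
        linarith
      have herr2 := havg s hs z u hu hS hE'
      have h1 := act_eq hMf (L.vel s) 0 1 z hu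
      rw [energy_split L hu (P_vel L s) (y_vel L s)] at h1
      -- fast part
      have h2 := jensen (a3_adm L.P (hu.sub_const (L.vel s))) (zero_lt_one' ℝ)
      have h3 : (∫ t in (0:ℝ)..1, L.P (u t - L.vel s)) = L.P (L.dk n z' - z) - L.vel s := by
        rw [L.P.intervalIntegral_comp_comm ((hu.sub_const (L.vel s)).ii 0 1),
          integral_sub (hu.ii 0 1) (by simp)]
        have : (∫ t in (0:ℝ)..1, u t) = L.dk n z' - z := by
          rw [← hzu]; unfold traj; abel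
        rw [this]
        simp only [intervalIntegral.integral_const, sub_zero, one_smul]
        rw [map_sub, P_vel]
      rw [h3] at h2
      have h4 := Rs_le L hF s hz hz' n
      -- slow part
      have h5 : Sy (L.y z) (L.y z') ≤
          act (fun (y : ℝ) (_ : ℝ) => φ y) 0 0 1 (L.y z) (fun t => yc L (u t)) := by
        apply Esc.ker_le_act' hφ (0:ℝ) one_pos (a3_adm (yc L) hu)
        rw [← yc_apply, a3_traj (yc L) hu, hzu, yc_apply, y_dk]
      rw [act_eq hφ (0:ℝ) 0 1 (L.y z) (a3_adm (yc L) hu)] at h5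
      -- `N`-part
      have h6 : ker L.S F 0 0 1 (L.Q z) (L.Q (L.dk n z')) ≤
          act F 0 0 1 (L.Q z) (fun t => QcA L (u t)) := by
        apply ker_le_act' hF 0 one_pos (a3_adm (QcA L) hu)
        · intro t ht
          rw [← QcA_apply, a3_traj (QcA L) hu, QcA_apply]
          exact Q_mem L (hS t ht)
        · rw [← QcA_apply, a3_traj (QcA L) hu, hzu, QcA_apply]
      rw [act_eq hF 0 0 1 (L.Q z) (a3_adm (QcA L) hu)] at h6
      have h7 : (∫ t in (0:ℝ)..1, (φ (L.y (traj 0 z u t)) + F (traj 0 z u t) t))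
          = (∫ t in (0:ℝ)..1, (fun (y : ℝ) (_ : ℝ) => φ y) (traj 0 (L.y z) (fun t => yc L (u t)) t) t)
            + ∫ t in (0:ℝ)..1, F (traj 0 (L.Q z) (fun t => QcA L (u t)) t) t := by
        rw [← integral_add (f_traj_ii hφ (a3_adm (yc L) hu) 0 (L.y z) 0 1)
          (f_traj_ii hF (a3_adm (QcA L) hu) 0 (L.Q z) 0 1)]
        congr 1; ext t
        rw [← yc_apply L z, a3_traj (yc L) hu, ← QcA_apply L z, a3_traj (QcA L) hu, QcA_apply, hFQ,
          yc_apply]
      rw [h7] at herr2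
      have h8 := (abs_le.mp herr2).1
      have := min_le_left ε 1
      unfold Rn at h4
      rw [sub_zero, mul_one] at h2
      linarith
    linarith
  · -- upper bound
    have : L.kbar f s z z' ≤ Rs L F s z z' + Sy (L.y z) (L.y z') + κ := by
      apply le_of_forall_pos_le_add
      intro ε hε
      have hε2 : 0 < min (ε / 3) 1 := lt_min (by positivity) one_pos
      obtain ⟨n, hn⟩ : ∃ n : Fin d → ℤ, Rn L F s z z' n < Rs L F s z z' + min (ε / 3) 1 := by
        apply exists_lt_of_ciInf_lt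
        show Rs L F s z z' < _
        linarith
      have hSz := (S_dk L n).mpr hz'
      obtain ⟨η, hη, hzη, hactη⟩ := Esc.exists_act_lt hφ (0:ℝ) one_pos (L.y z) (L.y z') hε2
      obtain ⟨w, hw, hwS, hzw, hactw⟩ := exists_act_lt L hF 0 one_pos (Q_mem L hz) (Q_mem L hSz) hε2
      set p : E := L.P (L.dk n z' - z) with hp
      have hPp : L.P p = p := P_P L _
      have hyp : L.y p = 0 := y_P L _
      have hQp : L.Q p = 0 := a3_Q_P L _
      set u : ℝ → E := fun t => p + η t • L.e + QcA L (w t) with hu_def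
      have hA := a3_adm (QcA L) hw
      have hηe : Adm (fun t => η t • L.e) := by
        obtain ⟨hm, C, hC⟩ := hη
        refine ⟨hm.smul_const _, C, fun t => ?_⟩
        rw [norm_smul, L.norm_e, mul_one]; exact hC t
      have hu : Adm u := by
        obtain ⟨hm, C, hC⟩ := hηe
        obtain ⟨hm', C', hC'⟩ := hA
        refine ⟨(stronglyMeasurable_const.add hm).add hm', ‖p‖ + C + C', fun t => ?_⟩
        refine (norm_add_le _ _).trans (add_le_add ?_ (hC' t))
        exact (norm_add_le _ _).trans (add_le_add le_rfl (hC t))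
      have hyu : ∀ t, yc L (u t) = η t := by
        intro t
        rw [yc_apply, hu_def]
        simp only
        rw [y_add, y_add, hyp, y_smul, y_e, QcA_apply, ky_Q]; ring
      have hPu : ∀ t, L.P (u t - L.vel s) = p - L.vel s := by
        intro t
        rw [map_sub, P_vel, hu_def]
        simp only
        rw [map_add, map_add, hPp, map_smul, L.P_e, smul_zero, add_zero, QcA_apply, kP_Q, add_zero]
      have hQu : ∀ t, QcA L (u t) = QcA L (w t) := by
        intro t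
        rw [QcA_apply, QcA_apply, hu_def]
        simp only
        rw [kq_add, kq_add, hQp, kq_smul, a3_Q_e, QcA_apply, a3_Q_Q]; simp
      have hyu' : (fun t => yc L (u t)) = η := funext hyu
      have hQu' : (fun t => QcA L (u t)) = fun t => QcA L (w t) := funext hQu
      have hyt : ∀ t, L.y (traj 0 z u t) = traj 0 (L.y z) η t := fun t => by
        have := a3_traj (yc L) hu 0 z t
        rw [hyu'] at this
        exact this.symm
      have hQt : ∀ t, L.Q (traj 0 z u t) = L.Q (traj 0 (L.Q z) w t) := fun t => by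
        have h1 := a3_traj (QcA L) hu 0 z t
        have h2 := a3_traj (QcA L) hw 0 (L.Q z) t
        rw [hQu'] at h1
        rw [QcA_apply, a3_Q_Q] at h2
        rw [QcA_apply, QcA_apply] at h1
        rw [QcA_apply] at h2
        rw [← h1, h2]
      have hS : InS L.S 0 1 z u := by
        intro t ht
        have h1 := Q_mem L (hwS t ht)
        rw [← hQt] at h1
        have h2 := S_add_W L h1 (w := traj 0 z u t - L.Q (traj 0 z u t)) (kQ_W L _)
        rwa [add_sub_cancel] at h2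
      have hPt : L.P (traj 0 z u 1) = L.P (L.dk n z') := by
        unfold traj
        rw [map_add, ← L.P.intervalIntegral_comp_comm (hu.ii 0 1)]
        have : ∀ t, L.P (u t) = p := by
          intro t
          have := hPu t
          rw [map_sub, P_vel] at this
          exact sub_left_injective this
        simp_rw [this]
        simp only [intervalIntegral.integral_const, sub_zero, one_smul]
        rw [hp, map_sub]; abel
      have hzu : traj 0 z u 1 = L.dk n z' := by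
        have e1 : L.y (traj 0 z u 1) = L.y (L.dk n z') := by rw [hyt, hzη, y_dk]
        have e2 : L.Q (traj 0 z u 1) = L.Q (L.dk n z') := by rw [hQt, hzw, a3_Q_Q]
        rw [← k2_split L (traj 0 z u 1), e1, e2, hPt, k2_split]
      have h1 := (kbar_le_ker L hMf s hz hz' n).trans (ker_le_act' hMf (L.vel s) one_pos hu hS hzu)
      rw [act_eq hMf (L.vel s) 0 1 z hu, energy_split L hu (P_vel L s) (y_vel L s)] at h1
      simp_rw [hPu, hyu, hQu] at h1
      rw [act_eq hφ (0:ℝ) 0 1 (L.y z) hη] at hactη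
      rw [act_eq hF 0 0 1 (L.Q z) hw] at hactw
      -- the energy of the `N`-part does not increase
      have hQle : (∫ t in (0:ℝ)..1, ‖QcA L (w t) - 0‖ ^ 2 / 2) ≤ ∫ t in (0:ℝ)..1, ‖w t - 0‖ ^ 2 / 2 := by
        apply integral_mono_on zero_le_one ((hA.sub_const 0).sq_ii 0 1) ((hw.sub_const 0).sq_ii 0 1)
        intro t _
        rw [sub_zero, sub_zero, QcA_apply, norm_split L (w t)]
        nlinarith [sq_nonneg ‖L.P (w t)‖, sq_nonneg (L.y (w t))]
      -- energy bound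
      have hSup := Esc.ker_upper hφ (0:ℝ) one_pos (L.y z) (L.y z')
      have h0 := (abs_le.mp (f_int_bd hφ (u := η) 0 (L.y z) zero_le_one)).1
      have h0' := (abs_le.mp (f_int_bd hF (u := w) 0 (L.Q z) zero_le_one)).1
      have hmin := min_le_right (ε / 3) 1
      have hmin' := min_le_left (ε / 3) 1
      have hkN := ker_N_le L hF hz hSz
      have hkN' := ker_ge_neg L hF 0 (Q_mem L hz) (Q_mem L hSz)
      have hRb := Rs_bd L hF s hz hz'
      have hyy : ‖L.y z' - L.y z - ((1:ℝ) - 0) • (0:ℝ)‖ ^ 2 ≤ 2 ^ 2 := by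
        rw [smul_zero, sub_zero, Real.norm_eq_abs, abs_sub_comm]
        gcongr
      have hPE : ‖p - L.vel s‖ ^ 2 / 2 ≤ (∑ i, ‖L.b i‖) ^ 2 / 2
          + (((2 * |L.R0|) ^ 2 + L.Cc ^ 2) / 2 + M) + 1 + M := by
        unfold Rn at hn
        linarith
      have hE1 : (∫ t in (0:ℝ)..1, ‖η t - 0‖ ^ 2 / 2) ≤ 2 + M + 1 + M := by
        norm_num at hSup hyy h0 hactη ⊢
        linarith
      have hE2 : (∫ t in (0:ℝ)..1, ‖w t - 0‖ ^ 2 / 2)
          ≤ (((2 * |L.R0|) ^ 2 + L.Cc ^ 2) / 2 + M) + 1 + M := by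
        norm_num at h0' hactw hkN ⊢
        linarith
      have hE' : (∫ t in (0:ℝ)..1, ‖u t - L.vel s‖ ^ 2 / 2) ≤ C0 := by
        rw [energy_split L hu (P_vel L s) (y_vel L s)]
        simp_rw [hPu, hyu, hQu]
        have e1 : (∫ _t in (0:ℝ)..1, ‖p - L.vel s‖ ^ 2 / 2) = ‖p - L.vel s‖ ^ 2 / 2 := by simp
        rw [e1, hC0]
        linarith
      have herr2 := havg s hs z u hu hS hE'
      have h7 : (∫ t in (0:ℝ)..1, (φ (L.y (traj 0 z u t)) + F (traj 0 z u t) t))
          = (∫ t in (0:ℝ)..1, (fun (y : ℝ) (_ : ℝ) => φ y) (traj 0 (L.y z) η t) t)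
            + ∫ t in (0:ℝ)..1, F (traj 0 (L.Q z) w t) t := by
        rw [← integral_add (f_traj_ii hφ hη 0 (L.y z) 0 1) (f_traj_ii hF hw 0 (L.Q z) 0 1)]
        congr 1; ext t
        rw [hyt, ← hFQ (traj 0 z u t), hQt, hFQ]
      rw [h7] at herr2
      have h8 := (abs_le.mp herr2).2
      have e1 : (∫ _t in (0:ℝ)..1, ‖p - L.vel s‖ ^ 2 / 2) = ‖p - L.vel s‖ ^ 2 / 2 := by simp
      rw [e1] at h1
      unfold Rn at hn
      have hSyd : Sy (L.y z) (L.y z') = Esc.ker (fun (y : ℝ) (_ : ℝ) => φ y) (0:ℝ) 0 1 (L.y z) (L.y z') := rfl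
      rw [hSyd]
      linarith
    linarith

end ModuleA

end EscN
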