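import Pool.Agent.EscN.SpAP
import Pool.Agent.EscN.A3
import Pool.Agent.EscN.A1

/-!
The data condition for potentials of a special form (project ESCN, T3).
-/

noncomputable section

namespace EscN

open Set Filter Topology Esc
open scoped ContDiff

namespace T3b

section gen

variable {W V : Type*} [NormedAddCommGroup W] [NormedSpace ℝ W] [NormedAddCommGroup V] [NormedSpace ℝ V]

lemma norm_mn_le_at {Q B : ℕ} (hQ : 0 < Q) (hB : 0 < B) {w : W} {h : W → V} {M : ℝ} {x : W}
    (hh : ∀ s : ℝ, ‖h (x + s • w)‖ ≤ M) : ‖mn Q B w h x‖ ≤ M := by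
  rw [mn_eq_dmean]
  exact norm_dmean_le hQ hB hh 0

lemma norm_mn_sub_le {Q B : ℕ} (hQ : 0 < Q) (hB : 0 < B) {w : W} {h : W → V} {η : ℝ} {x : W}
    (hh : ∀ s : ℝ, ‖h (x + s • w) - h x‖ ≤ η) : ‖mn Q B w h x - h x‖ ≤ η := by
  have e : mn Q B w h x - h x = mn Q B w (fun z => h z - h x) x := by
    rw [mn_sub]
    congr 1
    exact (mn_const hQ hB w (h := fun _ => h x) (fun _ => rfl)).symm
  rw [e]
  exact norm_mn_le_at hQ hB hh

end gen

variable {E : Type*} [NormedAddCommGroup E] [InnerProductSpace ℝ E]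

lemma good_mono {M M' : ℝ} {f : E → ℝ → ℝ} (h : Good M f) (hM : M ≤ M') : Good M' f :=
  ⟨h.pos.trans hM, h.cont, fun x t => (h.bd x t).trans hM,
    fun x x' t => (h.lipx x x' t).trans (mul_le_mul_of_nonneg_right hM (norm_nonneg _)),
    fun x t t' => (h.lipt x t t').trans (mul_le_mul_of_nonneg_right hM (abs_nonneg _))⟩

lemma good_mn {M : ℝ} {f : E → ℝ → ℝ} (h : Good M f) {Q B : ℕ} (hQ : 0 < Q) (hB : 0 < B) (w : E) :
    Good M (fun x t => mn Q B w (fun z => f z t) x) where
  pos := h.pos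
  cont := by
    have hc : Continuous (fun p : E × ℝ => ∑ l ∈ Finset.range (Q * B), f (p.1 + ((l : ℝ) / Q) • w) p.2) :=
      continuous_finsetSum _ fun l _ =>
        h.cont.comp (((continuous_fst (X := E) (Y := ℝ)).add continuous_const).prodMk continuous_snd)
    exact hc.const_smul (((Q * B : ℕ) : ℝ)⁻¹)
  bd := fun x t => by
    rw [← Real.norm_eq_abs]
    exact norm_mn_le hQ hB (fun z => by rw [Real.norm_eq_abs]; exact h.bd z t) x
  lipx := fun x x' t => by
    have e : mn Q B w (fun z => f z t) x - mn Q B w (fun z => f z t) x' =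
        mn Q B w (fun z => f z t - f (z + (x' - x)) t) x := by
      rw [mn_sub, mn_trans Q B w (x' - x) (fun z => f z t), add_sub_cancel]
    rw [e, ← Real.norm_eq_abs]
    refine norm_mn_le hQ hB (fun z => ?_) x
    rw [Real.norm_eq_abs]
    refine (h.lipx _ _ _).trans (le_of_eq ?_)
    rw [norm_sub_rev x x', sub_add_cancel_left, norm_neg]
  lipt := fun x t t' => by
    rw [← mn_sub, ← Real.norm_eq_abs]
    exact norm_mn_le hQ hB (fun z => by rw [Real.norm_eq_abs]; exact h.lipt z t t') x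

lemma good_mns {ι : Type*} {M : ℝ} {f : E → ℝ → ℝ} (h : Good M f) {Q B : ℕ} (hQ : 0 < Q) (hB : 0 < B)
    (b : ι → E) (l : List ι) : Good M (fun x t => mns Q B b l (fun z => f z t) x) := by
  induction l with
  | nil => exact h
  | cons i l ih => exact good_mn ih hQ hB (b i)

end T3b

open T3b SpAP

variable {d : ℕ} {E : Type*} [NormedAddCommGroup E] [InnerProductSpace ℝ E] (L : Sp d E)

lemma T3b.norm_Q_le (x : E) : ‖L.Q x‖ ≤ ‖x‖ := by
  have h1 : inner ℝ (x - L.Q x) (L.Q x) = 0 := by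
    have h2 : x - L.Q x = L.P x + L.y x • L.e := by unfold Sp.Q; abel
    rw [h2, inner_add_left, inner_smul_left, L.P_sym]
    have h3 : L.P (L.Q x) = 0 := by
      unfold Sp.Q
      rw [map_sub, map_sub, P_P, map_smul, L.P_e]
      simp
    have h4 : inner ℝ L.e (L.Q x) = 0 := by
      have : L.y (L.Q x) = 0 := by
        unfold Sp.Q
        rw [y_sub, y_sub, y_P, y_smul, y_e]
        ring
      exact this
    rw [h3, h4]
    simp
  have h2 : ‖x‖ ^ 2 = ‖x - L.Q x‖ ^ 2 + ‖L.Q x‖ ^ 2 := by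
    have := norm_add_sq_real (x - L.Q x) (L.Q x)
    rw [sub_add_cancel, h1] at this
    linarith
  have h3 : ‖L.Q x‖ ^ 2 ≤ ‖x‖ ^ 2 := by nlinarith [sq_nonneg ‖x - L.Q x‖]
  exact le_of_sq_le_sq h3 (norm_nonneg _)

lemma T3b.good_Q {M : ℝ} {U : E → ℝ → ℝ} (gU : Good M U) : Good M (fun x t => U (L.Q x) t) where
  pos := gU.pos
  cont := by
    have hc : Continuous L.Q := by
      have : L.Q = fun x => x - L.P x - (inner ℝ L.e x : ℝ) • L.e := rfl
      rw [this]
      exact (continuous_id.sub L.P.continuous).sub ((continuous_const.inner continuous_id).smul continuous_const)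
    exact gU.cont.comp ((hc.comp (continuous_fst (X := E) (Y := ℝ))).prodMk continuous_snd)
  bd := fun x t => gU.bd _ t
  lipx := fun x x' t => by
    refine (gU.lipx _ _ t).trans (mul_le_mul_of_nonneg_left ?_ gU.pos)
    have e : L.Q x - L.Q x' = L.Q (x - x') := by
      have : L.Q x = L.Q (x - x') + L.Q x' := by rw [← Q_add', sub_add_cancel]
      rw [this]; abel
    rw [e]
    exact T3b.norm_Q_le L _
  lipt := fun x t t' => gU.lipt _ t t'

variable [FiniteDimensional ℝ E]

/-- potentials of a special form satisfy the data condition -/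
theorem dat_of_form (hd : 0 < d) {P h : E → ℝ → ℝ} (hP : L.IsPot P) (hh : L.IsPot h) (i0 : Fin d)
    {N1 q B : ℕ} (hN1 : 0 < N1) (hq : 0 < q) (hB : 0 < B) (p : ℝ) {ε η : ℝ} (hε : 0 < ε)
    (hε' : ε ≤ 1 / 10000) (hη : 0 < η) (hη' : (d + 2) * η < (ε / 50) ^ 2 / 200)
    (hform : ∀ X ∈ L.S, ∀ t, P X t = h X t -
      mn N1 1 (-L.b i0) (fun Z => h Z t - mn q B L.g (fun Z => h Z t) Z) X +
      ε * (1 - Real.cos (2 * Real.pi * (L.y X - p))))
    (hg : ∀ t, ∀ s : ℝ, NInv η (s • L.g) (mn q B L.g (fun Z => h Z t))) :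
    ∃ M0 : ℕ, L.Dat p (ε / 50) M0 P := by
  -- common parameters of the means along the `b i`
  have h1 : ∀ i, ∃ Q0 B0 : ℕ, 0 < Q0 ∧ 0 < B0 ∧ ∀ Q ≥ Q0, ∀ B ≥ B0, ∀ t, ∀ s : ℝ,
      NInv η (s • L.b i) (mn Q B (L.b i) (fun x => h x t)) := fun i => ninv_of_ap L hh (ap_b L hh i) hη
  choose Qi Bi hQi hBi hi using h1
  set Q1 := ∑ i, Qi i with hQ1
  set B1 := ∑ i, Bi i with hB1
  have hQ1p : 0 < Q1 := (hQi i0).trans_le (Finset.single_le_sum (fun _ _ => Nat.zero_le _) (Finset.mem_univ i0))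
  have hB1p : 0 < B1 := (hBi i0).trans_le (Finset.single_le_sum (fun _ _ => Nat.zero_le _) (Finset.mem_univ i0))
  have hi1 : ∀ i t, ∀ s : ℝ, NInv η (s • L.b i) (mn Q1 B1 (L.b i) (fun x => h x t)) := fun i t s =>
    hi i Q1 (Finset.single_le_sum (f := Qi) (fun _ _ => Nat.zero_le _) (Finset.mem_univ i)) B1
      (Finset.single_le_sum (f := Bi) (fun _ _ => Nat.zero_le _) (Finset.mem_univ i)) t s
  set l : List (Fin d) := List.finRange d with hl
  obtain ⟨H, hH⟩ : ∃ H : E → ℝ → ℝ, ∀ x t, H x t = mns Q1 B1 L.b l (fun z => h z t) x := ⟨_, fun _ _ => rfl⟩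
  have hH' : ∀ t, (fun z => H z t) = mns Q1 B1 L.b l (fun z => h z t) := fun t => funext fun x => hH x t
  obtain ⟨U, hU⟩ : ∃ U : E → ℝ → ℝ, ∀ x t, U x t =
    mn N1 1 (-L.b i0) (fun z => mn q B L.g (fun z => H z t) z) x := ⟨_, fun _ _ => rfl⟩
  have hU' : ∀ t, (fun z => U z t) = mn N1 1 (-L.b i0) (mn q B L.g (fun z => H z t)) :=
    fun t => funext fun x => hU x t
  set F : E → ℝ → ℝ := fun x t => U (L.Q x) t with hF
  set φ : ℝ → ℝ := fun y => ε * (1 - Real.cos (2 * Real.pi * (y - p))) with hφ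
  -- regularity
  obtain ⟨M, hM⟩ := isPot_good L hh
  have gH : Good M H := by
    have := T3b.good_mns hM hQ1p hB1p L.b l
    rwa [show (fun x t => mns Q1 B1 L.b l (fun z => h z t) x) = H from
      funext fun x => funext fun t => (hH x t).symm] at this
  have gU : Good M U := by
    have := T3b.good_mn (T3b.good_mn gH hq hB L.g) hN1 one_pos (-L.b i0)
    rwa [show (fun x t => mn N1 1 (-L.b i0) (fun z => mn q B L.g (fun z => H z t) z) x) = U from
      funext fun x => funext fun t => (hU x t).symm] at this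
  have gF : Good M F := T3b.good_Q L gU
  have hFw : ∀ x w t, L.Q w = 0 → F (x + w) t = F x t := fun x w t hw => by
    rw [hF]; simp only; rw [Q_add', hw, add_zero]
  -- near invariance
  have nH : ∀ i t, ∀ s : ℝ, NInv η (s • L.b i) (fun x => H x t) := fun i t s => by
    rw [hH']
    exact mns_ninv hQ1p hB1p (hi1 i t s) (List.mem_finRange i)
  have nU : ∀ i t, ∀ s : ℝ, NInv η (s • L.b i) (fun x => U x t) := fun i t s => by
    rw [hU']
    exact ((nH i t s).mn hq hB L.g).mn hN1 one_pos (-L.b i0)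
  have nUg : ∀ t, ∀ s : ℝ, NInv η (s • L.g) (fun x => U x t) := by
    intro t s
    have h2 := (hg t s).mns (b := L.b) hQ1p hB1p l
    rw [mns_mn, ← hH'] at h2
    rw [hU']
    exact h2.mn hN1 one_pos (-L.b i0)
  have hUF : ∀ X t, |U X t - F X t| ≤ (d + 1) * η := by
    intro X t
    have hmem : L.P X - L.y X • L.P L.g ∈ Submodule.span ℝ (Set.range L.b) :=
      Submodule.sub_mem _ (L.P_mem X) (Submodule.smul_mem _ _ (L.P_mem _))
    obtain ⟨a, ha⟩ := (Submodule.mem_span_range_iff_exists_fun ℝ).1 hmem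
    have e : X = L.Q X + L.y X • L.g + ∑ i, a i • L.b i := by
      rw [ha]
      conv_rhs => rw [L.g_eq]
      unfold Sp.Q
      rw [map_add, P_P, L.P_e, smul_add, add_zero]
      abel
    have h3 := ninv_sum (fun i s => nU i t s) Finset.univ a (L.Q X + L.y X • L.g)
    have h4 := nUg t (L.y X) (L.Q X)
    rw [← e] at h3
    rw [Finset.card_univ, Fintype.card_fin] at h3
    simp only [Real.norm_eq_abs] at h3 h4
    have h5 := abs_sub_le (U X t) (U (L.Q X + L.y X • L.g) t) (U (L.Q X) t)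
    change |U X t - U (L.Q X) t| ≤ _
    linarith
  have hHA : ∀ X t, |H X t - mn N1 1 (-L.b i0) (fun z => H z t) X| ≤ η := by
    intro X t
    rw [abs_sub_comm, ← Real.norm_eq_abs]
    refine norm_mn_sub_le hN1 one_pos fun s => ?_
    have := nH i0 t (-s) X
    rwa [neg_smul, ← smul_neg] at this
  -- the fast average
  have hFA : FastAvg L P (fun x t => φ (L.y x) + F x t) ((d + 2) * η) := by
    obtain ⟨N, c, w, hc, hs, hw, hr⟩ := mns_rep (b := L.b) hQ1p hB1p l
    refine ⟨N, c, w, hc, hs, hw, fun X hX t => ?_⟩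
    have hwQ : ∀ i, L.Q (w i) = 0 := fun i => by
      unfold Sp.Q
      rw [P_of_mem L (hw i), y_of_mem L (hw i), zero_smul, sub_self, sub_zero]
    set P' : E → ℝ := fun X => (h X t -
      mn N1 1 (-L.b i0) (fun Z => h Z t - mn q B L.g (fun Z => h Z t) Z) X) + φ (L.y X) with hP'
    have e1 : ∑ i, c i * P (X + w i) t = mns Q1 B1 L.b l P' X := by
      rw [hr]
      refine Finset.sum_congr rfl fun i _ => ?_
      rw [hform _ (S_add_W L hX (hwQ i)) t]
    have e2 : mns Q1 B1 L.b l P' X = (H X t - mn N1 1 (-L.b i0) (fun z => H z t) X) + U X t + φ (L.y X) := by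
      rw [hP', mns_add]
      have a1 : mns Q1 B1 L.b l (fun X => φ (L.y X)) = fun X => φ (L.y X) := by
        refine mns_const hQ1p hB1p (fun i x s => ?_) l
        have : L.y (L.b i) = 0 := L.eb i
        rw [y_add, y_smul, this, mul_zero, add_zero]
      have a2 : mns Q1 B1 L.b l (fun Z => h Z t - mn N1 1 (-L.b i0)
          (fun Z => h Z t - mn q B L.g (fun Z => h Z t) Z) Z) =
          fun Z => H Z t - mn N1 1 (-L.b i0) (fun Z => H Z t - mn q B L.g (fun z => H z t) Z) Z := by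
        rw [mns_sub, hH', ← hH' t]
        have a5 : mns Q1 B1 L.b l (fun Z => h Z t - mn q B L.g (fun Z => h Z t) Z) =
            fun Z => H Z t - mn q B L.g (fun z => H z t) Z := by
          rw [mns_sub, mns_mn, ← hH' t]
        have a3 := mns_mn (Q := Q1) (B := B1) (b := L.b) l N1 1 (-L.b i0)
          (fun Z => h Z t - mn q B L.g (fun Z => h Z t) Z)
        rw [a5] at a3
        funext Z
        have a4 := congrFun a3 Z
        rw [← a4]
      rw [a1, a2]
      simp only
      rw [mn_sub]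
      simp only [hU]
      ring
    have e3 : ∑ i, c i * P (X + w i) t - (φ (L.y X) + F X t) =
        (H X t - mn N1 1 (-L.b i0) (fun z => H z t) X) + (U X t - F X t) := by
      rw [e1, e2]; ring
    rw [e3]
    refine (abs_add_le _ _).trans ?_
    have := hHA X t
    have := hUF X t
    linarith
  -- conclusion
  have gφ : Good 8 (fun (y : ℝ) (_ : ℝ) => φ y) := pend_good p hε (by linarith)
  obtain ⟨κ, hκ1, hκ2⟩ := exists_between hη'
  obtain ⟨M0, hM0, hW⟩ := datW_of_avg L hd hP (M := max M 8) (T3b.good_mono gφ (le_max_right _ _))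
    (T3b.good_mono gF (le_max_left _ _)) hFw hκ1 hFA
  obtain ⟨e0, hS⟩ := sdata_pendulum p hε hε'
  obtain ⟨m, hm⟩ := exists_nat_ge M0
  refine ⟨m, by positivity, by linarith, hM0.trans hm, _, e0, κ, hS, ?_, hκ2, fun s hs => hW s (hm.trans hs)⟩
  exact (mul_nonneg (by positivity) hη.le).trans hκ1.le

end EscN
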