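import Pool.Agent.EscN.Defs

/-!
Outer definitions of project ESCN: the closed manifolds `M = (ℝⁿ × N)/ℤⁿ`, the space `C^k(M × 𝕋)`,
orbits. (To be copied to the hand-in file.)
-/

namespace EscN.T

open Filter Topology Set
open scoped ContDiff UniformConvergence

/-- The space `ℝⁿ`. -/
abbrev Vec (n : ℕ) := EuclideanSpace ℝ (Fin n)

/-- `N` is a compact connected submanifold of `F`: every point of a neighbourhood `U` of `N` has a
unique nearest point `r x` in `N`, which depends smoothly on `x`. -/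
structure IsTube {F : Type} [NormedAddCommGroup F] [NormedSpace ℝ F] (N U : Set F) (r : F → F) :
    Prop where
  compact : IsCompact N
  conn : IsConnected N
  isOpen : IsOpen U
  sub : N ⊆ U
  smooth : ContDiffOn ℝ ∞ r U
  mem : ∀ x ∈ U, r x ∈ N
  nearest : ∀ x ∈ U, ∀ p ∈ N, p ≠ r x → dist x (r x) < dist x p

/-- The maps `R i` commute and preserve `N` and `U`. -/
structure IsAction {ι F : Type} (N U : Set F) (R : ι → F → F) : Prop where
  comm : ∀ i j x, R i (R j x) = R j (R i x)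
  pres : ∀ i, R i '' N = N
  presU : ∀ i, R i '' U = U

/-- A closed manifold `M = (ℝⁿ × N)/ℤⁿ` with its metric. `N` is a compact connected submanifold of
`ℝᵐ` with tubular neighbourhood `U` and nearest point map `r`. The generator `i` of `ℤⁿ` acts by
`(x, ν) ↦ (x + τ i, rot i ν)`, where the `τ i` are linearly independent and the `rot i` are commuting
linear isometries of `ℝᵐ` which preserve `N` (and `U`). -/
structure FlatBundle (n m : ℕ) where
  τ : Fin n → Vec n
  li : LinearIndependent ℝ τ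
  N : Set (Vec m)
  U : Set (Vec m)
  r : Vec m → Vec m
  tube : IsTube N U r
  rot : Fin n → (Vec m ≃ₗᵢ[ℝ] Vec m)
  act : IsAction N U fun i => (rot i : Vec m → Vec m)

/-- Functions of `(x, ν, t)`. -/
abbrev Fun (n m : ℕ) := Vec n × Vec m × ℝ → ℝ

variable {n m : ℕ}

namespace FlatBundle

variable (M : FlatBundle n m)

theorem compact : IsCompact M.N := M.tube.compact
theorem conn : IsConnected M.N := M.tube.conn
theorem isOpen : IsOpen M.U := M.tube.isOpen
theorem sub : M.N ⊆ M.U := M.tube.sub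
theorem smooth : ContDiffOn ℝ ∞ M.r M.U := M.tube.smooth
theorem mem : ∀ x ∈ M.U, M.r x ∈ M.N := M.tube.mem
theorem nearest : ∀ x ∈ M.U, ∀ p ∈ M.N, p ≠ M.r x → dist x (M.r x) < dist x p := M.tube.nearest
theorem comm : ∀ i j x, M.rot i (M.rot j x) = M.rot j (M.rot i x) := M.act.comm
theorem pres : ∀ i, M.rot i '' M.N = M.N := M.act.pres
theorem presU : ∀ i, M.rot i '' M.U = M.U := M.act.presU

end FlatBundle

/-- `F` descends to `M × 𝕋` (as a function on `ℝⁿ × U × ℝ`). -/
def IsPeriodic (M : FlatBundle n m) (F : Fun n m) : Prop :=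
  (∀ i x ν t, ν ∈ M.U → F (x + M.τ i, M.rot i ν, t) = F (x, ν, t)) ∧
    ∀ x ν t, ν ∈ M.U → F (x, ν, t + 1) = F (x, ν, t)

/-- The space `C^k(M × 𝕋)`, `k = ∞` allowed. An element is a function on `ℝⁿ × N × ℝ`, extended to
`ℝⁿ × U × ℝ` by `F(x, ν, t) = F(x, r ν, t)` and by zero outside. -/
structure Pot (M : FlatBundle n m) (k : ℕ∞) where
  toFun : Fun n m
  contDiff : ContDiffOn ℝ k toFun {q | q.2.1 ∈ M.U}
  ext : ∀ x ν t, ν ∈ M.U → toFun (x, ν, t) = toFun (x, M.r ν, t)
  out : ∀ x ν t, ν ∉ M.U → toFun (x, ν, t) = 0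
  periodic : IsPeriodic M toFun

/-- the manifold `ℝⁿ × U × ℝ` -/
abbrev Dom (M : FlatBundle n m) := {q : Vec n × Vec m × ℝ // q.2.1 ∈ M.U}

/-- the sets `ℝⁿ × K × ℝ`, `K` a compact subset of `U` -/
def slabs (M : FlatBundle n m) : Set (Set (Dom M)) :=
  {A | ∃ K : Set (Vec m), IsCompact K ∧ K ⊆ M.U ∧ A = {q | q.1.2.1 ∈ K}}

section jets

variable (E : Type) [NormedAddCommGroup E] [NormedSpace ℝ E] {D : Type}

/-- Families of functions on `D`, one for each order `j ≤ k`; the function of order `j` has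
`j`-multilinear maps on `E` as values. -/
abbrev Jets (𝔖 : Set (Set D)) (k : ℕ∞) : Type :=
  ∀ j : {j : ℕ // (j : ℕ∞) ≤ k}, D →ᵤ[𝔖] ContinuousMultilinearMap ℝ (fun _ : Fin j.1 => E) ℝ

/-- The topology of uniform convergence on the members of `𝔖`, for all orders `j ≤ k`. -/
noncomputable abbrev jetsTop (𝔖 : Set (Set D)) (k : ℕ∞) : TopologicalSpace (Jets E 𝔖 k) := inferInstance

variable {E}

/-- The derivatives of `f` of order `j ≤ k` at the points `ι q`, `q ∈ D`. -/
noncomputable def jets (ι : D → E) (𝔖 : Set (Set D)) (k : ℕ∞) (f : E → ℝ) : Jets E 𝔖 k :=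
  fun j => UniformOnFun.ofFun 𝔖 fun q => iteratedFDeriv ℝ j.1 f (ι q)

end jets

/-- The derivatives of order `j ≤ k` on `ℝⁿ × U × ℝ`. -/
noncomputable def jet {M : FlatBundle n m} {k : ℕ∞} (f : Pot M k) : Jets (Vec n × Vec m × ℝ) (slabs M) k :=
  jets Subtype.val (slabs M) k f.toFun

/-- The `C^k` topology: uniform convergence of the derivatives of order `j ≤ k` on the sets
`ℝⁿ × K × ℝ`, `K ⊆ U` compact. -/
noncomputable instance (M : FlatBundle n m) (k : ℕ∞) : TopologicalSpace (Pot M k) :=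
  TopologicalSpace.induced jet (jetsTop (Vec n × Vec m × ℝ) (slabs M) k)

/-- `(x, ν)` is an orbit, on `(0,∞)`, of the Euler-Lagrange flow of
`L = |x'|²/2 + |ν'|²/2 + F(x, ν, t)` on `ℝⁿ × N`: the curve stays in `ℝⁿ × N`, is twice
differentiable, and `(x'', ν'') - grad F` is orthogonal to `ℝⁿ × N`, that is, it is orthogonal to the
velocities at `0` of all curves of `ℝⁿ × N` through the point. -/
def IsOrbit (M : FlatBundle n m) (F : Fun n m) (x : ℝ → Vec n) (ν : ℝ → Vec m) : Prop :=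
  ∀ t, 0 < t → ν t ∈ M.N ∧ DifferentiableAt ℝ x t ∧ DifferentiableAt ℝ ν t ∧
    DifferentiableAt ℝ (deriv x) t ∧ DifferentiableAt ℝ (deriv ν) t ∧
    ∀ (X : ℝ → Vec n) (Y : ℝ → Vec m) (ξ : Vec n) (η : Vec m), X 0 = x t → Y 0 = ν t →
      (∀ s, Y s ∈ M.N) → HasDerivAt X ξ 0 → HasDerivAt Y η 0 →
      HasDerivAt (fun s => F (X s, Y s, t))
        (inner ℝ (deriv (deriv x) t) ξ + inner ℝ (deriv (deriv ν) t) η) 0

/-- The Euler-Lagrange flow on `M` has an orbit that tends to infinity. -/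
def HasEscapingOrbit (M : FlatBundle n m) (F : Fun n m) : Prop :=
  ∃ (x : ℝ → Vec n) (ν : ℝ → Vec m), IsOrbit M F x ν ∧
    Tendsto (fun t => ‖deriv x t‖ ^ 2 + ‖deriv ν t‖ ^ 2) atTop atTop

end EscN.T
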