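import Pool.Agent.EscN.K2
import Pool.Agent.helper42.Esc.A1

/-!
Module A: the data class is open.
-/

noncomputable section

namespace EscN

open MeasureTheory Set Filter Topology Esc
open scoped ContDiff

variable {d : ℕ} {E : Type*} [NormedAddCommGroup E] [InnerProductSpace ℝ E] [FiniteDimensional ℝ E]
  (L : Sp d E)

/-- the data class is `C^0`-open -/
theorem dat_open {p β M0 : ℝ} {f : E → ℝ → ℝ} (hf : L.IsPot f) (h : L.Dat p β M0 f) :
    ∃ ρ > 0, ∀ f', L.IsPot f' → (∀ x t, |f x t - f' x t| ≤ ρ) → L.Dat p β M0 f' := by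
  obtain ⟨Sy, e0, κ, hS, hκ0, hκ, hD⟩ := h.ex
  refine ⟨(β ^ 2 / 200 - κ) / 2, by linarith, fun f' hf' hff => ?_⟩
  obtain ⟨M, hM⟩ := isPot_good L hf
  obtain ⟨M', hM'⟩ := isPot_good L hf'
  have g1 := hM.mono (le_max_left M M')
  have g2 := hM'.mono (le_max_right M M')
  refine ⟨h.β_pos, h.β_le, h.M0_ge, Sy, e0, κ + (β ^ 2 / 200 - κ) / 2, hS, by linarith, by linarith,
    fun s hs => ?_⟩
  obtain ⟨R, hR, hk⟩ := hD s hs
  refine ⟨R, hR, fun z hz z' hz' hzz => ?_⟩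
  have h1 := abs_le.mp (hk z hz z' hz' hzz)
  have h2 := abs_le.mp (kbar_sub_le L g1 g2 (fun x _ t => hff x t) s hz hz')
  rw [abs_le]
  constructor <;> linarith [h1.1, h1.2, h2.1, h2.2]

end EscN
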