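import Pool.Agent.EscN.Defs

/-!
Definition of fast averages (module A of project ESCN).
-/

noncomputable section

namespace EscN

variable {d : ℕ} {E : Type*} [NormedAddCommGroup E] [InnerProductSpace ℝ E] (L : Sp d E)

/-- the potential `f` is averaged in the fast directions, up to `η`, by `F`: a finite convex
combination of translates of `f` by fast vectors is `η`-close to `F` on `S` -/
def FastAvg (f F : E → ℝ → ℝ) (η : ℝ) : Prop :=
  ∃ (N : ℕ) (c : Fin N → ℝ) (w : Fin N → E), (∀ i, 0 ≤ c i) ∧ ∑ i, c i = 1 ∧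
    (∀ i, w i ∈ Submodule.span ℝ (Set.range L.b)) ∧ ∀ x ∈ L.S, ∀ t, |∑ i, c i * f (x + w i) t - F x t| ≤ η

end EscN
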