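import Pool.Agent.EscN.Defs

/-!
Module B0 of project ESCN: algebra of the structure `Sp` (helper64).
-/

noncomputable section

namespace EscN

open MeasureTheory Set Filter Topology Esc
open scoped ContDiff

variable {d : ℕ} {E : Type*} [NormedAddCommGroup E] [InnerProductSpace ℝ E]

section B0
variable (L : Sp d E)

theorem P_of_mem {x : E} (hx : x ∈ Submodule.span ℝ (Set.range L.b)) : L.P x = x := by
  induction hx using Submodule.span_induction with
  | mem x h =>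
    obtain ⟨i, rfl⟩ := h
    exact L.P_b i
  | zero => exact map_zero _
  | add x y _ _ hx hy => rw [map_add, hx, hy]
  | smul a x _ hx => rw [map_smul, hx]

theorem lv_mem (n : Fin d → ℤ) : L.lv n ∈ Submodule.span ℝ (Set.range L.b) :=
  Submodule.sum_mem _ fun i _ => Submodule.smul_mem _ _ (Submodule.subset_span ⟨i, rfl⟩)

theorem vel_mem (s : ℝ) : L.vel s ∈ Submodule.span ℝ (Set.range L.b) :=
  Submodule.sum_mem _ fun i _ => Submodule.smul_mem _ _ (Submodule.subset_span ⟨i, rfl⟩)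

theorem P_P (x : E) : L.P (L.P x) = L.P x := P_of_mem L (L.P_mem x)

theorem y_P (x : E) : L.y (L.P x) = 0 := by
  unfold Sp.y
  rw [← L.P_sym, L.P_e, inner_zero_left]

theorem y_of_mem {x : E} (hx : x ∈ Submodule.span ℝ (Set.range L.b)) : L.y x = 0 := by
  rw [← P_of_mem L hx, y_P]

theorem P_lv (n : Fin d → ℤ) : L.P (L.lv n) = L.lv n := P_of_mem L (lv_mem L n)

theorem P_vel (s : ℝ) : L.P (L.vel s) = L.vel s := P_of_mem L (vel_mem L s)

theorem y_lv (n : Fin d → ℤ) : L.y (L.lv n) = 0 := y_of_mem L (lv_mem L n)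

theorem y_vel (s : ℝ) : L.y (L.vel s) = 0 := y_of_mem L (vel_mem L s)

theorem y_g : L.y L.g = 1 := L.eg

theorem y_add (x x' : E) : L.y (x + x') = L.y x + L.y x' := by
  unfold Sp.y
  rw [inner_add_right]

theorem y_sub (x x' : E) : L.y (x - x') = L.y x - L.y x' := by
  unfold Sp.y
  rw [inner_sub_right]

theorem y_smul (a : ℝ) (x : E) : L.y (a • x) = a * L.y x := by
  unfold Sp.y
  rw [inner_smul_right]

theorem y_e : L.y L.e = 1 := by
  unfold Sp.y
  rw [real_inner_self_eq_norm_sq, L.norm_e, one_pow]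

theorem O_mem (n : Fin d → ℤ) {x : E} (hx : x ∈ Submodule.span ℝ (Set.range L.b)) :
    L.O n x = x := by
  induction hx using Submodule.span_induction with
  | mem x h =>
    obtain ⟨i, rfl⟩ := h
    exact L.O_b n i
  | zero => exact map_zero _
  | add x y _ _ hx hy => rw [map_add, hx, hy]
  | smul a x _ hx => rw [map_smul, hx]

theorem Og_mem {x : E} (hx : x ∈ Submodule.span ℝ (Set.range L.b)) : L.Og x = x := by
  induction hx using Submodule.span_induction with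
  | mem x h =>
    obtain ⟨i, rfl⟩ := h
    exact L.Og_b i
  | zero => exact map_zero _
  | add x y _ _ hx hy => rw [map_add, hx, hy]
  | smul a x _ hx => rw [map_smul, hx]

theorem eq_of_Q {w : E} (hw : L.Q w = 0) : w = L.P w + L.y w • L.e := by
  unfold Sp.Q at hw
  rw [sub_sub, sub_eq_zero] at hw
  exact hw

theorem O_W (n : Fin d → ℤ) {w : E} (hw : L.Q w = 0) : L.O n w = w := by
  conv_lhs => rw [eq_of_Q L hw]
  rw [map_add, map_smul, L.O_e, O_mem L n (L.P_mem w), ← eq_of_Q L hw]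

theorem Og_W {w : E} (hw : L.Q w = 0) : L.Og w = w := by
  conv_lhs => rw [eq_of_Q L hw]
  rw [map_add, map_smul, L.Og_e, Og_mem L (L.P_mem w), ← eq_of_Q L hw]

theorem Og_symm_W {w : E} (hw : L.Q w = 0) : L.Og.symm w = w := by
  rw [LinearIsometryEquiv.symm_apply_eq, Og_W L hw]

theorem Q_g : L.Q L.g = 0 := by
  unfold Sp.Q
  rw [y_g, one_smul, sub_sub, ← L.g_eq, sub_self]

theorem Q_vel (s : ℝ) : L.Q (L.vel s) = 0 := by
  unfold Sp.Q
  rw [P_vel, y_vel, zero_smul, sub_self, sub_zero]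

theorem Q_lv (n : Fin d → ℤ) : L.Q (L.lv n) = 0 := by
  unfold Sp.Q
  rw [P_lv, y_lv, zero_smul, sub_self, sub_zero]

theorem y_O (n : Fin d → ℤ) (x : E) : L.y (L.O n x) = L.y x := by
  unfold Sp.y
  conv_lhs => rw [← L.O_e n]
  exact LinearIsometryEquiv.inner_map_map _ _ _

theorem y_Og (x : E) : L.y (L.Og x) = L.y x := by
  unfold Sp.y
  conv_lhs => rw [← L.Og_e]
  exact LinearIsometryEquiv.inner_map_map _ _ _

theorem y_Og_symm (x : E) : L.y (L.Og.symm x) = L.y x := by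
  rw [← y_Og, LinearIsometryEquiv.apply_symm_apply]

theorem P_O (n : Fin d → ℤ) (x : E) : L.P (L.O n x) = L.P x := by
  refine ext_inner_right ℝ fun w => ?_
  rw [L.P_sym, L.P_sym]
  conv_lhs => rw [← O_mem L n (L.P_mem w)]
  exact LinearIsometryEquiv.inner_map_map _ _ _

theorem P_Og (x : E) : L.P (L.Og x) = L.P x := by
  refine ext_inner_right ℝ fun w => ?_
  rw [L.P_sym, L.P_sym]
  conv_lhs => rw [← Og_mem L (L.P_mem w)]
  exact LinearIsometryEquiv.inner_map_map _ _ _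

theorem y_dk (n : Fin d → ℤ) (x : E) : L.y (L.dk n x) = L.y x := by
  unfold Sp.dk
  rw [y_add, y_O, y_lv, add_zero]

theorem P_dk (n : Fin d → ℤ) (x : E) : L.P (L.dk n x) = L.P x + L.lv n := by
  unfold Sp.dk
  rw [map_add, P_O, P_lv]

theorem y_gd (x : E) : L.y (L.gd x) = L.y x + 1 := by
  unfold Sp.gd
  rw [y_add, y_Og, y_g]

theorem y_gi (x : E) : L.y (L.gi x) = L.y x - 1 := by
  unfold Sp.gi
  rw [y_sub, y_Og_symm, y_g]

theorem gd_gi (x : E) : L.gd (L.gi x) = x := by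
  unfold Sp.gd Sp.gi
  rw [map_sub, LinearIsometryEquiv.apply_symm_apply, Og_W L (Q_g L), sub_add_cancel]

theorem gi_gd (x : E) : L.gi (L.gd x) = x := by
  unfold Sp.gd Sp.gi
  rw [map_add, LinearIsometryEquiv.symm_apply_apply, Og_symm_W L (Q_g L), add_sub_cancel_right]

theorem lv_zero : L.lv 0 = 0 := by
  unfold Sp.lv
  simp

theorem lv_add (n m : Fin d → ℤ) : L.lv (n + m) = L.lv n + L.lv m := by
  unfold Sp.lv
  rw [← Finset.sum_add_distrib]
  refine Finset.sum_congr rfl fun i _ => ?_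
  rw [Pi.add_apply, Int.cast_add, add_smul]

theorem dk_zero (x : E) : L.dk 0 x = x := by
  unfold Sp.dk
  rw [L.O_zero, lv_zero, add_zero]

theorem dk_add (n m : Fin d → ℤ) (x : E) : L.dk (n + m) x = L.dk n (L.dk m x) := by
  unfold Sp.dk
  rw [L.O_add, map_add, O_W L n (Q_lv L m), lv_add]
  abel

theorem dk_gd (n : Fin d → ℤ) (x : E) : L.dk n (L.gd x) = L.gd (L.dk n x) := by
  unfold Sp.dk Sp.gd
  rw [map_add, map_add, O_W L n (Q_g L), Og_W L (Q_lv L n), L.Og_O]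
  abel

theorem dk_gi (n : Fin d → ℤ) (x : E) : L.dk n (L.gi x) = L.gi (L.dk n x) := by
  rw [← gi_gd L (L.dk n (L.gi x)), ← dk_gd, gd_gi]

theorem dist_dk (n : Fin d → ℤ) (x x' : E) : dist (L.dk n x) (L.dk n x') = dist x x' := by
  unfold Sp.dk
  rw [dist_add_right, LinearIsometryEquiv.dist_map]

theorem dist_gd (x x' : E) : dist (L.gd x) (L.gd x') = dist x x' := by
  unfold Sp.gd
  rw [dist_add_right, LinearIsometryEquiv.dist_map]

theorem dist_gi (x x' : E) : dist (L.gi x) (L.gi x') = dist x x' := by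
  unfold Sp.gi
  rw [dist_sub_right, LinearIsometryEquiv.dist_map]

/-- deck maps commute with translations by `W` -/
theorem dk_add_W (n : Fin d → ℤ) (x w : E) (hw : L.Q w = 0) : L.dk n (x + w) = L.dk n x + w := by
  unfold Sp.dk
  rw [map_add, O_W L n hw]
  abel

theorem gd_add_W (x w : E) (hw : L.Q w = 0) : L.gd (x + w) = L.gd x + w := by
  unfold Sp.gd
  rw [map_add, Og_W L hw]
  abel

theorem gi_add_W (x w : E) (hw : L.Q w = 0) : L.gi (x + w) = L.gi x + w := by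
  unfold Sp.gi
  rw [map_add, Og_symm_W L hw]
  abel

theorem Q_dk (n : Fin d → ℤ) (x : E) : L.Q (L.dk n x) = L.O n (L.Q x) := by
  unfold Sp.Q
  rw [P_dk, y_dk, map_sub, map_sub, map_smul, L.O_e, O_mem L n (L.P_mem x)]
  unfold Sp.dk
  abel

theorem Q_gd (x : E) : L.Q (L.gd x) = L.Og (L.Q x) := by
  unfold Sp.Q
  rw [y_gd, map_sub, map_sub, map_smul, L.Og_e, Og_mem L (L.P_mem x)]
  unfold Sp.gd
  rw [map_add, P_Og, add_smul, one_smul]
  conv_lhs => rw [show L.Og x + L.g - (L.P x + L.P L.g) - (L.y x • L.e + L.e) =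
    L.Og x - L.P x - L.y x • L.e + (L.g - (L.P L.g + L.e)) by abel]
  rw [← L.g_eq, sub_self, add_zero]

theorem norm_Q_dk (n : Fin d → ℤ) (x : E) : ‖L.Q (L.dk n x)‖ = ‖L.Q x‖ := by
  rw [Q_dk, LinearIsometryEquiv.norm_map]

theorem norm_Q_gd (x : E) : ‖L.Q (L.gd x)‖ = ‖L.Q x‖ := by
  rw [Q_gd, LinearIsometryEquiv.norm_map]

theorem norm_Q_gi (x : E) : ‖L.Q (L.gi x)‖ = ‖L.Q x‖ := by
  rw [← norm_Q_gd, gd_gi]

theorem add_W_of {T : Set E} (hb : ∀ (i : Fin d) (a : ℝ), ∀ x ∈ T, x + a • L.b i ∈ T)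
    (he : ∀ (a : ℝ), ∀ x ∈ T, x + a • L.e ∈ T) {x w : E} (hx : x ∈ T) (hw : L.Q w = 0) :
    x + w ∈ T := by
  have key : ∀ v ∈ Submodule.span ℝ (Set.range L.b), ∀ a : ℝ, ∀ x ∈ T, x + a • v ∈ T := by
    intro v hv
    induction hv using Submodule.span_induction with
    | mem v h =>
      obtain ⟨i, rfl⟩ := h
      exact hb i
    | zero =>
      intro a x hx
      rw [smul_zero, add_zero]
      exact hx
    | add v v' _ _ hv hv' =>
      intro a x hx
      rw [smul_add, ← add_assoc]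
      exact hv' a _ (hv a x hx)
    | smul c v _ hv =>
      intro a x hx
      rw [smul_smul]
      exact hv _ x hx
  rw [eq_of_Q L hw, ← add_assoc]
  refine he _ _ ?_
  have := key _ (L.P_mem w) 1 x hx
  rwa [one_smul] at this

/-- the state space -/
theorem S_add_W {x w : E} (hx : x ∈ L.S) (hw : L.Q w = 0) : x + w ∈ L.S :=
  add_W_of L L.S_b L.S_e hx hw

theorem S_dk {x : E} (n : Fin d → ℤ) : L.dk n x ∈ L.S ↔ x ∈ L.S := by
  have key : ∀ (n : Fin d → ℤ) (x : E), x ∈ L.S → L.dk n x ∈ L.S := fun n x hx =>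
    S_add_W L (L.S_O n x hx) (Q_lv L n)
  refine ⟨fun h => ?_, key n x⟩
  have := key (-n) _ h
  rwa [← dk_add, neg_add_cancel, dk_zero] at this

theorem S_gd {x : E} : L.gd x ∈ L.S ↔ x ∈ L.S := by
  refine ⟨fun h => ?_, fun h => S_add_W L (L.S_Og x h) (Q_g L)⟩
  have h1 : L.Og x ∈ L.S := by
    have := S_add_W L h (w := -L.g) (by
      have h2 : L.Q (-L.g) = -L.Q L.g := by
        unfold Sp.Q Sp.y
        rw [map_neg, inner_neg_right, neg_smul]
        abel
      rw [h2, Q_g, neg_zero])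
    unfold Sp.gd at this
    rwa [add_neg_cancel_right] at this
  have := L.S_Og' _ h1
  rwa [LinearIsometryEquiv.symm_apply_apply] at this

theorem S_gi {x : E} : L.gi x ∈ L.S ↔ x ∈ L.S := by
  rw [← S_gd, gd_gi]

theorem S_setY {x : E} (η : ℝ) (hx : x ∈ L.S) : L.setY x η ∈ L.S := L.S_e _ x hx

theorem rt_add_W (x : E) {w : E} (hw : L.Q w = 0) : L.rt (x + w) = L.rt x + w := by
  have := add_W_of L (T := {z | L.rt z = L.rt x + (z - x)}) (x := x) (w := w) ?_ ?_ ?_ hw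
  · simpa using this
  · intro i a z hz
    simp only [mem_ofPred_eq] at hz ⊢
    rw [L.rt_b, hz]
    abel
  · intro a z hz
    simp only [mem_ofPred_eq] at hz ⊢
    rw [L.rt_e, hz]
    abel
  · simp

theorem Q_smul (a : ℝ) (w : E) : L.Q (a • w) = a • L.Q w := by
  unfold Sp.Q
  rw [map_smul, y_smul, smul_sub, smul_sub, smul_smul]

/-- tangent vectors -/
theorem rt_fderiv_W {x : E} (w : E) (hw : L.Q w = 0) : fderiv ℝ L.rt x w = w := by
  have h1 : HasFDerivAt L.rt (fderiv ℝ L.rt x) x :=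
    ((L.ret.smooth.differentiable (by simp)) x).hasFDerivAt
  have h2 : HasDerivAt (fun t : ℝ => x + t • w) w 0 := by
    simpa using ((hasDerivAt_id (0 : ℝ)).smul_const w).const_add x
  have h3 : HasDerivAt (fun t : ℝ => L.rt (x + t • w)) (fderiv ℝ L.rt x w) 0 := by
    have h1' : HasFDerivAt L.rt (fderiv ℝ L.rt x) (x + (0 : ℝ) • w) := by simpa using h1
    exact h1'.comp_hasDerivAt (0 : ℝ) h2
  have h4 : HasDerivAt (fun t : ℝ => L.rt (x + t • w)) w 0 := by
    have h5 : (fun t : ℝ => L.rt (x + t • w)) = fun t : ℝ => L.rt x + t • w := by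
      funext t
      exact rt_add_W L x (by rw [Q_smul, hw, smul_zero])
    rw [h5]
    simpa using ((hasDerivAt_id (0 : ℝ)).smul_const w).const_add (L.rt x)
  exact h3.unique h4

/-! ### bounds of potentials -/

/-- the pointwise size of a function and its derivative does not increase along a symmetry -/
theorem size_le {F : E × ℝ → ℝ} (hF : Differentiable ℝ F) (φ : E × ℝ → E × ℝ)
    (A : E × ℝ →L[ℝ] E × ℝ) (hA : ‖A‖ ≤ 1) (hφ : ∀ p, HasFDerivAt φ A p)
    (h : ∀ p, F (φ p) = F p) (p : E × ℝ) :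
    |F p| + ‖fderiv ℝ F p‖ ≤ |F (φ p)| + ‖fderiv ℝ F (φ p)‖ := by
  have h1 : HasFDerivAt (fun q => F (φ q)) ((fderiv ℝ F (φ p)).comp A) p :=
    (hF (φ p)).hasFDerivAt.comp p (hφ p)
  have h2 : (fun q => F (φ q)) = F := funext h
  rw [h2] at h1
  rw [h1.fderiv, h]
  have h3 : ‖(fderiv ℝ F (φ p)).comp A‖ ≤ ‖fderiv ℝ F (φ p)‖ * ‖A‖ :=
    ContinuousLinearMap.opNorm_comp_le _ _
  have h4 : ‖fderiv ℝ F (φ p)‖ * ‖A‖ ≤ ‖fderiv ℝ F (φ p)‖ * 1 :=
    mul_le_mul_of_nonneg_left hA (norm_nonneg (fderiv ℝ F (φ p)))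
  linarith

/-- a symmetry which is an affine isometry of the space -/
theorem size_le_iso {F : E × ℝ → ℝ} (hF : Differentiable ℝ F) (U : E ≃ₗᵢ[ℝ] E) (c : E) (τ : ℝ)
    (h : ∀ (x : E) (t : ℝ), F (U x + c, t + τ) = F (x, t)) (x : E) (t : ℝ) :
    |F (x, t)| + ‖fderiv ℝ F (x, t)‖ ≤ |F (U x + c, t + τ)| + ‖fderiv ℝ F (U x + c, t + τ)‖ := by
  set A : E × ℝ →L[ℝ] E × ℝ := ((U.toContinuousLinearEquiv : E →L[ℝ] E).comp
    (ContinuousLinearMap.fst ℝ E ℝ)).prod (ContinuousLinearMap.snd ℝ E ℝ) with hA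
  have hA1 : ‖A‖ ≤ 1 := by
    refine ContinuousLinearMap.opNorm_le_bound _ zero_le_one fun v => ?_
    rw [one_mul]
    have h1 : A v = (U v.1, v.2) := rfl
    rw [h1, Prod.norm_mk, LinearIsometryEquiv.norm_map]
    exact le_rfl
  refine size_le hF (fun p => (U p.1 + c, p.2 + τ)) A hA1 (fun p => ?_) (fun p => h p.1 p.2) (x, t)
  have h1 : HasFDerivAt (fun p : E × ℝ => A p + (c, τ)) A p := A.hasFDerivAt.add_const (c, τ)
  exact h1

/-- moving to slow coordinate in `[0, 1)` -/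
theorem exists_slow {g : E → ℝ → ℝ} (hgd : ∀ x t, g x t ≤ g (L.gd x) t)
    (hgi : ∀ x t, g x t ≤ g (L.gi x) t) (m : ℤ) : ∀ x : E, ∃ x' : E, L.y x' = L.y x - m ∧
      ‖L.Q x'‖ = ‖L.Q x‖ ∧ ∀ t, g x t ≤ g x' t := by
  induction m using Int.induction_on with
  | zero => exact fun x => ⟨x, by simp, rfl, fun t => le_rfl⟩
  | succ k ih =>
    intro x
    obtain ⟨x', h1, h2, h3⟩ := ih x
    refine ⟨L.gi x', ?_, (norm_Q_gi L x').trans h2, fun t => (h3 t).trans (hgi _ _)⟩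
    rw [y_gi, h1]
    push_cast
    ring
  | pred k ih =>
    intro x
    obtain ⟨x', h1, h2, h3⟩ := ih x
    refine ⟨L.gd x', ?_, (norm_Q_gd L x').trans h2, fun t => (h3 t).trans (hgd _ _)⟩
    rw [y_gd, h1]
    push_cast
    ring

theorem eq_parts (x : E) : x = L.P x + L.y x • L.e + L.Q x := by
  unfold Sp.Q
  abel

/-- the fundamental domain is bounded -/
theorem exists_dom {g : E → ℝ → ℝ} (hdk : ∀ n x t, g x t ≤ g (L.dk n x) t)
    (hgd : ∀ x t, g x t ≤ g (L.gd x) t) (hgi : ∀ x t, g x t ≤ g (L.gi x) t) (x : E) :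
    ∃ x' : E, ‖x'‖ ≤ (∑ i, ‖L.b i‖) + 1 + ‖L.Q x‖ ∧ ‖L.Q x'‖ = ‖L.Q x‖ ∧ ∀ t, g x t ≤ g x' t := by
  obtain ⟨x1, h1, h2, h3⟩ := exists_slow L hgd hgi ⌊L.y x⌋ x
  obtain ⟨c, hc⟩ := (Submodule.mem_span_range_iff_exists_fun ℝ).1 (L.P_mem x1)
  set n : Fin d → ℤ := fun i => -⌊c i⌋ with hn
  refine ⟨L.dk n x1, ?_, (norm_Q_dk L n x1).trans h2, fun t => (h3 t).trans (hdk _ _ _)⟩
  have e1 : ‖L.P (L.dk n x1)‖ ≤ ∑ i, ‖L.b i‖ := by
    have e2 : L.P (L.dk n x1) = ∑ i, Int.fract (c i) • L.b i := by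
      rw [P_dk, ← hc]
      unfold Sp.lv
      rw [← Finset.sum_add_distrib]
      refine Finset.sum_congr rfl fun i _ => ?_
      rw [← add_smul, hn, Int.fract]
      push_cast
      rfl
    rw [e2]
    refine (norm_sum_le _ _).trans (Finset.sum_le_sum fun i _ => ?_)
    rw [norm_smul, Real.norm_eq_abs, abs_of_nonneg (Int.fract_nonneg _)]
    have := (Int.fract_lt_one (c i)).le
    nlinarith [norm_nonneg (L.b i)]
  have e3 : ‖L.y (L.dk n x1) • L.e‖ ≤ 1 := by
    rw [norm_smul, L.norm_e, mul_one, y_dk, h1, Real.norm_eq_abs]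
    have h4 : L.y x - ⌊L.y x⌋ = Int.fract (L.y x) := rfl
    rw [h4, abs_of_nonneg (Int.fract_nonneg _)]
    exact (Int.fract_lt_one _).le
  have e4 : ‖L.Q (L.dk n x1)‖ = ‖L.Q x‖ := (norm_Q_dk L n x1).trans h2
  calc ‖L.dk n x1‖ = ‖L.P (L.dk n x1) + L.y (L.dk n x1) • L.e + L.Q (L.dk n x1)‖ := by
        rw [← eq_parts]
    _ ≤ ‖L.P (L.dk n x1)‖ + ‖L.y (L.dk n x1) • L.e‖ + ‖L.Q (L.dk n x1)‖ := norm_add₃_le
    _ ≤ (∑ i, ‖L.b i‖) + 1 + ‖L.Q x‖ := by linarith

theorem Q_continuous : Continuous L.Q := by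
  unfold Sp.Q Sp.y
  fun_prop

/-- potentials -/
theorem isPot_good [FiniteDimensional ℝ E] {f : E → ℝ → ℝ} (hf : L.IsPot f) : ∃ M, Good M f := by
  set F : E × ℝ → ℝ := fun p => f p.1 p.2 with hFdef
  have hF2 : ContDiff ℝ 2 F := hf.smooth
  have hFd : Differentiable ℝ F := hF2.differentiable (by norm_num)
  have hFc : Continuous (fderiv ℝ F) := hF2.continuous_fderiv (by norm_num)
  set G : E → ℝ → ℝ := fun x t => |F (x, t)| + ‖fderiv ℝ F (x, t)‖ with hG
  have hGc : Continuous (fun p : E × ℝ => G p.1 p.2) := by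
    have : (fun p : E × ℝ => G p.1 p.2) = fun p => |F p| + ‖fderiv ℝ F p‖ := rfl
    rw [this]
    have h1 : Continuous fun p => ‖fderiv ℝ F p‖ :=
      (continuous_norm (E := E × ℝ →L[ℝ] ℝ)).comp hFc
    exact hFd.continuous.abs.add h1
  have hdk : ∀ n x t, G x t ≤ G (L.dk n x) t := by
    intro n x t
    have := size_le_iso hFd (L.O n) (L.lv n) 0 (fun x t => by
      rw [add_zero]
      exact hf.perd n x t) x t
    rw [add_zero] at this
    exact this
  have hgd : ∀ x t, G x t ≤ G (L.gd x) t := by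
    intro x t
    have := size_le_iso hFd L.Og L.g 0 (fun x t => by
      rw [add_zero]
      exact hf.perg x t) x t
    rw [add_zero] at this
    exact this
  have hgi : ∀ x t, G x t ≤ G (L.gi x) t := by
    intro x t
    have := size_le_iso hFd L.Og.symm (-L.g) 0 (fun x t => by
      rw [add_zero, ← sub_eq_add_neg]
      have h1 := hf.perg (L.gi x) t
      rw [gd_gi] at h1
      exact h1.symm) x t
    rw [add_zero, ← sub_eq_add_neg] at this
    exact this
  have hpt : ∀ (m : ℤ) (x : E) (t : ℝ), f x (t + m) = f x t := by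
    intro m
    induction m using Int.induction_on with
    | zero => intro x t; simp
    | succ k ih =>
      intro x t
      have h1 : t + ((k + 1 : ℤ) : ℝ) = (t + ((k : ℤ) : ℝ)) + 1 := by push_cast; ring
      rw [h1, hf.pert, ih]
    | pred k ih =>
      intro x t
      have h1 := hf.pert x (t + ((-(k : ℤ) - 1 : ℤ) : ℝ))
      have h2 : t + ((-(k : ℤ) - 1 : ℤ) : ℝ) + 1 = t + ((-(k : ℤ) : ℤ) : ℝ) := by push_cast; ring
      rw [h2, ih] at h1
      exact h1.symm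
  have hm : ∀ (m : ℤ) x t, G x t ≤ G x (t + m) := by
    intro m x t
    have := size_le_iso hFd (LinearIsometryEquiv.refl ℝ E) 0 (m : ℝ) (fun x t => by
      rw [add_zero]
      exact hpt m x t) x t
    rw [add_zero] at this
    exact this
  set ρ : ℝ := (∑ i, ‖L.b i‖) + 1 + (L.R0 + 1) with hρ
  obtain ⟨C, hC⟩ := ((isCompact_closedBall (0 : E) ρ).prod
    (isCompact_Icc (a := (0 : ℝ)) (b := 1))).bddAbove_image (f := fun p : E × ℝ => G p.1 p.2)
    hGc.continuousOn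
  have hCb : ∀ x t, ‖x‖ ≤ ρ → 0 ≤ t → t ≤ 1 → G x t ≤ C := by
    intro x t hx h0 h1
    exact hC ⟨(x, t), ⟨by simpa using hx, ⟨h0, h1⟩⟩, rfl⟩
  have hin : ∀ x t, ‖L.Q x‖ ≤ L.R0 + 1 → G x t ≤ C := by
    intro x t hx
    obtain ⟨x', h1, h2, h3⟩ := exists_dom L hdk hgd hgi x
    refine (h3 t).trans ((hm (-⌊t⌋) x' t).trans (hCb x' _ (by linarith) ?_ ?_))
    · push_cast
      linarith [Int.floor_le t]
    · push_cast
      linarith [Int.lt_floor_add_one t]
  have hout : ∀ x t, L.R0 + 1 < ‖L.Q x‖ → G x t = 0 := by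
    intro x t hx
    have h1 : F =ᶠ[𝓝 (x, t)] fun _ => 0 := by
      have h2 : ∀ᶠ p : E × ℝ in 𝓝 (x, t), L.R0 + 1 < ‖L.Q p.1‖ :=
        ((Q_continuous L).comp continuous_fst).norm.continuousAt.eventually (lt_mem_nhds hx)
      filter_upwards [h2] with p hp
      exact hf.supp _ _ hp.le
    rw [hG]
    simp only
    have h3 : ‖(0 : E × ℝ →L[ℝ] ℝ)‖ = 0 := norm_zero (E := E × ℝ →L[ℝ] ℝ)
    rw [h1.fderiv_eq, h1.eq_of_nhds, abs_zero, zero_add, fderiv_fun_const]
    exact h3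
  have hall : ∀ x t, G x t ≤ max C 0 := by
    intro x t
    rcases le_or_gt ‖L.Q x‖ (L.R0 + 1) with h | h
    · exact (hin x t h).trans (le_max_left _ _)
    · rw [hout x t h]
      exact le_max_right _ _
  have hlip : ∀ p q : E × ℝ, ‖F p - F q‖ ≤ max C 0 * ‖p - q‖ := by
    intro p q
    refine Convex.norm_image_sub_le_of_norm_fderiv_le (s := univ) (fun z _ => hFd z)
      (fun z _ => ?_) convex_univ (mem_univ q) (mem_univ p)
    have := hall z.1 z.2
    have h0 : 0 ≤ |F (z.1, z.2)| := abs_nonneg _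
    have h1 : ‖fderiv ℝ F (z.1, z.2)‖ ≤ max C 0 := by
      have h2 : G z.1 z.2 = |F (z.1, z.2)| + ‖fderiv ℝ F (z.1, z.2)‖ := rfl
      linarith
    exact h1
  refine ⟨max C 0, le_max_right _ _, hFd.continuous, ?_, ?_, ?_⟩
  · intro x t
    have h2 : G x t = |F (x, t)| + ‖fderiv ℝ F (x, t)‖ := rfl
    have h3 : |f x t| = |F (x, t)| := rfl
    have := hall x t
    have h4 := norm_nonneg (fderiv ℝ F (x, t))
    linarith
  · intro x x' t
    have := hlip (x, t) (x', t)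
    rw [Real.norm_eq_abs, Prod.mk_sub_mk, sub_self, Prod.norm_mk, norm_zero,
      max_eq_left (norm_nonneg _)] at this
    exact this
  · intro x t t'
    have := hlip (x, t) (x, t')
    rw [Real.norm_eq_abs, Prod.mk_sub_mk, sub_self, Prod.norm_mk, norm_zero,
      max_eq_right (norm_nonneg _), Real.norm_eq_abs] at this
    exact this

theorem isSm_isPot {G : E → ℝ → ℝ} (hG : L.IsSm G) : L.IsPot G :=
  ⟨hG.smooth.of_le (by norm_cast), hG.perd, hG.perg, hG.pert, hG.supp⟩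

theorem isPot_add {f G : E → ℝ → ℝ} (hf : L.IsPot f) (hG : L.IsPot G) :
    L.IsPot (fun x t => f x t + G x t) := by
  refine ⟨hf.smooth.add hG.smooth, fun n x t => ?_, fun x t => ?_, fun x t => ?_, fun x t h => ?_⟩
  · rw [hf.perd, hG.perd]
  · rw [hf.perg, hG.perg]
  · rw [hf.pert, hG.pert]
  · rw [hf.supp x t h, hG.supp x t h, add_zero]

end B0

end EscN
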