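import Pool.Agent.EscN.DecAbs
import Pool.Agent.EscN.K2b
import Pool.Agent.EscN.Cell

/-!
Approximate decoupling at a given speed is open and dense.
-/

noncomputable section

set_option linter.unusedSectionVars false

namespace EscN

open MeasureTheory Set Filter Topology Esc
open scoped ContDiff

variable {d : ℕ} {E : Type*} [NormedAddCommGroup E] [InnerProductSpace ℝ E] [FiniteDimensional ℝ E]
  (L : Sp d E)

/-! ### Locality lemma with hypotheses on `S` only -/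

theorem kbar_tubeS {M B : ℝ} {f f' : E → ℝ → ℝ} (hf : Good M f) (hf' : Good M f')
    (hp : ∀ n x t, f (L.dk n x) t = f x t) (hp' : ∀ n x t, f' (L.dk n x) t = f' x t)
    (s : ℝ) {z z' : E} (hz : z ∈ L.S) (hz' : z' ∈ L.S)
    (hB : L.kbar f' s z z' ≤ B) {w : ℝ} (hw : 0 < w) (hw' : w < 1 / 2)
    (κ : ℝ → ℝ) (hκ : IntervalIntegrable κ volume 0 1)
    (h0 : ∀ t ∈ Icc 0 w, ∀ r : E, z + t • L.vel s + r ∈ L.S →
      ‖r‖ ≤ Real.sqrt (2 * (B + M + 1) * w) →
      f (z + t • L.vel s + r) t + κ t ≤ f' (z + t • L.vel s + r) t)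
    (h1 : ∀ t ∈ Icc (1 - w) 1, ∀ r : E, z' - (1 - t) • L.vel s + r ∈ L.S →
      ‖r‖ ≤ Real.sqrt (2 * (B + M + 1) * w) →
      f (z' - (1 - t) • L.vel s + r) t + κ t ≤ f' (z' - (1 - t) • L.vel s + r) t)
    (hm : ∀ t ∈ Ioo w (1 - w), ∀ x ∈ L.S, f x t + κ t ≤ f' x t) :
    L.kbar f s z z' + ∫ t in (0:ℝ)..1, κ t ≤ L.kbar f' s z z' := by
  have qsm : ∀ (c : ℝ) (x : E), L.Q (c • x) = c • L.Q x := by
    intro c x
    unfold Sp.Q
    have e : L.y (c • x) = c * L.y x := inner_smul_right _ _ _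
    rw [map_smul, e, smul_sub, smul_sub, smul_smul]
  apply le_of_forall_pos_le_add
  intro ε hε
  obtain ⟨n, hn⟩ := kbar_attained L hf' s hz hz'
  have hdz' : L.dk n z' ∈ L.S := (S_dk L n).2 hz'
  obtain ⟨u, hu, hS, hzu, hact⟩ := exists_act_lt L hf' (L.vel s) one_pos hz hdz'
    (lt_min hε one_pos)
  rw [← hn] at hact
  have hact1 : act f' (L.vel s) 0 1 z u ≤ B + 1 := by linarith [min_le_right ε 1]
  have hact2 : act f' (L.vel s) 0 1 z u ≤ L.kbar f' s z z' + ε := by linarith [min_le_left ε 1]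
  have h2a := ker_le_act hf (L.vel s) one_pos z hu hS
  rw [hzu] at h2a
  have h2 := (kbar_le_ker L hf s hz hz' n).trans h2a
  have h3 : (∫ t in (0:ℝ)..1, f (traj 0 z u t) t) + (∫ t in (0:ℝ)..1, κ t)
      ≤ ∫ t in (0:ℝ)..1, f' (traj 0 z u t) t := by
    rw [← intervalIntegral.integral_add (f_traj_ii hf hu 0 z 0 1) hκ]
    apply intervalIntegral.integral_mono_on zero_le_one ((f_traj_ii hf hu 0 z 0 1).add hκ)
      (f_traj_ii hf' hu 0 z 0 1)
    intro t ht
    have htS : traj 0 z u t ∈ L.S := hS t ht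
    by_cases hA : t ≤ w
    · have h4 := near_start hf' hu hact1 (by linarith) (t := t) ⟨ht.1, hA⟩
      have e : z + t • L.vel s + (traj 0 z u t - (z + t • L.vel s)) = traj 0 z u t := by abel
      have h5 := h0 t ⟨ht.1, hA⟩ _ (by rw [e]; exact htS) h4
      rwa [e] at h5
    by_cases hB' : 1 - w ≤ t
    · have h4 := near_end hf' hu hact1 (by linarith) (t := t) ⟨hB', ht.2⟩
      rw [hzu] at h4
      have hinv : L.dk (-n) (L.dk n z') = z' := by
        rw [← dk_add, neg_add_cancel, dk_zero]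
      have hW : L.Q (-((1 - t) • L.vel s)) = 0 := by
        rw [← neg_smul, qsm, Q_vel, smul_zero]
      have e1 : L.dk (-n) (L.dk n z' - (1 - t) • L.vel s) = z' - (1 - t) • L.vel s := by
        rw [sub_eq_add_neg, dk_add_W L (-n) _ _ hW, hinv, ← sub_eq_add_neg]
      have h6 : ‖L.dk (-n) (traj 0 z u t) - (z' - (1 - t) • L.vel s)‖ ≤
          Real.sqrt (2 * (B + M + 1) * w) := by
        rw [← e1, ← dist_eq_norm, dist_dk, dist_eq_norm]
        exact h4
      have e : z' - (1 - t) • L.vel s + (L.dk (-n) (traj 0 z u t) - (z' - (1 - t) • L.vel s))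
          = L.dk (-n) (traj 0 z u t) := by abel
      have h5 := h1 t ⟨hB', ht.2⟩ _ (by rw [e]; exact (S_dk L (-n)).2 htS) h6
      rwa [e, hp, hp'] at h5
    · exact hm t ⟨not_le.mp hA, not_le.mp hB'⟩ _ htS
  rw [act_eq hf _ _ _ _ hu] at h2
  rw [act_eq hf' _ _ _ _ hu] at hact2
  linarith

/-! ### The decoupling property -/

/-- the segment kernel at speed `s` is decoupled up to an error `< η` for some finite set of durations -/
def Dec (p s η : ℝ) (f : E → ℝ → ℝ) : Prop :=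
  ∃ (F : Finset ℕ) (c : ℕ → ℝ) (η' : ℝ), F.Nonempty ∧ (∀ T ∈ F, 1 ≤ T) ∧ η' < η ∧
    ∀ z ∈ L.room p, ∀ z' ∈ L.room p, ∀ w ∈ L.room p, ∀ w' ∈ L.room p,
      |L.seg f p s F c z z' + L.seg f p s F c w w' - L.seg f p s F c z w' - L.seg f p s F c w z'| ≤ η'

lemma DecB.mono {M M' : ℝ} {f : E → ℝ → ℝ} (h : Good M f) (hM : M ≤ M') : Good M' f :=
  ⟨h.pos.trans hM, h.cont, fun x t => (h.bd x t).trans hM,
    fun x x' t => (h.lipx x x' t).trans (mul_le_mul_of_nonneg_right hM (norm_nonneg _)),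
    fun x t t' => (h.lipt x t t').trans (mul_le_mul_of_nonneg_right hM (abs_nonneg _))⟩

theorem DecB.seg_sub_le {p ρ : ℝ} {f f' : E → ℝ → ℝ} (hf : L.IsPot f) (hf' : L.IsPot f')
    (h : ∀ x t, |f x t - f' x t| ≤ ρ) (s : ℝ) {F : Finset ℕ} (hF : F.Nonempty) (hF1 : ∀ T ∈ F, 1 ≤ T)
    (c : ℕ → ℝ) {z z' : E} (hz : z ∈ L.room p) (hz' : z' ∈ L.room p) :
    |L.seg f p s F c z z' - L.seg f' p s F c z z'| ≤ ρ * F.sup id := by
  obtain ⟨M, hM⟩ := isPot_good L hf
  obtain ⟨M', hM'⟩ := isPot_good L hf'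
  have h1 := DecB.mono hM (le_max_left M M')
  have h2 := DecB.mono hM' (le_max_right M M')
  obtain ⟨B, Λ, hB, hΛ, hKD⟩ := kd_kbar L (max M M')
  exact gk_sub_le (hKD f h1 hf.perd s p) (hKD f' h2 hf'.perd s p)
    (fun z hz z' hz' => kbar_sub_le L h1 h2 (fun x _ t => h x t) s hz.1 hz'.1) hF hF1 c hz hz'

theorem dec_open {p s η : ℝ} {f : E → ℝ → ℝ} (hf : L.IsPot f) (h : Dec L p s η f) :
    ∃ ρ > 0, ∀ f', L.IsPot f' → (∀ x t, |f x t - f' x t| ≤ ρ) → Dec L p s η f' := by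
  obtain ⟨F, c, η', hF, hF1, hη', hd⟩ := h
  have hpos : (0:ℝ) < 4 * ((F.sup id : ℕ) + 1) := by positivity
  refine ⟨(η - η') / 2 / (4 * ((F.sup id : ℕ) + 1)), by
    have : 0 < (η - η') / 2 := by linarith
    positivity, fun f' hf' hff => ?_⟩
  refine ⟨F, c, (η + η') / 2, hF, hF1, by linarith, fun z hz z' hz' w hw w' hw' => ?_⟩
  have hs : ∀ a ∈ L.room p, ∀ b ∈ L.room p,
      |L.seg f p s F c a b - L.seg f' p s F c a b| ≤ (η - η') / 8 := by
    intro a ha b hb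
    refine (DecB.seg_sub_le L hf hf' hff s hF hF1 c ha hb).trans ?_
    have e1 : (η - η') / 2 / (4 * ((F.sup id : ℕ) + 1)) * ((F.sup id : ℕ) : ℝ) ≤
        (η - η') / 2 / (4 * ((F.sup id : ℕ) + 1)) * ((F.sup id : ℕ) + 1) := by
      apply mul_le_mul_of_nonneg_left (by linarith)
      have : 0 < (η - η') / 2 := by linarith
      positivity
    refine e1.trans (le_of_eq ?_)
    field_simp
    ring
  have k1 := abs_le.1 (hs z hz z' hz')
  have k2 := abs_le.1 (hs w hw w' hw')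
  have k3 := abs_le.1 (hs z hz w' hw')
  have k4 := abs_le.1 (hs w hw z' hz')
  have k5 := abs_le.1 (hd z hz z' hz' w hw w' hw')
  rw [abs_le]
  constructor <;> linarith [k1.1, k1.2, k2.1, k2.2, k3.1, k3.2, k4.1, k4.2, k5.1, k5.2]

/-- consequence for the barrier -/
theorem dec_bar {p s η : ℝ} {f : E → ℝ → ℝ} (hf : L.IsPot f) (h : Dec L p s η f) :
    ∀ z ∈ L.room p, ∀ z' ∈ L.room p, ∀ w ∈ L.room p, ∀ w' ∈ L.room p,
      |bar (L.kbar f s) (L.cell p) z z' + bar (L.kbar f s) (L.cell p) w w'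
        - bar (L.kbar f s) (L.cell p) z w' - bar (L.kbar f s) (L.cell p) w z'| ≤ 4 * η := by
  obtain ⟨F, c, η', hF, hF1, hη', hd⟩ := h
  obtain ⟨M, hM⟩ := isPot_good L hf
  obtain ⟨B, Λ, hB, hΛ, hKD⟩ := kd_kbar L M
  have hK := hKD f hM hf.perd s p
  obtain ⟨z0, hz0⟩ := hK.ne
  have hz0 := hK.sub hz0
  obtain ⟨b', hb'⟩ := bar_decoupled hK hF hF1 c (a := fun z => L.seg f p s F c z z0)
    (b := fun z' => L.seg f p s F c z0 z' - L.seg f p s F c z0 z0) (ε := η') (fun z hz z' hz' => by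
      have := hd z hz z' hz' z0 hz0 z0 hz0
      refine le_trans (le_of_eq ?_) this
      congr 1
      simp only [Sp.seg]
      ring)
  intro z hz z' hz' w hw w' hw'
  have k1 := abs_le.1 (hb' z hz z' hz')
  have k2 := abs_le.1 (hb' w hw w' hw')
  have k3 := abs_le.1 (hb' z hz w' hw')
  have k4 := abs_le.1 (hb' w hw z' hz')
  rw [abs_le]
  constructor <;> linarith [k1.1, k1.2, k2.1, k2.2, k3.1, k3.2, k4.1, k4.2]

/-! ### Preparations -/

lemma DecB.good_smul {M : ℝ} {G : E → ℝ → ℝ} (hG : Good M G) (c : ℝ) :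
    Good (|c| * M) (fun x t => c * G x t) := by
  refine ⟨mul_nonneg (abs_nonneg _) hG.pos, continuous_const.mul hG.cont, fun x t => ?_,
    fun x x' t => ?_, fun x t t' => ?_⟩
  · rw [abs_mul]; exact mul_le_mul_of_nonneg_left (hG.bd x t) (abs_nonneg _)
  · rw [← mul_sub, abs_mul, mul_assoc]; exact mul_le_mul_of_nonneg_left (hG.lipx x x' t) (abs_nonneg _)
  · rw [← mul_sub, abs_mul, mul_assoc]; exact mul_le_mul_of_nonneg_left (hG.lipt x t t') (abs_nonneg _)

lemma DecB.good_add {M M' : ℝ} {f G : E → ℝ → ℝ} (hf : Good M f) (hG : Good M' G) :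
    Good (M + M') (fun x t => f x t + G x t) := by
  refine ⟨add_nonneg hf.pos hG.pos, hf.cont.add hG.cont, fun x t => ?_, fun x x' t => ?_,
    fun x t t' => ?_⟩
  · exact (abs_add_le _ _).trans (add_le_add (hf.bd x t) (hG.bd x t))
  · rw [add_sub_add_comm, add_mul]
    exact (abs_add_le _ _).trans (add_le_add (hf.lipx x x' t) (hG.lipx x x' t))
  · rw [add_sub_add_comm, add_mul]
    exact (abs_add_le _ _).trans (add_le_add (hf.lipt x t t') (hG.lipt x t t'))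

lemma DecB.isSm_smul {G : E → ℝ → ℝ} (hG : L.IsSm G) (c : ℝ) : L.IsSm (fun x t => c * G x t) :=
  ⟨contDiff_const.mul hG.smooth, fun n x t => by rw [hG.perd], fun x t => by rw [hG.perg],
    fun x t => by rw [hG.pert], fun x t h => by rw [hG.supp x t h, mul_zero]⟩

lemma DecB.isSm_add {G G' : E → ℝ → ℝ} (hG : L.IsSm G) (hG' : L.IsSm G') :
    L.IsSm (fun x t => G x t + G' x t) :=
  ⟨hG.smooth.add hG'.smooth, fun n x t => by rw [hG.perd, hG'.perd],
    fun x t => by rw [hG.perg, hG'.perg], fun x t => by rw [hG.pert, hG'.pert],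
    fun x t h => by rw [hG.supp x t h, hG'.supp x t h, add_zero]⟩

lemma DecB.good_avg {M : ℝ} {ι : Type*} (I : Finset ι) (hI : I.Nonempty) {f : ι → E → ℝ → ℝ}
    (hf : ∀ i ∈ I, Good M (f i)) : Good M (fun x t => (∑ i ∈ I, f i x t) / I.card) := by
  have hc : (0:ℝ) < I.card := by exact_mod_cast hI.card_pos
  have hM : 0 ≤ M := (hf _ hI.choose_spec).pos
  have key : ∀ (a b : ι → ℝ) (D : ℝ), (∀ i ∈ I, |a i - b i| ≤ D) →
      |(∑ i ∈ I, a i) / I.card - (∑ i ∈ I, b i) / I.card| ≤ D := by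
    intro a b D h
    rw [← sub_div, ← Finset.sum_sub_distrib, abs_div, abs_of_pos hc, div_le_iff₀ hc]
    refine (Finset.abs_sum_le_sum_abs _ _).trans ((Finset.sum_le_sum h).trans ?_)
    rw [Finset.sum_const, nsmul_eq_mul, mul_comm]
  refine ⟨hM, ?_, fun x t => ?_, fun x x' t => key _ _ _ fun i hi => (hf i hi).lipx x x' t,
    fun x t t' => key _ _ _ fun i hi => (hf i hi).lipt x t t'⟩
  · exact (continuous_finsetSum _ fun i hi => (hf i hi).cont).div_const _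
  · have := key (fun i => f i x t) (fun _ => 0) M fun i hi => by
      rw [sub_zero]; exact (hf i hi).bd x t
    simpa using this

lemma DecB.exists_w (V Q δ : ℝ) (hδ : 0 < δ) : ∃ w : ℝ, 0 < w ∧ w < 1 / 2 ∧
    w * V + Real.sqrt (Q * w) ≤ δ := by
  have hc : Continuous (fun w : ℝ => w * V + Real.sqrt (Q * w)) := by fun_prop
  have h0 := hc.tendsto 0
  simp only [zero_mul, mul_zero, Real.sqrt_zero, add_zero] at h0
  have h1 : ∀ᶠ w : ℝ in 𝓝[>] 0, w * V + Real.sqrt (Q * w) < δ :=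
    nhdsWithin_le_nhds (h0.eventually (Iio_mem_nhds hδ))
  have h2 : ∀ᶠ w : ℝ in 𝓝[>] 0, w < 1 / 2 :=
    nhdsWithin_le_nhds (Iio_mem_nhds (by norm_num))
  obtain ⟨w, hw1, hw2, hw3⟩ := (h1.and (h2.and self_mem_nhdsWithin)).exists
  exact ⟨w, hw3, hw2, hw1.le⟩

/-- the data class is `C^0`-open -/
theorem DecB.dat_open {p β M0 : ℝ} {f : E → ℝ → ℝ} (hf : L.IsPot f) (h : L.Dat p β M0 f) :
    ∃ ρ > 0, ∀ f', L.IsPot f' → (∀ x t, |f x t - f' x t| ≤ ρ) → L.Dat p β M0 f' := by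
  obtain ⟨Sy, e0, κ, hS, hκ0, hκ, hDW⟩ := h.ex
  refine ⟨(β ^ 2 / 200 - κ) / 2, by linarith, fun f' hf' hff => ⟨h.β_pos, h.β_le, h.M0_ge, Sy, e0,
    κ + (β ^ 2 / 200 - κ) / 2, hS, by linarith, by linarith, fun s hs => ?_⟩⟩
  obtain ⟨M, hM⟩ := isPot_good L hf
  obtain ⟨M', hM'⟩ := isPot_good L hf'
  obtain ⟨R, h1, h2⟩ := hDW s hs
  refine ⟨R, h1, fun z hz z' hz' hy => ?_⟩
  have h3 := h2 z hz z' hz' hy
  have h4 := kbar_sub_le L (DecB.mono hM (le_max_left M M')) (DecB.mono hM' (le_max_right M M'))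
    (fun x _ t => hff x t) s hz hz'
  rw [abs_le] at h3 h4 ⊢
  constructor <;> linarith [h3.1, h3.2, h4.1, h4.2]

/-- `setY` in abstract form -/
lemma DecB.setY : SetY L.S L.y L.setY := by
  have hye : L.y L.e = 1 := by
    show inner ℝ L.e L.e = 1
    rw [real_inner_self_eq_norm_sq, L.norm_e]; norm_num
  refine ⟨fun z hz η => S_setY L η hz, fun z _ η => ?_, fun z _ => ?_⟩
  · unfold Sp.setY
    have e1 : L.y (z + (η - L.y z) • L.e) = L.y z + (η - L.y z) * L.y L.e := by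
      show inner ℝ L.e (z + (η - L.y z) • L.e) = inner ℝ L.e z + (η - L.y z) * inner ℝ L.e L.e
      rw [inner_add_right, inner_smul_right]
    rw [e1, hye]; ring
  · unfold Sp.setY
    rw [sub_self, zero_smul, add_zero]

/-- the data class gives near-minimality of optimal paths -/
lemma DecB.nmin {p β M0 s : ℝ} {f : E → ℝ → ℝ} (hD : L.Dat p β M0 f) (hs : M0 ≤ s)
    {B Λ : ℝ} (hK : KD (L.kbar f s) (L.cell p) (L.room p) B Λ) :
    ∃ (Sy : ℝ → ℝ → ℝ) (β Φ e0 ε : ℝ), SData Sy p β Φ e0 ε ∧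
      NMin (L.kbar f s) (L.cell p) (Rm L.S L.y p) L.y Sy p ε := by
  obtain ⟨Sy, e0, κ, hS, hκ0, hκ, hDW⟩ := hD.ex
  refine ⟨Sy, β, 0, e0, β ^ 2 / 200, hS, nmin_of_near (DecB.setY L) hK ?_⟩
  obtain ⟨R, hR1, hR2⟩ := hDW s hs
  exact ⟨R, fun z _ z' _ η η' => hR1 z z' η η', fun z hz z' hz' hy =>
    (hR2 z hz z' hz' hy).trans hκ.le⟩

/-- the gamma-shift by powers of `gd` -/
lemma DecB.shift (z : E) (hz : z ∈ L.S) (p : ℝ) : ∃ z' ∈ L.S, p - 1 / 2 ≤ L.y z' ∧ L.y z' ≤ p + 1 / 2 ∧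
    ∀ (ρ : ℝ) (c : E), cl L ρ c z' → cl L ρ c z := by
  have key : ∀ (m : ℕ) (z : E), z ∈ L.S → |L.y z - p| ≤ 1 / 2 + m → ∃ z' ∈ L.S, p - 1 / 2 ≤ L.y z' ∧
      L.y z' ≤ p + 1 / 2 ∧ ∀ (ρ : ℝ) (c : E), cl L ρ c z' → cl L ρ c z := by
    intro m
    induction m with
    | zero =>
      intro z hz h
      rw [Nat.cast_zero, add_zero, abs_le] at h
      exact ⟨z, hz, by linarith [h.1], by linarith [h.2], fun ρ c h => h⟩
    | succ m ih =>
      intro z hz h
      push_cast at h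
      rw [abs_le] at h
      by_cases h1 : L.y z - p < - (1 / 2)
      · obtain ⟨z', a1, a2, a3, a4⟩ := ih (L.gd z) ((S_gd L).2 hz) (by
          rw [y_gd, abs_le]
          have : (0:ℝ) ≤ m := Nat.cast_nonneg m
          constructor <;> linarith [h.1])
        exact ⟨z', a1, a2, a3, fun ρ c hc => (cl_gd L).1 (a4 ρ c hc)⟩
      by_cases h2 : 1 / 2 < L.y z - p
      · obtain ⟨z', a1, a2, a3, a4⟩ := ih (L.gi z) ((S_gi L).2 hz) (by
          rw [y_gi, abs_le]
          have : (0:ℝ) ≤ m := Nat.cast_nonneg m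
          constructor <;> linarith [h.2])
        exact ⟨z', a1, a2, a3, fun ρ c hc => (cl_gi L).1 (a4 ρ c hc)⟩
      · push Not at h1 h2
        exact ⟨z, hz, by linarith, by linarith, fun ρ c h => h⟩
  obtain ⟨m, hm⟩ := exists_nat_ge |L.y z - p|
  exact key m z hz (by linarith)

/-- closeness of two visible points near the middle of the room -/
lemma DecB.close {r p : ℝ} {c x x' : E} (hr : 4 * r < 3 / 8) (hc : |L.y c - p| ≤ 1 / 2)
    (hx : cl L (4 * r) c x) (hx' : cl L (4 * r) c x') (hy : |L.y x - p| ≤ 1 / 8)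
    (hy' : |L.y x' - p| ≤ 1 / 8) : ∃ n : Fin d → ℤ, dist x (L.dk n x') ≤ 8 * r := by
  have tri : ∀ a : ℝ, |a - p| ≤ 1 / 8 → |a - L.y c| + 4 * r < 1 := by
    intro a ha
    have : |a - L.y c| ≤ 5 / 8 := by
      rw [abs_le] at ha hc ⊢
      constructor <;> linarith [ha.1, ha.2, hc.1, hc.2]
    linarith
  obtain ⟨n, hn⟩ := cl_rep L hx (tri _ hy)
  obtain ⟨n', hn'⟩ := cl_rep L hx' (tri _ hy')
  refine ⟨n - n', ?_⟩
  have e : L.dk (n - n') (L.dk n' c) = L.dk n c := by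
    rw [← dk_add, sub_add_cancel]
  have h1 : dist (L.dk (n - n') x') (L.dk n c) ≤ 4 * r := by
    rw [← e, dist_dk]; exact hn'
  calc dist x (L.dk (n - n') x') ≤ dist x (L.dk n c) + dist (L.dk n c) (L.dk (n - n') x') :=
        dist_triangle _ _ _
    _ ≤ 4 * r + 4 * r := by
        rw [dist_comm (L.dk n c)]; exact add_le_add hn h1
    _ = 8 * r := by ring

/-- cells covering all of `S` -/
lemma DecB.cells : ∃ ρ : ℝ, 0 < ρ ∧ ∀ (p r : ℝ), 0 < r → r ≤ ρ → ∃ C : Finset E, C.Nonempty ∧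
    (∀ c ∈ C, c ∈ L.S ∧ |L.y c - p| ≤ 1 / 2) ∧ ∀ z ∈ L.S, ∃ c ∈ C, cl L r c z := by
  classical
  obtain ⟨D, ρ1, hρ1, h⟩ := exists_cells L
  refine ⟨ρ1, hρ1, fun p r hr hr1 => ?_⟩
  obtain ⟨C1, a1, a2, a3, -⟩ := h (p - 1 / 2) p (by linarith) (by linarith) r hr hr1
  obtain ⟨C2, b1, b2, b3, -⟩ := h p (p + 1 / 2) (by linarith) (by linarith) r hr hr1
  refine ⟨C1 ∪ C2, a2.mono Finset.subset_union_left, fun c hc => ?_, fun z hz => ?_⟩
  · rcases Finset.mem_union.1 hc with h | h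
    · obtain ⟨h1, h2, h3⟩ := a1 c h
      exact ⟨h1, by rw [abs_le]; constructor <;> linarith⟩
    · obtain ⟨h1, h2, h3⟩ := b1 c h
      exact ⟨h1, by rw [abs_le]; constructor <;> linarith⟩
  · obtain ⟨z', hz', h1, h2, h3⟩ := DecB.shift L z hz p
    rcases le_total (L.y z') p with h4 | h4
    · obtain ⟨c, hc, n, hn⟩ := a3 z' hz' h1 h4
      exact ⟨c, Finset.mem_union_left _ hc, h3 _ _ (cl_of_dk L hn)⟩
    · obtain ⟨c, hc, n, hn⟩ := b3 z' hz' h4 h2
      exact ⟨c, Finset.mem_union_right _ hc, h3 _ _ (cl_of_dk L hn)⟩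

lemma DecB.cl_mono {ρ ρ' : ℝ} {c x : E} (h : cl L ρ c x) (hρ : ρ ≤ ρ') : cl L ρ' c x := by
  have := cl_shift L (s := ρ' - ρ) (x' := x) h (by rw [dist_self]; linarith)
  rwa [add_sub_cancel] at this

theorem dec_dense (hd : 0 < d) {p β M0 s η : ℝ} {f : E → ℝ → ℝ} (hf : L.IsPot f)
    (hD : L.Dat p β M0 f) (hs : M0 ≤ s) (hη : 0 < η) (N : L.SmNorm) {ε : ℝ} (hε : 0 < ε) :
    ∃ G, L.IsSm G ∧ N.nm G < ε ∧ Good ε G ∧ Dec L p s η (fun x t => f x t + G x t) := by
  classical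
  have _ := hd
  obtain ⟨M, hM⟩ := isPot_good L hf
  obtain ⟨B, Λ, hB, hΛ, hKD⟩ := kd_kbar L (M + 1)
  obtain ⟨ρ, hρ, hopen⟩ := DecB.dat_open L hf hD
  have hM0 := hM.pos
  obtain ⟨ρ1, hρ1, hcells⟩ := DecB.cells L
  obtain ⟨ρ2, hρ2, hbump⟩ := exists_bump L
  -- radius
  obtain ⟨r, hr0, hrρ1, hrρ2, hr16, hrη⟩ : ∃ r : ℝ, 0 < r ∧ r ≤ ρ1 ∧ r ≤ ρ2 ∧ r ≤ 1 / 16 ∧
      8 * (Λ * (8 * r)) ≤ η / 2 := by
    refine ⟨min (min ρ1 ρ2) (min (1 / 16) (η / (128 * Λ))), ?_, ?_, ?_, ?_, ?_⟩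
    · exact lt_min (lt_min hρ1 hρ2) (lt_min (by norm_num) (by positivity))
    · exact (min_le_left _ _).trans (min_le_left _ _)
    · exact (min_le_left _ _).trans (min_le_right _ _)
    · exact (min_le_right _ _).trans (min_le_left _ _)
    · have h1 : min (min ρ1 ρ2) (min (1 / 16) (η / (128 * Λ))) ≤ η / (128 * Λ) :=
        (min_le_right _ _).trans (min_le_right _ _)
      rw [le_div_iff₀ (by positivity)] at h1
      linarith
  set rr : ℝ := Λ * (8 * r) with hrr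
  have hrr0 : 0 ≤ rr := by rw [hrr]; positivity
  obtain ⟨C, hCne, hCS, hcov⟩ := hcells p r hr0 hrρ1
  choose! g hg using fun c (hc : c ∈ L.S) => hbump r hr0 hrρ2 c hc
  have hg0 : ∀ c ∈ C, ∀ x, 0 ≤ g c x := fun c hc x => ((hg c (hCS c hc).1).1 x).1
  have hg1 : ∀ c ∈ C, ∀ x, cl L (2 * r) c x → g c x = 1 := fun c hc => (hg c (hCS c hc).1).2.1
  have hgz : ∀ c ∈ C, ∀ x, ¬ cl L (3 * r) c x → g c x = 0 := fun c hc => (hg c (hCS c hc).1).2.2.1
  have hgs : ∀ c ∈ C, ∀ w : ℝ, L.IsSm (fun x t => g c x * H33.zt w t) :=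
    fun c hc => (hg c (hCS c hc).1).2.2.2
  have hsum : ∀ x ∈ L.S, 1 ≤ ∑ c ∈ C, g c x := by
    intro x hx
    obtain ⟨c, hc, hcl⟩ := hcov x hx
    have h1 := hg1 c hc x (DecB.cl_mono L hcl (by linarith))
    rw [← h1]
    exact Finset.single_le_sum (f := fun c => g c x) (fun c hc => hg0 c hc x) hc
  -- time width
  obtain ⟨w, hw0, hw2, hw⟩ := DecB.exists_w ‖L.vel s‖ (2 * (B + (M + 1) + 1)) r hr0
  have htube : ∀ t ∈ Icc (0:ℝ) w, ∀ a : E, ‖a‖ ≤ Real.sqrt (2 * (B + (M + 1) + 1) * w) →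
      ‖t • L.vel s + a‖ ≤ r := by
    intro t ht a ha
    refine le_trans ?_ hw
    refine (norm_add_le _ _).trans (add_le_add ?_ ha)
    rw [norm_smul, Real.norm_eq_abs, abs_of_nonneg ht.1]
    exact mul_le_mul_of_nonneg_right ht.2 (norm_nonneg _)
  -- amplitude
  have hgood : ∀ c, ∃ Ck, c ∈ C → Good Ck (fun x t => g c x * H33.zt w t) := fun c => by
    by_cases hc : c ∈ C
    · obtain ⟨Ck, h⟩ := isPot_good L (isSm_isPot L (hgs c hc w))
      exact ⟨Ck, fun _ => h⟩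
    · exact ⟨0, fun h => absurd h hc⟩
  choose Ck hCk using hgood
  set gz : E → E → ℝ → ℝ := fun c x t => g c x * H33.zt w t with hgz'
  set Kb : ℝ := 1 + ∑ c ∈ C, (Ck c + |N.nm (gz c)|) with hKb
  have hterm : ∀ c ∈ C, 0 ≤ Ck c + |N.nm (gz c)| := fun c hc =>
    add_nonneg (hCk c hc).pos (abs_nonneg _)
  have hKbk : ∀ c ∈ C, Ck c + |N.nm (gz c)| ≤ Kb := by
    intro c hc
    have := Finset.single_le_sum (f := fun c => Ck c + |N.nm (gz c)|)
      (fun c hc => hterm c hc) hc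
    linarith
  have hKb1 : 1 ≤ Kb := by
    have : 0 ≤ ∑ c ∈ C, (Ck c + |N.nm (gz c)|) := Finset.sum_nonneg fun c hc => hterm c hc
    linarith
  set mm : ℝ := min (min ρ 1) ε with hmm
  have hmm0 : 0 < mm := lt_min (lt_min hρ one_pos) hε
  set τ : ℝ := mm / (2 * Kb) with hτ
  have hτ0 : 0 < τ := by positivity
  have hτC : ∀ c ∈ C, τ * (Ck c + |N.nm (gz c)|) ≤ mm / 2 := by
    intro c hc
    have h1 := mul_le_mul_of_nonneg_left (hKbk c hc) hτ0.le
    have h2 : τ * Kb = mm / 2 := by rw [hτ]; field_simp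
    linarith
  have hτ1 : ∀ c ∈ C, τ * Ck c ≤ mm / 2 := fun c hc => by
    have := hτC c hc
    have h2 : 0 ≤ τ * |N.nm (gz c)| := by positivity
    linarith
  have hτ2 : ∀ c ∈ C, τ * |N.nm (gz c)| ≤ mm / 2 := fun c hc => by
    have := hτC c hc
    have h2 : 0 ≤ τ * Ck c := mul_nonneg hτ0.le (hCk c hc).pos
    linarith
  have hmε : mm ≤ ε := min_le_right _ _
  have hmρ : mm ≤ ρ := (min_le_left _ _).trans (min_le_left _ _)
  have hm1 : mm ≤ 1 := (min_le_left _ _).trans (min_le_right _ _)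
  set G : E → E → ℝ → ℝ := fun c x t => (-τ) * gz c x t with hG
  have hGsm : ∀ c ∈ C, L.IsSm (G c) := fun c hc => DecB.isSm_smul L (hgs c hc w) (-τ)
  have hGg : ∀ c ∈ C, Good (mm / 2) (G c) := fun c hc => by
    refine DecB.mono (DecB.good_smul (hCk c hc) (-τ)) ?_
    rw [abs_neg, abs_of_pos hτ0]; exact hτ1 c hc
  set fk : E → E → ℝ → ℝ := fun c x t => f x t + G c x t with hfk
  have hfkg : ∀ c ∈ C, Good (M + 1) (fk c) := fun c hc =>
    DecB.mono (DecB.good_add hM (hGg c hc)) (by linarith)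
  have hfkp : ∀ c ∈ C, L.IsPot (fk c) := fun c hc => isPot_add L hf (isSm_isPot L (hGsm c hc))
  have hM1 : Good (M + 1) f := DecB.mono hM (by linarith)
  have hK := hKD f hM1 hf.perd s p
  have hKk : ∀ c ∈ C, KD (L.kbar (fk c) s) (L.cell p) (L.room p) B Λ := fun c hc =>
    hKD (fk c) (hfkg c hc) (hfkp c hc).perd s p
  have hcard : (0:ℝ) < C.card := by exact_mod_cast hCne.card_pos
  -- the average
  have hav : ∀ z ∈ L.room p, ∀ z' ∈ L.room p,
      (∑ c ∈ C, L.kbar (fk c) s z z') / C.card ≤ L.kbar f s z z' - τ / C.card := by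
    intro z hz z' hz'
    refine (kbar_concave L C hCne hfkg s hz.1 hz'.1).trans ?_
    have hFg := DecB.good_avg C hCne hfkg
    have hpt : ∀ x ∈ L.S, ∀ t, (∑ c ∈ C, fk c x t) / C.card + τ / C.card * H33.zt w t ≤ f x t := by
      intro x hx t
      have e1 : ∑ c ∈ C, fk c x t = C.card * f x t - τ * ((∑ c ∈ C, g c x) * H33.zt w t) := by
        simp only [hfk, hG, hgz']
        rw [Finset.sum_add_distrib, Finset.sum_const, nsmul_eq_mul, ← Finset.mul_sum,
          ← Finset.sum_mul]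
        ring
      have e2 := hsum x hx
      have e3 := H33.zt_nonneg hw0 hw2.le t
      have e4 : H33.zt w t ≤ (∑ c ∈ C, g c x) * H33.zt w t := by nlinarith
      have e6 : τ / C.card * H33.zt w t = τ * H33.zt w t / C.card := by ring
      rw [e1, e6, ← add_div, div_le_iff₀ hcard]
      have e5 := mul_le_mul_of_nonneg_left e4 hτ0.le
      linarith
    have htb := kbar_tubeS L (B := B) hFg hM1 (fun n x t => by
        congr 1
        exact Finset.sum_congr rfl fun c hc => (hfkp c hc).perd n x t) hf.perd s hz.1 hz'.1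
      ((abs_le.1 (hK.bd z hz z' hz')).2) hw0 hw2
      (fun t => τ / C.card * H33.zt w t)
      ((continuous_const.mul (H33.zt_cont w)).intervalIntegrable _ _)
      (fun t _ a ha _ => hpt _ ha _) (fun t _ a ha _ => hpt _ ha _) (fun t _ x hx => hpt _ hx _)
    rw [intervalIntegral.integral_const_mul, H33.zt_integral hw0 hw2.le, mul_one] at htb
    linarith
  -- outside of the cell the kernels agree
  have hcmp : ∀ c ∈ C, ∀ z ∈ L.room p, ∀ z' ∈ L.room p, z ∉ {x : E | cl L (4 * r) c x} →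
      z' ∉ {x : E | cl L (4 * r) c x} → L.kbar f s z z' ≤ L.kbar (fk c) s z z' := by
    intro c hc z hz z' hz' hzV hzV'
    have hzero : ∀ x a : E, x ∉ {x : E | cl L (4 * r) c x} → ‖a‖ ≤ r → g c (x + a) = 0 := by
      intro x a hx ha
      refine hgz c hc _ fun hcl => hx ?_
      have h1 := cl_shift L (x' := x) (s := r) hcl (by rw [dist_eq_norm, add_sub_cancel_left]; exact ha)
      have e : 3 * r + r = 4 * r := by ring
      rw [e] at h1
      exact h1
    have htb := kbar_tubeS L (B := B) (f := f) (f' := fk c) hM1 (hfkg c hc) hf.perd (hfkp c hc).perd s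
      hz.1 hz'.1 ((abs_le.1 ((hKk c hc).bd z hz z' hz')).2) hw0 hw2 (fun _ => 0)
      intervalIntegrable_const
      (fun t ht a _ ha => by
        have h1 := hzero z (t • L.vel s + a) hzV (htube t ht a ha)
        rw [← add_assoc] at h1
        simp only [hfk, hG, hgz', h1]
        simp)
      (fun t ht a _ ha => by
        have h0 : ‖-((1 - t) • L.vel s) + a‖ ≤ r := by
          have h1 := htube (1 - t) ⟨by linarith [ht.2], by linarith [ht.1]⟩ (-a) (by rwa [norm_neg])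
          have h2 : ‖-((1 - t) • L.vel s) + a‖ = ‖(1 - t) • L.vel s + -a‖ := by
            rw [← norm_neg]; congr 1; abel
          rwa [h2]
        have h1 := hzero z' (-((1 - t) • L.vel s) + a) hzV' h0
        have h2 : z' + (-((1 - t) • L.vel s) + a) = z' - (1 - t) • L.vel s + a := by abel
        rw [h2] at h1
        simp only [hfk, hG, hgz', h1]
        simp)
      (fun t ht x _ => by
        have h1 := H33.zt_mid hw0 hw2.le (t := t) ⟨ht.1.le, ht.2.le⟩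
        simp only [hfk, hG, hgz', h1]
        simp)
    simpa using htb
  -- barriers are almost constant on the visible part
  have hbar : ∀ c ∈ C, ∀ x ∈ L.room p, ∀ x' ∈ L.room p, x ∈ {x : E | cl L (4 * r) c x} →
      x' ∈ {x : E | cl L (4 * r) c x} → |L.y x - p| ≤ 1 / 8 → |L.y x' - p| ≤ 1 / 8 → ∀ z ∈ L.room p,
      |bar (L.kbar (fk c) s) (L.cell p) z x - bar (L.kbar (fk c) s) (L.cell p) z x'| ≤ rr ∧
      |bar (L.kbar (fk c) s) (L.cell p) x z - bar (L.kbar (fk c) s) (L.cell p) x' z| ≤ rr := by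
    intro c hc x hx x' hx' hxV hxV' hy hy' z hz
    have hK' := hKk c hc
    obtain ⟨m, hm⟩ := DecB.close L (by linarith) (hCS c hc).2 hxV hxV' hy hy'
    have hmr : L.dk m x' ∈ L.room p := by
      refine ⟨(S_dk L m).2 hx'.1, ?_⟩
      rw [y_dk]
      exact hx'.2
    have e1 : bar (L.kbar (fk c) s) (L.cell p) z (L.dk m x') =
        bar (L.kbar (fk c) s) (L.cell p) z x' := by
      refine bar_red_right hK' (fun u _ => ?_) hz
      have := kbar_per L (hfkp c hc).perd s u x' 0 m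
      rwa [dk_zero] at this
    have e2 : bar (L.kbar (fk c) s) (L.cell p) (L.dk m x') z =
        bar (L.kbar (fk c) s) (L.cell p) x' z := by
      refine bar_red_left hK' (fun u _ => ?_) hz
      have := kbar_per L (hfkp c hc).perd s x' u m 0
      rwa [dk_zero] at this
    rw [← e1, ← e2]
    have b1 := bar_lip hK' hz hx hz hmr
    have b2 := bar_lip hK' hx hz hmr hz
    rw [dist_self, zero_add] at b1
    rw [dist_self, add_zero] at b2
    have b3 : Λ * dist x (L.dk m x') ≤ rr := mul_le_mul_of_nonneg_left hm hΛ.le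
    exact ⟨b1.trans b3, b2.trans b3⟩
  obtain ⟨c, hc, hwin⟩ := dec_abs (S := L.S) (y := L.y) (p := p) hK C hCne
    (Ks := fun c => L.kbar (fk c) s) hKk (τ := τ / C.card) (by positivity) hav
    (fun c => {x : E | cl L (4 * r) c x}) hcmp
    (fun c hc => DecB.nmin L (hopen (fk c) (hfkp c hc) fun x t => by
      have e : f x t - fk c x t = - G c x t := by simp only [hfk]; ring
      rw [e, abs_neg]
      exact ((hGg c hc).bd x t).trans (by linarith)) hs (hKk c hc)) (r := rr) hbar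
  obtain ⟨F, hF, hF1, hFd⟩ := hwin (η / 32) (by positivity)
  refine ⟨G c, hGsm c hc, ?_, DecB.mono (hGg c hc) (by linarith), F, _, 8 * (η / 32 + rr), hF, hF1,
    by linarith, hFd⟩
  refine (N.smul_le (-τ) _ (hgs c hc w)).trans_lt ?_
  rw [abs_neg, abs_of_pos hτ0]
  have h1 := hτ2 c hc
  have h2 := mul_le_mul_of_nonneg_left (le_abs_self (N.nm (gz c))) hτ0.le
  linarith

lemma DecB.fin_rho (J : ℕ) {P : ℕ → ℝ → Prop} (hP : ∀ i ≤ J, ∃ ρ > 0, P i ρ)
    (mono : ∀ i ρ ρ', ρ' ≤ ρ → P i ρ → P i ρ') : ∃ ρ > 0, ∀ i ≤ J, P i ρ := by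
  induction J with
  | zero =>
    obtain ⟨ρ, hρ, h⟩ := hP 0 le_rfl
    exact ⟨ρ, hρ, fun i hi => by rw [Nat.le_zero.1 hi]; exact h⟩
  | succ J ih =>
    obtain ⟨ρ, hρ, h⟩ := ih fun i hi => hP i (hi.trans (Nat.le_succ J))
    obtain ⟨ρ', hρ', h'⟩ := hP (J + 1) le_rfl
    refine ⟨min ρ ρ', lt_min hρ hρ', fun i hi => ?_⟩
    rcases hi.lt_or_eq with h1 | h1
    · exact mono i ρ _ (min_le_left _ _) (h i (Nat.lt_succ_iff.1 h1))
    · rw [h1]; exact mono _ ρ' _ (min_le_right _ _) h'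

theorem dec_dense_fin' (hd : 0 < d) {p β M0 η : ℝ} {f : E → ℝ → ℝ} (hf : L.IsPot f)
    (hD : L.Dat p β M0 f) (s : ℕ → ℝ) (J : ℕ) (hs : ∀ i ≤ J, M0 ≤ s i) (hη : 0 < η) (N : L.SmNorm) :
    ∀ {ε : ℝ}, 0 < ε →
    ∃ G, L.IsSm G ∧ N.nm G < ε ∧ Good ε G ∧ L.Dat p β M0 (fun x t => f x t + G x t) ∧
      ∀ i ≤ J, Dec L p (s i) η (fun x t => f x t + G x t) := by
  induction J with
  | zero =>
    intro ε hε
    obtain ⟨ρ, hρ, hopen⟩ := DecB.dat_open L hf hD
    obtain ⟨G, h1, h2, h3, h4⟩ := dec_dense L hd hf hD (hs 0 le_rfl) hη N (lt_min hε hρ)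
    refine ⟨G, h1, h2.trans_le (min_le_left _ _), DecB.mono h3 (min_le_left _ _),
      hopen _ (isPot_add L hf (isSm_isPot L h1)) (fun x t => ?_), fun i hi => by
        rw [Nat.le_zero.1 hi]; exact h4⟩
    have e : f x t - (f x t + G x t) = - G x t := by ring
    rw [e, abs_neg]
    exact (h3.bd x t).trans (min_le_right _ _)
  | succ J ih =>
    intro ε hε
    obtain ⟨G1, a1, a2, a3, a4, a5⟩ := ih (fun i hi => hs i (hi.trans (Nat.le_succ J))) (half_pos hε)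
    have hf1 := isPot_add L hf (isSm_isPot L a1)
    obtain ⟨ρ, hρ, hopen⟩ := DecB.dat_open L hf1 a4
    obtain ⟨ρ', hρ', hopen'⟩ := DecB.fin_rho J (P := fun i ρ => ∀ f', L.IsPot f' →
      (∀ x t, |(f x t + G1 x t) - f' x t| ≤ ρ) → Dec L p (s i) η f')
      (fun i hi => dec_open L hf1 (a5 i hi))
      (fun i ρ ρ' hρ h f' hf' hff => h f' hf' fun x t => (hff x t).trans hρ)
    obtain ⟨G2, b1, b2, b3, b4⟩ := dec_dense L hd hf1 a4 (hs (J + 1) le_rfl) hη N
      (lt_min (half_pos hε) (lt_min hρ hρ'))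
    have hf2 := isPot_add L hf1 (isSm_isPot L b1)
    have hdiff : ∀ x t, |(f x t + G1 x t) - (f x t + G1 x t + G2 x t)| ≤ min ρ ρ' := by
      intro x t
      have e : (f x t + G1 x t) - (f x t + G1 x t + G2 x t) = - G2 x t := by ring
      rw [e, abs_neg]
      exact (b3.bd x t).trans (min_le_right _ _)
    have heq : (fun x t => f x t + (G1 x t + G2 x t)) = fun x t => f x t + G1 x t + G2 x t := by
      funext x t; ring
    refine ⟨fun x t => G1 x t + G2 x t, DecB.isSm_add L a1 b1, ?_, ?_, ?_, ?_⟩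
    · have := N.add_le G1 G2 a1 b1
      have h5 : N.nm G2 < ε / 2 := b2.trans_le (min_le_left _ _)
      linarith
    · refine DecB.mono (DecB.good_add a3 b3) ?_
      have : min (ε / 2) (min ρ ρ') ≤ ε / 2 := min_le_left _ _
      linarith
    · rw [heq]
      exact hopen _ hf2 fun x t => (hdiff x t).trans (min_le_left _ _)
    · intro i hi
      rw [heq]
      rcases hi.lt_or_eq with h1 | h1
      · exact hopen' i (Nat.lt_succ_iff.1 h1) _ hf2 fun x t => (hdiff x t).trans (min_le_right _ _)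
      · rw [h1]; exact b4

/-- finitely many speeds -/
theorem dec_dense_fin (hd : 0 < d) {p β M0 η : ℝ} {f : E → ℝ → ℝ} (hf : L.IsPot f)
    (hD : L.Dat p β M0 f) (s : ℕ → ℝ) (J : ℕ) (hs : ∀ i ≤ J, M0 ≤ s i) (hη : 0 < η) (N : L.SmNorm)
    {ε : ℝ} (hε : 0 < ε) :
    ∃ G, L.IsSm G ∧ N.nm G < ε ∧ Good ε G ∧ ∀ i ≤ J, Dec L p (s i) η (fun x t => f x t + G x t) := by
  obtain ⟨G, h1, h2, h3, _, h5⟩ := dec_dense_fin' L hd hf hD s J hs hη N hε
  exact ⟨G, h1, h2, h3, h5⟩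

end EscN
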