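import Pool.Agent.helper1.EscN.Near

/-!
Decoupling, abstract part (port of `helper37/Esc/Dec.lean`): if the average of finitely many kernels
is smaller than `K`, one of them forces all long minimal paths through a small set.
-/

noncomputable section

set_option linter.unusedSectionVars false

namespace EscN

open MeasureTheory Set Filter Topology
open Esc

/-! ### Abstract lemmas on min-plus kernels -/

section abstract

variable {Y : Type*} [PseudoMetricSpace Y] {K : Y → Y → ℝ} {C A : Set Y} {B Λ : ℝ}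

/-- if the average of finitely many kernels is smaller than `K - τ`, the critical value of one of
them is larger -/
lemma DecA.al_increase (h : KD K C A B Λ) {ι : Type*} (I : Finset ι) (hI : I.Nonempty)
    {Ks : ι → Y → Y → ℝ} (hK : ∀ k ∈ I, KD (Ks k) C A B Λ) {τ : ℝ} (hτ : 0 < τ)
    (H : ∀ z ∈ A, ∀ z' ∈ A, (∑ k ∈ I, Ks k z z') / I.card ≤ K z z' - τ) :
    ∃ k ∈ I, al K C < al (Ks k) C := by
  by_contra hcon
  push Not at hcon
  obtain ⟨T, hT⟩ := exists_nat_gt (8 * B / τ + 1)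
  have hB := h.B_nonneg
  have hT1 : 1 ≤ T := by
    have : (1:ℝ) ≤ T := by
      have : 0 ≤ 8 * B / τ := by positivity
      linarith
    exact_mod_cast this
  have hTτ : 8 * B < T * τ := by
    have : 8 * B / τ < T := by linarith
    rwa [div_lt_iff₀ hτ] at this
  obtain ⟨z, hz⟩ := h.ne
  have hzA := h.sub hz
  obtain ⟨x, hx, hc⟩ := exists_path h hT1 hzA hzA
  have hxA : ∀ i ≤ T, x i ∈ A := fun i hi => by
    rcases Nat.eq_zero_or_pos i with h0 | h0
    · rw [h0, hx.1]; exact hzA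
    · rcases hi.lt_or_eq with h3 | h3
      · exact h.sub (hx.2.2 i h0 h3)
      · rw [h3, hx.2.1]; exact hzA
  have hcardpos : (0:ℝ) < I.card := by exact_mod_cast hI.card_pos
  have h1 : ∀ k ∈ I, - al K C * T - 4 * B ≤ cost (Ks k) x T := by
    intro k hk
    have e1 := kp_le_cost (hK k hk) hT1 hxA
    rw [hx.1, hx.2.1] at e1
    have e2 := (abs_le.1 (al_spec (hK k hk) hT1 hzA hzA)).1
    have e3 := mul_le_mul_of_nonneg_right (hcon k hk) (Nat.cast_nonneg T : (0:ℝ) ≤ T)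
    linarith
  have h2 := Finset.sum_le_sum h1
  rw [Finset.sum_const, nsmul_eq_mul] at h2
  have h3 : ∑ k ∈ I, cost (Ks k) x T ≤ I.card * (cost K x T - T * τ) := by
    unfold cost
    rw [Finset.sum_comm, show (T:ℝ) * τ = ∑ i ∈ Finset.range T, τ by simp,
      ← Finset.sum_sub_distrib, Finset.mul_sum]
    refine Finset.sum_le_sum fun i hi => ?_
    rw [Finset.mem_range] at hi
    have := H (x i) (hxA i hi.le) (x (i + 1)) (hxA (i + 1) hi)
    rw [div_le_iff₀ hcardpos] at this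
    linarith
  have h4 := (abs_le.1 (al_spec h hT1 hzA hzA)).2
  rw [← hc] at h4
  have h5 : (I.card : ℝ) * (- al K C * T - 4 * B) ≤ I.card * (cost K x T - T * τ) := h2.trans h3
  have h6 := le_of_mul_le_mul_left h5 hcardpos
  linarith

/-- a long minimal path for `K'` has to visit the set outside of which `K ≤ K'`, if `al K' > al K` -/
lemma DecA.visit {K' : Y → Y → ℝ} (h : KD K C A B Λ) (h' : KD K' C A B Λ) {V : Set Y}
    (hV : ∀ z ∈ A, ∀ z' ∈ A, z ∉ V → z' ∉ V → K z z' ≤ K' z z') {T : ℕ} (hT : 1 ≤ T) {x : ℕ → Y}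
    (hx : ∀ i ≤ T, x i ∈ A) (hmin : cost K' x T ≤ kp K' C T (x 0) (x T)) {i j : ℕ} (hij : i < j)
    (hj : j ≤ T) (hlong : 16 * B < (al K' C - al K C) * ((j : ℝ) - i)) :
    ∃ t, i ≤ t ∧ t ≤ j ∧ x t ∈ V := by
  by_contra hcon
  push Not at hcon
  have hB := h.B_nonneg
  have hlow : ∀ (a n : ℕ), a + n ≤ T → - al K' C * n - 4 * B ≤ cost K' (fun k => x (a + k)) n := by
    intro a n han
    rcases Nat.eq_zero_or_pos n with h0 | h0
    · subst h0
      simp [cost]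
      linarith
    · have e1 := kp_le_cost h' (T := n) h0 (x := fun k => x (a + k)) (fun k hk => hx _ (by omega))
      have e2 := (abs_le.1 (al_spec h' h0 (hx (a + 0) (by omega)) (hx (a + n) han))).1
      linarith
  have e1 : cost K' x T = cost K' x i + cost K' (fun k => x (i + k)) (j - i) +
      cost K' (fun k => x (j + k)) (T - j) := by
    have a1 : T = j + (T - j) := by omega
    have a2 : j = i + (j - i) := by omega
    conv_lhs => rw [a1, cost_add]
    congr 1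
    conv_lhs => rw [a2, cost_add]
  have b1 := hlow 0 i (by omega)
  simp only [zero_add] at b1
  have b3 := hlow j (T - j) (by omega)
  have b2 : - al K C * ((j - i : ℕ) : ℝ) - 4 * B ≤ cost K' (fun k => x (i + k)) (j - i) := by
    have c0 : 1 ≤ j - i := by omega
    have c1 : cost K (fun k => x (i + k)) (j - i) ≤ cost K' (fun k => x (i + k)) (j - i) := by
      unfold cost
      refine Finset.sum_le_sum fun k hk => ?_
      rw [Finset.mem_range] at hk
      exact hV _ (hx _ (by omega)) _ (hx _ (by omega)) (hcon _ (by omega) (by omega))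
        (hcon _ (by omega) (by omega))
    have c2 := kp_le_cost h c0 (x := fun k => x (i + k)) (fun k hk => hx _ (by omega))
    have c3 := (abs_le.1 (al_spec h c0 (hx (i + 0) (by omega)) (hx (i + (j - i)) (by omega)))).1
    linarith
  have b4 := (abs_le.1 (al_spec h' hT (hx 0 (by omega)) (hx T le_rfl))).2
  have c1 : ((j - i : ℕ) : ℝ) = (j : ℝ) - i := by rw [Nat.cast_sub hij.le]
  have c2 : ((T - j : ℕ) : ℝ) = (T : ℝ) - j := by rw [Nat.cast_sub hj]
  rw [c1] at b2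
  rw [c2] at b3
  nlinarith

/-- visits to a set on which the barrier is almost constant give a decoupled window -/
lemma DecA.window (h : KD K C A B Λ) {V : Set Y} (hVA : V ⊆ A) {r : ℝ}
    (hr : ∀ x ∈ V, ∀ x' ∈ V, ∀ z ∈ A, |bar K C z x - bar K C z x'| ≤ r ∧
      |bar K C x z - bar K C x' z| ≤ r)
    (hvis : ∀ S1 : ℕ, ∃ S0 : ℕ, ∀ T ≥ S0, ∀ x : ℕ → Y, (∀ i ≤ T, x i ∈ A) →
      cost K x T = kp K C T (x 0) (x T) → ∃ t, S1 ≤ t ∧ t + S1 ≤ T ∧ x t ∈ V)
    {ε : ℝ} (hε : 0 < ε) :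
    ∃ F : Finset ℕ, F.Nonempty ∧ (∀ T ∈ F, 1 ≤ T) ∧ ∀ z ∈ A, ∀ z' ∈ A, ∀ w ∈ A, ∀ w' ∈ A,
      |gk K C F (fun T => al K C * T) z z' + gk K C F (fun T => al K C * T) w w' -
        gk K C F (fun T => al K C * T) z w' - gk K C F (fun T => al K C * T) w z'| ≤ 8 * (ε + r) := by
  obtain ⟨S1, hS1⟩ := bar_low h hε
  obtain ⟨S0, hS0⟩ := hvis (max S1 1)
  obtain ⟨F, hF, hFS, hFw⟩ := bar_win h hε (max S0 1)
  have hF1 : ∀ T ∈ F, 1 ≤ T := fun T hT => (le_max_right _ _).trans (hFS T hT)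
  have key : ∀ z ∈ A, ∀ z' ∈ A, ∃ x ∈ V, bar K C z x + bar K C x z' - 2 * ε ≤
      gk K C F (fun T => al K C * T) z z' := by
    intro z hz z' hz'
    obtain ⟨T, hT, e⟩ := gk_attained (K := K) (C := C) hF (fun T => al K C * T) z z'
    obtain ⟨x, hx, hc⟩ := exists_path h (hF1 T hT) hz hz'
    have hxA : ∀ i ≤ T, x i ∈ A := fun i hi => by
      rcases Nat.eq_zero_or_pos i with h0 | h0
      · rw [h0, hx.1]; exact hz
      · rcases hi.lt_or_eq with h3 | h3
        · exact h.sub (hx.2.2 i h0 h3)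
        · rw [h3, hx.2.1]; exact hz'
    obtain ⟨t, ht1, ht2, htV⟩ := hS0 T ((le_max_left _ _).trans (hFS T hT)) x hxA
      (by rw [hc, hx.1, hx.2.1])
    refine ⟨x t, htV, ?_⟩
    have m1 : S1 ≤ max S1 1 := le_max_left _ _
    have m2 : 1 ≤ max S1 1 := le_max_right _ _
    have a1 : T = t + (T - t) := by omega
    have e1 : cost K x T = cost K x t + cost K (fun k => x (t + k)) (T - t) := by
      conv_lhs => rw [a1, cost_add]
    have e2 := kp_le_cost h (T := t) (by omega) (x := x) (fun k hk => hxA _ (by omega))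
    have e3 := kp_le_cost h (T := T - t) (by omega) (x := fun k => x (t + k))
      (fun k hk => hxA _ (by omega))
    simp only [add_zero] at e3
    rw [show t + (T - t) = T by omega, hx.2.1] at e3
    rw [hx.1] at e2
    have e4 := hS1 t (by omega) (by omega) z hz (x t) (hVA htV)
    have e5 := hS1 (T - t) (by omega) (by omega) (x t) (hVA htV) z' hz'
    have c2 : ((T - t : ℕ) : ℝ) = (T : ℝ) - t := by rw [Nat.cast_sub (by omega)]
    rw [c2] at e5
    rw [e]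
    nlinarith
  obtain ⟨c, hc⟩ := h.ne
  obtain ⟨x0, hx0, -⟩ := key c (h.sub hc) c (h.sub hc)
  have hx0A := hVA hx0
  have key2 : ∀ z ∈ A, ∀ z' ∈ A, |gk K C F (fun T => al K C * T) z z' -
      (bar K C z x0 + bar K C x0 z')| ≤ 2 * (ε + r) := by
    intro z hz z' hz'
    obtain ⟨x, hx, hle⟩ := key z hz z' hz'
    have r1 := (abs_le.1 (hr x hx x0 hx0 z hz).1).1
    have r2 := (abs_le.1 (hr x hx x0 hx0 z' hz').2).1
    have r0 : 0 ≤ r := (abs_nonneg _).trans (hr x hx x0 hx0 z hz).1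
    have w1 := (abs_le.1 (hFw z hz z' hz')).2
    have t1 := bar_tri h hz hx0A hz'
    rw [abs_le]
    constructor
    · linarith
    · linarith
  refine ⟨F, hF, hF1, fun z hz z' hz' w hw w' hw' => ?_⟩
  have k1 := abs_le.1 (key2 z hz z' hz')
  have k2 := abs_le.1 (key2 w hw w' hw')
  have k3 := abs_le.1 (key2 z hz w' hw')
  have k4 := abs_le.1 (key2 w hw z' hz')
  rw [abs_le]
  constructor <;> linarith [k1.1, k1.2, k2.1, k2.2, k3.1, k3.2, k4.1, k4.2]

end abstract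

/-- Decoupling, abstract form. -/
theorem dec_abs {Y : Type*} [PseudoMetricSpace Y] {S C : Set Y} {y : Y → ℝ} {p : ℝ}
    {K : Y → Y → ℝ} {B Λ : ℝ} (hK : KD K C (Rm S y p) B Λ) {ι : Type*} (I : Finset ι)
    (hI : I.Nonempty) {Ks : ι → Y → Y → ℝ} (hKs : ∀ k ∈ I, KD (Ks k) C (Rm S y p) B Λ) {τ : ℝ}
    (hτ : 0 < τ)
    (hav : ∀ z ∈ Rm S y p, ∀ z' ∈ Rm S y p, (∑ k ∈ I, Ks k z z') / I.card ≤ K z z' - τ)
    (V : ι → Set Y)
    (hV : ∀ k ∈ I, ∀ z ∈ Rm S y p, ∀ z' ∈ Rm S y p, z ∉ V k → z' ∉ V k → K z z' ≤ Ks k z z')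
    (hSN : ∀ k ∈ I, ∃ (Sy : ℝ → ℝ → ℝ) (β Φ e0 ε : ℝ), SData Sy p β Φ e0 ε ∧
      NMin (Ks k) C (Rm S y p) y Sy p ε) {r : ℝ}
    (hr : ∀ k ∈ I, ∀ x ∈ Rm S y p, ∀ x' ∈ Rm S y p, x ∈ V k → x' ∈ V k → |y x - p| ≤ 1 / 8 →
      |y x' - p| ≤ 1 / 8 → ∀ z ∈ Rm S y p, |bar (Ks k) C z x - bar (Ks k) C z x'| ≤ r ∧
        |bar (Ks k) C x z - bar (Ks k) C x' z| ≤ r) :
    ∃ k ∈ I, ∀ ε' > 0, ∃ F : Finset ℕ, F.Nonempty ∧ (∀ T ∈ F, 1 ≤ T) ∧
      ∀ z ∈ Rm S y p, ∀ z' ∈ Rm S y p, ∀ w ∈ Rm S y p, ∀ w' ∈ Rm S y p,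
        |gk (Ks k) C F (fun T => al (Ks k) C * T) z z' + gk (Ks k) C F (fun T => al (Ks k) C * T) w w' -
          gk (Ks k) C F (fun T => al (Ks k) C * T) z w' -
          gk (Ks k) C F (fun T => al (Ks k) C * T) w z'| ≤ 8 * (ε' + r) := by
  obtain ⟨k, hk, hal⟩ := DecA.al_increase hK I hI hKs hτ hav
  have hK' := hKs k hk
  obtain ⟨Sy, β, Φ, e0, ε, hS, hN⟩ := hSN k hk
  refine ⟨k, hk, fun ε' hε' => ?_⟩
  set V' : Set Y := {x | x ∈ Rm S y p ∧ x ∈ V k ∧ |y x - p| ≤ 1 / 8} with hV'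
  have hvis : ∀ S1 : ℕ, ∃ S0 : ℕ, ∀ T ≥ S0, ∀ x : ℕ → Y, (∀ i ≤ T, x i ∈ Rm S y p) →
      cost (Ks k) x T = kp (Ks k) C T (x 0) (x T) → ∃ t, S1 ≤ t ∧ t + S1 ≤ T ∧ x t ∈ V' := by
    intro S1
    set δ : ℝ := al (Ks k) C - al K C with hδ
    have hδ0 : 0 < δ := by linarith
    obtain ⟨Q, hQ⟩ := exists_nat_gt (16 * B / δ)
    set i0 : ℕ := max S1 (Lat.R1 β) with hi0
    refine ⟨2 * i0 + Q + 1, fun T hT x hx hc => ?_⟩
    have hT1 : 1 ≤ T := by omega
    obtain ⟨t, ht1, ht2, htV⟩ := DecA.visit hK hK' (hV k hk) hT1 hx hc.le (i := i0) (j := T - i0)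
      (by omega) (by omega) (by
        have e1 : ((T - i0 : ℕ) : ℝ) = (T : ℝ) - i0 := by rw [Nat.cast_sub (by omega)]
        rw [e1]
        have e2 : (Q : ℝ) ≤ T - i0 - i0 := by
          have : (2 * i0 + Q + 1 : ℝ) ≤ T := by exact_mod_cast hT
          linarith
        have e3 : 16 * B < Q * δ := by rwa [div_lt_iff₀ hδ0] at hQ
        have e4 := mul_le_mul_of_nonneg_right e2 hδ0.le
        rw [← hδ]
        linarith)
    have hNM := hN T x hT1 hx hc.le
    have hi1 : Lat.R1 β ≤ i0 := le_max_right _ _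
    have hi2 : S1 ≤ i0 := le_max_left _ _
    obtain ⟨k1, hk1, hk1', hN1⟩ := surg1 hS hNM (i := 0) (by omega)
    obtain ⟨k2, hk2, hk2', hN2⟩ := surg1 hS hNM (i := T - Lat.R1 β) (by omega)
    have hlt := surg2 hS hNM (i := k1) (j := k2) (by omega) (by omega) (hN1.wide hS) (hN2.wide hS)
      (k := t) (by omega) (by omega)
    exact ⟨t, by omega, by omega, hx t (by omega), htV, hlt.le⟩
  exact DecA.window hK' (V := V') (fun x hx => hx.1)
    (fun x hx x' hx' z hz => hr k hk x hx.1 x' hx'.1 hx.2.1 hx'.2.1 hx.2.2 hx'.2.2 z hz) hvis hε'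

end EscN
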