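import Pool.Agent.helper1.Esc.ModR

/-!
Definitions for the escape theorem on `(R^n x N)/Z^n` (MP_6acca1_an, project ESCN).
The Euclidean space `E` splits orthogonally as `W + F` with `W = span b + span e`. The state space `S`
is `W x N`, `N` a compact subset of `F`. The deck maps are `dk n x = O n x + lv n` and
`gd x = Og x + g`, where `O n`, `Og` are linear isometries which fix `W` and preserve `S`.
-/

noncomputable section

namespace EscN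

open MeasureTheory Set Filter Topology Esc
open scoped ContDiff

section action

variable {E : Type*} [NormedAddCommGroup E] [InnerProductSpace ℝ E]

/-- the trajectory stays in `S` during `[a,b]` -/
def InS (S : Set E) (a b : ℝ) (z : E) (u : ℝ → E) : Prop := ∀ t ∈ Icc a b, traj a z u t ∈ S

/-- minimal action of trajectories in `S` -/
def ker (S : Set E) (f : E → ℝ → ℝ) (v : E) (a b : ℝ) (z z' : E) : ℝ :=
  sInf {c | ∃ u : ℝ → E, Adm u ∧ InS S a b z u ∧ traj a z u b = z' ∧ c = act f v a b z u}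

/-- Retraction data of a closed set `S`: a smooth map `rt` which maps the `r0`-neighbourhood of `S`
into `S`, is the identity on `S`, has symmetric derivative along `S`, and bounds. -/
structure Ret (S : Set E) (rt : E → E) (r0 Cr : ℝ) : Prop where
  closed : IsClosed S
  smooth : ContDiff ℝ ∞ rt
  r0_pos : 0 < r0
  mem : ∀ x ∈ S, ∀ h : E, ‖h‖ ≤ r0 → rt (x + h) ∈ S
  id : ∀ x ∈ S, rt x = x
  sym : ∀ x ∈ S, ∀ v w : E, inner ℝ (fderiv ℝ rt x v) w = inner ℝ v (fderiv ℝ rt x w)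
  bd : ∀ x, ‖fderiv ℝ rt x‖ ≤ Cr
  lip : ∀ x x', ‖fderiv ℝ rt x - fderiv ℝ rt x'‖ ≤ Cr * ‖x - x'‖

end action

/-- the state space with its deck maps -/
structure Sp (d : ℕ) (E : Type*) [NormedAddCommGroup E] [InnerProductSpace ℝ E] where
  /-- fast lattice vectors -/
  b : Fin d → E
  /-- slow lattice vector, of height one -/
  g : E
  /-- unit vector: the slow coordinate is `⟪e, x⟫` -/
  e : E
  norm_e : ‖e‖ = 1
  eb : ∀ i, inner ℝ e (b i) = 0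
  eg : inner ℝ e g = 1
  li : LinearIndependent ℝ b
  /-- the orthogonal projection to `span b` -/
  P : E →L[ℝ] E
  P_b : ∀ i, P (b i) = b i
  P_e : P e = 0
  P_mem : ∀ x, P x ∈ Submodule.span ℝ (Set.range b)
  P_sym : ∀ x x', inner ℝ (P x) x' = inner ℝ x (P x')
  g_eq : g = P g + e
  /-- linear parts of the deck maps -/
  O : (Fin d → ℤ) → (E ≃ₗᵢ[ℝ] E)
  O_zero : ∀ x, O 0 x = x
  O_add : ∀ n n' x, O (n + n') x = O n (O n' x)
  O_b : ∀ n i, O n (b i) = b i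
  O_e : ∀ n, O n e = e
  Og : E ≃ₗᵢ[ℝ] E
  Og_b : ∀ i, Og (b i) = b i
  Og_e : Og e = e
  Og_O : ∀ n x, Og (O n x) = O n (Og x)
  S : Set E
  S_ne : S.Nonempty
  S_b : ∀ (i : Fin d) (a : ℝ), ∀ x ∈ S, x + a • b i ∈ S
  S_e : ∀ (a : ℝ), ∀ x ∈ S, x + a • e ∈ S
  S_O : ∀ n, ∀ x ∈ S, O n x ∈ S
  S_Og : ∀ x ∈ S, Og x ∈ S
  S_Og' : ∀ x ∈ S, Og.symm x ∈ S
  /-- radius of `N` -/
  R0 : ℝ
  S_bd : ∀ x ∈ S, ‖x - P x - (inner ℝ e x : ℝ) • e‖ ≤ R0
  /-- constant of the connection property -/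
  Cc : ℝ
  S_conn : ∀ x ∈ S, ∀ x' ∈ S, P x = P x' → (inner ℝ e x : ℝ) = inner ℝ e x' →
    ∃ u : ℝ → E, Adm u ∧ (∀ t, ‖u t‖ ≤ Cc) ∧ (∀ t, P (u t) = 0 ∧ (inner ℝ e (u t) : ℝ) = 0) ∧
      InS S 0 1 x u ∧ traj 0 x u 1 = x'
  rt : E → E
  r0 : ℝ
  Cr : ℝ
  ret : Ret S rt r0 Cr
  rt_b : ∀ (i : Fin d) (a : ℝ) (x : E), rt (x + a • b i) = rt x + a • b i
  rt_e : ∀ (a : ℝ) (x : E), rt (x + a • e) = rt x + a • e

namespace Sp

variable {d : ℕ} {E : Type*} [NormedAddCommGroup E] [InnerProductSpace ℝ E] (L : Sp d E)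

/-- the slow coordinate -/
def y (x : E) : ℝ := inner ℝ L.e x

/-- the `F`-part -/
def Q (x : E) : E := x - L.P x - L.y x • L.e

/-- change the slow coordinate only -/
def setY (x : E) (η : ℝ) : E := x + (η - L.y x) • L.e

/-- lattice vectors of height zero -/
def lv (n : Fin d → ℤ) : E := ∑ i, (n i : ℝ) • L.b i

/-- deck maps of height zero -/
def dk (n : Fin d → ℤ) (x : E) : E := L.O n x + L.lv n

/-- deck map of height one and its inverse -/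
def gd (x : E) : E := L.Og x + L.g
def gi (x : E) : E := L.Og.symm x - L.g

/-- fast velocities -/
def vel (s : ℝ) : E := ∑ i : Fin d, s ^ ((i : ℕ) + 1) • L.b i

/-- periodic kernel at speed `s` -/
def kbar (f : E → ℝ → ℝ) (s : ℝ) (z z' : E) : ℝ :=
  ⨅ n : Fin d → ℤ, ker L.S f (L.vel s) 0 1 z (L.dk n z')

/-- a potential on the quotient, extended to `E` with support near `S` -/
structure IsPot (f : E → ℝ → ℝ) : Prop where
  smooth : ContDiff ℝ 2 (fun p : E × ℝ => f p.1 p.2)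
  perd : ∀ n x t, f (L.dk n x) t = f x t
  perg : ∀ x t, f (L.gd x) t = f x t
  pert : ∀ x t, f x (t + 1) = f x t
  supp : ∀ x t, L.R0 + 1 ≤ ‖L.Q x‖ → f x t = 0

/-- a smooth perturbation -/
structure IsSm (f : E → ℝ → ℝ) : Prop where
  smooth : ContDiff ℝ ∞ (fun p : E × ℝ => f p.1 p.2)
  perd : ∀ n x t, f (L.dk n x) t = f x t
  perg : ∀ x t, f (L.gd x) t = f x t
  pert : ∀ x t, f x (t + 1) = f x t
  supp : ∀ x t, L.R0 + 1 ≤ ‖L.Q x‖ → f x t = 0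

/-- a norm on smooth perturbations, dominating the sup norm -/
structure SmNorm where
  nm : (E → ℝ → ℝ) → ℝ
  sup_le : ∀ G, L.IsSm G → ∀ x t, |G x t| ≤ nm G
  add_le : ∀ G G', L.IsSm G → L.IsSm G' → nm (fun x t => G x t + G' x t) ≤ nm G + nm G'
  smul_le : ∀ (c : ℝ) G, L.IsSm G → nm (fun x t => c * G x t) ≤ |c| * nm G

/-- the room -/
def room (p : ℝ) : Set E := {x | x ∈ L.S ∧ |L.y x - p| ≤ 7 / 8}

/-- compact fundamental domain of the room -/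
def cell (p : ℝ) : Set E :=
  {x | x ∈ L.S ∧ |L.y x - p| ≤ 7 / 8 ∧
    ∃ θ : Fin d → ℝ, (∀ i, 0 ≤ θ i ∧ θ i ≤ 1) ∧ L.P x = ∑ i, θ i • L.b i}

/-- Data with witness: the kernel is, up to `κ`, the sum of a one-dimensional kernel `Sy` with the
properties `SData` and of a part which does not see the slow coordinate. -/
def DatW (M0 : ℝ) (Sy : ℝ → ℝ → ℝ) (κ : ℝ) (f : E → ℝ → ℝ) : Prop :=
  ∀ s, M0 ≤ s → ∃ R : E → E → ℝ, (∀ z z' η η', R (L.setY z η) (L.setY z' η') = R z z') ∧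
    ∀ z ∈ L.S, ∀ z' ∈ L.S, |L.y z - L.y z'| ≤ 2 →
      |L.kbar f s z z' - R z z' - Sy (L.y z) (L.y z')| ≤ κ

/-- Data class (a `C^0`-open condition on `f`) -/
structure Dat (p β M0 : ℝ) (f : E → ℝ → ℝ) : Prop where
  β_pos : 0 < β
  β_le : β ≤ 1 / 1000
  M0_ge : 1 ≤ M0
  ex : ∃ (Sy : ℝ → ℝ → ℝ) (e0 κ : ℝ), SData Sy p β 0 e0 (β ^ 2 / 200) ∧ 0 ≤ κ ∧ κ < β ^ 2 / 200 ∧
    L.DatW M0 Sy κ f

/-- kernel of a segment: speed `s`, allowed durations `F` with costs `c` -/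
def seg (f : E → ℝ → ℝ) (p s : ℝ) (F : Finset ℕ) (c : ℕ → ℝ) (z z' : E) : ℝ :=
  gk (L.kbar f s) (L.cell p) F c z z'

/-- frontier relative to `S` -/
def fr (D : Set E) : Set E := D ∩ closure (L.S \ D)

/-- Stage `q` of the chain: a finite sequence of speeds from `q` to `q+1` with gates. -/
def Stage (p β : ℝ) (q : ℕ) (f : E → ℝ → ℝ) : Prop :=
  ∃ (J : ℕ) (s : ℕ → ℝ) (F : ℕ → Finset ℕ) (c : ℕ → ℕ → ℝ) (D : ℕ → Set E) (δ : ℝ),
    0 < J ∧ 0 < δ ∧ s 0 = q ∧ s J = q + 1 ∧ (∀ i ≤ J, (q : ℝ) ≤ s i ∧ s i ≤ q + 1) ∧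
    (∀ i, (F i).Nonempty ∧ ∀ T ∈ F i, 2 * Lat.R1 β + 2 ≤ T) ∧
    ∀ i < J, IsCompact (D i) ∧ (D i).Nonempty ∧ D i ⊆ L.S ∧
      (∀ z ∈ D i, 1 / 4 ≤ L.y z - p ∧ L.y z - p ≤ 3 / 4) ∧
      ∀ z ∈ L.fr (D i), ∃ w ∈ D i, ∀ x ∈ L.room p, ∀ x' ∈ L.room p,
        L.seg f p (s i) (F i) (c i) x w + L.seg f p (s (i + 1)) (F (i + 1)) (c (i + 1)) (L.gi w) x'
            - inner ℝ (L.vel (s (i + 1)) - L.vel (s i)) w + δ ≤
          L.seg f p (s i) (F i) (c i) x z + L.seg f p (s (i + 1)) (F (i + 1)) (c (i + 1)) (L.gi z) x'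
            - inner ℝ (L.vel (s (i + 1)) - L.vel (s i)) z

/-- tangent vectors at a point of `S` -/
def Tan (x ξ : E) : Prop := fderiv ℝ L.rt x ξ = ξ

/-- an orbit on `(0,∞)`, in `S`, of the constrained equation `x'' - grad f ⊥ T_x S`, whose speed
tends to infinity -/
def Escapes (f : E → ℝ → ℝ) : Prop :=
  ∃ x v : ℝ → E, (∀ t, 0 < t → x t ∈ L.S) ∧ (∀ t, 0 < t → HasDerivAt x (v t) t) ∧
    (∀ t, 0 < t → DifferentiableAt ℝ v t) ∧
    (∀ t, 0 < t → ∀ ξ, L.Tan (x t) ξ → inner ℝ (deriv v t) ξ = fderiv ℝ (fun z => f z t) (x t) ξ) ∧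
    Tendsto (fun t => ‖v t‖) atTop atTop

end Sp

end EscN
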