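import Pool.Agent.EscN.Far2
import Pool.Agent.helper1.Esc.Count

/-!
Density of the stages: the counting argument.
-/

noncomputable section

namespace EscN

open MeasureTheory Set Filter Topology Esc
open scoped ContDiff

variable {d : ℕ} {E : Type*} [NormedAddCommGroup E] [InnerProductSpace ℝ E] [FiniteDimensional ℝ E]
  (L : Sp d E)

/-- cost of a transition through the gate point `z` -/
def Wg (f : E → ℝ → ℝ) (p s s' : ℝ) (zs z : E) : ℝ :=
  bar (L.kbar f s) (L.cell p) zs z + bar (L.kbar f s') (L.cell p) (L.gi z) zs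

lemma O_room {p : ℝ} {z : E} (hS : z ∈ L.S) (h1 : 1 / 8 ≤ L.y z - p) (h2 : L.y z - p ≤ 7 / 8) :
    z ∈ L.room p ∧ L.gi z ∈ L.room p :=
  ⟨Geo.mem_room hS h1 h2, (geo L p).sh_room hS h1 h2⟩

lemma Wg_per {f : E → ℝ → ℝ} (h : ∀ n x t, f (L.dk n x) t = f x t) {p s s' B Λ : ℝ}
    (hK : KD (L.kbar f s) (L.cell p) (L.room p) B Λ) (hK' : KD (L.kbar f s') (L.cell p) (L.room p) B Λ)
    {zs : E} (hzs : zs ∈ L.room p) (m : Fin d → ℤ) (z : E) :
    Wg L f p s s' zs (L.dk m z) = Wg L f p s s' zs z := by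
  unfold Wg
  rw [bar_red_right hK (z' := L.dk m z) (c := z) (fun x _ => by
      have := kbar_per L h s x z 0 m
      rwa [dk_zero] at this) hzs, ← dk_gi,
    bar_red_left hK' (z := L.dk m (L.gi z)) (c := L.gi z) (fun x _ => by
      have := kbar_per L h s' (L.gi z) x m 0
      rwa [dk_zero] at this) hzs]

lemma Wg_cont {f : E → ℝ → ℝ} {p s s' B Λ : ℝ} (hK : KD (L.kbar f s) (L.cell p) (L.room p) B Λ)
    (hK' : KD (L.kbar f s') (L.cell p) (L.room p) B Λ) {zs : E} (hzs : zs ∈ L.room p) :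
    ContinuousOn (Wg L f p s s' zs) {z | z ∈ L.S ∧ 1 / 8 ≤ L.y z - p ∧ L.y z - p ≤ 7 / 8} := by
  refine ModD.contOn_of_lip (L := 2 * Λ) fun z hz z' hz' => ?_
  have r1 := O_room L hz.1 hz.2.1 hz.2.2
  have r2 := O_room L hz'.1 hz'.2.1 hz'.2.2
  have h1 := bar_lip hK hzs r1.1 hzs r2.1
  have h2 := bar_lip hK' r1.2 hzs r2.2 hzs
  rw [dist_self, zero_add] at h1
  rw [dist_self, add_zero, dist_gi] at h2
  unfold Wg
  rw [abs_le] at *
  constructor <;> linarith [h1.1, h1.2, h2.1, h2.2]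

variable {I : Type*} [Fintype I] {ct : I → E} {gb : I → E → ℝ} {r : ℝ} {D : ℕ}
  {Sy : ℝ → ℝ → ℝ} {e0 : ℝ} {f : E → ℝ → ℝ} {p β M0 M B Λ Vm w ε' : ℝ}

/-- the closed cell around the centre -/
def Qc (ct : I → E) (r : ℝ) (c : I) : Set E := Metric.closedBall (ct c) r ∩ L.S

lemma Qc_compact (c : I) : IsCompact (Qc L ct r c) := by
  have : ProperSpace E := FiniteDimensional.proper ℝ E
  exact (isCompact_closedBall _ _).inter_right L.ret.closed

lemma Qc_nonempty (hF : FarS L ct gb r D Sy e0 f p β M0 M B Λ Vm w ε') (c : I) :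
    (Qc L ct r c).Nonempty := ⟨ct c, Metric.mem_closedBall_self hF.r_pos.le, hF.ct_S c⟩

lemma Qc_strip (hF : FarS L ct gb r D Sy e0 f p β M0 M B Λ Vm w ε') (c : I) {z : E}
    (hz : z ∈ Qc L ct r c) : z ∈ L.S ∧ 1 / 8 ≤ L.y z - p ∧ L.y z - p ≤ 7 / 8 := by
  have h1 := (y_lip L z (ct c)).trans (Metric.mem_closedBall.1 hz.1)
  have h2 := hF.ct_lo c
  have h3 := hF.ct_hi c
  have h4 := hF.r_le
  rw [abs_le] at h1
  exact ⟨hz.2, by linarith [h1.1], by linarith [h1.2]⟩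

lemma Qc_inc {c : I} {z : E} (hz : z ∈ Qc L ct r c) : cl L r (ct c) z :=
  cl_of_dk L (n := 0) (by rw [dk_zero]; exact Metric.mem_closedBall.1 hz.1)

lemma touched_rep (hF : FarS L ct gb r D Sy e0 f p β M0 M B Λ Vm w ε') {c : I} {z : E}
    (hz : z ∈ L.S) (hc : cl L r (ct c) z) (h1 : 1 / 4 ≤ L.y z - p) (h2 : L.y z - p ≤ 3 / 4) :
    ∃ n : Fin d → ℤ, L.dk n z ∈ Qc L ct r c := by
  obtain ⟨n, hn⟩ := cl_rep L hc (by
    have h3 := hF.ct_lo c
    have h4 := hF.ct_hi c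
    have h5 := hF.r_le
    have h6 : |L.y z - L.y (ct c)| ≤ 1 / 2 := by rw [abs_le]; constructor <;> linarith
    linarith)
  refine ⟨-n, ?_, (S_dk L (-n)).2 hz⟩
  rw [Metric.mem_closedBall]
  have e : L.dk (-n) (L.dk n (ct c)) = ct c := by rw [← dk_add, neg_add_cancel, dk_zero]
  have h3 := dist_dk L (-n) z (L.dk n (ct c))
  rw [e] at h3
  rw [h3]
  exact hn

/-- the counting argument applied to far perturbations -/
theorem exists_good_sigma (hF : FarS L ct gb r D Sy e0 f p β M0 M B Λ Vm w ε') {J : ℕ} (s : ℕ → ℝ)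
    (hs : ∀ i ≤ J, M0 ≤ s i ∧ ‖L.vel (s i)‖ ≤ Vm) {zs : E} (hzs : Nf L Sy e0 p β zs) {Lc : ℕ}
    (hLc : 0 < Lc) {h : ℝ} (hh : 0 ≤ h) (hstep : 2 * h < ε' / Lc)
    (hcount : J * Fintype.card I ^ 3 < (Lc + 1) ^ 2) :
    ∃ σ : I → ℝ, Alw ε' σ ∧ ∀ i < J, ∀ μ : ℝ,
      (∀ z ∈ L.S, 1 / 8 ≤ L.y z - p → L.y z - p ≤ 7 / 8 →
        μ ≤ Wg L (pf gb f w σ) p (s i) (s (i + 1)) zs z) →
      ∀ I' : Finset I, (∀ k ∈ I', ∃ z ∈ L.S, cl L r (ct k) z ∧ 1 / 4 ≤ L.y z - p ∧ L.y z - p ≤ 3 / 4 ∧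
        Wg L (pf gb f w σ) p (s i) (s (i + 1)) zs z ≤ μ + h) →
      I'.card ≤ 2 * (2 * (2 * ((Lat.R1 β + 1) * D)) + 1) := by
  classical
  set step : ℝ := ε' / Lc with hstepdef
  have hLc' : (0:ℝ) < Lc := by exact_mod_cast hLc
  have hsp : 0 < step := div_pos hF.ε'_pos hLc'
  -- parameters
  set sg : (I → Fin (Lc + 1)) → I → ℝ := fun σ c => ((σ c : ℕ) : ℝ) * step with hsg
  have halw : ∀ σ, Alw ε' (sg σ) := by
    intro σ c
    refine ⟨by positivity, ?_⟩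
    have h1 : ((σ c : ℕ) : ℝ) ≤ Lc := by exact_mod_cast Nat.lt_succ_iff.1 (σ c).2
    calc ((σ c : ℕ) : ℝ) * step ≤ Lc * step := mul_le_mul_of_nonneg_right h1 hsp.le
      _ = ε' := by rw [hstepdef]; field_simp
  have hsgmono : ∀ σ σ' : I → Fin (Lc + 1), σ ≤ σ' → sg σ ≤ sg σ' := by
    intro σ σ' hle c
    have h1 : ((σ c : ℕ) : ℝ) ≤ ((σ' c : ℕ) : ℝ) := by exact_mod_cast hle c
    exact mul_le_mul_of_nonneg_right h1 hsp.le
  have hsi : ∀ i : Fin J, M0 ≤ s i ∧ ‖L.vel (s i)‖ ≤ Vm := fun i => hs i i.2.le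
  have hsi' : ∀ i : Fin J, M0 ≤ s (i + 1) ∧ ‖L.vel (s (i + 1))‖ ≤ Vm := fun i => hs (i + 1) i.2
  -- minimizers in the cells
  have hmin : ∀ (i : Fin J) (σ : I → Fin (Lc + 1)) (c : I), ∃ z ∈ Qc L ct r c, ∀ z' ∈ Qc L ct r c,
      Wg L (pf gb f w (sg σ)) p (s i) (s (i + 1)) zs z ≤ Wg L (pf gb f w (sg σ)) p (s i) (s (i + 1)) zs z' := by
    intro i σ c
    have hc := (Wg_cont L (hF.kd _ (halw σ) (s i)) (hF.kd _ (halw σ) (s (i + 1))) hzs.1).mono
      (fun z (hz : z ∈ Qc L ct r c) => Qc_strip L hF c hz)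
    obtain ⟨z, hz, hz'⟩ := (Qc_compact L c).exists_isMinOn (Qc_nonempty L hF c) hc
    exact ⟨z, hz, fun z' h' => hz' h'⟩
  choose zc hzc hzcmin using hmin
  have hstripc : ∀ (c : I) z, z ∈ Qc L ct r c → z ∈ L.room p ∧ L.gi z ∈ L.room p := fun c z hz => by
    have := Qc_strip L hF c hz
    exact O_room L this.1 this.2.1 this.2.2
  -- optimal paths
  have hrep1 : ∀ (i : Fin J) (σ : I → Fin (Lc + 1)) (c : I), ∃ (k : ℕ) (X : ℕ → E), 1 ≤ k ∧
      k ≤ Lat.R1 β ∧ X 0 = L.gi (zc i σ c) ∧ (∀ i ≤ k, X i ∈ L.room p) ∧ Nf L Sy e0 p β (X k) ∧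
      bar (L.kbar (pf gb f w (sg σ)) (s (i + 1))) (L.cell p) (L.gi (zc i σ c)) zs =
        cost (L.kbar (pf gb f w (sg σ)) (s (i + 1))) X k +
          al (L.kbar (pf gb f w (sg σ)) (s (i + 1))) (L.cell p) * k +
          bar (L.kbar (pf gb f w (sg σ)) (s (i + 1))) (L.cell p) (X k) zs := fun i σ c =>
    rep_left L hF (halw σ) (hsi' i).1 (hstripc c _ (hzc i σ c)).2 hzs.1
  have hrep2 : ∀ (i : Fin J) (σ : I → Fin (Lc + 1)) (c : I), ∃ (k : ℕ) (X : ℕ → E), 1 ≤ k ∧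
      k ≤ Lat.R1 β ∧ X k = zc i σ c ∧ (∀ i ≤ k, X i ∈ L.room p) ∧ Nf L Sy e0 p β (X 0) ∧
      bar (L.kbar (pf gb f w (sg σ)) (s i)) (L.cell p) zs (zc i σ c) =
        bar (L.kbar (pf gb f w (sg σ)) (s i)) (L.cell p) zs (X 0) +
        (cost (L.kbar (pf gb f w (sg σ)) (s i)) X k + al (L.kbar (pf gb f w (sg σ)) (s i)) (L.cell p) * k) :=
    fun i σ c => rep_right L hF (halw σ) (hsi i).1 hzs.1 (hstripc c _ (hzc i σ c)).1
  choose k1 X1 hk1 hk1R hX10 hX1r hN1 he1 using hrep1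
  choose k2 X2 hk2 hk2R hX2k hX2r hN2 he2 using hrep2
  set W : Fin J → (I → Fin (Lc + 1)) → I → ℝ := fun i σ c =>
    Wg L (pf gb f w (sg σ)) p (s i) (s (i + 1)) zs (zc i σ c) with hW
  set vi : Fin J → (I → Fin (Lc + 1)) → I → Finset I := fun i σ c =>
    vis L ct r (X1 i σ c) (k1 i σ c) ∪ vis L ct r (X2 i σ c) (k2 i σ c) with hvi
  -- growth of W at a fixed point of a cell
  have hgrow : ∀ (i : Fin J) (σ σ' : I → Fin (Lc + 1)) (c : I), σ ≤ σ' → ∀ z ∈ Qc L ct r c,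
      Wg L (pf gb f w (sg σ)) p (s i) (s (i + 1)) zs z + (sg σ' c - sg σ c) ≤
        Wg L (pf gb f w (sg σ')) p (s i) (s (i + 1)) zs z := by
    intro i σ σ' c hle z hz
    have r0 := hstripc c z hz
    have hincz := Qc_inc L hz
    have hincg : cl L r (ct c) (L.gi z) := (cl_gi L).2 hincz
    have g1 := bar_in_grow L hF (halw σ) (halw σ') (hsgmono _ _ hle) (hsi i).1 (hsi i).2 r0.1 hzs
      (A := (sg σ' c - sg σ c) * A1 w)
      (fun z' hz' => kbar_grow_end L hF (halw σ) (halw σ') (hsgmono _ _ hle) (hsi i).2 hz' r0.1 c hincz)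
    have g2 := bar_out_grow L hF (halw σ) (halw σ') (hsgmono _ _ hle) (hsi' i).1 (hsi' i).2 r0.2 hzs
      (A := (sg σ' c - sg σ c) * A0 w)
      (fun z' hz' => kbar_grow_start L hF (halw σ) (halw σ') (hsgmono _ _ hle) (hsi' i).2 r0.2 hz' c hincg)
    have hA := A0_add_A1 hF.w_pos hF.w_lt
    have e : (sg σ' c - sg σ c) = (sg σ' c - sg σ c) * A1 w + (sg σ' c - sg σ c) * A0 w := by
      rw [← mul_add, add_comm (A1 w), hA, mul_one]
    unfold Wg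
    linarith
  have hcountR : Fintype.card (Fin J) * Fintype.card I ^ 3 < (Lc + 1) ^ 2 := by
    rw [Fintype.card_fin]; exact hcount
  have hcard : ∀ i σ c, (vi i σ c).card ≤ 2 * ((Lat.R1 β + 1) * D) := by
    intro i σ c
    refine (Finset.card_union_le _ _).trans ?_
    have a := card_vis_le L hF.mult (X1 i σ c) (k1 i σ c)
    have b := card_vis_le L hF.mult (X2 i σ c) (k2 i σ c)
    have a' : (k1 i σ c + 1) * D ≤ (Lat.R1 β + 1) * D :=
      Nat.mul_le_mul_right _ (by have := hk1R i σ c; omega)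
    have b' : (k2 i σ c + 1) * D ≤ (Lat.R1 β + 1) * D :=
      Nat.mul_le_mul_right _ (by have := hk2R i σ c; omega)
    omega
  have hmono : ∀ i σ σ' c, σ ≤ σ' → W i σ c ≤ W i σ' c := by
    intro i σ σ' c hle
    have h1 := hgrow i σ σ' c hle (zc i σ' c) (hzc i σ' c)
    have h2 := hzcmin i σ c (zc i σ' c) (hzc i σ' c)
    have h3 := hsgmono σ σ' hle c
    simp only [hW]
    linarith
  have hindep : ∀ i σ σ' c, σ ≤ σ' → (∀ c' ∈ vi i σ c, σ c' = σ' c') → W i σ' c ≤ W i σ c := by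
    intro i σ σ' c hle hag
    have r0 := hstripc c _ (hzc i σ c)
    have hag1 : ∀ c' ∈ vis L ct r (X1 i σ c) (k1 i σ c), sg σ c' = sg σ' c' := fun c' hc' => by
      simp only [hsg]; rw [hag c' (Finset.mem_union_left _ hc')]
    have hag2 : ∀ c' ∈ vis L ct r (X2 i σ c) (k2 i σ c), sg σ c' = sg σ' c' := fun c' hc' => by
      simp only [hsg]; rw [hag c' (Finset.mem_union_right _ hc')]
    have c1 := cost_vis L hF (halw σ) (halw σ') (hsi' i).2 (hX1r i σ c) hag1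
    have c2 := cost_vis L hF (halw σ) (halw σ') (hsi i).2 (hX2r i σ c) hag2
    have hK1 := hF.kd _ (halw σ') (s (i + 1))
    have hK2 := hF.kd _ (halw σ') (s i)
    have e1 := he1 i σ c
    have e2 := he2 i σ c
    rw [bar_near L hF (halw σ) (hsi' i).1 (hsi' i).2 (hN1 i σ c) hzs,
      ← bar_near L hF (halw σ') (hsi' i).1 (hsi' i).2 (hN1 i σ c) hzs,
      al_near L hF (halw σ) (hsi' i).1 (hsi' i).2, ← al_near L hF (halw σ') (hsi' i).1 (hsi' i).2, c1] at e1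
    rw [bar_near L hF (halw σ) (hsi i).1 (hsi i).2 hzs (hN2 i σ c),
      ← bar_near L hF (halw σ') (hsi i).1 (hsi i).2 hzs (hN2 i σ c),
      al_near L hF (halw σ) (hsi i).1 (hsi i).2, ← al_near L hF (halw σ') (hsi i).1 (hsi i).2, c2] at e2
    have a1 := bar_left_le hK1 (hk1 i σ c) r0.2 (hX1r i σ c _ le_rfl) hzs.1
    have b1 := kp_le_cost hK1 (x := X1 i σ c) (hk1 i σ c) (hX1r i σ c)
    rw [hX10] at b1
    have a2 := bar_right_le hK2 (hk2 i σ c) hzs.1 (hX2r i σ c 0 (by omega)) r0.1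
    have b2 := kp_le_cost hK2 (x := X2 i σ c) (hk2 i σ c) (hX2r i σ c)
    rw [hX2k] at b2
    have m1 := hzcmin i σ' c _ (hzc i σ c)
    simp only [hW]
    refine m1.trans ?_
    unfold Wg
    linarith
  have hslope : ∀ i σ σ' c, σ ≤ σ' → W i σ c + (((σ' c : ℕ) : ℝ) - ((σ c : ℕ) : ℝ)) * step ≤ W i σ' c := by
    intro i σ σ' c hle
    have h1 := hgrow i σ σ' c hle (zc i σ' c) (hzc i σ' c)
    have h2 := hzcmin i σ c (zc i σ' c) (hzc i σ' c)
    simp only [hW]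
    simp only [hsg] at h1
    linarith
  obtain ⟨σ, hσ⟩ := counting (I := Fin J) (Fc := I) (2 * ((Lat.R1 β + 1) * D)) Lc h step hh hstep
    W vi hcard hmono hindep hslope hcountR
  refine ⟨sg σ, halw σ, fun i hi μ hμ I' hI => ?_⟩
  have h1 := hσ ⟨i, hi⟩ μ (fun c => by
    have hz := Qc_strip L hF c (hzc ⟨i, hi⟩ σ c)
    exact hμ _ hz.1 hz.2.1 hz.2.2)
  refine le_trans ?_ h1
  apply Finset.card_le_card
  intro k hk
  obtain ⟨z, hzS, hz, hz1, hz2, hzW⟩ := hI k hk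
  obtain ⟨m, hm⟩ := touched_rep L hF hzS hz hz1 hz2
  refine Finset.mem_filter.2 ⟨Finset.mem_univ _, ?_⟩
  have h2 := hzcmin ⟨i, hi⟩ σ k _ hm
  rw [Wg_per L (hF.pot _ (halw σ)).perd (hF.kd _ (halw σ) _) (hF.kd _ (halw σ) _) hzs.1] at h2
  exact h2.trans hzW

end EscN
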