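import Pool.Agent.EscN.Cell
import Pool.Agent.EscN.Red

/-!
Far perturbations: they do not change the critical value nor the barrier between near points.
-/

noncomputable section

namespace EscN

open MeasureTheory Set Filter Topology Esc
open scoped ContDiff

variable {d : ℕ} {E : Type*} [NormedAddCommGroup E] [InnerProductSpace ℝ E] [FiniteDimensional ℝ E]
  (L : Sp d E) {I : Type*} [Fintype I]

/-- perturbed potential -/
def pf (gb : I → E → ℝ) (f : E → ℝ → ℝ) (w : ℝ) (σ : I → ℝ) : E → ℝ → ℝ :=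
  fun x t => f x t + ∑ c : I, σ c * (gb c x * H33.zt w t)

omit [Fintype I] in
/-- allowed parameters -/
def Alw (ε' : ℝ) (σ : I → ℝ) : Prop := ∀ c, 0 ≤ σ c ∧ σ c ≤ ε'

/-- standing assumptions for far perturbations: `ct c` are the centres of the cells, `gb c` the bumps -/
structure FarS (ct : I → E) (gb : I → E → ℝ) (r : ℝ) (D : ℕ) (Sy : ℝ → ℝ → ℝ) (e0 : ℝ)
    (f : E → ℝ → ℝ) (p β M0 M B Λ Vm w ε' : ℝ) : Prop where
  ct_S : ∀ c, ct c ∈ L.S
  ct_lo : ∀ c, 1 / 4 ≤ L.y (ct c) - p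
  ct_hi : ∀ c, L.y (ct c) - p ≤ 3 / 4
  r_pos : 0 < r
  r_le : r ≤ 1 / 64
  g01 : ∀ c x, 0 ≤ gb c x ∧ gb c x ≤ 1
  g1 : ∀ c x, cl L (2 * r) (ct c) x → gb c x = 1
  g0 : ∀ c x, ¬ cl L (3 * r) (ct c) x → gb c x = 0
  mult : ∀ x, ∀ C' : Finset I, (∀ c ∈ C', cl L (4 * r) (ct c) x) → C'.card ≤ D
  M_nonneg : 0 ≤ M
  B_nonneg : 0 ≤ B
  w_pos : 0 < w
  w_lt : w < 1 / 2
  hw : w * Vm + Real.sqrt (2 * (B + M + 1) * w) ≤ r
  ε'_pos : 0 < ε'
  sdata : SData Sy p β 0 e0 (β ^ 2 / 200)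
  kd : ∀ σ : I → ℝ, Alw ε' σ → ∀ s, KD (L.kbar (pf gb f w σ) s) (L.cell p) (L.room p) B Λ
  good : ∀ σ : I → ℝ, Alw ε' σ → Good M (pf gb f w σ)
  datW : ∀ σ : I → ℝ, Alw ε' σ → ∃ κ, κ ≤ β ^ 2 / 200 ∧ L.DatW M0 Sy κ (pf gb f w σ)
  pot : ∀ σ : I → ℝ, Alw ε' σ → L.IsPot (pf gb f w σ)

omit [NormedAddCommGroup E] [InnerProductSpace ℝ E] [FiniteDimensional ℝ E] in
lemma pf_zero (gb : I → E → ℝ) (f : E → ℝ → ℝ) (w : ℝ) : pf gb f w (0 : I → ℝ) = f := by
  funext x t; simp [pf]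

omit [Fintype I] in
lemma alw_zero {ε' : ℝ} (h : 0 ≤ ε') : Alw ε' (0 : I → ℝ) := fun _ => ⟨le_rfl, h⟩

variable {ct : I → E} {gb : I → E → ℝ} {r : ℝ} {D : ℕ} {Sy : ℝ → ℝ → ℝ} {e0 : ℝ}
  {f : E → ℝ → ℝ} {p β M0 M B Λ Vm w ε' : ℝ}

lemma gz_nonneg' (hF : FarS L ct gb r D Sy e0 f p β M0 M B Λ Vm w ε') (c : I) (x : E) (t : ℝ) :
    0 ≤ gb c x * H33.zt w t :=
  mul_nonneg (hF.g01 c x).1 (H33.zt_nonneg hF.w_pos hF.w_lt.le t)

/-- the near strip does not meet the supports of the far bumps -/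
lemma not_vs_near (hF : FarS L ct gb r D Sy e0 f p β M0 M B Λ Vm w ε') (c : I) {x : E}
    (hx : |L.y x - p| ≤ 1 / 8) : ¬ cl L (4 * r) (ct c) x := by
  intro h
  obtain ⟨j, hj⟩ := cl_y L h
  have h1 := hF.ct_lo c
  have h2 := hF.ct_hi c
  have h3 := hF.r_le
  rw [abs_le] at hj hx
  have h4 : (j : ℝ) < 0 := by
    by_contra hcon
    push Not at hcon
    linarith [hj.1, hj.2, hx.1, hx.2]
  have h5 : (-1 : ℝ) < j := by
    linarith [hj.1, hj.2, hx.1, hx.2]
  have h6 : j < 0 := by exact_mod_cast h4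
  have h7 : (-1 : ℤ) < j := by exact_mod_cast h5
  omega

/-- a bump vanishes near a point which does not visit its cell -/
lemma gb_zero (hF : FarS L ct gb r D Sy e0 f p β M0 M B Λ Vm w ε') {c : I} {z q : E}
    (hc : ¬ cl L (4 * r) (ct c) z) (hq : ‖q‖ ≤ r) : gb c (z + q) = 0 := by
  refine hF.g0 c _ fun h => hc ?_
  have h1 := cl_shift L h (x' := z) (s := r) (by rw [dist_eq_norm, add_sub_cancel_left]; exact hq)
  have e : 3 * r + r = 4 * r := by ring
  rwa [e] at h1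

/-- a bump is one near a point of its cell -/
lemma gb_one (hF : FarS L ct gb r D Sy e0 f p β M0 M B Λ Vm w ε') {c : I} {z q : E}
    (hc : cl L r (ct c) z) (hq : ‖q‖ ≤ r) : gb c (z + q) = 1 := by
  refine hF.g1 c _ ?_
  have h1 := cl_shift L hc (x' := z + q) (s := r) (by
    rw [dist_eq_norm, sub_add_cancel_left, norm_neg]; exact hq)
  have e : r + r = 2 * r := by ring
  rwa [e] at h1

/-- potentials coincide on tubes around points not visiting the changed cells -/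
lemma pf_tube (hF : FarS L ct gb r D Sy e0 f p β M0 M B Λ Vm w ε') {σ σ' : I → ℝ} {z q : E} {t : ℝ}
    (h : ∀ c : I, cl L (4 * r) (ct c) z → σ c ≤ σ' c) (hq : ‖q‖ ≤ r) :
    pf gb f w σ (z + q) t ≤ pf gb f w σ' (z + q) t := by
  unfold pf
  have : ∑ c : I, σ c * (gb c (z + q) * H33.zt w t) ≤ ∑ c : I, σ' c * (gb c (z + q) * H33.zt w t) := by
    apply Finset.sum_le_sum
    intro c _
    by_cases hc : cl L (4 * r) (ct c) z
    · exact mul_le_mul_of_nonneg_right (h c hc) (gz_nonneg' L hF _ _ _)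
    · rw [gb_zero L hF hc hq]; simp
  linarith

omit [Fintype I] [FiniteDimensional ℝ E] in
lemma tube_bound {τ : ℝ} {v q : E} (hw : w * Vm + Real.sqrt (2 * (B + M + 1) * w) ≤ r)
    (hτ : |τ| ≤ w) (hw0 : 0 ≤ w) (hv : ‖v‖ ≤ Vm) (hq : ‖q‖ ≤ Real.sqrt (2 * (B + M + 1) * w)) :
    ‖τ • v + q‖ ≤ r := by
  refine le_trans ?_ hw
  refine (norm_add_le _ _).trans (add_le_add ?_ hq)
  rw [norm_smul, Real.norm_eq_abs]
  exact mul_le_mul hτ hv (norm_nonneg _) hw0

/-- locality: general one-sided version -/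
lemma kbar_local_le (hF : FarS L ct gb r D Sy e0 f p β M0 M B Λ Vm w ε') {σ σ' : I → ℝ}
    (hσ : Alw ε' σ) (hσ' : Alw ε' σ') {s : ℝ} (hv : ‖L.vel s‖ ≤ Vm) {z z' : E} (hz : z ∈ L.room p)
    (hz' : z' ∈ L.room p)
    (h : ∀ c : I, cl L (4 * r) (ct c) z → σ c ≤ σ' c) (h' : ∀ c : I, cl L (4 * r) (ct c) z' → σ c ≤ σ' c) :
    L.kbar (pf gb f w σ) s z z' ≤ L.kbar (pf gb f w σ') s z z' := by
  have hB : L.kbar (pf gb f w σ') s z z' ≤ B := (abs_le.1 ((hF.kd σ' hσ' s).bd z hz z' hz')).2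
  have key := kbar_tube L (hF.good σ hσ) (hF.good σ' hσ') (hF.pot σ hσ).perd (hF.pot σ' hσ').perd s
    hz.1 hz'.1 hB hF.w_pos hF.w_lt (fun _ => 0) intervalIntegrable_const
    (fun t ht q hq => by
      rw [add_zero, add_assoc]
      exact pf_tube L hF h (tube_bound hF.hw (by rw [abs_of_nonneg ht.1]; exact ht.2)
        hF.w_pos.le hv hq))
    (fun t ht q hq => by
      rw [add_zero]
      have e : z' - (1 - t) • L.vel s + q = z' + ((-(1 - t)) • L.vel s + q) := by rw [neg_smul]; abel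
      rw [e]
      exact pf_tube L hF h' (tube_bound hF.hw
        (by rw [abs_neg, abs_of_nonneg (by linarith [ht.2])]; linarith [ht.1]) hF.w_pos.le hv hq))
    (fun t ht x => by
      rw [add_zero]
      unfold pf
      have h0 : H33.zt w t = 0 := H33.zt_mid hF.w_pos hF.w_lt.le ⟨ht.1.le, ht.2.le⟩
      simp [h0])
  simpa using key

lemma kbar_local (hF : FarS L ct gb r D Sy e0 f p β M0 M B Λ Vm w ε') {σ σ' : I → ℝ}
    (hσ : Alw ε' σ) (hσ' : Alw ε' σ') {s : ℝ} (hv : ‖L.vel s‖ ≤ Vm) {z z' : E} (hz : z ∈ L.room p)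
    (hz' : z' ∈ L.room p)
    (h : ∀ c : I, cl L (4 * r) (ct c) z → σ c = σ' c) (h' : ∀ c : I, cl L (4 * r) (ct c) z' → σ c = σ' c) :
    L.kbar (pf gb f w σ) s z z' = L.kbar (pf gb f w σ') s z z' :=
  le_antisymm (kbar_local_le L hF hσ hσ' hv hz hz' (fun c hc => (h c hc).le) (fun c hc => (h' c hc).le))
    (kbar_local_le L hF hσ' hσ hv hz hz' (fun c hc => (h c hc).ge) (fun c hc => (h' c hc).ge))

lemma pf_mono (hF : FarS L ct gb r D Sy e0 f p β M0 M B Λ Vm w ε') {σ σ' : I → ℝ} (h : σ ≤ σ')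
    (x : E) (t : ℝ) : pf gb f w σ x t ≤ pf gb f w σ' x t := by
  unfold pf
  have : ∑ c : I, σ c * (gb c x * H33.zt w t) ≤ ∑ c : I, σ' c * (gb c x * H33.zt w t) :=
    Finset.sum_le_sum fun c _ => mul_le_mul_of_nonneg_right (h c) (gz_nonneg' L hF _ _ _)
  linarith

lemma pf_grow (hF : FarS L ct gb r D Sy e0 f p β M0 M B Λ Vm w ε') {σ σ' : I → ℝ} (h : σ ≤ σ')
    (c : I) {x : E} {t : ℝ} (hx : gb c x = 1) :
    pf gb f w σ x t + (σ' c - σ c) * H33.zt w t ≤ pf gb f w σ' x t := by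
  unfold pf
  have h1 : (σ' c - σ c) * H33.zt w t ≤ ∑ c : I, (σ' c - σ c) * (gb c x * H33.zt w t) := by
    have h2 : (σ' c - σ c) * H33.zt w t = (σ' c - σ c) * (gb c x * H33.zt w t) := by rw [hx, one_mul]
    rw [h2]
    apply Finset.single_le_sum (f := fun c => (σ' c - σ c) * (gb c x * H33.zt w t)) _ (Finset.mem_univ c)
    intro c' _
    exact mul_nonneg (sub_nonneg.2 (h c')) (gz_nonneg' L hF _ _ _)
  have h3 : ∑ c : I, (σ' c - σ c) * (gb c x * H33.zt w t) =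
      ∑ c : I, σ' c * (gb c x * H33.zt w t) - ∑ c : I, σ c * (gb c x * H33.zt w t) := by
    rw [← Finset.sum_sub_distrib]
    exact Finset.sum_congr rfl fun c _ => by ring
  linarith

/-- masses of the time bump at the two ends of the unit interval -/
def A0 (w : ℝ) : ℝ := ∫ t in (0:ℝ)..1, (Icc 0 w).indicator (H33.zt w) t

def A1 (w : ℝ) : ℝ := ∫ t in (0:ℝ)..1, (Icc (1 - w) 1).indicator (H33.zt w) t

lemma ii_ind (w : ℝ) (S : Set ℝ) (hS : MeasurableSet S) :
    IntervalIntegrable (S.indicator (H33.zt w)) volume 0 1 := by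
  have h := (H33.zt_cont w).intervalIntegrable (μ := volume) 0 1
  rw [intervalIntegrable_iff] at h ⊢
  exact h.indicator hS

lemma A0_add_A1 {w : ℝ} (hw : 0 < w) (hw' : w < 1 / 2) : A0 w + A1 w = 1 := by
  unfold A0 A1
  rw [← intervalIntegral.integral_add (ii_ind w _ measurableSet_Icc) (ii_ind w _ measurableSet_Icc)]
  refine Eq.trans ?_ (H33.zt_integral hw hw'.le)
  apply intervalIntegral.integral_congr
  intro t ht
  rw [uIcc_of_le zero_le_one] at ht
  simp only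
  by_cases h1 : t ∈ Icc 0 w
  · have h2 : t ∉ Icc (1 - w) 1 := fun h => by linarith [h.1, h1.2]
    rw [indicator_of_mem h1, indicator_of_notMem h2, add_zero]
  · by_cases h2 : t ∈ Icc (1 - w) 1
    · rw [indicator_of_notMem h1, indicator_of_mem h2, zero_add]
    · rw [indicator_of_notMem h1, indicator_of_notMem h2, add_zero, H33.zt_mid hw hw'.le]
      constructor
      · by_contra hc; push Not at hc; exact h1 ⟨ht.1, hc.le⟩
      · by_contra hc; push Not at hc; exact h2 ⟨hc.le, ht.2⟩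

/-- growth at the starting point -/
lemma kbar_grow_start (hF : FarS L ct gb r D Sy e0 f p β M0 M B Λ Vm w ε') {σ σ' : I → ℝ}
    (hσ : Alw ε' σ) (hσ' : Alw ε' σ') (hle : σ ≤ σ') {s : ℝ} (hv : ‖L.vel s‖ ≤ Vm) {z z' : E}
    (hz : z ∈ L.room p) (hz' : z' ∈ L.room p) (c : I) (hc : cl L r (ct c) z) :
    L.kbar (pf gb f w σ) s z z' + (σ' c - σ c) * A0 w ≤ L.kbar (pf gb f w σ') s z z' := by
  have hB : L.kbar (pf gb f w σ') s z z' ≤ B := (abs_le.1 ((hF.kd σ' hσ' s).bd z hz z' hz')).2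
  have hm := pf_mono L hF hle
  have key := kbar_tube L (hF.good σ hσ) (hF.good σ' hσ') (hF.pot σ hσ).perd (hF.pot σ' hσ').perd s
    hz.1 hz'.1 hB hF.w_pos hF.w_lt (fun t => (σ' c - σ c) * (Icc 0 w).indicator (H33.zt w) t)
    ((ii_ind w _ measurableSet_Icc).const_mul _)
    (fun t ht q hq => by
      rw [indicator_of_mem ht]
      apply pf_grow L hF hle c
      rw [add_assoc]
      exact gb_one L hF hc (tube_bound hF.hw (by rw [abs_of_nonneg ht.1]; exact ht.2)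
        hF.w_pos.le hv hq))
    (fun t ht q _ => by
      have : t ∉ Icc 0 w := fun h => by linarith [h.2, ht.1, hF.w_lt]
      rw [indicator_of_notMem this, mul_zero, add_zero]
      exact hm _ _)
    (fun t ht x => by
      have : t ∉ Icc 0 w := fun h => by linarith [h.2, ht.1]
      rw [indicator_of_notMem this, mul_zero, add_zero]
      exact hm _ _)
  rw [intervalIntegral.integral_const_mul] at key
  exact key

/-- growth at the end point -/
lemma kbar_grow_end (hF : FarS L ct gb r D Sy e0 f p β M0 M B Λ Vm w ε') {σ σ' : I → ℝ}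
    (hσ : Alw ε' σ) (hσ' : Alw ε' σ') (hle : σ ≤ σ') {s : ℝ} (hv : ‖L.vel s‖ ≤ Vm) {z z' : E}
    (hz : z ∈ L.room p) (hz' : z' ∈ L.room p) (c : I) (hc : cl L r (ct c) z') :
    L.kbar (pf gb f w σ) s z z' + (σ' c - σ c) * A1 w ≤ L.kbar (pf gb f w σ') s z z' := by
  have hB : L.kbar (pf gb f w σ') s z z' ≤ B := (abs_le.1 ((hF.kd σ' hσ' s).bd z hz z' hz')).2
  have hm := pf_mono L hF hle
  have key := kbar_tube L (hF.good σ hσ) (hF.good σ' hσ') (hF.pot σ hσ).perd (hF.pot σ' hσ').perd s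
    hz.1 hz'.1 hB hF.w_pos hF.w_lt (fun t => (σ' c - σ c) * (Icc (1 - w) 1).indicator (H33.zt w) t)
    ((ii_ind w _ measurableSet_Icc).const_mul _)
    (fun t ht q _ => by
      have : t ∉ Icc (1 - w) 1 := fun h => by linarith [h.1, ht.2, hF.w_lt]
      rw [indicator_of_notMem this, mul_zero, add_zero]
      exact hm _ _)
    (fun t ht q hq => by
      rw [indicator_of_mem ht]
      apply pf_grow L hF hle c
      have e : z' - (1 - t) • L.vel s + q = z' + ((-(1 - t)) • L.vel s + q) := by rw [neg_smul]; abel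
      rw [e]
      exact gb_one L hF hc (tube_bound hF.hw
        (by rw [abs_neg, abs_of_nonneg (by linarith [ht.2])]; linarith [ht.1]) hF.w_pos.le hv hq))
    (fun t ht x => by
      have : t ∉ Icc (1 - w) 1 := fun h => by linarith [h.1, ht.2]
      rw [indicator_of_notMem this, mul_zero, add_zero]
      exact hm _ _)
  rw [intervalIntegral.integral_const_mul] at key
  exact key

end EscN
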