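import Pool.Agent.EscN.Flat
import Pool.Agent.EscN.Lift
import Pool.Agent.EscN.O6

/-!
Escape from the stages (state space `S`).
-/

noncomputable section

namespace EscN

open MeasureTheory Set Filter Topology Esc

set_option linter.unusedSectionVars false

variable {d : ℕ} {E : Type*} [NormedAddCommGroup E] [InnerProductSpace ℝ E] [FiniteDimensional ℝ E]
  (L : Sp d E)

omit [FiniteDimensional ℝ E] in
/-- fast velocities tend to infinity -/
lemma vel_tendsto (hd : 0 < d) : Tendsto (fun s : ℝ => ‖L.vel s‖) atTop atTop := by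
  classical
  set i0 : Fin d := ⟨0, hd⟩ with hi0
  set φ : (Fin d → ℝ) →ₗ[ℝ] E := Fintype.linearCombination ℝ L.b with hφ
  have hinj : LinearMap.ker φ = ⊥ := by
    rw [LinearMap.ker_eq_bot]
    exact linearIndependent_iff_injective_fintypeLinearCombination.1 L.li
  obtain ⟨K, hK, hanti⟩ := φ.exists_antilipschitzWith hinj
  have hle : ∀ θ : Fin d → ℝ, ‖θ‖ ≤ K * ‖φ θ‖ := by
    intro θ
    have := hanti.le_mul_dist θ 0
    simpa [dist_zero_right] using this
  have hvel : ∀ s, L.vel s = φ (fun i => s ^ ((i : ℕ) + 1)) := by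
    intro s
    simp [hφ, Fintype.linearCombination_apply, Sp.vel]
  have hKpos : (0 : ℝ) < K := by exact_mod_cast hK
  refine tendsto_atTop_mono (f := fun s : ℝ => s / K) (fun s => ?_) ?_
  · rw [div_le_iff₀ hKpos, hvel s, mul_comm]
    refine le_trans ?_ (hle _)
    refine le_trans ?_ (norm_le_pi_norm _ i0)
    simp [hi0]
    exact le_abs_self s
  · exact tendsto_id.atTop_div_const hKpos

lemma Q_P (x : E) : L.Q (L.P x) = 0 := by
  unfold Sp.Q
  rw [P_P, y_P, zero_smul, sub_zero, sub_self]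

lemma inner_P_self (x : E) : inner ℝ (L.P x) x = ‖L.P x‖ ^ 2 := by
  have h := L.P_sym (L.P x) x
  rw [P_P] at h
  rw [h, real_inner_self_eq_norm_sq]

theorem escapes_of_stages (hd : 0 < d) {p β M0 : ℝ} {f : E → ℝ → ℝ} (hf : L.IsPot f)
    (hD : L.Dat p β M0 f) (hS : ∀ q : ℕ, M0 ≤ q → L.Stage p β q f) : L.Escapes f := by
  obtain ⟨M, hM⟩ := isPot_good L hf
  obtain ⟨σ, I, cc, D, hC⟩ := exists_chn L hf hS
  obtain ⟨w, ν, B, hν, hwS, hmin, hB⟩ := exists_seq L hf hD hC
  have hcn : Conn L.S := fun a b hab z hz z' hz' => conn L hab hz hz'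
  obtain ⟨x, v, hxS, hx, hv, hvt, hxw, -, hact⟩ :=
    orbit_of_sitewise L.ret hcn hM hf.smooth hf.pert w hwS hmin
  have hM0 := hM.pos
  have hel : ∀ t, 0 < t → ∀ ξ, L.Tan (x t) ξ → inner ℝ (deriv v t) ξ = fderiv ℝ (fun z => f z t) (x t) ξ := by
    intro t ht ξ hξ
    rw [(hv t ht).deriv]
    exact force_tan L.ret f (hxS t ht) (hvt t ht) hξ t
  refine ⟨x, v, hxS, hx, fun t ht => (hv t ht).differentiableAt, hel, ?_⟩
  -- bound of the force in fast directions
  have hfb : ∀ t (z ξ : E), |fderiv ℝ (fun z => f z t) z ξ| ≤ M * ‖ξ‖ := by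
    intro t z ξ
    have h1 : ‖fderiv ℝ (fun z => f z t) z‖ ≤ M := by
      apply norm_fderiv_le_of_lip' ℝ hM0
      exact Filter.Eventually.of_forall fun z' => by
        have := hM.lipx z' z t
        simpa [Real.norm_eq_abs] using this
    have h2 := (fderiv ℝ (fun z => f z t) z).le_opNorm ξ
    rw [Real.norm_eq_abs] at h2
    exact h2.trans (mul_le_mul_of_nonneg_right h1 (norm_nonneg _))
  have hvc : ContinuousOn v (Ioi 0) := fun t ht => (hv t ht).continuousAt.continuousWithinAt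
  have hxc : ContinuousOn x (Ioi 0) := fun t ht => (hx t ht).continuousAt.continuousWithinAt
  -- the fast part of the velocity is Lipschitz
  have hlip : ∀ s t, 0 < s → 0 < t → ‖L.P (v s) - L.P (v t)‖ ≤ M * |s - t| := by
    intro s t hs ht
    set q := L.P (v s - v t) with hq
    have hqq : L.P (v s) - L.P (v t) = q := by rw [hq, map_sub]
    rw [hqq]
    have hQq : L.Q q = 0 := Q_P L _
    have hder : ∀ r ∈ Ioi (0:ℝ), HasDerivWithinAt (fun r => inner ℝ q (v r)) (inner ℝ q (deriv v r)) (Ioi 0) r := by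
      intro r hr
      have h1 : HasDerivAt v (deriv v r) r := (hv r hr).differentiableAt.hasDerivAt
      have h2 := (innerSL ℝ q).hasFDerivAt.comp_hasDerivAt r h1
      exact (h2 : HasDerivAt (fun r => inner ℝ q (v r)) (inner ℝ q (deriv v r)) r).hasDerivWithinAt
    have hbd : ∀ r ∈ Ioi (0:ℝ), ‖inner ℝ q (deriv v r)‖ ≤ M * ‖q‖ := by
      intro r hr
      have hT : L.Tan (x r) q := rt_fderiv_W L q hQq
      rw [real_inner_comm, hel r hr q hT, Real.norm_eq_abs]
      exact hfb r (x r) q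
    have h3 := Convex.norm_image_sub_le_of_norm_hasDerivWithin_le (f := fun r => inner ℝ q (v r))
      hder hbd (convex_Ioi 0) (mem_Ioi.2 ht) (mem_Ioi.2 hs)
    have h4 : inner ℝ q (v s) - inner ℝ q (v t) = ‖q‖ ^ 2 := by
      rw [← inner_sub_right, hq, inner_P_self]
    rw [h4, Real.norm_eq_abs, Real.norm_eq_abs, abs_of_nonneg (by positivity)] at h3
    by_contra hcon
    push Not at hcon
    have h5 : 0 ≤ M * |s - t| := by positivity
    have h6 : 0 < ‖q‖ := lt_of_le_of_lt h5 hcon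
    nlinarith
  -- energy estimate on unit intervals
  have hen : ∀ j : ℕ, 0 < j → ∫ t in (j:ℝ)..(j+1), ‖v t - L.vel (σ (ν j))‖ ^ 2 / 2 ≤ B + M := by
    intro j hj
    have hj' : (0:ℝ) < j := by exact_mod_cast hj
    have hsub : uIcc (j:ℝ) (j+1) ⊆ Ioi 0 := by
      rw [uIcc_of_le (by linarith)]
      intro t ht
      exact lt_of_lt_of_le hj' ht.1
    have hvc' : ContinuousOn v (uIcc (j:ℝ) (j+1)) := hvc.mono hsub
    have hxc' : ContinuousOn x (uIcc (j:ℝ) (j+1)) := hxc.mono hsub
    have hfc' : ContinuousOn (fun t => f (x t) t) (uIcc (j:ℝ) (j+1)) :=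
      hM.cont.comp_continuousOn (hxc'.prodMk continuousOn_id)
    set V := L.vel (σ (ν j)) with hV
    have hint1 : IntervalIntegrable (fun t => ‖v t‖ ^ 2 / 2 + f (x t) t) volume (j:ℝ) (j+1) :=
      ((((hvc'.norm).pow 2).div_const 2).add hfc').intervalIntegrable
    have hint2 : IntervalIntegrable (fun t => inner ℝ V (v t)) volume (j:ℝ) (j+1) :=
      (continuousOn_const.inner hvc').intervalIntegrable
    have hint3 : IntervalIntegrable (fun t => f (x t) t) volume (j:ℝ) (j+1) := hfc'.intervalIntegrable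
    have hfun : ∀ t, ‖v t - V‖ ^ 2 / 2 = (‖v t‖ ^ 2 / 2 + f (x t) t) - inner ℝ V (v t) + ‖V‖ ^ 2 / 2
        - f (x t) t := by
      intro t
      rw [norm_sub_sq_real, real_inner_comm]
      ring
    have hFTC : ∫ t in (j:ℝ)..(j+1), inner ℝ V (v t) = inner ℝ V (w (j + 1) - w j) := by
      have h1 : ∫ t in (j:ℝ)..(j+1), v t = x (j + 1) - x j :=
        intervalIntegral.integral_eq_sub_of_hasDerivAt (fun t ht => hx t (hsub ht)) hvc'.intervalIntegrable
      have h3 : ∫ t in (j:ℝ)..(j+1), inner ℝ V (v t) = inner ℝ V (∫ t in (j:ℝ)..(j+1), v t) :=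
        (innerSL ℝ V).intervalIntegral_comp_comm hvc'.intervalIntegrable
      rw [h3, h1]
      have h4 : x ((j:ℝ) + 1) = w (j + 1) := by
        have := hxw (j + 1)
        push_cast at this
        exact this
      rw [h4, hxw j]
    simp_rw [hfun]
    rw [intervalIntegral.integral_sub ((hint1.sub hint2).add intervalIntegrable_const) hint3,
      intervalIntegral.integral_add (hint1.sub hint2) intervalIntegrable_const,
      intervalIntegral.integral_sub hint1 hint2, hact j, hFTC, intervalIntegral.integral_const]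
    have hg := ker_galilei L hM V (a := 0) (b := 1) one_pos (hwS j) (hwS (j + 1))
    have hBj := hB j
    rw [← hV] at hBj
    have hfl : -M ≤ ∫ t in (j:ℝ)..(j+1), f (x t) t := by
      have h1 : ∫ t in (j:ℝ)..(j+1), (-M) ≤ ∫ t in (j:ℝ)..(j+1), f (x t) t := by
        apply intervalIntegral.integral_mono_on (by linarith) intervalIntegrable_const hint3
        intro t _
        exact (abs_le.1 (hM.bd (x t) t)).1
      rw [intervalIntegral.integral_const] at h1
      simpa using h1
    have h5 : ((j:ℝ) + 1 - j) = 1 := by ring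
    rw [h5, one_smul]
    linarith
  -- pointwise estimate
  have hpt : ∀ j : ℕ, 0 < j → ∀ t ∈ Icc (j:ℝ) (j+1),
      ‖L.vel (σ (ν j))‖ - (Real.sqrt (2 * (B + M)) + M) ≤ ‖v t‖ := by
    intro j hj t ht
    have hj' : (0:ℝ) < j := by exact_mod_cast hj
    set V := L.vel (σ (ν j)) with hV
    have hBM : 0 ≤ B + M := by
      refine le_trans ?_ (hen j hj)
      apply intervalIntegral.integral_nonneg (by linarith)
      intro t _; positivity
    obtain ⟨t0, ht0, h0⟩ : ∃ t0 ∈ Icc (j:ℝ) (j+1), ‖v t0 - V‖ ^ 2 / 2 ≤ B + M := by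
      by_contra hcon
      push Not at hcon
      have hc : ContinuousOn (fun t => ‖v t - V‖ ^ 2 / 2) (Icc (j:ℝ) (j+1)) := by
        have h1 : ContinuousOn v (Icc (j:ℝ) (j+1)) :=
          hvc.mono fun t ht => lt_of_lt_of_le hj' ht.1
        exact ((h1.sub continuousOn_const).norm.pow 2).div_const 2
      have h1 : ∫ t in (j:ℝ)..(j+1), (B + M) < ∫ t in (j:ℝ)..(j+1), ‖v t - V‖ ^ 2 / 2 := by
        apply intervalIntegral.integral_lt_integral_of_continuousOn_of_le_of_exists_lt (by linarith)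
          continuousOn_const hc
        · intro t ht'
          exact (hcon t (Ioc_subset_Icc_self ht')).le
        · exact ⟨j, left_mem_Icc.2 (by linarith), hcon j (left_mem_Icc.2 (by linarith))⟩
      rw [intervalIntegral.integral_const] at h1
      have h5 : ((j:ℝ) + 1 - j) = 1 := by ring
      rw [h5, one_smul] at h1
      exact absurd (hen j hj) (not_le.2 h1)
    have h1 : ‖v t0 - V‖ ≤ Real.sqrt (2 * (B + M)) := by
      apply Real.le_sqrt_of_sq_le
      linarith
    have h1' : ‖L.P (v t0) - V‖ ≤ Real.sqrt (2 * (B + M)) := by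
      have e : L.P (v t0) - V = L.P (v t0 - V) := by rw [map_sub, hV, P_vel]
      rw [e]
      exact (norm_P_le L _).trans h1
    have h2 : ‖L.P (v t) - L.P (v t0)‖ ≤ M := by
      refine (hlip t t0 (lt_of_lt_of_le hj' ht.1) (lt_of_lt_of_le hj' ht0.1)).trans ?_
      have : |t - t0| ≤ 1 := by
        rw [abs_le]; constructor <;> linarith [ht.1, ht.2, ht0.1, ht0.2]
      nlinarith [abs_nonneg (t - t0)]
    have h3 : ‖V‖ ≤ ‖L.P (v t)‖ + ‖L.P (v t) - L.P (v t0)‖ + ‖L.P (v t0) - V‖ := by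
      have e : V = L.P (v t) - (L.P (v t) - L.P (v t0)) - (L.P (v t0) - V) := by abel
      calc ‖V‖ = ‖L.P (v t) - (L.P (v t) - L.P (v t0)) - (L.P (v t0) - V)‖ := by rw [← e]
        _ ≤ ‖L.P (v t) - (L.P (v t) - L.P (v t0))‖ + ‖L.P (v t0) - V‖ := norm_sub_le _ _
        _ ≤ ‖L.P (v t)‖ + ‖L.P (v t) - L.P (v t0)‖ + ‖L.P (v t0) - V‖ := by
            gcongr; exact norm_sub_le _ _
    have h4 := norm_P_le L (v t)
    linarith
  -- conclusion
  have hseq : Tendsto (fun j : ℕ => ‖L.vel (σ (ν j))‖ - (Real.sqrt (2 * (B + M)) + M)) atTop atTop := by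
    apply tendsto_atTop_add_const_right
    exact (vel_tendsto L hd).comp (hC.tend.comp hν)
  rw [tendsto_atTop]
  intro R
  obtain ⟨j0, hj0⟩ := (tendsto_atTop.1 hseq R).exists_forall_of_atTop
  filter_upwards [eventually_ge_atTop (j0 : ℝ), eventually_ge_atTop (1:ℝ)] with t ht ht1
  have ht0 : 0 ≤ t := le_trans (Nat.cast_nonneg _) ht
  set j := ⌊t⌋₊ with hj
  have h1 : (j:ℝ) ≤ t := Nat.floor_le ht0
  have h2 : t < j + 1 := Nat.lt_floor_add_one t
  have h3 : j0 ≤ j := Nat.le_floor ht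
  have h4 : 0 < j := Nat.le_floor (by exact_mod_cast ht1)
  exact (hj0 j h3).trans (hpt j h4 t ⟨h1, h2.le⟩)

end EscN
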