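import Pool.Agent.EscN.Defs
import Pool.Agent.helper1.Esc.ModD

/-!
INTERFACE of project ESCN. All statements with sorry; every module proves its statements in its own
file (see ESCN_plan.md). Never import this file in a final module.
-/

noncomputable section

namespace EscN

open MeasureTheory Set Filter Topology Esc
open scoped ContDiff

variable {d : ℕ} {E : Type*} [NormedAddCommGroup E] [InnerProductSpace ℝ E] [FiniteDimensional ℝ E]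

/-! ## MODULE B0 (algebra of `Sp`) -/

section B0
variable (L : Sp d E)

theorem P_P (x : E) : L.P (L.P x) = L.P x := sorry
theorem y_P (x : E) : L.y (L.P x) = 0 := sorry
theorem P_lv (n : Fin d → ℤ) : L.P (L.lv n) = L.lv n := sorry
theorem P_vel (s : ℝ) : L.P (L.vel s) = L.vel s := sorry
theorem y_lv (n : Fin d → ℤ) : L.y (L.lv n) = 0 := sorry
theorem y_vel (s : ℝ) : L.y (L.vel s) = 0 := sorry
theorem y_g : L.y L.g = 1 := sorry
theorem y_dk (n : Fin d → ℤ) (x : E) : L.y (L.dk n x) = L.y x := sorry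
theorem P_dk (n : Fin d → ℤ) (x : E) : L.P (L.dk n x) = L.P x + L.lv n := sorry
theorem y_gd (x : E) : L.y (L.gd x) = L.y x + 1 := sorry
theorem y_gi (x : E) : L.y (L.gi x) = L.y x - 1 := sorry
theorem gd_gi (x : E) : L.gd (L.gi x) = x := sorry
theorem gi_gd (x : E) : L.gi (L.gd x) = x := sorry
theorem dk_zero (x : E) : L.dk 0 x = x := sorry
theorem dk_add (n m : Fin d → ℤ) (x : E) : L.dk (n + m) x = L.dk n (L.dk m x) := sorry
theorem dk_gd (n : Fin d → ℤ) (x : E) : L.dk n (L.gd x) = L.gd (L.dk n x) := sorry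
theorem dk_gi (n : Fin d → ℤ) (x : E) : L.dk n (L.gi x) = L.gi (L.dk n x) := sorry
theorem dist_dk (n : Fin d → ℤ) (x x' : E) : dist (L.dk n x) (L.dk n x') = dist x x' := sorry
theorem dist_gd (x x' : E) : dist (L.gd x) (L.gd x') = dist x x' := sorry
theorem dist_gi (x x' : E) : dist (L.gi x) (L.gi x') = dist x x' := sorry
/-- deck maps commute with translations by `W` -/
theorem dk_add_W (n : Fin d → ℤ) (x w : E) (hw : L.Q w = 0) : L.dk n (x + w) = L.dk n x + w := sorry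
theorem gd_add_W (x w : E) (hw : L.Q w = 0) : L.gd (x + w) = L.gd x + w := sorry
theorem gi_add_W (x w : E) (hw : L.Q w = 0) : L.gi (x + w) = L.gi x + w := sorry
theorem Q_vel (s : ℝ) : L.Q (L.vel s) = 0 := sorry
theorem Q_lv (n : Fin d → ℤ) : L.Q (L.lv n) = 0 := sorry
theorem norm_Q_dk (n : Fin d → ℤ) (x : E) : ‖L.Q (L.dk n x)‖ = ‖L.Q x‖ := sorry
theorem norm_Q_gd (x : E) : ‖L.Q (L.gd x)‖ = ‖L.Q x‖ := sorry
/-- the state space -/
theorem S_add_W {x w : E} (hx : x ∈ L.S) (hw : L.Q w = 0) : x + w ∈ L.S := sorry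
theorem S_dk {x : E} (n : Fin d → ℤ) : L.dk n x ∈ L.S ↔ x ∈ L.S := sorry
theorem S_gd {x : E} : L.gd x ∈ L.S ↔ x ∈ L.S := sorry
theorem S_gi {x : E} : L.gi x ∈ L.S ↔ x ∈ L.S := sorry
theorem S_setY {x : E} (η : ℝ) (hx : x ∈ L.S) : L.setY x η ∈ L.S := sorry
/-- tangent vectors -/
theorem rt_fderiv_W {x : E} (w : E) (hw : L.Q w = 0) : fderiv ℝ L.rt x w = w := sorry
/-- potentials -/
theorem isPot_good {f : E → ℝ → ℝ} (hf : L.IsPot f) : ∃ M, Good M f := sorry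
theorem isSm_isPot {G : E → ℝ → ℝ} (hG : L.IsSm G) : L.IsPot G := sorry
theorem isPot_add {f G : E → ℝ → ℝ} (hf : L.IsPot f) (hG : L.IsPot G) :
    L.IsPot (fun x t => f x t + G x t) := sorry
end B0

/-! ## MODULE K (kernel facts) -/

section ModuleK
variable (L : Sp d E)

theorem conn {a b : ℝ} (hab : a < b) {z z' : E} (hz : z ∈ L.S) (hz' : z' ∈ L.S) :
    ∃ u : ℝ → E, Adm u ∧ InS L.S a b z u ∧ traj a z u b = z' := sorry
theorem ker_galilei {M : ℝ} {f : E → ℝ → ℝ} (hf : Good M f) (v : E) {a b : ℝ} (hab : a < b) {z z' : E}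
    (hz : z ∈ L.S) (hz' : z' ∈ L.S) :
    ker L.S f v a b z z' = ker L.S f 0 a b z z' - inner ℝ v (z' - z) + (b - a) * ‖v‖ ^ 2 / 2 := sorry
theorem ker_lower {M : ℝ} {f : E → ℝ → ℝ} (hf : Good M f) (v : E) {a b : ℝ} (hab : a < b) {z z' : E}
    (hz : z ∈ L.S) (hz' : z' ∈ L.S) :
    ‖z' - z - (b - a) • v‖ ^ 2 / (2 * (b - a)) - M * (b - a) ≤ ker L.S f v a b z z' := sorry
theorem ker_upper {M : ℝ} {f : E → ℝ → ℝ} (hf : Good M f) {v : E} (hv : L.Q v = 0) {a b : ℝ} (hab : a < b)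
    {z z' : E} (hz : z ∈ L.S) (hz' : z' ∈ L.S) :
    ker L.S f v a b z z' ≤ (‖z' - z - (b - a) • v‖ ^ 2 + L.Cc ^ 2) / (2 * (b - a)) + M * (b - a) := sorry
theorem ker_le_act {S : Set E} {M : ℝ} {f : E → ℝ → ℝ} (hf : Good M f) (v : E) {a b : ℝ} (hab : a < b) (z : E)
    {u : ℝ → E} (hu : Adm u) (hS : InS S a b z u) :
    ker S f v a b z (traj a z u b) ≤ act f v a b z u := sorry
theorem exists_act_lt {M : ℝ} {f : E → ℝ → ℝ} (hf : Good M f) (v : E) {a b : ℝ} (hab : a < b) {z z' : E}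
    (hz : z ∈ L.S) (hz' : z' ∈ L.S) {ε : ℝ} (hε : 0 < ε) :
    ∃ u, Adm u ∧ InS L.S a b z u ∧ traj a z u b = z' ∧ act f v a b z u < ker L.S f v a b z z' + ε := sorry
theorem ker_sub_le {M ρ : ℝ} {f f' : E → ℝ → ℝ} (hf : Good M f) (hf' : Good M f')
    (h : ∀ x ∈ L.S, ∀ t, |f x t - f' x t| ≤ ρ) (v : E) {a b : ℝ} (hab : a < b) {z z' : E}
    (hz : z ∈ L.S) (hz' : z' ∈ L.S) :
    |ker L.S f v a b z z' - ker L.S f' v a b z z'| ≤ ρ * (b - a) := sorry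
theorem ker_continuousOn {M : ℝ} {f : E → ℝ → ℝ} (hf : Good M f) (v : E) {a b : ℝ} (hab : a < b) :
    ContinuousOn (fun p : E × E => ker L.S f v a b p.1 p.2) (L.S ×ˢ L.S) := sorry
theorem ker_dk {f : E → ℝ → ℝ} (n : Fin d → ℤ) (h : ∀ x t, f (L.dk n x) t = f x t) {v : E} (hv : L.Q v = 0)
    (a b : ℝ) (z z' : E) : ker L.S f v a b (L.dk n z) (L.dk n z') = ker L.S f v a b z z' := sorry
theorem ker_gd {f : E → ℝ → ℝ} (h : ∀ x t, f (L.gd x) t = f x t) {v : E} (hv : L.Q v = 0)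
    (a b : ℝ) (z z' : E) : ker L.S f v a b (L.gd z) (L.gd z') = ker L.S f v a b z z' := sorry
theorem ker_time {S : Set E} {f : E → ℝ → ℝ} (h : ∀ x t, f x (t + 1) = f x t) (v : E) (a b : ℝ) (z z' : E) :
    ker S f v (a + 1) (b + 1) z z' = ker S f v a b z z' := sorry
/-- dynamic programming inequality -/
theorem ker_le_ker_add {M : ℝ} {f : E → ℝ → ℝ} (hf : Good M f) (v : E) {a b c : ℝ} (hab : a < b)
    (hbc : b < c) {z x z' : E} (hz : z ∈ L.S) (hx : x ∈ L.S) (hz' : z' ∈ L.S) :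
    ker L.S f v a c z z' ≤ ker L.S f v a b z x + ker L.S f v b c x z' := sorry
end ModuleK

/-! ## MODULE K2 (periodic kernel) -/

section ModuleK2
variable (L : Sp d E)

theorem kbar_attained {M : ℝ} {f : E → ℝ → ℝ} (hf : Good M f) (s : ℝ) {z z' : E} (hz : z ∈ L.S)
    (hz' : z' ∈ L.S) : ∃ n : Fin d → ℤ, L.kbar f s z z' = ker L.S f (L.vel s) 0 1 z (L.dk n z') := sorry
theorem kbar_le_ker {M : ℝ} {f : E → ℝ → ℝ} (hf : Good M f) (s : ℝ) {z z' : E} (hz : z ∈ L.S)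
    (hz' : z' ∈ L.S) (n : Fin d → ℤ) : L.kbar f s z z' ≤ ker L.S f (L.vel s) 0 1 z (L.dk n z') := sorry
theorem kbar_bd_lip (M : ℝ) : ∃ B Λ : ℝ, 0 < B ∧ 0 < Λ ∧ ∀ f : E → ℝ → ℝ, Good M f →
    (∀ n x t, f (L.dk n x) t = f x t) → ∀ s : ℝ,
    (∀ z ∈ L.S, ∀ z' ∈ L.S, |L.y z - L.y z'| ≤ 2 → |L.kbar f s z z'| ≤ B) ∧
    (∀ z ∈ L.S, ∀ z' ∈ L.S, ∀ w ∈ L.S, ∀ w' ∈ L.S, |L.y z - L.y z'| ≤ 2 → |L.y w - L.y w'| ≤ 2 →
      |L.kbar f s z z' - L.kbar f s w w'| ≤ Λ * (dist z w + dist z' w')) := sorry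
theorem kbar_sub_le {M ρ : ℝ} {f f' : E → ℝ → ℝ} (hf : Good M f) (hf' : Good M f')
    (h : ∀ x ∈ L.S, ∀ t, |f x t - f' x t| ≤ ρ) (s : ℝ) {z z' : E} (hz : z ∈ L.S) (hz' : z' ∈ L.S) :
    |L.kbar f s z z' - L.kbar f' s z z'| ≤ ρ := sorry
theorem kbar_mono {M : ℝ} {f f' : E → ℝ → ℝ} (hf : Good M f) (hf' : Good M f')
    (h : ∀ x t, f x t ≤ f' x t) (s : ℝ) {z z' : E} (hz : z ∈ L.S) (hz' : z' ∈ L.S) :
    L.kbar f s z z' ≤ L.kbar f' s z z' := sorry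
theorem kbar_concave {M : ℝ} {ι : Type*} (I : Finset ι) (hI : I.Nonempty) {f : ι → E → ℝ → ℝ}
    (hf : ∀ i ∈ I, Good M (f i)) (s : ℝ) {z z' : E} (hz : z ∈ L.S) (hz' : z' ∈ L.S) :
    (∑ i ∈ I, L.kbar (f i) s z z') / I.card ≤
      L.kbar (fun x t => (∑ i ∈ I, f i x t) / I.card) s z z' := sorry
theorem kbar_per {f : E → ℝ → ℝ} (h : ∀ n x t, f (L.dk n x) t = f x t) (s : ℝ) (z z' : E)
    (n m : Fin d → ℤ) : L.kbar f s (L.dk n z) (L.dk m z') = L.kbar f s z z' := sorry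
theorem kbar_perg {f : E → ℝ → ℝ} (h : ∀ x t, f (L.gd x) t = f x t) (s : ℝ) (z z' : E) :
    L.kbar f s (L.gd z) (L.gd z') = L.kbar f s z z' := sorry
theorem kbar_speed (M : ℝ) : ∃ C : ℝ, 0 < C ∧ ∀ f : E → ℝ → ℝ, Good M f → ∀ s s' : ℝ,
    ‖L.vel s - L.vel s'‖ ≤ 1 → ∀ z ∈ L.S, ∀ z' ∈ L.S, |L.y z - L.y z'| ≤ 2 →
    |L.kbar f s z z' - L.kbar f s' z z'| ≤ C * ‖L.vel s - L.vel s'‖ := sorry
/-- Locality / growth lemma (as in the flat case). -/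
theorem kbar_tube {M B : ℝ} {f f' : E → ℝ → ℝ} (hf : Good M f) (hf' : Good M f')
    (hp : ∀ n x t, f (L.dk n x) t = f x t) (hp' : ∀ n x t, f' (L.dk n x) t = f' x t)
    (s : ℝ) {z z' : E} (hz : z ∈ L.S) (hz' : z' ∈ L.S)
    (hB : L.kbar f' s z z' ≤ B) {w : ℝ} (hw : 0 < w) (hw' : w < 1 / 2)
    (κ : ℝ → ℝ) (hκ : IntervalIntegrable κ volume 0 1)
    (h0 : ∀ t ∈ Icc 0 w, ∀ r : E, ‖r‖ ≤ Real.sqrt (2 * (B + M + 1) * w) →
      f (z + t • L.vel s + r) t + κ t ≤ f' (z + t • L.vel s + r) t)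
    (h1 : ∀ t ∈ Icc (1 - w) 1, ∀ r : E, ‖r‖ ≤ Real.sqrt (2 * (B + M + 1) * w) →
      f (z' - (1 - t) • L.vel s + r) t + κ t ≤ f' (z' - (1 - t) • L.vel s + r) t)
    (hm : ∀ t ∈ Ioo w (1 - w), ∀ x, f x t + κ t ≤ f' x t) :
    L.kbar f s z z' + ∫ t in (0:ℝ)..1, κ t ≤ L.kbar f' s z z' := sorry

theorem cell_compact (p : ℝ) : IsCompact (L.cell p) := sorry
theorem cell_nonempty (p : ℝ) : (L.cell p).Nonempty := sorry
theorem cell_subset (p : ℝ) : L.cell p ⊆ L.room p := sorry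
theorem exists_dk_cell (p : ℝ) (x : E) (hx : x ∈ L.room p) : ∃ n : Fin d → ℤ, L.dk n x ∈ L.cell p := sorry
/-- hence the standing assumptions of module D -/
theorem kd_kbar (M : ℝ) : ∃ B Λ : ℝ, 0 < B ∧ 0 < Λ ∧ ∀ f : E → ℝ → ℝ, Good M f →
    (∀ n x t, f (L.dk n x) t = f x t) → ∀ s p : ℝ,
    KD (L.kbar f s) (L.cell p) (L.room p) B Λ := sorry
end ModuleK2

/-! ## MODULE A (data class) -/

section ModuleA
variable (L : Sp d E)

/-- the data class is `C^0`-open -/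
theorem dat_open {p β M0 : ℝ} {f : E → ℝ → ℝ} (hf : L.IsPot f) (h : L.Dat p β M0 f) :
    ∃ ρ > 0, ∀ f', L.IsPot f' → (∀ x t, |f x t - f' x t| ≤ ρ) → L.Dat p β M0 f' := sorry

/-- the potential `f` is averaged in the fast directions, up to `η`, by `F`: a finite convex
combination of translates of `f` by fast vectors is `η`-close to `F` on `S` -/
def FastAvg (f F : E → ℝ → ℝ) (η : ℝ) : Prop :=
  ∃ (N : ℕ) (c : Fin N → ℝ) (w : Fin N → E), (∀ i, 0 ≤ c i) ∧ ∑ i, c i = 1 ∧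
    (∀ i, w i ∈ Submodule.span ℝ (Set.range L.b)) ∧ ∀ x ∈ L.S, ∀ t, |∑ i, c i * f (x + w i) t - F x t| ≤ η

/-- averaging: if the fast average of `f` is, up to `η`, the sum of a function of the slow coordinate
and of a function which does not see `W`, then `f` is in the data class with any `κ > η`. -/
theorem datW_of_avg (hd : 0 < d) {f F : E → ℝ → ℝ} (hf : L.IsPot f) {φ : ℝ → ℝ} {M : ℝ}
    (hφ : Good M (fun (y : ℝ) (_ : ℝ) => φ y)) (hF : Good M F)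
    (hFw : ∀ x w t, L.Q w = 0 → F (x + w) t = F x t) {η κ : ℝ} (hη : η < κ)
    (h : FastAvg L f (fun x t => φ (L.y x) + F x t) η) :
    ∃ M0 : ℝ, 1 ≤ M0 ∧ L.DatW M0 (fun y y' => Esc.ker (fun (y : ℝ) (_ : ℝ) => φ y) (0:ℝ) 0 1 y y') κ f := sorry

/-- the pendulum kernel -/
theorem sdata_pendulum (p : ℝ) {ε : ℝ} (hε : 0 < ε) (hε' : ε ≤ 1 / 10000) :
    ∃ e0 : ℝ, SData (fun y y' => Esc.ker (fun y (_ : ℝ) => ε * (1 - Real.cos (2 * Real.pi * (y - p)))) (0:ℝ) 0 1 y y')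
      p (ε / 50) 0 e0 ((ε / 50) ^ 2 / 200) := sorry
end ModuleA

/-! ## MODULE C (chain) -/

section ModuleC

/-- infinite sequence of gate points, optimal at every gate -/
theorem chain_points (S A : Set E) (gi : E → E) (hgi : Continuous gi) (G : ℕ → E → E → ℝ) (D : ℕ → Set E)
    (τ : ℕ → E) (hS : IsClosed S)
    (hD : ∀ n, IsCompact (D n)) (hne : ∀ n, (D n).Nonempty) (hDS : ∀ n, D n ⊆ S) (hDA : ∀ n, D n ⊆ A)
    (hDg : ∀ n, ∀ z ∈ D n, gi z ∈ A)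
    (hG : ∀ n, ContinuousOn (fun q : E × E => G n q.1 q.2) (A ×ˢ A))
    (hgate : ∀ n, ∀ z ∈ D (n + 1) ∩ closure (S \ D (n + 1)), ∃ w ∈ D (n + 1), ∀ x ∈ A, ∀ x' ∈ A,
      G n x w + G (n + 1) (gi w) x' - inner ℝ (τ (n + 1)) w <
        G n x z + G (n + 1) (gi z) x' - inner ℝ (τ (n + 1)) z) :
    ∃ z : ℕ → E, (∀ n, z n ∈ D n) ∧ (∀ n, z (n + 1) ∉ closure (S \ D (n + 1))) ∧
      ∀ n, ∀ w ∈ D (n + 1),
        G n (gi (z n)) (z (n + 1)) + G (n + 1) (gi (z (n + 1))) (z (n + 2)) - inner ℝ (τ (n + 1)) (z (n + 1)) ≤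
          G n (gi (z n)) w + G (n + 1) (gi w) (z (n + 2)) - inner ℝ (τ (n + 1)) w := sorry

end ModuleC

/-! ## MODULE G: stages -/

section ModuleG
variable (L : Sp d E)

theorem stage_open {p β : ℝ} {f : E → ℝ → ℝ} (hf : L.IsPot f) {q : ℕ} (h : L.Stage p β q f) :
    ∃ ρ > 0, ∀ f', L.IsPot f' → (∀ x t, |f x t - f' x t| ≤ ρ) → L.Stage p β q f' := sorry
theorem stage_dense (hd : 0 < d) {p β M0 : ℝ} {f : E → ℝ → ℝ} (hf : L.IsPot f)
    (hD : L.Dat p β M0 f) {q : ℕ} (hq : M0 ≤ q) (N : L.SmNorm) {ε : ℝ} (hε : 0 < ε) :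
    ∃ G, L.IsSm G ∧ N.nm G < ε ∧ L.Stage p β q (fun x t => f x t + G x t) := sorry
theorem escapes_of_stages (hd : 0 < d) {p β M0 : ℝ} {f : E → ℝ → ℝ} (hf : L.IsPot f)
    (hD : L.Dat p β M0 f) (hS : ∀ q : ℕ, M0 ≤ q → L.Stage p β q f) : L.Escapes f := sorry
end ModuleG

end EscN
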