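import Mathlib

/-!
Discrete means of almost periodic families (project ESCN).
-/

noncomputable section

namespace EscN

open Set Filter Topology Finset

section mean

variable {X V : Type*} [NormedAddCommGroup V] [NormedSpace ℝ V]

/-- mean over the `Q * B` points `θ + l / Q`, `l < Q * B` -/
def dmean (Q B : ℕ) (φ : ℝ → V) (θ : ℝ) : V :=
  ((Q * B : ℕ) : ℝ)⁻¹ • ∑ l ∈ range (Q * B), φ (θ + (l : ℝ) / Q)

lemma norm_dmean_le {Q B : ℕ} (hQ : 0 < Q) (hB : 0 < B) {φ : ℝ → V} {M : ℝ} (h : ∀ θ, ‖φ θ‖ ≤ M) (θ : ℝ) :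
    ‖dmean Q B φ θ‖ ≤ M := by
  have hN : 0 < Q * B := Nat.mul_pos hQ hB
  have hN' : (0 : ℝ) < ((Q * B : ℕ) : ℝ) := by exact_mod_cast hN
  unfold dmean
  rw [norm_smul, Real.norm_eq_abs, abs_of_pos (inv_pos.2 hN')]
  have h1 : ‖∑ l ∈ range (Q * B), φ (θ + (l : ℝ) / Q)‖ ≤ ((Q * B : ℕ) : ℝ) * M := by
    refine (norm_sum_le _ _).trans ?_
    refine (Finset.sum_le_sum fun l _ => h _).trans ?_
    rw [sum_const, card_range, nsmul_eq_mul]
  calc _ ≤ ((Q * B : ℕ) : ℝ)⁻¹ * (((Q * B : ℕ) : ℝ) * M) := by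
        exact mul_le_mul_of_nonneg_left h1 (inv_pos.2 hN').le
    _ = M := by rw [← mul_assoc, inv_mul_cancel₀ hN'.ne', one_mul]

lemma dmean_sub {Q B : ℕ} (φ ψ : ℝ → V) (θ : ℝ) :
    dmean Q B (fun s => φ s - ψ s) θ = dmean Q B φ θ - dmean Q B ψ θ := by
  unfold dmean
  rw [sum_sub_distrib, smul_sub]

/-- the mean over a shifted window: boundary terms -/
lemma dmean_shift {Q B : ℕ} (hQ : 0 < Q) (hB : 0 < B) {φ : ℝ → V} {M : ℝ} (h : ∀ θ, ‖φ θ‖ ≤ M)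
    (θ : ℝ) (i : ℕ) : ‖dmean Q B φ (θ + (i : ℝ) / Q) - dmean Q B φ θ‖ ≤ 2 * M * i / (Q * B) := by
  have hN : 0 < Q * B := Nat.mul_pos hQ hB
  have hN' : (0 : ℝ) < (Q : ℝ) * B := by exact_mod_cast hN
  have hM : 0 ≤ M := (norm_nonneg _).trans (h 0)
  have hQ' : (0 : ℝ) < Q := by exact_mod_cast hQ
  induction i with
  | zero => simp
  | succ i ih =>
    have h1 : ‖dmean Q B φ (θ + ((i + 1 : ℕ) : ℝ) / Q) - dmean Q B φ (θ + (i : ℝ) / Q)‖ ≤ 2 * M / (Q * B) := by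
      obtain ⟨G, hG⟩ : ∃ G : ℕ → V, G = fun k : ℕ => φ (θ + (i : ℝ) / Q + (k : ℝ) / Q) := ⟨_, rfl⟩
      have e1 : ∑ l ∈ range (Q * B), φ (θ + ((i + 1 : ℕ) : ℝ) / Q + (l : ℝ) / Q) =
          ∑ l ∈ range (Q * B), G (l + 1) := by
        refine Finset.sum_congr rfl fun l _ => ?_
        rw [hG]
        simp only
        congr 1
        push_cast
        ring
      have e3 : ∑ l ∈ range (Q * B), φ (θ + (i : ℝ) / Q + (l : ℝ) / Q) =
          ∑ l ∈ range (Q * B), G l := by rw [hG]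
      have e2 : ∑ l ∈ range (Q * B), G (l + 1) - ∑ l ∈ range (Q * B), G l = G (Q * B) - G 0 := by
        rw [← sum_sub_distrib]
        exact Finset.sum_range_sub G (Q * B)
      have hGb : ∀ l, ‖G l‖ ≤ M := fun l => by rw [hG]; exact h _
      unfold dmean
      rw [← smul_sub, norm_smul, Real.norm_eq_abs, abs_of_pos (inv_pos.2 (by exact_mod_cast hN)), e1, e3, e2]
      have h2 := norm_sub_le (G (Q * B)) (G 0)
      have h3 := hGb (Q * B)
      have h4 := hGb 0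
      rw [div_eq_inv_mul, Nat.cast_mul]
      exact mul_le_mul_of_nonneg_left (by linarith) (inv_pos.2 hN').le
    have h5 := norm_sub_le_norm_sub_add_norm_sub (dmean Q B φ (θ + ((i + 1 : ℕ) : ℝ) / Q))
      (dmean Q B φ (θ + (i : ℝ) / Q)) (dmean Q B φ θ)
    refine h5.trans ((add_le_add h1 ih).trans (le_of_eq ?_))
    push_cast
    field_simp
    ring

/-- The family has common integer almost periods, relatively dense for every `δ`. -/
def AP (φ : X → ℝ → V) : Prop := ∀ δ > 0, ∃ L : ℕ, ∀ a : ℤ, ∃ q : ℤ, a ≤ q ∧ q ≤ a + L ∧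
  ∀ x θ, ‖φ x (θ + q) - φ x θ‖ ≤ δ

/-- means with mesh `1/Q` over long windows do not see translations by multiples of `1/Q`,
uniformly in `Q` -/
theorem mesh_mean {φ : X → ℝ → V} {M : ℝ} (hb : ∀ x θ, ‖φ x θ‖ ≤ M) (hap : AP φ) {η : ℝ} (hη : 0 < η) :
    ∃ B0 : ℕ, 0 < B0 ∧ ∀ B ≥ B0, ∀ Q : ℕ, 0 < Q → ∀ x θ (i : ℤ),
      ‖dmean Q B (φ x) (θ + (i : ℝ) / Q) - dmean Q B (φ x) θ‖ ≤ η := by
  obtain ⟨L, hL⟩ := hap (η / 2) (by positivity)
  obtain ⟨B1, hB1⟩ := exists_nat_ge (2 * |M| * (L + 1) / (η / 2))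
  refine ⟨B1 + 1, Nat.succ_pos _, fun B hB Q hQ x θ i => ?_⟩
  have hM : 0 ≤ M := (norm_nonneg _).trans (hb x 0)
  have hB0 : 0 < B := by omega
  have hQ' : (0 : ℝ) < Q := by exact_mod_cast hQ
  have hBR : (0 : ℝ) < B := by exact_mod_cast hB0
  -- almost period just below `i / Q`
  obtain ⟨q, hq1, hq2, hq⟩ := hL (i / Q - L)
  set j : ℤ := i - q * Q with hj
  have hQz : (0 : ℤ) < Q := by exact_mod_cast hQ
  have hdm := Int.emod_add_mul_ediv i Q
  have hm0 := Int.emod_nonneg i hQz.ne'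
  have hm1 := Int.emod_lt_of_pos i hQz
  have hj0 : 0 ≤ j := by
    have h1 : q ≤ i / Q := by linarith
    have : q * Q ≤ i / Q * Q := mul_le_mul_of_nonneg_right h1 hQz.le
    rw [hj]; nlinarith
  have hj1 : j ≤ (L + 1) * Q := by
    have h1 : i / Q - L ≤ q := hq1
    have : (i / Q - L) * Q ≤ q * Q := mul_le_mul_of_nonneg_right h1 hQz.le
    rw [hj]; nlinarith
  obtain ⟨k, hk⟩ := Int.eq_ofNat_of_zero_le hj0
  have e1 : θ + (i : ℝ) / Q = (θ + (k : ℝ) / Q) + q := by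
    have : (i : ℝ) = (k : ℝ) + q * Q := by
      have h2 : i = j + q * Q := by rw [hj]; ring
      rw [hk] at h2
      exact_mod_cast h2
    rw [this]
    field_simp
    ring
  have h1 : ‖dmean Q B (φ x) (θ + (i : ℝ) / Q) - dmean Q B (φ x) (θ + (k : ℝ) / Q)‖ ≤ η / 2 := by
    have e2 : dmean Q B (φ x) (θ + (i : ℝ) / Q) - dmean Q B (φ x) (θ + (k : ℝ) / Q) =
        dmean Q B (fun s => φ x (s + q) - φ x s) (θ + (k : ℝ) / Q) := by
      rw [dmean_sub]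
      congr 1
      rw [e1]
      unfold dmean
      congr 1
      refine Finset.sum_congr rfl fun l _ => ?_
      congr 1
      ring
    rw [e2]
    exact norm_dmean_le hQ hB0 (fun s => hq x s) _
  have h2 := dmean_shift hQ hB0 (hb x) θ k
  have h3 : 2 * M * k / (Q * B) ≤ η / 2 := by
    have hk1 : (k : ℝ) ≤ (L + 1) * Q := by
      have : (k : ℤ) ≤ (L + 1) * Q := by
        have h4 := hj1
        rw [hk] at h4
        exact h4
      exact_mod_cast this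
    have hB2 : 2 * |M| * (L + 1) / (η / 2) ≤ B := hB1.trans (by exact_mod_cast (by omega : B1 ≤ B))
    rw [div_le_iff₀ (by positivity)] at hB2
    rw [abs_of_nonneg hM] at hB2
    rw [div_le_iff₀ (by positivity)]
    have h5 : 2 * M * k ≤ 2 * M * ((L + 1) * Q) := by gcongr
    nlinarith
  have h4 := norm_sub_le_norm_sub_add_norm_sub (dmean Q B (φ x) (θ + (i : ℝ) / Q))
    (dmean Q B (φ x) (θ + (k : ℝ) / Q)) (dmean Q B (φ x) θ)
  linarith

/-- long means with fine mesh are almost invariant under all translations -/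
theorem near_inv_mean {φ : X → ℝ → V} {M : ℝ} (hb : ∀ x θ, ‖φ x θ‖ ≤ M)
    (huc : ∀ δ > 0, ∃ ρ > 0, ∀ x θ θ', |θ - θ'| ≤ ρ → ‖φ x θ - φ x θ'‖ ≤ δ) (hap : AP φ) {η : ℝ}
    (hη : 0 < η) : ∃ Q0 B0 : ℕ, 0 < Q0 ∧ 0 < B0 ∧ ∀ Q ≥ Q0, ∀ B ≥ B0, ∀ x θ θ',
      ‖dmean Q B (φ x) θ - dmean Q B (φ x) θ'‖ ≤ η := by
  obtain ⟨ρ, hρ, h1⟩ := huc (η / 2) (by positivity)
  obtain ⟨B0, hB0, h2⟩ := mesh_mean hb hap (show 0 < η / 2 by positivity)
  obtain ⟨Q0, hQ0⟩ := exists_nat_gt (1 / ρ)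
  refine ⟨Q0 + 1, B0, Nat.succ_pos _, hB0, fun Q hQ B hB x θ θ' => ?_⟩
  have hQp : 0 < Q := by omega
  have hQ' : (0 : ℝ) < Q := by exact_mod_cast hQp
  have hBp : 0 < B := by omega
  set i : ℤ := ⌊(θ - θ') * Q⌋ with hi
  have hfl := Int.floor_le ((θ - θ') * Q)
  have hfl' := Int.lt_floor_add_one ((θ - θ') * Q)
  have hclose : |θ - (θ' + (i : ℝ) / Q)| ≤ ρ := by
    have h3 : θ - (θ' + (i : ℝ) / Q) = ((θ - θ') * Q - i) / Q := by field_simp; ring
    rw [h3, abs_div, abs_of_pos hQ', div_le_iff₀ hQ']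
    have h4 : |(θ - θ') * Q - i| ≤ 1 := by rw [abs_le]; constructor <;> linarith
    have h5 : 1 / ρ < Q := hQ0.trans (by exact_mod_cast (by omega : Q0 < Q))
    rw [div_lt_iff₀ hρ] at h5
    nlinarith
  have h6 : ‖dmean Q B (φ x) θ - dmean Q B (φ x) (θ' + (i : ℝ) / Q)‖ ≤ η / 2 := by
    have e : dmean Q B (φ x) θ - dmean Q B (φ x) (θ' + (i : ℝ) / Q) =
        dmean Q B (fun s => φ x s - φ x (s - (θ - (θ' + (i : ℝ) / Q)))) θ := by
      rw [dmean_sub]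
      congr 1
      unfold dmean
      congr 1
      refine Finset.sum_congr rfl fun l _ => ?_
      congr 1
      ring
    rw [e]
    refine norm_dmean_le hQp hBp (fun s => h1 x _ _ ?_) _
    rw [sub_sub_cancel]
    exact hclose
  have h7 := h2 B hB Q hQp x θ' i
  have h8 := norm_sub_le_norm_sub_add_norm_sub (dmean Q B (φ x) θ)
    (dmean Q B (φ x) (θ' + (i : ℝ) / Q)) (dmean Q B (φ x) θ')
  linarith

end mean

end EscN
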