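import Pool.Agent.EscN.TDefs
import Pool.Agent.EscN.U
import Pool.Agent.EscN.Mean

/-!
Derivatives of potentials on `M = (ℝⁿ × N)/ℤⁿ`: bounds, uniform continuity, almost periods
(project ESCN).
-/

noncomputable section

namespace EscN.T

open Filter Topology Set
open scoped ContDiff

variable {n m : ℕ}

/-! ### Deck transformations of `M × 𝕋` -/

/-- `(x, ν, t) ↦ (x + w, R ν, t + c)` is a deck transformation; `C` is an invariant set. -/
structure Deck (M : FlatBundle n m) (C : Set (Vec m)) (w : Vec n) (R : Vec m ≃ₗᵢ[ℝ] Vec m) (c : ℝ) :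
    Prop where
  memU : ∀ ν, R ν ∈ M.U ↔ ν ∈ M.U
  memC : ∀ ν, R ν ∈ C ↔ ν ∈ C
  inv : ∀ F : Fun n m, IsPeriodic M F → ∀ x ν t, ν ∈ M.U → F (x + w, R ν, t + c) = F (x, ν, t)

variable {M : FlatBundle n m} {C : Set (Vec m)}

lemma Deck.one : Deck M C 0 1 0 := ⟨fun _ => Iff.rfl, fun _ => Iff.rfl, fun F _ x ν t _ => by simp⟩

lemma Deck.mul {w w' : Vec n} {R R' : Vec m ≃ₗᵢ[ℝ] Vec m} {c c' : ℝ} (h : Deck M C w R c)
    (h' : Deck M C w' R' c') : Deck M C (w + w') (R * R') (c + c') := by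
  refine ⟨fun ν => (h.memU _).trans (h'.memU ν), fun ν => (h.memC _).trans (h'.memC ν), fun F hF x ν t hν => ?_⟩
  rw [show x + (w + w') = (x + w') + w by abel, show t + (c + c') = (t + c') + c by ring]
  change F (x + w' + w, R (R' ν), t + c' + c) = F (x, ν, t)
  rw [h.inv F hF _ _ _ ((h'.memU ν).2 hν), h'.inv F hF _ _ _ hν]

lemma Deck.inv' {w : Vec n} {R : Vec m ≃ₗᵢ[ℝ] Vec m} {c : ℝ} (h : Deck M C w R c) :
    Deck M C (-w) R⁻¹ (-c) := by
  have hR : ∀ ν, R (R⁻¹ ν) = ν := fun ν => R.apply_symm_apply ν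
  refine ⟨fun ν => ?_, fun ν => ?_, fun F hF x ν t hν => ?_⟩
  · rw [← h.memU (R⁻¹ ν), hR]
  · rw [← h.memC (R⁻¹ ν), hR]
  · have hν' : R⁻¹ ν ∈ M.U := by rw [← h.memU (R⁻¹ ν), hR]; exact hν
    have := h.inv F hF (x + -w) (R⁻¹ ν) (t + -c) hν'
    rw [hR, show x + -w + w = x by abel, show t + -c + c = t by ring] at this
    exact this.symm

lemma Deck.npow {w : Vec n} {R : Vec m ≃ₗᵢ[ℝ] Vec m} {c : ℝ} (h : Deck M C w R c) (k : ℕ) :
    Deck M C ((k : ℝ) • w) (R ^ k) (k * c) := by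
  induction k with
  | zero => simpa using (Deck.one (M := M) (C := C))
  | succ k ih =>
    have := ih.mul h
    rw [pow_succ]
    convert this using 1
    · push_cast; rw [add_smul, one_smul]
    · push_cast; ring

lemma Deck.zpow {w : Vec n} {R : Vec m ≃ₗᵢ[ℝ] Vec m} {c : ℝ} (h : Deck M C w R c) (k : ℤ) :
    Deck M C ((k : ℝ) • w) (R ^ k) (k * c) := by
  obtain ⟨a, rfl | rfl⟩ := k.eq_nat_or_neg
  · simpa using h.npow a
  · have := (h.npow a).inv'
    rw [zpow_neg, zpow_natCast]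
    convert this using 1
    · push_cast; rw [neg_smul]
    · push_cast; ring

/-- an invariant set -/
def InvC (M : FlatBundle n m) (C : Set (Vec m)) : Prop := ∀ i ν, M.rot i ν ∈ C ↔ ν ∈ C

lemma mem_iff_of_image {R : Vec m ≃ₗᵢ[ℝ] Vec m} {A : Set (Vec m)} (h : R '' A = A) (ν : Vec m) :
    R ν ∈ A ↔ ν ∈ A := by
  constructor
  · intro hν
    rw [← h] at hν
    obtain ⟨μ, hμ, he⟩ := hν
    rwa [← R.injective he]
  · intro hν
    rw [← h]
    exact ⟨ν, hν, rfl⟩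

lemma deck_gen (hC : InvC M C) (i : Fin n) : Deck M C (M.τ i) (M.rot i) 0 :=
  ⟨mem_iff_of_image (M.presU i), hC i, fun F hF x ν t hν => by rw [add_zero]; exact hF.1 i x ν t hν⟩

lemma deck_time : Deck M C 0 1 1 :=
  ⟨fun _ => Iff.rfl, fun _ => Iff.rfl, fun F hF x ν t hν => by
    rw [add_zero]; exact hF.2 x ν t hν⟩

/-- compact sets lie in invariant compact sets -/
theorem exists_invC (M : FlatBundle n m) {Kc : Set (Vec m)} (hK : IsCompact Kc) (hKU : Kc ⊆ M.U) :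
    ∃ C, IsCompact C ∧ C ⊆ M.U ∧ Kc ⊆ C ∧ InvC M C := by
  obtain ⟨B, hB⟩ := hK.isBounded.exists_norm_le
  obtain ⟨δ, hδ, hδK⟩ : ∃ δ : ENNReal, 0 < δ ∧ ∀ ν ∈ Kc, δ ≤ Metric.infEDist ν M.Uᶜ := by
    rcases Kc.eq_empty_or_nonempty with rfl | hne
    · exact ⟨1, one_pos, by simp⟩
    · obtain ⟨ν, hν, hmin⟩ := hK.exists_isMinOn hne
        (Metric.continuous_infEDist (s := M.Uᶜ)).continuousOn
      refine ⟨Metric.infEDist ν M.Uᶜ, ?_, fun μ hμ => hmin hμ⟩
      rw [pos_iff_ne_zero]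
      intro h0
      have := Metric.mem_closure_iff_infEDist_zero.2 h0
      rw [M.isOpen.isClosed_compl.closure_eq] at this
      exact this (hKU hν)
  refine ⟨Metric.closedBall 0 B ∩ {ν | δ ≤ Metric.infEDist ν M.Uᶜ},
    (isCompact_closedBall _ _).inter_right (isClosed_le continuous_const Metric.continuous_infEDist),
    ?_, ?_, ?_⟩
  · rintro ν ⟨-, hν⟩
    by_contra hU
    have h0 : Metric.infEDist ν M.Uᶜ = 0 := Metric.infEDist_zero_of_mem hU
    rw [Set.mem_ofPred_eq, h0] at hν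
    exact absurd hν (not_le.2 hδ)
  · intro ν hν
    exact ⟨by simpa using hB ν hν, hδK ν hν⟩
  · intro i ν
    have h1 : Metric.infEDist (M.rot i ν) M.Uᶜ = Metric.infEDist ν M.Uᶜ := by
      have h2 : M.rot i '' M.Uᶜ = M.Uᶜ := by
        rw [image_compl_eq (M.rot i).bijective, M.presU i]
      conv_lhs => rw [← h2]
      exact Metric.infEDist_image (M.rot i).isometry
    simp only [mem_inter_iff, Set.mem_ofPred_eq, h1, Metric.mem_closedBall, dist_zero_right,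
      LinearIsometryEquiv.norm_map]

/-! ### Jets -/

/-- the linear part of a deck transformation -/
def lin (n : ℕ) {m : ℕ} (R : Vec m ≃ₗᵢ[ℝ] Vec m) : (Vec n × Vec m × ℝ) ≃L[ℝ] (Vec n × Vec m × ℝ) :=
  (ContinuousLinearEquiv.refl ℝ (Vec n)).prodCongr
    (R.toContinuousLinearEquiv.prodCongr (ContinuousLinearEquiv.refl ℝ ℝ))

lemma lin_apply (R : Vec m ≃ₗᵢ[ℝ] Vec m) (p : Vec n × Vec m × ℝ) :
    lin n R p = (p.1, R p.2.1, p.2.2) := rfl

lemma norm_lin (R : Vec m ≃ₗᵢ[ℝ] Vec m) (p : Vec n × Vec m × ℝ) : ‖lin n R p‖ = ‖p‖ := by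
  rw [lin_apply]
  simp only [Prod.norm_def, LinearIsometryEquiv.norm_map]

lemma isOpen_dom (M : FlatBundle n m) : IsOpen {q : Vec n × Vec m × ℝ | q.2.1 ∈ M.U} :=
  M.isOpen.preimage (continuous_fst.comp continuous_snd)

/-- the derivatives at related points -/
lemma jet_deck {F : Fun n m} (hF : IsPeriodic M F) {w : Vec n} {R : Vec m ≃ₗᵢ[ℝ] Vec m} {c : ℝ}
    (h : Deck M C w R c) (j : ℕ) (p : Vec n × Vec m × ℝ) (hp : p.2.1 ∈ M.U) :
    (iteratedFDeriv ℝ j F (p.1 + w, R p.2.1, p.2.2 + c)).compContinuousLinearMap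
      (fun _ => (lin n R : (Vec n × Vec m × ℝ) →L[ℝ] _)) = iteratedFDeriv ℝ j F p := by
  have h1 : (fun q => F (q + (w, 0, c))) ∘ lin n R =ᶠ[𝓝 p] F := by
    filter_upwards [(isOpen_dom M).mem_nhds hp] with q hq
    have := h.inv F hF q.1 q.2.1 q.2.2 hq
    simp only [Function.comp, lin_apply]
    rw [← this]
    simp
  have h2 := (h1.iteratedFDeriv ℝ j).eq_of_nhds
  have h3 := (lin n R).iteratedFDerivWithin_comp_right (fun q => F (q + (w, 0, c)))
    (s := univ) uniqueDiffOn_univ (x := p) (mem_univ _) j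
  rw [preimage_univ, iteratedFDerivWithin_univ, iteratedFDerivWithin_univ] at h3
  rw [h3] at h2
  rw [← h2]
  congr 1
  rw [iteratedFDeriv_comp_add_right]
  congr 1
  rw [lin_apply]
  simp

lemma norm_comp_lin_le {j : ℕ} {G : Type*} [NormedAddCommGroup G] [NormedSpace ℝ G]
    (T : ContinuousMultilinearMap ℝ (fun _ : Fin j => Vec n × Vec m × ℝ) G) (R : Vec m ≃ₗᵢ[ℝ] Vec m) :
    ‖T.compContinuousLinearMap (fun _ => (lin n R : (Vec n × Vec m × ℝ) →L[ℝ] _))‖ ≤ ‖T‖ := by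
  refine ContinuousMultilinearMap.opNorm_le_bound (norm_nonneg _) fun v => ?_
  rw [ContinuousMultilinearMap.compContinuousLinearMap_apply]
  refine (T.le_opNorm _).trans (le_of_eq ?_)
  congr 1
  refine Finset.prod_congr rfl fun i _ => ?_
  exact norm_lin R (v i)

/-- a small rotation changes a multilinear map little -/
lemma norm_comp_lin_sub_le {j : ℕ} {G : Type*} [NormedAddCommGroup G] [NormedSpace ℝ G]
    (T : ContinuousMultilinearMap ℝ (fun _ : Fin j => Vec n × Vec m × ℝ) G) (R : Vec m ≃ₗᵢ[ℝ] Vec m)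
    {δ : ℝ} (hδ : 0 ≤ δ) (h : ∀ ν, ‖R ν - ν‖ ≤ δ * ‖ν‖) :
    ‖T.compContinuousLinearMap (fun _ => (lin n R : (Vec n × Vec m × ℝ) →L[ℝ] _)) - T‖ ≤ ‖T‖ * (j * δ) := by
  refine ContinuousMultilinearMap.opNorm_le_bound (by positivity) fun v => ?_
  rw [sub_apply, ContinuousMultilinearMap.compContinuousLinearMap_apply]
  refine (T.norm_image_sub_le' (fun i => lin n R (v i)) v).trans ?_
  rw [mul_assoc]
  refine mul_le_mul_of_nonneg_left ?_ (norm_nonneg _)
  have h1 : ∀ i : Fin j, (∏ l, if l = i then ‖lin n R (v i) - v i‖ else max ‖lin n R (v l)‖ ‖v l‖) ≤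
      δ * ∏ l, ‖v l‖ := by
    intro i
    have h2 : ‖lin n R (v i) - v i‖ ≤ δ * ‖v i‖ := by
      have h3 : lin n R (v i) - v i = (0, R (v i).2.1 - (v i).2.1, 0) := by
        rw [lin_apply]
        ext1
        · simp
        · ext1 <;> simp
      rw [h3]
      simp only [Prod.norm_def, norm_zero]
      have h4 := h (v i).2.1
      have h5 : ‖(v i).2.1‖ ≤ ‖v i‖ := (norm_fst_le _).trans (norm_snd_le _)
      refine max_le (by positivity) (max_le (h4.trans ?_) (by positivity))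
      exact mul_le_mul_of_nonneg_left h5 hδ
    have h6 : ∏ l, ‖v l‖ = ‖v i‖ * ∏ l ∈ Finset.univ.erase i, ‖v l‖ :=
      (Finset.mul_prod_erase _ _ (Finset.mem_univ i)).symm
    have h7 : (∏ l, if l = i then ‖lin n R (v i) - v i‖ else max ‖lin n R (v l)‖ ‖v l‖) =
        ‖lin n R (v i) - v i‖ * ∏ l ∈ Finset.univ.erase i, ‖v l‖ := by
      rw [← Finset.mul_prod_erase _ _ (Finset.mem_univ i)]
      rw [if_pos rfl]
      congr 1
      refine Finset.prod_congr rfl fun l hl => ?_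
      rw [if_neg (Finset.ne_of_mem_erase hl), norm_lin, max_self]
    rw [h6, h7, ← mul_assoc]
    exact mul_le_mul_of_nonneg_right h2 (Finset.prod_nonneg fun _ _ => norm_nonneg _)
  refine (Finset.sum_le_sum fun i _ => h1 i).trans (le_of_eq ?_)
  rw [Finset.sum_const, Finset.card_univ, Fintype.card_fin, nsmul_eq_mul]
  ring

lemma jet_contOn {k : ℕ∞} (F : Pot M k) {j : ℕ} (hj : (j : ℕ∞) ≤ k) :
    ContinuousOn (iteratedFDeriv ℝ j F.toFun) {q | q.2.1 ∈ M.U} := by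
  have h1 := F.contDiff.continuousOn_iteratedFDerivWithin (m := j) (WithTop.coe_le_coe.2 hj)
    (isOpen_dom M).uniqueDiffOn
  exact h1.congr fun q hq => (iteratedFDerivWithin_of_isOpen j (isOpen_dom M) hq).symm

/-- the compact cube of the lattice -/
def cube (M : FlatBundle n m) : Set (Vec n) := (fun θ : Fin n → ℝ => ∑ i, θ i • M.τ i) '' Icc 0 1

lemma cube_compact (M : FlatBundle n m) : IsCompact (cube M) :=
  isCompact_Icc.image (continuous_finsetSum _ fun i _ => (continuous_apply i).smul continuous_const)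

/-- reduction to the cube -/
lemma exists_deck (hC : InvC M C) (x : Vec n) (t : ℝ) : ∃ (w : Vec n) (R : Vec m ≃ₗᵢ[ℝ] Vec m) (c : ℝ),
    Deck M C w R c ∧ x + w ∈ cube M ∧ t + c ∈ Icc (0:ℝ) 1 := by
  classical
  have hspan : ∃ a : Fin n → ℝ, ∑ i, a i • M.τ i = x := by
    have h1 : Submodule.span ℝ (range M.τ) = ⊤ := M.li.span_eq_top_of_card_eq_finrank' (by simp)
    have h2 : x ∈ Submodule.span ℝ (range M.τ) := by rw [h1]; trivial
    exact (Submodule.mem_span_range_iff_exists_fun ℝ).1 h2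
  obtain ⟨a, ha⟩ := hspan
  have hd : ∀ s : Finset (Fin n), ∃ R : Vec m ≃ₗᵢ[ℝ] Vec m,
      Deck M C (∑ i ∈ s, ((-⌊a i⌋ : ℤ) : ℝ) • M.τ i) R 0 := by
    intro s
    induction s using Finset.induction_on with
    | empty => exact ⟨1, by simpa using (Deck.one (M := M) (C := C))⟩
    | insert i s hi ih =>
      obtain ⟨R, hR⟩ := ih
      have h1 := ((deck_gen hC i).zpow (-⌊a i⌋)).mul hR
      rw [mul_zero, add_zero] at h1
      exact ⟨_, by rw [Finset.sum_insert hi]; exact h1⟩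
  obtain ⟨R, hR⟩ := hd Finset.univ
  have h2 := hR.mul ((deck_time (M := M) (C := C)).zpow (-⌊t⌋))
  rw [smul_zero, add_zero, zero_add, mul_one] at h2
  refine ⟨_, _, _, h2, ⟨fun i => Int.fract (a i), ⟨fun i => Int.fract_nonneg _, fun i =>
    (Int.fract_lt_one _).le⟩, ?_⟩, ?_⟩
  · rw [← ha, ← Finset.sum_add_distrib]
    refine Finset.sum_congr rfl fun i _ => ?_
    rw [← add_smul]
    congr 1
    simp only [Int.fract]
    push_cast
    ring
  · push_cast
    rw [← sub_eq_add_neg]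
    exact ⟨Int.fract_nonneg t, (Int.fract_lt_one t).le⟩

/-- the derivatives are bounded on `ℝⁿ × C × ℝ` -/
theorem jet_bdd {k : ℕ∞} (F : Pot M k) {j : ℕ} (hj : (j : ℕ∞) ≤ k) (hC : IsCompact C) (hCU : C ⊆ M.U)
    (hCi : InvC M C) : ∃ B : ℝ, 0 ≤ B ∧ ∀ x ν t, ν ∈ C → ‖iteratedFDeriv ℝ j F.toFun (x, ν, t)‖ ≤ B := by
  have hcp : IsCompact (cube M ×ˢ C ×ˢ Icc (0:ℝ) 1) := (cube_compact M).prod (hC.prod isCompact_Icc)
  have hsub : cube M ×ˢ C ×ˢ Icc (0:ℝ) 1 ⊆ {q | q.2.1 ∈ M.U} := fun q hq => hCU hq.2.1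
  obtain ⟨B, hB⟩ := hcp.exists_bound_of_continuousOn ((jet_contOn F hj).mono hsub)
  refine ⟨max B 0, le_max_right _ _, fun x ν t hν => ?_⟩
  obtain ⟨w, R, c, hD, hx, ht⟩ := exists_deck hCi x t
  have h1 := jet_deck F.periodic hD j (x, ν, t) (hCU hν)
  rw [← h1]
  refine (norm_comp_lin_le _ R).trans ((hB _ ⟨hx, (hD.memC ν).2 hν, ht⟩).trans (le_max_left _ _))

/-- the derivatives are uniformly continuous on `ℝⁿ × C × ℝ` -/
theorem jet_uc {k : ℕ∞} (F : Pot M k) {j : ℕ} (hj : (j : ℕ∞) ≤ k) (hC : IsCompact C) (hCU : C ⊆ M.U)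
    (hCi : InvC M C) {δ : ℝ} (hδ : 0 < δ) : ∃ ρ > 0, ∀ x ν t x' ν' t', ν ∈ C → ν' ∈ C →
      dist x x' ≤ ρ → dist ν ν' ≤ ρ → dist t t' ≤ ρ →
      ‖iteratedFDeriv ℝ j F.toFun (x, ν, t) - iteratedFDeriv ℝ j F.toFun (x', ν', t')‖ ≤ δ := by
  have hcp : IsCompact (Metric.cthickening 1 (cube M) ×ˢ C ×ˢ Metric.cthickening 1 (Icc (0:ℝ) 1)) :=
    ((cube_compact M).cthickening).prod (hC.prod isCompact_Icc.cthickening)
  have hsub : Metric.cthickening 1 (cube M) ×ˢ C ×ˢ Metric.cthickening 1 (Icc (0:ℝ) 1) ⊆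
      {q | q.2.1 ∈ M.U} := fun q hq => hCU hq.2.1
  have hu := hcp.uniformContinuousOn_of_continuous ((jet_contOn F hj).mono hsub)
  rw [Metric.uniformContinuousOn_iff] at hu
  obtain ⟨ρ, hρ, h⟩ := hu δ hδ
  refine ⟨min (ρ / 2) 1, by positivity, fun x ν t x' ν' t' hν hν' hx hν2 ht => ?_⟩
  obtain ⟨w, R, c, hD, hxw, htc⟩ := exists_deck hCi x t
  have h1 := jet_deck F.periodic hD j (x, ν, t) (hCU hν)
  have h2 := jet_deck F.periodic hD j (x', ν', t') (hCU hν')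
  have e : iteratedFDeriv ℝ j F.toFun (x, ν, t) - iteratedFDeriv ℝ j F.toFun (x', ν', t') =
      (iteratedFDeriv ℝ j F.toFun (x + w, R ν, t + c) -
        iteratedFDeriv ℝ j F.toFun (x' + w, R ν', t' + c)).compContinuousLinearMap
          (fun _ => (lin n R : (Vec n × Vec m × ℝ) →L[ℝ] _)) := by
    rw [← h1, ← h2]
    rfl
  rw [e]
  refine (norm_comp_lin_le _ R).trans (le_of_lt ?_)
  rw [← dist_eq_norm]
  refine h _ ⟨Metric.self_subset_cthickening _ hxw, (hD.memC ν).2 hν, Metric.self_subset_cthickening _ htc⟩ _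
    ⟨?_, (hD.memC ν').2 hν', ?_⟩ ?_
  · refine Metric.mem_cthickening_of_dist_le _ (x + w) 1 _ hxw ?_
    rw [dist_add_right, dist_comm]
    exact hx.trans (min_le_right _ _)
  · refine Metric.mem_cthickening_of_dist_le _ (t + c) 1 _ htc ?_
    rw [dist_add_right, dist_comm]
    exact ht.trans (min_le_right _ _)
  · rw [Prod.dist_eq, Prod.dist_eq]
    simp only [dist_add_right, LinearIsometryEquiv.dist_map]
    have := min_le_left (ρ / 2) 1
    refine max_lt (by linarith) (max_lt (by linarith) (by linarith))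

/-- common almost periods of the derivatives along a deck transformation -/
theorem jet_ap {k : ℕ∞} (F : Pot M k) {j : ℕ} (hj : (j : ℕ∞) ≤ k) (hC : IsCompact C) (hCU : C ⊆ M.U)
    (hCi : InvC M C) {w : Vec n} {R : Vec m ≃ₗᵢ[ℝ] Vec m} (hD : Deck M C w R 0) :
    AP (fun (p : Vec n × C × ℝ) (θ : ℝ) => iteratedFDeriv ℝ j F.toFun (p.1 + θ • w, p.2.1, p.2.2)) := by
  intro δ hδ
  obtain ⟨B, hB0, hB⟩ := jet_bdd F hj hC hCU hCi
  obtain ⟨ρ, hρ, huc⟩ := jet_uc F hj hC hCU hCi (half_pos hδ)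
  obtain ⟨A, hA⟩ := hC.isBounded.exists_norm_le
  obtain ⟨δ', hδ', h1, h2⟩ : ∃ δ' > 0, B * (j * δ') ≤ δ / 2 ∧ δ' * |A| ≤ ρ := by
    refine ⟨min (δ / 2 / (B * j + 1)) (ρ / (|A| + 1)), by positivity, ?_, ?_⟩
    · have h3 := min_le_left (δ / 2 / (B * j + 1)) (ρ / (|A| + 1))
      calc B * (j * min (δ / 2 / (B * j + 1)) (ρ / (|A| + 1))) =
          (B * j) * min (δ / 2 / (B * j + 1)) (ρ / (|A| + 1)) := by ring
        _ ≤ (B * j) * (δ / 2 / (B * j + 1)) := mul_le_mul_of_nonneg_left h3 (by positivity)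
        _ ≤ (B * j + 1) * (δ / 2 / (B * j + 1)) := by
            apply mul_le_mul_of_nonneg_right (by linarith) (by positivity)
        _ = δ / 2 := mul_div_cancel₀ _ (by positivity)
    · have h3 := min_le_right (δ / 2 / (B * j + 1)) (ρ / (|A| + 1))
      calc min (δ / 2 / (B * j + 1)) (ρ / (|A| + 1)) * |A| ≤ (ρ / (|A| + 1)) * |A| :=
          mul_le_mul_of_nonneg_right h3 (abs_nonneg _)
        _ ≤ (ρ / (|A| + 1)) * (|A| + 1) := by
            apply mul_le_mul_of_nonneg_left (by linarith) (by positivity)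
        _ = ρ := div_mul_cancel₀ _ (by positivity)
  obtain ⟨L, hL⟩ := ap_iso R hδ'
  refine ⟨L, fun a => ?_⟩
  obtain ⟨q, hq1, hq2, hq⟩ := hL a
  refine ⟨q, hq1, hq2, fun ⟨x, ⟨ν, hν⟩, t⟩ θ => ?_⟩
  simp only
  set y := x + θ • w with hy
  have e1 : x + (θ + q) • w = y + (q : ℝ) • w := by rw [hy, add_smul, add_assoc]
  rw [e1]
  have hDq : Deck M C ((q : ℝ) • w) (R ^ q) 0 := by simpa using hD.zpow q
  -- `D F (y + q w, R^q ν, t)` pulled back is `D F (y, ν, t)`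
  have h3 := jet_deck F.periodic hDq j (y, ν, t) (hCU hν)
  simp only [add_zero] at h3
  have hRν : (R ^ q) ν ∈ C := (hDq.memC ν).2 hν
  have h4 : ‖iteratedFDeriv ℝ j F.toFun (y + (q : ℝ) • w, (R ^ q) ν, t) -
      iteratedFDeriv ℝ j F.toFun (y, ν, t)‖ ≤ δ / 2 := by
    rw [← h3, ← norm_neg, neg_sub]
    refine (norm_comp_lin_sub_le _ (R ^ q) hδ'.le hq).trans ?_
    exact (mul_le_mul_of_nonneg_right (hB _ _ _ hRν) (by positivity)).trans h1
  have h5 : ‖iteratedFDeriv ℝ j F.toFun (y + (q : ℝ) • w, ν, t) -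
      iteratedFDeriv ℝ j F.toFun (y + (q : ℝ) • w, (R ^ q) ν, t)‖ ≤ δ / 2 := by
    refine huc _ _ _ _ _ _ hν hRν (by simp [hρ.le]) ?_ (by simp [hρ.le])
    rw [dist_comm, dist_eq_norm]
    refine (hq ν).trans (le_trans ?_ h2)
    exact mul_le_mul_of_nonneg_left ((hA ν hν).trans (le_abs_self A)) hδ'.le
  have h6 := norm_sub_le_norm_sub_add_norm_sub (iteratedFDeriv ℝ j F.toFun (y + (q : ℝ) • w, ν, t))
    (iteratedFDeriv ℝ j F.toFun (y + (q : ℝ) • w, (R ^ q) ν, t)) (iteratedFDeriv ℝ j F.toFun (y, ν, t))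
  linarith

end EscN.T
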