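import Pool.Agent.EscN.B0
import Pool.Agent.helper42.Esc.K

/-!
Module K of the escape theorem on `(R^n x N)/Z^n` (MP_6acca1_an): facts about the minimal action
kernel of trajectories in `S`.
-/

set_option linter.unusedSectionVars false

noncomputable section

namespace EscN

open MeasureTheory Set Filter Topology Esc intervalIntegral
open scoped ContDiff

/-! ### general state spaces -/

section general

variable {E : Type*} [NormedAddCommGroup E] [InnerProductSpace ℝ E] [FiniteDimensional ℝ E]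
  {S : Set E}

theorem set_bddBelow {M : ℝ} {f : E → ℝ → ℝ} (hf : Good M f) (v : E) {a b : ℝ} (hab : a < b)
    (z z' : E) :
    BddBelow {c | ∃ u : ℝ → E, Adm u ∧ InS S a b z u ∧ traj a z u b = z' ∧ c = act f v a b z u} := by
  obtain ⟨c, hc⟩ := act_bddBelow hf v hab z z'
  refine ⟨c, ?_⟩
  rintro _ ⟨u, hu, -, h, rfl⟩
  exact hc ⟨u, hu, h, rfl⟩

theorem ker_le_act {M : ℝ} {f : E → ℝ → ℝ} (hf : Good M f) (v : E) {a b : ℝ} (hab : a < b) (z : E)
    {u : ℝ → E} (hu : Adm u) (hS : InS S a b z u) :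
    ker S f v a b z (traj a z u b) ≤ act f v a b z u :=
  csInf_le (set_bddBelow hf v hab z _) ⟨u, hu, hS, rfl, rfl⟩

theorem ker_le_act' {M : ℝ} {f : E → ℝ → ℝ} (hf : Good M f) (v : E) {a b : ℝ} (hab : a < b) {z z' : E}
    {u : ℝ → E} (hu : Adm u) (hS : InS S a b z u) (hz : traj a z u b = z') :
    ker S f v a b z z' ≤ act f v a b z u := by
  rw [← hz]; exact ker_le_act hf v hab z hu hS

/-- lower bounds of the kernel, if the end points are connected -/
theorem le_ker_of {f : E → ℝ → ℝ} {v : E} {a b : ℝ} {z z' : E}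
    (hc : ∃ u : ℝ → E, Adm u ∧ InS S a b z u ∧ traj a z u b = z') {c : ℝ}
    (h : ∀ u, Adm u → InS S a b z u → traj a z u b = z' → c ≤ act f v a b z u) :
    c ≤ ker S f v a b z z' := by
  obtain ⟨u, hu, h1, h2⟩ := hc
  refine le_csInf ⟨act f v a b z u, u, hu, h1, h2, rfl⟩ ?_
  rintro _ ⟨u, hu, hS, hz, rfl⟩
  exact h u hu hS hz

theorem exists_act_lt_of {f : E → ℝ → ℝ} {v : E} {a b : ℝ} {z z' : E}
    (hc : ∃ u : ℝ → E, Adm u ∧ InS S a b z u ∧ traj a z u b = z') {ε : ℝ} (hε : 0 < ε) :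
    ∃ u, Adm u ∧ InS S a b z u ∧ traj a z u b = z' ∧ act f v a b z u < ker S f v a b z z' + ε := by
  obtain ⟨u, hu, h1, h2⟩ := hc
  have := Real.lt_sInf_add_pos (s := {c | ∃ u : ℝ → E, Adm u ∧ InS S a b z u ∧ traj a z u b = z' ∧
    c = act f v a b z u}) ⟨_, u, hu, h1, h2, rfl⟩ hε
  obtain ⟨_, ⟨u, hu, hS, hz, rfl⟩, h⟩ := this
  exact ⟨u, hu, hS, hz, h⟩

theorem ker_time {S : Set E} {f : E → ℝ → ℝ} (h : ∀ x t, f x (t + 1) = f x t) (v : E) (a b : ℝ) (z z' : E) :
    ker S f v (a + 1) (b + 1) z z' = ker S f v a b z z' := by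
  unfold ker
  congr 1
  ext c
  constructor
  · rintro ⟨u, hu, h0, h1, h2⟩
    refine ⟨fun s => u (s + 1), hu.comp_add 1, fun t ht => ?_, by rw [traj_comp_add, h1],
      by rw [h2, act_comp_add h]⟩
    rw [traj_comp_add]
    exact h0 (t + 1) ⟨by linarith [ht.1], by linarith [ht.2]⟩
  · rintro ⟨u, hu, h0, h1, h2⟩
    have hu' : (fun s => (fun r => u (r + -1)) (s + 1)) = u := by ext s; simp
    refine ⟨fun s => u (s + -1), hu.comp_add (-1), fun t ht => ?_, ?_, ?_⟩
    · have h3 := traj_comp_add (u := fun r => u (r + -1)) a 1 z (t - 1)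
      rw [hu', sub_add_cancel] at h3
      rw [← h3]
      exact h0 (t - 1) ⟨by linarith [ht.1], by linarith [ht.2]⟩
    · rw [← traj_comp_add (u := fun r => u (r + -1)) a 1 z b, hu', h1]
    · rw [← act_comp_add h, hu', h2]

theorem traj_iso (A : E ≃ₗᵢ[ℝ] E) (c : E) {u : ℝ → E} (hu : Adm u) (a : ℝ) (z : E) (t : ℝ) :
    traj a (A z + c) (fun s => A (u s)) t = A (traj a z u t) + c := by
  unfold traj
  have h1 : (∫ s in a..t, A (u s)) = A (∫ s in a..t, u s) :=
    (A.toContinuousLinearEquiv : E →L[ℝ] E).intervalIntegral_comp_comm (hu.ii a t)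
  rw [h1, map_add]
  abel

theorem Adm.iso (A : E ≃ₗᵢ[ℝ] E) {u : ℝ → E} (hu : Adm u) : Adm (fun s => A (u s)) := by
  obtain ⟨hm, C, hC⟩ := hu
  exact ⟨A.continuous.comp_stronglyMeasurable hm, C, fun t => by rw [A.norm_map]; exact hC t⟩

theorem ker_iso_sub {f : E → ℝ → ℝ} (A : E ≃ₗᵢ[ℝ] E) (c : E) (hS : ∀ x ∈ S, A x + c ∈ S) {v : E}
    (hv : A v = v) (hf : ∀ x t, f (A x + c) t = f x t) (a b : ℝ) (z z' : E) :
    {c | ∃ u : ℝ → E, Adm u ∧ InS S a b z u ∧ traj a z u b = z' ∧ c = act f v a b z u} ⊆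
    {x | ∃ u : ℝ → E, Adm u ∧ InS S a b (A z + c) u ∧ traj a (A z + c) u b = A z' + c ∧
      x = act f v a b (A z + c) u} := by
  rintro _ ⟨u, hu, h0, h1, rfl⟩
  refine ⟨fun s => A (u s), Adm.iso A hu, fun t ht => ?_, ?_, ?_⟩
  · rw [traj_iso A c hu]; exact hS _ (h0 t ht)
  · rw [traj_iso A c hu, h1]
  · unfold act
    congr 1
    ext t
    rw [traj_iso A c hu, hf]
    congr 2
    have : A (u t) - v = A (u t - v) := by rw [map_sub, hv]
    rw [this, A.norm_map]

theorem ker_iso {f : E → ℝ → ℝ} (A : E ≃ₗᵢ[ℝ] E) (c : E) (hS : ∀ x, A x + c ∈ S ↔ x ∈ S) {v : E}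
    (hv : A v = v) (hf : ∀ x t, f (A x + c) t = f x t) (a b : ℝ) (z z' : E) :
    ker S f v a b (A z + c) (A z' + c) = ker S f v a b z z' := by
  unfold ker
  congr 1
  apply Subset.antisymm
  · have key : ∀ x, A.symm x + -(A.symm c) = A.symm (x - c) := fun x => by rw [map_sub]; abel
    have h := ker_iso_sub (S := S) (f := f) A.symm (-(A.symm c)) (fun x hx => by
        rw [key, ← hS, A.apply_symm_apply, sub_add_cancel]; exact hx)
      (v := v) (by rw [← hv, A.symm_apply_apply, hv]) (fun x t => by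
        rw [key, ← hf, A.apply_symm_apply, sub_add_cancel]) a b (A z + c) (A z' + c)
    rw [key, key, add_sub_cancel_right, add_sub_cancel_right, A.symm_apply_apply,
      A.symm_apply_apply] at h
    exact h
  · exact ker_iso_sub A c (fun x hx => (hS x).mpr hx) hv hf a b z z'

theorem InS.cat {u₁ u₂ : ℝ → E} {a b c : ℝ} {z : E} (h₁ : Adm u₁) (h₂ : Adm u₂) (hab : a ≤ b)
    (hS₁ : InS S a b z u₁) (hS₂ : InS S b c (traj a z u₁ b) u₂) : InS S a c z (Esc.cat b u₁ u₂) := by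
  intro t ht
  rcases le_total t b with h | h
  · rw [traj_cat_left hab h]; exact hS₁ t ⟨ht.1, h⟩
  · rw [traj_cat_right h₁ h₂ hab h]; exact hS₂ t ⟨h, ht.2⟩

theorem act_sub_le {M ρ : ℝ} {f f' : E → ℝ → ℝ} (hf : Good M f) (hf' : Good M f')
    (h : ∀ x ∈ S, ∀ t, f x t ≤ f' x t + ρ) (v : E) {a b : ℝ} (hab : a ≤ b) (z : E) {u : ℝ → E}
    (hu : Adm u) (hS : InS S a b z u) : act f v a b z u ≤ act f' v a b z u + ρ * (b - a) := by
  rw [act_eq hf v a b z hu, act_eq hf' v a b z hu]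
  have h1 : (∫ t in a..b, f (traj a z u t) t) ≤ ∫ t in a..b, (f' (traj a z u t) t + ρ) :=
    integral_mono_on hab (f_traj_ii hf hu a z a b) ((f_traj_ii hf' hu a z a b).add (by simp))
      (fun t ht => h _ (hS t ht) _)
  rw [integral_add (f_traj_ii hf' hu a z a b) (by simp)] at h1
  simp only [intervalIntegral.integral_const, smul_eq_mul] at h1
  linarith

end general

/-! ### the state space `L.S` -/

section ModuleK

variable {d : ℕ} {E : Type*} [NormedAddCommGroup E] [InnerProductSpace ℝ E] [FiniteDimensional ℝ E]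
  (L : Sp d E)

theorem kq_add (x x' : E) : L.Q (x + x') = L.Q x + L.Q x' := by
  unfold Sp.Q Sp.y
  rw [map_add, inner_add_right, add_smul]; abel

theorem kq_smul (c : ℝ) (x : E) : L.Q (c • x) = c • L.Q x := by
  unfold Sp.Q Sp.y
  rw [map_smul, real_inner_smul_right, smul_sub, smul_sub, smul_smul]

theorem kq_sub (x x' : E) : L.Q (x - x') = L.Q x - L.Q x' := by
  have h := kq_add L (x - x') x'
  rw [sub_add_cancel] at h
  rw [h]; abel

theorem ky_e : L.y L.e = 1 := by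
  show inner ℝ L.e L.e = 1
  rw [real_inner_self_eq_norm_sq, L.norm_e]; norm_num

theorem kP_Q (x : E) : L.P (L.Q x) = 0 := by
  unfold Sp.Q
  rw [map_sub, map_sub, map_smul, L.P_e, P_P]; simp

theorem ky_Q (x : E) : L.y (L.Q x) = 0 := by
  have h1 : L.y (L.Q x) = L.y x - L.y (L.P x) - L.y x * L.y L.e := by
    unfold Sp.Q Sp.y
    rw [inner_sub_right, inner_sub_right, real_inner_smul_right]
  rw [h1, y_P, ky_e]; ring

theorem kQ_W (x : E) : L.Q (x - L.Q x) = 0 := by
  rw [kq_sub]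
  have : L.Q (L.Q x) = L.Q x := by
    conv_lhs => unfold Sp.Q
    have h1 := kP_Q L x
    have h2 := ky_Q L x
    unfold Sp.Q at h1 h2 ⊢
    rw [h1, h2]; simp
  rw [this, sub_self]

/-- orthogonality -/
theorem kq_orth {w q : E} (hw : L.Q w = 0) (h1 : L.P q = 0) (h2 : L.y q = 0) :
    ‖w + q‖ ^ 2 = ‖w‖ ^ 2 + ‖q‖ ^ 2 := by
  have h3 : w = L.P w + L.y w • L.e := by
    have : L.Q w = w - L.P w - L.y w • L.e := rfl
    rw [hw] at this
    have h4 : w - L.P w - L.y w • L.e = 0 := this.symm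
    rw [sub_sub, sub_eq_zero] at h4
    exact h4
  have h5 : inner ℝ w q = 0 := by
    rw [h3, inner_add_left, L.P_sym, h1, inner_zero_right, real_inner_smul_left]
    have : inner ℝ L.e q = 0 := h2
    rw [this]; simp
  rw [norm_add_sq_real, h5]; ring

/-- connecting path with bounded velocity -/
theorem exists_path {a b : ℝ} (hab : a < b) {z z' : E} (hz : z ∈ L.S) (hz' : z' ∈ L.S) :
    ∃ u : ℝ → E, Adm u ∧ InS L.S a b z u ∧ traj a z u b = z' ∧ ∀ v, L.Q v = 0 → ∀ t,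
      ‖u t - v‖ ^ 2 ≤ (‖z' - z - (b - a) • v‖ ^ 2 + L.Cc ^ 2) / (b - a) ^ 2 := by
  have hba : 0 < b - a := by linarith
  set W : E := (z' - z) - L.Q (z' - z) with hW
  have hQW : L.Q W = 0 := kQ_W L _
  have hx' : z' + (-1:ℝ) • W ∈ L.S := S_add_W L hz' (by rw [kq_smul, hQW, smul_zero])
  have ex' : z' + (-1:ℝ) • W = z + L.Q (z' - z) := by rw [hW]; module
  rw [ex'] at hx'
  obtain ⟨u0, ⟨hm, C, hC⟩, hb, hF, hin, hend⟩ := L.S_conn z hz (z + L.Q (z' - z)) hx'
    (by rw [map_add, kP_Q, add_zero]) (by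
      have := ky_Q L (z' - z)
      unfold Sp.y at this
      rw [inner_add_right, this, add_zero])
  set c : ℝ := 1 / (b - a) with hc
  have hc0 : 0 < c := by positivity
  have hcb : c * (b - a) = 1 := by rw [hc]; field_simp
  set u : ℝ → E := fun t => c • W + c • u0 (c * t - c * a) with hu
  have hm1 : StronglyMeasurable fun t : ℝ => u0 (c * t - c * a) :=
    hm.comp_measurable (by fun_prop)
  have hA0 : Adm (fun t : ℝ => c • u0 (c * t - c * a)) := by
    refine ⟨hm1.const_smul c, c * C, fun t => ?_⟩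
    rw [norm_smul, Real.norm_of_nonneg hc0.le]
    exact mul_le_mul_of_nonneg_left (hC _) hc0.le
  have hAu : Adm u := by
    have := hA0.add_const (c • W)
    have e : u = fun t => c • u0 (c * t - c * a) + c • W := by
      ext t
      show c • W + c • u0 (c * t - c * a) = _
      abel
    rw [e]; exact this
  have htr : ∀ t, traj a z u t = traj 0 z u0 (c * t - c * a) + (c * (t - a)) • W := by
    intro t
    have h1 : (∫ s in a..t, u s) = (∫ s in a..t, c • W) + ∫ s in a..t, c • u0 (c * s - c * a) := by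
      rw [hu]
      exact integral_add (by simp) (hA0.ii a t)
    have h2 := intervalIntegral.smul_integral_comp_mul_sub (a := a) (b := t) u0 c (c * a)
    have h3 : (∫ s in a..t, c • u0 (c * s - c * a)) = c • ∫ s in a..t, u0 (c * s - c * a) :=
      intervalIntegral.integral_smul _ _
    unfold traj
    rw [h1, h3, h2, sub_self, intervalIntegral.integral_const, smul_smul]
    rw [mul_comm (t - a) c]
    abel
  refine ⟨u, hAu, ?_, ?_, ?_⟩
  · intro t ht
    rw [htr]
    apply S_add_W L _ (by rw [kq_smul, hQW, smul_zero])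
    apply hin
    constructor
    · nlinarith [ht.1]
    · have : c * t - c * a = c * (b - a) - c * (b - t) := by ring
      rw [this, hcb]
      nlinarith [ht.2]
  · rw [htr]
    have : c * b - c * a = 1 := by rw [← hcb]; ring
    rw [this, hcb, hend, one_smul, hW]
    abel
  · intro v hv t
    have e1 : u t - v = (c • W - v) + c • u0 (c * t - c * a) := by
      show c • W + c • u0 (c * t - c * a) - v = _
      abel
    obtain ⟨hP, hy⟩ := hF (c * t - c * a)
    rw [e1, kq_orth L (by rw [kq_sub, kq_smul, hQW, hv]; simp) (by rw [map_smul, hP, smul_zero])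
      (by unfold Sp.y; rw [real_inner_smul_right, hy, mul_zero])]
    have e2 : c • W - v = c • (W - (b - a) • v) := by
      rw [smul_sub c W, smul_smul, hcb, one_smul]
    rw [e2, norm_smul, norm_smul, mul_pow, mul_pow, Real.norm_of_nonneg hc0.le]
    have e3 : ‖z' - z - (b - a) • v‖ ^ 2 = ‖W - (b - a) • v‖ ^ 2 + ‖L.Q (z' - z)‖ ^ 2 := by
      rw [← kq_orth L (w := W - (b - a) • v) (q := L.Q (z' - z)) (by
        rw [kq_sub, kq_smul, hQW, hv]; simp) (kP_Q L _) (ky_Q L _)]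
      congr 2
      rw [hW]; abel
    have e4 : ‖u0 (c * t - c * a)‖ ^ 2 ≤ L.Cc ^ 2 := by
      have := hb (c * t - c * a)
      have h0 := norm_nonneg (u0 (c * t - c * a))
      gcongr
    rw [e3, div_eq_mul_inv]
    have e5 : ((b - a) ^ 2)⁻¹ = c ^ 2 := by rw [hc]; field_simp
    rw [e5]
    have e6 : 0 ≤ ‖L.Q (z' - z)‖ ^ 2 := by positivity
    have e7 : 0 < c ^ 2 := by positivity
    nlinarith

theorem conn {a b : ℝ} (hab : a < b) {z z' : E} (hz : z ∈ L.S) (hz' : z' ∈ L.S) :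
    ∃ u : ℝ → E, Adm u ∧ InS L.S a b z u ∧ traj a z u b = z' := by
  obtain ⟨u, h1, h2, h3, -⟩ := exists_path L hab hz hz'
  exact ⟨u, h1, h2, h3⟩

theorem le_ker {f : E → ℝ → ℝ} {v : E} {a b : ℝ} (hab : a < b) {z z' : E} (hz : z ∈ L.S)
    (hz' : z' ∈ L.S) {c : ℝ}
    (h : ∀ u, Adm u → InS L.S a b z u → traj a z u b = z' → c ≤ act f v a b z u) :
    c ≤ ker L.S f v a b z z' := le_ker_of (conn L hab hz hz') h

theorem exists_act_lt {M : ℝ} {f : E → ℝ → ℝ} (_hf : Good M f) (v : E) {a b : ℝ} (hab : a < b) {z z' : E}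
    (hz : z ∈ L.S) (hz' : z' ∈ L.S) {ε : ℝ} (hε : 0 < ε) :
    ∃ u, Adm u ∧ InS L.S a b z u ∧ traj a z u b = z' ∧ act f v a b z u < ker L.S f v a b z z' + ε :=
  exists_act_lt_of (conn L hab hz hz') hε

theorem ker_galilei {M : ℝ} {f : E → ℝ → ℝ} (hf : Good M f) (v : E) {a b : ℝ} (hab : a < b) {z z' : E}
    (hz : z ∈ L.S) (hz' : z' ∈ L.S) :
    ker L.S f v a b z z' = ker L.S f 0 a b z z' - inner ℝ v (z' - z) + (b - a) * ‖v‖ ^ 2 / 2 := by
  apply le_antisymm
  · have : ker L.S f v a b z z' + inner ℝ v (z' - z) - (b - a) * ‖v‖ ^ 2 / 2 ≤ ker L.S f 0 a b z z' := by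
      apply le_ker L hab hz hz'
      rintro u hu hS rfl
      have h1 := ker_le_act hf v hab z hu hS
      rw [act_galilei hf v z hu] at h1
      linarith
    linarith
  · apply le_ker L hab hz hz'
    rintro u hu hS rfl
    have h1 := ker_le_act hf 0 hab z hu hS
    rw [act_galilei hf v z hu]
    linarith

theorem ker_lower {M : ℝ} {f : E → ℝ → ℝ} (hf : Good M f) (v : E) {a b : ℝ} (hab : a < b) {z z' : E}
    (hz : z ∈ L.S) (hz' : z' ∈ L.S) :
    ‖z' - z - (b - a) • v‖ ^ 2 / (2 * (b - a)) - M * (b - a) ≤ ker L.S f v a b z z' := by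
  apply le_ker L hab hz hz'
  rintro u hu - rfl
  exact act_lower hf v hab z hu

theorem ker_upper {M : ℝ} {f : E → ℝ → ℝ} (hf : Good M f) {v : E} (hv : L.Q v = 0) {a b : ℝ} (hab : a < b)
    {z z' : E} (hz : z ∈ L.S) (hz' : z' ∈ L.S) :
    ker L.S f v a b z z' ≤ (‖z' - z - (b - a) • v‖ ^ 2 + L.Cc ^ 2) / (2 * (b - a)) + M * (b - a) := by
  obtain ⟨u, h1, h2, h3, h4⟩ := exists_path L hab hz hz'
  refine (ker_le_act' hf v hab h1 h2 h3).trans ?_
  rw [act_eq hf v a b z h1]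
  have h5 := (abs_le.mp (f_int_bd hf (u := u) a z hab.le)).2
  have hba : 0 < b - a := by linarith
  set K := ‖z' - z - (b - a) • v‖ ^ 2 + L.Cc ^ 2 with hK
  have h6 : (∫ t in a..b, ‖u t - v‖ ^ 2 / 2) ≤ ∫ _t in a..b, (K / (b - a) ^ 2) / 2 := by
    apply integral_mono_on hab.le ((h1.sub_const v).sq_ii a b) (by simp)
    intro t _
    have := h4 v hv t
    linarith
  have h7 : (∫ _t in a..b, (K / (b - a) ^ 2) / 2) = K / (2 * (b - a)) := by
    rw [intervalIntegral.integral_const, smul_eq_mul]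
    field_simp
  linarith

theorem ker_le_add {M ρ : ℝ} {f f' : E → ℝ → ℝ} (hf : Good M f) (hf' : Good M f')
    (h : ∀ x ∈ L.S, ∀ t, f x t ≤ f' x t + ρ) (v : E) {a b : ℝ} (hab : a < b) {z z' : E}
    (hz : z ∈ L.S) (hz' : z' ∈ L.S) :
    ker L.S f v a b z z' ≤ ker L.S f' v a b z z' + ρ * (b - a) := by
  have : ker L.S f v a b z z' - ρ * (b - a) ≤ ker L.S f' v a b z z' := by
    apply le_ker L hab hz hz'
    intro u hu hS hz
    have h1 := ker_le_act' hf v hab hu hS hz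
    have h2 := act_sub_le hf hf' h v hab.le z hu hS
    linarith
  linarith

theorem ker_sub_le {M ρ : ℝ} {f f' : E → ℝ → ℝ} (hf : Good M f) (hf' : Good M f')
    (h : ∀ x ∈ L.S, ∀ t, |f x t - f' x t| ≤ ρ) (v : E) {a b : ℝ} (hab : a < b) {z z' : E}
    (hz : z ∈ L.S) (hz' : z' ∈ L.S) :
    |ker L.S f v a b z z' - ker L.S f' v a b z z'| ≤ ρ * (b - a) := by
  have h1 := ker_le_add L (ρ := ρ) hf hf' (fun x hx t => by linarith [(abs_le.mp (h x hx t)).2]) v hab hz hz'
  have h2 := ker_le_add L (ρ := ρ) hf' hf (fun x hx t => by linarith [(abs_le.mp (h x hx t)).1]) v hab hz hz'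
  rw [abs_le]; constructor <;> linarith

theorem ker_mono {M : ℝ} {f f' : E → ℝ → ℝ} (hf : Good M f) (hf' : Good M f')
    (h : ∀ x t, f x t ≤ f' x t) (v : E) {a b : ℝ} (hab : a < b) {z z' : E}
    (hz : z ∈ L.S) (hz' : z' ∈ L.S) : ker L.S f v a b z z' ≤ ker L.S f' v a b z z' := by
  have := ker_le_add L (ρ := 0) hf hf' (fun x _ t => by linarith [h x t]) v hab hz hz'
  simpa using this

theorem kO_W (n : Fin d → ℤ) {w : E} (hw : L.Q w = 0) : L.O n w = w := by
  have h := dk_add_W L n 0 w hw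
  unfold Sp.dk at h
  rw [map_add, map_zero, zero_add, zero_add, add_comm] at h
  exact add_left_cancel h

theorem kOg_W {w : E} (hw : L.Q w = 0) : L.Og w = w := by
  have h := gd_add_W L 0 w hw
  unfold Sp.gd at h
  rw [map_add, map_zero, zero_add, zero_add, add_comm] at h
  exact add_left_cancel h

theorem ker_dk {f : E → ℝ → ℝ} (n : Fin d → ℤ) (h : ∀ x t, f (L.dk n x) t = f x t) {v : E} (hv : L.Q v = 0)
    (a b : ℝ) (z z' : E) : ker L.S f v a b (L.dk n z) (L.dk n z') = ker L.S f v a b z z' :=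
  ker_iso (L.O n) (L.lv n) (fun _ => S_dk L n) (kO_W L n hv) h a b z z'

theorem ker_gd {f : E → ℝ → ℝ} (h : ∀ x t, f (L.gd x) t = f x t) {v : E} (hv : L.Q v = 0)
    (a b : ℝ) (z z' : E) : ker L.S f v a b (L.gd z) (L.gd z') = ker L.S f v a b z z' :=
  ker_iso L.Og L.g (fun _ => S_gd L) (kOg_W L hv) h a b z z'

/-- dynamic programming inequality -/
theorem ker_le_ker_add {M : ℝ} {f : E → ℝ → ℝ} (hf : Good M f) (v : E) {a b c : ℝ} (hab : a < b)
    (hbc : b < c) {z x z' : E} (hz : z ∈ L.S) (hx : x ∈ L.S) (hz' : z' ∈ L.S) :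
    ker L.S f v a c z z' ≤ ker L.S f v a b z x + ker L.S f v b c x z' := by
  apply le_of_forall_pos_le_add
  intro ε hε
  obtain ⟨u₁, h₁, s₁, e₁, l₁⟩ := exists_act_lt L hf v hab hz hx (half_pos hε)
  obtain ⟨u₂, h₂, s₂, e₂, l₂⟩ := exists_act_lt L hf v hbc hx hz' (half_pos hε)
  have h3 := ker_le_act' hf v (hab.trans hbc) (z := z) (z' := z') (h₁.cat h₂ b)
    (InS.cat h₁ h₂ hab.le s₁ (by rw [e₁]; exact s₂))
    (by rw [traj_cat_right h₁ h₂ hab.le hbc.le, e₁, e₂])
  rw [act_cat hf v hab.le hbc.le z h₁ h₂, e₁] at h3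
  linarith

end ModuleK

end EscN
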