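import Pool.Agent.EscN.K
import Pool.Agent.EscN.O2

/-!
Module K, part 2: continuity of the kernel on `S x S`.
-/

noncomputable section

namespace EscN

open MeasureTheory Set Filter Topology Esc intervalIntegral
open scoped ContDiff

section ModuleK

variable {d : ℕ} {E : Type*} [NormedAddCommGroup E] [InnerProductSpace ℝ E] [FiniteDimensional ℝ E]
  (L : Sp d E)

theorem conn' : Conn L.S := fun _ _ hab _ hz _ hz' => conn L hab hz hz'

theorem ker_continuousOn {M : ℝ} {f : E → ℝ → ℝ} (hf : Good M f) (v : E) {a b : ℝ} (hab : a < b) :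
    ContinuousOn (fun p : E × E => ker L.S f v a b p.1 p.2) (L.S ×ˢ L.S) := by
  have hba : 0 < b - a := by linarith
  obtain ⟨C, hC0, hvar⟩ := ker_var_gen L.ret (conn' L) M
  have hvar0 := fun z hz z' hz' ζ ξ m h1 h2 h3 => hvar f hf 0 (fun x => by simp) a b hab z hz z' hz' ζ ξ m h1 h2 h3
  have hr0 := L.ret.r0_pos
  have key : ContinuousOn (fun p : E × E => ker L.S f 0 a b p.1 p.2) (L.S ×ˢ L.S) := by
    rintro ⟨z, z'⟩ ⟨hz, hz'⟩
    simp only at hz hz'
    set K := ker L.S f 0 a b z z' with hK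
    set m : E × E → ℝ := fun p => ‖p.1 - z‖ + ‖p.2 - z'‖ with hm
    have hmc : Continuous m := by rw [hm]; fun_prop
    have hm0 : m (z, z') = 0 := by simp [hm]
    have hev : ∀ᶠ p in 𝓝[L.S ×ˢ L.S] (z, z'), m p ≤ L.r0 ∧ p ∈ L.S ×ˢ L.S := by
      have h1 : ∀ᶠ p in 𝓝 (z, z'), m p < L.r0 :=
        hmc.continuousAt.eventually_lt continuousAt_const (by rw [hm0]; exact hr0)
      filter_upwards [mem_nhdsWithin_of_mem_nhds h1, self_mem_nhdsWithin] with p h2 h3
      exact ⟨le_of_lt h2, h3⟩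
    set UB : E × E → ℝ := fun p => (‖p.2 - p.1 - (b - a) • (0:E)‖ ^ 2 + L.Cc ^ 2) / (2 * (b - a))
      + M * (b - a) with hUB
    set U : E × E → ℝ := fun p => K + inner ℝ (z' - z - (b - a) • (0:E)) (p.2 - z' - (p.1 - z)) / (b - a)
      + C * (‖p.2 - z' - (p.1 - z)‖ ^ 2 / (b - a) + m p * (2 * (K + M * (b - a)) + (b - a))) with hU
    set W : E × E → ℝ := fun p => K - (inner ℝ (p.2 - p.1 - (b - a) • (0:E)) (z' - p.2 - (z - p.1)) / (b - a)
      + C * (‖z' - p.2 - (z - p.1)‖ ^ 2 / (b - a) + m p * (2 * (UB p + M * (b - a)) + (b - a)))) with hW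
    have hUc : Continuous U := by rw [hU]; fun_prop
    have hWc : Continuous W := by rw [hW, hUB]; fun_prop
    have hU0 : U (z, z') = K := by rw [hU]; simp [hm0]
    have hW0 : W (z, z') = K := by rw [hW]; simp [hm0]
    have tU : Tendsto U (𝓝[L.S ×ˢ L.S] (z, z')) (𝓝 K) := by
      have := hUc.tendsto (z, z')
      rw [hU0] at this
      exact this.mono_left nhdsWithin_le_nhds
    have tW : Tendsto W (𝓝[L.S ×ˢ L.S] (z, z')) (𝓝 K) := by
      have := hWc.tendsto (z, z')
      rw [hW0] at this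
      exact this.mono_left nhdsWithin_le_nhds
    refine tendsto_of_tendsto_of_tendsto_of_le_of_le' tW tU ?_ ?_
    · filter_upwards [hev] with p hp
      obtain ⟨hp1, hp2, hp3⟩ := hp
      have n1 := norm_nonneg (p.1 - z)
      have n2 := norm_nonneg (p.2 - z')
      have h1 := hvar0 p.1 hp2 p.2 hp3 (z - p.1) (z' - p.2) (m p)
        (by rw [norm_sub_rev]; show _ ≤ ‖p.1 - z‖ + ‖p.2 - z'‖; linarith)
        (by rw [norm_sub_rev]; show _ ≤ ‖p.1 - z‖ + ‖p.2 - z'‖; linarith) hp1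
      have e1 : p.1 + (z - p.1) = z := by abel
      have e2 : p.2 + (z' - p.2) = z' := by abel
      rw [e1, e2, L.ret.id z hz, L.ret.id z' hz'] at h1
      have h2 : ker L.S f 0 a b p.1 p.2 ≤ UB p := by
        have h4 : L.Q (0:E) = 0 := by have := kq_smul L 0 (0:E); simpa using this
        exact ker_upper L hf h4 hab hp2 hp3
      have h3 : C * (‖z' - p.2 - (z - p.1)‖ ^ 2 / (b - a)
          + m p * (2 * (ker L.S f 0 a b p.1 p.2 + M * (b - a)) + (b - a)))
          ≤ C * (‖z' - p.2 - (z - p.1)‖ ^ 2 / (b - a) + m p * (2 * (UB p + M * (b - a)) + (b - a))) := by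
        have hmp : 0 ≤ m p := by show 0 ≤ ‖p.1 - z‖ + ‖p.2 - z'‖; linarith
        gcongr
      show K - _ ≤ ker L.S f 0 a b p.1 p.2
      linarith
    · filter_upwards [hev] with p hp
      obtain ⟨hp1, hp2, hp3⟩ := hp
      have n1 := norm_nonneg (p.1 - z)
      have n2 := norm_nonneg (p.2 - z')
      have h1 := hvar0 z hz z' hz' (p.1 - z) (p.2 - z') (m p)
        (by show _ ≤ ‖p.1 - z‖ + ‖p.2 - z'‖; linarith)
        (by show _ ≤ ‖p.1 - z‖ + ‖p.2 - z'‖; linarith) hp1
      have e1 : z + (p.1 - z) = p.1 := by abel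
      have e2 : z' + (p.2 - z') = p.2 := by abel
      rw [e1, e2, L.ret.id _ hp2, L.ret.id _ hp3] at h1
      exact h1
  have h2 : ContinuousOn (fun p : E × E => ker L.S f 0 a b p.1 p.2 - inner ℝ v (p.2 - p.1)
      + (b - a) * ‖v‖ ^ 2 / 2) (L.S ×ˢ L.S) := by
    apply (key.sub _).add continuousOn_const
    exact (Continuous.inner continuous_const (by fun_prop)).continuousOn
  refine h2.congr fun p hp => ?_
  exact ker_galilei L hf v hab hp.1 hp.2

end ModuleK

end EscN
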