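import Pool.Agent.EscN.Defs
import Pool.Agent.helper37.Esc.Analysis

/-!
Module O1 of project ESCN: trajectories and smooth maps, varied controls.
-/

noncomputable section

namespace EscN

open MeasureTheory Set Filter Topology Esc
open scoped ContDiff

variable {E : Type*} [NormedAddCommGroup E] [InnerProductSpace ℝ E] [FiniteDimensional ℝ E]

section O1

omit [FiniteDimensional ℝ E] in
theorem Adm_clm {A : ℝ → E →L[ℝ] E} (hA : Continuous A) {C : ℝ} (hC : ∀ t, ‖A t‖ ≤ C)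
    {u : ℝ → E} (hu : Adm u) : Adm (fun t => A t (u t)) := by
  obtain ⟨hm, K, hK⟩ := hu
  refine ⟨?_, C * K, fun t => ?_⟩
  · have h1 : Continuous fun p : (E →L[ℝ] E) × E => p.1 p.2 := isBoundedBilinearMap_apply.continuous
    exact h1.comp_stronglyMeasurable (hA.stronglyMeasurable.prodMk hm)
  · have h0 : 0 ≤ C := (norm_nonneg _).trans (hC t)
    exact ((A t).le_opNorm (u t)).trans (mul_le_mul (hC t) (hK t) (norm_nonneg _) h0)

/-- the primitive of a control has the control as derivative -/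
theorem traj_comp_deriv {ψ : E → E} (hψ : ContDiff ℝ 1 ψ) {u : ℝ → E} (hu : Adm u) (a : ℝ) (z : E) :
    ∀ᵐ t, HasDerivAt (fun s => ψ (traj a z u s)) (fderiv ℝ ψ (traj a z u t) (u t)) t := by
  filter_upwards [Esc.Orb.traj_ae hu z a] with t ht
  exact ((hψ.differentiable (by norm_num)).differentiableAt.hasFDerivAt).comp_hasDerivAt t ht

/-- chain rule in integral form -/
theorem traj_comp {ψ : E → E} (hψ : ContDiff ℝ 1 ψ) {C : ℝ} (hC : ∀ x, ‖fderiv ℝ ψ x‖ ≤ C) {u : ℝ → E}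
    (hu : Adm u) (a : ℝ) (z : E) (t : ℝ) :
    ψ (traj a z u t) = ψ z + ∫ s in a..t, fderiv ℝ ψ (traj a z u s) (u s) := by
  obtain ⟨K, hK0, hK⟩ := hu.onb
  have hcont : Continuous (traj a z u) := Esc.Orb.traj_continuous hu z a
  have hadm : Adm fun s => fderiv ℝ ψ (traj a z u s) (u s) :=
    Adm_clm ((hψ.continuous_fderiv (by norm_num)).comp hcont) (fun s => hC _) hu
  have hC0 : 0 ≤ C := (norm_nonneg _).trans (hC 0)
  have hlip : ∀ x y : E, ‖ψ x - ψ y‖ ≤ C * ‖x - y‖ := by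
    intro x y
    have h := Convex.norm_image_sub_le_of_norm_fderiv_le (f := ψ) (s := univ) (x := y) (y := x)
      (C := C) (𝕜 := ℝ) (fun w _ => (hψ.differentiable (by norm_num)).differentiableAt)
      (fun w _ => hC w) convex_univ (mem_univ _) (mem_univ _)
    exact h
  have key : ∀ w : E, inner ℝ w (ψ (traj a z u t) - ψ z) =
      inner ℝ w (∫ s in a..t, fderiv ℝ ψ (traj a z u s) (u s)) := by
    intro w
    have h1 : ∫ s in a..t, inner ℝ w (fderiv ℝ ψ (traj a z u s) (u s)) =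
        inner ℝ w (∫ s in a..t, fderiv ℝ ψ (traj a z u s) (u s)) :=
      (innerSL ℝ w).intervalIntegral_comp_comm (hadm.oii a t)
    rw [← h1]
    have h2 := Esc.Orb.ftc_lip (h := fun s => inner ℝ w (ψ (traj a z u s)))
      (h' := fun s => inner ℝ w (fderiv ℝ ψ (traj a z u s) (u s))) (a := a) (b := t)
      (K := ‖w‖ * (C * K)) ?_ ?_
    · rw [h2, Esc.Orb.traj_self, inner_sub_right]
    · intro s _ r _
      rw [← inner_sub_right]
      refine (abs_real_inner_le_norm _ _).trans ?_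
      have h3 := hlip (traj a z u s) (traj a z u r)
      have h4 := Esc.Orb.traj_lip hu hK z a s r
      have h5 : ‖ψ (traj a z u s) - ψ (traj a z u r)‖ ≤ C * (K * |s - r|) :=
        h3.trans (mul_le_mul_of_nonneg_left h4 hC0)
      calc ‖w‖ * ‖ψ (traj a z u s) - ψ (traj a z u r)‖ ≤ ‖w‖ * (C * (K * |s - r|)) :=
            mul_le_mul_of_nonneg_left h5 (norm_nonneg _)
        _ = ‖w‖ * (C * K) * |s - r| := by ring
    · filter_upwards [traj_comp_deriv hψ hu a z] with s hs _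
      have h6 := (hasDerivAt_const s w).inner ℝ hs
      simpa using h6
  have h7 : ψ (traj a z u t) - ψ z = ∫ s in a..t, fderiv ℝ ψ (traj a z u s) (u s) :=
    ext_inner_left ℝ key
  rw [← h7]
  abel

/-- the velocity of a trajectory in `S` is tangent to `S` -/
theorem tangent_ae {S : Set E} {rt : E → E} {r0 Cr : ℝ} (hR : Ret S rt r0 Cr) {u : ℝ → E} (hu : Adm u)
    {a b : ℝ} {z : E} (hS : InS S a b z u) :
    ∀ᵐ t, t ∈ Icc a b → fderiv ℝ rt (traj a z u t) (u t) = u t := by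
  have h1 : ContDiff ℝ 1 rt := hR.smooth.of_le (by exact_mod_cast le_top)
  have ha : ∀ᵐ t : ℝ, t ≠ a := by simp [ae_iff, measure_singleton]
  have hb : ∀ᵐ t : ℝ, t ≠ b := by simp [ae_iff, measure_singleton]
  filter_upwards [traj_comp_deriv h1 hu a z, Esc.Orb.traj_ae hu z a, ha, hb] with t h2 h3 h4 h5 ht
  have h6 : ∀ᶠ s in 𝓝 t, s ∈ Icc a b :=
    Icc_mem_nhds (lt_of_le_of_ne ht.1 (Ne.symm h4)) (lt_of_le_of_ne ht.2 h5)
  have h7 : (fun s => rt (traj a z u s)) =ᶠ[𝓝 t] traj a z u := by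
    filter_upwards [h6] with s hs
    exact hR.id _ (hS s hs)
  exact (h2.congr_of_eventuallyEq h7.symm).unique h3

/-- varied control: `γ + η` is projected to `S` -/
def vc (rt : E → E) (a : ℝ) (z : E) (u : ℝ → E) (ζ : E) (w : ℝ → E) : ℝ → E :=
  fun t => fderiv ℝ rt (traj a z u t + traj a ζ w t) (u t + w t)

theorem vc_adm {S : Set E} {rt : E → E} {r0 Cr : ℝ} (hR : Ret S rt r0 Cr) {u w : ℝ → E} (hu : Adm u)
    (hw : Adm w) (a : ℝ) (z ζ : E) : Adm (vc rt a z u ζ w) := by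
  have h1 : ContDiff ℝ 1 rt := hR.smooth.of_le (by exact_mod_cast le_top)
  exact Adm_clm ((h1.continuous_fderiv (by norm_num)).comp
    ((Esc.Orb.traj_continuous hu z a).add (Esc.Orb.traj_continuous hw ζ a)))
    (fun s => hR.bd _) (hu.oadd hw)

theorem traj_add {u w : ℝ → E} (hu : Adm u) (hw : Adm w) (a : ℝ) (z ζ : E) (t : ℝ) :
    traj a (z + ζ) (fun s => u s + w s) t = traj a z u t + traj a ζ w t := by
  unfold traj
  rw [intervalIntegral.integral_add (hu.oii a t) (hw.oii a t)]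
  abel

theorem vc_traj {S : Set E} {rt : E → E} {r0 Cr : ℝ} (hR : Ret S rt r0 Cr) {u w : ℝ → E} (hu : Adm u)
    (hw : Adm w) (a : ℝ) (z ζ : E) (t : ℝ) :
    traj a (rt (z + ζ)) (vc rt a z u ζ w) t = rt (traj a z u t + traj a ζ w t) := by
  have h1 : ContDiff ℝ 1 rt := hR.smooth.of_le (by exact_mod_cast le_top)
  have h2 := traj_comp h1 hR.bd (hu.oadd hw) a (z + ζ) t
  rw [← traj_add hu hw a z ζ t, h2]
  unfold traj
  congr 1
  refine intervalIntegral.integral_congr fun s _ => ?_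
  show fderiv ℝ rt (traj a z u s + traj a ζ w s) (u s + w s) =
    fderiv ℝ rt (traj a (z + ζ) (fun s => u s + w s) s) (u s + w s)
  rw [traj_add hu hw a z ζ s]

omit [FiniteDimensional ℝ E] in
theorem Adm_inner {u w : ℝ → E} (hu : Adm u) (hw : Adm w) (a b : ℝ) :
    IntervalIntegrable (fun t => (inner ℝ (u t) (w t) : ℝ)) volume a b := by
  obtain ⟨hm, C, hC⟩ := hu
  obtain ⟨hm', C', hC'⟩ := hw
  refine (intervalIntegrable_const (c := C * C') (μ := volume) (a := a) (b := b)).mono_fun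
    (hm.inner hm').aestronglyMeasurable (Eventually.of_forall fun t => ?_)
  have h1 : ‖(inner ℝ (u t) (w t) : ℝ)‖ ≤ ‖u t‖ * ‖w t‖ := norm_inner_le_norm _ _
  have h2 : ‖u t‖ * ‖w t‖ ≤ C * C' :=
    mul_le_mul (hC t) (hC' t) (norm_nonneg _) ((norm_nonneg _).trans (hC t))
  exact (h1.trans h2).trans (le_abs_self _)

omit [FiniteDimensional ℝ E] in
theorem Adm_sub {u : ℝ → E} (hu : Adm u) (v : E) : Adm (fun t => u t - v) := by
  obtain ⟨hm, C, hC⟩ := hu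
  refine ⟨hm.sub stronglyMeasurable_const, C + ‖v‖, fun t => ?_⟩
  exact (norm_sub_le _ _).trans (by linarith [hC t])

omit [FiniteDimensional ℝ E] in
/-- the pointwise estimate -/
theorem vc_point {A B : E →L[ℝ] E} {Cr m r0 : ℝ} (hCr : 0 ≤ Cr) (hm : 0 ≤ m) (hmr : m ≤ r0)
    (hA : ‖A‖ ≤ Cr) (hD : ‖B - A‖ ≤ Cr * m) {U w : E} (hU : A U = U)
    (hs : inner ℝ (A U) w = (inner ℝ U (A w) : ℝ)) :
    ‖B (U + w)‖ ^ 2 / 2 ≤ ‖U‖ ^ 2 / 2 + inner ℝ U w +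
      (2 * Cr + Cr * r0 + Cr ^ 2 + 2 * Cr ^ 2 * r0 + 2 * Cr ^ 2 * r0 ^ 2) *
        (‖w‖ ^ 2 + m * ‖U‖ ^ 2) := by
  set D : E := (B - A) (U + w) with hDdef
  have e1 : B (U + w) = U + (A w + D) := by
    rw [hDdef]
    simp only [ContinuousLinearMap.sub_apply, map_add, hU]
    abel
  have hDn : ‖D‖ ≤ Cr * m * (‖U‖ + ‖w‖) := by
    refine ((B - A).le_opNorm (U + w)).trans ?_
    exact mul_le_mul hD (norm_add_le _ _) (norm_nonneg _) (mul_nonneg hCr hm)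
  have hAw : ‖A w‖ ≤ Cr * ‖w‖ := (A.le_opNorm w).trans (mul_le_mul_of_nonneg_right hA (norm_nonneg _))
  have e2 : ‖B (U + w)‖ ^ 2 = ‖U‖ ^ 2 + 2 * inner ℝ U (A w + D) + ‖A w + D‖ ^ 2 := by
    rw [e1, norm_add_sq_real]
  have e3 : (inner ℝ U (A w + D) : ℝ) = inner ℝ U w + inner ℝ U D := by
    rw [inner_add_right, ← hs, hU]
  have h1 : (inner ℝ U D : ℝ) ≤ ‖U‖ * ‖D‖ := real_inner_le_norm _ _
  have hU0 := norm_nonneg U
  have hw0 := norm_nonneg w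
  have hD0 := norm_nonneg D
  have hr0 : 0 ≤ r0 := hm.trans hmr
  have h2 : ‖U‖ * ‖D‖ ≤ Cr * m * (‖U‖ ^ 2 + ‖U‖ * ‖w‖) := by
    calc ‖U‖ * ‖D‖ ≤ ‖U‖ * (Cr * m * (‖U‖ + ‖w‖)) := mul_le_mul_of_nonneg_left hDn hU0
      _ = Cr * m * (‖U‖ ^ 2 + ‖U‖ * ‖w‖) := by ring
  have h3 : ‖U‖ * ‖w‖ ≤ (‖U‖ ^ 2 + ‖w‖ ^ 2) / 2 := by nlinarith [sq_nonneg (‖U‖ - ‖w‖)]
  have h4 : ‖A w + D‖ ^ 2 ≤ 2 * ‖A w‖ ^ 2 + 2 * ‖D‖ ^ 2 := by
    have h5 := norm_add_le (A w) D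
    have h6 := norm_nonneg (A w + D)
    have h7 := norm_nonneg (A w)
    nlinarith [sq_nonneg (‖A w‖ - ‖D‖)]
  have h8 : ‖A w‖ ^ 2 ≤ Cr ^ 2 * ‖w‖ ^ 2 := by
    have := pow_le_pow_left₀ (norm_nonneg _) hAw 2
    rwa [mul_pow] at this
  have h9 : ‖D‖ ^ 2 ≤ Cr ^ 2 * m ^ 2 * (2 * (‖U‖ ^ 2 + ‖w‖ ^ 2)) := by
    have h10 := pow_le_pow_left₀ (norm_nonneg _) hDn 2
    have h11 : (Cr * m * (‖U‖ + ‖w‖)) ^ 2 = Cr ^ 2 * m ^ 2 * (‖U‖ + ‖w‖) ^ 2 := by ring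
    rw [h11] at h10
    refine h10.trans (mul_le_mul_of_nonneg_left ?_ (by positivity))
    nlinarith [sq_nonneg (‖U‖ - ‖w‖)]
  have hm2 : m ^ 2 ≤ r0 * m := by nlinarith
  have hm3 : m ^ 2 ≤ r0 ^ 2 := by nlinarith
  have h12 : Cr ^ 2 * m ^ 2 * ‖U‖ ^ 2 ≤ Cr ^ 2 * (r0 * m) * ‖U‖ ^ 2 := by gcongr
  have h13 : Cr ^ 2 * m ^ 2 * ‖w‖ ^ 2 ≤ Cr ^ 2 * r0 ^ 2 * ‖w‖ ^ 2 := by gcongr
  have h14 : Cr * m * ‖w‖ ^ 2 ≤ Cr * r0 * ‖w‖ ^ 2 := by gcongr
  have h15 : Cr * m * (‖U‖ * ‖w‖) ≤ Cr * m * ((‖U‖ ^ 2 + ‖w‖ ^ 2) / 2) :=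
    mul_le_mul_of_nonneg_left h3 (mul_nonneg hCr hm)
  have p1 : 0 ≤ Cr * m * ‖U‖ ^ 2 := by positivity
  have p2 : 0 ≤ Cr * ‖w‖ ^ 2 := by positivity
  have p3 : 0 ≤ Cr * r0 * ‖w‖ ^ 2 := by positivity
  have p4 : 0 ≤ Cr ^ 2 * m * ‖U‖ ^ 2 := by positivity
  have p5 : 0 ≤ Cr ^ 2 * r0 * m * ‖U‖ ^ 2 := by positivity
  have p6 : 0 ≤ Cr ^ 2 * r0 ^ 2 * m * ‖U‖ ^ 2 := by positivity
  have p7 : 0 ≤ Cr ^ 2 * r0 * ‖w‖ ^ 2 := by positivity
  have p8 : 0 ≤ Cr * r0 * m * ‖U‖ ^ 2 := by positivity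
  rw [e2, e3]
  nlinarith [h1, h2, h4, h8, h9, h12, h13, h14, h15, p1, p2, p3, p4, p5, p6, p7, p8]

/-- energy of the varied control (`v` is a velocity fixed by the derivative of `rt`) -/
theorem vc_energy {S : Set E} {rt : E → E} {r0 Cr : ℝ} (hR : Ret S rt r0 Cr) : ∃ C : ℝ, 0 ≤ C ∧
    ∀ (v : E), (∀ x, fderiv ℝ rt x v = v) → ∀ (u w : ℝ → E), Adm u → Adm w → ∀ (a b : ℝ) (z ζ : E), a < b →
    InS S a b z u → ∀ m : ℝ, 0 ≤ m → m ≤ r0 → (∀ t ∈ Icc a b, ‖traj a ζ w t‖ ≤ m) →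
      (∫ t in a..b, ‖vc rt a z u ζ w t - v‖ ^ 2 / 2) ≤ (∫ t in a..b, ‖u t - v‖ ^ 2 / 2) +
        (∫ t in a..b, inner ℝ (u t - v) (w t)) +
        C * ((∫ t in a..b, ‖w t‖ ^ 2) + m * ∫ t in a..b, ‖u t - v‖ ^ 2) := by
  have hCr : 0 ≤ Cr := (norm_nonneg _).trans (hR.bd 0)
  have hr0 : 0 ≤ r0 := hR.r0_pos.le
  refine ⟨2 * Cr + Cr * r0 + Cr ^ 2 + 2 * Cr ^ 2 * r0 + 2 * Cr ^ 2 * r0 ^ 2, by positivity, ?_⟩
  intro v hv u w hu hw a b z ζ hab hS m hm hmr hη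
  have hvc := vc_adm hR hu hw a z ζ
  have i1 : IntervalIntegrable (fun t => ‖u t - v‖ ^ 2) volume a b := (Adm_sub hu v).osq a b
  have i2 : IntervalIntegrable (fun t => ‖w t‖ ^ 2) volume a b := hw.osq a b
  have i3 : IntervalIntegrable (fun t => (inner ℝ (u t - v) (w t) : ℝ)) volume a b :=
    Adm_inner (Adm_sub hu v) hw a b
  have i4 : IntervalIntegrable (fun t => ‖u t - v‖ ^ 2 / 2) volume a b := i1.div_const 2
  have i5 : IntervalIntegrable (fun t => ‖vc rt a z u ζ w t - v‖ ^ 2 / 2) volume a b :=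
    ((Adm_sub hvc v).osq a b).div_const 2
  have e : (∫ t in a..b, ‖u t - v‖ ^ 2 / 2) + (∫ t in a..b, inner ℝ (u t - v) (w t)) +
      (2 * Cr + Cr * r0 + Cr ^ 2 + 2 * Cr ^ 2 * r0 + 2 * Cr ^ 2 * r0 ^ 2) *
        ((∫ t in a..b, ‖w t‖ ^ 2) + m * ∫ t in a..b, ‖u t - v‖ ^ 2) =
      ∫ t in a..b, (‖u t - v‖ ^ 2 / 2 + inner ℝ (u t - v) (w t) +
        (2 * Cr + Cr * r0 + Cr ^ 2 + 2 * Cr ^ 2 * r0 + 2 * Cr ^ 2 * r0 ^ 2) *
          (‖w t‖ ^ 2 + m * ‖u t - v‖ ^ 2)) := by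
    rw [intervalIntegral.integral_add (i4.add i3) ((i2.add (i1.const_mul m)).const_mul _),
      intervalIntegral.integral_add i4 i3, intervalIntegral.integral_const_mul,
      intervalIntegral.integral_add i2 (i1.const_mul m), intervalIntegral.integral_const_mul]
  rw [e]
  refine intervalIntegral.integral_mono_ae_restrict hab.le i5
    ((i4.add i3).add ((i2.add (i1.const_mul m)).const_mul _)) ?_
  rw [EventuallyLE, ae_restrict_iff' measurableSet_Icc]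
  filter_upwards [tangent_ae hR hu hS] with t ht hmem
  have hx := hS t hmem
  have hU : fderiv ℝ rt (traj a z u t) (u t - v) = u t - v := by
    rw [map_sub, ht hmem, hv]
  have e1 : vc rt a z u ζ w t - v =
      fderiv ℝ rt (traj a z u t + traj a ζ w t) ((u t - v) + w t) := by
    have e2 : (u t - v) + w t = (u t + w t) - v := by abel
    rw [e2, map_sub, hv]
    rfl
  rw [e1]
  refine vc_point hCr hm hmr (hR.bd _) ?_ hU (hR.sym _ hx _ _)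
  refine (hR.lip _ _).trans ?_
  rw [add_sub_cancel_left]
  exact mul_le_mul_of_nonneg_left (hη t hmem) hCr

end O1

end EscN
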