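import Pool.Agent.EscN.Defs

/-!
INTERFACE of module O of project ESCN (kernel geodesics in `S`). All statements with sorry; never
import this file in a final module.
-/

noncomputable section

namespace EscN

open MeasureTheory Set Filter Topology Esc
open scoped ContDiff

variable {E : Type*} [NormedAddCommGroup E] [InnerProductSpace ℝ E] [FiniteDimensional ℝ E]

/-! ## O1: trajectories and smooth maps -/

section O1

/-- chain rule in integral form -/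
theorem traj_comp {ψ : E → E} (hψ : ContDiff ℝ 1 ψ) {C : ℝ} (hC : ∀ x, ‖fderiv ℝ ψ x‖ ≤ C) {u : ℝ → E}
    (hu : Adm u) (a : ℝ) (z : E) (t : ℝ) :
    ψ (traj a z u t) = ψ z + ∫ s in a..t, fderiv ℝ ψ (traj a z u s) (u s) := sorry

/-- the velocity of a trajectory in `S` is tangent to `S` -/
theorem tangent_ae {S : Set E} {rt : E → E} {r0 Cr : ℝ} (hR : Ret S rt r0 Cr) {u : ℝ → E} (hu : Adm u)
    {a b : ℝ} {z : E} (hS : InS S a b z u) :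
    ∀ᵐ t, t ∈ Icc a b → fderiv ℝ rt (traj a z u t) (u t) = u t := sorry

/-- varied control: `γ + η` is projected to `S` -/
def vc (rt : E → E) (a : ℝ) (z : E) (u : ℝ → E) (ζ : E) (w : ℝ → E) : ℝ → E :=
  fun t => fderiv ℝ rt (traj a z u t + traj a ζ w t) (u t + w t)

theorem vc_adm {S : Set E} {rt : E → E} {r0 Cr : ℝ} (hR : Ret S rt r0 Cr) {u w : ℝ → E} (hu : Adm u)
    (hw : Adm w) (a : ℝ) (z ζ : E) : Adm (vc rt a z u ζ w) := sorry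

theorem vc_traj {S : Set E} {rt : E → E} {r0 Cr : ℝ} (hR : Ret S rt r0 Cr) {u w : ℝ → E} (hu : Adm u)
    (hw : Adm w) (a : ℝ) (z ζ : E) (t : ℝ) :
    traj a (rt (z + ζ)) (vc rt a z u ζ w) t = rt (traj a z u t + traj a ζ w t) := sorry

/-- energy of the varied control (`v` is a velocity fixed by the derivative of `rt`) -/
theorem vc_energy {S : Set E} {rt : E → E} {r0 Cr : ℝ} (hR : Ret S rt r0 Cr) : ∃ C : ℝ, 0 ≤ C ∧
    ∀ (v : E), (∀ x, fderiv ℝ rt x v = v) → ∀ (u w : ℝ → E), Adm u → Adm w → ∀ (a b : ℝ) (z ζ : E), a < b →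
    InS S a b z u → ∀ m : ℝ, 0 ≤ m → m ≤ r0 → (∀ t ∈ Icc a b, ‖traj a ζ w t‖ ≤ m) →
      (∫ t in a..b, ‖vc rt a z u ζ w t - v‖ ^ 2 / 2) ≤ (∫ t in a..b, ‖u t - v‖ ^ 2 / 2) +
        (∫ t in a..b, inner ℝ (u t - v) (w t)) +
        C * ((∫ t in a..b, ‖w t‖ ^ 2) + m * ∫ t in a..b, ‖u t - v‖ ^ 2) := sorry

end O1

/-! ## O2: variation of the kernel -/

section O2

/-- `S` is connected by trajectories -/
def Conn (S : Set E) : Prop := ∀ a b : ℝ, a < b → ∀ z ∈ S, ∀ z' ∈ S,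
  ∃ u : ℝ → E, Adm u ∧ InS S a b z u ∧ traj a z u b = z'

/-- energy of near-minimizers -/
def En (S : Set E) (f : E → ℝ → ℝ) (M a b : ℝ) (z z' : E) : ℝ := 2 * (ker S f 0 a b z z' + M * (b - a))

theorem ker_var {S : Set E} {rt : E → E} {r0 Cr : ℝ} (hR : Ret S rt r0 Cr) (hc : Conn S) {M : ℝ}
    {f : E → ℝ → ℝ} (hf : Good M f) : ∃ C : ℝ, 0 ≤ C ∧ ∀ a b : ℝ, a < b → ∀ z ∈ S, ∀ z' ∈ S, ∀ ζ ξ : E,
      ∀ m : ℝ, ‖ζ‖ ≤ m → ‖ξ‖ ≤ m → m ≤ r0 →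
      ker S f 0 a b (rt (z + ζ)) (rt (z' + ξ)) ≤ ker S f 0 a b z z' + inner ℝ (z' - z) (ξ - ζ) / (b - a) +
        C * (‖ξ - ζ‖ ^ 2 / (b - a) + m * (En S f M a b z z' + (b - a))) := sorry

/-- short connections -/
theorem ker_close {S : Set E} {rt : E → E} {r0 Cr : ℝ} (hR : Ret S rt r0 Cr) {M : ℝ}
    {f : E → ℝ → ℝ} (hf : Good M f) : ∃ C : ℝ, 0 ≤ C ∧ ∀ a b : ℝ, a < b → ∀ z ∈ S, ∀ z' ∈ S,
      ‖z' - z‖ ≤ r0 → ker S f 0 a b z z' ≤ C * ‖z' - z‖ ^ 2 / (b - a) + M * (b - a) := sorry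

end O2

/-! ## O3: kernel geodesics -/

section O3

/-- `Z` is a kernel geodesic on `[a,b]` (note `ker S f v a a _ _ = 0`) -/
structure KGeo (S : Set E) (f : E → ℝ → ℝ) (a b : ℝ) (Z : ℝ → E) : Prop where
  mem : ∀ t ∈ Icc a b, Z t ∈ S
  holder : ∃ C : ℝ, ∀ s ∈ Icc a b, ∀ t ∈ Icc a b, ‖Z t - Z s‖ ^ 2 ≤ C * |t - s|
  add : ∀ s t, a ≤ s → s ≤ t → t ≤ b →
    ker S f 0 a s (Z a) (Z s) + ker S f 0 s t (Z s) (Z t) + ker S f 0 t b (Z t) (Z b) =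
      ker S f 0 a b (Z a) (Z b)

theorem exists_kgeo {S : Set E} {rt : E → E} {r0 Cr : ℝ} (hR : Ret S rt r0 Cr) (hc : Conn S) {M : ℝ}
    {f : E → ℝ → ℝ} (hf : Good M f) {a b : ℝ} (hab : a < b) {z z' : E} (hz : z ∈ S) (hz' : z' ∈ S) :
    ∃ Z : ℝ → E, Z a = z ∧ Z b = z' ∧ KGeo S f a b Z := sorry

end O3

/-! ## O4: regularity -/

section O4

/-- second difference at a local minimum -/
theorem second_diff {S : Set E} {rt : E → E} {r0 Cr : ℝ} (hR : Ret S rt r0 Cr) (hc : Conn S) {M : ℝ}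
    {f : E → ℝ → ℝ} (hf : Good M f) : ∃ C : ℝ, 0 ≤ C ∧ ∀ (t h : ℝ), 0 < h → ∀ z₁ ∈ S, ∀ z ∈ S, ∀ z₂ ∈ S,
      IsLocalMinOn (fun w => ker S f 0 (t - h) t z₁ w + ker S f 0 t (t + h) w z₂) S z →
      ‖z₂ - (2:ℝ) • z + z₁‖ ≤ C * h * (En S f M (t - h) t z₁ z + En S f M t (t + h) z z₂ + h) := sorry

/-- a kernel geodesic is `C^{1,1}` -/
theorem kgeo_c11 {S : Set E} {rt : E → E} {r0 Cr : ℝ} (hR : Ret S rt r0 Cr) (hc : Conn S) {M : ℝ}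
    {f : E → ℝ → ℝ} (hf : Good M f) {a b : ℝ} (hab : a < b) {Z : ℝ → E} (hZ : KGeo S f a b Z) :
    ∃ v : ℝ → E, (∃ C, ∀ s ∈ Icc a b, ∀ t ∈ Icc a b, ‖v t - v s‖ ≤ C * |t - s|) ∧
      ∀ s ∈ Icc a b, ∀ t ∈ Icc a b, Z t - Z s = ∫ r in s..t, v r := sorry

end O4

/-! ## O5: Euler-Lagrange equation -/

section O5

/-- the force: the vector `G` with `⟪G, h⟫ = ⟪v, D²rt(x)(h) v⟫ + D f(x) (Drt(x) h)` -/
def force (rt : E → E) (f : E → ℝ → ℝ) (x v : E) (t : ℝ) : E :=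
  (InnerProductSpace.toDual ℝ E).symm
    ((innerSL ℝ v).comp ((fderiv ℝ (fderiv ℝ rt) x).flip v) +
      (fderiv ℝ (fun z => f z t) x).comp (fderiv ℝ rt x))

theorem force_cont {rt : E → E} (hrt : ContDiff ℝ ∞ rt) {f : E → ℝ → ℝ}
    (hf : ContDiff ℝ 2 (fun p : E × ℝ => f p.1 p.2)) :
    Continuous (fun q : E × E × ℝ => force rt f q.1 q.2.1 q.2.2) := sorry

/-- the normal part does not see tangent vectors -/
theorem force_tan {S : Set E} {rt : E → E} {r0 Cr : ℝ} (hR : Ret S rt r0 Cr) (f : E → ℝ → ℝ) {x v ξ : E}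
    (hx : x ∈ S) (hv : fderiv ℝ rt x v = v) (hξ : fderiv ℝ rt x ξ = ξ) (t : ℝ) :
    inner ℝ (force rt f x v t) ξ = fderiv ℝ (fun z => f z t) x ξ := sorry

/-- the action of a `C¹` kernel geodesic is the kernel -/
theorem kgeo_act {S : Set E} {rt : E → E} {r0 Cr : ℝ} (hR : Ret S rt r0 Cr) (hc : Conn S) {M : ℝ}
    {f : E → ℝ → ℝ} (hf : Good M f) {a b : ℝ} (hab : a < b) {Z : ℝ → E} (hZ : KGeo S f a b Z) {v : ℝ → E}
    (hv : ContinuousOn v (Icc a b)) (hZv : ∀ s ∈ Icc a b, ∀ t ∈ Icc a b, Z t - Z s = ∫ r in s..t, v r) :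
    ∫ t in a..b, (‖v t‖ ^ 2 / 2 + f (Z t) t) = ker S f 0 a b (Z a) (Z b) := sorry

/-- Euler-Lagrange equation in integral form -/
theorem kgeo_el {S : Set E} {rt : E → E} {r0 Cr : ℝ} (hR : Ret S rt r0 Cr) (hc : Conn S) {M : ℝ}
    {f : E → ℝ → ℝ} (hf : Good M f) (hf2 : ContDiff ℝ 2 (fun p : E × ℝ => f p.1 p.2)) {a b : ℝ} (hab : a < b)
    {Z : ℝ → E} (hZ : KGeo S f a b Z) {v : ℝ → E} (hv : ContinuousOn v (Icc a b))
    (hZv : ∀ s ∈ Icc a b, ∀ t ∈ Icc a b, Z t - Z s = ∫ r in s..t, v r) :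
    ∀ s ∈ Icc a b, ∀ t ∈ Icc a b, v t - v s = ∫ r in s..t, force rt f (Z r) (v r) r := sorry

end O5

/-! ## O6: orbit from a sitewise locally minimal sequence -/

section O6

theorem orbit_of_sitewise {S : Set E} {rt : E → E} {r0 Cr : ℝ} (hR : Ret S rt r0 Cr) (hc : Conn S) {M : ℝ}
    {f : E → ℝ → ℝ} (hf : Good M f) (hf2 : ContDiff ℝ 2 (fun p : E × ℝ => f p.1 p.2))
    (hft : ∀ x t, f x (t + 1) = f x t) (w : ℕ → E) (hw : ∀ j, w j ∈ S)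
    (hmin : ∀ j, IsLocalMinOn (fun x => ker S f 0 0 1 (w j) x + ker S f 0 0 1 x (w (j + 2))) S (w (j + 1))) :
    ∃ x v : ℝ → E, (∀ t, 0 < t → x t ∈ S) ∧ (∀ t, 0 < t → HasDerivAt x (v t) t) ∧
      (∀ t, 0 < t → HasDerivAt v (force rt f (x t) (v t) t) t) ∧
      (∀ t, 0 < t → fderiv ℝ rt (x t) (v t) = v t) ∧
      (∀ j : ℕ, x j = w j) ∧ ContinuousOn v (Ici 0) ∧
      (∀ j : ℕ, ∫ t in (j:ℝ)..(j+1), (‖v t‖ ^ 2 / 2 + f (x t) t) = ker S f 0 0 1 (w j) (w (j + 1))) := sorry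

end O6

end EscN
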