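import Pool.Agent.EscN.Defs
import Pool.Agent.helper42.Esc.A3

/-!
Project ESCN (MP_6acca1_an), module A: the pendulum kernel has the properties `SData`.
-/

noncomputable section

namespace EscN

open MeasureTheory Set Filter Topology Esc

namespace Pend

/-- the pendulum potential -/
def pot (p ε : ℝ) (y : ℝ) (_ : ℝ) : ℝ := ε * (1 - Real.cos (2 * Real.pi * (y - p)))

theorem pot_eq (p ε y t : ℝ) : pot p ε y t = ε * cb p y := rfl

theorem cb_lip (p x x' : ℝ) : |cb p x - cb p x'| ≤ 2 * Real.pi * |x - x'| := by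
  unfold cb
  have h1 : |Real.cos (2 * Real.pi * (x' - p)) - Real.cos (2 * Real.pi * (x - p))| ≤
      |2 * Real.pi * (x' - p) - 2 * Real.pi * (x - p)| := by
    rw [Real.cos_sub_cos]
    have h2 := Real.abs_sin_le_one ((2 * Real.pi * (x' - p) + 2 * Real.pi * (x - p)) / 2)
    have h3 := Real.abs_sin_le_abs (x := (2 * Real.pi * (x' - p) - 2 * Real.pi * (x - p)) / 2)
    rw [abs_mul, abs_mul]
    have h4 : |(-2 : ℝ)| = 2 := by norm_num
    rw [h4]
    have h5 : |(2 * Real.pi * (x' - p) - 2 * Real.pi * (x - p)) / 2| =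
        |2 * Real.pi * (x' - p) - 2 * Real.pi * (x - p)| / 2 := by
      rw [abs_div]; norm_num
    rw [h5] at h3
    have h6 := abs_nonneg (Real.sin ((2 * Real.pi * (x' - p) + 2 * Real.pi * (x - p)) / 2))
    have h7 := abs_nonneg (Real.sin ((2 * Real.pi * (x' - p) - 2 * Real.pi * (x - p)) / 2))
    nlinarith
  have h8 : 2 * Real.pi * (x' - p) - 2 * Real.pi * (x - p) = 2 * Real.pi * (x' - x) := by ring
  rw [h8, abs_mul, abs_of_pos (by positivity : (0 : ℝ) < 2 * Real.pi), abs_sub_comm x' x] at h1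
  refine le_trans (le_of_eq ?_) h1
  congr 1
  ring

theorem good (p : ℝ) {ε : ℝ} (hε : 0 < ε) : Good (2 * Real.pi * ε) (pot p ε) where
  pos := by positivity
  cont := by unfold pot; fun_prop
  bd x t := by
    rw [pot_eq, abs_of_nonneg (mul_nonneg hε.le (cb_nonneg p x))]
    have h1 := mul_le_mul_of_nonneg_left (cb_le_two p x) hε.le
    have h2 := Real.pi_gt_three
    nlinarith
  lipx x x' t := by
    rw [pot_eq, pot_eq, ← mul_sub, abs_mul, abs_of_pos hε]
    have := mul_le_mul_of_nonneg_left (cb_lip p x x') hε.le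
    rw [Real.norm_eq_abs]
    linarith
  lipt x t t' := by
    rw [pot_eq, pot_eq, sub_self, abs_zero]
    positivity

theorem good0 : Good (E := ℝ) 0 (fun _ _ => 0) where
  pos := le_rfl
  cont := continuous_const
  bd x t := by simp
  lipx x x' t := by simp
  lipt x t t' := by simp

/-- the free kernel -/
theorem ker_free (a b : ℝ) : Esc.ker (fun (_ : ℝ) (_ : ℝ) => (0 : ℝ)) (0 : ℝ) 0 1 a b = (b - a) ^ 2 / 2 := by
  apply le_antisymm
  · have := ker_upper good0 (0 : ℝ) one_pos a b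
    simpa using this
  · have := ker_lower good0 (0 : ℝ) one_pos a b
    simpa using this

theorem ker_nonneg (p : ℝ) {ε : ℝ} (hε : 0 < ε) (a b : ℝ) :
    0 ≤ Esc.ker (pot p ε) (0 : ℝ) 0 1 a b := by
  have h1 := ker_le_add (ρ := 0) (f := fun _ _ => 0) (f' := pot p ε)
    (good0.mono (good p hε).pos) (good p hε)
    (fun x t => by rw [pot_eq, add_zero]; exact mul_nonneg hε.le (cb_nonneg p x)) (0 : ℝ) one_pos a b
  rw [ker_free] at h1
  have := sq_nonneg (b - a)
  linarith

theorem ker_le (p : ℝ) {ε : ℝ} (hε : 0 < ε) (a b : ℝ) :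
    |Esc.ker (pot p ε) (0 : ℝ) 0 1 a b - (b - a) ^ 2 / 2| ≤ 2 * ε := by
  have h1 := ker_sub_le (ρ := 2 * ε) (f := pot p ε) (f' := fun _ _ => 0) (good p hε)
    (good0.mono (good p hε).pos) (fun x t => by
      rw [pot_eq, sub_zero, abs_of_nonneg (mul_nonneg hε.le (cb_nonneg p x))]
      have := mul_le_mul_of_nonneg_left (cb_le_two p x) hε.le
      linarith) (0 : ℝ) one_pos a b
  rw [ker_free, sub_zero, mul_one] at h1
  exact h1

theorem ker_diag_p (p : ℝ) {ε : ℝ} (hε : 0 < ε) : Esc.ker (pot p ε) (0 : ℝ) 0 1 p p = 0 := by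
  apply le_antisymm _ (ker_nonneg p hε p p)
  have h1 := ker_le_act' (good p hε) (0 : ℝ) one_pos (Adm.const (0 : ℝ))
    (show traj 0 p (fun _ => (0 : ℝ)) 1 = p by simp [traj])
  refine h1.trans (le_of_eq ?_)
  rw [act_eq (good p hε) _ _ _ _ (Adm.const _)]
  have h2 : ∀ t, pot p ε (traj 0 p (fun _ => (0 : ℝ)) t) t = 0 := by
    intro t
    simp [traj, pot]
  simp_rw [h2]
  simp

/-- near-minimizers of the diagonal stay close to the base point -/
theorem stay (p : ℝ) {ε : ℝ} (hε : 0 < ε) (hε' : ε ≤ 1 / 10000) {v : ℝ} {u : ℝ → ℝ} (hu : Adm u)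
    (hact : act (pot p ε) 0 0 1 v u ≤ Esc.ker (pot p ε) 0 0 1 v v + 1 / 10000) {t : ℝ}
    (ht : t ∈ Icc (0 : ℝ) 1) : |traj 0 v u t - v| ≤ 1 / 32 := by
  have h2 := (abs_le.mp (ker_le p hε v v)).2
  simp only [sub_self] at h2
  rw [act_eq (good p hε) _ _ _ _ hu] at hact
  have h5 : 0 ≤ ∫ t in (0:ℝ)..1, pot p ε (traj 0 v u t) t := by
    apply intervalIntegral.integral_nonneg zero_le_one
    intro s _
    rw [pot_eq]
    exact mul_nonneg hε.le (cb_nonneg p _)
  have hE2 : (∫ t in (0:ℝ)..1, ‖u t - 0‖ ^ 2 / 2) ≤ 3 / 10000 := by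
    norm_num at h2
    linarith
  have h6 := incr_bd (z := v) hu hE2 (t := 0) (h := t) le_rfl ht.1 (by linarith [ht.2])
  have h7 : traj 0 v u (0 + t) - traj 0 v u 0 - t • (0:ℝ) = traj 0 v u t - v := by
    rw [zero_add, smul_zero, sub_zero]
    congr 1
    simp [traj]
  rw [h7, Real.norm_eq_abs] at h6
  refine h6.trans ?_
  rw [Real.sqrt_le_left (by norm_num)]
  nlinarith [ht.2]

theorem diag_large (p : ℝ) {ε : ℝ} (hε : 0 < ε) (hε' : ε ≤ 1 / 10000) {v : ℝ} (h : 1 / 8 ≤ |v - p|)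
    (h' : |v - p| ≤ 7 / 8) : ε * (9 / 128) ≤ Esc.ker (pot p ε) (0 : ℝ) 0 1 v v := by
  apply le_of_forall_pos_le_add
  intro δ hδ
  obtain ⟨u, hu, hz, hact⟩ := exists_act_lt (good p hε) (0 : ℝ) one_pos v v
    (lt_min hδ (by norm_num : (0 : ℝ) < 1 / 10000))
  have m1 := min_le_left δ (1 / 10000)
  have m2 := min_le_right δ (1 / 10000)
  have hst : ∀ t ∈ Icc (0 : ℝ) 1, |traj 0 v u t - v| ≤ 1 / 32 := fun t ht =>
    stay p hε hε' hu (by linarith) ht
  rw [act_eq (good p hε) _ _ _ _ hu] at hact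
  have h2 : (∫ t in (0:ℝ)..1, (ε * (9 / 128))) ≤ ∫ t in (0:ℝ)..1, pot p ε (traj 0 v u t) t := by
    apply intervalIntegral.integral_mono_on zero_le_one (by simp) (f_traj_ii (good p hε) hu 0 v 0 1)
    intro t ht
    rw [pot_eq]
    refine mul_le_mul_of_nonneg_left ?_ hε.le
    have h3 := hst t ht
    have t1 : |v - p| ≤ |traj 0 v u t - p| + 1 / 32 := by
      have := abs_sub_le v (traj 0 v u t) p
      rw [abs_sub_comm v (traj 0 v u t)] at this
      linarith
    have t2 : |traj 0 v u t - p| ≤ |v - p| + 1 / 32 := by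
      have := abs_sub_le (traj 0 v u t) v p
      linarith
    apply cb_large
    · linarith
    · linarith
  have h0 : 0 ≤ ∫ t in (0:ℝ)..1, ‖u t - 0‖ ^ 2 / 2 :=
    intervalIntegral.integral_nonneg zero_le_one (fun t _ => by positivity)
  simp only [intervalIntegral.integral_const, sub_zero, smul_eq_mul, one_mul] at h2
  linarith

end Pend

open Pend in
/-- the pendulum kernel -/
theorem sdata_pendulum (p : ℝ) {ε : ℝ} (hε : 0 < ε) (hε' : ε ≤ 1 / 10000) :
    ∃ e0 : ℝ, SData (fun y y' => Esc.ker (fun y (_ : ℝ) => ε * (1 - Real.cos (2 * Real.pi * (y - p)))) (0:ℝ) 0 1 y y')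
      p (ε / 50) 0 e0 ((ε / 50) ^ 2 / 200) := by
  refine ⟨0, ?_, ?_, ?_, ?_, ?_, by positivity, by linarith, by positivity, le_rfl⟩
  · intro a b a' b' h h'
    exact ker_cross (good p hε) h h'
  · intro η η' _
    rw [sub_zero]
    exact (ker_le p hε η η').trans (by linarith)
  · intro v
    exact ker_nonneg p hε v v
  · exact ⟨p, by norm_num, ker_diag_p p hε⟩
  · intro v h h'
    have := diag_large p hε hε' h h'
    have h2 : 0 + ε / 50 ≤ ε * (9 / 128) := by linarith
    exact h2.trans this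

end EscN
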