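import Pool.Agent.EscN.Jet
import Pool.Agent.EscN.T3a

/-!
Algebra of potentials (project ESCN, T3): linear combinations, finite averages, the well.
-/

noncomputable section

namespace EscN.T

open Filter Topology Set Finset
open scoped ContDiff

variable {n m : ℕ} {M : FlatBundle n m} {k : ℕ∞}

lemma Pot.cda (f : Pot M k) {j : ℕ} (hj : (j : ℕ∞) ≤ k) {p : Vec n × Vec m × ℝ} (hp : p.2.1 ∈ M.U) :
    ContDiffAt ℝ j f.toFun p := by
  have h1 : ContDiffAt ℝ k f.toFun p := f.contDiff.contDiffAt ((isOpen_dom M).mem_nhds hp)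
  exact h1.of_le (by exact_mod_cast hj)

lemma rot_mem (M : FlatBundle n m) (i : Fin n) {ν : Vec m} (h : ν ∈ M.U) : M.rot i ν ∈ M.U := by
  rw [← M.presU i]
  exact ⟨ν, h, rfl⟩

lemma r_mem (M : FlatBundle n m) {ν : Vec m} (h : ν ∈ M.U) : M.r ν ∈ M.U := M.sub (M.mem ν h)

/-- `f + c g` -/
def Pot.lin (c : ℝ) (f g : Pot M k) : Pot M k where
  toFun := fun p => f.toFun p + c * g.toFun p
  contDiff := f.contDiff.add (contDiffOn_const.mul g.contDiff)
  ext x ν t h := by rw [f.ext x ν t h, g.ext x ν t h]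
  out x ν t h := by rw [f.out x ν t h, g.out x ν t h, mul_zero, add_zero]
  periodic := ⟨fun i x ν t h => by simp only; rw [f.periodic.1 i x ν t h, g.periodic.1 i x ν t h],
    fun x ν t h => by simp only; rw [f.periodic.2 x ν t h, g.periodic.2 x ν t h]⟩

@[simp] lemma Pot.lin_toFun (c : ℝ) (f g : Pot M k) (p : Vec n × Vec m × ℝ) :
    (Pot.lin c f g).toFun p = f.toFun p + c * g.toFun p := rfl

lemma Pot.lin_iter (c : ℝ) (f g : Pot M k) {j : ℕ} (hj : (j : ℕ∞) ≤ k) {p : Vec n × Vec m × ℝ}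
    (hp : p.2.1 ∈ M.U) : iteratedFDeriv ℝ j (Pot.lin c f g).toFun p =
      iteratedFDeriv ℝ j f.toFun p + c • iteratedFDeriv ℝ j g.toFun p := by
  have h1 := iteratedFDeriv_add_apply (f.cda hj hp) ((g.cda hj hp).const_smul c)
  have h2 := iteratedFDeriv_const_smul_apply (a := c) (g.cda hj hp)
  rw [← h2]
  exact h1

/-- `c f` -/
def Pot.smul (c : ℝ) (f : Pot M k) : Pot M k where
  toFun := fun p => c * f.toFun p
  contDiff := contDiffOn_const.mul f.contDiff
  ext x ν t h := by rw [f.ext x ν t h]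
  out x ν t h := by rw [f.out x ν t h, mul_zero]
  periodic := ⟨fun i x ν t h => by simp only; rw [f.periodic.1 i x ν t h],
    fun x ν t h => by simp only; rw [f.periodic.2 x ν t h]⟩

@[simp] lemma Pot.smul_toFun (c : ℝ) (f : Pot M k) (p : Vec n × Vec m × ℝ) :
    (Pot.smul c f).toFun p = c * f.toFun p := rfl

lemma Pot.smul_iter (c : ℝ) (f : Pot M k) {j : ℕ} (hj : (j : ℕ∞) ≤ k) {p : Vec n × Vec m × ℝ}
    (hp : p.2.1 ∈ M.U) : iteratedFDeriv ℝ j (Pot.smul c f).toFun p =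
      c • iteratedFDeriv ℝ j f.toFun p :=
  iteratedFDeriv_const_smul_apply (a := c) (f.cda hj hp)

lemma mn_fun_eq (Q B : ℕ) (w : Vec n) (F : Vec n × Vec m × ℝ → ℝ) :
    (fun p : Vec n × Vec m × ℝ => EscN.mn Q B w (fun x => F (x, p.2.1, p.2.2)) p.1) =
      ((Q * B : ℕ) : ℝ)⁻¹ • ∑ l ∈ range (Q * B),
        fun p : Vec n × Vec m × ℝ => F (p + (((l : ℝ) / Q) • w, 0, 0)) := by
  ext p
  simp only [EscN.mn, Pi.smul_apply, Finset.sum_apply]
  congr 1
  refine Finset.sum_congr rfl fun l _ => ?_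
  congr 1
  simp [Prod.ext_iff]

lemma Pot.trans_cdo (f : Pot M k) (v : Vec n) :
    ContDiffOn ℝ k (fun p : Vec n × Vec m × ℝ => f.toFun (p + (v, 0, 0))) {q | q.2.1 ∈ M.U} := by
  refine f.contDiff.comp (contDiffOn_id.add contDiffOn_const) fun p hp => ?_
  have hp' : p.2.1 ∈ M.U := hp
  show (p + (v, 0, 0)).2.1 ∈ M.U
  simpa using hp'

/-- finite average in the direction `w` -/
def Pot.mn (Q B : ℕ) (w : Vec n) (f : Pot M k) : Pot M k where
  toFun := fun p => EscN.mn Q B w (fun x => f.toFun (x, p.2.1, p.2.2)) p.1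
  contDiff := by
    rw [mn_fun_eq]
    have h1 : ∀ l ∈ range (Q * B), ContDiffOn ℝ k
        (fun p : Vec n × Vec m × ℝ => f.toFun (p + (((l : ℝ) / Q) • w, 0, 0))) {q | q.2.1 ∈ M.U} :=
      fun l _ => f.trans_cdo _
    have h2 := (ContDiffOn.sum h1).const_smul (((Q * B : ℕ) : ℝ)⁻¹)
    refine h2.congr fun p _ => ?_
    rw [Pi.smul_apply, Finset.sum_apply]
  ext x ν t h := by
    unfold EscN.mn
    congr 1
    exact Finset.sum_congr rfl fun l _ => f.ext _ ν t h
  out x ν t h := by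
    unfold EscN.mn
    rw [Finset.sum_eq_zero fun l _ => f.out _ ν t h, smul_zero]
  periodic := by
    constructor
    · intro i x ν t h
      simp only [EscN.mn]
      congr 1
      refine Finset.sum_congr rfl fun l _ => ?_
      rw [add_right_comm, f.periodic.1 i _ ν t h]
    · intro x ν t h
      simp only [EscN.mn]
      congr 1
      exact Finset.sum_congr rfl fun l _ => f.periodic.2 _ ν t h

@[simp] lemma Pot.mn_toFun (Q B : ℕ) (w : Vec n) (f : Pot M k) (p : Vec n × Vec m × ℝ) :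
    (Pot.mn Q B w f).toFun p = EscN.mn Q B w (fun x => f.toFun (x, p.2.1, p.2.2)) p.1 := rfl

lemma iter_sum {ι : Type*} (s : Finset ι) (F : ι → Vec n × Vec m × ℝ → ℝ) {j : ℕ} {p : Vec n × Vec m × ℝ}
    (h : ∀ i ∈ s, ContDiffAt ℝ j (F i) p) :
    ContDiffAt ℝ j (∑ i ∈ s, F i) p ∧
      iteratedFDeriv ℝ j (∑ i ∈ s, F i) p = ∑ i ∈ s, iteratedFDeriv ℝ j (F i) p := by
  classical
  induction s using Finset.induction_on with
  | empty =>
    simp only [Finset.sum_empty]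
    refine ⟨contDiffAt_const (c := (0 : ℝ)), ?_⟩
    exact congrFun (iteratedFDeriv_fun_zero (𝕜 := ℝ) (E := Vec n × Vec m × ℝ) (F := ℝ) (n := j)) p
  | insert a s ha ih =>
    have h1 := h a (Finset.mem_insert_self a s)
    obtain ⟨h2, h3⟩ := ih fun i hi => h i (Finset.mem_insert_of_mem hi)
    rw [Finset.sum_insert ha, Finset.sum_insert ha]
    refine ⟨h1.add h2, ?_⟩
    rw [iteratedFDeriv_add_apply h1 h2, h3]

lemma Pot.mn_iter (Q B : ℕ) (w : Vec n) (f : Pot M k) {j : ℕ} (hj : (j : ℕ∞) ≤ k) (x : Vec n) {ν : Vec m}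
    (hν : ν ∈ M.U) (t : ℝ) : iteratedFDeriv ℝ j (Pot.mn Q B w f).toFun (x, ν, t) =
      EscN.mn Q B w (fun z => iteratedFDeriv ℝ j f.toFun (z, ν, t)) x := by
  have e0 : (Pot.mn Q B w f).toFun = ((Q * B : ℕ) : ℝ)⁻¹ • ∑ l ∈ range (Q * B),
        fun p : Vec n × Vec m × ℝ => f.toFun (p + (((l : ℝ) / Q) • w, 0, 0)) := mn_fun_eq Q B w f.toFun
  have h1 : ∀ l ∈ range (Q * B), ContDiffAt ℝ j
      (fun p : Vec n × Vec m × ℝ => f.toFun (p + (((l : ℝ) / Q) • w, 0, 0))) (x, ν, t) := by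
    intro l _
    have h2 : ContDiffAt ℝ k (fun p : Vec n × Vec m × ℝ => f.toFun (p + (((l : ℝ) / Q) • w, 0, 0)))
        (x, ν, t) := (f.trans_cdo _).contDiffAt ((isOpen_dom M).mem_nhds hν)
    exact h2.of_le (by exact_mod_cast hj)
  obtain ⟨h2, h3⟩ := iter_sum (range (Q * B))
    (fun l : ℕ => fun p : Vec n × Vec m × ℝ => f.toFun (p + (((l : ℝ) / Q) • w, 0, 0))) h1
  rw [e0, iteratedFDeriv_const_smul_apply h2, h3]
  unfold EscN.mn
  congr 1
  refine Finset.sum_congr rfl fun l _ => ?_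
  rw [iteratedFDeriv_comp_add_right]
  congr 1
  simp

open Classical in
/-- the well `1 - cos (2π y)` -/
def Pot.well (y : Vec n →L[ℝ] ℝ) (hy : ∀ i, ∃ z : ℤ, y (M.τ i) = z) : Pot M k where
  toFun := fun p => if p.2.1 ∈ M.U then 1 - Real.cos (2 * Real.pi * y p.1) else 0
  contDiff := by
    have h1 : ContDiff ℝ k (fun p : Vec n × Vec m × ℝ => 1 - Real.cos (2 * Real.pi * y p.1)) :=
      contDiff_const.sub (Real.contDiff_cos.comp (contDiff_const.mul (y.contDiff.comp contDiff_fst)))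
    refine h1.contDiffOn.congr fun p hp => ?_
    have hp' : p.2.1 ∈ M.U := hp
    rw [if_pos hp']
  ext x ν t h := by
    simp only
    rw [if_pos h, if_pos (r_mem M h)]
  out x ν t h := by
    simp only
    rw [if_neg h]
  periodic := by
    constructor
    · intro i x ν t h
      simp only
      rw [if_pos h, if_pos (rot_mem M i h)]
      obtain ⟨z, hz⟩ := hy i
      rw [map_add, hz, mul_add, mul_comm (2 * Real.pi) (z : ℝ), Real.cos_add_int_mul_two_pi]
    · intro x ν t h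
      rfl

open Classical in
lemma Pot.well_toFun (y : Vec n →L[ℝ] ℝ) (hy : ∀ i, ∃ z : ℤ, y (M.τ i) = z) (p : Vec n × Vec m × ℝ) :
    (Pot.well (k := k) y hy : Pot M k).toFun p =
      if p.2.1 ∈ M.U then 1 - Real.cos (2 * Real.pi * y p.1) else 0 := rfl

lemma Pot.well_of_mem (y : Vec n →L[ℝ] ℝ) (hy : ∀ i, ∃ z : ℤ, y (M.τ i) = z) {p : Vec n × Vec m × ℝ}
    (hp : p.2.1 ∈ M.U) :
    (Pot.well (k := k) y hy : Pot M k).toFun p = 1 - Real.cos (2 * Real.pi * y p.1) := by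
  rw [Pot.well_toFun, if_pos hp]

end EscN.T
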