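import Pool.Agent.EscN.TDefs

/-!
# ESCN: sanity checks of the outer definitions

`torus`: flat tori. `sphereBundle`: sphere bundles over flat tori, in particular `𝕋ⁿ × S^{m-1}`.
`ofFun`: a `C^k` function of `(x, ν, t)` with the right periods gives an element of `Pot M k`, and
every element of `Pot M k` is determined by its values on `ℝⁿ × N × ℝ`. `not_escape_zero`: the geodesic
flow has no orbit that tends to infinity.
-/

noncomputable section

namespace EscN.T.Sane

open Filter Topology Set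
open scoped ContDiff

variable {n m : ℕ}

/-- the flat torus `ℝⁿ/(ℤτ₁ + ⋯ + ℤτₙ)` -/
def torus (τ : Fin n → Vec n) (li : LinearIndependent ℝ τ) : FlatBundle n 0 where
  τ := τ
  li := li
  N := univ
  U := univ
  r := id
  tube :=
    { compact := (Set.toFinite _).isCompact
      conn := ⟨⟨0, trivial⟩, Set.subsingleton_of_subsingleton.isPreconnected⟩
      isOpen := isOpen_univ
      sub := le_rfl
      smooth := contDiff_id.contDiffOn
      mem := fun _ _ => trivial
      nearest := fun x _ p _ h => absurd (Subsingleton.elim p x) h }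
  rot := fun _ => LinearIsometryEquiv.refl ℝ _
  act :=
    { comm := fun _ _ _ => rfl
      pres := fun i => by simp
      presU := fun i => by simp }

theorem dist_sphere {x p : Vec m} (hx : x ≠ 0) (hp : ‖p‖ = 1) (h : p ≠ ‖x‖⁻¹ • x) :
    dist x (‖x‖⁻¹ • x) < dist x p := by
  have hx0 : 0 < ‖x‖ := norm_pos_iff.2 hx
  have h1 : ‖x - ‖x‖⁻¹ • x‖ ^ 2 = ‖x‖ ^ 2 - 2 * ‖x‖ + 1 := by
    rw [norm_sub_sq_real, inner_smul_right, real_inner_self_eq_norm_sq, norm_smul, norm_inv, norm_norm]
    field_simp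
  have h2 : ‖x - p‖ ^ 2 = ‖x‖ ^ 2 - 2 * inner ℝ x p + 1 := by
    rw [norm_sub_sq_real, hp]
    ring
  have h3 : (inner ℝ x p : ℝ) < ‖x‖ := by
    refine lt_of_le_of_ne ?_ ?_
    · have := real_inner_le_norm x p
      rwa [hp, mul_one] at this
    · intro he
      have h4 : (inner ℝ x p : ℝ) = ‖x‖ * ‖p‖ := by rw [he, hp, mul_one]
      rw [inner_eq_norm_mul_iff_real, hp, one_smul] at h4
      apply h
      have h5 : ‖x‖⁻¹ • x = ‖x‖⁻¹ • (‖x‖ • p) := congrArg (fun y => ‖x‖⁻¹ • y) h4
      rw [h5, smul_smul, inv_mul_cancel₀ hx0.ne', one_smul]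
  rw [dist_eq_norm, dist_eq_norm]
  refine lt_of_pow_lt_pow_left₀ 2 (norm_nonneg _) ?_
  rw [h1, h2]
  linarith

/-- sphere bundles over flat tori, `(x, ν) ~ (x + τ i, rot i ν)` -/
def sphereBundle (hm : 2 ≤ m) (τ : Fin n → Vec n) (li : LinearIndependent ℝ τ)
    (rot : Fin n → (Vec m ≃ₗᵢ[ℝ] Vec m)) (comm : ∀ i j x, rot i (rot j x) = rot j (rot i x)) :
    FlatBundle n m where
  τ := τ
  li := li
  N := Metric.sphere 0 1
  U := {0}ᶜ
  r := fun x => ‖x‖⁻¹ • x
  tube :=
    { compact := isCompact_sphere 0 1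
      conn := by
        have h : 1 < Module.rank ℝ (Vec m) := by
          rw [← Module.finrank_eq_rank, finrank_euclideanSpace, Fintype.card_fin]
          exact_mod_cast hm
        exact isConnected_sphere h 0 zero_le_one
      isOpen := isOpen_compl_singleton
      sub := fun x hx => by
        rintro rfl
        simp at hx
      smooth := fun x hx => ((contDiffAt_norm ℝ hx).inv (norm_ne_zero_iff.2 hx)).smul contDiffAt_id
        |>.contDiffWithinAt
      mem := fun x hx => by
        rw [mem_sphere_zero_iff_norm, norm_smul, norm_inv, norm_norm,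
          inv_mul_cancel₀ (norm_ne_zero_iff.2 hx)]
      nearest := fun x hx p hp h => dist_sphere hx (mem_sphere_zero_iff_norm.1 hp) h }
  rot := rot
  act :=
    { comm := comm
      pres := fun i => by
        rw [LinearIsometryEquiv.image_sphere, map_zero]
      presU := fun i => by
        ext x
        simp only [mem_image, mem_compl_iff, mem_singleton_iff]
        constructor
        · rintro ⟨y, hy, rfl⟩
          simpa using hy
        · intro hx
          exact ⟨(rot i).symm x, by simpa using hx, (rot i).apply_symm_apply x⟩ }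

/-- `𝕋ⁿ × S^{m-1}` -/
def torusSphere (hm : 2 ≤ m) (τ : Fin n → Vec n) (li : LinearIndependent ℝ τ) : FlatBundle n m :=
  sphereBundle hm τ li (fun _ => LinearIsometryEquiv.refl ℝ _) (fun _ _ _ => rfl)

section

variable (M : FlatBundle n m)

theorem r_mem_U {ν : Vec m} (h : ν ∈ M.U) : M.r ν ∈ M.U := M.sub (M.mem ν h)

theorem r_of_mem {ν : Vec m} (h : ν ∈ M.N) : M.r ν = ν := by
  by_contra hne
  have h1 := M.nearest ν (M.sub h) ν h (fun h' => hne h'.symm)
  rw [dist_self] at h1
  exact absurd h1 (not_lt.2 dist_nonneg)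

theorem rot_N (i : Fin n) {ν : Vec m} : M.rot i ν ∈ M.N ↔ ν ∈ M.N := by
  constructor
  · intro h
    rw [← M.pres i] at h
    obtain ⟨ν', h1, h2⟩ := h
    rwa [← (M.rot i).injective h2]
  · intro h
    rw [← M.pres i]
    exact ⟨ν, h, rfl⟩

theorem rot_U (i : Fin n) {ν : Vec m} : M.rot i ν ∈ M.U ↔ ν ∈ M.U := by
  constructor
  · intro h
    rw [← M.presU i] at h
    obtain ⟨ν', h1, h2⟩ := h
    rwa [← (M.rot i).injective h2]
  · intro h
    rw [← M.presU i]
    exact ⟨ν, h, rfl⟩

theorem r_rot' (i : Fin n) {ν : Vec m} (h : ν ∈ M.U) : M.r (M.rot i ν) = M.rot i (M.r ν) := by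
  have hU : M.rot i ν ∈ M.U := (rot_U M i).2 h
  have h1 : M.r (M.rot i ν) ∈ M.N := M.mem _ hU
  rw [← M.pres i] at h1
  obtain ⟨q, hq, hq'⟩ := h1
  by_contra hne
  have h2 : M.rot i (M.r ν) ∈ M.N := (rot_N M i).2 (M.mem ν h)
  have h3 := M.nearest _ hU _ h2 (fun h' => hne h'.symm)
  have h4 : q ≠ M.r ν := by
    rintro rfl
    exact hne hq'.symm
  have h5 := M.nearest ν h q hq h4
  rw [← hq', (M.rot i).isometry.dist_eq, (M.rot i).isometry.dist_eq] at h3
  exact absurd h3 (not_lt.2 h5.le)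

open Classical in
/-- A `C^k` function on a neighbourhood of `ℝⁿ × N × ℝ` which on `ℝⁿ × N × ℝ` has the right periods
defines an element of `C^k(M × 𝕋)`. -/
def ofFun {k : ℕ∞} (f : Fun n m) (hf : ContDiffOn ℝ k f {q | q.2.1 ∈ M.U})
    (hper : ∀ i x ν t, ν ∈ M.N → f (x + M.τ i, M.rot i ν, t) = f (x, ν, t))
    (hper' : ∀ x ν t, ν ∈ M.N → f (x, ν, t + 1) = f (x, ν, t)) : Pot M k where
  toFun := fun q => if q.2.1 ∈ M.U then f (q.1, M.r q.2.1, q.2.2) else 0
  contDiff := by
    have h1 : ContDiffOn ℝ k (fun q : Vec n × Vec m × ℝ => (q.1, M.r q.2.1, q.2.2))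
        {q | q.2.1 ∈ M.U} := by
      have h2 : ContDiffOn ℝ k (fun q : Vec n × Vec m × ℝ => M.r q.2.1) {q | q.2.1 ∈ M.U} :=
        (M.smooth.of_le (by exact_mod_cast le_top)).comp
          (contDiff_fst.comp contDiff_snd).contDiffOn (fun q hq => hq)
      exact contDiffOn_fst.prodMk (h2.prodMk (contDiff_snd.comp contDiff_snd).contDiffOn)
    refine (hf.comp h1 (fun q hq => r_mem_U M hq)).congr fun q hq => ?_
    exact if_pos hq
  ext := fun x ν t h => by
    simp only [if_pos h, if_pos (r_mem_U M h), r_of_mem M (M.mem ν h)]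
  out := fun x ν t h => if_neg h
  periodic := ⟨fun i x ν t h => by
    simp only [if_pos h, if_pos ((rot_U M i).2 h), r_rot' M i h]
    exact hper i x (M.r ν) t (M.mem ν h), fun x ν t h => by
    simp only [if_pos h]
    exact hper' x (M.r ν) t (M.mem ν h)⟩

theorem ofFun_apply {k : ℕ∞} (f : Fun n m) (hf : ContDiffOn ℝ k f {q | q.2.1 ∈ M.U})
    (hper : ∀ i x ν t, ν ∈ M.N → f (x + M.τ i, M.rot i ν, t) = f (x, ν, t))
    (hper' : ∀ x ν t, ν ∈ M.N → f (x, ν, t + 1) = f (x, ν, t)) {x : Vec n} {ν : Vec m} {t : ℝ}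
    (hν : ν ∈ M.N) : (ofFun M f hf hper hper').toFun (x, ν, t) = f (x, ν, t) := by
  have h : (ofFun M f hf hper hper').toFun (x, ν, t) = f (x, M.r ν, t) := if_pos (M.sub hν)
  rw [h, r_of_mem M hν]

/-- an element of `Pot M k` is determined by its values on `ℝⁿ × N × ℝ` -/
theorem pot_ext {k : ℕ∞} (f g : Pot M k)
    (h : ∀ x t, ∀ ν ∈ M.N, f.toFun (x, ν, t) = g.toFun (x, ν, t)) : f.toFun = g.toFun := by
  funext q
  obtain ⟨x, ν, t⟩ := q
  by_cases hν : ν ∈ M.U
  · rw [f.ext x ν t hν, g.ext x ν t hν]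
    exact h x t _ (M.mem ν hν)
  · rw [f.out x ν t hν, g.out x ν t hν]

/-- Without potential the speed is constant, so the geodesic flow has no orbit that tends to
infinity. -/
theorem not_escape_zero : ¬ HasEscapingOrbit M 0 := by
  rintro ⟨x, ν, ho, hlim⟩
  have hd : ∀ t, 0 < t → HasDerivAt (fun t => ‖deriv x t‖ ^ 2 + ‖deriv ν t‖ ^ 2) 0 t := by
    intro t ht
    obtain ⟨h1, h2, h3, h4, h5, h6⟩ := ho t ht
    have hX : HasDerivAt (fun s => x (t + s)) (deriv x t) 0 := by
      have : HasDerivAt x (deriv x t) (t + 0) := by rw [add_zero]; exact h2.hasDerivAt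
      exact this.comp_const_add t 0
    have hY' : HasDerivAt (fun s => ν (t + s)) (deriv ν t) 0 := by
      have : HasDerivAt ν (deriv ν t) (t + 0) := by rw [add_zero]; exact h3.hasDerivAt
      exact this.comp_const_add t 0
    have hev : (fun s : ℝ => if -t < s then ν (t + s) else ν t) =ᶠ[𝓝 0] fun s => ν (t + s) := by
      filter_upwards [lt_mem_nhds (show -t < 0 by linarith)] with s hs
      exact if_pos hs
    have h7 := h6 (fun s => x (t + s)) (fun s => if -t < s then ν (t + s) else ν t)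
      (deriv x t) (deriv ν t) (by simp) (by simp [ht]) (fun s => by
        show (if -t < s then ν (t + s) else ν t) ∈ M.N
        split_ifs with hs
        · exact (ho (t + s) (by linarith)).1
        · exact h1) hX (hY'.congr_of_eventuallyEq hev)
    have h8 : inner ℝ (deriv (deriv x) t) (deriv x t) + inner ℝ (deriv (deriv ν) t) (deriv ν t) =
        (0 : ℝ) := h7.unique (hasDerivAt_const (0 : ℝ) (0 : ℝ))
    have h9 := (h4.hasDerivAt.norm_sq).add (h5.hasDerivAt.norm_sq)
    have h10 : 2 * inner ℝ (deriv x t) (deriv (deriv x) t) +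
        2 * inner ℝ (deriv ν t) (deriv (deriv ν) t) = (0 : ℝ) := by
      rw [real_inner_comm (deriv (deriv x) t) (deriv x t),
        real_inner_comm (deriv (deriv ν) t) (deriv ν t)] at *
      linarith
    rw [h10] at h9
    exact h9
  have hc : ∀ t, 1 ≤ t → ‖deriv x t‖ ^ 2 + ‖deriv ν t‖ ^ 2 =
      ‖deriv x 1‖ ^ 2 + ‖deriv ν 1‖ ^ 2 := by
    intro t ht
    have h1 := constant_of_has_deriv_right_zero (a := 1) (b := t)
      (f := fun t => ‖deriv x t‖ ^ 2 + ‖deriv ν t‖ ^ 2)
      (fun s hs => (hd s (by linarith [hs.1])).continuousAt.continuousWithinAt)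
      (fun s hs => (hd s (by linarith [hs.1])).hasDerivWithinAt) t ⟨ht, le_rfl⟩
    exact h1
  have h2 := (hlim.eventually_gt_atTop (‖deriv x 1‖ ^ 2 + ‖deriv ν 1‖ ^ 2)).and
    (eventually_ge_atTop 1)
  obtain ⟨t, h3, h4⟩ := h2.exists
  have := hc t h4
  linarith

end

end EscN.T.Sane
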