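import Pool.Agent.EscN.Dense2
import Pool.Agent.EscN.Dec

/-!
Density of the stages.
-/

noncomputable section

namespace EscN

open MeasureTheory Set Filter Topology Esc
open scoped ContDiff

variable {d : ℕ} {E : Type*} [NormedAddCommGroup E] [InnerProductSpace ℝ E] [FiniteDimensional ℝ E]
  (L : Sp d E)

/-- a point of the middle strip where the sum of the barriers is almost minimal -/
theorem mid_point_datW {p β M0 s s' δ B Λ κ e0 : ℝ} {Sy : ℝ → ℝ → ℝ} {f : E → ℝ → ℝ} (hf : L.IsPot f)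
    (hK : ∀ s, KD (L.kbar f s) (L.cell p) (L.room p) B Λ)
    (hS : SData Sy p β 0 e0 (β ^ 2 / 200)) (hκ : κ ≤ β ^ 2 / 200) (hW : L.DatW M0 Sy κ f)
    (hs : M0 ≤ s) (hs' : M0 ≤ s')
    (hδ : ∀ z ∈ L.room p, ∀ z' ∈ L.room p, |L.kbar f s z z' - L.kbar f s' z z'| ≤ δ)
    {zs : E} (hzs : zs ∈ L.room p) :
    ∃ z0 ∈ L.S, 3 / 8 ≤ L.y z0 - p ∧ L.y z0 - p ≤ 5 / 8 ∧
      ∀ z ∈ L.S, 1 / 8 ≤ L.y z - p → L.y z - p ≤ 7 / 8 →
      Wg L f p s s' zs z0 ≤ Wg L f p s s' zs z + 2 * Lat.R1 β * δ :=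
  mid_point (geo L p) (hK s) (hK s') (kInv L hf s) (kInv L hf s') hS
    (nmin_of_datW L (hK s) hW hκ hs) (nmin_of_datW L (hK s') hW hκ hs') hδ hzs

theorem stage_dense' (hd : 0 < d) {p β M0 : ℝ} {f : E → ℝ → ℝ} (hf : L.IsPot f)
    (hD : L.Dat p β M0 f) {m : ℕ} (hm : M0 ≤ m) (N : L.SmNorm) {ε : ℝ} (hε : 0 < ε) :
    ∃ G, L.IsSm G ∧ N.nm G < ε ∧ L.Stage p β m (fun x t => f x t + G x t) := by
  classical
  -- constants
  obtain ⟨Sy, e0, hS, κ, hκ0, hκ, hW⟩ := sdata_of_dat L hD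
  obtain ⟨R, hR⟩ : ∃ R : ℕ, R = Lat.R1 β := ⟨_, rfl⟩
  obtain ⟨Dm, ρ1, hρ1, hcells⟩ := exists_cells L
  obtain ⟨ρ2, hρ2, hbump⟩ := exists_bump L
  obtain ⟨ρ0, hρ0, hdisp⟩ := exists_disp L
  obtain ⟨N0, hN0⟩ : ∃ N0 : ℕ, N0 = 2 * (2 * (2 * ((R + 1) * Dm)) + 1) := ⟨_, rfl⟩
  have hN0r : (0:ℝ) ≤ N0 := Nat.cast_nonneg _
  obtain ⟨r, hr0, hr1, hr2, hr3, hr4, hr5⟩ : ∃ r : ℝ, 0 < r ∧ r ≤ ρ1 ∧ r ≤ ρ2 ∧ r ≤ 1 / 64 ∧
      4 * r * (N0 + 3) ≤ ρ0 ∧ 4 * r * (N0 + 3) ≤ 1 / 8 := by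
    have hpos : (0:ℝ) < 4 * (N0 + 3) := by positivity
    refine ⟨min (min ρ1 ρ2) (min (1 / 64) (min (ρ0 / (4 * (N0 + 3))) (1 / 8 / (4 * (N0 + 3))))),
      ?_, ?_, ?_, ?_, ?_, ?_⟩
    · exact lt_min (lt_min hρ1 hρ2) (lt_min (by norm_num) (lt_min (by positivity) (by positivity)))
    · exact (min_le_left _ _).trans (min_le_left _ _)
    · exact (min_le_left _ _).trans (min_le_right _ _)
    · exact (min_le_right _ _).trans (min_le_left _ _)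
    · have h1 : min (min ρ1 ρ2) (min (1 / 64) (min (ρ0 / (4 * (N0 + 3))) (1 / 8 / (4 * (N0 + 3))))) ≤
          ρ0 / (4 * (N0 + 3)) := (min_le_right _ _).trans ((min_le_right _ _).trans (min_le_left _ _))
      rw [le_div_iff₀ hpos] at h1
      linarith
    · have h1 : min (min ρ1 ρ2) (min (1 / 64) (min (ρ0 / (4 * (N0 + 3))) (1 / 8 / (4 * (N0 + 3))))) ≤
          1 / 8 / (4 * (N0 + 3)) := (min_le_right _ _).trans ((min_le_right _ _).trans (min_le_right _ _))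
      rw [le_div_iff₀ hpos] at h1
      linarith
  obtain ⟨C, hCm, _, hCcov, hCsep, hCmult⟩ := hcells (p + 1 / 4) (p + 3 / 4) (by linarith) (by linarith)
    r hr0 hr1
  choose gbE hgb01 hgb1 hgb0 hgbsm using fun c : {c // c ∈ C} => hbump r hr0 hr2 c.1 (hCm c.1 c.2).1
  have hCP : CellP L (fun c : {c // c ∈ C} => c.1) gbE r Dm p :=
    { ct_S := fun c => (hCm c.1 c.2).1
      ct_lo := fun c => by have := (hCm c.1 c.2).2.1; linarith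
      ct_hi := fun c => by have := (hCm c.1 c.2).2.2; linarith
      r_pos := hr0
      r_le := hr3
      g01 := hgb01
      g1 := hgb1
      g0 := hgb0
      sm := hgbsm
      mult := fun x C' hC' => by
        have h1 := hCmult x (C'.image fun c => c.1) (fun c hc => by
          rw [Finset.mem_image] at hc
          obtain ⟨c', _, rfl⟩ := hc
          exact c'.2) (fun c hc => by
          rw [Finset.mem_image] at hc
          obtain ⟨c', hc', rfl⟩ := hc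
          exact hC' c' hc')
        rwa [Finset.card_image_of_injective _ Subtype.val_injective] at h1 }
  have hCcov' : ∀ z ∈ L.S, 1 / 4 ≤ L.y z - p → L.y z - p ≤ 3 / 4 → ∃ c ∈ C, ∃ n : Fin d → ℤ,
      dist z (L.dk n c) ≤ r := fun z hz h1 h2 => hCcov z hz (by linarith) (by linarith)
  obtain ⟨Cv, hCv, hv1, hv2⟩ := vel_bounds L (m : ℝ) (m + 1)
  obtain ⟨M, B, Λ, w, ε', ε1, hε', hε1, hw0, hw1, hε1a, hfar, hsum⟩ :=
    exists_far_setup (Vm := Cv) L hCP hf hS hκ hW N hε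
  obtain ⟨Cs, hCs, hspeed⟩ := kbar_speed L M
  obtain ⟨C1, hC1⟩ : ∃ C1 : ℝ, C1 = 2 * R * (Cs * Cv) + Cv + 1 := ⟨_, rfl⟩
  have hC1p : 0 < C1 := by
    have : 0 ≤ 2 * (R : ℝ) * (Cs * Cv) := by positivity
    linarith
  obtain ⟨NF, hNF⟩ : ∃ NF : ℕ, NF = Fintype.card {c // c ∈ C} := ⟨_, rfl⟩
  obtain ⟨q, hq⟩ := exists_nat_gt (max (2 * C1 * ((NF : ℝ) + 1) ^ 2 / ε') (max Cv 1))
  have hq1 : 2 * C1 * ((NF : ℝ) + 1) ^ 2 / ε' < q := (le_max_left _ _).trans_lt hq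
  have hq2 : Cv < q := (le_max_left _ _).trans_lt ((le_max_right _ _).trans_lt hq)
  have hq3 : (1:ℝ) < q := (le_max_right _ _).trans_lt ((le_max_right _ _).trans_lt hq)
  have hq0 : 0 < q := by
    have : (0:ℝ) < q := by linarith
    exact_mod_cast this
  obtain ⟨J, hJ⟩ : ∃ J : ℕ, J = q ^ 2 := ⟨_, rfl⟩
  have hJ0 : 0 < J := by rw [hJ]; positivity
  have hJr : (J : ℝ) = (q : ℝ) ^ 2 := by rw [hJ]; push_cast; ring
  have hJp : (0:ℝ) < J := by exact_mod_cast hJ0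
  obtain ⟨Lc, hLc⟩ : ∃ Lc : ℕ, Lc = q * (NF + 1) ^ 2 := ⟨_, rfl⟩
  have hLc0 : 0 < Lc := by rw [hLc]; positivity
  have hLcr : (Lc : ℝ) = q * ((NF : ℝ) + 1) ^ 2 := by rw [hLc]; push_cast; ring
  -- speeds
  obtain ⟨s, hs⟩ : ∃ s : ℕ → ℝ, ∀ i, s i = (m : ℝ) + (i : ℝ) / J := ⟨fun i => (m : ℝ) + (i : ℝ) / J, fun _ => rfl⟩
  have hsb : ∀ i ≤ J, (m : ℝ) ≤ s i ∧ s i ≤ m + 1 := by
    intro i hi
    have h1 : (0:ℝ) ≤ (i : ℝ) / J := by positivity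
    have h2 : (i : ℝ) / J ≤ 1 := by
      rw [div_le_one hJp]; exact_mod_cast hi
    rw [hs]
    constructor <;> linarith
  have hsM : ∀ i ≤ J, M0 ≤ s i := fun i hi => hm.trans (hsb i hi).1
  have hsd : ∀ i < J, ‖L.vel (s (i + 1)) - L.vel (s i)‖ ≤ Cv / J := by
    intro i hi
    have h1 := hv2 _ (hsb (i + 1) hi) _ (hsb i hi.le)
    have h2 : s (i + 1) - s i = 1 / J := by rw [hs, hs]; push_cast; ring
    rw [h2, abs_of_nonneg (by positivity)] at h1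
    calc _ ≤ _ := h1
      _ = Cv / J := by ring
  have hCJ : Cv / J ≤ 1 := by
    rw [div_le_one hJp, hJr]
    nlinarith
  -- approximate decoupling
  obtain ⟨ηD, hηD⟩ : ∃ ηD : ℝ, ηD = 1 / (128 * J) := ⟨_, rfl⟩
  have hηDp : 0 < ηD := by rw [hηD]; positivity
  obtain ⟨G1, hG1, hG1n, hG1g, hdec⟩ := dec_dense_fin L hd hf hD s J hsM (η := ηD) hηDp N hε1
  set f1 : E → ℝ → ℝ := fun x t => f x t + G1 x t with hf1
  have hF : FarS L (fun c : {c // c ∈ C} => c.1) gbE r Dm Sy e0 f1 p β M0 M B Λ Cv w ε' :=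
    hfar f1 ⟨G1, hG1, hG1g, rfl⟩
  have hpot1 : L.IsPot f1 := isPot_add L hf (isSm_isPot L hG1)
  obtain ⟨zs, hzs⟩ := exists_nf L (p := p) hS
  -- good parameters
  obtain ⟨h, hh⟩ : ∃ h : ℝ, h = C1 / J := ⟨_, rfl⟩
  have hh0 : 0 ≤ h := by rw [hh]; positivity
  have hstep : 2 * h < ε' / Lc := by
    rw [hh, hLcr, hJr]
    have hqp : (0:ℝ) < q := by linarith
    have hNp : (0:ℝ) < ((NF : ℝ) + 1) ^ 2 := by positivity
    rw [div_lt_iff₀ hε'] at hq1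
    have e1 : 2 * (C1 / (q : ℝ) ^ 2) = (2 * C1) / (q : ℝ) ^ 2 := by ring
    rw [e1, div_lt_div_iff₀ (by positivity) (by positivity)]
    have e2 : 2 * C1 * (q * ((NF : ℝ) + 1) ^ 2) = q * (2 * C1 * ((NF : ℝ) + 1) ^ 2) := by ring
    have e3 : ε' * (q : ℝ) ^ 2 = q * (q * ε') := by ring
    rw [e2, e3]
    exact mul_lt_mul_of_pos_left hq1 hqp
  have hcount : J * Fintype.card {c // c ∈ C} ^ 3 < (Lc + 1) ^ 2 := by
    rw [← hNF, hJ, hLc]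
    have h1 : NF ^ 3 ≤ (NF + 1) ^ 4 :=
      (Nat.pow_le_pow_left (Nat.le_succ NF) 3).trans (Nat.pow_le_pow_right (Nat.succ_pos NF) (by norm_num))
    calc q ^ 2 * NF ^ 3 ≤ q ^ 2 * (NF + 1) ^ 4 := Nat.mul_le_mul_left _ h1
      _ = (q * (NF + 1) ^ 2) ^ 2 := by ring
      _ < (q * (NF + 1) ^ 2 + 1) ^ 2 := Nat.pow_lt_pow_left (Nat.lt_succ_self _) (by norm_num)
  obtain ⟨σ, hσ, hgood⟩ := exists_good_sigma (L := L) hF (J := J) s
    (fun i hi => ⟨hsM i hi, hv1 _ (hsb i hi)⟩) hzs hLc0 hh0 hstep hcount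
  rw [← hR, ← hN0] at hgood
  obtain ⟨f2, hf2⟩ : ∃ f2 : E → ℝ → ℝ, f2 = pf gbE f1 w σ := ⟨_, rfl⟩
  rw [← hf2] at hgood
  have hpot2 : L.IsPot f2 := by rw [hf2]; exact hF.pot σ hσ
  obtain ⟨κ2, hκ2, hW2⟩ := hF.datW σ hσ
  rw [← hf2] at hW2
  have hgood2 : Good M f2 := by rw [hf2]; exact hF.good σ hσ
  have hkd2 : ∀ s, KD (L.kbar f2 s) (L.cell p) (L.room p) B Λ := by rw [hf2]; exact hF.kd σ hσ
  -- decoupled barriers
  have hbar : ∀ i ≤ J, ∀ z ∈ L.room p, ∀ z' ∈ L.room p, ∀ w ∈ L.room p, ∀ w' ∈ L.room p,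
      |bar (L.kbar f2 (s i)) (L.cell p) z z' + bar (L.kbar f2 (s i)) (L.cell p) w w'
        - bar (L.kbar f2 (s i)) (L.cell p) z w' - bar (L.kbar f2 (s i)) (L.cell p) w z'| ≤ 4 * ηD :=
    fun i hi => by
      rw [hf2]
      exact dec_far L hF hσ (hsM i hi) (hv1 _ (hsb i hi)) (dec_bar L hpot1 (hdec i hi))
  -- windows
  have hwin : ∀ i : ℕ, ∃ F : Finset ℕ, F.Nonempty ∧ (∀ T ∈ F, 2 * R + 2 ≤ T) ∧
      ∀ z ∈ L.room p, ∀ z' ∈ L.room p,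
      |gk (L.kbar f2 (s i)) (L.cell p) F (fun T => al (L.kbar f2 (s i)) (L.cell p) * T) z z' -
        bar (L.kbar f2 (s i)) (L.cell p) z z'| ≤ 1 / (16 * J) := fun i =>
    bar_win (hkd2 (s i)) (by positivity) (2 * R + 2)
  choose F hFne hFT hFw using hwin
  -- middle points
  obtain ⟨δJ, hδJ⟩ : ∃ δJ : ℝ, δJ = Cs * (Cv / J) := ⟨_, rfl⟩
  have hdiff : ∀ i < J, ∀ z ∈ L.room p, ∀ z' ∈ L.room p,
      |L.kbar f2 (s i) z z' - L.kbar f2 (s (i + 1)) z z'| ≤ δJ := by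
    intro i hi z hz z' hz'
    have h1 := hsd i hi
    rw [norm_sub_rev] at h1
    have h2 : |L.y z - L.y z'| ≤ 2 := by
      have a : |L.y z - p| ≤ 7 / 8 := hz.2
      have b : |L.y z' - p| ≤ 7 / 8 := hz'.2
      rw [abs_le] at a b ⊢
      constructor <;> linarith [a.1, a.2, b.1, b.2]
    refine (hspeed f2 hgood2 _ _ (h1.trans hCJ) z hz.1 z' hz'.1 h2).trans ?_
    rw [hδJ]
    exact mul_le_mul_of_nonneg_left h1 hCs.le
  have hmid : ∀ i : ℕ, ∃ z0 : E, i < J → (z0 ∈ L.S ∧ 3 / 8 ≤ L.y z0 - p ∧ L.y z0 - p ≤ 5 / 8 ∧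
      ∀ z ∈ L.S, 1 / 8 ≤ L.y z - p → L.y z - p ≤ 7 / 8 →
        Wg L f2 p (s i) (s (i + 1)) zs z0 ≤ Wg L f2 p (s i) (s (i + 1)) zs z + 2 * R * δJ) := by
    intro i
    by_cases hi : i < J
    · obtain ⟨z0, h0, h1, h2, h3⟩ := mid_point_datW L hpot2 hkd2 hS hκ2 hW2 (hsM i hi.le)
        (hsM (i + 1) hi) (hdiff i hi) hzs.1
      rw [← hR] at h3
      exact ⟨z0, fun _ => ⟨h0, h1, h2, h3⟩⟩
    · exact ⟨0, fun h => absurd h hi⟩
  choose z0 hz0 using hmid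
  have hhδ : 2 * R * δJ + Cv / J + 1 / J = h := by
    rw [hh, hC1, hδJ]; ring
  -- clusters
  have hclu : ∀ i : ℕ, ∃ D : Set E, i < J → (IsCompact D ∧ D ⊆ L.S ∧ z0 i ∈ D ∧
      (∀ z ∈ D, 1 / 4 ≤ L.y z - p ∧ L.y z - p ≤ 3 / 4) ∧ (∀ z ∈ D, ‖z - z0 i‖ ≤ 1) ∧
      ∀ z ∈ L.fr D, Wg L f2 p (s i) (s (i + 1)) zs (z0 i) - 2 * R * δJ + h <
        Wg L f2 p (s i) (s (i + 1)) zs z) := by
    intro i
    by_cases hi : i < J
    · obtain ⟨h0, h1, h2, h3⟩ := hz0 i hi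
      have hle : 2 * R * δJ ≤ h := by
        have : 0 ≤ Cv / J := by positivity
        have : 0 ≤ 1 / (J : ℝ) := by positivity
        linarith
      obtain ⟨D, hD1, hD2, hD3, hD4, hD5, hD6⟩ := cluster_dat (N0 := N0) L (p := p) hr0 hCcov' hCsep
        hdisp hr4 hr5 (ℓ := Wg L f2 p (s i) (s (i + 1)) zs (z0 i) - 2 * R * δJ + h)
        (Wg L f2 p (s i) (s (i + 1)) zs) h0 h1 h2 (by linarith)
        (fun I hI => hgood i hi (Wg L f2 p (s i) (s (i + 1)) zs (z0 i) - 2 * R * δJ)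
          (fun z hzS hz hz' => by have := h3 z hzS hz hz'; linarith) I hI)
      exact ⟨D, fun _ => ⟨hD1, hD2, hD3, hD4, hD5, hD6⟩⟩
    · exact ⟨∅, fun h => absurd h hi⟩
  choose D hDD using hclu
  refine ⟨fun x t => G1 x t + ∑ c : {c // c ∈ C}, σ c * (gbE c x * H33.zt w t),
    isSm_add L hG1 (hsum σ hσ).1, ?_, ?_⟩
  · have h1 := N.add_le _ _ hG1 (hsum σ hσ).1
    have h2 := (hsum σ hσ).2
    linarith
  · have hfe : (fun x t => f x t + (G1 x t + ∑ c : {c // c ∈ C}, σ c * (gbE c x * H33.zt w t))) = f2 := by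
      funext x t
      rw [hf2]; simp only [pf, hf1]; ring
    rw [hfe]
    refine ⟨J, s, F, fun i T => al (L.kbar f2 (s i)) (L.cell p) * T, D, 1 / (2 * J), hJ0, by positivity,
      ?_, ?_, hsb, fun i => ⟨hFne i, by rw [← hR]; exact hFT i⟩, fun i hi => ?_⟩
    · rw [hs]; simp
    · rw [hs]; rw [div_self hJp.ne']
    · obtain ⟨hD1, hD2, hD3, hD4, hD5, hD6⟩ := hDD i hi
      refine ⟨hD1, ⟨z0 i, hD3⟩, hD2, hD4, fun z hz => ⟨z0 i, hD3, fun x hx x' hx' => ?_⟩⟩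
      have hzD : z ∈ D i := hz.1
      have hs0 := hD4 (z0 i) hD3
      have hs1 := hD4 z hzD
      have hJ1 : (1:ℝ) / (2 * J) = 8 * (1 / (16 * J)) := by field_simp; ring
      have hJ2 : (1:ℝ) / J = 16 * (1 / (16 * J)) := by field_simp
      have hJ3 : 4 * ηD = 1 / 2 * (1 / (16 * J)) := by rw [hηD]; field_simp; ring
      have hJ4 : (0:ℝ) < 1 / (16 * J) := by positivity
      refine gate_ineq L (η := 4 * ηD) (η2 := 1 / (16 * J)) (h := h - 2 * R * δJ) (κ := Cv / J)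
        (hD2 hD3) (hD2 hzD)
        ⟨by linarith [hs0.1], by linarith [hs0.2]⟩ ⟨by linarith [hs1.1], by linarith [hs1.2]⟩ hx hx' hzs.1
        (hFw i) (hFw (i + 1)) (hbar i hi.le) (hbar (i + 1) hi) ?_ ?_ ?_
      · have := hD6 z hz; linarith
      · refine (abs_real_inner_le_norm _ _).trans ?_
        have e : Cv / J = Cv / J * 1 := by ring
        rw [e]
        exact mul_le_mul (hsd i hi) (hD5 z hzD) (norm_nonneg _) (by positivity)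
      · linarith

theorem stage_dense (hd : 0 < d) {p β M0 : ℝ} {f : E → ℝ → ℝ} (hf : L.IsPot f)
    (hD : L.Dat p β M0 f) {q : ℕ} (hq : M0 ≤ q) (N : L.SmNorm) {ε : ℝ} (hε : 0 < ε) :
    ∃ G, L.IsSm G ∧ N.nm G < ε ∧ L.Stage p β q (fun x t => f x t + G x t) :=
  stage_dense' L hd hf hD hq N hε

end EscN
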