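import Pool.Agent.EscN.O1
import Pool.Agent.helper42.Esc.K

/-!
Project ESCN, T1: a compact connected set with a smooth retraction is connected by admissible
trajectories of bounded speed.
-/

noncomputable section

namespace EscN

open MeasureTheory Set Filter Topology Esc
open scoped ContDiff

variable {E : Type*} [NormedAddCommGroup E] [InnerProductSpace ℝ E]

/-- `x` and `y` are connected in `S`, in time one, by a trajectory of speed at most `C` -/
def Cn (S : Set E) (C : ℝ) (x y : E) : Prop :=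
  ∃ u : ℝ → E, Adm u ∧ (∀ t, ‖u t‖ ≤ C) ∧ InS S 0 1 x u ∧ traj 0 x u 1 = y

theorem Cn.mono {S : Set E} {C C' : ℝ} (h : C ≤ C') {x y : E} (hC : Cn S C x y) : Cn S C' x y := by
  obtain ⟨u, h1, h2, h3, h4⟩ := hC
  exact ⟨u, h1, fun t => (h2 t).trans h, h3, h4⟩

theorem Cn.trans [FiniteDimensional ℝ E] {S : Set E} {C C' : ℝ} {x y z : E} (h : Cn S C x y)
    (h' : Cn S C' y z) : Cn S (2 * max C C') x z := by
  have : CompleteSpace E := FiniteDimensional.complete ℝ E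
  obtain ⟨u₁, ⟨m₁, -⟩, b₁, i₁, e₁⟩ := h
  obtain ⟨u₂, ⟨m₂, -⟩, b₂, i₂, e₂⟩ := h'
  have B₁ : ∀ t, ‖(2 : ℝ) • u₁ (2 * t)‖ ≤ 2 * max C C' := by
    intro t
    rw [norm_smul, Real.norm_ofNat]
    exact mul_le_mul_of_nonneg_left ((b₁ _).trans (le_max_left _ _)) (by norm_num)
  have B₂ : ∀ t, ‖(2 : ℝ) • u₂ (2 * t - 1)‖ ≤ 2 * max C C' := by
    intro t
    rw [norm_smul, Real.norm_ofNat]
    exact mul_le_mul_of_nonneg_left ((b₂ _).trans (le_max_right _ _)) (by norm_num)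
  have A₁ : Adm fun t => (2 : ℝ) • u₁ (2 * t) :=
    ⟨(m₁.comp_measurable (measurable_id.const_mul 2)).const_smul 2, _, B₁⟩
  have A₂ : Adm fun t => (2 : ℝ) • u₂ (2 * t - 1) :=
    ⟨(m₂.comp_measurable ((measurable_id.const_mul 2).sub_const 1)).const_smul 2, _, B₂⟩
  have T₁ : ∀ t, traj 0 x (fun t => (2 : ℝ) • u₁ (2 * t)) t = traj 0 x u₁ (2 * t) := by
    intro t
    unfold traj
    rw [intervalIntegral.integral_smul, intervalIntegral.smul_integral_comp_mul_left, mul_zero]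
  have T₂ : ∀ t, traj (1 / 2) y (fun t => (2 : ℝ) • u₂ (2 * t - 1)) t = traj 0 y u₂ (2 * t - 1) := by
    intro t
    unfold traj
    rw [intervalIntegral.integral_smul, intervalIntegral.smul_integral_comp_mul_sub]
    norm_num
  have hy : traj 0 x (fun t => (2 : ℝ) • u₁ (2 * t)) (1 / 2) = y := by
    rw [T₁, ← e₁]
    norm_num
  have R : ∀ t, 1 / 2 ≤ t → traj 0 x (cat (1 / 2) (fun t => (2 : ℝ) • u₁ (2 * t))
      (fun t => (2 : ℝ) • u₂ (2 * t - 1))) t = traj 0 y u₂ (2 * t - 1) := by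
    intro t ht
    rw [traj_cat_right A₁ A₂ (by norm_num) ht, hy, T₂]
  refine ⟨cat (1 / 2) (fun t => (2 : ℝ) • u₁ (2 * t)) (fun t => (2 : ℝ) • u₂ (2 * t - 1)),
    A₁.cat A₂ _, fun t => ?_, fun t ht => ?_, ?_⟩
  · unfold cat
    split_ifs
    · exact B₁ t
    · exact B₂ t
  · rcases le_total t (1 / 2) with h | h
    · rw [traj_cat_left (by norm_num) h, T₁]
      exact i₁ _ ⟨by linarith [ht.1], by linarith⟩
    · rw [R t h]
      exact i₂ _ ⟨by linarith, by linarith [ht.2]⟩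
  · rw [R 1 (by norm_num), ← e₂]
    norm_num

theorem Cn.short [FiniteDimensional ℝ E] {S : Set E} {rt : E → E} {r0 Cr : ℝ} (h : Ret S rt r0 Cr)
    {x y : E} (hx : x ∈ S) (hy : y ∈ S) (hxy : ‖y - x‖ ≤ r0) : Cn S (Cr * r0) x y := by
  have hsm : ContDiff ℝ 1 rt := h.smooth.of_le (by exact_mod_cast le_top)
  have hA : Adm fun _ : ℝ => y - x := Adm.const (y - x)
  have hcont : Continuous (traj 0 x (fun _ : ℝ => y - x)) := Esc.Orb.traj_continuous hA x 0
  have ht : ∀ t : ℝ, traj 0 x (fun _ : ℝ => y - x) t = x + t • (y - x) := by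
    intro t
    unfold traj
    rw [intervalIntegral.integral_const, sub_zero]
  have hCr : 0 ≤ Cr := (norm_nonneg _).trans (h.bd 0)
  have key : ∀ t, traj 0 x (fun s => fderiv ℝ rt (traj 0 x (fun _ : ℝ => y - x) s) (y - x)) t =
      rt (x + t • (y - x)) := by
    intro t
    have h1 := traj_comp hsm h.bd hA 0 x t
    rw [ht, h.id x hx] at h1
    rw [h1]
    rfl
  refine ⟨fun s => fderiv ℝ rt (traj 0 x (fun _ : ℝ => y - x) s) (y - x),
    Adm_clm ((hsm.continuous_fderiv (by norm_num)).comp hcont) (fun s => h.bd _) hA, fun t => ?_,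
    fun t ht' => ?_, ?_⟩
  · exact (ContinuousLinearMap.le_opNorm _ _).trans (mul_le_mul (h.bd _) hxy (norm_nonneg _) hCr)
  · rw [key]
    refine h.mem x hx _ ?_
    rw [norm_smul, Real.norm_eq_abs, abs_of_nonneg ht'.1]
    calc t * ‖y - x‖ ≤ 1 * ‖y - x‖ := mul_le_mul_of_nonneg_right ht'.2 (norm_nonneg _)
      _ ≤ r0 := by rw [one_mul]; exact hxy
  · rw [key, one_smul, add_sub_cancel]
    exact h.id y hy

/-- a compact connected set with a smooth retraction is connected with bounded speed -/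
theorem conn_of_ret [FiniteDimensional ℝ E] {S : Set E} (hS : IsCompact S) (hc : IsPreconnected S)
    {rt : E → E} {r0 Cr : ℝ} (h : Ret S rt r0 Cr) :
    ∃ Cc : ℝ, ∀ ν ∈ S, ∀ ν' ∈ S, ∃ u : ℝ → E, Adm u ∧ (∀ t, ‖u t‖ ≤ Cc) ∧
      InS S 0 1 ν u ∧ traj 0 ν u 1 = ν' := by
  rcases S.eq_empty_or_nonempty with rfl | ⟨x0, hx0⟩
  · exact ⟨0, fun ν hν => absurd hν (Set.notMem_empty ν)⟩
  have h1 : ∀ x ∈ S, ∃ C, Cn S C x0 x ∧ Cn S C x x0 := by
    intro x hx
    refine hc.induction₂ (fun x y => ∃ C, Cn S C x y ∧ Cn S C y x) (fun x hx => ?_)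
      (fun x y z _ _ _ hxy hyz => ?_) (fun x y _ _ hxy => ?_) hx0 hx
    · have h2 : ∀ᶠ y in 𝓝 x, ‖y - x‖ ≤ r0 := by
        have := Metric.closedBall_mem_nhds x h.r0_pos
        filter_upwards [this] with y hy
        rwa [Metric.mem_closedBall, dist_eq_norm] at hy
      filter_upwards [self_mem_nhdsWithin, mem_nhdsWithin_of_mem_nhds h2] with y hy hyx
      exact ⟨_, Cn.short h hx hy hyx, Cn.short h hy hx (by rw [← norm_neg, neg_sub]; exact hyx)⟩
    · obtain ⟨C, a1, a2⟩ := hxy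
      obtain ⟨C', b1, b2⟩ := hyz
      exact ⟨2 * max C C', a1.trans b1, by rw [max_comm]; exact b2.trans a2⟩
    · obtain ⟨C, a1, a2⟩ := hxy
      exact ⟨C, a2, a1⟩
  have h3 : ∃ C, ∀ x ∈ S, Cn S C x0 x ∧ Cn S C x x0 := by
    refine hS.induction_on (p := fun T => ∃ C, ∀ x ∈ T ∩ S, Cn S C x0 x ∧ Cn S C x x0) ?_ ?_ ?_ ?_
      |>.imp fun C hC x hx => hC x ⟨hx, hx⟩
    · exact ⟨0, fun x hx => absurd hx.1 (Set.notMem_empty x)⟩
    · rintro T T' hT ⟨C, hC⟩
      exact ⟨C, fun x hx => hC x ⟨hT hx.1, hx.2⟩⟩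
    · rintro T T' ⟨C, hC⟩ ⟨C', hC'⟩
      refine ⟨max C C', fun x hx => ?_⟩
      rcases hx.1 with h4 | h4
      · have := hC x ⟨h4, hx.2⟩
        exact ⟨this.1.mono (le_max_left _ _), this.2.mono (le_max_left _ _)⟩
      · have := hC' x ⟨h4, hx.2⟩
        exact ⟨this.1.mono (le_max_right _ _), this.2.mono (le_max_right _ _)⟩
    · intro x hx
      obtain ⟨C, a1, a2⟩ := h1 x hx
      refine ⟨Metric.closedBall x r0, mem_nhdsWithin_of_mem_nhds (Metric.closedBall_mem_nhds x h.r0_pos),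
        2 * max C (Cr * r0), fun y hy => ?_⟩
      have hyx : ‖y - x‖ ≤ r0 := by
        have := hy.1
        rwa [Metric.mem_closedBall, dist_eq_norm] at this
      refine ⟨a1.trans (Cn.short h hx hy.2 hyx), ?_⟩
      rw [max_comm]
      exact (Cn.short h hy.2 hx (by rw [← norm_neg, neg_sub]; exact hyx)).trans a2
  obtain ⟨C, hC⟩ := h3
  exact ⟨2 * max C C, fun ν hν ν' hν' => (hC ν hν).2.trans (hC ν' hν').1⟩

end EscN
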