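import Pool.Agent.EscN.T1aChi
import Pool.Agent.EscN.T1conn

/-!
Module T1a of project ESCN: the submanifold `N`, a global smooth retraction, connections.
-/

noncomputable section

namespace EscN.T

open Filter Topology Set Esc
open scoped ContDiff

section T1a
variable {n m : ℕ} (M : FlatBundle n m)

theorem two_le_infty : (2 : ℕ∞ω) ≤ ∞ := by
  have h : ((2 : ℕ∞) : ℕ∞ω) ≤ ((⊤ : ℕ∞) : ℕ∞ω) := WithTop.coe_le_coe.mpr le_top
  exact h

/-- half of the square of the distance to `N` -/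
def gsq (y : Vec m) : ℝ := ‖y - M.r y‖ ^ 2 / 2

theorem gsq_contDiffAt {y : Vec m} (hy : y ∈ M.U) : ContDiffAt ℝ ∞ (gsq M) y := by
  have hr : ContDiffAt ℝ ∞ M.r y := M.smooth.contDiffAt (M.isOpen.mem_nhds hy)
  exact ((contDiffAt_id.sub hr).norm_sq ℝ).div_const _

/-- the gradient of half of the square of the distance -/
theorem gsq_fderiv {y : Vec m} (hy : y ∈ M.U) (w : Vec m) :
    fderiv ℝ (gsq M) y w = inner ℝ (y - M.r y) w := by
  have hg : DifferentiableAt ℝ (gsq M) y := (gsq_contDiffAt M hy).differentiableAt (by simp)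
  have h1 : HasFDerivAt (fun z : Vec m => ‖z - M.r y‖ ^ 2 / 2) _ y :=
    ((((hasFDerivAt_id y).sub_const (M.r y)).norm_sq).const_smul (1 / 2 : ℝ)).congr_of_eventuallyEq
      (Eventually.of_forall fun z => by
        simp only [id, smul_eq_mul, Pi.smul_apply]
        ring)
  have h4 : HasFDerivAt (fun z : Vec m => ‖z - M.r y‖ ^ 2 / 2 - gsq M z) _ y :=
    h1.sub hg.hasFDerivAt
  have hmin : IsLocalMin (fun z : Vec m => ‖z - M.r y‖ ^ 2 / 2 - gsq M z) y := by
    filter_upwards [M.isOpen.mem_nhds hy] with z hz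
    have h5 : ‖z - M.r z‖ ≤ ‖z - M.r y‖ := by
      rw [← dist_eq_norm, ← dist_eq_norm]
      by_cases hzy : M.r y = M.r z
      · rw [hzy]
      · exact (M.nearest z hz (M.r y) (M.mem y hy) hzy).le
    have h6 : ‖z - M.r z‖ ^ 2 ≤ ‖z - M.r y‖ ^ 2 := pow_le_pow_left₀ (norm_nonneg _) h5 2
    simp only [gsq]
    linarith
  have h7 := hmin.hasFDerivAt_eq_zero h4
  have h8 := congrArg (fun A : Vec m →L[ℝ] ℝ => A w) h7
  simp at h8
  rw [inner_sub_left]
  linarith

/-- the derivative of the nearest point map is symmetric along `N` -/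
theorem r_sym {x : Vec m} (hx : x ∈ M.U) (v w : Vec m) :
    inner ℝ (fderiv ℝ M.r x v) w = inner ℝ v (fderiv ℝ M.r x w) := by
  have hU : M.U ∈ 𝓝 x := M.isOpen.mem_nhds hx
  have hr : ContDiffAt ℝ ∞ M.r x := M.smooth.contDiffAt hU
  have hrd : HasFDerivAt M.r (fderiv ℝ M.r x) x := (hr.differentiableAt (by simp)).hasFDerivAt
  have hgc := gsq_contDiffAt M hx
  have hsymm : IsSymmSndFDerivAt ℝ (gsq M) x := hgc.isSymmSndFDerivAt (by
    rw [minSmoothness_of_isRCLikeNormedField]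
    exact two_le_infty)
  have hdd : HasFDerivAt (fderiv ℝ (gsq M)) (fderiv ℝ (fderiv ℝ (gsq M)) x) x := by
    have h1 : ContDiffAt ℝ 1 (fderiv ℝ (gsq M)) x :=
      (hgc.of_le two_le_infty).fderiv_right (m := 1) (by norm_num)
    exact (h1.differentiableAt (by simp)).hasFDerivAt
  have key : ∀ v w : Vec m, fderiv ℝ (fderiv ℝ (gsq M)) x v w =
      inner ℝ (v - fderiv ℝ M.r x v) w := by
    intro v w
    have h1 : HasFDerivAt (fun y => fderiv ℝ (gsq M) y w)
        ((ContinuousLinearMap.apply ℝ ℝ w).comp (fderiv ℝ (fderiv ℝ (gsq M)) x)) x :=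
      (ContinuousLinearMap.apply ℝ ℝ w).hasFDerivAt.comp x hdd
    have h2 : HasFDerivAt (fun y => (inner ℝ (y - M.r y) w : ℝ)) _ x :=
      ((hasFDerivAt_id x).sub hrd).inner ℝ (hasFDerivAt_const w x)
    have h3 : (fun y => fderiv ℝ (gsq M) y w) =ᶠ[𝓝 x] fun y => (inner ℝ (y - M.r y) w : ℝ) := by
      filter_upwards [hU] with y hy
      exact gsq_fderiv M hy w
    have h4 := (h2.congr_of_eventuallyEq h3).unique h1
    have h5 := congrArg (fun A : Vec m →L[ℝ] ℝ => A v) h4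
    simp at h5
    rw [← h5, inner_sub_left]
  have h1 := hsymm v w
  rw [key, key, inner_sub_left, inner_sub_left, real_inner_comm v w] at h1
  have h2 : inner ℝ (fderiv ℝ M.r x v) w = (inner ℝ (fderiv ℝ M.r x w) v : ℝ) := by linarith
  rw [h2, real_inner_comm]

/-- global smooth retraction -/
theorem exists_rr : ∃ (rr : Vec m → Vec m) (r0 Cr : ℝ), Ret M.N rr r0 Cr ∧
    ∀ᶠ ν in 𝓝ˢ M.N, rr ν = M.r ν := by
  obtain ⟨χ, hχs, hχc, hχU, hχ01, hχ1, hχinv⟩ := exists_chi M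
  set rr : Vec m → Vec m := fun ν => χ ν • M.r ν with hrr
  have hsm : ContDiff ℝ ∞ rr := by
    rw [contDiff_iff_contDiffAt]
    intro ν
    by_cases hU : ν ∈ M.U
    · exact hχs.contDiffAt.smul (M.smooth.contDiffAt (M.isOpen.mem_nhds hU))
    · have h0 : χ =ᶠ[𝓝 ν] 0 := notMem_tsupport_iff_eventuallyEq.mp (fun h => hU (hχU h))
      have h1 : rr =ᶠ[𝓝 ν] fun _ => 0 := by
        filter_upwards [h0] with y hy
        simp only [hrr]
        rw [hy]
        simp
      exact contDiffAt_const.congr_of_eventuallyEq h1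
  have hcs : HasCompactSupport rr := hχc.smul_right
  have hev : ∀ᶠ ν in 𝓝ˢ M.N, rr ν = M.r ν := by
    filter_upwards [hχ1] with ν hν
    simp only [hrr]
    rw [hν, one_smul]
  have hevU : ∀ᶠ ν in 𝓝ˢ M.N, rr ν = M.r ν ∧ ν ∈ M.U :=
    hev.and (M.isOpen.mem_nhdsSet.mpr M.sub)
  obtain ⟨r0, hr0, hr0s⟩ := (Metric.hasBasis_nhdsSet_cthickening M.compact).mem_iff.mp hevU
  have hfs : ContDiff ℝ 1 (fderiv ℝ rr) :=
    (hsm.of_le two_le_infty).fderiv_right (m := 1) (by norm_num)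
  have hfc : HasCompactSupport (fderiv ℝ rr) := hcs.fderiv ℝ
  obtain ⟨C1, hC1⟩ := hfs.continuous.bounded_above_of_compact_support hfc
  obtain ⟨C2, hC2⟩ := ContDiff.lipschitzWith_of_hasCompactSupport hfc hfs one_ne_zero
  refine ⟨rr, r0, max C1 C2, ⟨M.compact.isClosed, hsm, hr0, ?_, ?_, ?_, ?_, ?_⟩, hev⟩
  · intro x hx h hh
    have h1 : x + h ∈ Metric.cthickening r0 M.N := by
      refine Metric.mem_cthickening_of_dist_le (x + h) x r0 M.N hx ?_
      rw [dist_eq_norm, add_sub_cancel_left]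
      exact hh
    obtain ⟨h2, h3⟩ := hr0s h1
    rw [h2]
    exact M.mem _ h3
  · intro x hx
    rw [hev.self_of_nhdsSet x hx, r_id M hx]
  · intro x hx v w
    have h1 : rr =ᶠ[𝓝 x] M.r := nhds_le_nhdsSet hx hev
    rw [h1.fderiv_eq]
    exact r_sym M (M.sub hx) v w
  · intro x
    exact (hC1 x).trans (le_max_left _ _)
  · intro x x'
    rw [← dist_eq_norm, ← dist_eq_norm]
    exact (hC2.dist_le_mul x x').trans (mul_le_mul_of_nonneg_right (le_max_right _ _) dist_nonneg)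

theorem exists_conn : ∃ Cc : ℝ, ∀ ν ∈ M.N, ∀ ν' ∈ M.N, ∃ u : ℝ → Vec m, Adm u ∧ (∀ t, ‖u t‖ ≤ Cc) ∧
    InS M.N 0 1 ν u ∧ traj 0 ν u 1 = ν' := by
  obtain ⟨rr, r0, Cr, h, -⟩ := exists_rr M
  exact conn_of_ret M.compact M.conn.isPreconnected h

end T1a

end EscN.T
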