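import Pool.Agent.EscN.TDefs

/-!
Module T1a of project ESCN, first part: the submanifold `N`, its nearest point map and an invariant
cutoff function.
-/

noncomputable section

namespace EscN.T

open Filter Topology Set Esc
open scoped ContDiff

section T1aChi
variable {n m : ℕ} (M : FlatBundle n m)

theorem r_id {ν : Vec m} (h : ν ∈ M.N) : M.r ν = ν := by
  by_contra hne
  have h1 := M.nearest ν (M.sub h) ν h (fun h2 => hne h2.symm)
  rw [dist_self] at h1
  exact absurd h1 (not_lt.mpr dist_nonneg)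

theorem rot_mem_N (i : Fin n) {ν : Vec m} : M.rot i ν ∈ M.N ↔ ν ∈ M.N := by
  constructor
  · intro h
    rw [← M.pres i] at h
    obtain ⟨ν', h', he⟩ := h
    rwa [(M.rot i).injective he] at h'
  · intro h
    rw [← M.pres i]
    exact mem_image_of_mem _ h

theorem rot_mem_U (i : Fin n) {ν : Vec m} : M.rot i ν ∈ M.U ↔ ν ∈ M.U := by
  constructor
  · intro h
    rw [← M.presU i] at h
    obtain ⟨ν', h', he⟩ := h
    rwa [(M.rot i).injective he] at h'
  · intro h
    rw [← M.presU i]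
    exact mem_image_of_mem _ h

theorem r_rot (i : Fin n) {ν : Vec m} (h : ν ∈ M.U) : M.r (M.rot i ν) = M.rot i (M.r ν) := by
  by_contra hne
  have hU : M.rot i ν ∈ M.U := (rot_mem_U M i).mpr h
  have h1 := M.nearest (M.rot i ν) hU (M.rot i (M.r ν)) ((rot_mem_N M i).mpr (M.mem ν h))
    (fun h2 => hne h2.symm)
  rw [(M.rot i).dist_map] at h1
  obtain ⟨q, hq, hqe⟩ : ∃ q ∈ M.N, M.rot i q = M.r (M.rot i ν) := by
    have h2 := M.mem _ hU
    rw [← M.pres i] at h2
    exact h2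
  rw [← hqe, (M.rot i).dist_map] at h1
  by_cases hqr : q = M.r ν
  · rw [hqr] at h1
    exact lt_irrefl _ h1
  · exact lt_asymm h1 (M.nearest ν h q hq hqr)

/-- the distance to `N` -/
theorem infDist_eq {ν : Vec m} (h : ν ∈ M.U) : Metric.infDist ν M.N = ‖ν - M.r ν‖ := by
  rw [← dist_eq_norm]
  apply le_antisymm
  · exact Metric.infDist_le_dist_of_mem (M.mem ν h)
  · rw [Metric.le_infDist ⟨_, M.mem ν h⟩]
    intro p hp
    by_cases hpr : p = M.r ν
    · rw [hpr]
    · exact (M.nearest ν h p hp hpr).le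

theorem exists_chi : ∃ χ : Vec m → ℝ, ContDiff ℝ ∞ χ ∧ HasCompactSupport χ ∧ tsupport χ ⊆ M.U ∧
    (∀ ν, 0 ≤ χ ν ∧ χ ν ≤ 1) ∧ (∀ᶠ ν in 𝓝ˢ M.N, χ ν = 1) ∧ ∀ i ν, χ (M.rot i ν) = χ ν := by
  classical
  obtain ⟨δ, hδ, hsub⟩ := M.compact.exists_cthickening_subset_open M.isOpen M.sub
  set K : Set (Vec m) := Metric.cthickening δ M.N with hK
  have hKc : IsCompact K := M.compact.cthickening
  have hNne : M.N.Nonempty := M.conn.nonempty
  have hKmem : ∀ ν, ν ∈ K ↔ Metric.infDist ν M.N ≤ δ := fun ν => by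
    rw [hK, Metric.mem_cthickening_iff, Metric.infDist,
      ENNReal.le_ofReal_iff_toReal_le (Metric.infEDist_ne_top hNne) hδ.le]
  set χ : Vec m → ℝ := fun ν => if ν ∈ M.U then
    Real.smoothTransition (2 - 4 * ‖ν - M.r ν‖ ^ 2 / δ ^ 2) else 0 with hχ
  have hzero : ∀ ν, ν ∉ K → χ ν = 0 := by
    intro ν hν
    simp only [hχ]
    split_ifs with hU
    · apply Real.smoothTransition.zero_of_nonpos
      rw [hKmem, infDist_eq M hU, not_le] at hν
      have h1 : δ ^ 2 < ‖ν - M.r ν‖ ^ 2 := by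
        exact pow_lt_pow_left₀ hν hδ.le (by norm_num)
      have h2 : 1 ≤ ‖ν - M.r ν‖ ^ 2 / δ ^ 2 := by
        rw [le_div_iff₀ (by positivity)]
        linarith
      have h3 : 4 * ‖ν - M.r ν‖ ^ 2 / δ ^ 2 = 4 * (‖ν - M.r ν‖ ^ 2 / δ ^ 2) := by ring
      rw [h3]
      linarith
    · rfl
  have hsupp : Function.support χ ⊆ K := by
    intro ν hν
    by_contra h
    exact hν (hzero ν h)
  have htsupp : tsupport χ ⊆ K := closure_minimal hsupp hKc.isClosed
  refine ⟨χ, ?_, ?_, htsupp.trans hsub, ?_, ?_, ?_⟩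
  · rw [contDiff_iff_contDiffAt]
    intro ν
    by_cases hν : ν ∈ K
    · have hU : M.U ∈ 𝓝 ν := M.isOpen.mem_nhds (hsub hν)
      have h1 : χ =ᶠ[𝓝 ν] fun ν => Real.smoothTransition (2 - 4 * ‖ν - M.r ν‖ ^ 2 / δ ^ 2) := by
        filter_upwards [hU] with x hx
        simp only [hχ]
        rw [if_pos hx]
      refine ContDiffAt.congr_of_eventuallyEq ?_ h1
      have hr : ContDiffAt ℝ ∞ M.r ν := M.smooth.contDiffAt hU
      have h2 : ContDiffAt ℝ ∞ (fun ν => ‖ν - M.r ν‖ ^ 2) ν := (contDiffAt_id.sub hr).norm_sq ℝ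
      have h3 : ContDiffAt ℝ ∞ (fun ν => 2 - 4 * ‖ν - M.r ν‖ ^ 2 / δ ^ 2) ν :=
        contDiffAt_const.sub ((contDiffAt_const.mul h2).div_const _)
      exact (Real.smoothTransition.contDiff (n := ⊤)).contDiffAt.comp ν h3
    · have h1 : χ =ᶠ[𝓝 ν] fun _ => 0 := by
        filter_upwards [hKc.isClosed.isOpen_compl.mem_nhds hν] with x hx
        exact hzero x hx
      exact contDiffAt_const.congr_of_eventuallyEq h1
  · exact HasCompactSupport.intro hKc (fun ν hν => hzero ν hν)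
  · intro ν
    simp only [hχ]
    split_ifs
    · exact ⟨Real.smoothTransition.nonneg _, Real.smoothTransition.le_one _⟩
    · exact ⟨le_rfl, zero_le_one⟩
  · filter_upwards [Metric.thickening_mem_nhdsSet M.N (half_pos hδ)] with ν hν
    have h0 : Metric.infDist ν M.N < δ / 2 := (Metric.mem_thickening_iff_infDist_lt hNne).mp hν
    have hνK : ν ∈ K := by
      rw [hKmem]
      linarith
    have hU := hsub hνK
    simp only [hχ]
    rw [if_pos hU]
    apply Real.smoothTransition.one_of_one_le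
    rw [infDist_eq M hU] at h0
    have h1 : ‖ν - M.r ν‖ ^ 2 ≤ (δ / 2) ^ 2 := pow_le_pow_left₀ (norm_nonneg _) h0.le 2
    have h2 : 4 * ‖ν - M.r ν‖ ^ 2 / δ ^ 2 ≤ 1 := by
      rw [div_le_one (by positivity)]
      nlinarith
    linarith
  · intro i ν
    simp only [hχ]
    by_cases hU : ν ∈ M.U
    · rw [if_pos hU, if_pos ((rot_mem_U M i).mpr hU), r_rot M i hU, ← map_sub,
        (M.rot i).norm_map]
    · rw [if_neg hU, if_neg (fun h => hU ((rot_mem_U M i).mp h))]

/-- invariant cutoff function -/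
def chi : Vec m → ℝ := (exists_chi M).choose

end T1aChi

end EscN.T
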