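import Pool.Agent.EscN.T1a

/-!
Module T1b of project ESCN: the state space in the direction `K`.
-/

noncomputable section

namespace EscN.T

open Filter Topology Set Esc MeasureTheory
open scoped ContDiff

/-! ## T1b: the state space in the direction `K` -/

/-- `ℝⁿ × ℝᵐ` as a Euclidean space -/
abbrev EE (n m : ℕ) := WithLp 2 (Vec n × Vec m)

def mk {n m : ℕ} (x : Vec n) (ν : Vec m) : EE n m := WithLp.toLp 2 (x, ν)

namespace TB

section mk
variable {n m : ℕ}

@[simp] theorem mk_fst (x : Vec n) (ν : Vec m) : (mk x ν).fst = x := rfl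
@[simp] theorem mk_snd (x : Vec n) (ν : Vec m) : (mk x ν).snd = ν := rfl
theorem mk_eta (X : EE n m) : mk X.fst X.snd = X := rfl
theorem EE_ext {X Y : EE n m} (h1 : X.fst = Y.fst) (h2 : X.snd = Y.snd) : X = Y := by
  rw [← mk_eta X, ← mk_eta Y, h1, h2]
theorem mk_add (x x' : Vec n) (ν ν' : Vec m) : mk x ν + mk x' ν' = mk (x + x') (ν + ν') := rfl
theorem mk_smul (a : ℝ) (x : Vec n) (ν : Vec m) : a • mk x ν = mk (a • x) (a • ν) := rfl
theorem inner_mk (X Y : EE n m) : inner ℝ X Y = inner ℝ X.fst Y.fst + inner ℝ X.snd Y.snd :=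
  WithLp.prod_inner_apply X Y
theorem norm_mk_zero (x : Vec n) : ‖mk x (0 : Vec m)‖ = ‖x‖ := by
  have := WithLp.prod_norm_sq_eq_of_L2 (mk x (0 : Vec m))
  simp only [mk_fst, mk_snd, norm_zero] at this
  have h : ‖mk x (0 : Vec m)‖ ^ 2 = ‖x‖ ^ 2 := by rw [this]; ring
  exact (pow_left_inj₀ (norm_nonneg _) (norm_nonneg _) two_ne_zero).1 h
theorem norm_zero_mk (ν : Vec m) : ‖mk (0 : Vec n) ν‖ = ‖ν‖ := by
  have := WithLp.prod_norm_sq_eq_of_L2 (mk (0 : Vec n) ν)
  simp only [mk_fst, mk_snd, norm_zero] at this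
  have h : ‖mk (0 : Vec n) ν‖ ^ 2 = ‖ν‖ ^ 2 := by rw [this]; ring
  exact (pow_left_inj₀ (norm_nonneg _) (norm_nonneg _) two_ne_zero).1 h

/-- first coordinate -/
def prX (n m : ℕ) : EE n m →L[ℝ] Vec n := WithLp.fstL 2 ℝ (Vec n) (Vec m)
/-- second coordinate -/
def prN (n m : ℕ) : EE n m →L[ℝ] Vec m := WithLp.sndL 2 ℝ (Vec n) (Vec m)
/-- first inclusion -/
def inX (n m : ℕ) : Vec n →L[ℝ] EE n m :=
  (WithLp.prodContinuousLinearEquiv 2 ℝ (Vec n) (Vec m)).symm.toContinuousLinearMap ∘L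
    ContinuousLinearMap.inl ℝ (Vec n) (Vec m)
/-- second inclusion -/
def inN (n m : ℕ) : Vec m →L[ℝ] EE n m :=
  (WithLp.prodContinuousLinearEquiv 2 ℝ (Vec n) (Vec m)).symm.toContinuousLinearMap ∘L
    ContinuousLinearMap.inr ℝ (Vec n) (Vec m)

@[simp] theorem prX_apply (X : EE n m) : prX n m X = X.fst := rfl
@[simp] theorem prN_apply (X : EE n m) : prN n m X = X.snd := rfl
@[simp] theorem inX_apply (x : Vec n) : inX n m x = mk x 0 := rfl
@[simp] theorem inN_apply (ν : Vec m) : inN n m ν = mk 0 ν := rfl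

end mk

end TB

open TB

section T1b
variable {d m : ℕ} (M : FlatBundle (d + 1) m) (K : ℕ)

theorem exists_yK : ∃ y : Vec (d + 1) →L[ℝ] ℝ, y (M.τ 0) = 1 ∧ ∀ i : Fin d, y (M.τ i.succ) = K := by
  let B := basisOfLinearIndependentOfCardEqFinrank M.li (by simp)
  have hB : ∀ j, B j = M.τ j := fun j => by simp [B]
  refine ⟨LinearMap.toContinuousLinearMap
    (B.constr ℝ (Fin.cons (1 : ℝ) fun _ => (K : ℝ) : Fin (d + 1) → ℝ)), ?_, fun i => ?_⟩
  · rw [← hB, LinearMap.coe_toContinuousLinearMap', Module.Basis.constr_basis]; simp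
  · rw [← hB, LinearMap.coe_toContinuousLinearMap', Module.Basis.constr_basis]; simp

/-- the slow functional -/
def yK : Vec (d + 1) →L[ℝ] ℝ := (exists_yK M K).choose
namespace TB

theorem yK_zero : yK M K (M.τ 0) = 1 := (exists_yK M K).choose_spec.1
theorem yK_succ (i : Fin d) : yK M K (M.τ i.succ) = K := (exists_yK M K).choose_spec.2 i
end TB

/-- the scale factor -/
def lam : ℝ := ‖yK M K‖
theorem lam_pos : 0 < lam M K := by
  rw [lam, norm_pos_iff]
  intro h
  have := yK_zero M K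
  rw [h] at this
  simp at this

namespace TB

theorem lam_ne : lam M K ≠ 0 := (lam_pos M K).ne'

/-- fast vectors in `ℝⁿ` -/
def bb (i : Fin d) : Vec (d + 1) := M.τ i.succ - (K : ℝ) • M.τ 0

theorem yK_bb (i : Fin d) : yK M K (bb M K i) = 0 := by
  rw [bb, map_sub, map_smul, yK_zero, yK_succ]; simp

theorem li_bb : LinearIndependent ℝ (bb M K) := by
  rw [Fintype.linearIndependent_iff]
  intro c hc i
  have h := Fintype.linearIndependent_iff.1 M.li
    (Fin.cons (-((K : ℝ) * ∑ i, c i)) c : Fin (d + 1) → ℝ) (by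
      rw [Fin.sum_univ_succ]
      simp only [Fin.cons_zero, Fin.cons_succ]
      simp only [bb, smul_sub, Finset.sum_sub_distrib] at hc
      rw [sub_eq_zero] at hc
      rw [hc]
      simp only [smul_smul, ← Finset.sum_smul]
      rw [← add_smul, Finset.mul_sum]
      have : -∑ i, (K : ℝ) * c i + ∑ i, c i * (K : ℝ) = 0 := by
        rw [neg_add_eq_zero]; exact Finset.sum_congr rfl fun i _ => mul_comm _ _
      rw [this, zero_smul]) i.succ
  simpa using h

theorem mem_span_bb {x : Vec (d + 1)} (hx : yK M K x = 0) :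
    x ∈ Submodule.span ℝ (Set.range (bb M K)) := by
  let B := basisOfLinearIndependentOfCardEqFinrank M.li (by simp)
  have hB : ∀ j, B j = M.τ j := fun j => by simp [B]
  have hs := B.sum_repr x
  rw [Fin.sum_univ_succ] at hs
  simp only [hB] at hs
  have h1 : B.repr x 0 = -((K : ℝ) * ∑ i : Fin d, B.repr x i.succ) := by
    have := congrArg (yK M K) hs
    rw [hx, map_add, map_smul, yK_zero, map_sum] at this
    simp only [map_smul, yK_succ, smul_eq_mul, mul_one] at this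
    rw [← Finset.sum_mul] at this
    linarith
  have h2 : x = ∑ i : Fin d, B.repr x i.succ • bb M K i := by
    conv_lhs => rw [← hs, h1]
    simp only [bb, smul_sub, Finset.sum_sub_distrib, smul_smul, ← Finset.sum_smul, ← Finset.sum_mul]
    rw [neg_smul, mul_comm]
    abel
  rw [h2]
  exact Submodule.sum_mem _ fun i _ => Submodule.smul_mem _ _ (Submodule.subset_span ⟨i, rfl⟩)

/-- the unit vector in `ℝⁿ` -/
def e0 : Vec (d + 1) := (lam M K)⁻¹ • (InnerProductSpace.toDual ℝ (Vec (d + 1))).symm (yK M K)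

theorem inner_e0 (x : Vec (d + 1)) : inner ℝ (e0 M K) x = (lam M K)⁻¹ * yK M K x := by
  rw [e0, real_inner_smul_left, InnerProductSpace.toDual_symm_apply]

theorem norm_e0 : ‖e0 M K‖ = 1 := by
  rw [e0, norm_smul, LinearIsometryEquiv.norm_map, norm_inv, Real.norm_eq_abs,
    abs_of_pos (lam_pos M K)]
  exact inv_mul_cancel₀ (lam_ne M K)

/-- the projection in `ℝⁿ` -/
def P0 (x : Vec (d + 1)) : Vec (d + 1) := x - (inner ℝ (e0 M K) x : ℝ) • e0 M K

theorem inner_e0_e0 : inner ℝ (e0 M K) (e0 M K) = (1 : ℝ) := by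
  rw [real_inner_self_eq_norm_sq, norm_e0]; norm_num

theorem yK_eq (x : Vec (d + 1)) : yK M K x = lam M K * inner ℝ (e0 M K) x := by
  rw [inner_e0, mul_inv_cancel_left₀ (lam_ne M K)]

theorem yK_P0 (x : Vec (d + 1)) : yK M K (P0 M K x) = 0 := by
  rw [yK_eq, P0, inner_sub_right, real_inner_smul_right, inner_e0_e0]; ring

/-- the projection to the fast directions -/
def PP : EE (d + 1) m →L[ℝ] EE (d + 1) m :=
  inX (d + 1) m ∘L (prX (d + 1) m - (innerSL ℝ (e0 M K) ∘L prX (d + 1) m).smulRight (e0 M K))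

theorem PP_apply (X : EE (d + 1) m) : PP M K X = mk (P0 M K X.fst) 0 := by
  have h : PP M K X = mk (X.fst - (inner ℝ (e0 M K) X.fst : ℝ) • e0 M K) 0 := rfl
  rw [h, P0]

/-! ### the rotations -/

/-- linear part of the fast deck map `i` -/
def rotK (i : Fin d) : Vec m ≃ₗᵢ[ℝ] Vec m := M.rot i.succ * (M.rot 0)⁻¹ ^ K

theorem commute_rot (i j : Fin (d + 1)) : Commute (M.rot i) (M.rot j) := by
  apply LinearIsometryEquiv.ext
  intro x
  rw [LinearIsometryEquiv.coe_mul, LinearIsometryEquiv.coe_mul]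
  exact M.comm i j x

theorem commute_rot_rotK (i : Fin (d + 1)) (j : Fin d) : Commute (M.rot i) (rotK M K j) :=
  (commute_rot M i j.succ).mul_right ((commute_rot M i 0).inv_right.pow_right K)

theorem commute_rotK (i j : Fin d) : Commute (rotK M K i) (rotK M K j) :=
  (commute_rot_rotK M K i.succ j).mul_left
    ((commute_rot_rotK M K 0 j).inv_left.pow_left K)

theorem pw_rotK : Pairwise fun i j : Fin d => ∀ x y : Multiplicative ℤ,
    Commute (zpowersHom (Vec m ≃ₗᵢ[ℝ] Vec m) (rotK M K i) x)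
      (zpowersHom (Vec m ≃ₗᵢ[ℝ] Vec m) (rotK M K j) y) := by
  intro i j _ x y
  simp only [zpowersHom_apply]
  exact ((commute_rotK M K i j).zpow_zpow _ _)

/-- linear parts of the fast deck maps -/
def rhoHom : (Fin d → Multiplicative ℤ) →* (Vec m ≃ₗᵢ[ℝ] Vec m) :=
  MonoidHom.noncommPiCoprod (fun i => zpowersHom _ (rotK M K i)) (pw_rotK M K)

/-- linear part of the deck map `n` -/
def rho (n : Fin d → ℤ) : Vec m ≃ₗᵢ[ℝ] Vec m := rhoHom M K fun i => Multiplicative.ofAdd (n i)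

theorem rho_zero : rho M K 0 = 1 := by
  have : (fun i : Fin d => Multiplicative.ofAdd ((0 : Fin d → ℤ) i)) = 1 := rfl
  rw [rho, this, map_one]

theorem rho_add (n n' : Fin d → ℤ) : rho M K (n + n') = rho M K n * rho M K n' := by
  have : (fun i : Fin d => Multiplicative.ofAdd ((n + n') i)) =
    (fun i : Fin d => Multiplicative.ofAdd (n i)) * fun i : Fin d => Multiplicative.ofAdd (n' i) := rfl
  rw [rho, this, map_mul]; rfl

theorem rho_single (i : Fin d) : rho M K (Pi.single i 1) = rotK M K i := by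
  have : (fun j : Fin d => Multiplicative.ofAdd ((Pi.single i 1 : Fin d → ℤ) j)) =
      Pi.mulSingle i (Multiplicative.ofAdd (1 : ℤ)) := by
    ext j
    by_cases h : j = i
    · subst h; simp
    · simp [h]
  rw [rho, this, rhoHom, MonoidHom.noncommPiCoprod_mulSingle]
  simp

theorem rho_mem (H : Subgroup (Vec m ≃ₗᵢ[ℝ] Vec m)) (hH : ∀ i, rotK M K i ∈ H) (n : Fin d → ℤ) :
    rho M K n ∈ H := by
  have h : (rhoHom M K).range ≤ H := by
    rw [rhoHom, MonoidHom.noncommPiCoprod_range]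
    refine iSup_le fun i => ?_
    rintro _ ⟨x, rfl⟩
    rw [zpowersHom_apply]
    exact H.zpow_mem (hH i) _
  exact h ⟨_, rfl⟩

/-- isometries which preserve `N` -/
def HN : Subgroup (Vec m ≃ₗᵢ[ℝ] Vec m) where
  carrier := {φ | ∀ ν, φ ν ∈ M.N ↔ ν ∈ M.N}
  mul_mem' := by
    intro a b ha hb ν
    rw [LinearIsometryEquiv.coe_mul]
    exact (ha _).trans (hb _)
  one_mem' := by intro ν; rfl
  inv_mem' := by
    intro a ha ν
    rw [← ha, LinearIsometryEquiv.coe_inv, LinearIsometryEquiv.apply_symm_apply]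

theorem rot_HN (i : Fin (d + 1)) : M.rot i ∈ HN M := fun _ => rot_mem_N M i

theorem rotK_HN (i : Fin d) : rotK M K i ∈ HN M :=
  (HN M).mul_mem (rot_HN M _) ((HN M).pow_mem ((HN M).inv_mem (rot_HN M _)) K)

theorem rho_mem_N (n : Fin d → ℤ) (ν : Vec m) : rho M K n ν ∈ M.N ↔ ν ∈ M.N :=
  rho_mem M K (HN M) (rotK_HN M K) n ν

theorem rot_rho (n : Fin d → ℤ) (ν : Vec m) :
    M.rot 0 (rho M K n ν) = rho M K n (M.rot 0 ν) := by
  have h := rho_mem M K (Subgroup.centralizer {M.rot 0}) (fun i => by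
    rw [Subgroup.mem_centralizer_singleton_iff]
    exact (commute_rot_rotK M K 0 i).symm) n
  rw [Subgroup.mem_centralizer_singleton_iff] at h
  have := congrArg (fun φ : Vec m ≃ₗᵢ[ℝ] Vec m => φ ν) h
  simpa [LinearIsometryEquiv.coe_mul] using this.symm

/-- `id × φ` -/
def lift {n m : ℕ} (φ : Vec m ≃ₗᵢ[ℝ] Vec m) : EE n m ≃ₗᵢ[ℝ] EE n m :=
  LinearIsometryEquiv.withLpProdCongr 2 (LinearIsometryEquiv.refl ℝ (Vec n)) φ

theorem lift_apply {n m : ℕ} (φ : Vec m ≃ₗᵢ[ℝ] Vec m) (X : EE n m) :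
    lift φ X = mk X.fst (φ X.snd) := rfl

theorem lift_symm_apply {n m : ℕ} (φ : Vec m ≃ₗᵢ[ℝ] Vec m) (X : EE n m) :
    (lift φ).symm X = mk X.fst (φ.symm X.snd) := rfl

/-! ### the retraction -/

/-- retraction of a neighbourhood of `N` -/
def rr0 : Vec m → Vec m := (exists_rr M).choose
/-- its radius -/
def r00 : ℝ := (exists_rr M).choose_spec.choose
/-- its constant -/
def Cr0 : ℝ := (exists_rr M).choose_spec.choose_spec.choose
theorem ret0 : Ret M.N (rr0 M) (r00 M) (Cr0 M) :=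
  (exists_rr M).choose_spec.choose_spec.choose_spec.1

/-- the state space -/
def SS : Set (EE (d + 1) m) := {X | (lam M K)⁻¹ • X.snd ∈ M.N}

/-- the retraction of the state space -/
def rtt (X : EE (d + 1) m) : EE (d + 1) m := mk X.fst (lam M K • rr0 M ((lam M K)⁻¹ • X.snd))

/-- the constant -/
def Crr : ℝ := 1 + |Cr0 M| + (lam M K)⁻¹ * |Cr0 M|

/-- the derivative of `rtt` -/
def dR (D : Vec m →L[ℝ] Vec m) : EE (d + 1) m →L[ℝ] EE (d + 1) m :=
  inX (d + 1) m ∘L prX (d + 1) m + inN (d + 1) m ∘L D ∘L prN (d + 1) m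

theorem dR_apply (D : Vec m →L[ℝ] Vec m) (v : EE (d + 1) m) : dR D v = mk v.fst (D v.snd) := by
  have h : dR D v = mk v.fst 0 + mk 0 (D v.snd) := rfl
  rw [h, mk_add, add_zero, zero_add]

theorem fst_le (X : EE (d + 1) m) : ‖X.fst‖ ≤ ‖X‖ := WithLp.norm_fst_le _ X
theorem snd_le (X : EE (d + 1) m) : ‖X.snd‖ ≤ ‖X‖ := WithLp.norm_snd_le _ X

theorem norm_dR (D : Vec m →L[ℝ] Vec m) : ‖(dR D : EE (d + 1) m →L[ℝ] EE (d + 1) m)‖ ≤ 1 + ‖D‖ := by
  refine ContinuousLinearMap.opNorm_le_bound _ (by positivity) fun v => ?_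
  have h : dR D v = mk v.fst 0 + mk 0 (D v.snd) := rfl
  rw [h]
  refine (norm_add_le _ _).trans ?_
  rw [norm_mk_zero, norm_zero_mk]
  have h1 := fst_le v
  have h2 := snd_le v
  have h3 := D.le_opNorm v.snd
  have h4 := mul_le_mul_of_nonneg_left h2 (norm_nonneg D)
  linarith

theorem norm_dR_sub (D D' : Vec m →L[ℝ] Vec m) :
    ‖(dR D : EE (d + 1) m →L[ℝ] EE (d + 1) m) - dR D'‖ ≤ ‖D - D'‖ := by
  refine ContinuousLinearMap.opNorm_le_bound _ (by positivity) fun v => ?_
  have h : (dR D - dR D' : EE (d + 1) m →L[ℝ] EE (d + 1) m) v = mk 0 ((D - D') v.snd) := by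
    rw [sub_apply, dR_apply, dR_apply]
    refine EE_ext ?_ ?_
    · exact sub_self _
    · rfl
  rw [h, norm_zero_mk]
  exact ((D - D').le_opNorm _).trans (mul_le_mul_of_nonneg_left (snd_le v) (norm_nonneg _))

theorem rtt_eq : rtt M K = fun X : EE (d + 1) m => inX (d + 1) m (prX (d + 1) m X) +
    inN (d + 1) m (lam M K • rr0 M ((lam M K)⁻¹ • prN (d + 1) m X)) := by
  funext Y
  have h : inX (d + 1) m (prX (d + 1) m Y) +
    inN (d + 1) m (lam M K • rr0 M ((lam M K)⁻¹ • prN (d + 1) m Y)) =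
    mk Y.fst 0 + mk 0 (lam M K • rr0 M ((lam M K)⁻¹ • Y.snd)) := rfl
  rw [h, mk_add, add_zero, zero_add, rtt]

theorem hasFDerivAt_rtt (X : EE (d + 1) m) :
    HasFDerivAt (rtt M K) (dR (fderiv ℝ (rr0 M) ((lam M K)⁻¹ • X.snd))) X := by
  have hd : DifferentiableAt ℝ (rr0 M) ((lam M K)⁻¹ • prN (d + 1) m X) :=
    (ret0 M).smooth.differentiable (by simp) _
  have h1 : HasFDerivAt (fun X : EE (d + 1) m => (lam M K)⁻¹ • prN (d + 1) m X)
      ((lam M K)⁻¹ • prN (d + 1) m) X := ((lam M K)⁻¹ • prN (d + 1) m).hasFDerivAt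
  have h2 : HasFDerivAt (fun X : EE (d + 1) m => rr0 M ((lam M K)⁻¹ • prN (d + 1) m X))
      (fderiv ℝ (rr0 M) ((lam M K)⁻¹ • prN (d + 1) m X) ∘L ((lam M K)⁻¹ • prN (d + 1) m)) X :=
    HasFDerivAt.comp X hd.hasFDerivAt h1
  have h3 : HasFDerivAt (fun X : EE (d + 1) m => lam M K • rr0 M ((lam M K)⁻¹ • prN (d + 1) m X))
      (lam M K • (fderiv ℝ (rr0 M) ((lam M K)⁻¹ • prN (d + 1) m X) ∘L
        ((lam M K)⁻¹ • prN (d + 1) m))) X := h2.const_smul (lam M K)
  have h4 : HasFDerivAt (fun X : EE (d + 1) m => inN (d + 1) m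
      (lam M K • rr0 M ((lam M K)⁻¹ • prN (d + 1) m X)))
      (inN (d + 1) m ∘L (lam M K • (fderiv ℝ (rr0 M) ((lam M K)⁻¹ • prN (d + 1) m X) ∘L
        ((lam M K)⁻¹ • prN (d + 1) m)))) X := HasFDerivAt.comp X (inN (d + 1) m).hasFDerivAt h3
  have h5 : HasFDerivAt (fun X : EE (d + 1) m => inX (d + 1) m (prX (d + 1) m X))
      (inX (d + 1) m ∘L prX (d + 1) m) X := (inX (d + 1) m ∘L prX (d + 1) m).hasFDerivAt
  have h6 := h5.add h4
  rw [rtt_eq]
  refine h6.congr_fderiv ?_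
  apply ContinuousLinearMap.ext
  intro v
  have e1 : (inX (d + 1) m ∘L prX (d + 1) m + inN (d + 1) m ∘L
      (lam M K • (fderiv ℝ (rr0 M) ((lam M K)⁻¹ • prN (d + 1) m X) ∘L
        ((lam M K)⁻¹ • prN (d + 1) m)))) v = mk v.fst 0 + mk 0 (lam M K •
          (fderiv ℝ (rr0 M) ((lam M K)⁻¹ • X.snd)) ((lam M K)⁻¹ • v.snd)) := rfl
  have e2 : (dR (fderiv ℝ (rr0 M) ((lam M K)⁻¹ • X.snd)) : EE (d + 1) m →L[ℝ] EE (d + 1) m) v =
    mk v.fst 0 + mk 0 (fderiv ℝ (rr0 M) ((lam M K)⁻¹ • X.snd) v.snd) := rfl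
  rw [e1, e2, map_smul, smul_smul, mul_inv_cancel₀ (lam_ne M K), one_smul]

theorem fderiv_rtt (X : EE (d + 1) m) :
    fderiv ℝ (rtt M K) X = (dR (fderiv ℝ (rr0 M) ((lam M K)⁻¹ • X.snd)) :
      EE (d + 1) m →L[ℝ] EE (d + 1) m) :=
  HasFDerivAt.fderiv (hasFDerivAt_rtt M K X)

theorem ret_rtt : Ret (SS M K) (rtt M K) (lam M K * r00 M) (Crr M K) where
  closed := by
    have : SS M K = (fun X : EE (d + 1) m => (lam M K)⁻¹ • prN (d + 1) m X) ⁻¹' M.N := rfl
    rw [this]
    exact (ret0 M).closed.preimage (by fun_prop)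
  smooth := by
    rw [rtt_eq]
    have h1 : ContDiff ℝ ∞ fun X : EE (d + 1) m => (lam M K)⁻¹ • prN (d + 1) m X :=
      (prN (d + 1) m).contDiff.const_smul _
    have h2 : ContDiff ℝ ∞ fun X : EE (d + 1) m => lam M K • rr0 M ((lam M K)⁻¹ • prN (d + 1) m X) :=
      ((ret0 M).smooth.comp h1).const_smul _
    exact ((inX (d + 1) m).contDiff.comp (prX (d + 1) m).contDiff).add
      ((inN (d + 1) m).contDiff.comp h2)
  r0_pos := mul_pos (lam_pos M K) (ret0 M).r0_pos
  mem := by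
    intro X hX h hh
    have h1 : (lam M K)⁻¹ • (rtt M K (X + h)).snd =
        rr0 M ((lam M K)⁻¹ • X.snd + (lam M K)⁻¹ • h.snd) := by
      rw [rtt, mk_snd, smul_smul, inv_mul_cancel₀ (lam_ne M K), one_smul, ← smul_add]
      rfl
    show (lam M K)⁻¹ • (rtt M K (X + h)).snd ∈ M.N
    rw [h1]
    refine (ret0 M).mem _ hX _ ?_
    rw [norm_smul, norm_inv, Real.norm_eq_abs, abs_of_pos (lam_pos M K), inv_mul_le_iff₀ (lam_pos M K)]
    exact (snd_le h).trans hh
  id := by
    intro X hX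
    rw [rtt, (ret0 M).id _ hX, smul_smul, mul_inv_cancel₀ (lam_ne M K), one_smul]
    rfl
  sym := by
    intro X hX v w
    rw [fderiv_rtt, dR_apply, dR_apply, inner_mk, inner_mk]
    simp only [mk_fst, mk_snd]
    rw [(ret0 M).sym _ hX]
  bd := by
    intro X
    rw [fderiv_rtt]
    refine (norm_dR _).trans ?_
    have h1 := (ret0 M).bd ((lam M K)⁻¹ • X.snd)
    have h2 := le_abs_self (Cr0 M)
    have h3 : 0 ≤ (lam M K)⁻¹ * |Cr0 M| :=
      mul_nonneg (inv_nonneg.2 (lam_pos M K).le) (abs_nonneg _)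
    rw [Crr]; linarith
  lip := by
    intro X X'
    rw [fderiv_rtt, fderiv_rtt]
    refine (norm_dR_sub _ _).trans (((ret0 M).lip _ _).trans ?_)
    rw [← smul_sub, norm_smul, norm_inv, Real.norm_eq_abs, abs_of_pos (lam_pos M K)]
    have h1 : ‖X.snd - X'.snd‖ ≤ ‖X - X'‖ := snd_le (X - X')
    have h2 := le_abs_self (Cr0 M)
    have h4 := inv_pos.2 (lam_pos M K)
    calc Cr0 M * ((lam M K)⁻¹ * ‖X.snd - X'.snd‖) ≤ |Cr0 M| * ((lam M K)⁻¹ * ‖X - X'‖) := by
          gcongr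
      _ = ((lam M K)⁻¹ * |Cr0 M|) * ‖X - X'‖ := by ring
      _ ≤ Crr M K * ‖X - X'‖ := by
          refine mul_le_mul_of_nonneg_right ?_ (norm_nonneg _)
          rw [Crr]
          have := abs_nonneg (Cr0 M)
          linarith

/-! ### bounds and connections -/

theorem exists_rho0 : ∃ ρ : ℝ, (∀ ν ∈ M.N, ‖ν‖ ≤ ρ) ∧ ∀ ν ∈ tsupport (chi M), ‖ν‖ ≤ ρ := by
  obtain ⟨a, ha⟩ := M.compact.isBounded.exists_norm_le
  obtain ⟨b, hb⟩ := (exists_chi M).choose_spec.2.1.isCompact.isBounded.exists_norm_le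
  exact ⟨max a b, fun ν h => (ha ν h).trans (le_max_left _ _), fun ν h => (hb ν h).trans (le_max_right _ _)⟩

/-- radius -/
def rho0 : ℝ := (exists_rho0 M).choose
theorem rho0_N {ν : Vec m} (h : ν ∈ M.N) : ‖ν‖ ≤ rho0 M := (exists_rho0 M).choose_spec.1 ν h
theorem rho0_chi {ν : Vec m} (h : ν ∈ tsupport (chi M)) : ‖ν‖ ≤ rho0 M :=
  (exists_rho0 M).choose_spec.2 ν h

/-- connection constant -/
def Cc0 : ℝ := (exists_conn M).choose

theorem conn_SS (X X' : EE (d + 1) m) (hX : X ∈ SS M K) (hX' : X' ∈ SS M K) (h : X.fst = X'.fst) :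
    ∃ u : ℝ → EE (d + 1) m, Adm u ∧ (∀ t, ‖u t‖ ≤ lam M K * Cc0 M) ∧ (∀ t, (u t).fst = 0) ∧
      InS (SS M K) 0 1 X u ∧ traj 0 X u 1 = X' := by
  obtain ⟨u, hu, hb, hI, ht⟩ := (exists_conn M).choose_spec _ hX _ hX'
  have hint : ∀ t, IntervalIntegrable u volume 0 t := by
    intro t
    obtain ⟨hm, C, hC⟩ := hu
    refine (intervalIntegrable_const (c := C)).mono_fun' hm.aestronglyMeasurable ?_
    exact Eventually.of_forall hC
  have htr : ∀ t, traj 0 X (fun s => mk 0 (lam M K • u s)) t =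
      mk X.fst (lam M K • traj 0 ((lam M K)⁻¹ • X.snd) u t) := by
    intro t
    have h1 : ∫ s in (0 : ℝ)..t, mk (0 : Vec (d + 1)) (lam M K • u s) =
        (lam M K • inN (d + 1) m) (∫ s in (0 : ℝ)..t, u s) := by
      rw [← ContinuousLinearMap.intervalIntegral_comp_comm _ (hint t)]
      refine intervalIntegral.integral_congr fun s _ => ?_
      have : (lam M K • inN (d + 1) m) (u s) = lam M K • mk 0 (u s) := rfl
      show mk 0 (lam M K • u s) = _
      rw [this, mk_smul, smul_zero]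
    rw [traj, traj, h1]
    have : (lam M K • inN (d + 1) m) (∫ s in (0 : ℝ)..t, u s) = lam M K • mk 0 (∫ s in (0 : ℝ)..t, u s) :=
      rfl
    rw [this, mk_smul, smul_zero, smul_add, smul_smul, mul_inv_cancel₀ (lam_ne M K), one_smul]
    conv_lhs => rw [← mk_eta X, mk_add, add_zero]
  refine ⟨fun s => mk 0 (lam M K • u s), ⟨?_, lam M K * Cc0 M, fun t => ?_⟩, fun t => ?_, fun t => rfl,
    fun t htt => ?_, ?_⟩
  · have h0 : (fun s => mk (0 : Vec (d + 1)) (lam M K • u s)) = fun s => inN (d + 1) m (lam M K • u s) := rfl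
    rw [h0]
    exact (inN (d + 1) m).continuous.comp_stronglyMeasurable (hu.1.const_smul (lam M K))
  · rw [norm_zero_mk, norm_smul, Real.norm_eq_abs, abs_of_pos (lam_pos M K)]
    exact mul_le_mul_of_nonneg_left (hb t) (lam_pos M K).le
  · rw [norm_zero_mk, norm_smul, Real.norm_eq_abs, abs_of_pos (lam_pos M K)]
    exact mul_le_mul_of_nonneg_left (hb t) (lam_pos M K).le
  · rw [htr]
    show (lam M K)⁻¹ • (lam M K • traj 0 ((lam M K)⁻¹ • X.snd) u t) ∈ M.N
    rw [smul_smul, inv_mul_cancel₀ (lam_ne M K), one_smul]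
    exact hI t htt
  · rw [htr, ht, smul_smul, mul_inv_cancel₀ (lam_ne M K), one_smul, h]
    rfl

/-! ### the state space -/

theorem lam_smul_inv (ν : Vec m) : lam M K • (lam M K)⁻¹ • ν = ν := by
  rw [smul_smul, mul_inv_cancel₀ (lam_ne M K), one_smul]

theorem inner_mk_e0 (X : EE (d + 1) m) :
    inner ℝ (mk (e0 M K) (0 : Vec m)) X = (inner ℝ (e0 M K) X.fst : ℝ) := by
  rw [inner_mk]; simp

theorem Pred (X : EE (d + 1) m) :
    X - PP M K X - (inner ℝ (mk (e0 M K) (0 : Vec m)) X : ℝ) • mk (e0 M K) 0 = mk 0 X.snd := by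
  rw [inner_mk_e0, PP_apply, P0]
  refine EE_ext ?_ ?_
  · show X.fst - (X.fst - (inner ℝ (e0 M K) X.fst : ℝ) • e0 M K) -
      (inner ℝ (e0 M K) X.fst : ℝ) • e0 M K = 0
    abel
  · show X.snd - 0 - (inner ℝ (e0 M K) X.fst : ℝ) • 0 = X.snd
    simp

theorem fst_eq_of {X X' : EE (d + 1) m} (h1 : PP M K X = PP M K X')
    (h2 : (inner ℝ (mk (e0 M K) (0 : Vec m)) X : ℝ) = inner ℝ (mk (e0 M K) (0 : Vec m)) X') :
    X.fst = X'.fst := by
  rw [PP_apply, PP_apply] at h1
  have h3 : P0 M K X.fst = P0 M K X'.fst := congrArg (fun Y : EE (d + 1) m => Y.fst) h1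
  rw [inner_mk_e0, inner_mk_e0] at h2
  rw [P0, P0, h2] at h3
  exact sub_left_injective h3

theorem fst_of {v : EE (d + 1) m} (h1 : v.fst = 0) :
    PP M K v = 0 ∧ (inner ℝ (mk (e0 M K) (0 : Vec m)) v : ℝ) = 0 := by
  rw [PP_apply, inner_mk_e0, P0, h1]
  simp
  rfl

theorem mem_span_PP (X : EE (d + 1) m) : PP M K X ∈
    Submodule.span ℝ (Set.range fun i : Fin d => mk (lam M K • bb M K i) (0 : Vec m)) := by
  rw [PP_apply]
  have h := mem_span_bb M K (yK_P0 M K X.fst)
  have h2 : ∀ x ∈ Submodule.span ℝ (Set.range (bb M K)), mk x (0 : Vec m) ∈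
      Submodule.span ℝ (Set.range fun i : Fin d => mk (lam M K • bb M K i) (0 : Vec m)) := by
    intro x hx
    induction hx using Submodule.span_induction with
    | mem x hx =>
      obtain ⟨i, rfl⟩ := hx
      have : mk (bb M K i) (0 : Vec m) = (lam M K)⁻¹ • mk (lam M K • bb M K i) (0 : Vec m) := by
        rw [mk_smul, smul_smul, inv_mul_cancel₀ (lam_ne M K), one_smul, smul_zero]
      rw [this]
      exact Submodule.smul_mem _ _ (Submodule.subset_span ⟨i, rfl⟩)
    | zero => exact Submodule.zero_mem _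
    | add x y _ _ hx hy =>
      have : mk (x + y) (0 : Vec m) = mk x 0 + mk y 0 := by rw [mk_add, add_zero]
      rw [this]; exact Submodule.add_mem _ hx hy
    | smul a x _ hx =>
      have : mk (a • x) (0 : Vec m) = a • mk x 0 := by rw [mk_smul, smul_zero]
      rw [this]; exact Submodule.smul_mem _ _ hx
  exact h2 _ h

theorem li_sp : LinearIndependent ℝ fun i : Fin d => mk (lam M K • bb M K i) (0 : Vec m) := by
  rw [Fintype.linearIndependent_iff]
  intro c hc i
  have h1 : (prX (d + 1) m) (∑ i, c i • mk (lam M K • bb M K i) (0 : Vec m)) = 0 := by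
    rw [hc, map_zero]
  rw [map_sum] at h1
  have h2 : ∑ i, (lam M K * c i) • bb M K i = 0 := by
    rw [← h1]
    refine Finset.sum_congr rfl fun i _ => ?_
    show (lam M K * c i) • bb M K i = c i • lam M K • bb M K i
    rw [smul_smul, mul_comm]
  have h3 := Fintype.linearIndependent_iff.1 (li_bb M K) _ h2 i
  exact (mul_eq_zero.1 h3).resolve_left (lam_ne M K)

end TB

/-- the state space in the direction `K` -/
def sp {d m : ℕ} (M : FlatBundle (d + 1) m) (K : ℕ) : Sp d (EE (d + 1) m) where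
  b := fun i => mk (lam M K • bb M K i) 0
  g := mk (lam M K • M.τ 0) 0
  e := mk (e0 M K) 0
  norm_e := by rw [norm_mk_zero, norm_e0]
  eb := fun i => by
    rw [inner_mk_e0, mk_fst, real_inner_smul_right, inner_e0, yK_bb]; simp
  eg := by
    rw [inner_mk_e0, mk_fst, real_inner_smul_right, inner_e0, yK_zero, mul_one,
      mul_inv_cancel₀ (lam_ne M K)]
  li := li_sp M K
  P := PP M K
  P_b := fun i => by
    rw [PP_apply, mk_fst, P0, real_inner_smul_right, inner_e0, yK_bb]; simp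
  P_e := by
    rw [PP_apply, mk_fst, P0, inner_e0_e0, one_smul, sub_self]; rfl
  P_mem := mem_span_PP M K
  P_sym := fun X X' => by
    rw [PP_apply, PP_apply, inner_mk, inner_mk]
    simp only [mk_fst, mk_snd, inner_zero_left, inner_zero_right, add_zero]
    rw [P0, P0, inner_sub_left, inner_sub_right, real_inner_smul_left, real_inner_smul_right,
      real_inner_comm (e0 M K) X.fst]
    ring
  g_eq := by
    rw [PP_apply, mk_fst, P0, real_inner_smul_right, inner_e0, yK_zero, mul_one,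
      mul_inv_cancel₀ (lam_ne M K), one_smul, mk_add, sub_add_cancel, add_zero]
  O := fun n => lift (rho M K n)
  O_zero := fun X => by rw [lift_apply, rho_zero]; rfl
  O_add := fun n n' X => by
    rw [lift_apply, lift_apply, lift_apply, rho_add, LinearIsometryEquiv.coe_mul]; rfl
  O_b := fun n i => by rw [lift_apply, mk_fst, mk_snd, map_zero]
  O_e := fun n => by rw [lift_apply, mk_fst, mk_snd, map_zero]
  Og := lift (M.rot 0)
  Og_b := fun i => by rw [lift_apply, mk_fst, mk_snd, map_zero]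
  Og_e := by rw [lift_apply, mk_fst, mk_snd, map_zero]
  Og_O := fun n X => by
    rw [lift_apply, lift_apply, lift_apply, lift_apply]
    simp only [mk_fst, mk_snd]
    rw [rot_rho]
  S := SS M K
  S_ne := by
    obtain ⟨ν, hν⟩ := M.conn.nonempty
    refine ⟨mk 0 (lam M K • ν), ?_⟩
    show (lam M K)⁻¹ • lam M K • ν ∈ M.N
    rwa [smul_smul, inv_mul_cancel₀ (lam_ne M K), one_smul]
  S_b := fun i a X hX => by
    show (lam M K)⁻¹ • (X.snd + a • (0 : Vec m)) ∈ M.N
    rw [smul_zero, add_zero]; exact hX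
  S_e := fun a X hX => by
    show (lam M K)⁻¹ • (X.snd + a • (0 : Vec m)) ∈ M.N
    rw [smul_zero, add_zero]; exact hX
  S_O := fun n X hX => by
    show (lam M K)⁻¹ • rho M K n X.snd ∈ M.N
    rw [← LinearIsometryEquiv.map_smul, rho_mem_N]; exact hX
  S_Og := fun X hX => by
    show (lam M K)⁻¹ • M.rot 0 X.snd ∈ M.N
    rw [← LinearIsometryEquiv.map_smul, rot_mem_N]; exact hX
  S_Og' := fun X hX => by
    show (lam M K)⁻¹ • (M.rot 0).symm X.snd ∈ M.N
    rw [← LinearIsometryEquiv.map_smul, ← rot_mem_N M 0, LinearIsometryEquiv.apply_symm_apply]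
    exact hX
  R0 := lam M K * rho0 M
  S_bd := fun X hX => by
    rw [Pred, norm_zero_mk, ← lam_smul_inv M K X.snd, norm_smul, Real.norm_eq_abs,
      abs_of_pos (lam_pos M K)]
    exact mul_le_mul_of_nonneg_left (rho0_N M hX) (lam_pos M K).le
  Cc := lam M K * Cc0 M
  S_conn := fun X hX X' hX' h1 h2 => by
    obtain ⟨u, hu, hb, h0, hI, ht⟩ := conn_SS M K X X' hX hX' (fst_eq_of M K h1 h2)
    exact ⟨u, hu, hb, fun t => fst_of M K (h0 t), hI, ht⟩
  rt := rtt M K
  r0 := lam M K * r00 M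
  Cr := Crr M K
  ret := ret_rtt M K
  rt_b := fun i a X => by
    have h : (X + a • mk (lam M K • bb M K i) (0 : Vec m)).snd = X.snd := by
      show X.snd + a • (0 : Vec m) = X.snd
      rw [smul_zero, add_zero]
    rw [rtt, h, rtt, mk_smul, mk_add, smul_zero, add_zero]; rfl
  rt_e := fun a X => by
    have h : (X + a • mk (e0 M K) (0 : Vec m)).snd = X.snd := by
      show X.snd + a • (0 : Vec m) = X.snd
      rw [smul_zero, add_zero]
    rw [rtt, h, rtt, mk_smul, mk_add, smul_zero, add_zero]; rfl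

theorem sp_b (i : Fin d) : (sp M K).b i = mk (lam M K • (M.τ i.succ - (K : ℝ) • M.τ 0)) 0 := rfl
theorem sp_g : (sp M K).g = mk (lam M K • M.τ 0) 0 := rfl
theorem sp_y (X : EE (d + 1) m) : (sp M K).y X = yK M K ((lam M K)⁻¹ • X.fst) := by
  have h : (sp M K).y X = inner ℝ (mk (e0 M K) (0 : Vec m)) X := rfl
  rw [h, inner_mk_e0, inner_e0, map_smul, smul_eq_mul]
theorem sp_Q (X : EE (d + 1) m) : (sp M K).Q X = mk 0 X.snd := Pred M K X
theorem sp_S (X : EE (d + 1) m) : X ∈ (sp M K).S ↔ (lam M K)⁻¹ • X.snd ∈ M.N := Iff.rfl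
theorem sp_R0 (ν : Vec m) (h : (sp M K).R0 + 1 ≤ lam M K * ‖ν‖) : chi M ν = 0 := by
  have h1 : (sp M K).R0 = lam M K * rho0 M := rfl
  rw [h1] at h
  by_contra hc
  have h2 := rho0_chi M (subset_tsupport _ (Function.mem_support.2 hc))
  have := mul_le_mul_of_nonneg_left h2 (lam_pos M K).le
  linarith
/-- `rt = id × λ rr (λ⁻¹ ·)` with `rr` from `exists_rr` -/
theorem sp_rt (X : EE (d + 1) m) : (sp M K).rt X =
    mk X.fst (lam M K • (exists_rr M).choose ((lam M K)⁻¹ • X.snd)) := rfl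

/-! ### invariance -/

namespace TB

/-- the deck map of the generator `i` -/
def Tg (i : Fin (d + 1)) (X : EE (d + 1) m) : EE (d + 1) m :=
  mk (X.fst + lam M K • M.τ i) (M.rot i X.snd)

theorem gd_eq (X : EE (d + 1) m) : (sp M K).gd X = Tg M K 0 X := by
  have h : (sp M K).gd X = mk X.fst (M.rot 0 X.snd) + mk (lam M K • M.τ 0) 0 := rfl
  rw [h, mk_add, add_zero, Tg]

theorem dk_add (n n' : Fin d → ℤ) (X : EE (d + 1) m) :
    (sp M K).dk (n + n') X = (sp M K).dk n ((sp M K).dk n' X) := by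
  have hfix : ∀ n n' : Fin d → ℤ, (sp M K).O n ((sp M K).lv n') = (sp M K).lv n' := by
    intro n n'
    rw [Sp.lv, map_sum]
    exact Finset.sum_congr rfl fun i _ => by rw [LinearIsometryEquiv.map_smul, (sp M K).O_b]
  rw [Sp.dk, Sp.dk, Sp.dk, map_add, (sp M K).O_add, hfix]
  have : (sp M K).lv (n + n') = (sp M K).lv n + (sp M K).lv n' := by
    rw [Sp.lv, Sp.lv, Sp.lv, ← Finset.sum_add_distrib]
    exact Finset.sum_congr rfl fun i _ => by rw [Pi.add_apply, Int.cast_add, add_smul]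
  rw [this]; abel

theorem dk_zero (X : EE (d + 1) m) : (sp M K).dk 0 X = X := by
  rw [Sp.dk, (sp M K).O_zero, Sp.lv]; simp

theorem dk_single (i : Fin d) (X : EE (d + 1) m) : (sp M K).dk (Pi.single i 1) X =
    mk (X.fst + lam M K • (M.τ i.succ - (K : ℝ) • M.τ 0)) (rotK M K i X.snd) := by
  have h1 : (sp M K).lv (Pi.single i 1) = mk (lam M K • bb M K i) 0 := by
    rw [Sp.lv, Finset.sum_eq_single i]
    · simp only [Pi.single_eq_same, Int.cast_one, one_smul]; rfl
    · intro j _ hj; simp [hj]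
    · intro h; exact absurd (Finset.mem_univ i) h
  have h2 : (sp M K).O (Pi.single i 1) X = mk X.fst (rotK M K i X.snd) := by
    rw [← rho_single]; rfl
  rw [Sp.dk, h1, h2, mk_add, add_zero, bb]

theorem Tg0_iter (k : ℕ) (X : EE (d + 1) m) :
    (Tg M K 0)^[k] X = mk (X.fst + (k : ℝ) • lam M K • M.τ 0) ((M.rot 0 ^ k) X.snd) := by
  induction k with
  | zero => simp [mk_eta]
  | succ k ih =>
    rw [Function.iterate_succ_apply', ih, Tg]
    simp only [mk_fst, mk_snd]
    rw [pow_succ', LinearIsometryEquiv.coe_mul]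
    congr 1
    push_cast
    rw [add_smul, one_smul, add_assoc]

/-- `T_{i+1}` is `dk(single i 1)` composed with `T_0^K` -/
theorem Tg_succ (i : Fin d) (X : EE (d + 1) m) :
    Tg M K i.succ X = (sp M K).dk (Pi.single i 1) ((Tg M K 0)^[K] X) := by
  rw [Tg0_iter, dk_single, Tg]
  simp only [mk_fst, mk_snd]
  congr 1
  · rw [smul_sub, smul_smul, smul_smul, mul_comm]; abel
  · have h : M.rot i.succ = rotK M K i * M.rot 0 ^ K := by
      rw [rotK, inv_pow, mul_assoc, inv_mul_cancel, mul_one]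
    rw [h, LinearIsometryEquiv.coe_mul]; rfl

theorem Tg0_surj : Function.Surjective (Tg M K 0) := by
  intro X
  refine ⟨mk (X.fst - lam M K • M.τ 0) ((M.rot 0).symm X.snd), ?_⟩
  rw [Tg, mk_fst, mk_snd, sub_add_cancel, LinearIsometryEquiv.apply_symm_apply]
  rfl

end TB

/-- invariance under the deck maps is invariance under the generators -/
theorem sp_inv (f : EE (d + 1) m → ℝ → ℝ)
    (h : ∀ i X t, f (mk (X.fst + lam M K • M.τ i) (M.rot i X.snd)) t = f X t) :
    (∀ n X t, f ((sp M K).dk n X) t = f X t) ∧ ∀ X t, f ((sp M K).gd X) t = f X t := by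
  have h' : ∀ i X t, f (Tg M K i X) t = f X t := h
  have hit : ∀ k X t, f ((Tg M K 0)^[k] X) t = f X t := by
    intro k
    induction k with
    | zero => intro X t; rfl
    | succ k ih => intro X t; rw [Function.iterate_succ_apply', h', ih]
  refine ⟨?_, fun X t => by rw [gd_eq, h']⟩
  let A : AddSubgroup (Fin d → ℤ) :=
    { carrier := {n | ∀ X t, f ((sp M K).dk n X) t = f X t}
      add_mem' := by
        intro a b ha hb X t
        rw [dk_add, ha, hb]
      zero_mem' := by intro X t; rw [dk_zero]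
      neg_mem' := by
        intro a ha X t
        rw [← ha, ← dk_add, add_neg_cancel, dk_zero] }
  have hs : ∀ i, Pi.single i 1 ∈ A := by
    intro i X t
    obtain ⟨Y, rfl⟩ := (Tg0_surj M K).iterate K X
    rw [← Tg_succ, h', hit]
  intro n
  have hn : n = ∑ i, n i • (Pi.single i 1 : Fin d → ℤ) := by
    ext j
    simp [Finset.sum_apply, Pi.single_apply]
  have : n ∈ A := by
    rw [hn]
    exact A.sum_mem fun i _ => A.zsmul_mem (hs i) _
  exact this

theorem sp_inv' (f : EE (d + 1) m → ℝ → ℝ)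
    (h : ∀ n X t, f ((sp M K).dk n X) t = f X t) (hg : ∀ X t, f ((sp M K).gd X) t = f X t) :
    ∀ i X t, f (mk (X.fst + lam M K • M.τ i) (M.rot i X.snd)) t = f X t := by
  have h0 : ∀ X t, f (Tg M K 0 X) t = f X t := fun X t => by rw [← gd_eq, hg]
  have hit : ∀ k X t, f ((Tg M K 0)^[k] X) t = f X t := by
    intro k
    induction k with
    | zero => intro X t; rfl
    | succ k ih => intro X t; rw [Function.iterate_succ_apply', h0, ih]
  intro i X t
  show f (Tg M K i X) t = f X t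
  refine Fin.cases (h0 X t) (fun i => ?_) i
  rw [Tg_succ, h, hit]

end T1b

end EscN.T
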