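import Pool.Agent.EscN.V1a

/-!
Project ESCN, T1: the global smooth retraction.
-/

noncomputable section

namespace EscN.T

open Filter Topology Set Esc
open scoped ContDiff

variable {n m : ℕ}

theorem ret_of_chi (M : FlatBundle n m) {χ : Vec m → ℝ} (h1 : ContDiff ℝ ∞ χ) (h2 : HasCompactSupport χ)
    (h3 : tsupport χ ⊆ M.U) (h4 : ∀ᶠ ν in 𝓝ˢ M.N, χ ν = 1) :
    ∃ (rr : Vec m → Vec m) (r0 Cr : ℝ), Ret M.N rr r0 Cr ∧ ∀ᶠ ν in 𝓝ˢ M.N, rr ν = M.r ν := by
  obtain ⟨O, hO, hNO, hOχ⟩ := mem_nhdsSet_iff_exists.1 h4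
  obtain ⟨r0, hr0, hsub⟩ := M.compact.exists_cthickening_subset_open (hO.inter M.isOpen)
    (subset_inter hNO M.sub)
  have hsm : ContDiff ℝ ∞ fun ν => χ ν • M.r ν := by
    rw [contDiff_iff_contDiffAt]
    intro ν
    by_cases hν : ν ∈ M.U
    · exact h1.contDiffAt.smul ((M.smooth ν hν).contDiffAt (M.isOpen.mem_nhds hν))
    · have h5 : ν ∉ tsupport χ := fun h => hν (h3 h)
      have h6 : (fun ν => χ ν • M.r ν) =ᶠ[𝓝 ν] fun _ => 0 := by
        filter_upwards [notMem_tsupport_iff_eventuallyEq.1 h5] with y hy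
        rw [hy]
        simp
      exact contDiffAt_const.congr_of_eventuallyEq h6
  have hcs : HasCompactSupport fun ν => χ ν • M.r ν := h2.smul_right
  obtain ⟨C1, hC1⟩ := (hcs.fderiv ℝ).exists_bound_of_continuous (hsm.continuous_fderiv (by simp))
  obtain ⟨C2, hC2⟩ := (hsm.fderiv_right (m := ∞) (by simp)).lipschitzWith_of_hasCompactSupport
    (hcs.fderiv ℝ) (by simp)
  have hloc : ∀ x ∈ M.N, (fun ν => χ ν • M.r ν) =ᶠ[𝓝 x] M.r := by
    intro x hx
    filter_upwards [hO.mem_nhds (hNO hx)] with y hy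
    have h5 : χ y = 1 := hOχ hy
    rw [h5, one_smul]
  refine ⟨fun ν => χ ν • M.r ν, r0, max C1 C2, ⟨M.compact.isClosed, hsm, hr0, fun x hx h hh => ?_,
    fun x hx => ?_, fun x hx v w => ?_, fun x => (hC1 x).trans (le_max_left _ _), fun x x' => ?_⟩, ?_⟩
  · have h5 : x + h ∈ Metric.cthickening r0 M.N :=
      Metric.mem_cthickening_of_dist_le (x + h) x r0 M.N hx (by simpa using hh)
    have h6 := hsub h5
    have h7 : χ (x + h) = 1 := hOχ h6.1
    rw [h7, one_smul]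
    exact M.mem _ h6.2
  · have h5 := (hloc x hx).eq_of_nhds
    rw [h5, V1_r_id M hx]
  · rw [(hloc x hx).fderiv_eq, V1_r_sym M (M.sub hx), real_inner_comm]
  · have h5 := hC2.dist_le_mul x x'
    rw [dist_eq_norm, dist_eq_norm] at h5
    exact h5.trans (mul_le_mul_of_nonneg_right (le_max_right _ _) (norm_nonneg _))
  · filter_upwards [h4] with ν hν
    rw [hν, one_smul]

end EscN.T
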