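import Pool.Agent.EscN.TDefs

/-!
The `C^k` topology on potentials of a flat bundle.
-/

noncomputable section

set_option linter.unusedSectionVars false

namespace EscN.T

open Filter Topology Set Uniformity
open scoped ContDiff UniformConvergence

variable {n m : ℕ} {M : FlatBundle n m} {k : ℕ∞}

/-- the slab over `K` -/
def slab (M : FlatBundle n m) (K : Set (Vec m)) : Set (Dom M) := {q | q.1.2.1 ∈ K}

/-- the open set on which potentials are differentiable -/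
def Om (M : FlatBundle n m) : Set (Vec n × Vec m × ℝ) := univ ×ˢ M.U ×ˢ univ

lemma isOpen_Om (M : FlatBundle n m) : IsOpen (Om M) := isOpen_univ.prod (M.isOpen.prod isOpen_univ)

lemma mem_Om {M : FlatBundle n m} {q : Vec n × Vec m × ℝ} : q ∈ Om M ↔ q.2.1 ∈ M.U := by
  simp [Om]

lemma mem_slabs {M : FlatBundle n m} {K : Set (Vec m)} (hc : IsCompact K) (hK : K ⊆ M.U) :
    slab M K ∈ slabs M := ⟨K, hc, hK, rfl⟩

lemma slabs_nonempty (M : FlatBundle n m) : (slabs M).Nonempty :=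
  ⟨_, mem_slabs M.compact M.sub⟩

lemma slabs_directed (M : FlatBundle n m) : DirectedOn (· ⊆ ·) (slabs M) := by
  rintro _ ⟨K, hc, hK, rfl⟩ _ ⟨K', hc', hK', rfl⟩
  refine ⟨_, mem_slabs (hc.union hc') (union_subset hK hK'), ?_, ?_⟩
  · exact fun q hq => subset_union_left hq
  · exact fun q hq => subset_union_right hq

/-- compact exhaustion of `U` -/
lemma exists_exhaustion (M : FlatBundle n m) : ∃ t : ℕ → Set (Vec m), Monotone t ∧
    (∀ i, IsCompact (t i) ∧ t i ⊆ M.U) ∧ ∀ K : Set (Vec m), IsCompact K → K ⊆ M.U → ∃ i, K ⊆ t i := by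
  have : LocallyCompactSpace M.U := M.isOpen.locallyCompactSpace
  set K0 : CompactExhaustion M.U := CompactExhaustion.choice M.U with hK0
  refine ⟨fun i => (fun x : M.U => (x : Vec m)) '' (K0 i), ?_, fun i => ⟨?_, ?_⟩, fun K hc hK => ?_⟩
  · intro i j hij
    exact image_mono (K0.subset hij)
  · exact (K0.isCompact i).image continuous_subtype_val
  · rintro _ ⟨x, _, rfl⟩
    exact x.2
  · have h1 : IsCompact ((fun x : M.U => (x : Vec m)) ⁻¹' K) := by
      rw [IsInducing.subtypeVal.isCompact_preimage_iff]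
      · exact hc
      · rw [Subtype.range_coe]; exact hK
    obtain ⟨i, hi⟩ := K0.exists_superset_of_isCompact h1
    refine ⟨i, fun x hx => ⟨⟨x, hK hx⟩, hi hx, rfl⟩⟩

/-- Neighbourhoods in the `C^k` topology. -/
theorem pot_nhds (F : Pot M k) {O : Set (Pot M k)} (hO : O ∈ 𝓝 F) :
    ∃ (r : ℕ) (K : Set (Vec m)) (ε : ℝ), IsCompact K ∧ K ⊆ M.U ∧ 0 < ε ∧ ∀ F' : Pot M k,
      (∀ j ≤ r, (j : ℕ∞) ≤ k → ∀ x, ∀ ν ∈ K, ∀ t,
        ‖iteratedFDeriv ℝ j F'.toFun (x, ν, t) - iteratedFDeriv ℝ j F.toFun (x, ν, t)‖ < ε) → F' ∈ O := by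
  rw [nhds_induced, mem_comap] at hO
  obtain ⟨t, ht, htO⟩ := hO
  rw [nhds_pi, Filter.mem_pi] at ht
  obtain ⟨I, hI, s, hs, hst⟩ := ht
  have hε : ∀ j : {j : ℕ // (j : ℕ∞) ≤ k}, ∃ K : Set (Vec m), IsCompact K ∧ K ⊆ M.U ∧ ∃ ε > 0, ∀ F' : Pot M k,
      (∀ x, ∀ ν ∈ K, ∀ t, ‖iteratedFDeriv ℝ j.1 F'.toFun (x, ν, t) -
        iteratedFDeriv ℝ j.1 F.toFun (x, ν, t)‖ < ε) → jet F' j ∈ s j := by
    intro j
    have hb := UniformOnFun.hasBasis_nhds_of_basis (Dom M)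
      (ContinuousMultilinearMap ℝ (fun _ : Fin j.1 => Vec n × Vec m × ℝ) ℝ) (slabs M) (jet F j)
      (slabs_nonempty M) (slabs_directed M) Metric.uniformity_basis_dist
    obtain ⟨⟨S, ε⟩, ⟨⟨K, hc, hK, rfl⟩, hε⟩, h⟩ := hb.mem_iff.1 (hs j)
    refine ⟨K, hc, hK, ε, hε, fun F' hF' => h ?_⟩
    rintro ⟨⟨x, ν, t⟩, hU⟩ hq
    have := hF' x ν hq t
    rw [← dist_eq_norm] at this
    exact this
  choose K hKc hKU ε hεp hεs using hε
  obtain ⟨r, hr⟩ : ∃ r : ℕ, ∀ j ∈ I, j.1 ≤ r := by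
    obtain ⟨r, hr⟩ := (hI.image (fun j : {j : ℕ // (j : ℕ∞) ≤ k} => j.1)).bddAbove
    exact ⟨r, fun j hj => hr ⟨j, hj, rfl⟩⟩
  obtain ⟨e, he, hle⟩ : ∃ e > 0, ∀ j ∈ I, e ≤ ε j := by
    rcases I.eq_empty_or_nonempty with rfl | hne
    · exact ⟨1, one_pos, by simp⟩
    · obtain ⟨j0, hj0, hmin⟩ := hI.exists_minimalFor ε I hne
      exact ⟨ε j0, hεp j0, fun j hj => by
        by_contra hlt
        push Not at hlt
        exact absurd (hmin hj hlt.le) (not_le.2 hlt)⟩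
  refine ⟨r, ⋃ j ∈ I, K j, e, hI.isCompact_biUnion fun j _ => hKc j, iUnion₂_subset fun j _ => hKU j, he,
    fun F' hF' => htO (hst fun j hj => hεs j F' fun x ν hν t => ?_)⟩
  exact (hF' j.1 (hr j hj) j.2 x ν (mem_biUnion hj hν) t).trans_le (hle j hj)

/-- `C^0` balls over `N` are neighbourhoods. -/
theorem pot_ball (F : Pot M k) {ρ : ℝ} (hρ : 0 < ρ) :
    {F' : Pot M k | ∀ x, ∀ ν ∈ M.N, ∀ t, |F.toFun (x, ν, t) - F'.toFun (x, ν, t)| ≤ ρ} ∈ 𝓝 F := by
  have hc : Continuous (jet : Pot M k → _) := continuous_induced_dom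
  have h0 : Continuous fun f : Pot M k => jet f ⟨0, by simp⟩ := (continuous_pi_iff.1 hc) _
  have hb := UniformOnFun.gen_mem_nhds (ContinuousMultilinearMap ℝ (fun _ : Fin 0 => Vec n × Vec m × ℝ) ℝ)
    (slabs M) (jet F ⟨0, by simp⟩) (mem_slabs M.compact M.sub) (Metric.dist_mem_uniformity hρ)
  have h1 := h0.continuousAt.preimage_mem_nhds hb
  refine mem_of_superset h1 fun F' hF' x ν hν t => ?_
  have h2 := hF' ⟨(x, ν, t), M.sub hν⟩ hν
  have h3 : dist (iteratedFDeriv ℝ 0 F.toFun (x, ν, t)) (iteratedFDeriv ℝ 0 F'.toFun (x, ν, t)) =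
      |F.toFun (x, ν, t) - F'.toFun (x, ν, t)| := by
    rw [dist_eq_norm, iteratedFDeriv_zero_eq_comp, iteratedFDeriv_zero_eq_comp]
    simp only [Function.comp]
    rw [← map_sub, LinearIsometryEquiv.norm_map, Real.norm_eq_abs]
  rw [← h3]
  exact le_of_lt h2

/-- The space `C^k(M × 𝕋)` is complete for the uniform structure defined by the jets. -/
theorem pot_complete (M : FlatBundle n m) (k : ℕ∞) (l : Filter (Pot M k)) [hne : l.NeBot]
    (Ψ : ∀ j : {j : ℕ // (j : ℕ∞) ≤ k},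
      Dom M →ᵤ[slabs M] ContinuousMultilinearMap ℝ (fun _ : Fin j.1 => Vec n × Vec m × ℝ) ℝ)
    (htend : Tendsto (jet : Pot M k → _) l (𝓝 Ψ)) : ∃ F : Pot M k, l ≤ 𝓝 F := by
  classical
  have hunif : ∀ j (hj : ((j : ℕ) : ℕ∞) ≤ k), ∀ S ∈ slabs M, TendstoUniformlyOn
      (fun (f : Pot M k) (q : Dom M) => iteratedFDeriv ℝ j f.toFun q)
      (UniformOnFun.toFun (slabs M) (Ψ ⟨j, hj⟩)) l S := by
    intro j hj
    exact UniformOnFun.tendsto_iff_tendstoUniformlyOn.1 ((tendsto_pi_nhds.1 htend) ⟨j, hj⟩)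
  set p : Vec n × Vec m × ℝ → FormalMultilinearSeries ℝ (Vec n × Vec m × ℝ) ℝ := fun q j =>
    if hj : ((j : ℕ) : ℕ∞) ≤ k then
      (if hq : q.2.1 ∈ M.U then UniformOnFun.toFun (slabs M) (Ψ ⟨j, hj⟩) ⟨q, hq⟩ else 0) else 0 with hp
  have hpj : ∀ j (hj : ((j : ℕ) : ℕ∞) ≤ k) (q : Dom M),
      p q j = UniformOnFun.toFun (slabs M) (Ψ ⟨j, hj⟩) q :=
    fun j hj q => by simp only [hp, dif_pos hj, dif_pos q.2]
  have hloc : ∀ j (hj : ((j : ℕ) : ℕ∞) ≤ k), TendstoLocallyUniformlyOn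
      (fun (f : Pot M k) q => iteratedFDeriv ℝ j f.toFun q) (fun q => p q j) l (Om M) := by
    intro j hj u hu q hq
    obtain ⟨K, hK, hKU⟩ : ∃ K ∈ 𝓝 q.2.1, IsCompact K ∧ K ⊆ M.U := by
      obtain ⟨K, h1, h2, h3⟩ := exists_compact_subset M.isOpen (mem_Om.1 hq)
      exact ⟨K, mem_interior_iff_mem_nhds.1 h2, h1, h3⟩
    refine ⟨univ ×ˢ K ×ˢ univ, ?_, ?_⟩
    · apply mem_nhdsWithin_of_mem_nhds
      have : q = (q.1, q.2.1, q.2.2) := rfl
      rw [this]
      exact prod_mem_nhds univ_mem (prod_mem_nhds hK univ_mem)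
    · filter_upwards [hunif j hj _ (mem_slabs hKU.1 hKU.2) u hu] with f hf y hy
      have hyU : y.2.1 ∈ M.U := hKU.2 hy.2.1
      have h1 := hf ⟨y, hyU⟩ hy.2.1
      rw [← hpj j hj ⟨y, hyU⟩] at h1
      exact h1
  have hpt : ∀ j (hj : ((j : ℕ) : ℕ∞) ≤ k), ∀ q ∈ Om M,
      Tendsto (fun f : Pot M k => iteratedFDeriv ℝ j f.toFun q) l (𝓝 (p q j)) :=
    fun j hj q hq => (hloc j hj).tendsto_at hq
  have hcast : ∀ {m : ℕ}, ((m : WithTop ℕ∞) ≤ (k : WithTop ℕ∞)) → ((m : ℕ∞) ≤ k) :=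
    fun h => WithTop.coe_le_coe.1 h
  have hfd : ∀ (f : Pot M k) (j : ℕ), (j : ℕ∞) ≤ k → ContDiffOn ℝ j f.toFun (Om M) :=
    fun f m hm => (f.contDiff.of_le (WithTop.coe_le_coe.2 hm)).mono fun q hq => mem_Om.1 hq
  have hUD : UniqueDiffOn ℝ (Om M) := (isOpen_Om M).uniqueDiffOn
  have htay : HasFTaylorSeriesUpToOn k (fun q => (p q 0).curry0) p (Om M) := by
    refine ⟨fun _ _ => rfl, fun j hm x hx => ?_, fun j hm => ?_⟩
    · have hm1 : ((j + 1 : ℕ) : ℕ∞) ≤ k := by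
        have h1 : (j : ℕ∞) < k := WithTop.coe_lt_coe.1 hm
        push_cast
        exact Order.add_one_le_of_lt h1
      have hm0 : ((j : ℕ) : ℕ∞) ≤ k := hcast hm.le
      have h1 : TendstoLocallyUniformlyOn
          (fun (f : Pot M k) x => (iteratedFDeriv ℝ (j + 1) f.toFun x).curryLeft)
          (fun x => (p x (j + 1)).curryLeft) l (Om M) := by
        exact (continuousMultilinearCurryLeftEquiv ℝ
          (fun _ : Fin (j + 1) => Vec n × Vec m × ℝ) ℝ).isometry.uniformContinuous.comp_tendstoLocallyUniformlyOn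
            (hloc (j + 1) hm1)
      refine HasFDerivAt.hasFDerivWithinAt (hasFDerivAt_of_tendstoLocallyUniformlyOn
        (f := fun (f : Pot M k) x => iteratedFDeriv ℝ j f.toFun x)
        (g := fun x => p x j) (isOpen_Om M) h1 (fun f x hx => ?_) (fun x hx => ?_) hx)
      · have h5 : ContDiffOn ℝ (j + 1 : ℕ) f.toFun (Om M) := hfd f (j + 1) hm1
        have h6 := (h5.ftaylorSeriesWithin hUD).fderivWithin j (by exact_mod_cast Nat.lt_succ_self j) x hx
        have h7 := h6.hasFDerivAt ((isOpen_Om M).mem_nhds hx)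
        have h8 : ftaylorSeriesWithin ℝ f.toFun (Om M) x (j + 1) = iteratedFDeriv ℝ (j + 1) f.toFun x :=
          iteratedFDerivWithin_of_isOpen (j + 1) (isOpen_Om M) hx
        have h9 : (fun y => ftaylorSeriesWithin ℝ f.toFun (Om M) y j) =ᶠ[𝓝 x]
            fun y => iteratedFDeriv ℝ j f.toFun y := by
          filter_upwards [(isOpen_Om M).mem_nhds hx] with y hy
          exact iteratedFDerivWithin_of_isOpen j (isOpen_Om M) hy
        have h10 := h7.congr_of_eventuallyEq h9.symm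
        rw [← h8]
        exact h10
      · exact hpt j hm0 x hx
    · have hm0 : ((j : ℕ) : ℕ∞) ≤ k := hcast hm
      refine (hloc j hm0).continuousOn (Frequently.of_forall fun f => ?_)
      have h5 := (hfd f j hm0).continuousOn_iteratedFDerivWithin le_rfl hUD
      refine h5.congr fun x hx => (iteratedFDerivWithin_of_isOpen j (isOpen_Om M) hx).symm
  set φ : Fun n m := fun q => if q.2.1 ∈ M.U then (p q 0).curry0 else 0 with hφ
  have hφ1 : ∀ q ∈ Om M, φ q = (p q 0).curry0 := fun q hq => by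
    simp only [hφ, if_pos (mem_Om.1 hq)]
  have htay' : HasFTaylorSeriesUpToOn k φ p (Om M) := htay.congr hφ1
  have hφc : ContDiffOn ℝ k φ {q | q.2.1 ∈ M.U} := htay'.contDiffOn.mono fun q hq => mem_Om.2 hq
  have h00 : ((0 : ℕ) : ℕ∞) ≤ k := by simp
  have hval : ∀ q ∈ Om M, Tendsto (fun f : Pot M k => f.toFun q) l (𝓝 (φ q)) := by
    intro q hq
    rw [hφ1 q hq]
    have h1 := hpt 0 h00 q hq
    have h2 : Continuous fun c : ContinuousMultilinearMap ℝ (fun _ : Fin 0 => Vec n × Vec m × ℝ) ℝ => c.curry0 :=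
      (continuousMultilinearCurryFin0 ℝ (Vec n × Vec m × ℝ) ℝ).continuous
    have h3 := (h2.tendsto _).comp h1
    refine h3.congr fun f => ?_
    simp only [Function.comp, ContinuousMultilinearMap.curry0_apply, iteratedFDeriv_zero_apply]
  have hφe : ∀ x ν t, ν ∈ M.U → φ (x, ν, t) = φ (x, M.r ν, t) := by
    intro x ν t hν
    have h1 := hval (x, ν, t) (mem_Om.2 hν)
    have h2 := hval (x, M.r ν, t) (mem_Om.2 (M.sub (M.mem ν hν)))
    refine tendsto_nhds_unique h1 (h2.congr fun f => (f.ext x ν t hν).symm)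
  have hφo : ∀ x ν t, ν ∉ M.U → φ (x, ν, t) = 0 := fun x ν t hν => by
    simp only [hφ, if_neg hν]
  have hrU : ∀ i, ∀ ν ∈ M.U, M.rot i ν ∈ M.U := fun i ν hν => by
    rw [← M.presU i]; exact mem_image_of_mem _ hν
  have hφp : IsPeriodic M φ := by
    refine ⟨fun i x ν t hν => ?_, fun x ν t hν => ?_⟩
    · have h1 := hval (x, ν, t) (mem_Om.2 hν)
      have h2 := hval (x + M.τ i, M.rot i ν, t) (mem_Om.2 (hrU i ν hν))
      refine tendsto_nhds_unique h2 (h1.congr fun f => (f.periodic.1 i x ν t hν).symm)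
    · have h1 := hval (x, ν, t) (mem_Om.2 hν)
      have h2 := hval (x, ν, t + 1) (mem_Om.2 hν)
      refine tendsto_nhds_unique h2 (h1.congr fun f => (f.periodic.2 x ν t hν).symm)
  refine ⟨⟨φ, hφc, hφe, hφo, hφp⟩, ?_⟩
  rw [nhds_induced, ← tendsto_iff_comap]
  rw [tendsto_pi_nhds]
  intro j
  rw [UniformOnFun.tendsto_iff_tendstoUniformlyOn]
  intro S hS
  refine (hunif j.1 j.2 S hS).congr_right fun q _ => ?_
  have hqO : (q : Vec n × Vec m × ℝ) ∈ Om M := mem_Om.2 q.2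
  have h2 := htay'.eq_iteratedFDerivWithin_of_uniqueDiffOn (WithTop.coe_le_coe.2 j.2) hUD hqO
  rw [iteratedFDerivWithin_of_isOpen j.1 (isOpen_Om M) hqO, hpj j.1 j.2] at h2
  exact h2

/-- The space `C^k(M × 𝕋)` is a Baire space. -/
theorem baire (M : FlatBundle n m) (k : ℕ∞) : BaireSpace (Pot M k) := by
  let U : UniformSpace (Pot M k) := UniformSpace.comap jet inferInstance
  obtain ⟨t, ht, htc, hte⟩ := exists_exhaustion M
  have hu : ∀ j : {j : ℕ // (j : ℕ∞) ≤ k}, (𝓤 (Dom M →ᵤ[slabs M]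
      ContinuousMultilinearMap ℝ (fun _ : Fin j.1 => Vec n × Vec m × ℝ) ℝ)).IsCountablyGenerated := by
    intro j
    refine UniformOnFun.isCountablyGenerated_uniformity (slabs M)
      (t := fun i => slab M (t i))
      (fun i => mem_slabs (htc i).1 (htc i).2)
      (fun i i' h q hq => ht h hq) ?_
    rintro _ ⟨K, hc, hK, rfl⟩
    obtain ⟨i, hi⟩ := hte K hc hK
    exact ⟨i, fun q hq => hi hq⟩
  have : (𝓤 (Pot M k)).IsCountablyGenerated := by
    have : 𝓤 (Pot M k) = Filter.comap (fun q : Pot M k × Pot M k => (jet q.1, jet q.2)) (𝓤 _) := rfl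
    rw [this]
    infer_instance
  have : CompleteSpace (Pot M k) := by
    refine ⟨fun {l} hl => ?_⟩
    have := hl.1
    have h1 : Cauchy (map (jet : Pot M k → _) l) := hl.map uniformContinuous_comap
    obtain ⟨Ψ, hΨ⟩ := CompleteSpace.complete h1
    exact pot_complete M k l Ψ hΨ
  exact (inferInstance : BaireSpace (Pot M k))

/-- `C^0`-closeness on `N` is a neighbourhood -/
theorem mem_nhds_zero (f : Pot M k) {ρ : ℝ} (hρ : 0 < ρ) :
    {f' : Pot M k | ∀ x t, ∀ ν ∈ M.N, |f.toFun (x, ν, t) - f'.toFun (x, ν, t)| ≤ ρ} ∈ 𝓝 f :=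
  mem_of_superset (pot_ball f hρ) fun _ h x t ν hν => h x ν hν t

/-- basic neighbourhoods -/
theorem nhds_small (f : Pot M k) {O : Set (Pot M k)} (hO : O ∈ 𝓝 f) :
    ∃ (r : ℕ) (Kc : Set (Vec m)) (ε : ℝ), IsCompact Kc ∧ Kc ⊆ M.U ∧ 0 < ε ∧ ∀ f' : Pot M k,
      (∀ j ≤ r, (j : ℕ∞) ≤ k → ∀ x ν t, ν ∈ Kc →
        ‖iteratedFDeriv ℝ j f'.toFun (x, ν, t) - iteratedFDeriv ℝ j f.toFun (x, ν, t)‖ < ε) → f' ∈ O := by
  obtain ⟨r, K, ε, hc, hK, hε, h⟩ := pot_nhds f hO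
  exact ⟨r, K, ε, hc, hK, hε, fun f' hf' => h f' fun j hj hjk x ν hν t => hf' j hj hjk x ν t hν⟩

/-! ### sums -/

theorem r_mem_U {ν : Vec m} (h : ν ∈ M.U) : M.r ν ∈ M.U := M.sub (M.mem ν h)

/-- sum of two elements of `C^k(M × 𝕋)` -/
def padd (f g : Pot M k) : Pot M k where
  toFun := f.toFun + g.toFun
  contDiff := f.contDiff.add g.contDiff
  ext := fun x ν t h => by simp only [Pi.add_apply, f.ext x ν t h, g.ext x ν t h]
  out := fun x ν t h => by simp only [Pi.add_apply, f.out x ν t h, g.out x ν t h, add_zero]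
  periodic := ⟨fun i x ν t h => by
      simp only [Pi.add_apply, f.periodic.1 i x ν t h, g.periodic.1 i x ν t h],
    fun x ν t h => by
      simp only [Pi.add_apply, f.periodic.2 x ν t h, g.periodic.2 x ν t h]⟩

lemma padd_toFun (f g : Pot M k) : (padd f g).toFun = f.toFun + g.toFun := rfl

lemma contDiffAt_of (f : Pot M k) {j : ℕ} (hj : (j : ℕ∞) ≤ k) {q : Vec n × Vec m × ℝ}
    (hq : q.2.1 ∈ M.U) : ContDiffAt ℝ j f.toFun q :=
  ((f.contDiff.of_le (WithTop.coe_le_coe.2 hj)) q hq).contDiffAt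
    ((isOpen_Om M).mem_nhds (mem_Om.2 hq) |> fun h => mem_of_superset h fun _ h' => mem_Om.1 h')

lemma iteratedFDeriv_padd (f g : Pot M k) {j : ℕ} (hj : (j : ℕ∞) ≤ k) {q : Vec n × Vec m × ℝ}
    (hq : q.2.1 ∈ M.U) : iteratedFDeriv ℝ j (f.toFun + g.toFun) q =
      iteratedFDeriv ℝ j f.toFun q + iteratedFDeriv ℝ j g.toFun q :=
  iteratedFDeriv_add_apply (contDiffAt_of f hj hq) (contDiffAt_of g hj hq)

lemma jet_padd (f g : Pot M k) (j : {j : ℕ // (j : ℕ∞) ≤ k}) :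
    jet (padd f g) j = jet f j + jet g j := by
  have h : ∀ q : Dom M, iteratedFDeriv ℝ j.1 (f.toFun + g.toFun) q =
      iteratedFDeriv ℝ j.1 f.toFun q + iteratedFDeriv ℝ j.1 g.toFun q :=
    fun q => iteratedFDeriv_padd f g j.2 q.2
  exact congrArg (UniformOnFun.ofFun (slabs M)) (funext h)

theorem continuous_padd (V : Pot M k) : Continuous fun f : Pot M k => padd V f := by
  rw [continuous_induced_rng]
  have h : (jet ∘ fun f : Pot M k => padd V f) = fun f => (fun j => jet V j + jet f j) := by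
    funext f j
    exact jet_padd V f j
  rw [h]
  refine continuous_pi fun j => ?_
  have hc : Continuous (jet : Pot M k → _) := continuous_induced_dom
  exact continuous_const.add ((continuous_apply j).comp hc)

/-- the category argument -/
theorem residual_of {ι : Type} [Countable ι] (V : Pot M k) (Dt : ι → Fun n m → Prop)
    (St : ι → ℕ → Fun n m → Prop)
    (hDo : ∀ i, IsOpen {F : Pot M k | Dt i F.toFun})
    (hSo : ∀ i q, IsOpen {F : Pot M k | St i q F.toFun})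
    (hDd : ∀ (F : Pot M k) (r : ℕ), (r : ℕ∞) ≤ k → ∀ Kc : Set (Vec m), IsCompact Kc → Kc ⊆ M.U →
      ∀ ε > 0, ∃ G : Pot M k, (∀ j ≤ r, ∀ x ν t, ν ∈ Kc → ‖iteratedFDeriv ℝ j G.toFun (x, ν, t)‖ < ε) ∧
        ∃ i, Dt i (F.toFun + G.toFun))
    (hSd : ∀ i q (F : Pot M k), Dt i F.toFun → ∀ (r : ℕ), (r : ℕ∞) ≤ k → ∀ Kc : Set (Vec m),
      IsCompact Kc → Kc ⊆ M.U →
      ∀ ε > 0, ∃ G : Pot M k, (∀ j ≤ r, ∀ x ν t, ν ∈ Kc → ‖iteratedFDeriv ℝ j G.toFun (x, ν, t)‖ < ε) ∧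
        St i q (F.toFun + G.toFun))
    (hesc : ∀ i (F : Pot M k), Dt i F.toFun → (∀ q, St i q F.toFun) → HasEscapingOrbit M F.toFun) :
    {f : Pot M k | HasEscapingOrbit M (V.toFun + f.toFun)} ∈ residual (Pot M k) ∧
      Dense {f : Pot M k | HasEscapingOrbit M (V.toFun + f.toFun)} := by
  have := baire M k
  refine (fun h => ⟨h, dense_of_mem_residual h⟩) ?_
  set U : ι → Set (Pot M k) := fun i => {f | Dt i (V.toFun + f.toFun)} with hU
  set W : ι → ℕ → Set (Pot M k) := fun i q => {f | St i q (V.toFun + f.toFun)} with hW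
  have hUo : ∀ i, IsOpen (U i) := fun i => (hDo i).preimage (continuous_padd V)
  have hWo : ∀ i q, IsOpen (W i q) := fun i q => (hSo i q).preimage (continuous_padd V)
  have hmin : ∀ r : ℕ, ∃ r' : ℕ, (r' : ℕ∞) ≤ k ∧ ∀ j ≤ r, (j : ℕ∞) ≤ k → j ≤ r' := by
    intro r
    by_cases h : (r : ℕ∞) ≤ k
    · exact ⟨r, h, fun j hj _ => hj⟩
    · push Not at h
      obtain ⟨k', rfl⟩ := ENat.ne_top_iff_exists.1 (ne_top_of_lt h)
      exact ⟨k', le_rfl, fun j _ hj => by exact_mod_cast hj⟩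
  -- adding a small perturbation
  have hadd : ∀ (f : Pot M k) (O : Set (Pot M k)), IsOpen O → f ∈ O → ∃ (r : ℕ) (Kc : Set (Vec m)) (ε : ℝ),
      (r : ℕ∞) ≤ k ∧ IsCompact Kc ∧ Kc ⊆ M.U ∧ 0 < ε ∧ ∀ G : Pot M k,
        (∀ j ≤ r, ∀ x ν t, ν ∈ Kc → ‖iteratedFDeriv ℝ j G.toFun (x, ν, t)‖ < ε) → padd f G ∈ O := by
    intro f O hO hf
    obtain ⟨r, Kc, ε, hc, hK, hε, h⟩ := nhds_small f (hO.mem_nhds hf)
    obtain ⟨r', hr', hjr⟩ := hmin r
    refine ⟨r', Kc, ε, hr', hc, hK, hε, fun G hG => h _ fun j hj hjk x ν t hν => ?_⟩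
    rw [padd_toFun, iteratedFDeriv_padd f G hjk (q := (x, ν, t)) (hK hν), add_sub_cancel_left]
    exact hG j (hjr j hj hjk) x ν t hν
  have e : ∀ f G : Pot M k, (padd V f).toFun + G.toFun = V.toFun + (padd f G).toFun := fun f G => by
    rw [padd_toFun, padd_toFun, add_assoc]
  have h1 : (⋃ i, U i) ∈ residual (Pot M k) := by
    refine residual_of_dense_open (isOpen_iUnion hUo) (dense_iff_inter_open.2 fun O hO hne => ?_)
    obtain ⟨f, hf⟩ := hne
    obtain ⟨r, Kc, ε, hr, hc, hK, hε, h⟩ := hadd f O hO hf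
    obtain ⟨G, hG, i, hi⟩ := hDd (padd V f) r hr Kc hc hK ε hε
    rw [e] at hi
    exact ⟨padd f G, h G hG, mem_iUnion.2 ⟨i, hi⟩⟩
  have h2 : ∀ i q, (W i q ∪ (closure (U i))ᶜ) ∈ residual (Pot M k) := by
    intro i q
    refine residual_of_dense_open ((hWo i q).union isClosed_closure.isOpen_compl)
      (dense_iff_inter_open.2 fun O hO hne => ?_)
    by_cases hOU : (O ∩ U i).Nonempty
    · obtain ⟨f, hfO, hfU⟩ := hOU
      obtain ⟨r, Kc, ε, hr, hc, hK, hε, h⟩ := hadd f O hO hfO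
      obtain ⟨G, hG, hi⟩ := hSd i q (padd V f) hfU r hr Kc hc hK ε hε
      rw [e] at hi
      exact ⟨padd f G, h G hG, Or.inl hi⟩
    · obtain ⟨f, hf⟩ := hne
      refine ⟨f, hf, Or.inr fun hcl => hOU ?_⟩
      exact mem_closure_iff.1 hcl O hO hf
  have h3 : (⋂ i, ⋂ q, (W i q ∪ (closure (U i))ᶜ)) ∈ residual (Pot M k) :=
    countable_iInter_mem.2 fun i => countable_iInter_mem.2 fun q => h2 i q
  refine mem_of_superset (inter_mem h1 h3) fun f hf => ?_
  obtain ⟨i, hi⟩ := mem_iUnion.1 hf.1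
  refine hesc i (padd V f) hi fun q => ?_
  rcases mem_iInter.1 (mem_iInter.1 hf.2 i) q with h | h
  · exact h
  · exact absurd (subset_closure hi) h

end EscN.T
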