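import Pool.Agent.EscN.T1b
import Pool.Agent.EscN.T4
import Pool.Agent.EscN.Stage
import Pool.Agent.EscN.Open
import Pool.Agent.EscN.A4

/-!
Module T2 of project ESCN: transfer of potentials between `M` and the state spaces `sp M K`,
openness and density of the stages.
-/

noncomputable section

namespace EscN

open MeasureTheory Set Filter Topology Esc
open scoped ContDiff

/-! ## Everything depends only on the values of the potential on `S` -/

section congr

variable {E : Type*} [NormedAddCommGroup E] [InnerProductSpace ℝ E]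

theorem act_congr_S {S : Set E} {f f' : E → ℝ → ℝ} (h : ∀ x ∈ S, ∀ t, f x t = f' x t) (v : E)
    {a b : ℝ} (hab : a ≤ b) {z : E} {u : ℝ → E} (hu : InS S a b z u) :
    act f v a b z u = act f' v a b z u := by
  unfold act
  refine intervalIntegral.integral_congr fun t ht => ?_
  rw [uIcc_of_le hab] at ht
  have h1 := h _ (hu t ht) t
  show ‖u t - v‖ ^ 2 / 2 + f (traj a z u t) t = ‖u t - v‖ ^ 2 / 2 + f' (traj a z u t) t
  rw [h1]

theorem ker_congr_S {S : Set E} {f f' : E → ℝ → ℝ} (h : ∀ x ∈ S, ∀ t, f x t = f' x t) (v : E)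
    {a b : ℝ} (hab : a ≤ b) (z z' : E) : ker S f v a b z z' = ker S f' v a b z z' := by
  unfold ker
  congr 1
  ext c
  constructor
  · rintro ⟨u, h1, h2, h3, h4⟩
    exact ⟨u, h1, h2, h3, by rw [h4, act_congr_S h v hab h2]⟩
  · rintro ⟨u, h1, h2, h3, h4⟩
    exact ⟨u, h1, h2, h3, by rw [h4, act_congr_S h v hab h2]⟩

variable {d : ℕ} (L : Sp d E)

theorem kbar_congr_S {f f' : E → ℝ → ℝ} (h : ∀ x ∈ L.S, ∀ t, f x t = f' x t) (s : ℝ) :
    L.kbar f s = L.kbar f' s := by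
  funext z z'
  unfold Sp.kbar
  exact iInf_congr fun n => ker_congr_S h _ zero_le_one _ _

theorem seg_congr_S {f f' : E → ℝ → ℝ} (h : ∀ x ∈ L.S, ∀ t, f x t = f' x t) (p s : ℝ)
    (F : Finset ℕ) (c : ℕ → ℝ) : L.seg f p s F c = L.seg f' p s F c := by
  funext z z'
  unfold Sp.seg
  rw [kbar_congr_S L h]

theorem stage_congr_S {f f' : E → ℝ → ℝ} (h : ∀ x ∈ L.S, ∀ t, f x t = f' x t) {p β : ℝ} {q : ℕ}
    (hs : L.Stage p β q f) : L.Stage p β q f' := by
  unfold Sp.Stage at hs ⊢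
  simpa only [seg_congr_S L h] using hs

end congr

end EscN

namespace EscN.T

open Filter Topology Set Esc
open scoped ContDiff

/-! ## T2: transfer of potentials -/

section T2
variable {d m : ℕ} (M : FlatBundle (d + 1) m) (K : ℕ)

/-- the potential on `E` -/
def core (F : Fun (d + 1) m) : EE (d + 1) m → ℝ → ℝ := fun X t =>
  lam M K ^ 2 * (chi M ((lam M K)⁻¹ • X.snd) *
    F ((lam M K)⁻¹ • X.fst, (lam M K)⁻¹ • X.snd, t))

lemma chi_contDiff : ContDiff ℝ ∞ (chi M) := (exists_chi M).choose_spec.1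
lemma chi_compact : HasCompactSupport (chi M) := (exists_chi M).choose_spec.2.1
lemma chi_tsupport : tsupport (chi M) ⊆ M.U := (exists_chi M).choose_spec.2.2.1
lemma chi_nonneg (ν : Vec m) : 0 ≤ chi M ν := ((exists_chi M).choose_spec.2.2.2.1 ν).1
lemma chi_le (ν : Vec m) : chi M ν ≤ 1 := ((exists_chi M).choose_spec.2.2.2.1 ν).2
lemma chi_near : ∀ᶠ ν in 𝓝ˢ M.N, chi M ν = 1 := (exists_chi M).choose_spec.2.2.2.2.1
lemma chi_rot (i : Fin (d + 1)) (ν : Vec m) : chi M (M.rot i ν) = chi M ν :=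
  (exists_chi M).choose_spec.2.2.2.2.2 i ν

lemma chi_one {ν : Vec m} (h : ν ∈ M.N) : chi M ν = 1 := by
  have h1 := chi_near M
  rw [eventually_nhdsSet_iff_forall] at h1
  exact (h1 ν h).self_of_nhds

lemma chi_zero {ν : Vec m} (h : ν ∉ M.U) : chi M ν = 0 :=
  image_eq_zero_of_notMem_tsupport fun h' => h (chi_tsupport M h')

/-- the cut off function is smooth on the whole space -/
lemma chi_mul_contDiff {k : ℕ∞} (F : Pot M k) :
    ContDiff ℝ k (fun q : Vec (d + 1) × Vec m × ℝ => chi M q.2.1 * F.toFun q) := by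
  have hopen : IsOpen {q : Vec (d + 1) × Vec m × ℝ | q.2.1 ∈ M.U} :=
    M.isOpen.preimage (continuous_fst.comp continuous_snd)
  rw [contDiff_iff_contDiffAt]
  intro q
  by_cases hq : q.2.1 ∈ tsupport (chi M)
  · refine ContDiffAt.mul ?_ (F.contDiff.contDiffAt (hopen.mem_nhds (chi_tsupport M hq)))
    exact (((chi_contDiff M).of_le (by exact_mod_cast le_top)).comp
      (contDiff_fst.comp contDiff_snd)).contDiffAt
  · have h1 : ∀ᶠ q' : Vec (d + 1) × Vec m × ℝ in 𝓝 q, chi M q'.2.1 * F.toFun q' = 0 := by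
      have h2 : ∀ᶠ q' : Vec (d + 1) × Vec m × ℝ in 𝓝 q, q'.2.1 ∈ (tsupport (chi M))ᶜ :=
        ((isClosed_tsupport _).isOpen_compl.preimage (continuous_fst.comp continuous_snd)).mem_nhds hq
      filter_upwards [h2] with q' hq'
      rw [image_eq_zero_of_notMem_tsupport hq', zero_mul]
    exact contDiffAt_const.congr_of_eventuallyEq h1

theorem core_isPot {k : ℕ∞} (hk : 2 ≤ k) (F : Pot M k) : (sp M K).IsPot (core M K F.toFun) := by
  have hl := lam_pos M K
  have hinv := sp_inv M K (core M K F.toFun) (fun i X t => by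
    change lam M K ^ 2 * (chi M ((lam M K)⁻¹ • M.rot i X.snd) *
      F.toFun ((lam M K)⁻¹ • (X.fst + lam M K • M.τ i), (lam M K)⁻¹ • M.rot i X.snd, t)) =
      lam M K ^ 2 * (chi M ((lam M K)⁻¹ • X.snd) *
        F.toFun ((lam M K)⁻¹ • X.fst, (lam M K)⁻¹ • X.snd, t))
    have e1 : (lam M K)⁻¹ • (X.fst + lam M K • M.τ i) = (lam M K)⁻¹ • X.fst + M.τ i := by
      rw [smul_add, inv_smul_smul₀ hl.ne']
    have e2 : (lam M K)⁻¹ • M.rot i X.snd = M.rot i ((lam M K)⁻¹ • X.snd) := (map_smul _ _ _).symm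
    rw [e1, e2, chi_rot]
    by_cases hU : (lam M K)⁻¹ • X.snd ∈ M.U
    · rw [F.periodic.1 i _ _ _ hU]
    · rw [chi_zero M hU, zero_mul, zero_mul])
  refine ⟨?_, hinv.1, hinv.2, fun X t => ?_, fun X t hX => ?_⟩
  · have h1 := (chi_mul_contDiff M F).of_le (show ((2 : ℕ∞) : WithTop ℕ∞) ≤ k from WithTop.coe_le_coe.2 hk)
    have h2 : ContDiff ℝ 2 (fun p : EE (d + 1) m × ℝ =>
        (((lam M K)⁻¹ • p.1.fst, (lam M K)⁻¹ • p.1.snd, p.2) : Vec (d + 1) × Vec m × ℝ)) := by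
      have h3 : ContDiff ℝ 2 (fun p : EE (d + 1) m × ℝ => WithLp.ofLp p.1) :=
        (WithLp.prodContinuousLinearEquiv 2 ℝ (Vec (d + 1)) (Vec m)).contDiff.comp contDiff_fst
      exact ((contDiff_fst.comp h3).const_smul _).prodMk
        (((contDiff_snd.comp h3).const_smul _).prodMk contDiff_snd)
    exact contDiff_const.mul (h1.comp h2)
  · simp only [core]
    by_cases hU : (lam M K)⁻¹ • X.snd ∈ M.U
    · rw [F.periodic.2 _ _ _ hU]
    · rw [chi_zero M hU, zero_mul, zero_mul]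
  · simp only [core]
    rw [sp_R0 M K ((lam M K)⁻¹ • X.snd), zero_mul, mul_zero]
    rw [sp_Q] at hX
    rw [norm_smul, norm_inv, Real.norm_eq_abs, abs_of_pos hl, mul_inv_cancel_left₀ hl.ne']
    refine hX.trans (le_of_eq ?_)
    simp [mk]

theorem core_S (F : Fun (d + 1) m) {X : EE (d + 1) m} (hX : X ∈ (sp M K).S) (t : ℝ) :
    core M K F X t = lam M K ^ 2 * F ((lam M K)⁻¹ • X.fst, (lam M K)⁻¹ • X.snd, t) := by
  rw [sp_S] at hX
  simp only [core]
  rw [chi_one M hX, one_mul]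

/-- sum of potentials -/
def Pot.add {M : FlatBundle (d + 1) m} {k : ℕ∞} (f g : Pot M k) : Pot M k where
  toFun := f.toFun + g.toFun
  contDiff := f.contDiff.add g.contDiff
  ext x ν t h := by simp only [Pi.add_apply]; rw [f.ext x ν t h, g.ext x ν t h]
  out x ν t h := by simp only [Pi.add_apply]; rw [f.out x ν t h, g.out x ν t h, add_zero]
  periodic := ⟨fun i x ν t h => by
      simp only [Pi.add_apply]; rw [f.periodic.1 i x ν t h, g.periodic.1 i x ν t h],
    fun x ν t h => by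
      simp only [Pi.add_apply]; rw [f.periodic.2 x ν t h, g.periodic.2 x ν t h]⟩

/-- the difference of the transported potentials is controlled by the values on `N` -/
lemma core_sub_le {k : ℕ∞} (F F' : Pot M k) {ρ : ℝ} (hρ : 0 ≤ ρ)
    (h : ∀ x t, ∀ ν ∈ M.N, |F.toFun (x, ν, t) - F'.toFun (x, ν, t)| ≤ ρ) (X : EE (d + 1) m) (t : ℝ) :
    |core M K F.toFun X t - core M K F'.toFun X t| ≤ lam M K ^ 2 * ρ := by
  have hl := lam_pos M K
  simp only [core]
  rw [← mul_sub, ← mul_sub, abs_mul, abs_mul, abs_of_nonneg (sq_nonneg _),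
    abs_of_nonneg (chi_nonneg M _)]
  refine mul_le_mul_of_nonneg_left ?_ (sq_nonneg _)
  by_cases hU : (lam M K)⁻¹ • X.snd ∈ M.U
  · rw [F.ext _ _ _ hU, F'.ext _ _ _ hU]
    have h1 := h ((lam M K)⁻¹ • X.fst) t _ (M.mem _ hU)
    calc _ ≤ 1 * ρ := mul_le_mul (chi_le M _) h1 (abs_nonneg _) zero_le_one
      _ = ρ := one_mul ρ
  · rw [chi_zero M hU, zero_mul]
    exact hρ

/-- stages and data classes are open -/
theorem isOpen_stage {k : ℕ∞} (hk : 2 ≤ k) (p β : ℝ) (q : ℕ) :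
    IsOpen {F : Pot M k | (sp M K).Stage p β q (core M K F.toFun)} := by
  have hl := lam_pos M K
  rw [isOpen_iff_mem_nhds]
  intro F hF
  obtain ⟨ρ, hρ, h⟩ := stage_open (sp M K) (core_isPot M K hk F) hF
  filter_upwards [mem_nhds_zero F (ρ := ρ / lam M K ^ 2) (by positivity)] with F' hF'
  refine h _ (core_isPot M K hk F') fun X t => ?_
  refine (core_sub_le M K F F' (by positivity) hF' X t).trans (le_of_eq ?_)
  field_simp

theorem isOpen_dat {k : ℕ∞} (hk : 2 ≤ k) (p β M0 : ℝ) :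
    IsOpen {F : Pot M k | (sp M K).Dat p β M0 (core M K F.toFun)} := by
  have hl := lam_pos M K
  rw [isOpen_iff_mem_nhds]
  intro F hF
  obtain ⟨ρ, hρ, h⟩ := dat_open (sp M K) (core_isPot M K hk F) hF
  filter_upwards [mem_nhds_zero F (ρ := ρ / lam M K ^ 2) (by positivity)] with F' hF'
  refine h _ (core_isPot M K hk F') fun X t => ?_
  refine (core_sub_le M K F F' (by positivity) hF' X t).trans (le_of_eq ?_)
  field_simp

/-! ### Transport back and the norms -/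

section back

open Classical in
/-- transport back to `M` -/
def back (G : EE (d + 1) m → ℝ → ℝ) : Fun (d + 1) m := fun q =>
  if q.2.1 ∈ M.U then (lam M K ^ 2)⁻¹ * G (mk (lam M K • q.1) (lam M K • M.r q.2.1)) q.2.2 else 0

variable {M K}

lemma back_of_mem {G : EE (d + 1) m → ℝ → ℝ} {q : Vec (d + 1) × Vec m × ℝ} (h : q.2.1 ∈ M.U) :
    back M K G q = (lam M K ^ 2)⁻¹ * G (mk (lam M K • q.1) (lam M K • M.r q.2.1)) q.2.2 := if_pos h

lemma back_of_notMem {G : EE (d + 1) m → ℝ → ℝ} {q : Vec (d + 1) × Vec m × ℝ} (h : q.2.1 ∉ M.U) :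
    back M K G q = 0 := if_neg h

lemma slab_open (M : FlatBundle (d + 1) m) : IsOpen {q : Vec (d + 1) × Vec m × ℝ | q.2.1 ∈ M.U} :=
  M.isOpen.preimage (continuous_fst.comp continuous_snd)

lemma back_contDiffOn {G : EE (d + 1) m → ℝ → ℝ} (hG : (sp M K).IsSm G) {k : ℕ∞} :
    ContDiffOn ℝ k (back M K G) {q | q.2.1 ∈ M.U} := by
  refine ContDiffOn.congr (f := fun q : Vec (d + 1) × Vec m × ℝ =>
    (lam M K ^ 2)⁻¹ * G (mk (lam M K • q.1) (lam M K • M.r q.2.1)) q.2.2) ?_ fun q hq => back_of_mem hq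
  have h1 : ContDiffOn ℝ ∞ (fun q : Vec (d + 1) × Vec m × ℝ => M.r q.2.1) {q | q.2.1 ∈ M.U} :=
    M.smooth.comp (contDiff_fst.comp contDiff_snd).contDiffOn fun q hq => hq
  have h2 : ContDiffOn ℝ ∞ (fun q : Vec (d + 1) × Vec m × ℝ =>
      (lam M K • q.1, lam M K • M.r q.2.1)) {q | q.2.1 ∈ M.U} :=
    (contDiff_fst.const_smul _).contDiffOn.prodMk (h1.const_smul _)
  have h3 : ContDiffOn ℝ ∞ (fun q : Vec (d + 1) × Vec m × ℝ =>
      (mk (lam M K • q.1) (lam M K • M.r q.2.1), q.2.2)) {q | q.2.1 ∈ M.U} :=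
    ((WithLp.prodContinuousLinearEquiv 2 ℝ (Vec (d + 1)) (Vec m)).symm.contDiff.comp_contDiffOn
      h2).prodMk (contDiff_snd.comp contDiff_snd).contDiffOn
  have h4 := hG.smooth.comp_contDiffOn h3
  exact (contDiffOn_const.mul h4).of_le (by exact_mod_cast le_top)

lemma back_rot {G : EE (d + 1) m → ℝ → ℝ} (hG : (sp M K).IsSm G) (i : Fin (d + 1))
    (x : Vec (d + 1)) (ν : Vec m) (t : ℝ) :
    back M K G (x + M.τ i, M.rot i ν, t) = back M K G (x, ν, t) := by
  by_cases hU : ν ∈ M.U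
  · rw [back_of_mem (show ((x + M.τ i, M.rot i ν, t) : Vec (d + 1) × Vec m × ℝ).2.1 ∈ M.U from
      (rot_mem_U M i).2 hU), back_of_mem hU]
    congr 1
    have h1 := sp_inv' M K G hG.perd hG.perg i (mk (lam M K • x) (lam M K • M.r ν)) t
    rw [← h1]
    simp only [r_rot M i hU, mk]
    congr 2
    simp [smul_add, map_smul]
  · rw [back_of_notMem (show ((x + M.τ i, M.rot i ν, t) : Vec (d + 1) × Vec m × ℝ).2.1 ∉ M.U from
      fun h => hU ((rot_mem_U M i).1 h)), back_of_notMem hU]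

lemma back_time {G : EE (d + 1) m → ℝ → ℝ} (hG : (sp M K).IsSm G)
    (x : Vec (d + 1)) (ν : Vec m) (t : ℝ) :
    back M K G (x, ν, t + 1) = back M K G (x, ν, t) := by
  by_cases hU : ν ∈ M.U
  · rw [back_of_mem (show ((x, ν, t + 1) : Vec (d + 1) × Vec m × ℝ).2.1 ∈ M.U from hU),
      back_of_mem hU]
    simp only [hG.pert]
  · rw [back_of_notMem (show ((x, ν, t + 1) : Vec (d + 1) × Vec m × ℝ).2.1 ∉ M.U from hU),
      back_of_notMem hU]

variable (M K) in
/-- the transported perturbation as an element of `C^k(M × 𝕋)` -/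
def backPot {G : EE (d + 1) m → ℝ → ℝ} (hG : (sp M K).IsSm G) (k : ℕ∞) : Pot M k where
  toFun := back M K G
  contDiff := back_contDiffOn hG
  ext x ν t h := by
    have hr := M.mem _ h
    rw [back_of_mem h, back_of_mem (show ((x, M.r ν, t) : Vec (d + 1) × Vec m × ℝ).2.1 ∈ M.U from
      M.sub hr)]
    simp only [r_id M hr]
  out x ν t h := back_of_notMem h
  periodic := ⟨fun i x ν t _ => back_rot hG i x ν t, fun x ν t _ => back_time hG x ν t⟩

/-- linear isometry `id × rot i × id` -/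
def rotI (M : FlatBundle (d + 1) m) (i : Fin (d + 1)) :
    (Vec (d + 1) × Vec m × ℝ) ≃ₗᵢ[ℝ] (Vec (d + 1) × Vec m × ℝ) where
  toLinearEquiv := (LinearEquiv.refl ℝ _).prodCongr
    ((M.rot i).toLinearEquiv.prodCongr (LinearEquiv.refl ℝ ℝ))
  norm_map' q := by simp [Prod.norm_def]

lemma rotI_apply (i : Fin (d + 1)) (q : Vec (d + 1) × Vec m × ℝ) :
    rotI M i q = (q.1, M.rot i q.2.1, q.2.2) := rfl

/-- norm of the derivatives of the transported perturbation -/
def Dn (M : FlatBundle (d + 1) m) (K : ℕ) (j : ℕ) (G : EE (d + 1) m → ℝ → ℝ)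
    (q : Vec (d + 1) × Vec m × ℝ) : ℝ := ‖iteratedFDeriv ℝ j (back M K G) q‖

lemma Dn_rot {G : EE (d + 1) m → ℝ → ℝ} (hG : (sp M K).IsSm G) (j : ℕ) (i : Fin (d + 1))
    (x : Vec (d + 1)) (ν : Vec m) (t : ℝ) :
    Dn M K j G (x + M.τ i, M.rot i ν, t) = Dn M K j G (x, ν, t) := by
  unfold Dn
  have h1 : back M K G = (fun z => back M K G (z + (M.τ i, 0, 0))) ∘ rotI M i := by
    funext q
    obtain ⟨x, ν, t⟩ := q
    rw [Function.comp, rotI_apply]
    have := back_rot hG i x ν t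
    rw [← this]
    simp
  have h2 := (rotI M i).norm_iteratedFDeriv_comp_right (𝕜 := ℝ)
    (fun z => back M K G (z + (M.τ i, 0, 0))) (x, ν, t) j
  rw [← h1, iteratedFDeriv_comp_add_right, rotI_apply] at h2
  rw [h2]
  simp

lemma Dn_time {G : EE (d + 1) m → ℝ → ℝ} (hG : (sp M K).IsSm G) (j : ℕ)
    (x : Vec (d + 1)) (ν : Vec m) (t : ℝ) :
    Dn M K j G (x, ν, t + 1) = Dn M K j G (x, ν, t) := by
  unfold Dn
  have h1 : (fun z => back M K G (z + (0, 0, 1))) = back M K G := by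
    funext q
    obtain ⟨x, ν, t⟩ := q
    have := back_time hG x ν t
    rw [← this]
    simp
  have h2 := iteratedFDeriv_comp_add_right (𝕜 := ℝ) (f := back M K G) j (0, 0, 1) (x, ν, t)
  rw [h1] at h2
  rw [h2]
  simp

/-- a compact subset of `U` is contained in a compact subset of `U` invariant under the rotations -/
lemma exists_inv (M : FlatBundle (d + 1) m) {Kc : Set (Vec m)} (hKc : IsCompact Kc)
    (hKU : Kc ⊆ M.U) : ∃ Kh : Set (Vec m), IsCompact Kh ∧ Kc ⊆ Kh ∧ Kh ⊆ M.U ∧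
      (∀ i, ∀ ν ∈ Kh, M.rot i ν ∈ Kh) ∧ ∀ i, ∀ ν ∈ Kh, (M.rot i).symm ν ∈ Kh := by
  obtain ⟨R, hR⟩ := hKc.isBounded.exists_norm_le
  obtain ⟨δ, hδ, hsub⟩ := hKc.exists_cthickening_subset_open M.isOpen hKU
  have hinv : ∀ i (ν : Vec m), Metric.infEDist (M.rot i ν) (M.U)ᶜ = Metric.infEDist ν (M.U)ᶜ := by
    intro i ν
    have h1 : M.rot i '' (M.U)ᶜ = (M.U)ᶜ := by
      rw [image_compl_eq (M.rot i).bijective, M.presU i]
    have h2 := Metric.infEDist_image (x := ν) (t := (M.U)ᶜ) (M.rot i).isometry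
    rwa [h1] at h2
  refine ⟨Metric.closedBall 0 R ∩ {ν | ENNReal.ofReal δ ≤ Metric.infEDist ν (M.U)ᶜ}, ?_, ?_, ?_, ?_, ?_⟩
  · exact (isCompact_closedBall _ _).inter_right (isClosed_le continuous_const Metric.continuous_infEDist)
  · intro ν hν
    refine ⟨by simpa using hR ν hν, ?_⟩
    by_contra hlt
    simp only [mem_ofPred_eq, not_le] at hlt
    obtain ⟨w, hw, hd⟩ := Metric.infEDist_lt_iff.1 hlt
    refine hw (hsub ?_)
    refine Metric.thickening_subset_cthickening _ _ ?_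
    rw [Metric.mem_thickening_iff_infEDist_lt]
    refine (Metric.infEDist_le_edist_of_mem hν).trans_lt ?_
    rwa [edist_comm]
  · rintro ν ⟨-, h2⟩
    by_contra hU
    have h3 : Metric.infEDist ν (M.U)ᶜ = 0 := Metric.infEDist_zero_of_mem hU
    simp only [mem_ofPred_eq, h3, nonpos_iff_eq_zero, ENNReal.ofReal_eq_zero] at h2
    linarith
  · rintro i ν ⟨h1, h2⟩
    refine ⟨by simpa using h1, ?_⟩
    simp only [mem_ofPred_eq] at h2 ⊢
    rwa [hinv]
  · rintro i ν ⟨h1, h2⟩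
    refine ⟨by simpa using h1, ?_⟩
    simp only [mem_ofPred_eq] at h2 ⊢
    rw [← hinv i, LinearIsometryEquiv.apply_symm_apply]
    exact h2

lemma Dn_bdd {Kc : Set (Vec m)} (hKc : IsCompact Kc) (hKU : Kc ⊆ M.U) {G : EE (d + 1) m → ℝ → ℝ}
    (hG : (sp M K).IsSm G) (j : ℕ) : ∃ C : ℝ, ∀ x ν t, ν ∈ Kc → Dn M K j G (x, ν, t) ≤ C := by
  obtain ⟨Kh, hK1, hK2, hK3, hr, hr'⟩ := exists_inv M hKc hKU
  set B : Module.Basis (Fin (d + 1)) ℝ (Vec (d + 1)) :=
    basisOfLinearIndependentOfCardEqFinrank M.li (by simp) with hB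
  have hBτ : ∀ i, B i = M.τ i := fun i => by rw [hB]; simp
  set C0 : Set (Vec (d + 1) × Vec m × ℝ) :=
    Metric.closedBall 0 (∑ i, ‖B i‖) ×ˢ (Kh ×ˢ Icc (0:ℝ) 1) with hC0
  have hcomp : IsCompact C0 := (isCompact_closedBall _ _).prod (hK1.prod isCompact_Icc)
  have hcont : ContinuousOn (Dn M K j G) {q | q.2.1 ∈ M.U} := by
    have h1 := (back_contDiffOn hG (k := ⊤)).continuousOn_iteratedFDerivWithin (m := j)
      (by exact_mod_cast le_top) (slab_open M).uniqueDiffOn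
    have h2 : ContinuousOn (iteratedFDeriv ℝ j (back M K G)) {q | q.2.1 ∈ M.U} :=
      h1.congr fun q hq => ((iteratedFDerivWithin_of_isOpen j (slab_open M)) hq).symm
    exact h2.norm
  obtain ⟨C, hC⟩ := hcomp.exists_bound_of_continuousOn
    (hcont.mono fun q hq => hK3 hq.2.1)
  refine ⟨C, fun x ν t hν => ?_⟩
  -- reduction to the compact set
  have key : ∀ v : Vec (d + 1), v ∈ AddSubgroup.closure (range M.τ) →
      (∀ ν ∈ Kh, ∃ ν' ∈ Kh, ∀ x t, Dn M K j G (x + v, ν, t) = Dn M K j G (x, ν', t)) ∧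
      ∀ ν ∈ Kh, ∃ ν' ∈ Kh, ∀ x t, Dn M K j G (x - v, ν, t) = Dn M K j G (x, ν', t) := by
    intro v hv
    induction hv using AddSubgroup.closure_induction with
    | mem v hv =>
      obtain ⟨i, rfl⟩ := hv
      constructor
      · intro ν hν
        refine ⟨_, hr' i ν hν, fun x t => ?_⟩
        have := Dn_rot hG j i x ((M.rot i).symm ν) t
        rwa [LinearIsometryEquiv.apply_symm_apply] at this
      · intro ν hν
        refine ⟨_, hr i ν hν, fun x t => ?_⟩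
        have := Dn_rot hG j i (x - M.τ i) ν t
        rw [sub_add_cancel] at this
        exact this.symm
    | zero => exact ⟨fun ν hν => ⟨ν, hν, fun x t => by rw [add_zero]⟩,
        fun ν hν => ⟨ν, hν, fun x t => by rw [sub_zero]⟩⟩
    | add v w _ _ ihv ihw =>
      constructor
      · intro ν hν
        obtain ⟨ν1, h1, e1⟩ := ihw.1 ν hν
        obtain ⟨ν2, h2, e2⟩ := ihv.1 ν1 h1
        exact ⟨ν2, h2, fun x t => by rw [← add_assoc, e1, e2]⟩
      · intro ν hν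
        obtain ⟨ν1, h1, e1⟩ := ihw.2 ν hν
        obtain ⟨ν2, h2, e2⟩ := ihv.2 ν1 h1
        exact ⟨ν2, h2, fun x t => by rw [← sub_sub, e1, e2]⟩
    | neg v _ ih => exact ⟨by simpa only [sub_eq_add_neg] using ih.2,
        by simpa only [sub_neg_eq_add] using ih.1⟩
  have hfl : ((ZSpan.floor B x : Submodule.span ℤ (range B)) : Vec (d + 1)) ∈
      AddSubgroup.closure (range M.τ) := by
    have h1 : range B = range M.τ := by
      congr 1; exact funext hBτ
    have h2 := (ZSpan.floor B x).2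
    rw [← h1]
    have h3 := Submodule.span_int_eq_addSubgroupClosure (s := range B)
    rw [← h3]
    exact h2
  obtain ⟨ν', hν', e1⟩ := (key _ hfl).1 ν (hK2 hν)
  have hper : Function.Periodic (fun t => Dn M K j G (ZSpan.fract B x, ν', t)) 1 := fun t =>
    Dn_time hG j _ _ t
  obtain ⟨t', ht', e2⟩ := hper.exists_mem_Ico₀ zero_lt_one t
  have e3 : Dn M K j G (x, ν, t) = Dn M K j G (ZSpan.fract B x, ν', t') := by
    have h4 := e1 (ZSpan.fract B x) t
    rw [show ZSpan.fract B x + ((ZSpan.floor B x : Submodule.span ℤ (range B)) : Vec (d + 1)) = x by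
      simp [ZSpan.fract]] at h4
    rw [h4]
    exact e2
  rw [e3]
  have h5 := hC (ZSpan.fract B x, ν', t') ⟨by simpa using ZSpan.norm_fract_le B x, hν',
    ⟨ht'.1, ht'.2.le⟩⟩
  exact (le_abs_self _).trans h5

lemma back_add (G G' : EE (d + 1) m → ℝ → ℝ) :
    back M K (fun x t => G x t + G' x t) = back M K G + back M K G' := by
  funext q
  by_cases hq : q.2.1 ∈ M.U
  · rw [Pi.add_apply, back_of_mem hq, back_of_mem hq, back_of_mem hq, mul_add]
  · rw [Pi.add_apply, back_of_notMem hq, back_of_notMem hq, back_of_notMem hq, add_zero]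

lemma back_smul (c : ℝ) (G : EE (d + 1) m → ℝ → ℝ) :
    back M K (fun x t => c * G x t) = c • back M K G := by
  funext q
  by_cases hq : q.2.1 ∈ M.U
  · rw [Pi.smul_apply, back_of_mem hq, back_of_mem hq, smul_eq_mul]
    ring
  · rw [Pi.smul_apply, back_of_notMem hq, back_of_notMem hq, smul_zero]

lemma back_contDiffAt {G : EE (d + 1) m → ℝ → ℝ} (hG : (sp M K).IsSm G) (j : ℕ)
    {q : Vec (d + 1) × Vec m × ℝ} (hq : q.2.1 ∈ M.U) : ContDiffAt ℝ j (back M K G) q :=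
  (back_contDiffOn hG (k := j)).contDiffAt ((slab_open M).mem_nhds hq)

lemma Dn_add {G G' : EE (d + 1) m → ℝ → ℝ} (hG : (sp M K).IsSm G) (hG' : (sp M K).IsSm G') (j : ℕ)
    {q : Vec (d + 1) × Vec m × ℝ} (hq : q.2.1 ∈ M.U) :
    Dn M K j (fun x t => G x t + G' x t) q ≤ Dn M K j G q + Dn M K j G' q := by
  unfold Dn
  rw [back_add, iteratedFDeriv_add_apply (back_contDiffAt hG j hq) (back_contDiffAt hG' j hq)]
  exact norm_add_le _ _

lemma Dn_smul (c : ℝ) {G : EE (d + 1) m → ℝ → ℝ} (hG : (sp M K).IsSm G) (j : ℕ)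
    {q : Vec (d + 1) × Vec m × ℝ} (hq : q.2.1 ∈ M.U) :
    Dn M K j (fun x t => c * G x t) q = |c| * Dn M K j G q := by
  unfold Dn
  rw [back_smul, iteratedFDeriv_const_smul_apply (back_contDiffAt hG j hq), norm_smul,
    Real.norm_eq_abs]

lemma sup_bdd {G : EE (d + 1) m → ℝ → ℝ} (hG : (sp M K).IsSm G) :
    BddAbove (range fun p : EE (d + 1) m × ℝ => |G p.1 p.2|) := by
  obtain ⟨C, hC⟩ := isPot_good (sp M K) (isSm_isPot (sp M K) hG)
  exact ⟨C, by rintro _ ⟨p, rfl⟩; exact hC.bd _ _⟩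

lemma Dn_bddAbove {Kc : Set (Vec m)} (hKc : IsCompact Kc) (hKU : Kc ⊆ M.U)
    {G : EE (d + 1) m → ℝ → ℝ} (hG : (sp M K).IsSm G) (j : ℕ) :
    BddAbove (range fun q : {q : Vec (d + 1) × Vec m × ℝ // q.2.1 ∈ Kc} => Dn M K j G q.1) := by
  obtain ⟨C, hC⟩ := Dn_bdd hKc hKU hG j
  exact ⟨C, by rintro _ ⟨⟨⟨x, ν, t⟩, hq⟩, rfl⟩; exact hC x ν t hq⟩

variable (M K) in
/-- a `C^r` norm, measured on `M` over the compact set `Kc` -/
def nrm {Kc : Set (Vec m)} (hKc : IsCompact Kc) (hKU : Kc ⊆ M.U) (r : ℕ) : (sp M K).SmNorm where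
  nm G := (⨆ p : EE (d + 1) m × ℝ, |G p.1 p.2|) + ∑ j ∈ Finset.range (r + 1),
    ⨆ q : {q : Vec (d + 1) × Vec m × ℝ // q.2.1 ∈ Kc}, Dn M K j G q.1
  sup_le := by
    intro G hG x t
    have h1 := le_ciSup (sup_bdd hG) (x, t)
    have h2 : 0 ≤ ∑ j ∈ Finset.range (r + 1),
        ⨆ q : {q : Vec (d + 1) × Vec m × ℝ // q.2.1 ∈ Kc}, Dn M K j G q.1 :=
      Finset.sum_nonneg fun j _ => Real.iSup_nonneg fun q => norm_nonneg _
    simp only at h1
    linarith
  add_le := by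
    intro G G' hG hG'
    have h1 : (⨆ p : EE (d + 1) m × ℝ, |G p.1 p.2 + G' p.1 p.2|) ≤
        (⨆ p : EE (d + 1) m × ℝ, |G p.1 p.2|) + ⨆ p : EE (d + 1) m × ℝ, |G' p.1 p.2| :=
      ciSup_le fun p => (abs_add_le _ _).trans
        (add_le_add (le_ciSup (sup_bdd hG) p) (le_ciSup (sup_bdd hG') p))
    have h2 : ∑ j ∈ Finset.range (r + 1), (⨆ q : {q : Vec (d + 1) × Vec m × ℝ // q.2.1 ∈ Kc},
          Dn M K j (fun x t => G x t + G' x t) q.1) ≤
        ∑ j ∈ Finset.range (r + 1), (⨆ q : {q : Vec (d + 1) × Vec m × ℝ // q.2.1 ∈ Kc},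
          Dn M K j G q.1) +
        ∑ j ∈ Finset.range (r + 1), ⨆ q : {q : Vec (d + 1) × Vec m × ℝ // q.2.1 ∈ Kc},
          Dn M K j G' q.1 := by
      rw [← Finset.sum_add_distrib]
      refine Finset.sum_le_sum fun j _ => Real.iSup_le (fun q => ?_)
        (add_nonneg (Real.iSup_nonneg fun q => norm_nonneg _) (Real.iSup_nonneg fun q => norm_nonneg _))
      exact (Dn_add hG hG' j (hKU q.2)).trans (add_le_add
        (le_ciSup (Dn_bddAbove hKc hKU hG j) q) (le_ciSup (Dn_bddAbove hKc hKU hG' j) q))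
    linarith
  smul_le := by
    intro c G hG
    rw [mul_add, Finset.mul_sum]
    refine add_le_add ?_ (Finset.sum_le_sum fun j _ => Real.iSup_le (fun q => ?_)
      (mul_nonneg (abs_nonneg _) (Real.iSup_nonneg fun q => norm_nonneg _)))
    · refine ciSup_le fun p => ?_
      rw [abs_mul]
      exact mul_le_mul_of_nonneg_left (le_ciSup (sup_bdd hG) p) (abs_nonneg _)
    · rw [Dn_smul c hG j (hKU q.2)]
      exact mul_le_mul_of_nonneg_left (le_ciSup (Dn_bddAbove hKc hKU hG j) q) (abs_nonneg _)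

lemma le_nrm {Kc : Set (Vec m)} (hKc : IsCompact Kc) (hKU : Kc ⊆ M.U) (r : ℕ)
    {G : EE (d + 1) m → ℝ → ℝ} (hG : (sp M K).IsSm G) {j : ℕ} (hj : j ≤ r) (x : Vec (d + 1))
    (ν : Vec m) (t : ℝ) (hν : ν ∈ Kc) :
    ‖iteratedFDeriv ℝ j (back M K G) (x, ν, t)‖ ≤ (nrm M K hKc hKU r).nm G := by
  have h1 := le_ciSup (Dn_bddAbove hKc hKU hG j) ⟨(x, ν, t), hν⟩
  have h2 := Finset.single_le_sum (f := fun j =>
      ⨆ q : {q : Vec (d + 1) × Vec m × ℝ // q.2.1 ∈ Kc}, Dn M K j G q.1)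
    (s := Finset.range (r + 1)) (fun j _ => Real.iSup_nonneg fun q => norm_nonneg _)
    (Finset.mem_range.2 (Nat.lt_succ_of_le hj))
  have h3 : 0 ≤ ⨆ p : EE (d + 1) m × ℝ, |G p.1 p.2| := Real.iSup_nonneg fun p => abs_nonneg _
  change Dn M K j G (x, ν, t) ≤ (⨆ p : EE (d + 1) m × ℝ, |G p.1 p.2|) +
    ∑ j ∈ Finset.range (r + 1), ⨆ q : {q : Vec (d + 1) × Vec m × ℝ // q.2.1 ∈ Kc}, Dn M K j G q.1
  simp only at h1 h2
  linarith

/-- on `S` the transport back followed by the transport is the identity -/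
lemma core_back (F : Fun (d + 1) m) (G : EE (d + 1) m → ℝ → ℝ) {X : EE (d + 1) m}
    (hX : X ∈ (sp M K).S) (t : ℝ) :
    core M K (F + back M K G) X t = core M K F X t + G X t := by
  have hl := lam_pos M K
  rw [core_S M K _ hX, core_S M K _ hX, Pi.add_apply, mul_add]
  congr 1
  rw [sp_S] at hX
  rw [back_of_mem (show (((lam M K)⁻¹ • X.fst, (lam M K)⁻¹ • X.snd, t) :
    Vec (d + 1) × Vec m × ℝ).2.1 ∈ M.U from M.sub hX)]
  simp only [r_id M hX]
  rw [smul_inv_smul₀ hl.ne', smul_inv_smul₀ hl.ne', mul_inv_cancel_left₀ (by positivity)]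
  rfl

end back

/-- stages are dense in the data classes -/
theorem dense_stage (hd : 0 < d) {k : ℕ∞} (hk : 2 ≤ k) (F : Pot M k) {p β M0 : ℝ}
    (hD : (sp M K).Dat p β M0 (core M K F.toFun)) {q : ℕ} (hq : M0 ≤ q) (r : ℕ) (Kc : Set (Vec m))
    (hKc : IsCompact Kc) (hKU : Kc ⊆ M.U) {ε : ℝ} (hε : 0 < ε) :
    ∃ G : Pot M k, (∀ j ≤ r, ∀ x ν t, ν ∈ Kc → ‖iteratedFDeriv ℝ j G.toFun (x, ν, t)‖ < ε) ∧
      (sp M K).Stage p β q (core M K (F.toFun + G.toFun)) := by
  obtain ⟨G, hG, hGε, hSt⟩ := stage_dense (sp M K) hd (core_isPot M K hk F) hD hq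
    (nrm M K hKc hKU r) hε
  refine ⟨backPot M K hG k, fun j hj x ν t hν => (le_nrm hKc hKU r hG hj x ν t hν).trans_lt hGε, ?_⟩
  exact stage_congr_S (sp M K) (fun X hX t => (core_back F.toFun G hX t).symm) hSt

end T2

end EscN.T
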