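import Pool.Agent.EscN.T2

/-!
Module T2b of project ESCN (MP_6acca1_an): from an escaping orbit of the transferred potential to an
escaping orbit on the manifold.
-/

noncomputable section

namespace EscN.T

open Filter Topology Set Esc
open scoped ContDiff

namespace T2b

/-- abstract form: `E` is (isometric to) `ℝⁿ × ℝᵐ` by `p1`, `p2`, `j` -/
theorem orbit_abs {E : Type*} [NormedAddCommGroup E] [InnerProductSpace ℝ E] {d n m : ℕ} (L : Sp d E)
    (M : FlatBundle n m) (p1 : E →L[ℝ] Vec n) (p2 : E →L[ℝ] Vec m) (j : Vec n × Vec m →L[ℝ] E)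
    (h1 : ∀ q, p1 (j q) = q.1) (h2 : ∀ q, p2 (j q) = q.2) (h3 : ∀ X, j (p1 X, p2 X) = X)
    (hin : ∀ X q, inner ℝ X (j q) = inner ℝ (p1 X) q.1 + inner ℝ (p2 X) q.2)
    (hno : ∀ X, ‖X‖ ^ 2 = ‖p1 X‖ ^ 2 + ‖p2 X‖ ^ 2) {c : ℝ} (hc0 : 0 < c) {f : E → ℝ → ℝ}
    (hf : ∀ t, Differentiable ℝ (fun z => f z t)) {F : Fun n m}
    (hF : ∀ X ∈ L.S, ∀ t, f X t = c ^ 2 * F (c⁻¹ • p1 X, c⁻¹ • p2 X, t))
    (hSN : ∀ X, X ∈ L.S ↔ c⁻¹ • p2 X ∈ M.N) (h : L.Escapes f) : HasEscapingOrbit M F := by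
  obtain ⟨X, V, hS, hX, hV, hEL, hT⟩ := h
  have hci : c ≠ 0 := hc0.ne'
  have hx : ∀ t, 0 < t → HasDerivAt (fun t => c⁻¹ • p1 (X t)) (c⁻¹ • p1 (V t)) t := fun t ht =>
    (p1.hasFDerivAt.comp_hasDerivAt t (hX t ht)).const_smul c⁻¹
  have hν : ∀ t, 0 < t → HasDerivAt (fun t => c⁻¹ • p2 (X t)) (c⁻¹ • p2 (V t)) t := fun t ht =>
    (p2.hasFDerivAt.comp_hasDerivAt t (hX t ht)).const_smul c⁻¹
  have hx2 : ∀ t, 0 < t → HasDerivAt (deriv fun t => c⁻¹ • p1 (X t))
      (c⁻¹ • p1 (deriv V t)) t := by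
    intro t ht
    have h1 : HasDerivAt (fun t => c⁻¹ • p1 (V t)) (c⁻¹ • p1 (deriv V t)) t :=
      (p1.hasFDerivAt.comp_hasDerivAt t (hV t ht).hasDerivAt).const_smul c⁻¹
    refine h1.congr_of_eventuallyEq ?_
    filter_upwards [lt_mem_nhds ht] with s hs
    exact (hx s hs).deriv
  have hν2 : ∀ t, 0 < t → HasDerivAt (deriv fun t => c⁻¹ • p2 (X t))
      (c⁻¹ • p2 (deriv V t)) t := by
    intro t ht
    have h1 : HasDerivAt (fun t => c⁻¹ • p2 (V t)) (c⁻¹ • p2 (deriv V t)) t :=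
      (p2.hasFDerivAt.comp_hasDerivAt t (hV t ht).hasDerivAt).const_smul c⁻¹
    refine h1.congr_of_eventuallyEq ?_
    filter_upwards [lt_mem_nhds ht] with s hs
    exact (hν s hs).deriv
  refine ⟨fun t => c⁻¹ • p1 (X t), fun t => c⁻¹ • p2 (X t), ?_, ?_⟩
  · intro t ht
    refine ⟨(hSN _).1 (hS t ht), (hx t ht).differentiableAt, (hν t ht).differentiableAt,
      (hx2 t ht).differentiableAt, (hν2 t ht).differentiableAt, ?_⟩
    intro A B ξ η hA0 hB0 hBN hA hB
    rw [(hx2 t ht).deriv, (hν2 t ht).deriv]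
    -- the curve in the state space
    set Z : ℝ → E := fun s => j (c • A s, c • B s) with hZ
    set ζ : E := j (c • ξ, c • η) with hζ
    have hZd : HasDerivAt Z ζ 0 :=
      j.hasFDerivAt.comp_hasDerivAt 0 ((hA.const_smul c).prodMk (hB.const_smul c))
    have hZ0 : Z 0 = X t := by
      rw [hZ]
      simp only [hA0, hB0]
      rw [smul_inv_smul₀ hci, smul_inv_smul₀ hci]
      exact h3 (X t)
    have hZS : ∀ s, Z s ∈ L.S := by
      intro s
      rw [hSN, hZ]
      simp only [h2]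
      rw [inv_smul_smul₀ hci]
      exact hBN s
    have hFZ : (fun s => F (A s, B s, t)) = fun s => (c ^ 2)⁻¹ * f (Z s) t := by
      funext s
      rw [hF _ (hZS s) t, hZ]
      simp only [h1, h2]
      rw [inv_smul_smul₀ hci, inv_smul_smul₀ hci, ← mul_assoc, inv_mul_cancel₀ (by positivity),
        one_mul]
    have hcore : HasDerivAt (fun s => f (Z s) t) (fderiv ℝ (fun z => f z t) (X t) ζ) 0 := by
      have h1 : HasFDerivAt (fun z => f z t) (fderiv ℝ (fun z => f z t) (X t)) (Z 0) := by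
        rw [hZ0]; exact (hf t _).hasFDerivAt
      exact h1.comp_hasDerivAt 0 hZd
    have htan : L.Tan (X t) ζ := by
      have hr : Differentiable ℝ L.rt := L.ret.smooth.differentiable (by simp)
      have h1 : HasFDerivAt L.rt (fderiv ℝ L.rt (X t)) (Z 0) := by
        rw [hZ0]; exact (hr _).hasFDerivAt
      have h2 : HasDerivAt (fun s => L.rt (Z s)) (fderiv ℝ L.rt (X t) ζ) 0 :=
        h1.comp_hasDerivAt 0 hZd
      have h3 : (fun s => L.rt (Z s)) = Z := by
        funext s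
        exact L.ret.id _ (hZS s)
      rw [h3] at h2
      exact h2.unique hZd
    rw [hFZ]
    have h4 := hcore.const_mul ((c ^ 2)⁻¹)
    rw [← hEL t ht ζ htan] at h4
    have h5 : inner ℝ (c⁻¹ • p1 (deriv V t)) ξ + inner ℝ (c⁻¹ • p2 (deriv V t)) η =
        (c ^ 2)⁻¹ * inner ℝ (deriv V t) ζ := by
      rw [hζ, hin, real_inner_smul_left, real_inner_smul_left, real_inner_smul_right,
        real_inner_smul_right]
      field_simp
    rw [h5]
    exact h4
  · have h1 : Tendsto (fun t => (c ^ 2)⁻¹ * ‖V t‖ ^ 2) atTop atTop :=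
      ((tendsto_pow_atTop (by norm_num)).comp hT).const_mul_atTop (by positivity)
    refine h1.congr' ?_
    filter_upwards [eventually_gt_atTop 0] with t ht
    rw [(hx t ht).deriv, (hν t ht).deriv, hno, norm_smul, norm_smul, mul_pow, mul_pow,
      norm_inv, Real.norm_of_nonneg hc0.le, inv_pow]
    ring

variable {n m : ℕ}

/-- first component as a continuous linear map -/
def fstL (n m : ℕ) : EE n m →L[ℝ] Vec n :=
  (ContinuousLinearMap.fst ℝ (Vec n) (Vec m)).comp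
    (WithLp.prodContinuousLinearEquiv 2 ℝ (Vec n) (Vec m) : EE n m →L[ℝ] Vec n × Vec m)

/-- second component as a continuous linear map -/
def sndL (n m : ℕ) : EE n m →L[ℝ] Vec m :=
  (ContinuousLinearMap.snd ℝ (Vec n) (Vec m)).comp
    (WithLp.prodContinuousLinearEquiv 2 ℝ (Vec n) (Vec m) : EE n m →L[ℝ] Vec n × Vec m)

/-- pairing as a continuous linear map -/
def mkL (n m : ℕ) : Vec n × Vec m →L[ℝ] EE n m :=
  ((WithLp.prodContinuousLinearEquiv 2 ℝ (Vec n) (Vec m)).symm : Vec n × Vec m →L[ℝ] EE n m)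

lemma inner_mk (X : EE n m) (q : Vec n × Vec m) :
    inner ℝ X (mkL n m q) = inner ℝ (fstL n m X) q.1 + inner ℝ (sndL n m X) q.2 := by
  rw [WithLp.prod_inner_apply]; rfl

lemma norm_sq_eq (X : EE n m) : ‖X‖ ^ 2 = ‖fstL n m X‖ ^ 2 + ‖sndL n m X‖ ^ 2 :=
  WithLp.prod_norm_sq_eq_of_L2 X

lemma core_diff {d m : ℕ} (M : FlatBundle (d + 1) m) (K : ℕ) {k : ℕ∞} (hk : 2 ≤ k) (F : Pot M k)
    (t : ℝ) : Differentiable ℝ (fun z => core M K F.toFun z t) := by
  have h1 : ContDiff ℝ 2 (fun z : EE (d + 1) m => core M K F.toFun z t) :=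
    (core_isPot M K hk F).smooth.comp (contDiff_id.prodMk contDiff_const)
  exact h1.differentiable (by norm_num)

end T2b

open T2b in
/-- escaping orbits -/
theorem orbit_core {d m : ℕ} (M : FlatBundle (d + 1) m) (K : ℕ) (hd : 0 < d) {k : ℕ∞} (hk : 2 ≤ k)
    (F : Pot M k) (h : (sp M K).Escapes (core M K F.toFun)) : HasEscapingOrbit M F.toFun :=
  orbit_abs (sp M K) M (fstL (d + 1) m) (sndL (d + 1) m) (mkL (d + 1) m) (fun _ => rfl)
    (fun _ => rfl) (fun _ => rfl) inner_mk norm_sq_eq (lam_pos M K) (core_diff M K hk F)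
    (fun _ hX t => core_S M K F.toFun hX t) (fun X => sp_S M K X) h

end EscN.T
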