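import Pool.Agent.EscN.Jet
import Pool.Agent.EscN.T3a

/-!
Project ESCN, T3: the means along the tilted lattice vectors do not see the difference between a jet
and its mean along the first lattice vector.
-/

noncomputable section

namespace EscN.T

open Filter Topology Set
open scoped ContDiff

lemma small_mean_one {d m : ℕ} {M : FlatBundle (d + 1) m} {C : Set (Vec m)} {k : ℕ∞} (F : Pot M k)
    {j : ℕ} (hj : (j : ℕ∞) ≤ k) (hC : IsCompact C) (hCU : C ⊆ M.U) (hCi : InvC M C) (i : Fin d)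
    {ε : ℝ} (hε : 0 < ε) : ∃ B1 : ℕ, ∀ B' : ℕ, B1 ≤ B' → 0 < B' → ∀ q B : ℕ, 0 < q → 0 < B →
      ∀ x ν t, ν ∈ C →
      ‖EscN.mn (B' ^ 2 * q) 1 (-(M.τ i.succ - (B' ^ 2 : ℝ) • M.τ 0))
        (fun z => iteratedFDeriv ℝ j F.toFun (z, ν, t) -
          EscN.mn q B (M.τ 0) (fun z => iteratedFDeriv ℝ j F.toFun (z, ν, t)) z) x‖ ≤ ε := by
  obtain ⟨ρ, hρ, huc⟩ := jet_uc F hj hC hCU hCi (show 0 < ε / 3 by positivity)
  obtain ⟨Bd, -, hBd⟩ := jet_bdd F hj hC hCU hCi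
  obtain ⟨φ, hφ⟩ : ∃ φ : Vec (d + 1) × C × ℝ → ℝ →
      ContinuousMultilinearMap ℝ (fun _ : Fin j => Vec (d + 1) × Vec m × ℝ) ℝ,
      φ = fun p θ => iteratedFDeriv ℝ j F.toFun (p.1 + θ • M.τ 0, p.2.1, p.2.2) := ⟨_, rfl⟩
  have hap : AP φ := by rw [hφ]; exact jet_ap F hj hC hCU hCi (deck_gen hCi 0)
  have hb : ∀ p θ, ‖φ p θ‖ ≤ Bd := by
    intro p θ
    rw [hφ]
    exact hBd _ _ _ p.2.1.2
  obtain ⟨B0, -, hmesh⟩ := mesh_mean hb hap (show 0 < ε / 3 by positivity)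
  obtain ⟨B2, hB2⟩ := exists_nat_ge (‖M.τ i.succ‖ / ρ)
  refine ⟨max B0 B2, fun B' hB' hpos q B hq hB x ν t hν => ?_⟩
  have hBR : (0 : ℝ) < B' := by exact_mod_cast hpos
  have hv : ‖M.τ i.succ‖ / B' ≤ ρ := by
    have h1 : (B2 : ℝ) ≤ B' := by exact_mod_cast (le_max_right B0 B2).trans hB'
    have h2 := hB2.trans h1
    rw [div_le_iff₀ hρ] at h2
    rw [div_le_iff₀ hBR]
    linarith
  have hs3 : ε / 3 + 2 * (ε / 3) = ε := by ring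
  rw [← hs3]
  refine EscN.block_mean hq hB hpos ?_ ?_ x
  · intro y s hs hs'
    refine huc _ _ _ _ _ _ hν hν ?_ (by simp [hρ.le]) (by simp [hρ.le])
    rw [dist_eq_norm, sub_sub_cancel_left, norm_neg, norm_smul, Real.norm_eq_abs, abs_of_nonneg hs]
    refine le_trans (mul_le_mul_of_nonneg_right hs' (norm_nonneg _)) ?_
    rw [one_div, inv_mul_eq_div]
    exact hv
  · intro y l
    have h1 := hmesh B' ((le_max_left B0 B2).trans hB') q hq (y, ⟨ν, hν⟩, t) 0 (l : ℤ)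
    have h2 : ∀ θ : ℝ, dmean q B' (φ (y, ⟨ν, hν⟩, t)) θ =
        mn q B' (M.τ 0) (fun z => iteratedFDeriv ℝ j F.toFun (z, ν, t)) (y + θ • M.τ 0) := by
      intro θ
      rw [← dmean_eq_mn, hφ]
    rw [h2, h2, zero_smul, add_zero, zero_add, Int.cast_natCast] at h1
    exact h1

theorem small_mean {d m : ℕ} {M : FlatBundle (d + 1) m} {C : Set (Vec m)} {k : ℕ∞} (F : Pot M k)
    (r : ℕ) (hr : (r : ℕ∞) ≤ k) (hC : IsCompact C) (hCU : C ⊆ M.U) (hCi : InvC M C) (i : Fin d)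
    {ε : ℝ} (hε : 0 < ε) : ∃ B' : ℕ, 0 < B' ∧ ∀ q B : ℕ, 0 < q → 0 < B → ∀ j ≤ r, ∀ x ν t, ν ∈ C →
      ‖EscN.mn (B' ^ 2 * q) 1 (-(M.τ i.succ - (B' ^ 2 : ℝ) • M.τ 0))
        (fun z => iteratedFDeriv ℝ j F.toFun (z, ν, t) -
          EscN.mn q B (M.τ 0) (fun z => iteratedFDeriv ℝ j F.toFun (z, ν, t)) z) x‖ ≤ ε := by
  have h1 : ∀ j : ℕ, ∃ B1 : ℕ, j ≤ r → ∀ B' : ℕ, B1 ≤ B' → 0 < B' → ∀ q B : ℕ, 0 < q → 0 < B →
      ∀ x ν t, ν ∈ C →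
      ‖EscN.mn (B' ^ 2 * q) 1 (-(M.τ i.succ - (B' ^ 2 : ℝ) • M.τ 0))
        (fun z => iteratedFDeriv ℝ j F.toFun (z, ν, t) -
          EscN.mn q B (M.τ 0) (fun z => iteratedFDeriv ℝ j F.toFun (z, ν, t)) z) x‖ ≤ ε := by
    intro j
    by_cases hj : j ≤ r
    · obtain ⟨B1, hB1⟩ := small_mean_one F (j := j) (le_trans (by exact_mod_cast hj) hr) hC hCU hCi i hε
      exact ⟨B1, fun _ => hB1⟩
    · exact ⟨0, fun h => absurd h hj⟩
  choose B1 hB1 using h1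
  refine ⟨(Finset.range (r + 1)).sup B1 + 1, Nat.succ_pos _, fun q B hq hB j hj x ν t hν => ?_⟩
  have h2 : B1 j ≤ (Finset.range (r + 1)).sup B1 + 1 :=
    (Finset.le_sup (f := B1) (Finset.mem_range.2 (Nat.lt_succ_of_le hj))).trans (Nat.le_succ _)
  exact hB1 j hj _ h2 (Nat.succ_pos _) q B hq hB x ν t hν

end EscN.T
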