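import Pool.Agent.EscN.T3b
import Pool.Agent.EscN.T3s
import Pool.Agent.EscN.Jet
import Pool.Agent.EscN.T3a
import Pool.Agent.EscN.PotAlg
import Pool.Agent.EscN.T2

/-!
Density of the data classes (project ESCN, T3).
-/

noncomputable section

namespace EscN.T

open Filter Topology Set Esc
open scoped ContDiff

variable {d m : ℕ} (M : FlatBundle (d + 1) m)

lemma mn_lift {n m : ℕ} (lam : ℝ) (hlam : lam ≠ 0) (Φ : Vec n → Vec m → ℝ) (Q B : ℕ) (w : Vec n) (X : EE n m) :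
    EscN.mn Q B (mk (lam • w) 0) (fun Z : EE n m => Φ (lam⁻¹ • Z.fst) (lam⁻¹ • Z.snd)) X =
      EscN.mn Q B w (fun z => Φ z (lam⁻¹ • X.snd)) (lam⁻¹ • X.fst) := by
  unfold EscN.mn
  congr 1
  refine Finset.sum_congr rfl fun l _ => ?_
  have e1 : (X + ((l : ℝ) / Q) • mk (lam • w) 0).fst = X.fst + ((l : ℝ) / Q) • (lam • w) := rfl
  have e2 : (X + ((l : ℝ) / Q) • mk (lam • w) 0).snd = X.snd := by
    have : (X + ((l : ℝ) / Q) • mk (lam • w) 0).snd = X.snd + ((l : ℝ) / Q) • (0 : Vec m) := rfl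
    rw [this, smul_zero, add_zero]
  simp only
  rw [e1, e2, smul_add, smul_comm ((l : ℝ) / Q) lam w, inv_smul_smul₀ hlam]

theorem dense_dat (hd : 0 < d) {k : ℕ∞} (hk : 2 ≤ k) (F : Pot M k) (r : ℕ) (hr : (r : ℕ∞) ≤ k)
    (Kc : Set (Vec m)) (hKc : IsCompact Kc) (hKU : Kc ⊆ M.U) {ε : ℝ} (hε : 0 < ε) :
    ∃ G : Pot M k, (∀ j ≤ r, ∀ x ν t, ν ∈ Kc → ‖iteratedFDeriv ℝ j G.toFun (x, ν, t)‖ < ε) ∧
      ∃ (K : ℕ) (p β : ℚ) (M0 : ℕ), (sp M K).Dat p β M0 (core M K (F.toFun + G.toFun)) := by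
  obtain ⟨C, hC, hCU, hKC, hCi⟩ := exists_invC M hKc hKU
  set i0 : Fin d := ⟨0, hd⟩ with hi0
  obtain ⟨B', hB', hsm⟩ := small_mean F r hr hC hCU hCi i0 (show 0 < ε / 4 by positivity)
  obtain ⟨K, hK⟩ : ∃ K : ℕ, K = B' ^ 2 := ⟨_, rfl⟩
  have hKR : ((K : ℕ) : ℝ) = (B' : ℝ) ^ 2 := by rw [hK]; push_cast; rfl
  have hK0 : 0 < K := by rw [hK]; positivity
  have hlam := lam_pos M K
  -- the well
  have hy0 : yK M K (M.τ 0) = 1 := (exists_yK M K).choose_spec.1
  have hyi : ∀ i : Fin d, yK M K (M.τ i.succ) = K := (exists_yK M K).choose_spec.2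
  have hy : ∀ i, ∃ z : ℤ, yK M K (M.τ i) = z := by
    intro i
    refine Fin.cases ⟨1, by rw [hy0]; simp⟩ (fun i => ⟨K, by rw [hyi]; simp⟩) i
  set W : Pot M k := Pot.well (yK M K) hy with hW
  have hjk : ∀ j ≤ r, (j : ℕ∞) ≤ k := fun j hj => le_trans (by exact_mod_cast hj) hr
  obtain ⟨Bw, hBw0, hBw⟩ : ∃ Bw : ℝ, 0 ≤ Bw ∧ ∀ j ≤ r, ∀ x ν t, ν ∈ C →
      ‖iteratedFDeriv ℝ j W.toFun (x, ν, t)‖ ≤ Bw := by
    have h1 : ∀ j : Fin (r + 1), ∃ B : ℝ, 0 ≤ B ∧ ∀ x ν t, ν ∈ C → ‖iteratedFDeriv ℝ j W.toFun (x, ν, t)‖ ≤ B :=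
      fun j => jet_bdd W (hjk j (Nat.lt_succ_iff.1 j.2)) hC hCU hCi
    choose B hB0 hB using h1
    refine ⟨∑ j, B j, Finset.sum_nonneg fun j _ => hB0 j, fun j hj x ν t hν => ?_⟩
    refine (hB ⟨j, Nat.lt_succ_of_le hj⟩ x ν t hν).trans ?_
    exact Finset.single_le_sum (f := B) (fun j _ => hB0 j) (Finset.mem_univ _)
  -- the amplitude
  obtain ⟨e, he0, he1⟩ := exists_rat_btwn (show (0:ℝ) < min (1 / 10000) (lam M K ^ 2 * (ε / (4 * (Bw + 1)))) by
    positivity)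
  have he2 : (e : ℝ) ≤ 1 / 10000 := he1.le.trans (min_le_left _ _)
  have he3 : (e : ℝ) ≤ lam M K ^ 2 * (ε / (4 * (Bw + 1))) := he1.le.trans (min_le_right _ _)
  obtain ⟨amp, hamp⟩ : ∃ amp : ℝ, amp = e / lam M K ^ 2 := ⟨_, rfl⟩
  have hamp0 : 0 < amp := by rw [hamp]; positivity
  have hampe : lam M K ^ 2 * amp = e := by rw [hamp]; field_simp
  have hampB : amp * Bw ≤ ε / 4 := by
    have h1 : amp ≤ ε / (4 * (Bw + 1)) := by
      rw [hamp, div_le_iff₀ (by positivity)]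
      linarith
    calc amp * Bw ≤ ε / (4 * (Bw + 1)) * (Bw + 1) := mul_le_mul h1 (by linarith) hBw0 (by positivity)
      _ = ε / 4 := by field_simp
  -- the mean along `τ 0`
  obtain ⟨η, hη, hη'⟩ : ∃ η : ℝ, 0 < η ∧ (d + 2) * η < ((e : ℝ) / 50) ^ 2 / 200 := by
    refine ⟨((e : ℝ) / 50) ^ 2 / 200 / (d + 3), by positivity, ?_⟩
    rw [mul_div_assoc', div_lt_iff₀ (by positivity), mul_comm]
    exact mul_lt_mul_of_pos_left (by linarith) (by positivity)
  have hPF := core_isPot M K hk F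
  obtain ⟨q, B, hq, hB, hni⟩ := ninv_of_ap (sp M K) hPF (ap_g (sp M K) hPF) hη
  -- the perturbation
  set v : Vec (d + 1) := -(M.τ i0.succ - (K : ℝ) • M.τ 0) with hv
  set D : Pot M k := Pot.lin (-1) F (Pot.mn q B (M.τ 0) F) with hD
  set G : Pot M k := Pot.lin (-1) (Pot.smul amp W) (Pot.mn (K * q) 1 v D) with hG
  refine ⟨G, fun j hj x ν t hν => ?_, K, 0, e / 50, ?_⟩
  · have hνC := hKC hν
    have hνU := hCU hνC
    have hj' := hjk j hj
    rw [hG, Pot.lin_iter _ _ _ hj' hνU, Pot.smul_iter _ _ hj' hνU, Pot.mn_iter _ _ _ _ hj' _ hνU]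
    have e1 : (fun z => iteratedFDeriv ℝ j D.toFun (z, ν, t)) = fun z =>
        iteratedFDeriv ℝ j F.toFun (z, ν, t) -
          EscN.mn q B (M.τ 0) (fun z => iteratedFDeriv ℝ j F.toFun (z, ν, t)) z := by
      funext z
      rw [hD, Pot.lin_iter _ _ _ hj' hνU, Pot.mn_iter _ _ _ _ hj' _ hνU, neg_one_smul, sub_eq_add_neg]
    rw [e1]
    have h1 := hsm q B hq hB j hj x ν t hνC
    rw [← hKR, ← hK] at h1
    have h2 := hBw j hj x ν t hνC
    refine (norm_add_le _ _).trans_lt ?_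
    rw [norm_smul, norm_smul, norm_neg, norm_one, one_mul, Real.norm_eq_abs, abs_of_pos hamp0]
    have h3 : amp * ‖iteratedFDeriv ℝ j W.toFun (x, ν, t)‖ ≤ ε / 4 :=
      (mul_le_mul_of_nonneg_left h2 hamp0.le).trans hampB
    linarith
  · have hPG := core_isPot M K hk (Pot.add F G)
    have hlam0 : lam M K ≠ 0 := hlam.ne'
    have hgv : (sp M K).g = mk (lam M K • M.τ 0) 0 := sp_g M K
    have hbv : -(sp M K).b i0 = mk (lam M K • v) 0 := by
      rw [sp_b, hv]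
      have : ∀ (x : Vec (d + 1)), -(mk x (0 : Vec m)) = mk (-x) 0 := by
        intro x
        change WithLp.toLp 2 (-x, -(0 : Vec m)) = WithLp.toLp 2 (-x, 0)
        rw [neg_zero]
      rw [this, smul_neg]
    have hform : ∀ X ∈ (sp M K).S, ∀ t, core M K (F.toFun + G.toFun) X t = core M K F.toFun X t -
        EscN.mn (K * q) 1 (-(sp M K).b i0) (fun Z => core M K F.toFun Z t -
          EscN.mn q B (sp M K).g (fun Z => core M K F.toFun Z t) Z) X +
        e * (1 - Real.cos (2 * Real.pi * ((sp M K).y X - 0))) := by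
      intro X hX t
      have hνN : (lam M K)⁻¹ • X.snd ∈ M.N := (sp_S M K X).1 hX
      have hνU : (lam M K)⁻¹ • X.snd ∈ M.U := M.sub hνN
      rw [core_S M K _ hX, core_S M K _ hX, hbv, hgv, sp_y]
      -- the means on `E`
      have e1 : ∀ Z : EE (d + 1) m, EscN.mn q B (mk (lam M K • M.τ 0) 0) (fun Z => core M K F.toFun Z t) Z =
          EscN.mn q B (M.τ 0) (fun z => lam M K ^ 2 * (chi M ((lam M K)⁻¹ • Z.snd) *
            F.toFun (z, (lam M K)⁻¹ • Z.snd, t))) ((lam M K)⁻¹ • Z.fst) := fun Z =>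
        mn_lift (lam M K) hlam0 (fun z ν => lam M K ^ 2 * (chi M ν * F.toFun (z, ν, t))) q B (M.τ 0) Z
      have e2 := mn_lift (lam M K) hlam0 (fun z ν => lam M K ^ 2 * (chi M ν * F.toFun (z, ν, t)) -
        EscN.mn q B (M.τ 0) (fun z => lam M K ^ 2 * (chi M ν * F.toFun (z, ν, t))) z) (K * q) 1 v X
      have e3 : (fun Z : EE (d + 1) m => core M K F.toFun Z t -
          EscN.mn q B (mk (lam M K • M.τ 0) 0) (fun Z => core M K F.toFun Z t) Z) = fun Z : EE (d + 1) m =>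
          lam M K ^ 2 * (chi M ((lam M K)⁻¹ • Z.snd) * F.toFun ((lam M K)⁻¹ • Z.fst, (lam M K)⁻¹ • Z.snd, t)) -
        EscN.mn q B (M.τ 0) (fun z => lam M K ^ 2 * (chi M ((lam M K)⁻¹ • Z.snd) *
          F.toFun (z, (lam M K)⁻¹ • Z.snd, t))) ((lam M K)⁻¹ • Z.fst) := by
        funext Z
        rw [e1 Z]
        rfl
      rw [e3, e2]
      have hchi : chi M ((lam M K)⁻¹ • X.snd) = 1 := by
        have h1 := (exists_chi M).choose_spec.2.2.2.2.1
        exact (h1.filter_mono (nhds_le_nhdsSet hνN)).self_of_nhds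
      rw [hchi]
      simp only [one_mul]
      set x := (lam M K)⁻¹ • X.fst with hx
      set ν := (lam M K)⁻¹ • X.snd with hν
      -- linearity
      have e4 : ∀ (Q B : ℕ) (w : Vec (d + 1)) (c : ℝ) (g : Vec (d + 1) → ℝ) (z : Vec (d + 1)),
          EscN.mn Q B w (fun z => c * g z) z = c * EscN.mn Q B w g z := by
        intro Q B w c g z
        unfold EscN.mn
        rw [← Finset.mul_sum, smul_eq_mul, smul_eq_mul]
        ring
      have e5 : (fun z => lam M K ^ 2 * F.toFun (z, ν, t) -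
          EscN.mn q B (M.τ 0) (fun z => lam M K ^ 2 * F.toFun (z, ν, t)) z) =
          fun z => lam M K ^ 2 * (F.toFun (z, ν, t) - EscN.mn q B (M.τ 0) (fun z => F.toFun (z, ν, t)) z) := by
        funext z
        rw [e4, mul_sub]
      rw [e5, e4]
      have e6 : G.toFun (x, ν, t) = amp * (1 - Real.cos (2 * Real.pi * yK M K x)) -
          EscN.mn (K * q) 1 v (fun z => F.toFun (z, ν, t) - EscN.mn q B (M.τ 0) (fun z => F.toFun (z, ν, t)) z) x := by
        have a1 : W.toFun (x, ν, t) = 1 - Real.cos (2 * Real.pi * yK M K x) := by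
          rw [hW]
          exact if_pos hνU
        have a2 : (fun z => D.toFun (z, ν, t)) =
            fun z => F.toFun (z, ν, t) - EscN.mn q B (M.τ 0) (fun z => F.toFun (z, ν, t)) z := by
          funext z
          change F.toFun (z, ν, t) + (-1) * EscN.mn q B (M.τ 0) (fun z => F.toFun (z, ν, t)) z = _
          ring
        change amp * W.toFun (x, ν, t) + (-1) * EscN.mn (K * q) 1 v (fun z => D.toFun (z, ν, t)) x = _
        rw [a1, a2]
        ring
      rw [Pi.add_apply, e6, ← hampe, sub_zero]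
      ring
    obtain ⟨M0, hM0⟩ := dat_of_form (sp M K) hd (P := core M K (F.toFun + G.toFun)) (h := core M K F.toFun)
      hPG hPF i0 (N1 := K * q) (Nat.mul_pos hK0 hq) hq hB 0 he0 he2 hη hη' hform
      (fun t s => hni q le_rfl B le_rfl t s)
    refine ⟨M0, ?_⟩
    push_cast
    exact hM0

end EscN.T
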