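import Pool.Agent.EscN.TDefs

/-!
The `C^k` topology on potentials of a flat bundle.
-/

noncomputable section

set_option linter.unusedSectionVars false

namespace EscN.T

open Filter Topology Set Uniformity
open scoped ContDiff UniformConvergence

variable {n m : ℕ} {M : FlatBundle n m} {k : ℕ∞}

/-- the open set on which potentials are differentiable -/
def Om (M : FlatBundle n m) : Set (Vec n × Vec m × ℝ) := {q | q.2.1 ∈ M.U}

lemma isOpen_Om (M : FlatBundle n m) : IsOpen (Om M) :=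
  M.isOpen.preimage (continuous_fst.comp continuous_snd)

lemma mem_Om {M : FlatBundle n m} {q : Vec n × Vec m × ℝ} : q ∈ Om M ↔ q.2.1 ∈ M.U := Iff.rfl

lemma mem_slabs {M : FlatBundle n m} {K : Set (Vec m)} (hc : IsCompact K) (hK : K ⊆ M.U) :
    {q : Dom M | q.1.2.1 ∈ K} ∈ slabs M := ⟨K, hc, hK, rfl⟩

lemma slabs_nonempty (M : FlatBundle n m) : (slabs M).Nonempty :=
  ⟨_, mem_slabs M.compact M.sub⟩

lemma slabs_directed (M : FlatBundle n m) : DirectedOn (· ⊆ ·) (slabs M) := by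
  rintro _ ⟨K, hc, hK, rfl⟩ _ ⟨K', hc', hK', rfl⟩
  exact ⟨_, mem_slabs (hc.union hc') (union_subset hK hK'), fun _ h => Or.inl h, fun _ h => Or.inr h⟩

/-- compact exhaustion of `U` -/
lemma exists_exhaustion (M : FlatBundle n m) : ∃ t : ℕ → Set (Vec m), Monotone t ∧
    (∀ i, IsCompact (t i) ∧ t i ⊆ M.U) ∧ ∀ K : Set (Vec m), IsCompact K → K ⊆ M.U → ∃ i, K ⊆ t i := by
  have : LocallyCompactSpace M.U := M.isOpen.locallyCompactSpace
  set K0 : CompactExhaustion M.U := CompactExhaustion.choice M.U with hK0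
  refine ⟨fun i => (fun x : M.U => (x : Vec m)) '' (K0 i), ?_, fun i => ⟨?_, ?_⟩, fun K hc hK => ?_⟩
  · intro i j hij
    exact image_mono (K0.subset hij)
  · exact (K0.isCompact i).image continuous_subtype_val
  · rintro _ ⟨x, _, rfl⟩
    exact x.2
  · have h1 : IsCompact ((fun x : M.U => (x : Vec m)) ⁻¹' K) := by
      rw [IsInducing.subtypeVal.isCompact_preimage_iff]
      · exact hc
      · rw [Subtype.range_coe]; exact hK
    obtain ⟨i, hi⟩ := K0.exists_superset_of_isCompact h1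
    refine ⟨i, fun x hx => ⟨⟨x, hK hx⟩, hi hx, rfl⟩⟩

/-- Neighbourhoods in the `C^k` topology. -/
theorem nhds_small (F : Pot M k) {O : Set (Pot M k)} (hO : O ∈ 𝓝 F) :
    ∃ (r : ℕ) (K : Set (Vec m)) (ε : ℝ), IsCompact K ∧ K ⊆ M.U ∧ 0 < ε ∧ ∀ F' : Pot M k,
      (∀ j ≤ r, (j : ℕ∞) ≤ k → ∀ x ν t, ν ∈ K →
        ‖iteratedFDeriv ℝ j F'.toFun (x, ν, t) - iteratedFDeriv ℝ j F.toFun (x, ν, t)‖ < ε) → F' ∈ O := by
  rw [nhds_induced, mem_comap] at hO
  obtain ⟨t, ht, htO⟩ := hO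
  rw [nhds_pi, Filter.mem_pi] at ht
  obtain ⟨I, hI, s, hs, hst⟩ := ht
  have hε : ∀ j : {j : ℕ // (j : ℕ∞) ≤ k}, ∃ K : Set (Vec m), IsCompact K ∧ K ⊆ M.U ∧ ∃ ε > 0, ∀ F' : Pot M k,
      (∀ x ν t, ν ∈ K → ‖iteratedFDeriv ℝ j.1 F'.toFun (x, ν, t) -
        iteratedFDeriv ℝ j.1 F.toFun (x, ν, t)‖ < ε) → jet F' j ∈ s j := by
    intro j
    have hb := UniformOnFun.hasBasis_nhds_of_basis (Dom M)
      (ContinuousMultilinearMap ℝ (fun _ : Fin j.1 => Vec n × Vec m × ℝ) ℝ) (slabs M) (jet F j)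
      (slabs_nonempty M) (slabs_directed M) Metric.uniformity_basis_dist
    obtain ⟨⟨S, ε⟩, ⟨⟨K, hc, hK, rfl⟩, hε⟩, h⟩ := hb.mem_iff.1 (hs j)
    refine ⟨K, hc, hK, ε, hε, fun F' hF' => h ?_⟩
    rintro ⟨⟨x, ν, t⟩, hU⟩ hq
    have := hF' x ν t hq
    rw [← dist_eq_norm] at this
    exact this
  choose K hKc hKU ε hεp hεs using hε
  obtain ⟨r, hr⟩ : ∃ r : ℕ, ∀ j ∈ I, j.1 ≤ r := by
    obtain ⟨r, hr⟩ := (hI.image (fun j : {j : ℕ // (j : ℕ∞) ≤ k} => j.1)).bddAbove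
    exact ⟨r, fun j hj => hr ⟨j, hj, rfl⟩⟩
  obtain ⟨e, he, hle⟩ : ∃ e > 0, ∀ j ∈ I, e ≤ ε j := by
    rcases I.eq_empty_or_nonempty with rfl | hne
    · exact ⟨1, one_pos, by simp⟩
    · obtain ⟨j0, hj0, hmin⟩ := hI.exists_minimalFor ε I hne
      exact ⟨ε j0, hεp j0, fun j hj => by
        by_contra hlt
        push Not at hlt
        exact absurd (hmin hj hlt.le) (not_le.2 hlt)⟩
  refine ⟨r, ⋃ j ∈ I, K j, e, hI.isCompact_biUnion fun j _ => hKc j, iUnion₂_subset fun j _ => hKU j, he,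
    fun F' hF' => htO (hst fun j hj => hεs j F' fun x ν t hν => ?_)⟩
  exact (hF' j.1 (hr j hj) j.2 x ν t (mem_biUnion hj hν)).trans_le (hle j hj)

/-- `C^0` balls over `N` are neighbourhoods. -/
theorem mem_nhds_zero (F : Pot M k) {ρ : ℝ} (hρ : 0 < ρ) :
    {F' : Pot M k | ∀ x t, ∀ ν ∈ M.N, |F.toFun (x, ν, t) - F'.toFun (x, ν, t)| ≤ ρ} ∈ 𝓝 F := by
  have hc : Continuous (jet : Pot M k → _) := continuous_induced_dom
  have h0 : Continuous fun f : Pot M k => jet f ⟨0, by simp⟩ := (continuous_pi_iff.1 hc) _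
  have hb := UniformOnFun.gen_mem_nhds (ContinuousMultilinearMap ℝ (fun _ : Fin 0 => Vec n × Vec m × ℝ) ℝ)
    (slabs M) (jet F ⟨0, by simp⟩) (mem_slabs M.compact M.sub) (Metric.dist_mem_uniformity hρ)
  have h1 := h0.continuousAt.preimage_mem_nhds hb
  refine mem_of_superset h1 fun F' hF' x t ν hν => ?_
  have h2 := hF' ⟨(x, ν, t), M.sub hν⟩ hν
  have h3 : dist (iteratedFDeriv ℝ 0 F.toFun (x, ν, t)) (iteratedFDeriv ℝ 0 F'.toFun (x, ν, t)) =
      |F.toFun (x, ν, t) - F'.toFun (x, ν, t)| := by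
    rw [dist_eq_norm, iteratedFDeriv_zero_eq_comp, iteratedFDeriv_zero_eq_comp]
    simp only [Function.comp]
    rw [← map_sub, LinearIsometryEquiv.norm_map, Real.norm_eq_abs]
  rw [← h3]
  exact le_of_lt h2

/-- The space `C^k(M × 𝕋)` is complete for the uniform structure defined by the jets. -/
theorem pot_complete (M : FlatBundle n m) (k : ℕ∞) (l : Filter (Pot M k)) [hne : l.NeBot]
    (Ψ : ∀ j : {j : ℕ // (j : ℕ∞) ≤ k},
      Dom M →ᵤ[slabs M] ContinuousMultilinearMap ℝ (fun _ : Fin j.1 => Vec n × Vec m × ℝ) ℝ)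
    (htend : Tendsto (jet : Pot M k → _) l (𝓝 Ψ)) : ∃ F : Pot M k, l ≤ 𝓝 F := by
  classical
  have hunif : ∀ j (hj : ((j : ℕ) : ℕ∞) ≤ k), ∀ S ∈ slabs M, TendstoUniformlyOn
      (fun (f : Pot M k) (q : Dom M) => iteratedFDeriv ℝ j f.toFun q)
      (UniformOnFun.toFun (slabs M) (Ψ ⟨j, hj⟩)) l S := by
    intro j hj
    exact UniformOnFun.tendsto_iff_tendstoUniformlyOn.1 ((tendsto_pi_nhds.1 htend) ⟨j, hj⟩)
  set p : Vec n × Vec m × ℝ → FormalMultilinearSeries ℝ (Vec n × Vec m × ℝ) ℝ := fun q j =>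
    if hj : q.2.1 ∈ M.U ∧ ((j : ℕ) : ℕ∞) ≤ k then UniformOnFun.toFun (slabs M) (Ψ ⟨j, hj.2⟩) ⟨q, hj.1⟩ else 0
    with hp
  have hpj : ∀ j (hj : ((j : ℕ) : ℕ∞) ≤ k) (q : Dom M), p q j = UniformOnFun.toFun (slabs M) (Ψ ⟨j, hj⟩) q :=
    fun j hj q => by simp only [hp, dif_pos (⟨q.2, hj⟩ : (q : Vec n × Vec m × ℝ).2.1 ∈ M.U ∧ _)]
  have hloc : ∀ j (_ : ((j : ℕ) : ℕ∞) ≤ k), TendstoLocallyUniformlyOn
      (fun (f : Pot M k) q => iteratedFDeriv ℝ j f.toFun q) (fun q => p q j) l (Om M) := by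
    intro j hj u hu q hq
    obtain ⟨K, hK, hKU⟩ : ∃ K ∈ 𝓝 q.2.1, IsCompact K ∧ K ⊆ M.U := by
      obtain ⟨K, h1, h2, h3⟩ := exists_compact_subset M.isOpen (mem_Om.1 hq)
      exact ⟨K, mem_interior_iff_mem_nhds.1 h2, h1, h3⟩
    refine ⟨(fun q' : Vec n × Vec m × ℝ => q'.2.1) ⁻¹' K, ?_, ?_⟩
    · apply mem_nhdsWithin_of_mem_nhds
      exact (continuous_fst.comp continuous_snd).continuousAt.preimage_mem_nhds hK
    · filter_upwards [hunif j hj _ (mem_slabs hKU.1 hKU.2) u hu] with f hf y hy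
      have h1 := hf ⟨y, hKU.2 hy⟩ hy
      rw [← hpj j hj] at h1
      exact h1
  have hpt : ∀ j (_ : ((j : ℕ) : ℕ∞) ≤ k), ∀ q ∈ Om M,
      Tendsto (fun f : Pot M k => iteratedFDeriv ℝ j f.toFun q) l (𝓝 (p q j)) :=
    fun j hj q hq => (hloc j hj).tendsto_at hq
  have hcast : ∀ {m : ℕ}, ((m : WithTop ℕ∞) ≤ (k : WithTop ℕ∞)) → ((m : ℕ∞) ≤ k) :=
    fun h => WithTop.coe_le_coe.1 h
  have hfd : ∀ (f : Pot M k) (j : ℕ), (j : ℕ∞) ≤ k → ContDiffOn ℝ j f.toFun (Om M) :=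
    fun f m hm => f.contDiff.of_le (WithTop.coe_le_coe.2 hm)
  have hUD : UniqueDiffOn ℝ (Om M) := (isOpen_Om M).uniqueDiffOn
  have htay : HasFTaylorSeriesUpToOn k (fun q => (p q 0).curry0) p (Om M) := by
    refine ⟨fun _ _ => rfl, fun j hm x hx => ?_, fun j hm => ?_⟩
    · have hm1 : ((j + 1 : ℕ) : ℕ∞) ≤ k := by
        have h1 : (j : ℕ∞) < k := WithTop.coe_lt_coe.1 hm
        push_cast
        exact Order.add_one_le_of_lt h1
      have hm0 : ((j : ℕ) : ℕ∞) ≤ k := hcast hm.le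
      have h1 : TendstoLocallyUniformlyOn
          (fun (f : Pot M k) x => (iteratedFDeriv ℝ (j + 1) f.toFun x).curryLeft)
          (fun x => (p x (j + 1)).curryLeft) l (Om M) := by
        have h2 := (continuousMultilinearCurryLeftEquiv ℝ
          (fun _ : Fin (j + 1) => Vec n × Vec m × ℝ) ℝ).isometry.uniformContinuous.comp_tendstoLocallyUniformlyOn
            (hloc (j + 1) hm1)
        exact h2
      refine HasFDerivAt.hasFDerivWithinAt (hasFDerivAt_of_tendstoLocallyUniformlyOn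
        (f := fun (f : Pot M k) x => iteratedFDeriv ℝ j f.toFun x)
        (g := fun x => p x j) (isOpen_Om M) h1 (fun f x hx => ?_) (fun x hx => ?_) hx)
      · have h5 : ContDiffOn ℝ (j + 1 : ℕ) f.toFun (Om M) := hfd f (j + 1) hm1
        have h6 := (h5.ftaylorSeriesWithin hUD).fderivWithin j (by exact_mod_cast Nat.lt_succ_self j) x hx
        have h7 := h6.hasFDerivAt ((isOpen_Om M).mem_nhds hx)
        have h8 : ftaylorSeriesWithin ℝ f.toFun (Om M) x (j + 1) = iteratedFDeriv ℝ (j + 1) f.toFun x :=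
          iteratedFDerivWithin_of_isOpen (j + 1) (isOpen_Om M) hx
        have h9 : (fun y => ftaylorSeriesWithin ℝ f.toFun (Om M) y j) =ᶠ[𝓝 x]
            fun y => iteratedFDeriv ℝ j f.toFun y := by
          filter_upwards [(isOpen_Om M).mem_nhds hx] with y hy
          exact iteratedFDerivWithin_of_isOpen j (isOpen_Om M) hy
        have h10 := h7.congr_of_eventuallyEq h9.symm
        rw [← h8]
        exact h10
      · exact hpt j hm0 x hx
    · have hm0 : ((j : ℕ) : ℕ∞) ≤ k := hcast hm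
      refine (hloc j hm0).continuousOn (Frequently.of_forall fun f => ?_)
      have h5 := (hfd f j hm0).continuousOn_iteratedFDerivWithin le_rfl hUD
      refine h5.congr fun x hx => (iteratedFDerivWithin_of_isOpen j (isOpen_Om M) hx).symm
  set φ : Fun n m := fun q => if q.2.1 ∈ M.U then (p q 0).curry0 else 0 with hφ
  have hφ1 : ∀ q ∈ Om M, φ q = (p q 0).curry0 := fun q hq => by
    simp only [hφ, if_pos (mem_Om.1 hq)]
  have htay' : HasFTaylorSeriesUpToOn k φ p (Om M) := htay.congr hφ1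
  have hφc : ContDiffOn ℝ k φ (Om M) := htay'.contDiffOn
  have h00 : ((0 : ℕ) : ℕ∞) ≤ k := by simp
  have hval : ∀ q ∈ Om M, Tendsto (fun f : Pot M k => f.toFun q) l (𝓝 (φ q)) := by
    intro q hq
    rw [hφ1 q hq]
    have h1 := hpt 0 h00 q hq
    have h2 : Continuous fun c : ContinuousMultilinearMap ℝ (fun _ : Fin 0 => Vec n × Vec m × ℝ) ℝ => c.curry0 :=
      (continuousMultilinearCurryFin0 ℝ (Vec n × Vec m × ℝ) ℝ).continuous
    have h3 := (h2.tendsto _).comp h1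
    refine h3.congr fun f => ?_
    simp only [Function.comp, ContinuousMultilinearMap.curry0_apply, iteratedFDeriv_zero_apply]
  have hφe : ∀ x ν t, ν ∈ M.U → φ (x, ν, t) = φ (x, M.r ν, t) := by
    intro x ν t hν
    have h1 := hval (x, ν, t) (mem_Om.2 hν)
    have h2 := hval (x, M.r ν, t) (mem_Om.2 (M.sub (M.mem ν hν)))
    refine tendsto_nhds_unique h1 (h2.congr fun f => (f.ext x ν t hν).symm)
  have hφo : ∀ x ν t, ν ∉ M.U → φ (x, ν, t) = 0 := fun x ν t hν => by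
    simp only [hφ, if_neg hν]
  have hrU : ∀ i, ∀ ν ∈ M.U, M.rot i ν ∈ M.U := fun i ν hν => by
    rw [← M.presU i]; exact mem_image_of_mem _ hν
  have hφp : IsPeriodic M φ := by
    refine ⟨fun i x ν t hν => ?_, fun x ν t hν => ?_⟩
    · have h1 := hval (x, ν, t) (mem_Om.2 hν)
      have h2 := hval (x + M.τ i, M.rot i ν, t) (mem_Om.2 (hrU i ν hν))
      refine tendsto_nhds_unique h2 (h1.congr fun f => (f.periodic.1 i x ν t hν).symm)
    · have h1 := hval (x, ν, t) (mem_Om.2 hν)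
      have h2 := hval (x, ν, t + 1) (mem_Om.2 hν)
      refine tendsto_nhds_unique h2 (h1.congr fun f => (f.periodic.2 x ν t hν).symm)
  refine ⟨⟨φ, hφc, hφe, hφo, hφp⟩, ?_⟩
  rw [nhds_induced, ← tendsto_iff_comap]
  rw [tendsto_pi_nhds]
  intro j
  rw [UniformOnFun.tendsto_iff_tendstoUniformlyOn]
  intro S hS
  have h1 := hunif j.1 j.2 S hS
  refine h1.congr_right fun q hq => ?_
  have hqO : (q : Vec n × Vec m × ℝ) ∈ Om M := q.2
  have h2 := htay'.eq_iteratedFDerivWithin_of_uniqueDiffOn (WithTop.coe_le_coe.2 j.2) hUD hqO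
  rw [iteratedFDerivWithin_of_isOpen j.1 (isOpen_Om M) hqO, hpj j.1 j.2] at h2
  exact h2

/-- The space `C^k(M × 𝕋)` is a Baire space. -/
theorem baire (M : FlatBundle n m) (k : ℕ∞) : BaireSpace (Pot M k) := by
  let U : UniformSpace (Pot M k) := UniformSpace.comap jet inferInstance
  obtain ⟨t, ht, htc, hte⟩ := exists_exhaustion M
  have hu : ∀ j : {j : ℕ // (j : ℕ∞) ≤ k}, (𝓤 (Dom M →ᵤ[slabs M]
      ContinuousMultilinearMap ℝ (fun _ : Fin j.1 => Vec n × Vec m × ℝ) ℝ)).IsCountablyGenerated := by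
    intro j
    refine UniformOnFun.isCountablyGenerated_uniformity (slabs M)
      (t := fun i => {q : Dom M | q.1.2.1 ∈ t i})
      (fun i => mem_slabs (htc i).1 (htc i).2) (fun i i' h q hq => ht h hq) ?_
    rintro _ ⟨K, hc, hK, rfl⟩
    obtain ⟨i, hi⟩ := hte K hc hK
    exact ⟨i, fun q hq => hi hq⟩
  have : (𝓤 (Pot M k)).IsCountablyGenerated := by
    have : 𝓤 (Pot M k) = Filter.comap (fun q : Pot M k × Pot M k => (jet q.1, jet q.2)) (𝓤 _) := rfl
    rw [this]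
    infer_instance
  have : CompleteSpace (Pot M k) := by
    refine ⟨fun {l} hl => ?_⟩
    have := hl.1
    have h1 : Cauchy (map (jet : Pot M k → _) l) := hl.map uniformContinuous_comap
    obtain ⟨Ψ, hΨ⟩ := CompleteSpace.complete h1
    exact pot_complete M k l Ψ hΨ
  exact (inferInstance : BaireSpace (Pot M k))

end EscN.T
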