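import Pool.Agent.EscN.TDefs

/-!
INTERFACE of the outer modules of project ESCN (all statements with sorry). Never import this file in
a final module.
-/

noncomputable section

namespace EscN.T

open Filter Topology Set Esc
open scoped ContDiff

/-! ## T1a: the submanifold -/
section T1a
variable {n m : ℕ} (M : FlatBundle n m)

theorem r_id {ν : Vec m} (h : ν ∈ M.N) : M.r ν = ν := sorry
theorem rot_mem_N (i : Fin n) {ν : Vec m} : M.rot i ν ∈ M.N ↔ ν ∈ M.N := sorry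
theorem rot_mem_U (i : Fin n) {ν : Vec m} : M.rot i ν ∈ M.U ↔ ν ∈ M.U := sorry
theorem r_rot (i : Fin n) {ν : Vec m} (h : ν ∈ M.U) : M.r (M.rot i ν) = M.rot i (M.r ν) := sorry
theorem exists_chi : ∃ χ : Vec m → ℝ, ContDiff ℝ ∞ χ ∧ HasCompactSupport χ ∧ tsupport χ ⊆ M.U ∧
    (∀ ν, 0 ≤ χ ν ∧ χ ν ≤ 1) ∧ (∀ᶠ ν in 𝓝ˢ M.N, χ ν = 1) ∧ ∀ i ν, χ (M.rot i ν) = χ ν := sorry
/-- invariant cutoff function -/
def chi : Vec m → ℝ := (exists_chi M).choose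
/-- global smooth retraction -/
theorem exists_rr : ∃ (rr : Vec m → Vec m) (r0 Cr : ℝ), Ret M.N rr r0 Cr ∧
    ∀ᶠ ν in 𝓝ˢ M.N, rr ν = M.r ν := sorry
theorem exists_conn : ∃ Cc : ℝ, ∀ ν ∈ M.N, ∀ ν' ∈ M.N, ∃ u : ℝ → Vec m, Adm u ∧ (∀ t, ‖u t‖ ≤ Cc) ∧
    InS M.N 0 1 ν u ∧ traj 0 ν u 1 = ν' := sorry
end T1a

/-! ## T1b: the state space in the direction `K` -/

/-- `ℝⁿ × ℝᵐ` as a Euclidean space -/
abbrev EE (n m : ℕ) := WithLp 2 (Vec n × Vec m)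

def mk {n m : ℕ} (x : Vec n) (ν : Vec m) : EE n m := WithLp.toLp 2 (x, ν)

section T1b
variable {d m : ℕ} (M : FlatBundle (d + 1) m) (K : ℕ)

theorem exists_yK : ∃ y : Vec (d + 1) →L[ℝ] ℝ, y (M.τ 0) = 1 ∧ ∀ i : Fin d, y (M.τ i.succ) = K := sorry
/-- the slow functional -/
def yK : Vec (d + 1) →L[ℝ] ℝ := (exists_yK M K).choose
/-- the scale factor -/
def lam : ℝ := ‖yK M K‖
theorem lam_pos : 0 < lam M K := sorry
/-- the state space in the direction `K` -/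
def sp {d m : ℕ} (M : FlatBundle (d + 1) m) (K : ℕ) : Sp d (EE (d + 1) m) := sorry
theorem sp_b (i : Fin d) : (sp M K).b i = mk (lam M K • (M.τ i.succ - (K : ℝ) • M.τ 0)) 0 := sorry
theorem sp_g : (sp M K).g = mk (lam M K • M.τ 0) 0 := sorry
theorem sp_y (X : EE (d + 1) m) : (sp M K).y X = yK M K ((lam M K)⁻¹ • X.fst) := sorry
theorem sp_Q (X : EE (d + 1) m) : (sp M K).Q X = mk 0 X.snd := sorry
theorem sp_S (X : EE (d + 1) m) : X ∈ (sp M K).S ↔ (lam M K)⁻¹ • X.snd ∈ M.N := sorry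
theorem sp_R0 (ν : Vec m) (h : (sp M K).R0 + 1 ≤ lam M K * ‖ν‖) : chi M ν = 0 := sorry
/-- `rt = id × λ rr (λ⁻¹ ·)` with `rr` from `exists_rr` -/
theorem sp_rt (X : EE (d + 1) m) : (sp M K).rt X =
    mk X.fst (lam M K • (exists_rr M).choose ((lam M K)⁻¹ • X.snd)) := sorry
/-- invariance under the deck maps is invariance under the generators -/
theorem sp_inv (f : EE (d + 1) m → ℝ → ℝ)
    (h : ∀ i X t, f (mk (X.fst + lam M K • M.τ i) (M.rot i X.snd)) t = f X t) :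
    (∀ n X t, f ((sp M K).dk n X) t = f X t) ∧ ∀ X t, f ((sp M K).gd X) t = f X t := sorry
theorem sp_inv' (f : EE (d + 1) m → ℝ → ℝ)
    (h : ∀ n X t, f ((sp M K).dk n X) t = f X t) (hg : ∀ X t, f ((sp M K).gd X) t = f X t) :
    ∀ i X t, f (mk (X.fst + lam M K • M.τ i) (M.rot i X.snd)) t = f X t := sorry
end T1b

/-! ## T2: transfer of potentials -/

section T2
variable {d m : ℕ} (M : FlatBundle (d + 1) m) (K : ℕ)

/-- the potential on `E` -/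
def core (F : Fun (d + 1) m) : EE (d + 1) m → ℝ → ℝ := fun X t =>
  lam M K ^ 2 * (chi M ((lam M K)⁻¹ • X.snd) *
    F ((lam M K)⁻¹ • X.fst, (lam M K)⁻¹ • X.snd, t))

theorem core_isPot {k : ℕ∞} (hk : 2 ≤ k) (F : Pot M k) : (sp M K).IsPot (core M K F.toFun) := sorry
theorem core_S (F : Fun (d + 1) m) {X : EE (d + 1) m} (hX : X ∈ (sp M K).S) (t : ℝ) :
    core M K F X t = lam M K ^ 2 * F ((lam M K)⁻¹ • X.fst, (lam M K)⁻¹ • X.snd, t) := sorry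
/-- sum of potentials -/
def Pot.add {M : FlatBundle (d + 1) m} {k : ℕ∞} (f g : Pot M k) : Pot M k where
  toFun := f.toFun + g.toFun
  contDiff := sorry
  ext := sorry
  out := sorry
  periodic := sorry
/-- stages and data classes are open -/
theorem isOpen_stage {k : ℕ∞} (hk : 2 ≤ k) (p β : ℝ) (q : ℕ) :
    IsOpen {F : Pot M k | (sp M K).Stage p β q (core M K F.toFun)} := sorry
theorem isOpen_dat {k : ℕ∞} (hk : 2 ≤ k) (p β M0 : ℝ) :
    IsOpen {F : Pot M k | (sp M K).Dat p β M0 (core M K F.toFun)} := sorry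
/-- stages are dense in the data classes -/
theorem dense_stage (hd : 0 < d) {k : ℕ∞} (hk : 2 ≤ k) (F : Pot M k) {p β M0 : ℝ}
    (hD : (sp M K).Dat p β M0 (core M K F.toFun)) {q : ℕ} (hq : M0 ≤ q) (r : ℕ) (Kc : Set (Vec m))
    (hKc : IsCompact Kc) (hKU : Kc ⊆ M.U) {ε : ℝ} (hε : 0 < ε) :
    ∃ G : Pot M k, (∀ j ≤ r, ∀ x ν t, ν ∈ Kc → ‖iteratedFDeriv ℝ j G.toFun (x, ν, t)‖ < ε) ∧
      (sp M K).Stage p β q (core M K (F.toFun + G.toFun)) := sorry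
/-- escaping orbits -/
theorem orbit_core (hd : 0 < d) {k : ℕ∞} (hk : 2 ≤ k) (F : Pot M k)
    (h : (sp M K).Escapes (core M K F.toFun)) : HasEscapingOrbit M F.toFun := sorry
end T2

/-! ## T3: density of the data classes (helper98) -/

section T3
variable {d m : ℕ} (M : FlatBundle (d + 1) m)
theorem dense_dat (hd : 0 < d) {k : ℕ∞} (hk : 2 ≤ k) (F : Pot M k) (r : ℕ) (hr : (r : ℕ∞) ≤ k)
    (Kc : Set (Vec m)) (hKc : IsCompact Kc) (hKU : Kc ⊆ M.U) {ε : ℝ} (hε : 0 < ε) :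
    ∃ G : Pot M k, (∀ j ≤ r, ∀ x ν t, ν ∈ Kc → ‖iteratedFDeriv ℝ j G.toFun (x, ν, t)‖ < ε) ∧
      ∃ (K : ℕ) (p β : ℚ) (M0 : ℕ), (sp M K).Dat p β M0 (core M K (F.toFun + G.toFun)) := sorry
end T3

/-! ## T4: topology of `C^k(M × 𝕋)` and the result -/

section T4
variable {n m : ℕ} {M : FlatBundle n m} {k : ℕ∞}

theorem baire (M : FlatBundle n m) (k : ℕ∞) : BaireSpace (Pot M k) := sorry
/-- `C^0`-closeness on `N` is a neighbourhood -/
theorem mem_nhds_zero (f : Pot M k) {ρ : ℝ} (hρ : 0 < ρ) :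
    {f' : Pot M k | ∀ x t, ∀ ν ∈ M.N, |f.toFun (x, ν, t) - f'.toFun (x, ν, t)| ≤ ρ} ∈ 𝓝 f := sorry
/-- basic neighbourhoods -/
theorem nhds_small (f : Pot M k) {O : Set (Pot M k)} (hO : O ∈ 𝓝 f) :
    ∃ (r : ℕ) (Kc : Set (Vec m)) (ε : ℝ), IsCompact Kc ∧ Kc ⊆ M.U ∧ 0 < ε ∧ ∀ f' : Pot M k,
      (∀ j ≤ r, (j : ℕ∞) ≤ k → ∀ x ν t, ν ∈ Kc →
        ‖iteratedFDeriv ℝ j f'.toFun (x, ν, t) - iteratedFDeriv ℝ j f.toFun (x, ν, t)‖ < ε) → f' ∈ O := sorry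
/-- the result -/
theorem result {n m : ℕ} (hn : 2 ≤ n) {k : ℕ∞} (hk : 2 ≤ k) (M : FlatBundle n m) (V : Pot M k) :
    {f : Pot M k | HasEscapingOrbit M (V.toFun + f.toFun)} ∈ residual (Pot M k) ∧
      Dense {f : Pot M k | HasEscapingOrbit M (V.toFun + f.toFun)} := sorry
end T4

end EscN.T
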