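import Pool.Agent.EscN.T4
import Pool.Agent.EscN.T2b
import Pool.Agent.EscN.T3c
import Pool.Agent.EscN.Final

/-!
The mechanical form of the result of project ESCN.
-/

noncomputable section
namespace EscN.T

open Filter Topology Set
open scoped ContDiff

theorem result {n m : ℕ} (hn : 2 ≤ n) {k : ℕ∞} (hk : 2 ≤ k) (M : FlatBundle n m) (V : Pot M k) :
    {f : Pot M k | HasEscapingOrbit M (V.toFun + f.toFun)} ∈ residual (Pot M k) ∧
      Dense {f : Pot M k | HasEscapingOrbit M (V.toFun + f.toFun)} := by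
  obtain ⟨d, rfl⟩ : ∃ d, n = d + 1 := ⟨n - 1, by omega⟩
  have hd : 0 < d := by omega
  refine residual_of (ι := ℕ × ℚ × ℚ × ℕ) V
    (fun a F => (sp M a.1).Dat a.2.1 a.2.2.1 a.2.2.2 (core M a.1 F))
    (fun a q F => (a.2.2.2 : ℝ) ≤ q → (sp M a.1).Stage a.2.1 a.2.2.1 q (core M a.1 F))
    (fun a => isOpen_dat M a.1 hk _ _ _) (fun a q => ?_) (fun F r hr Kc hKc hKU ε hε => ?_)
    (fun a q F hD r _ Kc hKc hKU ε hε => ?_) (fun a F hD hS => ?_)
  · by_cases h : (a.2.2.2 : ℝ) ≤ q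
    · simp only [h, true_imp_iff]
      exact isOpen_stage M a.1 hk _ _ _
    · simp only [h, false_imp_iff]
      exact isOpen_univ
  · obtain ⟨G, hG, K, p, β, M0, h⟩ := dense_dat M hd hk F r hr Kc hKc hKU hε
    exact ⟨G, hG, (K, p, β, M0), h⟩
  · by_cases h : (a.2.2.2 : ℝ) ≤ q
    · obtain ⟨G, hG, h'⟩ := dense_stage M a.1 hd hk F hD h r Kc hKc hKU hε
      exact ⟨G, hG, fun _ => h'⟩
    · obtain ⟨G, hG, -⟩ := dense_dat M hd hk F 0 (by simp) Kc hKc hKU hε
      refine ⟨⟨0, contDiffOn_const, fun _ _ _ _ => rfl, fun _ _ _ _ => rfl,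
        fun _ _ _ _ _ => rfl, fun _ _ _ _ => rfl⟩, fun j _ x ν t _ => ?_, fun h' => absurd h' h⟩
      simpa using hε
  · exact orbit_core M a.1 hd hk F (EscN.escapes_of_stages (sp M a.1) hd (core_isPot M a.1 hk F) hD hS)

end EscN.T
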