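import Pool.Agent.EscN.V1b

/-!
Project ESCN, V1: an escaping orbit of the mechanical system with potential `F` gives an escaping
orbit of every Lagrangian that is kinetic energy plus `F` for large velocities.
-/

noncomputable section

namespace EscN.T

open Filter Topology Set
open scoped ContDiff

variable {n m : ℕ}

namespace V1X

lemma per_nat {M : FlatBundle n m} {k : ℕ∞} (F : Pot M k) (T : ℕ) (x : Vec n) {ν : Vec m}
    (hν : ν ∈ M.U) (t : ℝ) : F.toFun (x, ν, t + T) = F.toFun (x, ν, t) := by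
  induction T with
  | zero => simp
  | succ T ih =>
    have h1 : t + ((T + 1 : ℕ) : ℝ) = (t + T) + 1 := by push_cast; ring
    rw [h1, F.periodic.2 x ν _ hν, ih]

lemma deriv_shift {V : Type*} [NormedAddCommGroup V] [NormedSpace ℝ V] (f : ℝ → V) (c : ℝ) :
    deriv (fun t => f (t + c)) = fun t => deriv f (t + c) := by
  funext t
  exact deriv_comp_add_const f c t

lemma diff_shift {V : Type*} [NormedAddCommGroup V] [NormedSpace ℝ V] {f : ℝ → V} {c t : ℝ}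
    (h : DifferentiableAt ℝ f (t + c)) : DifferentiableAt ℝ (fun t => f (t + c)) t := by
  have h1 : DifferentiableAt ℝ (fun t : ℝ => t + c) t := differentiableAt_id.add_const c
  exact DifferentiableAt.comp t (f := fun t : ℝ => t + c) (g := f) h h1

lemma orbit_shift {M : FlatBundle n m} {k : ℕ∞} (F : Pot M k) {x : ℝ → Vec n} {ν : ℝ → Vec m}
    (h : IsOrbit M F.toFun x ν) (T : ℕ) :
    IsOrbit M F.toFun (fun t => x (t + T)) (fun t => ν (t + T)) := by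
  intro t ht
  have hT : (0 : ℝ) < t + T := by positivity
  obtain ⟨h1, h2, h3, h4, h5, h6⟩ := h (t + T) hT
  refine ⟨h1, diff_shift h2, diff_shift h3, ?_, ?_, ?_⟩
  · rw [deriv_shift]
    exact diff_shift h4
  · rw [deriv_shift]
    exact diff_shift h5
  · intro X Y ξ η hX0 hY0 hY hX hY'
    have h7 := h6 X Y ξ η hX0 hY0 hY hX hY'
    rw [deriv_shift, deriv_shift, deriv_shift, deriv_shift]
    have h8 : (fun s => F.toFun (X s, Y s, t)) = fun s => F.toFun (X s, Y s, t + T) := by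
      funext s
      rw [per_nat F T (X s) (M.sub (hY s)) t]
    rw [h8]
    exact h7

lemma deriv_slice {V : Type*} [NormedAddCommGroup V] [NormedSpace ℝ V] {X : ℝ × ℝ → V}
    (hX : ContDiff ℝ 2 X) (s t : ℝ) :
    HasDerivAt (fun t' => X (s, t')) (fderiv ℝ X (s, t) (0, 1)) t := by
  have h1 : HasFDerivAt X (fderiv ℝ X (s, t)) (s, t) :=
    (hX.differentiable (by simp) (s, t)).hasFDerivAt
  have h2 : HasDerivAt (fun t' : ℝ => (s, t')) ((0 : ℝ), (1 : ℝ)) t :=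
    (hasDerivAt_const t s).prodMk (hasDerivAt_id t)
  exact h1.comp_hasDerivAt t h2

lemma cont_slice {V : Type*} [NormedAddCommGroup V] [NormedSpace ℝ V] {X : ℝ × ℝ → V}
    (hX : ContDiff ℝ 2 X) : Continuous fun q => ‖fderiv ℝ X q (0, 1)‖ ^ 2 :=
  (((hX.continuous_fderiv (by simp)).clm_apply continuous_const).norm).pow 2

lemma tangent_slice {M : FlatBundle n m} {Y : ℝ × ℝ → Vec m} (hY : ContDiff ℝ 2 Y)
    (hN : ∀ q, Y q ∈ M.N) (q : ℝ × ℝ) (v : ℝ × ℝ) :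
    IsTangent M (Y q) (fderiv ℝ Y q v) := by
  have h1 : HasFDerivAt Y (fderiv ℝ Y q) q := (hY.differentiable (by simp) q).hasFDerivAt
  have h2 : HasFDerivAt M.r (fderiv ℝ M.r (Y q)) (Y q) := (V1_r_diff M (M.sub (hN q))).hasFDerivAt
  have h3 := h2.comp q h1
  have h4 : M.r ∘ Y = Y := by
    funext p
    exact V1_r_id M (hN p)
  rw [h4] at h3
  have h5 := h3.unique h1
  exact congrArg (fun A : ℝ × ℝ →L[ℝ] Vec m => A v) h5

end V1X

open V1X

theorem extremal_of_orbit (M : FlatBundle n m) {k : ℕ∞} (hk : 2 ≤ k) (F : Pot M k) (L : Lag n m)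
    (hL : IsMechAtInfinity M L F.toFun) (h : HasEscapingOrbit M F.toFun) : EscapesToInfinity M L := by
  obtain ⟨R, hR⟩ := hL
  obtain ⟨x₀, ν₀, hO₀, hT₀⟩ := h
  obtain ⟨A, hA⟩ := (tendsto_atTop.1 hT₀ (R + 1)).exists_forall_of_atTop
  obtain ⟨T, hT⟩ := exists_nat_ge A
  have hO := orbit_shift F hO₀ T
  have hd1 := deriv_shift x₀ (T : ℝ)
  have hd2 := deriv_shift ν₀ (T : ℝ)
  have hbig : ∀ t : ℝ, 0 < t → R + 1 ≤ ‖deriv (fun t => x₀ (t + T)) t‖ ^ 2 +
      ‖deriv (fun t => ν₀ (t + T)) t‖ ^ 2 := by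
    intro t ht
    rw [hd1, hd2]
    exact hA (t + T) (by linarith)
  have htend : Tendsto (fun t => ‖deriv (fun t => x₀ (t + T)) t‖ ^ 2 +
      ‖deriv (fun t => ν₀ (t + T)) t‖ ^ 2) atTop atTop := by
    rw [hd1, hd2]
    exact hT₀.comp (tendsto_atTop_add_const_right atTop (T : ℝ) tendsto_id)
  generalize (fun t => x₀ (t + T)) = x at *
  generalize (fun t => ν₀ (t + T)) = ν at *
  refine ⟨x, ν, ⟨(V1_orbit_c2 hk hO).1, (V1_orbit_c2 hk hO).2, fun t ht => (hO t ht).1, ?_⟩, htend⟩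
  intro a b X Y ha hab hX hY hN h0 he
  have h1 := V1_stationary hk F hO ha hab hX hY hN h0 he
  refine h1.congr_of_eventuallyEq ?_
  -- the speed at `s = 0`
  have hg : Continuous fun q : ℝ × ℝ => ‖fderiv ℝ X q (0, 1)‖ ^ 2 + ‖fderiv ℝ Y q (0, 1)‖ ^ 2 :=
    (cont_slice hX).add (cont_slice hY)
  have hIoo : ∀ t ∈ Ioo a b, R + 1 ≤ ‖fderiv ℝ X (0, t) (0, 1)‖ ^ 2 +
      ‖fderiv ℝ Y (0, t) (0, 1)‖ ^ 2 := by
    intro t ht
    have e1 : (fun t' => X (0, t')) =ᶠ[𝓝 t] x := by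
      filter_upwards [Ioo_mem_nhds ht.1 ht.2] with t' ht'
      exact (h0 t' ⟨ht'.1.le, ht'.2.le⟩).1
    have e2 : (fun t' => Y (0, t')) =ᶠ[𝓝 t] ν := by
      filter_upwards [Ioo_mem_nhds ht.1 ht.2] with t' ht'
      exact (h0 t' ⟨ht'.1.le, ht'.2.le⟩).2
    rw [← (deriv_slice hX 0 t).deriv, ← (deriv_slice hY 0 t).deriv, e1.deriv_eq, e2.deriv_eq]
    exact hbig t (ha.trans ht.1)
  have hIcc : ∀ t ∈ Icc a b, R + 1 ≤ ‖fderiv ℝ X (0, t) (0, 1)‖ ^ 2 +
      ‖fderiv ℝ Y (0, t) (0, 1)‖ ^ 2 := by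
    have hcl : IsClosed {t : ℝ | R + 1 ≤ ‖fderiv ℝ X (0, t) (0, 1)‖ ^ 2 +
        ‖fderiv ℝ Y (0, t) (0, 1)‖ ^ 2} :=
      isClosed_le continuous_const (hg.comp (Continuous.prodMk_right (0 : ℝ)))
    have hsub : closure (Ioo a b) ⊆ {t : ℝ | R + 1 ≤ ‖fderiv ℝ X (0, t) (0, 1)‖ ^ 2 +
        ‖fderiv ℝ Y (0, t) (0, 1)‖ ^ 2} := hcl.closure_subset_iff.2 hIoo
    rw [closure_Ioo hab.ne] at hsub
    exact hsub
  have hopen : IsOpen {q : ℝ × ℝ | R < ‖fderiv ℝ X q (0, 1)‖ ^ 2 + ‖fderiv ℝ Y q (0, 1)‖ ^ 2} :=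
    isOpen_lt continuous_const hg
  obtain ⟨u, v, hu, hv, h0u, hIv, huv⟩ := generalized_tube_lemma (isCompact_singleton (x := (0 : ℝ)))
    (isCompact_Icc (a := a) (b := b)) hopen (by
      rintro ⟨s, t⟩ ⟨hs, ht⟩
      rw [Set.mem_singleton_iff] at hs
      simp only at hs ht
      rw [hs]
      have := hIcc t ht
      show R < ‖fderiv ℝ X (0, t) (0, 1)‖ ^ 2 + ‖fderiv ℝ Y (0, t) (0, 1)‖ ^ 2
      linarith)
  have h0u' : (0 : ℝ) ∈ u := h0u (Set.mem_singleton _)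
  filter_upwards [hu.mem_nhds h0u'] with s hs
  refine intervalIntegral.integral_congr fun t ht => ?_
  rw [uIcc_of_le hab.le] at ht
  have h2 : R < ‖fderiv ℝ X (s, t) (0, 1)‖ ^ 2 + ‖fderiv ℝ Y (s, t) (0, 1)‖ ^ 2 :=
    huv (Set.mk_mem_prod hs (hIv ht))
  show L (X (s, t)) (Y (s, t)) (deriv (fun t' => X (s, t')) t) (deriv (fun t' => Y (s, t')) t) t = _
  rw [(deriv_slice hX s t).deriv, (deriv_slice hY s t).deriv]
  exact hR _ _ _ _ _ (hN (s, t)) (tangent_slice hY hN (s, t) (0, 1)) h2.le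

end EscN.T
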