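import Pool.Agent.EscN.VDefs

/-!
Project ESCN, V1, first part: the nearest point map has symmetric derivatives; orbits are `C²`.
-/

noncomputable section

namespace EscN.T

open Filter Topology Set
open scoped ContDiff

variable {n m : ℕ}

/-! ### The nearest point map -/

lemma V1_r_id (M : FlatBundle n m) {ν : Vec m} (h : ν ∈ M.N) : M.r ν = ν := by
  by_contra hne
  have := M.nearest ν (M.sub h) ν h (fun h' => hne h'.symm)
  rw [dist_self] at this
  exact absurd this (not_lt.2 dist_nonneg)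

lemma V1_r_diff (M : FlatBundle n m) {x : Vec m} (hx : x ∈ M.U) : DifferentiableAt ℝ M.r x :=
  ((M.smooth x hx).contDiffAt (M.isOpen.mem_nhds hx)).differentiableAt (by simp)

lemma V1_r_le (M : FlatBundle n m) {x p : Vec m} (hx : x ∈ M.U) (hp : p ∈ M.N) :
    dist x (M.r x) ≤ dist x p := by
  by_cases h : p = M.r x
  · rw [h]
  · exact (M.nearest x hx p hp h).le

/-- the potential of the nearest point map -/
def V1_phi (M : FlatBundle n m) (z : Vec m) : ℝ := (inner ℝ z (M.r z) : ℝ) - ‖M.r z‖ ^ 2 / 2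

lemma V1_phi_ge (M : FlatBundle n m) {z p : Vec m} (hz : z ∈ M.U) (hp : p ∈ M.N) :
    (inner ℝ z p : ℝ) - ‖p‖ ^ 2 / 2 ≤ V1_phi M z := by
  have h1 := V1_r_le M hz hp
  rw [dist_eq_norm, dist_eq_norm] at h1
  have h2 : ‖z - M.r z‖ ^ 2 ≤ ‖z - p‖ ^ 2 := pow_le_pow_left₀ (norm_nonneg _) h1 2
  rw [norm_sub_sq_real, norm_sub_sq_real] at h2
  unfold V1_phi
  linarith

lemma V1_phi_hasFDerivAt (M : FlatBundle n m) {x : Vec m} (hx : x ∈ M.U) :
    HasFDerivAt (V1_phi M) (innerSL ℝ (M.r x)) x := by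
  have hd : DifferentiableAt ℝ (V1_phi M) x := by
    unfold V1_phi
    have h1 := V1_r_diff M hx
    have h5 : DifferentiableAt ℝ (fun z => ‖M.r z‖ ^ 2 / 2) x := by
      have h6 := (h1.norm_sq ℝ).mul_const ((2 : ℝ)⁻¹)
      simpa only [div_eq_mul_inv] using h6
    exact (differentiableAt_id.inner ℝ h1).sub h5
  have h2 : HasFDerivAt (fun z => V1_phi M z - ((inner ℝ z (M.r x) : ℝ) - ‖M.r x‖ ^ 2 / 2))
      (fderiv ℝ (V1_phi M) x - innerSL ℝ (M.r x)) x := by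
    have h3 : HasFDerivAt (fun z : Vec m => (inner ℝ z (M.r x) : ℝ) - ‖M.r x‖ ^ 2 / 2)
        (innerSL ℝ (M.r x)) x := by
      have h4 : HasFDerivAt (fun z : Vec m => (inner ℝ (M.r x) z : ℝ)) (innerSL ℝ (M.r x)) x :=
        (innerSL ℝ (M.r x)).hasFDerivAt
      have h5 : (fun z : Vec m => (inner ℝ z (M.r x) : ℝ) - ‖M.r x‖ ^ 2 / 2) =
          fun z => (inner ℝ (M.r x) z : ℝ) - ‖M.r x‖ ^ 2 / 2 := by
        funext z
        rw [real_inner_comm]
      rw [h5]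
      exact h4.sub_const _
    exact hd.hasFDerivAt.sub h3
  have hmin : IsLocalMin (fun z => V1_phi M z - ((inner ℝ z (M.r x) : ℝ) - ‖M.r x‖ ^ 2 / 2)) x := by
    filter_upwards [M.isOpen.mem_nhds hx] with z hz
    have h3 := V1_phi_ge M hz (M.mem x hx)
    have h4 : V1_phi M x - ((inner ℝ x (M.r x) : ℝ) - ‖M.r x‖ ^ 2 / 2) = 0 := by
      unfold V1_phi
      ring
    rw [h4]
    linarith
  have h0 := hmin.hasFDerivAt_eq_zero h2
  have h6 : fderiv ℝ (V1_phi M) x = innerSL ℝ (M.r x) := sub_eq_zero.1 h0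
  rw [← h6]
  exact hd.hasFDerivAt

/-- the derivative of the nearest point map is symmetric -/
lemma V1_r_sym (M : FlatBundle n m) {x : Vec m} (hx : x ∈ M.U) (v w : Vec m) :
    (inner ℝ (fderiv ℝ M.r x v) w : ℝ) = inner ℝ (fderiv ℝ M.r x w) v := by
  have h1 : ∀ᶠ y in 𝓝 x, HasFDerivAt (V1_phi M) (innerSL ℝ (M.r y)) y := by
    filter_upwards [M.isOpen.mem_nhds hx] with y hy
    exact V1_phi_hasFDerivAt M hy
  have h2 : HasFDerivAt (fun y => innerSL ℝ (M.r y))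
      ((innerSL ℝ : Vec m →L[ℝ] Vec m →L[ℝ] ℝ).comp (fderiv ℝ M.r x)) x :=
    ((innerSL ℝ : Vec m →L[ℝ] Vec m →L[ℝ] ℝ).hasFDerivAt).comp x (V1_r_diff M hx).hasFDerivAt
  have h3 := second_derivative_symmetric_of_eventually h1 h2 v w
  simpa using h3

lemma V1_r_idem (M : FlatBundle n m) {x : Vec m} (hx : x ∈ M.N) (v : Vec m) :
    fderiv ℝ M.r x (fderiv ℝ M.r x v) = fderiv ℝ M.r x v := by
  have hxU := M.sub hx
  have h1 : HasFDerivAt M.r (fderiv ℝ M.r x) x := (V1_r_diff M hxU).hasFDerivAt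
  have h2 : HasFDerivAt (M.r ∘ M.r) ((fderiv ℝ M.r x).comp (fderiv ℝ M.r x)) x := by
    refine HasFDerivAt.comp x ?_ h1
    rw [V1_r_id M hx]
    exact h1
  have h3 : M.r ∘ M.r =ᶠ[𝓝 x] M.r := by
    filter_upwards [M.isOpen.mem_nhds hxU] with y hy
    exact V1_r_id M (M.mem y hy)
  have h4 := (h2.congr_of_eventuallyEq h3.symm).unique h1
  have h5 := congrArg (fun A : Vec m →L[ℝ] Vec m => A v) h4
  simpa using h5

/-- tangent vectors are velocities of curves -/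
lemma V1_curve (M : FlatBundle n m) {ν η : Vec m} (hν : ν ∈ M.N) (hη : fderiv ℝ M.r ν η = η) :
    ∃ Y : ℝ → Vec m, Y 0 = ν ∧ (∀ s, Y s ∈ M.N) ∧ HasDerivAt Y η 0 := by
  classical
  have hνU := M.sub hν
  refine ⟨fun s => if ν + s • η ∈ M.U then M.r (ν + s • η) else ν, ?_, fun s => ?_, ?_⟩
  · simp only [zero_smul, add_zero, if_pos hνU, V1_r_id M hν]
  · simp only
    split_ifs with h
    · exact M.mem _ h
    · exact hν
  · have hc : HasDerivAt (fun s : ℝ => ν + s • η) η 0 := by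
      have := ((hasDerivAt_id (0 : ℝ)).smul_const η).const_add ν
      simpa using this
    have h1 : HasDerivAt (fun s : ℝ => M.r (ν + s • η)) η 0 := by
      have h2 : HasFDerivAt M.r (fderiv ℝ M.r ν) (ν + (0 : ℝ) • η) := by
        rw [zero_smul, add_zero]
        exact (V1_r_diff M hνU).hasFDerivAt
      have h3 := h2.comp_hasDerivAt (0 : ℝ) hc
      rw [hη] at h3
      exact h3
    refine h1.congr_of_eventuallyEq ?_
    have h4 : ∀ᶠ s : ℝ in 𝓝 0, ν + s • η ∈ M.U := by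
      refine hc.continuousAt.eventually_mem ?_
      rw [zero_smul, add_zero]
      exact M.isOpen.mem_nhds hνU
    filter_upwards [h4] with s hs
    simp only [if_pos hs]

/-! ### Orbits are `C²` -/

lemma V1_dom_open (M : FlatBundle n m) : IsOpen {q : Vec n × Vec m × ℝ | q.2.1 ∈ M.U} :=
  M.isOpen.preimage (continuous_fst.comp continuous_snd)

lemma V1_F_diff {M : FlatBundle n m} {k : ℕ∞} (hk : 2 ≤ k) (F : Pot M k) {q : Vec n × Vec m × ℝ}
    (hq : q.2.1 ∈ M.U) : DifferentiableAt ℝ F.toFun q := by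
  have hk0 : ((k : ℕ∞) : WithTop ℕ∞) ≠ 0 := by
    intro h
    have h2 : k = 0 := by exact_mod_cast h
    rw [h2] at hk
    exact absurd hk (by norm_num)
  exact ((F.contDiff q hq).contDiffAt ((V1_dom_open M).mem_nhds hq)).differentiableAt hk0

lemma V1_DF_cont {M : FlatBundle n m} {k : ℕ∞} (hk : 2 ≤ k) (F : Pot M k) :
    ContinuousOn (fderiv ℝ F.toFun) {q : Vec n × Vec m × ℝ | q.2.1 ∈ M.U} := by
  refine F.contDiff.continuousOn_fderiv_of_isOpen (V1_dom_open M) ?_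
  have h2 : (1 : ℕ∞) ≤ k := le_trans (by norm_num) hk
  exact_mod_cast h2

section orbit

variable {M : FlatBundle n m} {k : ℕ∞} {F : Pot M k} {x : ℝ → Vec n} {ν : ℝ → Vec m}

/-- the orbit equation for tangent vectors -/
lemma V1_orbit_eq (hk : 2 ≤ k) (h : IsOrbit M F.toFun x ν) {t : ℝ} (ht : 0 < t) (ξ : Vec n)
    {η : Vec m} (hη : fderiv ℝ M.r (ν t) η = η) :
    fderiv ℝ F.toFun (x t, ν t, t) (ξ, η, 0) =
      inner ℝ (deriv (deriv x) t) ξ + inner ℝ (deriv (deriv ν) t) η := by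
  obtain ⟨hN, -, -, -, -, hv⟩ := h t ht
  obtain ⟨Y, hY0, hYN, hY⟩ := V1_curve M hN hη
  have hX : HasDerivAt (fun s : ℝ => x t + s • ξ) ξ 0 := by
    have := ((hasDerivAt_id (0 : ℝ)).smul_const ξ).const_add (x t)
    simpa using this
  have h1 := hv (fun s : ℝ => x t + s • ξ) Y ξ η (by simp) hY0 hYN hX hY
  have h2 : HasDerivAt (fun s : ℝ => ((x t + s • ξ, Y s, t) : Vec n × Vec m × ℝ)) (ξ, η, 0) 0 :=
    hX.prodMk (hY.prodMk (hasDerivAt_const (0 : ℝ) t))
  have h3 : HasFDerivAt F.toFun (fderiv ℝ F.toFun (x t, ν t, t))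
      ((fun s : ℝ => ((x t + s • ξ, Y s, t) : Vec n × Vec m × ℝ)) 0) := by
    simp only [zero_smul, add_zero, hY0]
    exact (V1_F_diff hk F (M.sub hN)).hasFDerivAt
  exact (h3.comp_hasDerivAt (0 : ℝ) h2).unique h1

lemma V1_path_cont (h : IsOrbit M F.toFun x ν) :
    ContinuousOn (fun t => ((x t, ν t, t) : Vec n × Vec m × ℝ)) (Ioi 0) := fun t ht =>
  ((h t ht).2.1.continuousAt.prodMk ((h t ht).2.2.1.continuousAt.prodMk
    continuousAt_id)).continuousWithinAt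

lemma V1_DF_path (hk : 2 ≤ k) (h : IsOrbit M F.toFun x ν) :
    ContinuousOn (fun t => fderiv ℝ F.toFun (x t, ν t, t)) (Ioi 0) :=
  (V1_DF_cont hk F).comp (V1_path_cont h) fun t ht => M.sub (h t ht).1

lemma V1_x2_cont (hk : 2 ≤ k) (h : IsOrbit M F.toFun x ν) :
    ContinuousOn (deriv (deriv x)) (Ioi 0) := by
  have h1 : ContinuousOn (fun t => (InnerProductSpace.toDual ℝ (Vec n)).symm
      ((fderiv ℝ F.toFun (x t, ν t, t)).comp (ContinuousLinearMap.inl ℝ (Vec n) (Vec m × ℝ))))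
      (Ioi 0) :=
    (InnerProductSpace.toDual ℝ (Vec n)).symm.continuous.comp_continuousOn
      ((V1_DF_path hk h).clm_comp continuousOn_const)
  refine h1.congr fun t ht => ?_
  rw [eq_comm, LinearIsometryEquiv.symm_apply_eq]
  ext1 ξ
  rw [InnerProductSpace.toDual_apply_apply]
  have h2 := V1_orbit_eq hk h ht ξ (η := 0) (by simp)
  rw [inner_zero_right, add_zero] at h2
  exact h2

lemma V1_u_cont (hk : 2 ≤ k) (h : IsOrbit M F.toFun x ν) :
    ContinuousOn (fun t => fderiv ℝ M.r (ν t) (deriv (deriv ν) t)) (Ioi 0) := by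
  have hr : ContinuousOn (fun t => fderiv ℝ M.r (ν t)) (Ioi 0) := by
    have h2 : ContinuousOn (fderiv ℝ M.r) M.U :=
      M.smooth.continuousOn_fderiv_of_isOpen M.isOpen (by simp)
    exact h2.comp (fun t ht => (h t ht).2.2.1.continuousAt.continuousWithinAt)
      fun t ht => M.sub (h t ht).1
  have h1 : ContinuousOn (fun t => (InnerProductSpace.toDual ℝ (Vec m)).symm
      ((fderiv ℝ F.toFun (x t, ν t, t)).comp ((ContinuousLinearMap.inr ℝ (Vec n) (Vec m × ℝ)).comp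
        ((ContinuousLinearMap.inl ℝ (Vec m) ℝ).comp (fderiv ℝ M.r (ν t)))))) (Ioi 0) :=
    (InnerProductSpace.toDual ℝ (Vec m)).symm.continuous.comp_continuousOn
      ((V1_DF_path hk h).clm_comp (continuousOn_const.clm_comp (continuousOn_const.clm_comp hr)))
  refine h1.congr fun t ht => ?_
  have hN := (h t ht).1
  rw [eq_comm, LinearIsometryEquiv.symm_apply_eq]
  ext1 v
  rw [InnerProductSpace.toDual_apply_apply]
  have h2 := V1_orbit_eq hk h ht 0 (η := fderiv ℝ M.r (ν t) v) (V1_r_idem M hN v)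
  rw [inner_zero_right, zero_add] at h2
  rw [V1_r_sym M (M.sub hN), real_inner_comm]
  exact h2

/-- the velocity is tangent -/
lemma V1_tan (h : IsOrbit M F.toFun x ν) {t : ℝ} (ht : 0 < t) :
    fderiv ℝ M.r (ν t) (deriv ν t) = deriv ν t := by
  obtain ⟨hN, -, hd, -⟩ := h t ht
  have h1 : HasDerivAt (fun s => M.r (ν s)) (fderiv ℝ M.r (ν t) (deriv ν t)) t :=
    ((V1_r_diff M (M.sub hN)).hasFDerivAt).comp_hasDerivAt t hd.hasDerivAt
  have h2 : (fun s => M.r (ν s)) =ᶠ[𝓝 t] ν := by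
    filter_upwards [Ioi_mem_nhds ht] with s hs
    exact V1_r_id M (h s hs).1
  exact (h1.congr_of_eventuallyEq h2.symm).unique hd.hasDerivAt

lemma V1_nu2_cont (hk : 2 ≤ k) (h : IsOrbit M F.toFun x ν) :
    ContinuousOn (deriv (deriv ν)) (Ioi 0) := by
  have hνc : ContinuousOn ν (Ioi 0) := fun t ht => (h t ht).2.2.1.continuousAt.continuousWithinAt
  have hν'c : ContinuousOn (deriv ν) (Ioi 0) := fun t ht =>
    (h t ht).2.2.2.2.1.continuousAt.continuousWithinAt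
  have hmap : MapsTo ν (Ioi 0) M.U := fun t ht => M.sub (h t ht).1
  have hDr : ContDiffOn ℝ ∞ (fderiv ℝ M.r) M.U := M.smooth.fderiv_of_isOpen M.isOpen (by simp)
  have hD2 : ContinuousOn (fun t => fderiv ℝ (fderiv ℝ M.r) (ν t)) (Ioi 0) :=
    (hDr.continuousOn_fderiv_of_isOpen M.isOpen (by simp)).comp hνc hmap
  have h1 : ContinuousOn (fun t => fderiv ℝ (fderiv ℝ M.r) (ν t) (deriv ν t) (deriv ν t) +
      fderiv ℝ M.r (ν t) (deriv (deriv ν) t)) (Ioi 0) :=
    ((hD2.clm_apply hν'c).clm_apply hν'c).add (V1_u_cont hk h)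
  refine h1.congr fun t ht => ?_
  obtain ⟨hN, -, hd, -, hd2, -⟩ := h t ht
  have h2 : HasDerivAt (fun s => fderiv ℝ M.r (ν s) (deriv ν s))
      (fderiv ℝ (fderiv ℝ M.r) (ν t) (deriv ν t) (deriv ν t) +
        fderiv ℝ M.r (ν t) (deriv (deriv ν) t)) t := by
    have h3 : HasDerivAt (fun s => fderiv ℝ M.r (ν s)) (fderiv ℝ (fderiv ℝ M.r) (ν t) (deriv ν t)) t := by
      have h4 : DifferentiableAt ℝ (fderiv ℝ M.r) (ν t) :=
        ((hDr (ν t) (M.sub hN)).contDiffAt (M.isOpen.mem_nhds (M.sub hN))).differentiableAt (by simp)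
      exact h4.hasFDerivAt.comp_hasDerivAt t hd.hasDerivAt
    exact h3.clm_apply hd2.hasDerivAt
  have h5 : (fun s => fderiv ℝ M.r (ν s) (deriv ν s)) =ᶠ[𝓝 t] deriv ν := by
    filter_upwards [Ioi_mem_nhds ht] with s hs
    exact V1_tan h hs
  exact ((h2.congr_of_eventuallyEq h5.symm).unique hd2.hasDerivAt).symm

lemma V1_c2 {V : Type*} [NormedAddCommGroup V] [NormedSpace ℝ V] {f : ℝ → V}
    (h1 : ∀ t, 0 < t → DifferentiableAt ℝ f t) (h2 : ∀ t, 0 < t → DifferentiableAt ℝ (deriv f) t)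
    (h3 : ContinuousOn (deriv (deriv f)) (Ioi 0)) : ContDiffOn ℝ 2 f (Ioi 0) := by
  rw [show (2 : WithTop ℕ∞) = 1 + 1 by norm_num, contDiffOn_succ_iff_deriv_of_isOpen isOpen_Ioi]
  refine ⟨fun t ht => (h1 t ht).differentiableWithinAt, by simp, ?_⟩
  rw [show (1 : WithTop ℕ∞) = 0 + 1 by norm_num, contDiffOn_succ_iff_deriv_of_isOpen isOpen_Ioi]
  exact ⟨fun t ht => (h2 t ht).differentiableWithinAt, by simp, contDiffOn_zero.2 h3⟩

theorem V1_orbit_c2 (hk : 2 ≤ k) (h : IsOrbit M F.toFun x ν) :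
    ContDiffOn ℝ 2 x (Ioi 0) ∧ ContDiffOn ℝ 2 ν (Ioi 0) :=
  ⟨V1_c2 (fun t ht => (h t ht).2.1) (fun t ht => (h t ht).2.2.2.1) (V1_x2_cont hk h),
    V1_c2 (fun t ht => (h t ht).2.2.1) (fun t ht => (h t ht).2.2.2.2.1) (V1_nu2_cont hk h)⟩

end orbit

end EscN.T
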