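import Pool.Agent.EscN.V1a

/-!
Project ESCN, V1, second part: orbits are stationary for the mechanical action.
-/

noncomputable section

namespace EscN.T

open Filter Topology Set MeasureTheory
open scoped ContDiff

variable {n m : ℕ}

section partials

variable {V : Type*} [NormedAddCommGroup V] [NormedSpace ℝ V] {Z : ℝ × ℝ → V}

lemma V1_pd_s (hZ : ContDiff ℝ 2 Z) (s t : ℝ) :
    HasDerivAt (fun s' => Z (s', t)) (fderiv ℝ Z (s, t) (1, 0)) s := by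
  have h1 : HasFDerivAt Z (fderiv ℝ Z (s, t)) (s, t) :=
    (hZ.differentiable (by norm_num) (s, t)).hasFDerivAt
  exact h1.comp_hasDerivAt s ((hasDerivAt_id s).prodMk (hasDerivAt_const s t))

lemma V1_pd_t (hZ : ContDiff ℝ 2 Z) (s t : ℝ) :
    HasDerivAt (fun t' => Z (s, t')) (fderiv ℝ Z (s, t) (0, 1)) t := by
  have h1 : HasFDerivAt Z (fderiv ℝ Z (s, t)) (s, t) :=
    (hZ.differentiable (by norm_num) (s, t)).hasFDerivAt
  exact h1.comp_hasDerivAt t ((hasDerivAt_const t s).prodMk (hasDerivAt_id t))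

lemma V1_D2 (hZ : ContDiff ℝ 2 Z) (q v : ℝ × ℝ) :
    HasFDerivAt (fun q => fderiv ℝ Z q v) ((fderiv ℝ (fderiv ℝ Z) q).flip v) q := by
  have h1 : HasFDerivAt (fderiv ℝ Z) (fderiv ℝ (fderiv ℝ Z) q) q :=
    ((hZ.fderiv_right (m := 1) (by norm_num)).differentiable (by norm_num) q).hasFDerivAt
  have h2 := h1.clm_apply (hasFDerivAt_const v q)
  simpa using h2

lemma V1_D2_s (hZ : ContDiff ℝ 2 Z) (v : ℝ × ℝ) (s t : ℝ) :
    HasDerivAt (fun s' => fderiv ℝ Z (s', t) v) (fderiv ℝ (fderiv ℝ Z) (s, t) (1, 0) v) s := by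
  have h3 : HasDerivAt (fun s' : ℝ => ((s', t) : ℝ × ℝ)) (1, 0) s :=
    (hasDerivAt_id s).prodMk (hasDerivAt_const s t)
  have h2 : HasDerivAt (fun s' => fderiv ℝ Z (s', t) v)
      ((fderiv ℝ (fderiv ℝ Z) (s, t)).flip v (1, 0)) s :=
    (V1_D2 hZ (s, t) v).comp_hasDerivAt (f := fun s' : ℝ => ((s', t) : ℝ × ℝ)) s h3
  rwa [ContinuousLinearMap.flip_apply] at h2

lemma V1_D2_t (hZ : ContDiff ℝ 2 Z) (v : ℝ × ℝ) (s t : ℝ) :
    HasDerivAt (fun t' => fderiv ℝ Z (s, t') v) (fderiv ℝ (fderiv ℝ Z) (s, t) (0, 1) v) t := by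
  have h2 : HasDerivAt (fun t' => fderiv ℝ Z (s, t') v)
      ((fderiv ℝ (fderiv ℝ Z) (s, t)).flip v (0, 1)) t :=
    (V1_D2 hZ (s, t) v).comp_hasDerivAt t ((hasDerivAt_const t s).prodMk (hasDerivAt_id t))
  rwa [ContinuousLinearMap.flip_apply] at h2

lemma V1_D2_symm (hZ : ContDiff ℝ 2 Z) (q v w : ℝ × ℝ) :
    fderiv ℝ (fderiv ℝ Z) q v w = fderiv ℝ (fderiv ℝ Z) q w v :=
  (hZ.contDiffAt.isSymmSndFDerivAt (by simp)) v w

lemma V1_D_cont (hZ : ContDiff ℝ 2 Z) (v : ℝ × ℝ) : Continuous fun q => fderiv ℝ Z q v :=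
  (hZ.continuous_fderiv (by norm_num)).clm_apply continuous_const

lemma V1_D2_cont (hZ : ContDiff ℝ 2 Z) (v w : ℝ × ℝ) :
    Continuous fun q => fderiv ℝ (fderiv ℝ Z) q v w :=
  (((hZ.fderiv_right (m := 1) (by norm_num)).continuous_fderiv (by norm_num)).clm_apply
    continuous_const).clm_apply continuous_const

/-- the second time derivative of a curve which is given on an interval -/
lemma V1_second (hZ : ContDiff ℝ 2 Z) {z : ℝ → V} {a b : ℝ} (h : ∀ t ∈ Icc a b, Z (0, t) = z t)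
    {t : ℝ} (ht : t ∈ Ioo a b) : fderiv ℝ Z (0, t) (0, 1) = deriv z t ∧
      fderiv ℝ (fderiv ℝ Z) (0, t) (0, 1) (0, 1) = deriv (deriv z) t := by
  have h1 : ∀ t ∈ Ioo a b, fderiv ℝ Z (0, t) (0, 1) = deriv z t := by
    intro t ht
    have h2 : (fun t' => Z (0, t')) =ᶠ[𝓝 t] z := by
      filter_upwards [Ioo_mem_nhds ht.1 ht.2] with t' ht'
      exact h t' (Ioo_subset_Icc_self ht')
    rw [← h2.deriv_eq]
    exact (V1_pd_t hZ 0 t).deriv.symm
  refine ⟨h1 t ht, ?_⟩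
  have h2 : (fun t' => fderiv ℝ Z (0, t') (0, 1)) =ᶠ[𝓝 t] deriv z := by
    filter_upwards [Ioo_mem_nhds ht.1 ht.2] with t' ht'
    exact h1 t' ht'
  rw [← h2.deriv_eq]
  exact (V1_D2_t hZ (0, 1) 0 t).deriv.symm

end partials

/-- variations are tangent -/
lemma V1_var_tan (M : FlatBundle n m) {Y : ℝ × ℝ → Vec m} (hY : ContDiff ℝ 2 Y) (hN : ∀ q, Y q ∈ M.N)
    (q v : ℝ × ℝ) : fderiv ℝ M.r (Y q) (fderiv ℝ Y q v) = fderiv ℝ Y q v := by
  have h1 : HasFDerivAt Y (fderiv ℝ Y q) q := (hY.differentiable (by norm_num) q).hasFDerivAt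
  have h2 : HasFDerivAt (M.r ∘ Y) ((fderiv ℝ M.r (Y q)).comp (fderiv ℝ Y q)) q :=
    (V1_r_diff M (M.sub (hN q))).hasFDerivAt.comp q h1
  have h3 : M.r ∘ Y = Y := by
    funext q
    exact V1_r_id M (hN q)
  rw [h3] at h2
  have h4 := congrArg (fun A : (ℝ × ℝ) →L[ℝ] Vec m => A v) (h2.unique h1)
  simpa using h4

theorem V1_stationary {M : FlatBundle n m} {k : ℕ∞} (hk : 2 ≤ k) (F : Pot M k) {x : ℝ → Vec n}
    {ν : ℝ → Vec m} (h : IsOrbit M F.toFun x ν) {a b : ℝ} (ha : 0 < a) (hab : a < b)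
    {X : ℝ × ℝ → Vec n} {Y : ℝ × ℝ → Vec m} (hX : ContDiff ℝ 2 X) (hY : ContDiff ℝ 2 Y)
    (hN : ∀ q, Y q ∈ M.N) (h0 : ∀ t ∈ Icc a b, X (0, t) = x t ∧ Y (0, t) = ν t)
    (he : ∀ s, X (s, a) = x a ∧ Y (s, a) = ν a ∧ X (s, b) = x b ∧ Y (s, b) = ν b) :
    HasDerivAt (fun s => ∫ t in a..b, ((‖fderiv ℝ X (s, t) (0, 1)‖ ^ 2 +
      ‖fderiv ℝ Y (s, t) (0, 1)‖ ^ 2) / 2 + F.toFun (X (s, t), Y (s, t), t))) 0 0 := by
  obtain ⟨G', hG'⟩ : ∃ G' : ℝ → ℝ → ℝ, G' = fun s t =>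
      (inner ℝ (fderiv ℝ X (s, t) (0, 1)) (fderiv ℝ (fderiv ℝ X) (s, t) (1, 0) (0, 1)) : ℝ) +
      (inner ℝ (fderiv ℝ Y (s, t) (0, 1)) (fderiv ℝ (fderiv ℝ Y) (s, t) (1, 0) (0, 1)) : ℝ) +
      fderiv ℝ F.toFun (X (s, t), Y (s, t), t) (fderiv ℝ X (s, t) (1, 0), fderiv ℝ Y (s, t) (1, 0), 0) :=
    ⟨_, rfl⟩
  have hpath : Continuous fun q : ℝ × ℝ => ((X q, Y q, q.2) : Vec n × Vec m × ℝ) :=
    hX.continuous.prodMk (hY.continuous.prodMk continuous_snd)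
  have hmem : ∀ q : ℝ × ℝ, ((X q, Y q, q.2) : Vec n × Vec m × ℝ) ∈
      {q : Vec n × Vec m × ℝ | q.2.1 ∈ M.U} := fun q => M.sub (hN q)
  have hDF : Continuous fun q : ℝ × ℝ => fderiv ℝ F.toFun (X q, Y q, q.2) :=
    (V1_DF_cont hk F).comp_continuous hpath hmem
  have hFc : Continuous fun q : ℝ × ℝ => F.toFun (X q, Y q, q.2) :=
    F.contDiff.continuousOn.comp_continuous hpath hmem
  have hG'c : Continuous fun q : ℝ × ℝ => G' q.1 q.2 := by
    rw [hG']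
    refine (((V1_D_cont hX _).inner (V1_D2_cont hX _ _)).add
      ((V1_D_cont hY _).inner (V1_D2_cont hY _ _))).add (hDF.clm_apply ?_)
    exact (V1_D_cont hX _).prodMk ((V1_D_cont hY _).prodMk continuous_const)
  have hGc : Continuous fun q : ℝ × ℝ => ((‖fderiv ℝ X q (0, 1)‖ ^ 2 +
      ‖fderiv ℝ Y q (0, 1)‖ ^ 2) / 2 + F.toFun (X q, Y q, q.2)) :=
    ((((V1_D_cont hX _).norm.pow 2).add ((V1_D_cont hY _).norm.pow 2)).div_const 2).add hFc
  have hsec : ∀ s : ℝ, Continuous fun t : ℝ => ((s, t) : ℝ × ℝ) := fun s =>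
    continuous_const.prodMk continuous_id
  have hd : ∀ s t, HasDerivAt (fun s => (‖fderiv ℝ X (s, t) (0, 1)‖ ^ 2 +
      ‖fderiv ℝ Y (s, t) (0, 1)‖ ^ 2) / 2 + F.toFun (X (s, t), Y (s, t), t)) (G' s t) s := by
    intro s t
    have h1 := (V1_D2_s hX (0, 1) s t).norm_sq
    have h2 := (V1_D2_s hY (0, 1) s t).norm_sq
    have h3 : HasDerivAt (fun s' => ((X (s', t), Y (s', t), t) : Vec n × Vec m × ℝ))
        (fderiv ℝ X (s, t) (1, 0), fderiv ℝ Y (s, t) (1, 0), 0) s :=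
      (V1_pd_s hX s t).prodMk ((V1_pd_s hY s t).prodMk (hasDerivAt_const s t))
    have h4 : HasFDerivAt F.toFun (fderiv ℝ F.toFun (X (s, t), Y (s, t), t))
        ((X (s, t), Y (s, t), t) : Vec n × Vec m × ℝ) :=
      (V1_F_diff hk F (M.sub (hN (s, t)))).hasFDerivAt
    have h5 := h4.comp_hasDerivAt s h3
    have h6 := ((h1.add h2).div_const 2).add h5
    refine (h6.congr_deriv ?_)
    rw [hG']
    ring
  obtain ⟨C, hC⟩ := (isCompact_Icc.prod isCompact_Icc : IsCompact (Icc (-1 : ℝ) 1 ×ˢ Icc a b)).exists_bound_of_continuousOn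
    hG'c.continuousOn
  have hmain := intervalIntegral.hasDerivAt_integral_of_dominated_loc_of_deriv_le (μ := volume)
    (F := fun s t => (‖fderiv ℝ X (s, t) (0, 1)‖ ^ 2 +
      ‖fderiv ℝ Y (s, t) (0, 1)‖ ^ 2) / 2 + F.toFun (X (s, t), Y (s, t), t)) (F' := G') (x₀ := (0 : ℝ))
    (s := Icc (-1 : ℝ) 1) (bound := fun _ => C) (a := a) (b := b)
    (Icc_mem_nhds (by norm_num) (by norm_num))
    (Eventually.of_forall fun s => (hGc.comp (hsec s)).aestronglyMeasurable)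
    ((hGc.comp (hsec 0)).intervalIntegrable a b)
    ((hG'c.comp (hsec 0)).aestronglyMeasurable)
    (Eventually.of_forall fun t ht s hs => hC (s, t) ⟨hs, by
      rw [uIoc_of_le hab.le] at ht
      exact Ioc_subset_Icc_self ht⟩)
    intervalIntegrable_const
    (Eventually.of_forall fun t _ s _ => hd s t)
  have hzero : ∫ t in a..b, G' 0 t = 0 := by
    have hHd : ∀ t, HasDerivAt (fun t => (inner ℝ (fderiv ℝ X (0, t) (0, 1)) (fderiv ℝ X (0, t) (1, 0)) : ℝ) +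
        (inner ℝ (fderiv ℝ Y (0, t) (0, 1)) (fderiv ℝ Y (0, t) (1, 0)) : ℝ))
        (((inner ℝ (fderiv ℝ X (0, t) (0, 1)) (fderiv ℝ (fderiv ℝ X) (0, t) (0, 1) (1, 0)) : ℝ) +
          (inner ℝ (fderiv ℝ (fderiv ℝ X) (0, t) (0, 1) (0, 1)) (fderiv ℝ X (0, t) (1, 0)) : ℝ)) +
         ((inner ℝ (fderiv ℝ Y (0, t) (0, 1)) (fderiv ℝ (fderiv ℝ Y) (0, t) (0, 1) (1, 0)) : ℝ) +
          (inner ℝ (fderiv ℝ (fderiv ℝ Y) (0, t) (0, 1) (0, 1)) (fderiv ℝ Y (0, t) (1, 0)) : ℝ))) t :=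
      fun t => ((V1_D2_t hX (0, 1) 0 t).inner ℝ (V1_D2_t hX (1, 0) 0 t)).add
        ((V1_D2_t hY (0, 1) 0 t).inner ℝ (V1_D2_t hY (1, 0) 0 t))
    have hev : ∀ t ∈ Ioo a b, HasDerivAt (fun t =>
        (inner ℝ (fderiv ℝ X (0, t) (0, 1)) (fderiv ℝ X (0, t) (1, 0)) : ℝ) +
        (inner ℝ (fderiv ℝ Y (0, t) (0, 1)) (fderiv ℝ Y (0, t) (1, 0)) : ℝ)) (G' 0 t) t := by
      intro t ht
      refine (hHd t).congr_deriv ?_
      have ht0 : 0 < t := ha.trans ht.1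
      obtain ⟨hx0, hν0⟩ := h0 t (Ioo_subset_Icc_self ht)
      have h1 := V1_orbit_eq hk h ht0 (fderiv ℝ X (0, t) (1, 0)) (η := fderiv ℝ Y (0, t) (1, 0)) (by
        rw [← hν0]
        exact V1_var_tan M hY hN (0, t) (1, 0))
      rw [(V1_second hX (fun t ht => (h0 t ht).1) ht).2, (V1_second hY (fun t ht => (h0 t ht).2) ht).2,
        V1_D2_symm hX (0, t) (0, 1) (1, 0), V1_D2_symm hY (0, t) (0, 1) (1, 0), hG']
      simp only
      rw [hx0, hν0, h1]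
      ring
    have hHc : Continuous fun t : ℝ => (inner ℝ (fderiv ℝ X (0, t) (0, 1)) (fderiv ℝ X (0, t) (1, 0)) : ℝ) +
        (inner ℝ (fderiv ℝ Y (0, t) (0, 1)) (fderiv ℝ Y (0, t) (1, 0)) : ℝ) :=
      continuous_iff_continuousAt.2 fun t => (hHd t).continuousAt
    rw [intervalIntegral.integral_eq_sub_of_hasDerivAt_of_le hab.le hHc.continuousOn hev
      ((hG'c.comp (hsec 0)).intervalIntegrable a b)]
    have hXa : fderiv ℝ X (0, a) (1, 0) = 0 := by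
      refine (V1_pd_s hX 0 a).unique ?_
      have : (fun s' => X (s', a)) = fun _ => x a := funext fun s => (he s).1
      rw [this]
      exact hasDerivAt_const _ _
    have hXb : fderiv ℝ X (0, b) (1, 0) = 0 := by
      refine (V1_pd_s hX 0 b).unique ?_
      have : (fun s' => X (s', b)) = fun _ => x b := funext fun s => (he s).2.2.1
      rw [this]
      exact hasDerivAt_const _ _
    have hYa : fderiv ℝ Y (0, a) (1, 0) = 0 := by
      refine (V1_pd_s hY 0 a).unique ?_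
      have : (fun s' => Y (s', a)) = fun _ => ν a := funext fun s => (he s).2.1
      rw [this]
      exact hasDerivAt_const _ _
    have hYb : fderiv ℝ Y (0, b) (1, 0) = 0 := by
      refine (V1_pd_s hY 0 b).unique ?_
      have : (fun s' => Y (s', b)) = fun _ => ν b := funext fun s => (he s).2.2.2
      rw [this]
      exact hasDerivAt_const _ _
    rw [hXa, hXb, hYa, hYb]
    simp
  have h1 := hmain.2
  rw [hzero] at h1
  exact h1

end EscN.T
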