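import Pool.Agent.EscN.TDefs

/-!
Lagrangians on `M = (ℝⁿ × N)/ℤⁿ` and their Euler-Lagrange orbits (project ESCN).
-/

namespace EscN.T

open Filter Topology Set
open scoped ContDiff

variable {n m : ℕ}

/-- Lagrangians: functions of `(x, ν, ξ, η, t)`, where `(ξ, η)` is the velocity at the point `(x, ν)` of
`ℝⁿ × N`. -/
abbrev Lag (n m : ℕ) := Vec n → Vec m → Vec n → Vec m → ℝ → ℝ

/-- `η` is tangent to `N` at `ν` -/
def IsTangent (M : FlatBundle n m) (ν η : Vec m) : Prop := fderiv ℝ M.r ν η = η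

/-- `(x, ν)` is an orbit, on `(0,∞)`, of the Euler-Lagrange flow of `L` on `ℝⁿ × N`: it is a `C²`
curve in `ℝⁿ × N`, and the action is stationary for all `C²` variations `(X, Y)` in `ℝⁿ × N` on
compact time intervals with fixed end points. -/
def IsExtremal (M : FlatBundle n m) (L : Lag n m) (x : ℝ → Vec n) (ν : ℝ → Vec m) : Prop :=
  ContDiffOn ℝ 2 x (Ioi 0) ∧ ContDiffOn ℝ 2 ν (Ioi 0) ∧ (∀ t, 0 < t → ν t ∈ M.N) ∧
    ∀ (a b : ℝ) (X : ℝ × ℝ → Vec n) (Y : ℝ × ℝ → Vec m), 0 < a → a < b →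
      ContDiff ℝ 2 X → ContDiff ℝ 2 Y → (∀ q, Y q ∈ M.N) →
      (∀ t ∈ Icc a b, X (0, t) = x t ∧ Y (0, t) = ν t) →
      (∀ s, X (s, a) = x a ∧ Y (s, a) = ν a ∧ X (s, b) = x b ∧ Y (s, b) = ν b) →
      HasDerivAt (fun s => ∫ t in a..b, L (X (s, t)) (Y (s, t)) (deriv (fun t' => X (s, t')) t)
        (deriv (fun t' => Y (s, t')) t) t) 0 0

/-- The Euler-Lagrange flow of `L` has an orbit that tends to infinity. -/
def EscapesToInfinity (M : FlatBundle n m) (L : Lag n m) : Prop :=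
  ∃ (x : ℝ → Vec n) (ν : ℝ → Vec m), IsExtremal M L x ν ∧
    Tendsto (fun t => ‖deriv x t‖ ^ 2 + ‖deriv ν t‖ ^ 2) atTop atTop

/-- For large velocities `L` is kinetic energy plus the potential `F`. -/
def IsMechAtInfinity (M : FlatBundle n m) (L : Lag n m) (F : Fun n m) : Prop :=
  ∃ R : ℝ, ∀ x ν ξ η t, ν ∈ M.N → IsTangent M ν η → R ≤ ‖ξ‖ ^ 2 + ‖η‖ ^ 2 →
    L x ν ξ η t = (‖ξ‖ ^ 2 + ‖η‖ ^ 2) / 2 + F (x, ν, t)

end EscN.T
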