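import Pool.Agent.EscN.TResult
import Pool.Agent.EscN.V1

/-!
The result of project ESCN for Lagrangians which are mechanical at infinity.
-/

namespace EscN.T

open Filter Topology Set
open scoped ContDiff

variable {n m : ℕ}

theorem result' (hn : 2 ≤ n) {k : ℕ∞} (hk : 2 ≤ k) (M : FlatBundle n m) (V : Pot M k) (L : Lag n m)
    (hL : IsMechAtInfinity M L V.toFun) :
    {f : Pot M k | EscapesToInfinity M (fun x ν ξ η t => L x ν ξ η t + f.toFun (x, ν, t))} ∈ residual (Pot M k) ∧
      Dense {f : Pot M k | EscapesToInfinity M (fun x ν ξ η t => L x ν ξ η t + f.toFun (x, ν, t))} := by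
  have hsub : {f : Pot M k | HasEscapingOrbit M (V.toFun + f.toFun)} ⊆
      {f : Pot M k | EscapesToInfinity M (fun x ν ξ η t => L x ν ξ η t + f.toFun (x, ν, t))} := by
    intro f hf
    refine extremal_of_orbit M hk (padd V f) _ ?_ hf
    obtain ⟨R, hR⟩ := hL
    refine ⟨R, fun x ν ξ η t hν hη hv => ?_⟩
    show L x ν ξ η t + f.toFun (x, ν, t) = _
    rw [hR x ν ξ η t hν hη hv, padd_toFun, Pi.add_apply, add_assoc]
  obtain ⟨h1, h2⟩ := result hn hk M V
  exact ⟨mem_of_superset h1 hsub, h2.mono hsub⟩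

end EscN.T
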